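import Pool.Agent.Q254.PS.Tab

set_option autoImplicit false

namespace Pool.Agent.Q254.PS

/-- forces the evaluation of `w` -/
noncomputable def seq (w : Nat) (k : Nat → Nat) : Nat :=
  Nat.rec (motive := fun _ => Nat) (k (nat_lit 0)) (fun n _ => k (Nat.succ n)) w

/-- forces the evaluation of `w` -/
noncomputable def seqB (w : Nat) (k : Nat → Bool) : Bool :=
  Nat.rec (motive := fun _ => Bool) (k (nat_lit 0)) (fun n _ => k (Nat.succ n)) w

noncomputable def ite' (b : Bool) (x y : Nat) : Nat := Bool.rec (motive := fun _ => Nat) y x b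
noncomputable def an (b c : Bool) : Bool := Bool.rec (motive := fun _ => Bool) false c b

/-- the number with the digits `0, 1, ..., 343` in base 65536 -/
def IX : Nat := nat_lit 0x1570156015501540153015201510150014f014e014d014c014b014a0149014801470146014501440143014201410140013f013e013d013c013b013a0139013801370136013501340133013201310130012f012e012d012c012b012a0129012801270126012501240123012201210120011f011e011d011c011b011a0119011801170116011501140113011201110110010f010e010d010c010b010a010901080107010601050104010301020101010000ff00fe00fd00fc00fb00fa00f900f800f700f600f500f400f300f200f100f000ef00ee00ed00ec00eb00ea00e900e800e700e600e500e400e300e200e100e000df00de00dd00dc00db00da00d900d800d700d600d500d400d300d200d100d000cf00ce00cd00cc00cb00ca00c900c800c700c600c500c400c300c200c100c000bf00be00bd00bc00bb00ba00b900b800b700b600b500b400b300b200b100b000af00ae00ad00ac00ab00aa00a900a800a700a600a500a400a300a200a100a0009f009e009d009c009b009a0099009800970096009500940093009200910090008f008e008d008c008b008a0089008800870086008500840083008200810080007f007e007d007c007b007a0079007800770076007500740073007200710070006f006e006d006c006b006a0069006800670066006500640063006200610060005f005e005d005c005b005a0059005800570056005500540053005200510050004f004e004d004c004b004a0049004800470046004500440043004200410040003f003e003d003c003b003a0039003800370036003500340033003200310030002f002e002d002c002b002a0029002800270026002500240023002200210020001f001e001d001c001b001a0019001800170016001500140013001200110010000f000e000d000c000b000a0009000800070006000500040003000200010000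

noncomputable def lfC (lo bc A z : Nat) : Nat :=
  Nat.add bc (Nat.mod (Nat.mod A (Nat.pow (nat_lit 65536)
    (Nat.div (Nat.sub (Nat.succ z) lo) (nat_lit 2)))) (nat_lit 65535))

noncomputable def lfS (lo bs A z : Nat) : Nat :=
  seq (Nat.mod A (Nat.pow (nat_lit 65536) (Nat.div (Nat.sub (Nat.succ z) lo) (nat_lit 2))))
    fun y => Nat.add bs (Nat.add (Nat.mul (Nat.succ lo) (Nat.mod y (nat_lit 65535)))
      (Nat.mul (nat_lit 2) (Nat.mod (Nat.land (Nat.mul y (nat_lit 65535)) IX) (nat_lit 65535))))

/-- the number of the odd primes `≤ z` -/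
noncomputable def getC (t : T) : Nat → Nat :=
  T.rec (motive := fun _ => Nat → Nat)
    (fun lo bc _ A z => lfC lo bc A z)
    (fun m _ _ ihl ihr z => ite' (Nat.ble m z) (ihr z) (ihl z)) t

/-- the sum of the odd primes `≤ z` -/
noncomputable def getS (t : T) : Nat → Nat :=
  T.rec (motive := fun _ => Nat → Nat)
    (fun lo _ bs A z => lfS lo bs A z)
    (fun m _ _ ihl ihr z => ite' (Nat.ble m z) (ihr z) (ihl z)) t

noncomputable def fstC (t : T) : Nat :=
  T.rec (motive := fun _ => Nat) (fun _ bc _ _ => bc) (fun _ _ _ ihl _ => ihl) t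

noncomputable def fstS (t : T) : Nat :=
  T.rec (motive := fun _ => Nat) (fun _ _ bs _ => bs) (fun _ _ _ ihl _ => ihl) t

/-- checks the tree `t` of the `2 ^ d * 344` odd integers from `2 * i0 + 1` on against the number
`F` of the sieve -/
noncomputable def chk (t : T) : (d i0 F c s cE sE : Nat) → Bool :=
  T.rec (motive := fun _ => Nat → Nat → Nat → Nat → Nat → Nat → Nat → Bool)
    (fun lo bc bs A d i0 F c s cE sE =>
      an (Nat.beq d (nat_lit 0)) (an (Nat.beq lo (Nat.mul (nat_lit 2) i0))
      (an (Nat.beq A F) (an (Nat.beq bc c) (an (Nat.beq bs s)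
      (an (Nat.beq cE (lfC lo bc A (Nat.add lo (nat_lit 687))))
        (Nat.beq sE (lfS lo bs A (Nat.add lo (nat_lit 687))))))))))
    (fun m _ r ihl ihr d i0 F c s cE sE =>
      an (Nat.ble (nat_lit 1) d) (seqB (Nat.sub d (nat_lit 1)) fun d' =>
        seqB (Nat.mul (nat_lit 344) (Nat.pow (nat_lit 2) d')) fun n2 =>
        seqB (Nat.add i0 n2) fun i1 => an (Nat.beq m (Nat.mul (nat_lit 2) i1))
        (seqB (fstC r) fun c' => seqB (fstS r) fun s' =>
        an (seqB (Nat.mod F (Nat.pow (nat_lit 65536) n2)) fun Fl => ihl d' i0 Fl c s c' s')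
          (seqB (Nat.div F (Nat.pow (nat_lit 65536) n2)) fun Fr => ihr d' i1 Fr c' s' cE sE)))) t

/-- the index (from `i0` on) of the first odd multiple of `d` which is at least `d ^ 2` -/
noncomputable def start (d i0 : Nat) : Nat :=
  seq (Nat.div (Nat.mul d d) (nat_lit 2)) fun a =>
  ite' (Nat.ble i0 a) (Nat.sub a i0)
    (Nat.mod (Nat.add (Nat.div d (nat_lit 2)) (Nat.mul (Nat.sub d (nat_lit 1)) i0)) d)

noncomputable def dbl (d M0 k : Nat) : Nat :=
  Nat.rec (motive := fun _ => Nat) M0 (fun k' ih => seq ih fun M =>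
    Nat.lor M (Nat.shiftLeft M (Nat.mul (Nat.mul (nat_lit 16) d) (Nat.pow (nat_lit 2) k')))) k

noncomputable def mask (d i0 len : Nat) : Nat :=
  seq (start d i0) fun s => ite' (Nat.ble len s) (nat_lit 0)
    (dbl d (Nat.pow (nat_lit 65536) s) (Nat.succ (Nat.log2 (Nat.div (Nat.sub len s) d))))

noncomputable def orr (i0 len k : Nat) : Nat → Nat :=
  Nat.rec (motive := fun _ => Nat → Nat) (fun d => mask d i0 len)
    (fun k' ih d => Nat.lor (ih d) (seq (Nat.add d (Nat.pow (nat_lit 2) (Nat.succ k'))) fun e =>
      ih e)) k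

/-- checks the tree of `len` odd integers against the sieve -/
noncomputable def chkSegG (len k d : Nat) (t : T) (i0 c s cE sE : Nat) : Bool :=
  seqB (Nat.lor (ite' (Nat.beq i0 (nat_lit 0)) (nat_lit 1) (nat_lit 0))
    (orr i0 len k (nat_lit 3))) fun W =>
  seqB (Nat.div (Nat.pow (nat_lit 65536) len) (nat_lit 65535)) fun O =>
  seqB (Nat.sub O (Nat.land W O)) fun F =>
  chk t d i0 F c s cE sE

/-- `44032 = 344 * 2 ^ 7` -/
noncomputable def chkSeg (t : T) (i0 c s cE sE : Nat) : Bool :=
  chkSegG (nat_lit 44032) (nat_lit 10) (nat_lit 7) t i0 c s cE sE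

/-- list of primes in descending order: `q`, `q ^ 2`, `e = π_odd(q-1)`, `s = S_odd(q-1)` -/
inductive PL where
  | nil : PL
  | cons (q q2 e s : Nat) (t : PL) : PL

/-- Legendre's recursion for the sum of `g n` over the integers `n ≤ w` free of the primes of
the list (and of 2, 3, 5, 7, 11) -/
noncomputable def phi (g W G : Nat → Nat) (sel : Nat → Nat → Nat) (L : PL) : Nat → Nat :=
  PL.rec (motive := fun _ => Nat → Nat) W
    (fun q q2 e s _ ih w => seq (Nat.div w q) fun v =>
      Nat.sub (ih w) (Nat.mul (g q) (ite' (Nat.ble (Nat.succ v) q2)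
        (Nat.sub (Nat.succ (G v)) (sel e s)) (ih v)))) L

/-- the terms of the first `m` primes of the list in Legendre's recursion for `x` -/
noncomputable def grp (g W G : Nat → Nat) (sel : Nat → Nat → Nat) (x : Nat) (L : PL) :
    Nat → Nat :=
  PL.rec (motive := fun _ => Nat → Nat) (fun _ => nat_lit 0)
    (fun q q2 e s t ih m => Nat.rec (motive := fun _ => Nat) (nat_lit 0) (fun m' _ =>
       Nat.add (seq (Nat.div x q) fun v => Nat.mul (g q) (ite' (Nat.ble (Nat.succ v) q2)
        (Nat.sub (Nat.succ (G v)) (sel e s)) (phi g W G sel t v))) (ih m')) m) L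

noncomputable def hd (L : PL) : Nat := PL.rec (motive := fun _ => Nat) (nat_lit 12) (fun q _ _ _ _ _ => q) L

/-- checks the entries of the first `m` primes of the list with the table -/
noncomputable def chkL (L : PL) : Nat → Bool :=
  PL.rec (motive := fun _ => Nat → Bool) (fun _ => true)
    (fun q q2 e s t ih m => Nat.rec (motive := fun _ => Bool) true (fun m' _ =>
       an (Nat.ble (Nat.succ (hd t)) q) (an (Nat.beq q2 (Nat.mul q q))
       (seqB (Nat.sub q (nat_lit 1)) fun q' => an (Nat.beq e (getC tbl q'))
       (an (Nat.beq s (getS tbl q')) (an (Nat.beq (Nat.succ e) (getC tbl q))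
       (an (Nat.beq e (getC tbl (hd t))) (ih m'))))))) m) L

end Pool.Agent.Q254.PS
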