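import Pool.Agent.Q254.PS.Main

set_option autoImplicit false
set_option maxRecDepth 100000

namespace Pool.Agent.Q254.PS

open Finset

/-! ### the number and the sum of the odd primes up to the two bounds -/

theorem fin1 {g : ℕ → ℕ} {x q k j P E V : ℕ} (h1 : Ps g x (q + 1) = P) (hone : g 1 = 1)
    (hk : q ≤ j) (hj : k = j + 1) (hno : O (fun _ => 1) j ≤ O (fun _ => 1) q) (hE : O g j = E)
    (hx : x < k * k) (hq : 2 ≤ q) (hkx : k ≤ x + 1) (hV : P + E = V + 1) : O g x = V := by
  subst hj
  have h2 : Ps g x (j + 1) = P := by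
    rw [← h1]
    symm
    refine Ps_congr g x (by omega) fun p hp hp' => ?_
    have := no_prime hq hno hp hp'
    omega
  have h3 := Ps_easy g hx (by omega) hkx
  rw [h2, Nat.add_sub_cancel, hE, hone] at h3
  omega

theorem tC (z v : ℕ) (hz : z < 2818048) (h : getC tbl z = v) : O (fun _ => 1) z = v :=
  (tbl_ok z hz).1.symm.trans h

theorem tS (z v : ℕ) (hz : z < 2818048) (h : getS tbl z = v) : O (fun n => n) z = v :=
  (tbl_ok z hz).2.symm.trans h

theorem oC47681 : O (fun _ => 1) 47681 = 4914 := tC _ _ (by norm_num) (by decide +kernel)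
theorem oS47681 : O (fun n => n) 47681 = 110362622 := tS _ _ (by norm_num) (by decide +kernel)
theorem oC47693 : O (fun _ => 1) 47693 = 4914 := tC _ _ (by norm_num) (by decide +kernel)
theorem oS47693 : O (fun n => n) 47693 = 110362622 := tS _ _ (by norm_num) (by decide +kernel)
theorem oC68639 : O (fun _ => 1) 68639 = 6822 := tC _ _ (by norm_num) (by decide +kernel)
theorem oS68639 : O (fun n => n) 68639 = 221129138 := tS _ _ (by norm_num) (by decide +kernel)

theorem O1C : O (fun _ => 1) 2274652151 = 111008770 := by
  have h1 : Ps (fun _ => 1) 2274652151 (47681 + 1) = 111003857 := p1C_21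
  exact fin1 (k := 47694) (j := 47693) (E := 4914) h1 rfl (by norm_num) (by norm_num)
    (by rw [oC47693, oC47681]) oC47693 (by norm_num) (by norm_num) (by norm_num) (by norm_num)

theorem O1S : O (fun n => n) 2274652151 = 123000806832826926 := by
  have h1 : Ps (fun n => n) 2274652151 (47681 + 1) = 123000806722464305 := p1S_21
  exact fin1 (k := 47694) (j := 47693) (E := 110362622) h1 rfl (by norm_num) (by norm_num)
    (by rw [oC47693, oC47681]) oS47693 (by norm_num) (by norm_num) (by norm_num) (by norm_num)

theorem O2C : O (fun _ => 1) 4711447171 = 222017541 := by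
  have h1 : Ps (fun _ => 1) 4711447171 (68639 + 1) = 222010720 := p2C_26
  exact fin1 (k := 68640) (j := 68639) (E := 6822) h1 rfl (by norm_num) (by norm_num)
    (by rw [oC68639]) oC68639 (by norm_num) (by norm_num) (by norm_num) (by norm_num)

theorem O2S : O (fun n => n) 4711447171 = 510024998640309371 := by
  have h1 : Ps (fun n => n) 4711447171 (68639 + 1) = 510024998419180234 := p2S_26
  exact fin1 (k := 68640) (j := 68639) (E := 221129138) h1 rfl (by norm_num) (by norm_num)
    (by rw [oC68639]) oS68639 (by norm_num) (by norm_num) (by norm_num) (by norm_num)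

end Pool.Agent.Q254.PS
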