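import Pool.Agent.Q254.PS.Core
set_option autoImplicit false
set_option maxRecDepth 100000
namespace Pool.Agent.Q254.PS

def L0 : PL := (PL.cons (nat_lit 127) (nat_lit 16129) (nat_lit 29) (nat_lit 1591) (PL.cons (nat_lit 113) (nat_lit 12769) (nat_lit 28) (nat_lit 1478) (PL.cons (nat_lit 109) (nat_lit 11881) (nat_lit 27) (nat_lit 1369) (PL.cons (nat_lit 107) (nat_lit 11449) (nat_lit 26) (nat_lit 1262) (PL.cons (nat_lit 103) (nat_lit 10609) (nat_lit 25) (nat_lit 1159) (PL.cons (nat_lit 101) (nat_lit 10201) (nat_lit 24) (nat_lit 1058) (PL.cons (nat_lit 97) (nat_lit 9409) (nat_lit 23) (nat_lit 961) (PL.cons (nat_lit 89) (nat_lit 7921) (nat_lit 22) (nat_lit 872) (PL.cons (nat_lit 83) (nat_lit 6889) (nat_lit 21) (nat_lit 789) (PL.cons (nat_lit 79) (nat_lit 6241) (nat_lit 20) (nat_lit 710) (PL.cons (nat_lit 73) (nat_lit 5329) (nat_lit 19) (nat_lit 637) (PL.cons (nat_lit 71) (nat_lit 5041) (nat_lit 18) (nat_lit 566) (PL.cons (nat_lit 67) (nat_lit 4489) (nat_lit 17) (nat_lit 499)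 (PL.cons (nat_lit 61) (nat_lit 3721) (nat_lit 16) (nat_lit 438) (PL.cons (nat_lit 59) (nat_lit 3481) (nat_lit 15) (nat_lit 379) (PL.cons (nat_lit 53) (nat_lit 2809) (nat_lit 14) (nat_lit 326) (PL.cons (nat_lit 47) (nat_lit 2209) (nat_lit 13) (nat_lit 279) (PL.cons (nat_lit 43) (nat_lit 1849) (nat_lit 12) (nat_lit 236) (PL.cons (nat_lit 41) (nat_lit 1681) (nat_lit 11) (nat_lit 195) (PL.cons (nat_lit 37) (nat_lit 1369) (nat_lit 10) (nat_lit 158) (PL.cons (nat_lit 31) (nat_lit 961) (nat_lit 9) (nat_lit 127) (PL.cons (nat_lit 29) (nat_lit 841) (nat_lit 8) (nat_lit 98) (PL.cons (nat_lit 23) (nat_lit 529) (nat_lit 7) (nat_lit 75) (PL.cons (nat_lit 19) (nat_lit 361) (nat_lit 6) (nat_lit 56) (PL.cons (nat_lit 17) (nat_lit 289) (nat_lit 5) (nat_lit 39) (PL.cons (nat_lit 13) (nat_lit 169) (nat_lit 4) (nat_lit 26) PL.nil))))))))))))))))))))))))))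

def L1 : PL := (PL.cons (nat_lit 269) (nat_lit 72361) (nat_lit 55) (nat_lit 6599) (PL.cons (nat_lit 263) (nat_lit 69169) (nat_lit 54) (nat_lit 6336) (PL.cons (nat_lit 257) (nat_lit 66049) (nat_lit 53) (nat_lit 6079) (PL.cons (nat_lit 251) (nat_lit 63001) (nat_lit 52) (nat_lit 5828) (PL.cons (nat_lit 241) (nat_lit 58081) (nat_lit 51) (nat_lit 5587) (PL.cons (nat_lit 239) (nat_lit 57121) (nat_lit 50) (nat_lit 5348) (PL.cons (nat_lit 233) (nat_lit 54289) (nat_lit 49) (nat_lit 5115) (PL.cons (nat_lit 229) (nat_lit 52441) (nat_lit 48) (nat_lit 4886) (PL.cons (nat_lit 227) (nat_lit 51529) (nat_lit 47) (nat_lit 4659) (PL.cons (nat_lit 223) (nat_lit 49729) (nat_lit 46) (nat_lit 4436) (PL.cons (nat_lit 211) (nat_lit 44521) (nat_lit 45) (nat_lit 4225) (PL.cons (nat_lit 199) (nat_lit 39601) (nat_lit 44) (nat_lit 4026) (PL.cons (nat_lit 197) (nat_lit 38809) (nat_lit 43) (nat_lit 3829) (PL.cons (nat_lit 193) (nat_lit 37249) (nat_lit 42) (nat_lit 3636) (PL.cons (nat_lit 191) (nat_lit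 36481) (nat_lit 41) (nat_lit 3445) (PL.cons (nat_lit 181) (nat_lit 32761) (nat_lit 40) (nat_lit 3264) (PL.cons (nat_lit 179) (nat_lit 32041) (nat_lit 39) (nat_lit 3085) (PL.cons (nat_lit 173) (nat_lit 29929) (nat_lit 38) (nat_lit 2912) (PL.cons (nat_lit 167) (nat_lit 27889) (nat_lit 37) (nat_lit 2745) (PL.cons (nat_lit 163) (nat_lit 26569) (nat_lit 36) (nat_lit 2582) (PL.cons (nat_lit 157) (nat_lit 24649) (nat_lit 35) (nat_lit 2425) (PL.cons (nat_lit 151) (nat_lit 22801) (nat_lit 34) (nat_lit 2274) (PL.cons (nat_lit 149) (nat_lit 22201) (nat_lit 33) (nat_lit 2125) (PL.cons (nat_lit 139) (nat_lit 19321) (nat_lit 32) (nat_lit 1986) (PL.cons (nat_lit 137) (nat_lit 18769) (nat_lit 31) (nat_lit 1849) (PL.cons (nat_lit 131) (nat_lit 17161) (nat_lit 30) (nat_lit 1718) L0))))))))))))))))))))))))))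

def L2 : PL := (PL.cons (nat_lit 431) (nat_lit 185761) (nat_lit 81) (nat_lit 15535) (PL.cons (nat_lit 421) (nat_lit 177241) (nat_lit 80) (nat_lit 15114) (PL.cons (nat_lit 419) (nat_lit 175561) (nat_lit 79) (nat_lit 14695) (PL.cons (nat_lit 409) (nat_lit 167281) (nat_lit 78) (nat_lit 14286) (PL.cons (nat_lit 401) (nat_lit 160801) (nat_lit 77) (nat_lit 13885) (PL.cons (nat_lit 397) (nat_lit 157609) (nat_lit 76) (nat_lit 13488) (PL.cons (nat_lit 389) (nat_lit 151321) (nat_lit 75) (nat_lit 13099) (PL.cons (nat_lit 383) (nat_lit 146689) (nat_lit 74) (nat_lit 12716) (PL.cons (nat_lit 379) (nat_lit 143641) (nat_lit 73) (nat_lit 12337) (PL.cons (nat_lit 373) (nat_lit 139129) (nat_lit 72) (nat_lit 11964) (PL.cons (nat_lit 367) (nat_lit 134689) (nat_lit 71) (nat_lit 11597) (PL.cons (nat_lit 359) (nat_lit 128881) (nat_lit 70) (nat_lit 11238) (PL.cons (nat_lit 353) (nat_lit 124609) (nat_lit 69) (nat_lit 10885) (PL.cons (nat_lit 349) (nat_lit 121801) (nat_lit 68) (nat_lit 10536) (PL.cons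 (nat_lit 347) (nat_lit 120409) (nat_lit 67) (nat_lit 10189) (PL.cons (nat_lit 337) (nat_lit 113569) (nat_lit 66) (nat_lit 9852) (PL.cons (nat_lit 331) (nat_lit 109561) (nat_lit 65) (nat_lit 9521) (PL.cons (nat_lit 317) (nat_lit 100489) (nat_lit 64) (nat_lit 9204) (PL.cons (nat_lit 313) (nat_lit 97969) (nat_lit 63) (nat_lit 8891) (PL.cons (nat_lit 311) (nat_lit 96721) (nat_lit 62) (nat_lit 8580) (PL.cons (nat_lit 307) (nat_lit 94249) (nat_lit 61) (nat_lit 8273) (PL.cons (nat_lit 293) (nat_lit 85849) (nat_lit 60) (nat_lit 7980) (PL.cons (nat_lit 283) (nat_lit 80089) (nat_lit 59) (nat_lit 7697) (PL.cons (nat_lit 281) (nat_lit 78961) (nat_lit 58) (nat_lit 7416) (PL.cons (nat_lit 277) (nat_lit 76729) (nat_lit 57) (nat_lit 7139) (PL.cons (nat_lit 271) (nat_lit 73441) (nat_lit 56) (nat_lit 6868) L1))))))))))))))))))))))))))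

def L3 : PL := (PL.cons (nat_lit 599) (nat_lit 358801) (nat_lit 107) (nat_lit 28695) (PL.cons (nat_lit 593) (nat_lit 351649) (nat_lit 106) (nat_lit 28102) (PL.cons (nat_lit 587) (nat_lit 344569) (nat_lit 105) (nat_lit 27515) (PL.cons (nat_lit 577) (nat_lit 332929) (nat_lit 104) (nat_lit 26938) (PL.cons (nat_lit 571) (nat_lit 326041) (nat_lit 103) (nat_lit 26367) (PL.cons (nat_lit 569) (nat_lit 323761) (nat_lit 102) (nat_lit 25798) (PL.cons (nat_lit 563) (nat_lit 316969) (nat_lit 101) (nat_lit 25235) (PL.cons (nat_lit 557) (nat_lit 310249) (nat_lit 100) (nat_lit 24678) (PL.cons (nat_lit 547) (nat_lit 299209) (nat_lit 99) (nat_lit 24131) (PL.cons (nat_lit 541) (nat_lit 292681) (nat_lit 98) (nat_lit 23590) (PL.cons (nat_lit 523) (nat_lit 273529) (nat_lit 97) (nat_lit 23067) (PL.cons (nat_lit 521) (nat_lit 271441) (nat_lit 96) (nat_lit 22546) (PL.cons (nat_lit 509) (nat_lit 259081) (nat_lit 95) (nat_lit 22037) (PL.cons (nat_lit 503) (nat_lit 253009) (nat_lit 94) (nat_lit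 21534) (PL.cons (nat_lit 499) (nat_lit 249001) (nat_lit 93) (nat_lit 21035) (PL.cons (nat_lit 491) (nat_lit 241081) (nat_lit 92) (nat_lit 20544) (PL.cons (nat_lit 487) (nat_lit 237169) (nat_lit 91) (nat_lit 20057) (PL.cons (nat_lit 479) (nat_lit 229441) (nat_lit 90) (nat_lit 19578) (PL.cons (nat_lit 467) (nat_lit 218089) (nat_lit 89) (nat_lit 19111) (PL.cons (nat_lit 463) (nat_lit 214369) (nat_lit 88) (nat_lit 18648) (PL.cons (nat_lit 461) (nat_lit 212521) (nat_lit 87) (nat_lit 18187) (PL.cons (nat_lit 457) (nat_lit 208849) (nat_lit 86) (nat_lit 17730) (PL.cons (nat_lit 449) (nat_lit 201601) (nat_lit 85) (nat_lit 17281) (PL.cons (nat_lit 443) (nat_lit 196249) (nat_lit 84) (nat_lit 16838) (PL.cons (nat_lit 439) (nat_lit 192721) (nat_lit 83) (nat_lit 16399) (PL.cons (nat_lit 433) (nat_lit 187489) (nat_lit 82) (nat_lit 15966) L2))))))))))))))))))))))))))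

def L4 : PL := (PL.cons (nat_lit 761) (nat_lit 579121) (nat_lit 133) (nat_lit 46189) (PL.cons (nat_lit 757) (nat_lit 573049) (nat_lit 132) (nat_lit 45432) (PL.cons (nat_lit 751) (nat_lit 564001) (nat_lit 131) (nat_lit 44681) (PL.cons (nat_lit 743) (nat_lit 552049) (nat_lit 130) (nat_lit 43938) (PL.cons (nat_lit 739) (nat_lit 546121) (nat_lit 129) (nat_lit 43199) (PL.cons (nat_lit 733) (nat_lit 537289) (nat_lit 128) (nat_lit 42466) (PL.cons (nat_lit 727) (nat_lit 528529) (nat_lit 127) (nat_lit 41739) (PL.cons (nat_lit 719) (nat_lit 516961) (nat_lit 126) (nat_lit 41020) (PL.cons (nat_lit 709) (nat_lit 502681) (nat_lit 125) (nat_lit 40311) (PL.cons (nat_lit 701) (nat_lit 491401) (nat_lit 124) (nat_lit 39610) (PL.cons (nat_lit 691) (nat_lit 477481) (nat_lit 123) (nat_lit 38919) (PL.cons (nat_lit 683) (nat_lit 466489) (nat_lit 122) (nat_lit 38236) (PL.cons (nat_lit 677) (nat_lit 458329) (nat_lit 121) (nat_lit 37559) (PL.cons (nat_lit 673) (nat_lit 452929) (nat_lit 120) (nat_lit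 36886) (PL.cons (nat_lit 661) (nat_lit 436921) (nat_lit 119) (nat_lit 36225) (PL.cons (nat_lit 659) (nat_lit 434281) (nat_lit 118) (nat_lit 35566) (PL.cons (nat_lit 653) (nat_lit 426409) (nat_lit 117) (nat_lit 34913) (PL.cons (nat_lit 647) (nat_lit 418609) (nat_lit 116) (nat_lit 34266) (PL.cons (nat_lit 643) (nat_lit 413449) (nat_lit 115) (nat_lit 33623) (PL.cons (nat_lit 641) (nat_lit 410881) (nat_lit 114) (nat_lit 32982) (PL.cons (nat_lit 631) (nat_lit 398161) (nat_lit 113) (nat_lit 32351) (PL.cons (nat_lit 619) (nat_lit 383161) (nat_lit 112) (nat_lit 31732) (PL.cons (nat_lit 617) (nat_lit 380689) (nat_lit 111) (nat_lit 31115) (PL.cons (nat_lit 613) (nat_lit 375769) (nat_lit 110) (nat_lit 30502) (PL.cons (nat_lit 607) (nat_lit 368449) (nat_lit 109) (nat_lit 29895) (PL.cons (nat_lit 601) (nat_lit 361201) (nat_lit 108) (nat_lit 29294) L3))))))))))))))))))))))))))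

def L5 : PL := (PL.cons (nat_lit 947) (nat_lit 896809) (nat_lit 159) (nat_lit 68339) (PL.cons (nat_lit 941) (nat_lit 885481) (nat_lit 158) (nat_lit 67398) (PL.cons (nat_lit 937) (nat_lit 877969) (nat_lit 157) (nat_lit 66461) (PL.cons (nat_lit 929) (nat_lit 863041) (nat_lit 156) (nat_lit 65532) (PL.cons (nat_lit 919) (nat_lit 844561) (nat_lit 155) (nat_lit 64613) (PL.cons (nat_lit 911) (nat_lit 829921) (nat_lit 154) (nat_lit 63702) (PL.cons (nat_lit 907) (nat_lit 822649) (nat_lit 153) (nat_lit 62795) (PL.cons (nat_lit 887) (nat_lit 786769) (nat_lit 152) (nat_lit 61908) (PL.cons (nat_lit 883) (nat_lit 779689) (nat_lit 151) (nat_lit 61025) (PL.cons (nat_lit 881) (nat_lit 776161) (nat_lit 150) (nat_lit 60144) (PL.cons (nat_lit 877) (nat_lit 769129) (nat_lit 149) (nat_lit 59267) (PL.cons (nat_lit 863) (nat_lit 744769) (nat_lit 148) (nat_lit 58404) (PL.cons (nat_lit 859) (nat_lit 737881) (nat_lit 147) (nat_lit 57545) (PL.cons (nat_lit 857) (nat_lit 734449) (nat_lit 146) (nat_lit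 56688) (PL.cons (nat_lit 853) (nat_lit 727609) (nat_lit 145) (nat_lit 55835) (PL.cons (nat_lit 839) (nat_lit 703921) (nat_lit 144) (nat_lit 54996) (PL.cons (nat_lit 829) (nat_lit 687241) (nat_lit 143) (nat_lit 54167) (PL.cons (nat_lit 827) (nat_lit 683929) (nat_lit 142) (nat_lit 53340) (PL.cons (nat_lit 823) (nat_lit 677329) (nat_lit 141) (nat_lit 52517) (PL.cons (nat_lit 821) (nat_lit 674041) (nat_lit 140) (nat_lit 51696) (PL.cons (nat_lit 811) (nat_lit 657721) (nat_lit 139) (nat_lit 50885) (PL.cons (nat_lit 809) (nat_lit 654481) (nat_lit 138) (nat_lit 50076) (PL.cons (nat_lit 797) (nat_lit 635209) (nat_lit 137) (nat_lit 49279) (PL.cons (nat_lit 787) (nat_lit 619369) (nat_lit 136) (nat_lit 48492) (PL.cons (nat_lit 773) (nat_lit 597529) (nat_lit 135) (nat_lit 47719) (PL.cons (nat_lit 769) (nat_lit 591361) (nat_lit 134) (nat_lit 46950) L4))))))))))))))))))))))))))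

def L6 : PL := (PL.cons (nat_lit 1117) (nat_lit 1247689) (nat_lit 185) (nat_lit 95163) (PL.cons (nat_lit 1109) (nat_lit 1229881) (nat_lit 184) (nat_lit 94054) (PL.cons (nat_lit 1103) (nat_lit 1216609) (nat_lit 183) (nat_lit 92951) (PL.cons (nat_lit 1097) (nat_lit 1203409) (nat_lit 182) (nat_lit 91854) (PL.cons (nat_lit 1093) (nat_lit 1194649) (nat_lit 181) (nat_lit 90761) (PL.cons (nat_lit 1091) (nat_lit 1190281) (nat_lit 180) (nat_lit 89670) (PL.cons (nat_lit 1087) (nat_lit 1181569) (nat_lit 179) (nat_lit 88583) (PL.cons (nat_lit 1069) (nat_lit 1142761) (nat_lit 178) (nat_lit 87514) (PL.cons (nat_lit 1063) (nat_lit 1129969) (nat_lit 177) (nat_lit 86451) (PL.cons (nat_lit 1061) (nat_lit 1125721) (nat_lit 176) (nat_lit 85390) (PL.cons (nat_lit 1051) (nat_lit 1104601) (nat_lit 175) (nat_lit 84339) (PL.cons (nat_lit 1049) (nat_lit 1100401) (nat_lit 174) (nat_lit 83290) (PL.cons (nat_lit 1039) (nat_lit 1079521) (nat_lit 173) (nat_lit 82251) (PL.cons (nat_lit 1033) (nat_lit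 1067089) (nat_lit 172) (nat_lit 81218) (PL.cons (nat_lit 1031) (nat_lit 1062961) (nat_lit 171) (nat_lit 80187) (PL.cons (nat_lit 1021) (nat_lit 1042441) (nat_lit 170) (nat_lit 79166) (PL.cons (nat_lit 1019) (nat_lit 1038361) (nat_lit 169) (nat_lit 78147) (PL.cons (nat_lit 1013) (nat_lit 1026169) (nat_lit 168) (nat_lit 77134) (PL.cons (nat_lit 1009) (nat_lit 1018081) (nat_lit 167) (nat_lit 76125) (PL.cons (nat_lit 997) (nat_lit 994009) (nat_lit 166) (nat_lit 75128) (PL.cons (nat_lit 991) (nat_lit 982081) (nat_lit 165) (nat_lit 74137) (PL.cons (nat_lit 983) (nat_lit 966289) (nat_lit 164) (nat_lit 73154) (PL.cons (nat_lit 977) (nat_lit 954529) (nat_lit 163) (nat_lit 72177) (PL.cons (nat_lit 971) (nat_lit 942841) (nat_lit 162) (nat_lit 71206) (PL.cons (nat_lit 967) (nat_lit 935089) (nat_lit 161) (nat_lit 70239) (PL.cons (nat_lit 953) (nat_lit 908209) (nat_lit 160) (nat_lit 69286) L5))))))))))))))))))))))))))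

def L7 : PL := (PL.cons (nat_lit 1303) (nat_lit 1697809) (nat_lit 211) (nat_lit 126807) (PL.cons (nat_lit 1301) (nat_lit 1692601) (nat_lit 210) (nat_lit 125506) (PL.cons (nat_lit 1297) (nat_lit 1682209) (nat_lit 209) (nat_lit 124209) (PL.cons (nat_lit 1291) (nat_lit 1666681) (nat_lit 208) (nat_lit 122918) (PL.cons (nat_lit 1289) (nat_lit 1661521) (nat_lit 207) (nat_lit 121629) (PL.cons (nat_lit 1283) (nat_lit 1646089) (nat_lit 206) (nat_lit 120346) (PL.cons (nat_lit 1279) (nat_lit 1635841) (nat_lit 205) (nat_lit 119067) (PL.cons (nat_lit 1277) (nat_lit 1630729) (nat_lit 204) (nat_lit 117790) (PL.cons (nat_lit 1259) (nat_lit 1585081) (nat_lit 203) (nat_lit 116531) (PL.cons (nat_lit 1249) (nat_lit 1560001) (nat_lit 202) (nat_lit 115282) (PL.cons (nat_lit 1237) (nat_lit 1530169) (nat_lit 201) (nat_lit 114045) (PL.cons (nat_lit 1231) (nat_lit 1515361) (nat_lit 200) (nat_lit 112814) (PL.cons (nat_lit 1229) (nat_lit 1510441) (nat_lit 199) (nat_lit 111585) (PL.cons (nat_lit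 1223) (nat_lit 1495729) (nat_lit 198) (nat_lit 110362) (PL.cons (nat_lit 1217) (nat_lit 1481089) (nat_lit 197) (nat_lit 109145) (PL.cons (nat_lit 1213) (nat_lit 1471369) (nat_lit 196) (nat_lit 107932) (PL.cons (nat_lit 1201) (nat_lit 1442401) (nat_lit 195) (nat_lit 106731) (PL.cons (nat_lit 1193) (nat_lit 1423249) (nat_lit 194) (nat_lit 105538) (PL.cons (nat_lit 1187) (nat_lit 1408969) (nat_lit 193) (nat_lit 104351) (PL.cons (nat_lit 1181) (nat_lit 1394761) (nat_lit 192) (nat_lit 103170) (PL.cons (nat_lit 1171) (nat_lit 1371241) (nat_lit 191) (nat_lit 101999) (PL.cons (nat_lit 1163) (nat_lit 1352569) (nat_lit 190) (nat_lit 100836) (PL.cons (nat_lit 1153) (nat_lit 1329409) (nat_lit 189) (nat_lit 99683) (PL.cons (nat_lit 1151) (nat_lit 1324801) (nat_lit 188) (nat_lit 98532) (PL.cons (nat_lit 1129) (nat_lit 1274641) (nat_lit 187) (nat_lit 97403) (PL.cons (nat_lit 1123) (nat_lit 1261129) (nat_lit 186) (nat_lit 96280) L6))))))))))))))))))))))))))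

def L8 : PL := (PL.cons (nat_lit 1499) (nat_lit 2247001) (nat_lit 237) (nat_lit 163539) (PL.cons (nat_lit 1493) (nat_lit 2229049) (nat_lit 236) (nat_lit 162046) (PL.cons (nat_lit 1489) (nat_lit 2217121) (nat_lit 235) (nat_lit 160557) (PL.cons (nat_lit 1487) (nat_lit 2211169) (nat_lit 234) (nat_lit 159070) (PL.cons (nat_lit 1483) (nat_lit 2199289) (nat_lit 233) (nat_lit 157587) (PL.cons (nat_lit 1481) (nat_lit 2193361) (nat_lit 232) (nat_lit 156106) (PL.cons (nat_lit 1471) (nat_lit 2163841) (nat_lit 231) (nat_lit 154635) (PL.cons (nat_lit 1459) (nat_lit 2128681) (nat_lit 230) (nat_lit 153176) (PL.cons (nat_lit 1453) (nat_lit 2111209) (nat_lit 229) (nat_lit 151723) (PL.cons (nat_lit 1451) (nat_lit 2105401) (nat_lit 228) (nat_lit 150272) (PL.cons (nat_lit 1447) (nat_lit 2093809) (nat_lit 227) (nat_lit 148825) (PL.cons (nat_lit 1439) (nat_lit 2070721) (nat_lit 226) (nat_lit 147386) (PL.cons (nat_lit 1433) (nat_lit 2053489) (nat_lit 225) (nat_lit 145953) (PL.cons (nat_lit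 1429) (nat_lit 2042041) (nat_lit 224) (nat_lit 144524) (PL.cons (nat_lit 1427) (nat_lit 2036329) (nat_lit 223) (nat_lit 143097) (PL.cons (nat_lit 1423) (nat_lit 2024929) (nat_lit 222) (nat_lit 141674) (PL.cons (nat_lit 1409) (nat_lit 1985281) (nat_lit 221) (nat_lit 140265) (PL.cons (nat_lit 1399) (nat_lit 1957201) (nat_lit 220) (nat_lit 138866) (PL.cons (nat_lit 1381) (nat_lit 1907161) (nat_lit 219) (nat_lit 137485) (PL.cons (nat_lit 1373) (nat_lit 1885129) (nat_lit 218) (nat_lit 136112) (PL.cons (nat_lit 1367) (nat_lit 1868689) (nat_lit 217) (nat_lit 134745) (PL.cons (nat_lit 1361) (nat_lit 1852321) (nat_lit 216) (nat_lit 133384) (PL.cons (nat_lit 1327) (nat_lit 1760929) (nat_lit 215) (nat_lit 132057) (PL.cons (nat_lit 1321) (nat_lit 1745041) (nat_lit 214) (nat_lit 130736) (PL.cons (nat_lit 1319) (nat_lit 1739761) (nat_lit 213) (nat_lit 129417) (PL.cons (nat_lit 1307) (nat_lit 1708249) (nat_lit 212) (nat_lit 128110) L7))))))))))))))))))))))))))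

def L9 : PL := (PL.cons (nat_lit 1669) (nat_lit 2785561) (nat_lit 261) (nat_lit 201625) (PL.cons (nat_lit 1667) (nat_lit 2778889) (nat_lit 260) (nat_lit 199958) (PL.cons (nat_lit 1663) (nat_lit 2765569) (nat_lit 259) (nat_lit 198295) (PL.cons (nat_lit 1657) (nat_lit 2745649) (nat_lit 258) (nat_lit 196638) (PL.cons (nat_lit 1637) (nat_lit 2679769) (nat_lit 257) (nat_lit 195001) (PL.cons (nat_lit 1627) (nat_lit 2647129) (nat_lit 256) (nat_lit 193374) (PL.cons (nat_lit 1621) (nat_lit 2627641) (nat_lit 255) (nat_lit 191753) (PL.cons (nat_lit 1619) (nat_lit 2621161) (nat_lit 254) (nat_lit 190134) (PL.cons (nat_lit 1613) (nat_lit 2601769) (nat_lit 253) (nat_lit 188521) (PL.cons (nat_lit 1609) (nat_lit 2588881) (nat_lit 252) (nat_lit 186912) (PL.cons (nat_lit 1607) (nat_lit 2582449) (nat_lit 251) (nat_lit 185305) (PL.cons (nat_lit 1601) (nat_lit 2563201) (nat_lit 250) (nat_lit 183704) (PL.cons (nat_lit 1597) (nat_lit 2550409) (nat_lit 249) (nat_lit 182107) (PL.cons (nat_lit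 1583) (nat_lit 2505889) (nat_lit 248) (nat_lit 180524) (PL.cons (nat_lit 1579) (nat_lit 2493241) (nat_lit 247) (nat_lit 178945) (PL.cons (nat_lit 1571) (nat_lit 2468041) (nat_lit 246) (nat_lit 177374) (PL.cons (nat_lit 1567) (nat_lit 2455489) (nat_lit 245) (nat_lit 175807) (PL.cons (nat_lit 1559) (nat_lit 2430481) (nat_lit 244) (nat_lit 174248) (PL.cons (nat_lit 1553) (nat_lit 2411809) (nat_lit 243) (nat_lit 172695) (PL.cons (nat_lit 1549) (nat_lit 2399401) (nat_lit 242) (nat_lit 171146) (PL.cons (nat_lit 1543) (nat_lit 2380849) (nat_lit 241) (nat_lit 169603) (PL.cons (nat_lit 1531) (nat_lit 2343961) (nat_lit 240) (nat_lit 168072) (PL.cons (nat_lit 1523) (nat_lit 2319529) (nat_lit 239) (nat_lit 166549) (PL.cons (nat_lit 1511) (nat_lit 2283121) (nat_lit 238) (nat_lit 165038) L8))))))))))))))))))))))))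

def L10 : PL := (PL.cons (nat_lit 4861) (nat_lit 23629321) (nat_lit 649) (nat_lit 1454365) (PL.cons (nat_lit 4831) (nat_lit 23338561) (nat_lit 648) (nat_lit 1449534) (PL.cons (nat_lit 4817) (nat_lit 23203489) (nat_lit 647) (nat_lit 1444717) (PL.cons (nat_lit 4813) (nat_lit 23164969) (nat_lit 646) (nat_lit 1439904) (PL.cons (nat_lit 4801) (nat_lit 23049601) (nat_lit 645) (nat_lit 1435103) (PL.cons (nat_lit 4799) (nat_lit 23030401) (nat_lit 644) (nat_lit 1430304) (PL.cons (nat_lit 4793) (nat_lit 22972849) (nat_lit 643) (nat_lit 1425511) (PL.cons (nat_lit 4789) (nat_lit 22934521) (nat_lit 642) (nat_lit 1420722) (PL.cons (nat_lit 4787) (nat_lit 22915369) (nat_lit 641) (nat_lit 1415935) (PL.cons (nat_lit 4783) (nat_lit 22877089) (nat_lit 640) (nat_lit 1411152) (PL.cons (nat_lit 4759) (nat_lit 22648081) (nat_lit 639) (nat_lit 1406393) (PL.cons (nat_lit 4751) (nat_lit 22572001) (nat_lit 638) (nat_lit 1401642) (PL.cons (nat_lit 4733) (nat_lit 22401289) (nat_lit 637) (nat_lit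 1396909) (PL.cons (nat_lit 4729) (nat_lit 22363441) (nat_lit 636) (nat_lit 1392180) (PL.cons (nat_lit 4723) (nat_lit 22306729) (nat_lit 635) (nat_lit 1387457) (PL.cons (nat_lit 4721) (nat_lit 22287841) (nat_lit 634) (nat_lit 1382736) (PL.cons (nat_lit 4703) (nat_lit 22118209) (nat_lit 633) (nat_lit 1378033) (PL.cons (nat_lit 4691) (nat_lit 22005481) (nat_lit 632) (nat_lit 1373342) (PL.cons (nat_lit 4679) (nat_lit 21893041) (nat_lit 631) (nat_lit 1368663) (PL.cons (nat_lit 4673) (nat_lit 21836929) (nat_lit 630) (nat_lit 1363990) (PL.cons (nat_lit 4663) (nat_lit 21743569) (nat_lit 629) (nat_lit 1359327) (PL.cons (nat_lit 4657) (nat_lit 21687649) (nat_lit 628) (nat_lit 1354670) (PL.cons (nat_lit 4651) (nat_lit 21631801) (nat_lit 627) (nat_lit 1350019) (PL.cons (nat_lit 4649) (nat_lit 21613201) (nat_lit 626) (nat_lit 1345370) (PL.cons (nat_lit 4643) (nat_lit 21557449) (nat_lit 625) (nat_lit 1340727) (PL.cons (nat_lit 4639) (nat_lit 21520321) (nat_lit 624) (nat_lit 1336088)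 (PL.cons (nat_lit 4637) (nat_lit 21501769) (nat_lit 623) (nat_lit 1331451) (PL.cons (nat_lit 4621) (nat_lit 21353641) (nat_lit 622) (nat_lit 1326830) (PL.cons (nat_lit 4603) (nat_lit 21187609) (nat_lit 621) (nat_lit 1322227) (PL.cons (nat_lit 4597) (nat_lit 21132409) (nat_lit 620) (nat_lit 1317630) (PL.cons (nat_lit 4591) (nat_lit 21077281) (nat_lit 619) (nat_lit 1313039) (PL.cons (nat_lit 4583) (nat_lit 21003889) (nat_lit 618) (nat_lit 1308456) (PL.cons (nat_lit 4567) (nat_lit 20857489) (nat_lit 617) (nat_lit 1303889) (PL.cons (nat_lit 4561) (nat_lit 20802721) (nat_lit 616) (nat_lit 1299328) (PL.cons (nat_lit 4549) (nat_lit 20693401) (nat_lit 615) (nat_lit 1294779) (PL.cons (nat_lit 4547) (nat_lit 20675209) (nat_lit 614) (nat_lit 1290232) (PL.cons (nat_lit 4523) (nat_lit 20457529) (nat_lit 613) (nat_lit 1285709) (PL.cons (nat_lit 4519) (nat_lit 20421361) (nat_lit 612) (nat_lit 1281190) (PL.cons (nat_lit 4517) (nat_lit 20403289) (nat_lit 611) (nat_lit 1276673) (PL.cons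 (nat_lit 4513) (nat_lit 20367169) (nat_lit 610) (nat_lit 1272160) (PL.cons (nat_lit 4507) (nat_lit 20313049) (nat_lit 609) (nat_lit 1267653) (PL.cons (nat_lit 4493) (nat_lit 20187049) (nat_lit 608) (nat_lit 1263160) (PL.cons (nat_lit 4483) (nat_lit 20097289) (nat_lit 607) (nat_lit 1258677) (PL.cons (nat_lit 4481) (nat_lit 20079361) (nat_lit 606) (nat_lit 1254196) (PL.cons (nat_lit 4463) (nat_lit 19918369) (nat_lit 605) (nat_lit 1249733) (PL.cons (nat_lit 4457) (nat_lit 19864849) (nat_lit 604) (nat_lit 1245276) (PL.cons (nat_lit 4451) (nat_lit 19811401) (nat_lit 603) (nat_lit 1240825) (PL.cons (nat_lit 4447) (nat_lit 19775809) (nat_lit 602) (nat_lit 1236378) (PL.cons (nat_lit 4441) (nat_lit 19722481) (nat_lit 601) (nat_lit 1231937) (PL.cons (nat_lit 4423) (nat_lit 19562929) (nat_lit 600) (nat_lit 1227514) (PL.cons (nat_lit 4421) (nat_lit 19545241) (nat_lit 599) (nat_lit 1223093) (PL.cons (nat_lit 4409) (nat_lit 19439281) (nat_lit 598) (nat_lit 1218684) (PL.cons (nat_lit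 4397) (nat_lit 19333609) (nat_lit 597) (nat_lit 1214287) (PL.cons (nat_lit 4391) (nat_lit 19280881) (nat_lit 596) (nat_lit 1209896) (PL.cons (nat_lit 4373) (nat_lit 19123129) (nat_lit 595) (nat_lit 1205523) (PL.cons (nat_lit 4363) (nat_lit 19035769) (nat_lit 594) (nat_lit 1201160) (PL.cons (nat_lit 4357) (nat_lit 18983449) (nat_lit 593) (nat_lit 1196803) (PL.cons (nat_lit 4349) (nat_lit 18913801) (nat_lit 592) (nat_lit 1192454) (PL.cons (nat_lit 4339) (nat_lit 18826921) (nat_lit 591) (nat_lit 1188115) (PL.cons (nat_lit 4337) (nat_lit 18809569) (nat_lit 590) (nat_lit 1183778) (PL.cons (nat_lit 4327) (nat_lit 18722929) (nat_lit 589) (nat_lit 1179451) (PL.cons (nat_lit 4297) (nat_lit 18464209) (nat_lit 588) (nat_lit 1175154) (PL.cons (nat_lit 4289) (nat_lit 18395521) (nat_lit 587) (nat_lit 1170865) (PL.cons (nat_lit 4283) (nat_lit 18344089) (nat_lit 586) (nat_lit 1166582) (PL.cons (nat_lit 4273) (nat_lit 18258529) (nat_lit 585) (nat_lit 1162309) (PL.cons (nat_lit 4271) (nat_lit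 18241441) (nat_lit 584) (nat_lit 1158038) (PL.cons (nat_lit 4261) (nat_lit 18156121) (nat_lit 583) (nat_lit 1153777) (PL.cons (nat_lit 4259) (nat_lit 18139081) (nat_lit 582) (nat_lit 1149518) (PL.cons (nat_lit 4253) (nat_lit 18088009) (nat_lit 581) (nat_lit 1145265) (PL.cons (nat_lit 4243) (nat_lit 18003049) (nat_lit 580) (nat_lit 1141022) (PL.cons (nat_lit 4241) (nat_lit 17986081) (nat_lit 579) (nat_lit 1136781) (PL.cons (nat_lit 4231) (nat_lit 17901361) (nat_lit 578) (nat_lit 1132550) (PL.cons (nat_lit 4229) (nat_lit 17884441) (nat_lit 577) (nat_lit 1128321) (PL.cons (nat_lit 4219) (nat_lit 17799961) (nat_lit 576) (nat_lit 1124102) (PL.cons (nat_lit 4217) (nat_lit 17783089) (nat_lit 575) (nat_lit 1119885) (PL.cons (nat_lit 4211) (nat_lit 17732521) (nat_lit 574) (nat_lit 1115674) (PL.cons (nat_lit 4201) (nat_lit 17648401) (nat_lit 573) (nat_lit 1111473) (PL.cons (nat_lit 4177) (nat_lit 17447329) (nat_lit 572) (nat_lit 1107296) (PL.cons (nat_lit 4159) (nat_lit 17297281)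 (nat_lit 571) (nat_lit 1103137) (PL.cons (nat_lit 4157) (nat_lit 17280649) (nat_lit 570) (nat_lit 1098980) (PL.cons (nat_lit 4153) (nat_lit 17247409) (nat_lit 569) (nat_lit 1094827) (PL.cons (nat_lit 4139) (nat_lit 17131321) (nat_lit 568) (nat_lit 1090688) (PL.cons (nat_lit 4133) (nat_lit 17081689) (nat_lit 567) (nat_lit 1086555) (PL.cons (nat_lit 4129) (nat_lit 17048641) (nat_lit 566) (nat_lit 1082426) (PL.cons (nat_lit 4127) (nat_lit 17032129) (nat_lit 565) (nat_lit 1078299) (PL.cons (nat_lit 4111) (nat_lit 16900321) (nat_lit 564) (nat_lit 1074188) (PL.cons (nat_lit 4099) (nat_lit 16801801) (nat_lit 563) (nat_lit 1070089) (PL.cons (nat_lit 4093) (nat_lit 16752649) (nat_lit 562) (nat_lit 1065996) (PL.cons (nat_lit 4091) (nat_lit 16736281) (nat_lit 561) (nat_lit 1061905) (PL.cons (nat_lit 4079) (nat_lit 16638241) (nat_lit 560) (nat_lit 1057826) (PL.cons (nat_lit 4073) (nat_lit 16589329) (nat_lit 559) (nat_lit 1053753) (PL.cons (nat_lit 4057) (nat_lit 16459249) (nat_lit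 558) (nat_lit 1049696) (PL.cons (nat_lit 4051) (nat_lit 16410601) (nat_lit 557) (nat_lit 1045645) (PL.cons (nat_lit 4049) (nat_lit 16394401) (nat_lit 556) (nat_lit 1041596) (PL.cons (nat_lit 4027) (nat_lit 16216729) (nat_lit 555) (nat_lit 1037569) (PL.cons (nat_lit 4021) (nat_lit 16168441) (nat_lit 554) (nat_lit 1033548) (PL.cons (nat_lit 4019) (nat_lit 16152361) (nat_lit 553) (nat_lit 1029529) (PL.cons (nat_lit 4013) (nat_lit 16104169) (nat_lit 552) (nat_lit 1025516) (PL.cons (nat_lit 4007) (nat_lit 16056049) (nat_lit 551) (nat_lit 1021509) (PL.cons (nat_lit 4003) (nat_lit 16024009) (nat_lit 550) (nat_lit 1017506) (PL.cons (nat_lit 4001) (nat_lit 16008001) (nat_lit 549) (nat_lit 1013505) (PL.cons (nat_lit 3989) (nat_lit 15912121) (nat_lit 548) (nat_lit 1009516) (PL.cons (nat_lit 3967) (nat_lit 15737089) (nat_lit 547) (nat_lit 1005549) (PL.cons (nat_lit 3947) (nat_lit 15578809) (nat_lit 546) (nat_lit 1001602) (PL.cons (nat_lit 3943) (nat_lit 15547249) (nat_lit 545) (nat_lit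 997659) (PL.cons (nat_lit 3931) (nat_lit 15452761) (nat_lit 544) (nat_lit 993728) (PL.cons (nat_lit 3929) (nat_lit 15437041) (nat_lit 543) (nat_lit 989799) (PL.cons (nat_lit 3923) (nat_lit 15389929) (nat_lit 542) (nat_lit 985876) (PL.cons (nat_lit 3919) (nat_lit 15358561) (nat_lit 541) (nat_lit 981957) (PL.cons (nat_lit 3917) (nat_lit 15342889) (nat_lit 540) (nat_lit 978040) (PL.cons (nat_lit 3911) (nat_lit 15295921) (nat_lit 539) (nat_lit 974129) (PL.cons (nat_lit 3907) (nat_lit 15264649) (nat_lit 538) (nat_lit 970222) (PL.cons (nat_lit 3889) (nat_lit 15124321) (nat_lit 537) (nat_lit 966333) (PL.cons (nat_lit 3881) (nat_lit 15062161) (nat_lit 536) (nat_lit 962452) (PL.cons (nat_lit 3877) (nat_lit 15031129) (nat_lit 535) (nat_lit 958575) (PL.cons (nat_lit 3863) (nat_lit 14922769) (nat_lit 534) (nat_lit 954712) (PL.cons (nat_lit 3853) (nat_lit 14845609) (nat_lit 533) (nat_lit 950859) (PL.cons (nat_lit 3851) (nat_lit 14830201) (nat_lit 532) (nat_lit 947008) (PL.cons (nat_lit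 3847) (nat_lit 14799409) (nat_lit 531) (nat_lit 943161) (PL.cons (nat_lit 3833) (nat_lit 14691889) (nat_lit 530) (nat_lit 939328) (PL.cons (nat_lit 3823) (nat_lit 14615329) (nat_lit 529) (nat_lit 935505) (PL.cons (nat_lit 3821) (nat_lit 14600041) (nat_lit 528) (nat_lit 931684) (PL.cons (nat_lit 3803) (nat_lit 14462809) (nat_lit 527) (nat_lit 927881) (PL.cons (nat_lit 3797) (nat_lit 14417209) (nat_lit 526) (nat_lit 924084) (PL.cons (nat_lit 3793) (nat_lit 14386849) (nat_lit 525) (nat_lit 920291) (PL.cons (nat_lit 3779) (nat_lit 14280841) (nat_lit 524) (nat_lit 916512) (PL.cons (nat_lit 3769) (nat_lit 14205361) (nat_lit 523) (nat_lit 912743) (PL.cons (nat_lit 3767) (nat_lit 14190289) (nat_lit 522) (nat_lit 908976) (PL.cons (nat_lit 3761) (nat_lit 14145121) (nat_lit 521) (nat_lit 905215) (PL.cons (nat_lit 3739) (nat_lit 13980121) (nat_lit 520) (nat_lit 901476) (PL.cons (nat_lit 3733) (nat_lit 13935289) (nat_lit 519) (nat_lit 897743) (PL.cons (nat_lit 3727) (nat_lit 13890529)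 (nat_lit 518) (nat_lit 894016) (PL.cons (nat_lit 3719) (nat_lit 13830961) (nat_lit 517) (nat_lit 890297) (PL.cons (nat_lit 3709) (nat_lit 13756681) (nat_lit 516) (nat_lit 886588) (PL.cons (nat_lit 3701) (nat_lit 13697401) (nat_lit 515) (nat_lit 882887) (PL.cons (nat_lit 3697) (nat_lit 13667809) (nat_lit 514) (nat_lit 879190) (PL.cons (nat_lit 3691) (nat_lit 13623481) (nat_lit 513) (nat_lit 875499) (PL.cons (nat_lit 3677) (nat_lit 13520329) (nat_lit 512) (nat_lit 871822) (PL.cons (nat_lit 3673) (nat_lit 13490929) (nat_lit 511) (nat_lit 868149) (PL.cons (nat_lit 3671) (nat_lit 13476241) (nat_lit 510) (nat_lit 864478) (PL.cons (nat_lit 3659) (nat_lit 13388281) (nat_lit 509) (nat_lit 860819) (PL.cons (nat_lit 3643) (nat_lit 13271449) (nat_lit 508) (nat_lit 857176) (PL.cons (nat_lit 3637) (nat_lit 13227769) (nat_lit 507) (nat_lit 853539) (PL.cons (nat_lit 3631) (nat_lit 13184161) (nat_lit 506) (nat_lit 849908) (PL.cons (nat_lit 3623) (nat_lit 13126129) (nat_lit 505) (nat_lit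 846285) (PL.cons (nat_lit 3617) (nat_lit 13082689) (nat_lit 504) (nat_lit 842668) (PL.cons (nat_lit 3613) (nat_lit 13053769) (nat_lit 503) (nat_lit 839055) (PL.cons (nat_lit 3607) (nat_lit 13010449) (nat_lit 502) (nat_lit 835448) (PL.cons (nat_lit 3593) (nat_lit 12909649) (nat_lit 501) (nat_lit 831855) (PL.cons (nat_lit 3583) (nat_lit 12837889) (nat_lit 500) (nat_lit 828272) (PL.cons (nat_lit 3581) (nat_lit 12823561) (nat_lit 499) (nat_lit 824691) (PL.cons (nat_lit 3571) (nat_lit 12752041) (nat_lit 498) (nat_lit 821120) (PL.cons (nat_lit 3559) (nat_lit 12666481) (nat_lit 497) (nat_lit 817561) (PL.cons (nat_lit 3557) (nat_lit 12652249) (nat_lit 496) (nat_lit 814004) (PL.cons (nat_lit 3547) (nat_lit 12581209) (nat_lit 495) (nat_lit 810457) (PL.cons (nat_lit 3541) (nat_lit 12538681) (nat_lit 494) (nat_lit 806916) (PL.cons (nat_lit 3539) (nat_lit 12524521) (nat_lit 493) (nat_lit 803377) (PL.cons (nat_lit 3533) (nat_lit 12482089) (nat_lit 492) (nat_lit 799844) (PL.cons (nat_lit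 3529) (nat_lit 12453841) (nat_lit 491) (nat_lit 796315) (PL.cons (nat_lit 3527) (nat_lit 12439729) (nat_lit 490) (nat_lit 792788) (PL.cons (nat_lit 3517) (nat_lit 12369289) (nat_lit 489) (nat_lit 789271) (PL.cons (nat_lit 3511) (nat_lit 12327121) (nat_lit 488) (nat_lit 785760) (PL.cons (nat_lit 3499) (nat_lit 12243001) (nat_lit 487) (nat_lit 782261) (PL.cons (nat_lit 3491) (nat_lit 12187081) (nat_lit 486) (nat_lit 778770) (PL.cons (nat_lit 3469) (nat_lit 12033961) (nat_lit 485) (nat_lit 775301) (PL.cons (nat_lit 3467) (nat_lit 12020089) (nat_lit 484) (nat_lit 771834) (PL.cons (nat_lit 3463) (nat_lit 11992369) (nat_lit 483) (nat_lit 768371) (PL.cons (nat_lit 3461) (nat_lit 11978521) (nat_lit 482) (nat_lit 764910) (PL.cons (nat_lit 3457) (nat_lit 11950849) (nat_lit 481) (nat_lit 761453) (PL.cons (nat_lit 3449) (nat_lit 11895601) (nat_lit 480) (nat_lit 758004) (PL.cons (nat_lit 3433) (nat_lit 11785489) (nat_lit 479) (nat_lit 754571) (PL.cons (nat_lit 3413) (nat_lit 11648569)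 (nat_lit 478) (nat_lit 751158) (PL.cons (nat_lit 3407) (nat_lit 11607649) (nat_lit 477) (nat_lit 747751) (PL.cons (nat_lit 3391) (nat_lit 11498881) (nat_lit 476) (nat_lit 744360) (PL.cons (nat_lit 3389) (nat_lit 11485321) (nat_lit 475) (nat_lit 740971) (PL.cons (nat_lit 3373) (nat_lit 11377129) (nat_lit 474) (nat_lit 737598) (PL.cons (nat_lit 3371) (nat_lit 11363641) (nat_lit 473) (nat_lit 734227) (PL.cons (nat_lit 3361) (nat_lit 11296321) (nat_lit 472) (nat_lit 730866) (PL.cons (nat_lit 3359) (nat_lit 11282881) (nat_lit 471) (nat_lit 727507) (PL.cons (nat_lit 3347) (nat_lit 11202409) (nat_lit 470) (nat_lit 724160) (PL.cons (nat_lit 3343) (nat_lit 11175649) (nat_lit 469) (nat_lit 720817) (PL.cons (nat_lit 3331) (nat_lit 11095561) (nat_lit 468) (nat_lit 717486) (PL.cons (nat_lit 3329) (nat_lit 11082241) (nat_lit 467) (nat_lit 714157) (PL.cons (nat_lit 3323) (nat_lit 11042329) (nat_lit 466) (nat_lit 710834) (PL.cons (nat_lit 3319) (nat_lit 11015761) (nat_lit 465) (nat_lit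 707515) (PL.cons (nat_lit 3313) (nat_lit 10975969) (nat_lit 464) (nat_lit 704202) (PL.cons (nat_lit 3307) (nat_lit 10936249) (nat_lit 463) (nat_lit 700895) (PL.cons (nat_lit 3301) (nat_lit 10896601) (nat_lit 462) (nat_lit 697594) (PL.cons (nat_lit 3299) (nat_lit 10883401) (nat_lit 461) (nat_lit 694295) (PL.cons (nat_lit 3271) (nat_lit 10699441) (nat_lit 460) (nat_lit 691024) (PL.cons (nat_lit 3259) (nat_lit 10621081) (nat_lit 459) (nat_lit 687765) (PL.cons (nat_lit 3257) (nat_lit 10608049) (nat_lit 458) (nat_lit 684508) (PL.cons (nat_lit 3253) (nat_lit 10582009) (nat_lit 457) (nat_lit 681255) (PL.cons (nat_lit 3251) (nat_lit 10569001) (nat_lit 456) (nat_lit 678004) (PL.cons (nat_lit 3229) (nat_lit 10426441) (nat_lit 455) (nat_lit 674775) (PL.cons (nat_lit 3221) (nat_lit 10374841) (nat_lit 454) (nat_lit 671554) (PL.cons (nat_lit 3217) (nat_lit 10349089) (nat_lit 453) (nat_lit 668337) (PL.cons (nat_lit 3209) (nat_lit 10297681) (nat_lit 452) (nat_lit 665128) (PL.cons (nat_lit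 3203) (nat_lit 10259209) (nat_lit 451) (nat_lit 661925) (PL.cons (nat_lit 3191) (nat_lit 10182481) (nat_lit 450) (nat_lit 658734) (PL.cons (nat_lit 3187) (nat_lit 10156969) (nat_lit 449) (nat_lit 655547) (PL.cons (nat_lit 3181) (nat_lit 10118761) (nat_lit 448) (nat_lit 652366) (PL.cons (nat_lit 3169) (nat_lit 10042561) (nat_lit 447) (nat_lit 649197) (PL.cons (nat_lit 3167) (nat_lit 10029889) (nat_lit 446) (nat_lit 646030) (PL.cons (nat_lit 3163) (nat_lit 10004569) (nat_lit 445) (nat_lit 642867) (PL.cons (nat_lit 3137) (nat_lit 9840769) (nat_lit 444) (nat_lit 639730) (PL.cons (nat_lit 3121) (nat_lit 9740641) (nat_lit 443) (nat_lit 636609) (PL.cons (nat_lit 3119) (nat_lit 9728161) (nat_lit 442) (nat_lit 633490) (PL.cons (nat_lit 3109) (nat_lit 9665881) (nat_lit 441) (nat_lit 630381) (PL.cons (nat_lit 3089) (nat_lit 9541921) (nat_lit 440) (nat_lit 627292) (PL.cons (nat_lit 3083) (nat_lit 9504889) (nat_lit 439) (nat_lit 624209) (PL.cons (nat_lit 3079) (nat_lit 9480241) (nat_lit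 438) (nat_lit 621130) (PL.cons (nat_lit 3067) (nat_lit 9406489) (nat_lit 437) (nat_lit 618063) (PL.cons (nat_lit 3061) (nat_lit 9369721) (nat_lit 436) (nat_lit 615002) (PL.cons (nat_lit 3049) (nat_lit 9296401) (nat_lit 435) (nat_lit 611953) (PL.cons (nat_lit 3041) (nat_lit 9247681) (nat_lit 434) (nat_lit 608912) (PL.cons (nat_lit 3037) (nat_lit 9223369) (nat_lit 433) (nat_lit 605875) (PL.cons (nat_lit 3023) (nat_lit 9138529) (nat_lit 432) (nat_lit 602852) (PL.cons (nat_lit 3019) (nat_lit 9114361) (nat_lit 431) (nat_lit 599833) (PL.cons (nat_lit 3011) (nat_lit 9066121) (nat_lit 430) (nat_lit 596822) (PL.cons (nat_lit 3001) (nat_lit 9006001) (nat_lit 429) (nat_lit 593821) (PL.cons (nat_lit 2999) (nat_lit 8994001) (nat_lit 428) (nat_lit 590822) (PL.cons (nat_lit 2971) (nat_lit 8826841) (nat_lit 427) (nat_lit 587851) (PL.cons (nat_lit 2969) (nat_lit 8814961) (nat_lit 426) (nat_lit 584882) (PL.cons (nat_lit 2963) (nat_lit 8779369) (nat_lit 425) (nat_lit 581919) (PL.cons (nat_lit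 2957) (nat_lit 8743849) (nat_lit 424) (nat_lit 578962) (PL.cons (nat_lit 2953) (nat_lit 8720209) (nat_lit 423) (nat_lit 576009) (PL.cons (nat_lit 2939) (nat_lit 8637721) (nat_lit 422) (nat_lit 573070) (PL.cons (nat_lit 2927) (nat_lit 8567329) (nat_lit 421) (nat_lit 570143) (PL.cons (nat_lit 2917) (nat_lit 8508889) (nat_lit 420) (nat_lit 567226) (PL.cons (nat_lit 2909) (nat_lit 8462281) (nat_lit 419) (nat_lit 564317) (PL.cons (nat_lit 2903) (nat_lit 8427409) (nat_lit 418) (nat_lit 561414) (PL.cons (nat_lit 2897) (nat_lit 8392609) (nat_lit 417) (nat_lit 558517) (PL.cons (nat_lit 2887) (nat_lit 8334769) (nat_lit 416) (nat_lit 555630) (PL.cons (nat_lit 2879) (nat_lit 8288641) (nat_lit 415) (nat_lit 552751) (PL.cons (nat_lit 2861) (nat_lit 8185321) (nat_lit 414) (nat_lit 549890) (PL.cons (nat_lit 2857) (nat_lit 8162449) (nat_lit 413) (nat_lit 547033) (PL.cons (nat_lit 2851) (nat_lit 8128201) (nat_lit 412) (nat_lit 544182) (PL.cons (nat_lit 2843) (nat_lit 8082649) (nat_lit 411)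 (nat_lit 541339) (PL.cons (nat_lit 2837) (nat_lit 8048569) (nat_lit 410) (nat_lit 538502) (PL.cons (nat_lit 2833) (nat_lit 8025889) (nat_lit 409) (nat_lit 535669) (PL.cons (nat_lit 2819) (nat_lit 7946761) (nat_lit 408) (nat_lit 532850) (PL.cons (nat_lit 2803) (nat_lit 7856809) (nat_lit 407) (nat_lit 530047) (PL.cons (nat_lit 2801) (nat_lit 7845601) (nat_lit 406) (nat_lit 527246) (PL.cons (nat_lit 2797) (nat_lit 7823209) (nat_lit 405) (nat_lit 524449) (PL.cons (nat_lit 2791) (nat_lit 7789681) (nat_lit 404) (nat_lit 521658) (PL.cons (nat_lit 2789) (nat_lit 7778521) (nat_lit 403) (nat_lit 518869) (PL.cons (nat_lit 2777) (nat_lit 7711729) (nat_lit 402) (nat_lit 516092) (PL.cons (nat_lit 2767) (nat_lit 7656289) (nat_lit 401) (nat_lit 513325) (PL.cons (nat_lit 2753) (nat_lit 7579009) (nat_lit 400) (nat_lit 510572) (PL.cons (nat_lit 2749) (nat_lit 7557001) (nat_lit 399) (nat_lit 507823) (PL.cons (nat_lit 2741) (nat_lit 7513081) (nat_lit 398) (nat_lit 505082) (PL.cons (nat_lit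 2731) (nat_lit 7458361) (nat_lit 397) (nat_lit 502351) (PL.cons (nat_lit 2729) (nat_lit 7447441) (nat_lit 396) (nat_lit 499622) (PL.cons (nat_lit 2719) (nat_lit 7392961) (nat_lit 395) (nat_lit 496903) (PL.cons (nat_lit 2713) (nat_lit 7360369) (nat_lit 394) (nat_lit 494190) (PL.cons (nat_lit 2711) (nat_lit 7349521) (nat_lit 393) (nat_lit 491479) (PL.cons (nat_lit 2707) (nat_lit 7327849) (nat_lit 392) (nat_lit 488772) (PL.cons (nat_lit 2699) (nat_lit 7284601) (nat_lit 391) (nat_lit 486073) (PL.cons (nat_lit 2693) (nat_lit 7252249) (nat_lit 390) (nat_lit 483380) (PL.cons (nat_lit 2689) (nat_lit 7230721) (nat_lit 389) (nat_lit 480691) (PL.cons (nat_lit 2687) (nat_lit 7219969) (nat_lit 388) (nat_lit 478004) (PL.cons (nat_lit 2683) (nat_lit 7198489) (nat_lit 387) (nat_lit 475321) (PL.cons (nat_lit 2677) (nat_lit 7166329) (nat_lit 386) (nat_lit 472644) (PL.cons (nat_lit 2671) (nat_lit 7134241) (nat_lit 385) (nat_lit 469973) (PL.cons (nat_lit 2663) (nat_lit 7091569) (nat_lit 384)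 (nat_lit 467310) (PL.cons (nat_lit 2659) (nat_lit 7070281) (nat_lit 383) (nat_lit 464651) (PL.cons (nat_lit 2657) (nat_lit 7059649) (nat_lit 382) (nat_lit 461994) (PL.cons (nat_lit 2647) (nat_lit 7006609) (nat_lit 381) (nat_lit 459347) (PL.cons (nat_lit 2633) (nat_lit 6932689) (nat_lit 380) (nat_lit 456714) (PL.cons (nat_lit 2621) (nat_lit 6869641) (nat_lit 379) (nat_lit 454093) (PL.cons (nat_lit 2617) (nat_lit 6848689) (nat_lit 378) (nat_lit 451476) (PL.cons (nat_lit 2609) (nat_lit 6806881) (nat_lit 377) (nat_lit 448867) (PL.cons (nat_lit 2593) (nat_lit 6723649) (nat_lit 376) (nat_lit 446274) (PL.cons (nat_lit 2591) (nat_lit 6713281) (nat_lit 375) (nat_lit 443683) (PL.cons (nat_lit 2579) (nat_lit 6651241) (nat_lit 374) (nat_lit 441104) (PL.cons (nat_lit 2557) (nat_lit 6538249) (nat_lit 373) (nat_lit 438547) (PL.cons (nat_lit 2551) (nat_lit 6507601) (nat_lit 372) (nat_lit 435996) (PL.cons (nat_lit 2549) (nat_lit 6497401) (nat_lit 371) (nat_lit 433447) (PL.cons (nat_lit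 2543) (nat_lit 6466849) (nat_lit 370) (nat_lit 430904) (PL.cons (nat_lit 2539) (nat_lit 6446521) (nat_lit 369) (nat_lit 428365) (PL.cons (nat_lit 2531) (nat_lit 6405961) (nat_lit 368) (nat_lit 425834) (PL.cons (nat_lit 2521) (nat_lit 6355441) (nat_lit 367) (nat_lit 423313) (PL.cons (nat_lit 2503) (nat_lit 6265009) (nat_lit 366) (nat_lit 420810) (PL.cons (nat_lit 2477) (nat_lit 6135529) (nat_lit 365) (nat_lit 418333) (PL.cons (nat_lit 2473) (nat_lit 6115729) (nat_lit 364) (nat_lit 415860) (PL.cons (nat_lit 2467) (nat_lit 6086089) (nat_lit 363) (nat_lit 413393) (PL.cons (nat_lit 2459) (nat_lit 6046681) (nat_lit 362) (nat_lit 410934) (PL.cons (nat_lit 2447) (nat_lit 5987809) (nat_lit 361) (nat_lit 408487) (PL.cons (nat_lit 2441) (nat_lit 5958481) (nat_lit 360) (nat_lit 406046) (PL.cons (nat_lit 2437) (nat_lit 5938969) (nat_lit 359) (nat_lit 403609) (PL.cons (nat_lit 2423) (nat_lit 5870929) (nat_lit 358) (nat_lit 401186) (PL.cons (nat_lit 2417) (nat_lit 5841889) (nat_lit 357)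 (nat_lit 398769) (PL.cons (nat_lit 2411) (nat_lit 5812921) (nat_lit 356) (nat_lit 396358) (PL.cons (nat_lit 2399) (nat_lit 5755201) (nat_lit 355) (nat_lit 393959) (PL.cons (nat_lit 2393) (nat_lit 5726449) (nat_lit 354) (nat_lit 391566) (PL.cons (nat_lit 2389) (nat_lit 5707321) (nat_lit 353) (nat_lit 389177) (PL.cons (nat_lit 2383) (nat_lit 5678689) (nat_lit 352) (nat_lit 386794) (PL.cons (nat_lit 2381) (nat_lit 5669161) (nat_lit 351) (nat_lit 384413) (PL.cons (nat_lit 2377) (nat_lit 5650129) (nat_lit 350) (nat_lit 382036) (PL.cons (nat_lit 2371) (nat_lit 5621641) (nat_lit 349) (nat_lit 379665) (PL.cons (nat_lit 2357) (nat_lit 5555449) (nat_lit 348) (nat_lit 377308) (PL.cons (nat_lit 2351) (nat_lit 5527201) (nat_lit 347) (nat_lit 374957) (PL.cons (nat_lit 2347) (nat_lit 5508409) (nat_lit 346) (nat_lit 372610) (PL.cons (nat_lit 2341) (nat_lit 5480281) (nat_lit 345) (nat_lit 370269) (PL.cons (nat_lit 2339) (nat_lit 5470921) (nat_lit 344) (nat_lit 367930) (PL.cons (nat_lit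 2333) (nat_lit 5442889) (nat_lit 343) (nat_lit 365597) (PL.cons (nat_lit 2311) (nat_lit 5340721) (nat_lit 342) (nat_lit 363286) (PL.cons (nat_lit 2309) (nat_lit 5331481) (nat_lit 341) (nat_lit 360977) (PL.cons (nat_lit 2297) (nat_lit 5276209) (nat_lit 340) (nat_lit 358680) (PL.cons (nat_lit 2293) (nat_lit 5257849) (nat_lit 339) (nat_lit 356387) (PL.cons (nat_lit 2287) (nat_lit 5230369) (nat_lit 338) (nat_lit 354100) (PL.cons (nat_lit 2281) (nat_lit 5202961) (nat_lit 337) (nat_lit 351819) (PL.cons (nat_lit 2273) (nat_lit 5166529) (nat_lit 336) (nat_lit 349546) (PL.cons (nat_lit 2269) (nat_lit 5148361) (nat_lit 335) (nat_lit 347277) (PL.cons (nat_lit 2267) (nat_lit 5139289) (nat_lit 334) (nat_lit 345010) (PL.cons (nat_lit 2251) (nat_lit 5067001) (nat_lit 333) (nat_lit 342759) (PL.cons (nat_lit 2243) (nat_lit 5031049) (nat_lit 332) (nat_lit 340516) (PL.cons (nat_lit 2239) (nat_lit 5013121) (nat_lit 331) (nat_lit 338277) (PL.cons (nat_lit 2237) (nat_lit 5004169) (nat_lit 330)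 (nat_lit 336040) (PL.cons (nat_lit 2221) (nat_lit 4932841) (nat_lit 329) (nat_lit 333819) (PL.cons (nat_lit 2213) (nat_lit 4897369) (nat_lit 328) (nat_lit 331606) (PL.cons (nat_lit 2207) (nat_lit 4870849) (nat_lit 327) (nat_lit 329399) (PL.cons (nat_lit 2203) (nat_lit 4853209) (nat_lit 326) (nat_lit 327196) (PL.cons (nat_lit 2179) (nat_lit 4748041) (nat_lit 325) (nat_lit 325017) (PL.cons (nat_lit 2161) (nat_lit 4669921) (nat_lit 324) (nat_lit 322856) (PL.cons (nat_lit 2153) (nat_lit 4635409) (nat_lit 323) (nat_lit 320703) (PL.cons (nat_lit 2143) (nat_lit 4592449) (nat_lit 322) (nat_lit 318560) (PL.cons (nat_lit 2141) (nat_lit 4583881) (nat_lit 321) (nat_lit 316419) (PL.cons (nat_lit 2137) (nat_lit 4566769) (nat_lit 320) (nat_lit 314282) (PL.cons (nat_lit 2131) (nat_lit 4541161) (nat_lit 319) (nat_lit 312151) (PL.cons (nat_lit 2129) (nat_lit 4532641) (nat_lit 318) (nat_lit 310022) (PL.cons (nat_lit 2113) (nat_lit 4464769) (nat_lit 317) (nat_lit 307909) (PL.cons (nat_lit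 2111) (nat_lit 4456321) (nat_lit 316) (nat_lit 305798) (PL.cons (nat_lit 2099) (nat_lit 4405801) (nat_lit 315) (nat_lit 303699) (PL.cons (nat_lit 2089) (nat_lit 4363921) (nat_lit 314) (nat_lit 301610) (PL.cons (nat_lit 2087) (nat_lit 4355569) (nat_lit 313) (nat_lit 299523) (PL.cons (nat_lit 2083) (nat_lit 4338889) (nat_lit 312) (nat_lit 297440) (PL.cons (nat_lit 2081) (nat_lit 4330561) (nat_lit 311) (nat_lit 295359) (PL.cons (nat_lit 2069) (nat_lit 4280761) (nat_lit 310) (nat_lit 293290) (PL.cons (nat_lit 2063) (nat_lit 4255969) (nat_lit 309) (nat_lit 291227) (PL.cons (nat_lit 2053) (nat_lit 4214809) (nat_lit 308) (nat_lit 289174) (PL.cons (nat_lit 2039) (nat_lit 4157521) (nat_lit 307) (nat_lit 287135) (PL.cons (nat_lit 2029) (nat_lit 4116841) (nat_lit 306) (nat_lit 285106) (PL.cons (nat_lit 2027) (nat_lit 4108729) (nat_lit 305) (nat_lit 283079) (PL.cons (nat_lit 2017) (nat_lit 4068289) (nat_lit 304) (nat_lit 281062) (PL.cons (nat_lit 2011) (nat_lit 4044121) (nat_lit 303)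 (nat_lit 279051) (PL.cons (nat_lit 2003) (nat_lit 4012009) (nat_lit 302) (nat_lit 277048) (PL.cons (nat_lit 1999) (nat_lit 3996001) (nat_lit 301) (nat_lit 275049) (PL.cons (nat_lit 1997) (nat_lit 3988009) (nat_lit 300) (nat_lit 273052) (PL.cons (nat_lit 1993) (nat_lit 3972049) (nat_lit 299) (nat_lit 271059) (PL.cons (nat_lit 1987) (nat_lit 3948169) (nat_lit 298) (nat_lit 269072) (PL.cons (nat_lit 1979) (nat_lit 3916441) (nat_lit 297) (nat_lit 267093) (PL.cons (nat_lit 1973) (nat_lit 3892729) (nat_lit 296) (nat_lit 265120) (PL.cons (nat_lit 1951) (nat_lit 3806401) (nat_lit 295) (nat_lit 263169) (PL.cons (nat_lit 1949) (nat_lit 3798601) (nat_lit 294) (nat_lit 261220) (PL.cons (nat_lit 1933) (nat_lit 3736489) (nat_lit 293) (nat_lit 259287) (PL.cons (nat_lit 1931) (nat_lit 3728761) (nat_lit 292) (nat_lit 257356) (PL.cons (nat_lit 1913) (nat_lit 3659569) (nat_lit 291) (nat_lit 255443) (PL.cons (nat_lit 1907) (nat_lit 3636649) (nat_lit 290) (nat_lit 253536) (PL.cons (nat_lit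 1901) (nat_lit 3613801) (nat_lit 289) (nat_lit 251635) (PL.cons (nat_lit 1889) (nat_lit 3568321) (nat_lit 288) (nat_lit 249746) (PL.cons (nat_lit 1879) (nat_lit 3530641) (nat_lit 287) (nat_lit 247867) (PL.cons (nat_lit 1877) (nat_lit 3523129) (nat_lit 286) (nat_lit 245990) (PL.cons (nat_lit 1873) (nat_lit 3508129) (nat_lit 285) (nat_lit 244117) (PL.cons (nat_lit 1871) (nat_lit 3500641) (nat_lit 284) (nat_lit 242246) (PL.cons (nat_lit 1867) (nat_lit 3485689) (nat_lit 283) (nat_lit 240379) (PL.cons (nat_lit 1861) (nat_lit 3463321) (nat_lit 282) (nat_lit 238518) (PL.cons (nat_lit 1847) (nat_lit 3411409) (nat_lit 281) (nat_lit 236671) (PL.cons (nat_lit 1831) (nat_lit 3352561) (nat_lit 280) (nat_lit 234840) (PL.cons (nat_lit 1823) (nat_lit 3323329) (nat_lit 279) (nat_lit 233017) (PL.cons (nat_lit 1811) (nat_lit 3279721) (nat_lit 278) (nat_lit 231206) (PL.cons (nat_lit 1801) (nat_lit 3243601) (nat_lit 277) (nat_lit 229405) (PL.cons (nat_lit 1789) (nat_lit 3200521) (nat_lit 276)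 (nat_lit 227616) (PL.cons (nat_lit 1787) (nat_lit 3193369) (nat_lit 275) (nat_lit 225829) (PL.cons (nat_lit 1783) (nat_lit 3179089) (nat_lit 274) (nat_lit 224046) (PL.cons (nat_lit 1777) (nat_lit 3157729) (nat_lit 273) (nat_lit 222269) (PL.cons (nat_lit 1759) (nat_lit 3094081) (nat_lit 272) (nat_lit 220510) (PL.cons (nat_lit 1753) (nat_lit 3073009) (nat_lit 271) (nat_lit 218757) (PL.cons (nat_lit 1747) (nat_lit 3052009) (nat_lit 270) (nat_lit 217010) (PL.cons (nat_lit 1741) (nat_lit 3031081) (nat_lit 269) (nat_lit 215269) (PL.cons (nat_lit 1733) (nat_lit 3003289) (nat_lit 268) (nat_lit 213536) (PL.cons (nat_lit 1723) (nat_lit 2968729) (nat_lit 267) (nat_lit 211813) (PL.cons (nat_lit 1721) (nat_lit 2961841) (nat_lit 266) (nat_lit 210092) (PL.cons (nat_lit 1709) (nat_lit 2920681) (nat_lit 265) (nat_lit 208383) (PL.cons (nat_lit 1699) (nat_lit 2886601) (nat_lit 264) (nat_lit 206684) (PL.cons (nat_lit 1697) (nat_lit 2879809) (nat_lit 263) (nat_lit 204987) (PL.cons (nat_lit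 1693) (nat_lit 2866249) (nat_lit 262) (nat_lit 203294) L9))))))))))))))))))))))))))))))))))))))))))))))))))))))))))))))))))))))))))))))))))))))))))))))))))))))))))))))))))))))))))))))))))))))))))))))))))))))))))))))))))))))))))))))))))))))))))))))))))))))))))))))))))))))))))))))))))))))))))))))))))))))))))))))))))))))))))))))))))))))))))))))))))))))))))))))))))))))))))))))))))))))))))))))))))))))))))))))))))))))))))))))))))))))))))))))))))))

def L11 : PL := (PL.cons (nat_lit 8287) (nat_lit 68674369) (nat_lit 1037) (nat_lit 3991037) (PL.cons (nat_lit 8273) (nat_lit 68442529) (nat_lit 1036) (nat_lit 3982764) (PL.cons (nat_lit 8269) (nat_lit 68376361) (nat_lit 1035) (nat_lit 3974495) (PL.cons (nat_lit 8263) (nat_lit 68277169) (nat_lit 1034) (nat_lit 3966232) (PL.cons (nat_lit 8243) (nat_lit 67947049) (nat_lit 1033) (nat_lit 3957989) (PL.cons (nat_lit 8237) (nat_lit 67848169) (nat_lit 1032) (nat_lit 3949752) (PL.cons (nat_lit 8233) (nat_lit 67782289) (nat_lit 1031) (nat_lit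 3941519) (PL.cons (nat_lit 8231) (nat_lit 67749361) (nat_lit 1030) (nat_lit 3933288) (PL.cons (nat_lit 8221) (nat_lit 67584841) (nat_lit 1029) (nat_lit 3925067) (PL.cons (nat_lit 8219) (nat_lit 67551961) (nat_lit 1028) (nat_lit 3916848) (PL.cons (nat_lit 8209) (nat_lit 67387681) (nat_lit 1027) (nat_lit 3908639) (PL.cons (nat_lit 8191) (nat_lit 67092481) (nat_lit 1026) (nat_lit 3900448) (PL.cons (nat_lit 8179) (nat_lit 66896041) (nat_lit 1025) (nat_lit 3892269) (PL.cons (nat_lit 8171) (nat_lit 66765241) (nat_lit 1024) (nat_lit 3884098) (PL.cons (nat_lit 8167) (nat_lit 66699889) (nat_lit 1023) (nat_lit 3875931) (PL.cons (nat_lit 8161) (nat_lit 66601921) (nat_lit 1022) (nat_lit 3867770) (PL.cons (nat_lit 8147) (nat_lit 66373609) (nat_lit 1021) (nat_lit 3859623) (PL.cons (nat_lit 8123) (nat_lit 65983129) (nat_lit 1020) (nat_lit 3851500) (PL.cons (nat_lit 8117) (nat_lit 65885689) (nat_lit 1019) (nat_lit 3843383) (PL.cons (nat_lit 8111) (nat_lit 65788321) (nat_lit 1018) (nat_lit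 3835272) (PL.cons (nat_lit 8101) (nat_lit 65626201) (nat_lit 1017) (nat_lit 3827171) (PL.cons (nat_lit 8093) (nat_lit 65496649) (nat_lit 1016) (nat_lit 3819078) (PL.cons (nat_lit 8089) (nat_lit 65431921) (nat_lit 1015) (nat_lit 3810989) (PL.cons (nat_lit 8087) (nat_lit 65399569) (nat_lit 1014) (nat_lit 3802902) (PL.cons (nat_lit 8081) (nat_lit 65302561) (nat_lit 1013) (nat_lit 3794821) (PL.cons (nat_lit 8069) (nat_lit 65108761) (nat_lit 1012) (nat_lit 3786752) (PL.cons (nat_lit 8059) (nat_lit 64947481) (nat_lit 1011) (nat_lit 3778693) (PL.cons (nat_lit 8053) (nat_lit 64850809) (nat_lit 1010) (nat_lit 3770640) (PL.cons (nat_lit 8039) (nat_lit 64625521) (nat_lit 1009) (nat_lit 3762601) (PL.cons (nat_lit 8017) (nat_lit 64272289) (nat_lit 1008) (nat_lit 3754584) (PL.cons (nat_lit 8011) (nat_lit 64176121) (nat_lit 1007) (nat_lit 3746573) (PL.cons (nat_lit 8009) (nat_lit 64144081) (nat_lit 1006) (nat_lit 3738564) (PL.cons (nat_lit 7993) (nat_lit 63888049) (nat_lit 1005) (nat_lit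 3730571) (PL.cons (nat_lit 7963) (nat_lit 63409369) (nat_lit 1004) (nat_lit 3722608) (PL.cons (nat_lit 7951) (nat_lit 63218401) (nat_lit 1003) (nat_lit 3714657) (PL.cons (nat_lit 7949) (nat_lit 63186601) (nat_lit 1002) (nat_lit 3706708) (PL.cons (nat_lit 7937) (nat_lit 62995969) (nat_lit 1001) (nat_lit 3698771) (PL.cons (nat_lit 7933) (nat_lit 62932489) (nat_lit 1000) (nat_lit 3690838) (PL.cons (nat_lit 7927) (nat_lit 62837329) (nat_lit 999) (nat_lit 3682911) (PL.cons (nat_lit 7919) (nat_lit 62710561) (nat_lit 998) (nat_lit 3674992) (PL.cons (nat_lit 7907) (nat_lit 62520649) (nat_lit 997) (nat_lit 3667085) (PL.cons (nat_lit 7901) (nat_lit 62425801) (nat_lit 996) (nat_lit 3659184) (PL.cons (nat_lit 7883) (nat_lit 62141689) (nat_lit 995) (nat_lit 3651301) (PL.cons (nat_lit 7879) (nat_lit 62078641) (nat_lit 994) (nat_lit 3643422) (PL.cons (nat_lit 7877) (nat_lit 62047129) (nat_lit 993) (nat_lit 3635545) (PL.cons (nat_lit 7873) (nat_lit 61984129) (nat_lit 992) (nat_lit 3627672)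 (PL.cons (nat_lit 7867) (nat_lit 61889689) (nat_lit 991) (nat_lit 3619805) (PL.cons (nat_lit 7853) (nat_lit 61669609) (nat_lit 990) (nat_lit 3611952) (PL.cons (nat_lit 7841) (nat_lit 61481281) (nat_lit 989) (nat_lit 3604111) (PL.cons (nat_lit 7829) (nat_lit 61293241) (nat_lit 988) (nat_lit 3596282) (PL.cons (nat_lit 7823) (nat_lit 61199329) (nat_lit 987) (nat_lit 3588459) (PL.cons (nat_lit 7817) (nat_lit 61105489) (nat_lit 986) (nat_lit 3580642) (PL.cons (nat_lit 7793) (nat_lit 60730849) (nat_lit 985) (nat_lit 3572849) (PL.cons (nat_lit 7789) (nat_lit 60668521) (nat_lit 984) (nat_lit 3565060) (PL.cons (nat_lit 7759) (nat_lit 60202081) (nat_lit 983) (nat_lit 3557301) (PL.cons (nat_lit 7757) (nat_lit 60171049) (nat_lit 982) (nat_lit 3549544) (PL.cons (nat_lit 7753) (nat_lit 60109009) (nat_lit 981) (nat_lit 3541791) (PL.cons (nat_lit 7741) (nat_lit 59923081) (nat_lit 980) (nat_lit 3534050) (PL.cons (nat_lit 7727) (nat_lit 59706529) (nat_lit 979) (nat_lit 3526323) (PL.cons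 (nat_lit 7723) (nat_lit 59644729) (nat_lit 978) (nat_lit 3518600) (PL.cons (nat_lit 7717) (nat_lit 59552089) (nat_lit 977) (nat_lit 3510883) (PL.cons (nat_lit 7703) (nat_lit 59336209) (nat_lit 976) (nat_lit 3503180) (PL.cons (nat_lit 7699) (nat_lit 59274601) (nat_lit 975) (nat_lit 3495481) (PL.cons (nat_lit 7691) (nat_lit 59151481) (nat_lit 974) (nat_lit 3487790) (PL.cons (nat_lit 7687) (nat_lit 59089969) (nat_lit 973) (nat_lit 3480103) (PL.cons (nat_lit 7681) (nat_lit 58997761) (nat_lit 972) (nat_lit 3472422) (PL.cons (nat_lit 7673) (nat_lit 58874929) (nat_lit 971) (nat_lit 3464749) (PL.cons (nat_lit 7669) (nat_lit 58813561) (nat_lit 970) (nat_lit 3457080) (PL.cons (nat_lit 7649) (nat_lit 58507201) (nat_lit 969) (nat_lit 3449431) (PL.cons (nat_lit 7643) (nat_lit 58415449) (nat_lit 968) (nat_lit 3441788) (PL.cons (nat_lit 7639) (nat_lit 58354321) (nat_lit 967) (nat_lit 3434149) (PL.cons (nat_lit 7621) (nat_lit 58079641) (nat_lit 966) (nat_lit 3426528) (PL.cons (nat_lit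 7607) (nat_lit 57866449) (nat_lit 965) (nat_lit 3418921) (PL.cons (nat_lit 7603) (nat_lit 57805609) (nat_lit 964) (nat_lit 3411318) (PL.cons (nat_lit 7591) (nat_lit 57623281) (nat_lit 963) (nat_lit 3403727) (PL.cons (nat_lit 7589) (nat_lit 57592921) (nat_lit 962) (nat_lit 3396138) (PL.cons (nat_lit 7583) (nat_lit 57501889) (nat_lit 961) (nat_lit 3388555) (PL.cons (nat_lit 7577) (nat_lit 57410929) (nat_lit 960) (nat_lit 3380978) (PL.cons (nat_lit 7573) (nat_lit 57350329) (nat_lit 959) (nat_lit 3373405) (PL.cons (nat_lit 7561) (nat_lit 57168721) (nat_lit 958) (nat_lit 3365844) (PL.cons (nat_lit 7559) (nat_lit 57138481) (nat_lit 957) (nat_lit 3358285) (PL.cons (nat_lit 7549) (nat_lit 56987401) (nat_lit 956) (nat_lit 3350736) (PL.cons (nat_lit 7547) (nat_lit 56957209) (nat_lit 955) (nat_lit 3343189) (PL.cons (nat_lit 7541) (nat_lit 56866681) (nat_lit 954) (nat_lit 3335648) (PL.cons (nat_lit 7537) (nat_lit 56806369) (nat_lit 953) (nat_lit 3328111) (PL.cons (nat_lit 7529) (nat_lit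 56685841) (nat_lit 952) (nat_lit 3320582) (PL.cons (nat_lit 7523) (nat_lit 56595529) (nat_lit 951) (nat_lit 3313059) (PL.cons (nat_lit 7517) (nat_lit 56505289) (nat_lit 950) (nat_lit 3305542) (PL.cons (nat_lit 7507) (nat_lit 56355049) (nat_lit 949) (nat_lit 3298035) (PL.cons (nat_lit 7499) (nat_lit 56235001) (nat_lit 948) (nat_lit 3290536) (PL.cons (nat_lit 7489) (nat_lit 56085121) (nat_lit 947) (nat_lit 3283047) (PL.cons (nat_lit 7487) (nat_lit 56055169) (nat_lit 946) (nat_lit 3275560) (PL.cons (nat_lit 7481) (nat_lit 55965361) (nat_lit 945) (nat_lit 3268079) (PL.cons (nat_lit 7477) (nat_lit 55905529) (nat_lit 944) (nat_lit 3260602) (PL.cons (nat_lit 7459) (nat_lit 55636681) (nat_lit 943) (nat_lit 3253143) (PL.cons (nat_lit 7457) (nat_lit 55606849) (nat_lit 942) (nat_lit 3245686) (PL.cons (nat_lit 7451) (nat_lit 55517401) (nat_lit 941) (nat_lit 3238235) (PL.cons (nat_lit 7433) (nat_lit 55249489) (nat_lit 940) (nat_lit 3230802) (PL.cons (nat_lit 7417) (nat_lit 55011889)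 (nat_lit 939) (nat_lit 3223385) (PL.cons (nat_lit 7411) (nat_lit 54922921) (nat_lit 938) (nat_lit 3215974) (PL.cons (nat_lit 7393) (nat_lit 54656449) (nat_lit 937) (nat_lit 3208581) (PL.cons (nat_lit 7369) (nat_lit 54302161) (nat_lit 936) (nat_lit 3201212) (PL.cons (nat_lit 7351) (nat_lit 54037201) (nat_lit 935) (nat_lit 3193861) (PL.cons (nat_lit 7349) (nat_lit 54007801) (nat_lit 934) (nat_lit 3186512) (PL.cons (nat_lit 7333) (nat_lit 53772889) (nat_lit 933) (nat_lit 3179179) (PL.cons (nat_lit 7331) (nat_lit 53743561) (nat_lit 932) (nat_lit 3171848) (PL.cons (nat_lit 7321) (nat_lit 53597041) (nat_lit 931) (nat_lit 3164527) (PL.cons (nat_lit 7309) (nat_lit 53421481) (nat_lit 930) (nat_lit 3157218) (PL.cons (nat_lit 7307) (nat_lit 53392249) (nat_lit 929) (nat_lit 3149911) (PL.cons (nat_lit 7297) (nat_lit 53246209) (nat_lit 928) (nat_lit 3142614) (PL.cons (nat_lit 7283) (nat_lit 53042089) (nat_lit 927) (nat_lit 3135331) (PL.cons (nat_lit 7253) (nat_lit 52606009) (nat_lit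 926) (nat_lit 3128078) (PL.cons (nat_lit 7247) (nat_lit 52519009) (nat_lit 925) (nat_lit 3120831) (PL.cons (nat_lit 7243) (nat_lit 52461049) (nat_lit 924) (nat_lit 3113588) (PL.cons (nat_lit 7237) (nat_lit 52374169) (nat_lit 923) (nat_lit 3106351) (PL.cons (nat_lit 7229) (nat_lit 52258441) (nat_lit 922) (nat_lit 3099122) (PL.cons (nat_lit 7219) (nat_lit 52113961) (nat_lit 921) (nat_lit 3091903) (PL.cons (nat_lit 7213) (nat_lit 52027369) (nat_lit 920) (nat_lit 3084690) (PL.cons (nat_lit 7211) (nat_lit 51998521) (nat_lit 919) (nat_lit 3077479) (PL.cons (nat_lit 7207) (nat_lit 51940849) (nat_lit 918) (nat_lit 3070272) (PL.cons (nat_lit 7193) (nat_lit 51739249) (nat_lit 917) (nat_lit 3063079) (PL.cons (nat_lit 7187) (nat_lit 51652969) (nat_lit 916) (nat_lit 3055892) (PL.cons (nat_lit 7177) (nat_lit 51509329) (nat_lit 915) (nat_lit 3048715) (PL.cons (nat_lit 7159) (nat_lit 51251281) (nat_lit 914) (nat_lit 3041556) (PL.cons (nat_lit 7151) (nat_lit 51136801) (nat_lit 913) (nat_lit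 3034405) (PL.cons (nat_lit 7129) (nat_lit 50822641) (nat_lit 912) (nat_lit 3027276) (PL.cons (nat_lit 7127) (nat_lit 50794129) (nat_lit 911) (nat_lit 3020149) (PL.cons (nat_lit 7121) (nat_lit 50708641) (nat_lit 910) (nat_lit 3013028) (PL.cons (nat_lit 7109) (nat_lit 50537881) (nat_lit 909) (nat_lit 3005919) (PL.cons (nat_lit 7103) (nat_lit 50452609) (nat_lit 908) (nat_lit 2998816) (PL.cons (nat_lit 7079) (nat_lit 50112241) (nat_lit 907) (nat_lit 2991737) (PL.cons (nat_lit 7069) (nat_lit 49970761) (nat_lit 906) (nat_lit 2984668) (PL.cons (nat_lit 7057) (nat_lit 49801249) (nat_lit 905) (nat_lit 2977611) (PL.cons (nat_lit 7043) (nat_lit 49603849) (nat_lit 904) (nat_lit 2970568) (PL.cons (nat_lit 7039) (nat_lit 49547521) (nat_lit 903) (nat_lit 2963529) (PL.cons (nat_lit 7027) (nat_lit 49378729) (nat_lit 902) (nat_lit 2956502) (PL.cons (nat_lit 7019) (nat_lit 49266361) (nat_lit 901) (nat_lit 2949483) (PL.cons (nat_lit 7013) (nat_lit 49182169) (nat_lit 900) (nat_lit 2942470)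 (PL.cons (nat_lit 7001) (nat_lit 49014001) (nat_lit 899) (nat_lit 2935469) (PL.cons (nat_lit 6997) (nat_lit 48958009) (nat_lit 898) (nat_lit 2928472) (PL.cons (nat_lit 6991) (nat_lit 48874081) (nat_lit 897) (nat_lit 2921481) (PL.cons (nat_lit 6983) (nat_lit 48762289) (nat_lit 896) (nat_lit 2914498) (PL.cons (nat_lit 6977) (nat_lit 48678529) (nat_lit 895) (nat_lit 2907521) (PL.cons (nat_lit 6971) (nat_lit 48594841) (nat_lit 894) (nat_lit 2900550) (PL.cons (nat_lit 6967) (nat_lit 48539089) (nat_lit 893) (nat_lit 2893583) (PL.cons (nat_lit 6961) (nat_lit 48455521) (nat_lit 892) (nat_lit 2886622) (PL.cons (nat_lit 6959) (nat_lit 48427681) (nat_lit 891) (nat_lit 2879663) (PL.cons (nat_lit 6949) (nat_lit 48288601) (nat_lit 890) (nat_lit 2872714) (PL.cons (nat_lit 6947) (nat_lit 48260809) (nat_lit 889) (nat_lit 2865767) (PL.cons (nat_lit 6917) (nat_lit 47844889) (nat_lit 888) (nat_lit 2858850) (PL.cons (nat_lit 6911) (nat_lit 47761921) (nat_lit 887) (nat_lit 2851939) (PL.cons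 (nat_lit 6907) (nat_lit 47706649) (nat_lit 886) (nat_lit 2845032) (PL.cons (nat_lit 6899) (nat_lit 47596201) (nat_lit 885) (nat_lit 2838133) (PL.cons (nat_lit 6883) (nat_lit 47375689) (nat_lit 884) (nat_lit 2831250) (PL.cons (nat_lit 6871) (nat_lit 47210641) (nat_lit 883) (nat_lit 2824379) (PL.cons (nat_lit 6869) (nat_lit 47183161) (nat_lit 882) (nat_lit 2817510) (PL.cons (nat_lit 6863) (nat_lit 47100769) (nat_lit 881) (nat_lit 2810647) (PL.cons (nat_lit 6857) (nat_lit 47018449) (nat_lit 880) (nat_lit 2803790) (PL.cons (nat_lit 6841) (nat_lit 46799281) (nat_lit 879) (nat_lit 2796949) (PL.cons (nat_lit 6833) (nat_lit 46689889) (nat_lit 878) (nat_lit 2790116) (PL.cons (nat_lit 6829) (nat_lit 46635241) (nat_lit 877) (nat_lit 2783287) (PL.cons (nat_lit 6827) (nat_lit 46607929) (nat_lit 876) (nat_lit 2776460) (PL.cons (nat_lit 6823) (nat_lit 46553329) (nat_lit 875) (nat_lit 2769637) (PL.cons (nat_lit 6803) (nat_lit 46280809) (nat_lit 874) (nat_lit 2762834) (PL.cons (nat_lit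 6793) (nat_lit 46144849) (nat_lit 873) (nat_lit 2756041) (PL.cons (nat_lit 6791) (nat_lit 46117681) (nat_lit 872) (nat_lit 2749250) (PL.cons (nat_lit 6781) (nat_lit 45981961) (nat_lit 871) (nat_lit 2742469) (PL.cons (nat_lit 6779) (nat_lit 45954841) (nat_lit 870) (nat_lit 2735690) (PL.cons (nat_lit 6763) (nat_lit 45738169) (nat_lit 869) (nat_lit 2728927) (PL.cons (nat_lit 6761) (nat_lit 45711121) (nat_lit 868) (nat_lit 2722166) (PL.cons (nat_lit 6737) (nat_lit 45387169) (nat_lit 867) (nat_lit 2715429) (PL.cons (nat_lit 6733) (nat_lit 45333289) (nat_lit 866) (nat_lit 2708696) (PL.cons (nat_lit 6719) (nat_lit 45144961) (nat_lit 865) (nat_lit 2701977) (PL.cons (nat_lit 6709) (nat_lit 45010681) (nat_lit 864) (nat_lit 2695268) (PL.cons (nat_lit 6703) (nat_lit 44930209) (nat_lit 863) (nat_lit 2688565) (PL.cons (nat_lit 6701) (nat_lit 44903401) (nat_lit 862) (nat_lit 2681864) (PL.cons (nat_lit 6691) (nat_lit 44769481) (nat_lit 861) (nat_lit 2675173) (PL.cons (nat_lit 6689) (nat_lit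 44742721) (nat_lit 860) (nat_lit 2668484) (PL.cons (nat_lit 6679) (nat_lit 44609041) (nat_lit 859) (nat_lit 2661805) (PL.cons (nat_lit 6673) (nat_lit 44528929) (nat_lit 858) (nat_lit 2655132) (PL.cons (nat_lit 6661) (nat_lit 44368921) (nat_lit 857) (nat_lit 2648471) (PL.cons (nat_lit 6659) (nat_lit 44342281) (nat_lit 856) (nat_lit 2641812) (PL.cons (nat_lit 6653) (nat_lit 44262409) (nat_lit 855) (nat_lit 2635159) (PL.cons (nat_lit 6637) (nat_lit 44049769) (nat_lit 854) (nat_lit 2628522) (PL.cons (nat_lit 6619) (nat_lit 43811161) (nat_lit 853) (nat_lit 2621903) (PL.cons (nat_lit 6607) (nat_lit 43652449) (nat_lit 852) (nat_lit 2615296) (PL.cons (nat_lit 6599) (nat_lit 43546801) (nat_lit 851) (nat_lit 2608697) (PL.cons (nat_lit 6581) (nat_lit 43309561) (nat_lit 850) (nat_lit 2602116) (PL.cons (nat_lit 6577) (nat_lit 43256929) (nat_lit 849) (nat_lit 2595539) (PL.cons (nat_lit 6571) (nat_lit 43178041) (nat_lit 848) (nat_lit 2588968) (PL.cons (nat_lit 6569) (nat_lit 43151761)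 (nat_lit 847) (nat_lit 2582399) (PL.cons (nat_lit 6563) (nat_lit 43072969) (nat_lit 846) (nat_lit 2575836) (PL.cons (nat_lit 6553) (nat_lit 42941809) (nat_lit 845) (nat_lit 2569283) (PL.cons (nat_lit 6551) (nat_lit 42915601) (nat_lit 844) (nat_lit 2562732) (PL.cons (nat_lit 6547) (nat_lit 42863209) (nat_lit 843) (nat_lit 2556185) (PL.cons (nat_lit 6529) (nat_lit 42627841) (nat_lit 842) (nat_lit 2549656) (PL.cons (nat_lit 6521) (nat_lit 42523441) (nat_lit 841) (nat_lit 2543135) (PL.cons (nat_lit 6491) (nat_lit 42133081) (nat_lit 840) (nat_lit 2536644) (PL.cons (nat_lit 6481) (nat_lit 42003361) (nat_lit 839) (nat_lit 2530163) (PL.cons (nat_lit 6473) (nat_lit 41899729) (nat_lit 838) (nat_lit 2523690) (PL.cons (nat_lit 6469) (nat_lit 41847961) (nat_lit 837) (nat_lit 2517221) (PL.cons (nat_lit 6451) (nat_lit 41615401) (nat_lit 836) (nat_lit 2510770) (PL.cons (nat_lit 6449) (nat_lit 41589601) (nat_lit 835) (nat_lit 2504321) (PL.cons (nat_lit 6427) (nat_lit 41306329) (nat_lit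 834) (nat_lit 2497894) (PL.cons (nat_lit 6421) (nat_lit 41229241) (nat_lit 833) (nat_lit 2491473) (PL.cons (nat_lit 6397) (nat_lit 40921609) (nat_lit 832) (nat_lit 2485076) (PL.cons (nat_lit 6389) (nat_lit 40819321) (nat_lit 831) (nat_lit 2478687) (PL.cons (nat_lit 6379) (nat_lit 40691641) (nat_lit 830) (nat_lit 2472308) (PL.cons (nat_lit 6373) (nat_lit 40615129) (nat_lit 829) (nat_lit 2465935) (PL.cons (nat_lit 6367) (nat_lit 40538689) (nat_lit 828) (nat_lit 2459568) (PL.cons (nat_lit 6361) (nat_lit 40462321) (nat_lit 827) (nat_lit 2453207) (PL.cons (nat_lit 6359) (nat_lit 40436881) (nat_lit 826) (nat_lit 2446848) (PL.cons (nat_lit 6353) (nat_lit 40360609) (nat_lit 825) (nat_lit 2440495) (PL.cons (nat_lit 6343) (nat_lit 40233649) (nat_lit 824) (nat_lit 2434152) (PL.cons (nat_lit 6337) (nat_lit 40157569) (nat_lit 823) (nat_lit 2427815) (PL.cons (nat_lit 6329) (nat_lit 40056241) (nat_lit 822) (nat_lit 2421486) (PL.cons (nat_lit 6323) (nat_lit 39980329) (nat_lit 821) (nat_lit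 2415163) (PL.cons (nat_lit 6317) (nat_lit 39904489) (nat_lit 820) (nat_lit 2408846) (PL.cons (nat_lit 6311) (nat_lit 39828721) (nat_lit 819) (nat_lit 2402535) (PL.cons (nat_lit 6301) (nat_lit 39702601) (nat_lit 818) (nat_lit 2396234) (PL.cons (nat_lit 6299) (nat_lit 39677401) (nat_lit 817) (nat_lit 2389935) (PL.cons (nat_lit 6287) (nat_lit 39526369) (nat_lit 816) (nat_lit 2383648) (PL.cons (nat_lit 6277) (nat_lit 39400729) (nat_lit 815) (nat_lit 2377371) (PL.cons (nat_lit 6271) (nat_lit 39325441) (nat_lit 814) (nat_lit 2371100) (PL.cons (nat_lit 6269) (nat_lit 39300361) (nat_lit 813) (nat_lit 2364831) (PL.cons (nat_lit 6263) (nat_lit 39225169) (nat_lit 812) (nat_lit 2358568) (PL.cons (nat_lit 6257) (nat_lit 39150049) (nat_lit 811) (nat_lit 2352311) (PL.cons (nat_lit 6247) (nat_lit 39025009) (nat_lit 810) (nat_lit 2346064) (PL.cons (nat_lit 6229) (nat_lit 38800441) (nat_lit 809) (nat_lit 2339835) (PL.cons (nat_lit 6221) (nat_lit 38700841) (nat_lit 808) (nat_lit 2333614)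 (PL.cons (nat_lit 6217) (nat_lit 38651089) (nat_lit 807) (nat_lit 2327397) (PL.cons (nat_lit 6211) (nat_lit 38576521) (nat_lit 806) (nat_lit 2321186) (PL.cons (nat_lit 6203) (nat_lit 38477209) (nat_lit 805) (nat_lit 2314983) (PL.cons (nat_lit 6199) (nat_lit 38427601) (nat_lit 804) (nat_lit 2308784) (PL.cons (nat_lit 6197) (nat_lit 38402809) (nat_lit 803) (nat_lit 2302587) (PL.cons (nat_lit 6173) (nat_lit 38105929) (nat_lit 802) (nat_lit 2296414) (PL.cons (nat_lit 6163) (nat_lit 37982569) (nat_lit 801) (nat_lit 2290251) (PL.cons (nat_lit 6151) (nat_lit 37834801) (nat_lit 800) (nat_lit 2284100) (PL.cons (nat_lit 6143) (nat_lit 37736449) (nat_lit 799) (nat_lit 2277957) (PL.cons (nat_lit 6133) (nat_lit 37613689) (nat_lit 798) (nat_lit 2271824) (PL.cons (nat_lit 6131) (nat_lit 37589161) (nat_lit 797) (nat_lit 2265693) (PL.cons (nat_lit 6121) (nat_lit 37466641) (nat_lit 796) (nat_lit 2259572) (PL.cons (nat_lit 6113) (nat_lit 37368769) (nat_lit 795) (nat_lit 2253459) (PL.cons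 (nat_lit 6101) (nat_lit 37222201) (nat_lit 794) (nat_lit 2247358) (PL.cons (nat_lit 6091) (nat_lit 37100281) (nat_lit 793) (nat_lit 2241267) (PL.cons (nat_lit 6089) (nat_lit 37075921) (nat_lit 792) (nat_lit 2235178) (PL.cons (nat_lit 6079) (nat_lit 36954241) (nat_lit 791) (nat_lit 2229099) (PL.cons (nat_lit 6073) (nat_lit 36881329) (nat_lit 790) (nat_lit 2223026) (PL.cons (nat_lit 6067) (nat_lit 36808489) (nat_lit 789) (nat_lit 2216959) (PL.cons (nat_lit 6053) (nat_lit 36638809) (nat_lit 788) (nat_lit 2210906) (PL.cons (nat_lit 6047) (nat_lit 36566209) (nat_lit 787) (nat_lit 2204859) (PL.cons (nat_lit 6043) (nat_lit 36517849) (nat_lit 786) (nat_lit 2198816) (PL.cons (nat_lit 6037) (nat_lit 36445369) (nat_lit 785) (nat_lit 2192779) (PL.cons (nat_lit 6029) (nat_lit 36348841) (nat_lit 784) (nat_lit 2186750) (PL.cons (nat_lit 6011) (nat_lit 36132121) (nat_lit 783) (nat_lit 2180739) (PL.cons (nat_lit 6007) (nat_lit 36084049) (nat_lit 782) (nat_lit 2174732) (PL.cons (nat_lit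 5987) (nat_lit 35844169) (nat_lit 781) (nat_lit 2168745) (PL.cons (nat_lit 5981) (nat_lit 35772361) (nat_lit 780) (nat_lit 2162764) (PL.cons (nat_lit 5953) (nat_lit 35438209) (nat_lit 779) (nat_lit 2156811) (PL.cons (nat_lit 5939) (nat_lit 35271721) (nat_lit 778) (nat_lit 2150872) (PL.cons (nat_lit 5927) (nat_lit 35129329) (nat_lit 777) (nat_lit 2144945) (PL.cons (nat_lit 5923) (nat_lit 35081929) (nat_lit 776) (nat_lit 2139022) (PL.cons (nat_lit 5903) (nat_lit 34845409) (nat_lit 775) (nat_lit 2133119) (PL.cons (nat_lit 5897) (nat_lit 34774609) (nat_lit 774) (nat_lit 2127222) (PL.cons (nat_lit 5881) (nat_lit 34586161) (nat_lit 773) (nat_lit 2121341) (PL.cons (nat_lit 5879) (nat_lit 34562641) (nat_lit 772) (nat_lit 2115462) (PL.cons (nat_lit 5869) (nat_lit 34445161) (nat_lit 771) (nat_lit 2109593) (PL.cons (nat_lit 5867) (nat_lit 34421689) (nat_lit 770) (nat_lit 2103726) (PL.cons (nat_lit 5861) (nat_lit 34351321) (nat_lit 769) (nat_lit 2097865) (PL.cons (nat_lit 5857) (nat_lit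 34304449) (nat_lit 768) (nat_lit 2092008) (PL.cons (nat_lit 5851) (nat_lit 34234201) (nat_lit 767) (nat_lit 2086157) (PL.cons (nat_lit 5849) (nat_lit 34210801) (nat_lit 766) (nat_lit 2080308) (PL.cons (nat_lit 5843) (nat_lit 34140649) (nat_lit 765) (nat_lit 2074465) (PL.cons (nat_lit 5839) (nat_lit 34093921) (nat_lit 764) (nat_lit 2068626) (PL.cons (nat_lit 5827) (nat_lit 33953929) (nat_lit 763) (nat_lit 2062799) (PL.cons (nat_lit 5821) (nat_lit 33884041) (nat_lit 762) (nat_lit 2056978) (PL.cons (nat_lit 5813) (nat_lit 33790969) (nat_lit 761) (nat_lit 2051165) (PL.cons (nat_lit 5807) (nat_lit 33721249) (nat_lit 760) (nat_lit 2045358) (PL.cons (nat_lit 5801) (nat_lit 33651601) (nat_lit 759) (nat_lit 2039557) (PL.cons (nat_lit 5791) (nat_lit 33535681) (nat_lit 758) (nat_lit 2033766) (PL.cons (nat_lit 5783) (nat_lit 33443089) (nat_lit 757) (nat_lit 2027983) (PL.cons (nat_lit 5779) (nat_lit 33396841) (nat_lit 756) (nat_lit 2022204) (PL.cons (nat_lit 5749) (nat_lit 33051001)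 (nat_lit 755) (nat_lit 2016455) (PL.cons (nat_lit 5743) (nat_lit 32982049) (nat_lit 754) (nat_lit 2010712) (PL.cons (nat_lit 5741) (nat_lit 32959081) (nat_lit 753) (nat_lit 2004971) (PL.cons (nat_lit 5737) (nat_lit 32913169) (nat_lit 752) (nat_lit 1999234) (PL.cons (nat_lit 5717) (nat_lit 32684089) (nat_lit 751) (nat_lit 1993517) (PL.cons (nat_lit 5711) (nat_lit 32615521) (nat_lit 750) (nat_lit 1987806) (PL.cons (nat_lit 5701) (nat_lit 32501401) (nat_lit 749) (nat_lit 1982105) (PL.cons (nat_lit 5693) (nat_lit 32410249) (nat_lit 748) (nat_lit 1976412) (PL.cons (nat_lit 5689) (nat_lit 32364721) (nat_lit 747) (nat_lit 1970723) (PL.cons (nat_lit 5683) (nat_lit 32296489) (nat_lit 746) (nat_lit 1965040) (PL.cons (nat_lit 5669) (nat_lit 32137561) (nat_lit 745) (nat_lit 1959371) (PL.cons (nat_lit 5659) (nat_lit 32024281) (nat_lit 744) (nat_lit 1953712) (PL.cons (nat_lit 5657) (nat_lit 32001649) (nat_lit 743) (nat_lit 1948055) (PL.cons (nat_lit 5653) (nat_lit 31956409) (nat_lit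 742) (nat_lit 1942402) (PL.cons (nat_lit 5651) (nat_lit 31933801) (nat_lit 741) (nat_lit 1936751) (PL.cons (nat_lit 5647) (nat_lit 31888609) (nat_lit 740) (nat_lit 1931104) (PL.cons (nat_lit 5641) (nat_lit 31820881) (nat_lit 739) (nat_lit 1925463) (PL.cons (nat_lit 5639) (nat_lit 31798321) (nat_lit 738) (nat_lit 1919824) (PL.cons (nat_lit 5623) (nat_lit 31618129) (nat_lit 737) (nat_lit 1914201) (PL.cons (nat_lit 5591) (nat_lit 31259281) (nat_lit 736) (nat_lit 1908610) (PL.cons (nat_lit 5581) (nat_lit 31147561) (nat_lit 735) (nat_lit 1903029) (PL.cons (nat_lit 5573) (nat_lit 31058329) (nat_lit 734) (nat_lit 1897456) (PL.cons (nat_lit 5569) (nat_lit 31013761) (nat_lit 733) (nat_lit 1891887) (PL.cons (nat_lit 5563) (nat_lit 30946969) (nat_lit 732) (nat_lit 1886324) (PL.cons (nat_lit 5557) (nat_lit 30880249) (nat_lit 731) (nat_lit 1880767) (PL.cons (nat_lit 5531) (nat_lit 30591961) (nat_lit 730) (nat_lit 1875236) (PL.cons (nat_lit 5527) (nat_lit 30547729) (nat_lit 729) (nat_lit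 1869709) (PL.cons (nat_lit 5521) (nat_lit 30481441) (nat_lit 728) (nat_lit 1864188) (PL.cons (nat_lit 5519) (nat_lit 30459361) (nat_lit 727) (nat_lit 1858669) (PL.cons (nat_lit 5507) (nat_lit 30327049) (nat_lit 726) (nat_lit 1853162) (PL.cons (nat_lit 5503) (nat_lit 30283009) (nat_lit 725) (nat_lit 1847659) (PL.cons (nat_lit 5501) (nat_lit 30261001) (nat_lit 724) (nat_lit 1842158) (PL.cons (nat_lit 5483) (nat_lit 30063289) (nat_lit 723) (nat_lit 1836675) (PL.cons (nat_lit 5479) (nat_lit 30019441) (nat_lit 722) (nat_lit 1831196) (PL.cons (nat_lit 5477) (nat_lit 29997529) (nat_lit 721) (nat_lit 1825719) (PL.cons (nat_lit 5471) (nat_lit 29931841) (nat_lit 720) (nat_lit 1820248) (PL.cons (nat_lit 5449) (nat_lit 29691601) (nat_lit 719) (nat_lit 1814799) (PL.cons (nat_lit 5443) (nat_lit 29626249) (nat_lit 718) (nat_lit 1809356) (PL.cons (nat_lit 5441) (nat_lit 29604481) (nat_lit 717) (nat_lit 1803915) (PL.cons (nat_lit 5437) (nat_lit 29560969) (nat_lit 716) (nat_lit 1798478)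 (PL.cons (nat_lit 5431) (nat_lit 29495761) (nat_lit 715) (nat_lit 1793047) (PL.cons (nat_lit 5419) (nat_lit 29365561) (nat_lit 714) (nat_lit 1787628) (PL.cons (nat_lit 5417) (nat_lit 29343889) (nat_lit 713) (nat_lit 1782211) (PL.cons (nat_lit 5413) (nat_lit 29300569) (nat_lit 712) (nat_lit 1776798) (PL.cons (nat_lit 5407) (nat_lit 29235649) (nat_lit 711) (nat_lit 1771391) (PL.cons (nat_lit 5399) (nat_lit 29149201) (nat_lit 710) (nat_lit 1765992) (PL.cons (nat_lit 5393) (nat_lit 29084449) (nat_lit 709) (nat_lit 1760599) (PL.cons (nat_lit 5387) (nat_lit 29019769) (nat_lit 708) (nat_lit 1755212) (PL.cons (nat_lit 5381) (nat_lit 28955161) (nat_lit 707) (nat_lit 1749831) (PL.cons (nat_lit 5351) (nat_lit 28633201) (nat_lit 706) (nat_lit 1744480) (PL.cons (nat_lit 5347) (nat_lit 28590409) (nat_lit 705) (nat_lit 1739133) (PL.cons (nat_lit 5333) (nat_lit 28440889) (nat_lit 704) (nat_lit 1733800) (PL.cons (nat_lit 5323) (nat_lit 28334329) (nat_lit 703) (nat_lit 1728477) (PL.cons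 (nat_lit 5309) (nat_lit 28185481) (nat_lit 702) (nat_lit 1723168) (PL.cons (nat_lit 5303) (nat_lit 28121809) (nat_lit 701) (nat_lit 1717865) (PL.cons (nat_lit 5297) (nat_lit 28058209) (nat_lit 700) (nat_lit 1712568) (PL.cons (nat_lit 5281) (nat_lit 27888961) (nat_lit 699) (nat_lit 1707287) (PL.cons (nat_lit 5279) (nat_lit 27867841) (nat_lit 698) (nat_lit 1702008) (PL.cons (nat_lit 5273) (nat_lit 27804529) (nat_lit 697) (nat_lit 1696735) (PL.cons (nat_lit 5261) (nat_lit 27678121) (nat_lit 696) (nat_lit 1691474) (PL.cons (nat_lit 5237) (nat_lit 27426169) (nat_lit 695) (nat_lit 1686237) (PL.cons (nat_lit 5233) (nat_lit 27384289) (nat_lit 694) (nat_lit 1681004) (PL.cons (nat_lit 5231) (nat_lit 27363361) (nat_lit 693) (nat_lit 1675773) (PL.cons (nat_lit 5227) (nat_lit 27321529) (nat_lit 692) (nat_lit 1670546) (PL.cons (nat_lit 5209) (nat_lit 27133681) (nat_lit 691) (nat_lit 1665337) (PL.cons (nat_lit 5197) (nat_lit 27008809) (nat_lit 690) (nat_lit 1660140) (PL.cons (nat_lit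 5189) (nat_lit 26925721) (nat_lit 689) (nat_lit 1654951) (PL.cons (nat_lit 5179) (nat_lit 26822041) (nat_lit 688) (nat_lit 1649772) (PL.cons (nat_lit 5171) (nat_lit 26739241) (nat_lit 687) (nat_lit 1644601) (PL.cons (nat_lit 5167) (nat_lit 26697889) (nat_lit 686) (nat_lit 1639434) (PL.cons (nat_lit 5153) (nat_lit 26553409) (nat_lit 685) (nat_lit 1634281) (PL.cons (nat_lit 5147) (nat_lit 26491609) (nat_lit 684) (nat_lit 1629134) (PL.cons (nat_lit 5119) (nat_lit 26204161) (nat_lit 683) (nat_lit 1624015) (PL.cons (nat_lit 5113) (nat_lit 26142769) (nat_lit 682) (nat_lit 1618902) (PL.cons (nat_lit 5107) (nat_lit 26081449) (nat_lit 681) (nat_lit 1613795) (PL.cons (nat_lit 5101) (nat_lit 26020201) (nat_lit 680) (nat_lit 1608694) (PL.cons (nat_lit 5099) (nat_lit 25999801) (nat_lit 679) (nat_lit 1603595) (PL.cons (nat_lit 5087) (nat_lit 25877569) (nat_lit 678) (nat_lit 1598508) (PL.cons (nat_lit 5081) (nat_lit 25816561) (nat_lit 677) (nat_lit 1593427) (PL.cons (nat_lit 5077) (nat_lit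 25775929) (nat_lit 676) (nat_lit 1588350) (PL.cons (nat_lit 5059) (nat_lit 25593481) (nat_lit 675) (nat_lit 1583291) (PL.cons (nat_lit 5051) (nat_lit 25512601) (nat_lit 674) (nat_lit 1578240) (PL.cons (nat_lit 5039) (nat_lit 25391521) (nat_lit 673) (nat_lit 1573201) (PL.cons (nat_lit 5023) (nat_lit 25230529) (nat_lit 672) (nat_lit 1568178) (PL.cons (nat_lit 5021) (nat_lit 25210441) (nat_lit 671) (nat_lit 1563157) (PL.cons (nat_lit 5011) (nat_lit 25110121) (nat_lit 670) (nat_lit 1558146) (PL.cons (nat_lit 5009) (nat_lit 25090081) (nat_lit 669) (nat_lit 1553137) (PL.cons (nat_lit 5003) (nat_lit 25030009) (nat_lit 668) (nat_lit 1548134) (PL.cons (nat_lit 4999) (nat_lit 24990001) (nat_lit 667) (nat_lit 1543135) (PL.cons (nat_lit 4993) (nat_lit 24930049) (nat_lit 666) (nat_lit 1538142) (PL.cons (nat_lit 4987) (nat_lit 24870169) (nat_lit 665) (nat_lit 1533155) (PL.cons (nat_lit 4973) (nat_lit 24730729) (nat_lit 664) (nat_lit 1528182) (PL.cons (nat_lit 4969) (nat_lit 24690961)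 (nat_lit 663) (nat_lit 1523213) (PL.cons (nat_lit 4967) (nat_lit 24671089) (nat_lit 662) (nat_lit 1518246) (PL.cons (nat_lit 4957) (nat_lit 24571849) (nat_lit 661) (nat_lit 1513289) (PL.cons (nat_lit 4951) (nat_lit 24512401) (nat_lit 660) (nat_lit 1508338) (PL.cons (nat_lit 4943) (nat_lit 24433249) (nat_lit 659) (nat_lit 1503395) (PL.cons (nat_lit 4937) (nat_lit 24373969) (nat_lit 658) (nat_lit 1498458) (PL.cons (nat_lit 4933) (nat_lit 24334489) (nat_lit 657) (nat_lit 1493525) (PL.cons (nat_lit 4931) (nat_lit 24314761) (nat_lit 656) (nat_lit 1488594) (PL.cons (nat_lit 4919) (nat_lit 24196561) (nat_lit 655) (nat_lit 1483675) (PL.cons (nat_lit 4909) (nat_lit 24098281) (nat_lit 654) (nat_lit 1478766) (PL.cons (nat_lit 4903) (nat_lit 24039409) (nat_lit 653) (nat_lit 1473863) (PL.cons (nat_lit 4889) (nat_lit 23902321) (nat_lit 652) (nat_lit 1468974) (PL.cons (nat_lit 4877) (nat_lit 23785129) (nat_lit 651) (nat_lit 1464097) (PL.cons (nat_lit 4871) (nat_lit 23726641) (nat_lit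 650) (nat_lit 1459226) L10))))))))))))))))))))))))))))))))))))))))))))))))))))))))))))))))))))))))))))))))))))))))))))))))))))))))))))))))))))))))))))))))))))))))))))))))))))))))))))))))))))))))))))))))))))))))))))))))))))))))))))))))))))))))))))))))))))))))))))))))))))))))))))))))))))))))))))))))))))))))))))))))))))))))))))))))))))))))))))))))))))))))))))))))))))))))))))))))))))))))))))))))))))))))))))))))))))

def L12 : PL := (PL.cons (nat_lit 11909) (nat_lit 141824281) (nat_lit 1425) (nat_lit 7891041) (PL.cons (nat_lit 11903) (nat_lit 141681409) (nat_lit 1424) (nat_lit 7879138) (PL.cons (nat_lit 11897) (nat_lit 141538609) (nat_lit 1423) (nat_lit 7867241) (PL.cons (nat_lit 11887) (nat_lit 141300769) (nat_lit 1422) (nat_lit 7855354) (PL.cons (nat_lit 11867) (nat_lit 140825689) (nat_lit 1421) (nat_lit 7843487) (PL.cons (nat_lit 11863) (nat_lit 140730769) (nat_lit 1420) (nat_lit 7831624) (PL.cons (nat_lit 11839) (nat_lit 140161921) (nat_lit 1419) (nat_lit 7819785) (PL.cons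 (nat_lit 11833) (nat_lit 140019889) (nat_lit 1418) (nat_lit 7807952) (PL.cons (nat_lit 11831) (nat_lit 139972561) (nat_lit 1417) (nat_lit 7796121) (PL.cons (nat_lit 11827) (nat_lit 139877929) (nat_lit 1416) (nat_lit 7784294) (PL.cons (nat_lit 11821) (nat_lit 139736041) (nat_lit 1415) (nat_lit 7772473) (PL.cons (nat_lit 11813) (nat_lit 139546969) (nat_lit 1414) (nat_lit 7760660) (PL.cons (nat_lit 11807) (nat_lit 139405249) (nat_lit 1413) (nat_lit 7748853) (PL.cons (nat_lit 11801) (nat_lit 139263601) (nat_lit 1412) (nat_lit 7737052) (PL.cons (nat_lit 11789) (nat_lit 138980521) (nat_lit 1411) (nat_lit 7725263) (PL.cons (nat_lit 11783) (nat_lit 138839089) (nat_lit 1410) (nat_lit 7713480) (PL.cons (nat_lit 11779) (nat_lit 138744841) (nat_lit 1409) (nat_lit 7701701) (PL.cons (nat_lit 11777) (nat_lit 138697729) (nat_lit 1408) (nat_lit 7689924) (PL.cons (nat_lit 11743) (nat_lit 137898049) (nat_lit 1407) (nat_lit 7678181) (PL.cons (nat_lit 11731) (nat_lit 137616361) (nat_lit 1406)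 (nat_lit 7666450) (PL.cons (nat_lit 11719) (nat_lit 137334961) (nat_lit 1405) (nat_lit 7654731) (PL.cons (nat_lit 11717) (nat_lit 137288089) (nat_lit 1404) (nat_lit 7643014) (PL.cons (nat_lit 11701) (nat_lit 136913401) (nat_lit 1403) (nat_lit 7631313) (PL.cons (nat_lit 11699) (nat_lit 136866601) (nat_lit 1402) (nat_lit 7619614) (PL.cons (nat_lit 11689) (nat_lit 136632721) (nat_lit 1401) (nat_lit 7607925) (PL.cons (nat_lit 11681) (nat_lit 136445761) (nat_lit 1400) (nat_lit 7596244) (PL.cons (nat_lit 11677) (nat_lit 136352329) (nat_lit 1399) (nat_lit 7584567) (PL.cons (nat_lit 11657) (nat_lit 135885649) (nat_lit 1398) (nat_lit 7572910) (PL.cons (nat_lit 11633) (nat_lit 135326689) (nat_lit 1397) (nat_lit 7561277) (PL.cons (nat_lit 11621) (nat_lit 135047641) (nat_lit 1396) (nat_lit 7549656) (PL.cons (nat_lit 11617) (nat_lit 134954689) (nat_lit 1395) (nat_lit 7538039) (PL.cons (nat_lit 11597) (nat_lit 134490409) (nat_lit 1394) (nat_lit 7526442) (PL.cons (nat_lit 11593) (nat_lit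 134397649) (nat_lit 1393) (nat_lit 7514849) (PL.cons (nat_lit 11587) (nat_lit 134258569) (nat_lit 1392) (nat_lit 7503262) (PL.cons (nat_lit 11579) (nat_lit 134073241) (nat_lit 1391) (nat_lit 7491683) (PL.cons (nat_lit 11551) (nat_lit 133425601) (nat_lit 1390) (nat_lit 7480132) (PL.cons (nat_lit 11549) (nat_lit 133379401) (nat_lit 1389) (nat_lit 7468583) (PL.cons (nat_lit 11527) (nat_lit 132871729) (nat_lit 1388) (nat_lit 7457056) (PL.cons (nat_lit 11519) (nat_lit 132687361) (nat_lit 1387) (nat_lit 7445537) (PL.cons (nat_lit 11503) (nat_lit 132319009) (nat_lit 1386) (nat_lit 7434034) (PL.cons (nat_lit 11497) (nat_lit 132181009) (nat_lit 1385) (nat_lit 7422537) (PL.cons (nat_lit 11491) (nat_lit 132043081) (nat_lit 1384) (nat_lit 7411046) (PL.cons (nat_lit 11489) (nat_lit 131997121) (nat_lit 1383) (nat_lit 7399557) (PL.cons (nat_lit 11483) (nat_lit 131859289) (nat_lit 1382) (nat_lit 7388074) (PL.cons (nat_lit 11471) (nat_lit 131583841) (nat_lit 1381) (nat_lit 7376603) (PL.cons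 (nat_lit 11467) (nat_lit 131492089) (nat_lit 1380) (nat_lit 7365136) (PL.cons (nat_lit 11447) (nat_lit 131033809) (nat_lit 1379) (nat_lit 7353689) (PL.cons (nat_lit 11443) (nat_lit 130942249) (nat_lit 1378) (nat_lit 7342246) (PL.cons (nat_lit 11437) (nat_lit 130804969) (nat_lit 1377) (nat_lit 7330809) (PL.cons (nat_lit 11423) (nat_lit 130484929) (nat_lit 1376) (nat_lit 7319386) (PL.cons (nat_lit 11411) (nat_lit 130210921) (nat_lit 1375) (nat_lit 7307975) (PL.cons (nat_lit 11399) (nat_lit 129937201) (nat_lit 1374) (nat_lit 7296576) (PL.cons (nat_lit 11393) (nat_lit 129800449) (nat_lit 1373) (nat_lit 7285183) (PL.cons (nat_lit 11383) (nat_lit 129572689) (nat_lit 1372) (nat_lit 7273800) (PL.cons (nat_lit 11369) (nat_lit 129254161) (nat_lit 1371) (nat_lit 7262431) (PL.cons (nat_lit 11353) (nat_lit 128890609) (nat_lit 1370) (nat_lit 7251078) (PL.cons (nat_lit 11351) (nat_lit 128845201) (nat_lit 1369) (nat_lit 7239727) (PL.cons (nat_lit 11329) (nat_lit 128346241) (nat_lit 1368)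 (nat_lit 7228398) (PL.cons (nat_lit 11321) (nat_lit 128165041) (nat_lit 1367) (nat_lit 7217077) (PL.cons (nat_lit 11317) (nat_lit 128074489) (nat_lit 1366) (nat_lit 7205760) (PL.cons (nat_lit 11311) (nat_lit 127938721) (nat_lit 1365) (nat_lit 7194449) (PL.cons (nat_lit 11299) (nat_lit 127667401) (nat_lit 1364) (nat_lit 7183150) (PL.cons (nat_lit 11287) (nat_lit 127396369) (nat_lit 1363) (nat_lit 7171863) (PL.cons (nat_lit 11279) (nat_lit 127215841) (nat_lit 1362) (nat_lit 7160584) (PL.cons (nat_lit 11273) (nat_lit 127080529) (nat_lit 1361) (nat_lit 7149311) (PL.cons (nat_lit 11261) (nat_lit 126810121) (nat_lit 1360) (nat_lit 7138050) (PL.cons (nat_lit 11257) (nat_lit 126720049) (nat_lit 1359) (nat_lit 7126793) (PL.cons (nat_lit 11251) (nat_lit 126585001) (nat_lit 1358) (nat_lit 7115542) (PL.cons (nat_lit 11243) (nat_lit 126405049) (nat_lit 1357) (nat_lit 7104299) (PL.cons (nat_lit 11239) (nat_lit 126315121) (nat_lit 1356) (nat_lit 7093060) (PL.cons (nat_lit 11213) (nat_lit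 125731369) (nat_lit 1355) (nat_lit 7081847) (PL.cons (nat_lit 11197) (nat_lit 125372809) (nat_lit 1354) (nat_lit 7070650) (PL.cons (nat_lit 11177) (nat_lit 124925329) (nat_lit 1353) (nat_lit 7059473) (PL.cons (nat_lit 11173) (nat_lit 124835929) (nat_lit 1352) (nat_lit 7048300) (PL.cons (nat_lit 11171) (nat_lit 124791241) (nat_lit 1351) (nat_lit 7037129) (PL.cons (nat_lit 11161) (nat_lit 124567921) (nat_lit 1350) (nat_lit 7025968) (PL.cons (nat_lit 11159) (nat_lit 124523281) (nat_lit 1349) (nat_lit 7014809) (PL.cons (nat_lit 11149) (nat_lit 124300201) (nat_lit 1348) (nat_lit 7003660) (PL.cons (nat_lit 11131) (nat_lit 123899161) (nat_lit 1347) (nat_lit 6992529) (PL.cons (nat_lit 11119) (nat_lit 123632161) (nat_lit 1346) (nat_lit 6981410) (PL.cons (nat_lit 11117) (nat_lit 123587689) (nat_lit 1345) (nat_lit 6970293) (PL.cons (nat_lit 11113) (nat_lit 123498769) (nat_lit 1344) (nat_lit 6959180) (PL.cons (nat_lit 11093) (nat_lit 123054649) (nat_lit 1343) (nat_lit 6948087) (PL.cons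 (nat_lit 11087) (nat_lit 122921569) (nat_lit 1342) (nat_lit 6937000) (PL.cons (nat_lit 11083) (nat_lit 122832889) (nat_lit 1341) (nat_lit 6925917) (PL.cons (nat_lit 11071) (nat_lit 122567041) (nat_lit 1340) (nat_lit 6914846) (PL.cons (nat_lit 11069) (nat_lit 122522761) (nat_lit 1339) (nat_lit 6903777) (PL.cons (nat_lit 11059) (nat_lit 122301481) (nat_lit 1338) (nat_lit 6892718) (PL.cons (nat_lit 11057) (nat_lit 122257249) (nat_lit 1337) (nat_lit 6881661) (PL.cons (nat_lit 11047) (nat_lit 122036209) (nat_lit 1336) (nat_lit 6870614) (PL.cons (nat_lit 11027) (nat_lit 121594729) (nat_lit 1335) (nat_lit 6859587) (PL.cons (nat_lit 11003) (nat_lit 121066009) (nat_lit 1334) (nat_lit 6848584) (PL.cons (nat_lit 10993) (nat_lit 120846049) (nat_lit 1333) (nat_lit 6837591) (PL.cons (nat_lit 10987) (nat_lit 120714169) (nat_lit 1332) (nat_lit 6826604) (PL.cons (nat_lit 10979) (nat_lit 120538441) (nat_lit 1331) (nat_lit 6815625) (PL.cons (nat_lit 10973) (nat_lit 120406729) (nat_lit 1330)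 (nat_lit 6804652) (PL.cons (nat_lit 10957) (nat_lit 120055849) (nat_lit 1329) (nat_lit 6793695) (PL.cons (nat_lit 10949) (nat_lit 119880601) (nat_lit 1328) (nat_lit 6782746) (PL.cons (nat_lit 10939) (nat_lit 119661721) (nat_lit 1327) (nat_lit 6771807) (PL.cons (nat_lit 10937) (nat_lit 119617969) (nat_lit 1326) (nat_lit 6760870) (PL.cons (nat_lit 10909) (nat_lit 119006281) (nat_lit 1325) (nat_lit 6749961) (PL.cons (nat_lit 10903) (nat_lit 118875409) (nat_lit 1324) (nat_lit 6739058) (PL.cons (nat_lit 10891) (nat_lit 118613881) (nat_lit 1323) (nat_lit 6728167) (PL.cons (nat_lit 10889) (nat_lit 118570321) (nat_lit 1322) (nat_lit 6717278) (PL.cons (nat_lit 10883) (nat_lit 118439689) (nat_lit 1321) (nat_lit 6706395) (PL.cons (nat_lit 10867) (nat_lit 118091689) (nat_lit 1320) (nat_lit 6695528) (PL.cons (nat_lit 10861) (nat_lit 117961321) (nat_lit 1319) (nat_lit 6684667) (PL.cons (nat_lit 10859) (nat_lit 117917881) (nat_lit 1318) (nat_lit 6673808) (PL.cons (nat_lit 10853) (nat_lit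 117787609) (nat_lit 1317) (nat_lit 6662955) (PL.cons (nat_lit 10847) (nat_lit 117657409) (nat_lit 1316) (nat_lit 6652108) (PL.cons (nat_lit 10837) (nat_lit 117440569) (nat_lit 1315) (nat_lit 6641271) (PL.cons (nat_lit 10831) (nat_lit 117310561) (nat_lit 1314) (nat_lit 6630440) (PL.cons (nat_lit 10799) (nat_lit 116618401) (nat_lit 1313) (nat_lit 6619641) (PL.cons (nat_lit 10789) (nat_lit 116402521) (nat_lit 1312) (nat_lit 6608852) (PL.cons (nat_lit 10781) (nat_lit 116229961) (nat_lit 1311) (nat_lit 6598071) (PL.cons (nat_lit 10771) (nat_lit 116014441) (nat_lit 1310) (nat_lit 6587300) (PL.cons (nat_lit 10753) (nat_lit 115627009) (nat_lit 1309) (nat_lit 6576547) (PL.cons (nat_lit 10739) (nat_lit 115326121) (nat_lit 1308) (nat_lit 6565808) (PL.cons (nat_lit 10733) (nat_lit 115197289) (nat_lit 1307) (nat_lit 6555075) (PL.cons (nat_lit 10729) (nat_lit 115111441) (nat_lit 1306) (nat_lit 6544346) (PL.cons (nat_lit 10723) (nat_lit 114982729) (nat_lit 1305) (nat_lit 6533623) (PL.cons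 (nat_lit 10711) (nat_lit 114725521) (nat_lit 1304) (nat_lit 6522912) (PL.cons (nat_lit 10709) (nat_lit 114682681) (nat_lit 1303) (nat_lit 6512203) (PL.cons (nat_lit 10691) (nat_lit 114297481) (nat_lit 1302) (nat_lit 6501512) (PL.cons (nat_lit 10687) (nat_lit 114211969) (nat_lit 1301) (nat_lit 6490825) (PL.cons (nat_lit 10667) (nat_lit 113784889) (nat_lit 1300) (nat_lit 6480158) (PL.cons (nat_lit 10663) (nat_lit 113699569) (nat_lit 1299) (nat_lit 6469495) (PL.cons (nat_lit 10657) (nat_lit 113571649) (nat_lit 1298) (nat_lit 6458838) (PL.cons (nat_lit 10651) (nat_lit 113443801) (nat_lit 1297) (nat_lit 6448187) (PL.cons (nat_lit 10639) (nat_lit 113188321) (nat_lit 1296) (nat_lit 6437548) (PL.cons (nat_lit 10631) (nat_lit 113018161) (nat_lit 1295) (nat_lit 6426917) (PL.cons (nat_lit 10627) (nat_lit 112933129) (nat_lit 1294) (nat_lit 6416290) (PL.cons (nat_lit 10613) (nat_lit 112635769) (nat_lit 1293) (nat_lit 6405677) (PL.cons (nat_lit 10607) (nat_lit 112508449) (nat_lit 1292)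 (nat_lit 6395070) (PL.cons (nat_lit 10601) (nat_lit 112381201) (nat_lit 1291) (nat_lit 6384469) (PL.cons (nat_lit 10597) (nat_lit 112296409) (nat_lit 1290) (nat_lit 6373872) (PL.cons (nat_lit 10589) (nat_lit 112126921) (nat_lit 1289) (nat_lit 6363283) (PL.cons (nat_lit 10567) (nat_lit 111661489) (nat_lit 1288) (nat_lit 6352716) (PL.cons (nat_lit 10559) (nat_lit 111492481) (nat_lit 1287) (nat_lit 6342157) (PL.cons (nat_lit 10531) (nat_lit 110901961) (nat_lit 1286) (nat_lit 6331626) (PL.cons (nat_lit 10529) (nat_lit 110859841) (nat_lit 1285) (nat_lit 6321097) (PL.cons (nat_lit 10513) (nat_lit 110523169) (nat_lit 1284) (nat_lit 6310584) (PL.cons (nat_lit 10501) (nat_lit 110271001) (nat_lit 1283) (nat_lit 6300083) (PL.cons (nat_lit 10499) (nat_lit 110229001) (nat_lit 1282) (nat_lit 6289584) (PL.cons (nat_lit 10487) (nat_lit 109977169) (nat_lit 1281) (nat_lit 6279097) (PL.cons (nat_lit 10477) (nat_lit 109767529) (nat_lit 1280) (nat_lit 6268620) (PL.cons (nat_lit 10463) (nat_lit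 109474369) (nat_lit 1279) (nat_lit 6258157) (PL.cons (nat_lit 10459) (nat_lit 109390681) (nat_lit 1278) (nat_lit 6247698) (PL.cons (nat_lit 10457) (nat_lit 109348849) (nat_lit 1277) (nat_lit 6237241) (PL.cons (nat_lit 10453) (nat_lit 109265209) (nat_lit 1276) (nat_lit 6226788) (PL.cons (nat_lit 10433) (nat_lit 108847489) (nat_lit 1275) (nat_lit 6216355) (PL.cons (nat_lit 10429) (nat_lit 108764041) (nat_lit 1274) (nat_lit 6205926) (PL.cons (nat_lit 10427) (nat_lit 108722329) (nat_lit 1273) (nat_lit 6195499) (PL.cons (nat_lit 10399) (nat_lit 108139201) (nat_lit 1272) (nat_lit 6185100) (PL.cons (nat_lit 10391) (nat_lit 107972881) (nat_lit 1271) (nat_lit 6174709) (PL.cons (nat_lit 10369) (nat_lit 107516161) (nat_lit 1270) (nat_lit 6164340) (PL.cons (nat_lit 10357) (nat_lit 107267449) (nat_lit 1269) (nat_lit 6153983) (PL.cons (nat_lit 10343) (nat_lit 106977649) (nat_lit 1268) (nat_lit 6143640) (PL.cons (nat_lit 10337) (nat_lit 106853569) (nat_lit 1267) (nat_lit 6133303) (PL.cons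 (nat_lit 10333) (nat_lit 106770889) (nat_lit 1266) (nat_lit 6122970) (PL.cons (nat_lit 10331) (nat_lit 106729561) (nat_lit 1265) (nat_lit 6112639) (PL.cons (nat_lit 10321) (nat_lit 106523041) (nat_lit 1264) (nat_lit 6102318) (PL.cons (nat_lit 10313) (nat_lit 106357969) (nat_lit 1263) (nat_lit 6092005) (PL.cons (nat_lit 10303) (nat_lit 106151809) (nat_lit 1262) (nat_lit 6081702) (PL.cons (nat_lit 10301) (nat_lit 106110601) (nat_lit 1261) (nat_lit 6071401) (PL.cons (nat_lit 10289) (nat_lit 105863521) (nat_lit 1260) (nat_lit 6061112) (PL.cons (nat_lit 10273) (nat_lit 105534529) (nat_lit 1259) (nat_lit 6050839) (PL.cons (nat_lit 10271) (nat_lit 105493441) (nat_lit 1258) (nat_lit 6040568) (PL.cons (nat_lit 10267) (nat_lit 105411289) (nat_lit 1257) (nat_lit 6030301) (PL.cons (nat_lit 10259) (nat_lit 105247081) (nat_lit 1256) (nat_lit 6020042) (PL.cons (nat_lit 10253) (nat_lit 105124009) (nat_lit 1255) (nat_lit 6009789) (PL.cons (nat_lit 10247) (nat_lit 105001009) (nat_lit 1254)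 (nat_lit 5999542) (PL.cons (nat_lit 10243) (nat_lit 104919049) (nat_lit 1253) (nat_lit 5989299) (PL.cons (nat_lit 10223) (nat_lit 104509729) (nat_lit 1252) (nat_lit 5979076) (PL.cons (nat_lit 10211) (nat_lit 104264521) (nat_lit 1251) (nat_lit 5968865) (PL.cons (nat_lit 10193) (nat_lit 103897249) (nat_lit 1250) (nat_lit 5958672) (PL.cons (nat_lit 10181) (nat_lit 103652761) (nat_lit 1249) (nat_lit 5948491) (PL.cons (nat_lit 10177) (nat_lit 103571329) (nat_lit 1248) (nat_lit 5938314) (PL.cons (nat_lit 10169) (nat_lit 103408561) (nat_lit 1247) (nat_lit 5928145) (PL.cons (nat_lit 10163) (nat_lit 103286569) (nat_lit 1246) (nat_lit 5917982) (PL.cons (nat_lit 10159) (nat_lit 103205281) (nat_lit 1245) (nat_lit 5907823) (PL.cons (nat_lit 10151) (nat_lit 103042801) (nat_lit 1244) (nat_lit 5897672) (PL.cons (nat_lit 10141) (nat_lit 102839881) (nat_lit 1243) (nat_lit 5887531) (PL.cons (nat_lit 10139) (nat_lit 102799321) (nat_lit 1242) (nat_lit 5877392) (PL.cons (nat_lit 10133) (nat_lit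 102677689) (nat_lit 1241) (nat_lit 5867259) (PL.cons (nat_lit 10111) (nat_lit 102232321) (nat_lit 1240) (nat_lit 5857148) (PL.cons (nat_lit 10103) (nat_lit 102070609) (nat_lit 1239) (nat_lit 5847045) (PL.cons (nat_lit 10099) (nat_lit 101989801) (nat_lit 1238) (nat_lit 5836946) (PL.cons (nat_lit 10093) (nat_lit 101868649) (nat_lit 1237) (nat_lit 5826853) (PL.cons (nat_lit 10091) (nat_lit 101828281) (nat_lit 1236) (nat_lit 5816762) (PL.cons (nat_lit 10079) (nat_lit 101586241) (nat_lit 1235) (nat_lit 5806683) (PL.cons (nat_lit 10069) (nat_lit 101384761) (nat_lit 1234) (nat_lit 5796614) (PL.cons (nat_lit 10067) (nat_lit 101344489) (nat_lit 1233) (nat_lit 5786547) (PL.cons (nat_lit 10061) (nat_lit 101223721) (nat_lit 1232) (nat_lit 5776486) (PL.cons (nat_lit 10039) (nat_lit 100781521) (nat_lit 1231) (nat_lit 5766447) (PL.cons (nat_lit 10037) (nat_lit 100741369) (nat_lit 1230) (nat_lit 5756410) (PL.cons (nat_lit 10009) (nat_lit 100180081) (nat_lit 1229) (nat_lit 5746401) (PL.cons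 (nat_lit 10007) (nat_lit 100140049) (nat_lit 1228) (nat_lit 5736394) (PL.cons (nat_lit 9973) (nat_lit 99460729) (nat_lit 1227) (nat_lit 5726421) (PL.cons (nat_lit 9967) (nat_lit 99341089) (nat_lit 1226) (nat_lit 5716454) (PL.cons (nat_lit 9949) (nat_lit 98982601) (nat_lit 1225) (nat_lit 5706505) (PL.cons (nat_lit 9941) (nat_lit 98823481) (nat_lit 1224) (nat_lit 5696564) (PL.cons (nat_lit 9931) (nat_lit 98624761) (nat_lit 1223) (nat_lit 5686633) (PL.cons (nat_lit 9929) (nat_lit 98585041) (nat_lit 1222) (nat_lit 5676704) (PL.cons (nat_lit 9923) (nat_lit 98465929) (nat_lit 1221) (nat_lit 5666781) (PL.cons (nat_lit 9907) (nat_lit 98148649) (nat_lit 1220) (nat_lit 5656874) (PL.cons (nat_lit 9901) (nat_lit 98029801) (nat_lit 1219) (nat_lit 5646973) (PL.cons (nat_lit 9887) (nat_lit 97752769) (nat_lit 1218) (nat_lit 5637086) (PL.cons (nat_lit 9883) (nat_lit 97673689) (nat_lit 1217) (nat_lit 5627203) (PL.cons (nat_lit 9871) (nat_lit 97436641) (nat_lit 1216) (nat_lit 5617332) (PL.cons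 (nat_lit 9859) (nat_lit 97199881) (nat_lit 1215) (nat_lit 5607473) (PL.cons (nat_lit 9857) (nat_lit 97160449) (nat_lit 1214) (nat_lit 5597616) (PL.cons (nat_lit 9851) (nat_lit 97042201) (nat_lit 1213) (nat_lit 5587765) (PL.cons (nat_lit 9839) (nat_lit 96805921) (nat_lit 1212) (nat_lit 5577926) (PL.cons (nat_lit 9833) (nat_lit 96687889) (nat_lit 1211) (nat_lit 5568093) (PL.cons (nat_lit 9829) (nat_lit 96609241) (nat_lit 1210) (nat_lit 5558264) (PL.cons (nat_lit 9817) (nat_lit 96373489) (nat_lit 1209) (nat_lit 5548447) (PL.cons (nat_lit 9811) (nat_lit 96255721) (nat_lit 1208) (nat_lit 5538636) (PL.cons (nat_lit 9803) (nat_lit 96098809) (nat_lit 1207) (nat_lit 5528833) (PL.cons (nat_lit 9791) (nat_lit 95863681) (nat_lit 1206) (nat_lit 5519042) (PL.cons (nat_lit 9787) (nat_lit 95785369) (nat_lit 1205) (nat_lit 5509255) (PL.cons (nat_lit 9781) (nat_lit 95667961) (nat_lit 1204) (nat_lit 5499474) (PL.cons (nat_lit 9769) (nat_lit 95433361) (nat_lit 1203) (nat_lit 5489705) (PL.cons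 (nat_lit 9767) (nat_lit 95394289) (nat_lit 1202) (nat_lit 5479938) (PL.cons (nat_lit 9749) (nat_lit 95043001) (nat_lit 1201) (nat_lit 5470189) (PL.cons (nat_lit 9743) (nat_lit 94926049) (nat_lit 1200) (nat_lit 5460446) (PL.cons (nat_lit 9739) (nat_lit 94848121) (nat_lit 1199) (nat_lit 5450707) (PL.cons (nat_lit 9733) (nat_lit 94731289) (nat_lit 1198) (nat_lit 5440974) (PL.cons (nat_lit 9721) (nat_lit 94497841) (nat_lit 1197) (nat_lit 5431253) (PL.cons (nat_lit 9719) (nat_lit 94458961) (nat_lit 1196) (nat_lit 5421534) (PL.cons (nat_lit 9697) (nat_lit 94031809) (nat_lit 1195) (nat_lit 5411837) (PL.cons (nat_lit 9689) (nat_lit 93876721) (nat_lit 1194) (nat_lit 5402148) (PL.cons (nat_lit 9679) (nat_lit 93683041) (nat_lit 1193) (nat_lit 5392469) (PL.cons (nat_lit 9677) (nat_lit 93644329) (nat_lit 1192) (nat_lit 5382792) (PL.cons (nat_lit 9661) (nat_lit 93334921) (nat_lit 1191) (nat_lit 5373131) (PL.cons (nat_lit 9649) (nat_lit 93103201) (nat_lit 1190) (nat_lit 5363482) (PL.cons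 (nat_lit 9643) (nat_lit 92987449) (nat_lit 1189) (nat_lit 5353839) (PL.cons (nat_lit 9631) (nat_lit 92756161) (nat_lit 1188) (nat_lit 5344208) (PL.cons (nat_lit 9629) (nat_lit 92717641) (nat_lit 1187) (nat_lit 5334579) (PL.cons (nat_lit 9623) (nat_lit 92602129) (nat_lit 1186) (nat_lit 5324956) (PL.cons (nat_lit 9619) (nat_lit 92525161) (nat_lit 1185) (nat_lit 5315337) (PL.cons (nat_lit 9613) (nat_lit 92409769) (nat_lit 1184) (nat_lit 5305724) (PL.cons (nat_lit 9601) (nat_lit 92179201) (nat_lit 1183) (nat_lit 5296123) (PL.cons (nat_lit 9587) (nat_lit 91910569) (nat_lit 1182) (nat_lit 5286536) (PL.cons (nat_lit 9551) (nat_lit 91221601) (nat_lit 1181) (nat_lit 5276985) (PL.cons (nat_lit 9547) (nat_lit 91145209) (nat_lit 1180) (nat_lit 5267438) (PL.cons (nat_lit 9539) (nat_lit 90992521) (nat_lit 1179) (nat_lit 5257899) (PL.cons (nat_lit 9533) (nat_lit 90878089) (nat_lit 1178) (nat_lit 5248366) (PL.cons (nat_lit 9521) (nat_lit 90649441) (nat_lit 1177) (nat_lit 5238845) (PL.cons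 (nat_lit 9511) (nat_lit 90459121) (nat_lit 1176) (nat_lit 5229334) (PL.cons (nat_lit 9497) (nat_lit 90193009) (nat_lit 1175) (nat_lit 5219837) (PL.cons (nat_lit 9491) (nat_lit 90079081) (nat_lit 1174) (nat_lit 5210346) (PL.cons (nat_lit 9479) (nat_lit 89851441) (nat_lit 1173) (nat_lit 5200867) (PL.cons (nat_lit 9473) (nat_lit 89737729) (nat_lit 1172) (nat_lit 5191394) (PL.cons (nat_lit 9467) (nat_lit 89624089) (nat_lit 1171) (nat_lit 5181927) (PL.cons (nat_lit 9463) (nat_lit 89548369) (nat_lit 1170) (nat_lit 5172464) (PL.cons (nat_lit 9461) (nat_lit 89510521) (nat_lit 1169) (nat_lit 5163003) (PL.cons (nat_lit 9439) (nat_lit 89094721) (nat_lit 1168) (nat_lit 5153564) (PL.cons (nat_lit 9437) (nat_lit 89056969) (nat_lit 1167) (nat_lit 5144127) (PL.cons (nat_lit 9433) (nat_lit 88981489) (nat_lit 1166) (nat_lit 5134694) (PL.cons (nat_lit 9431) (nat_lit 88943761) (nat_lit 1165) (nat_lit 5125263) (PL.cons (nat_lit 9421) (nat_lit 88755241) (nat_lit 1164) (nat_lit 5115842) (PL.cons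 (nat_lit 9419) (nat_lit 88717561) (nat_lit 1163) (nat_lit 5106423) (PL.cons (nat_lit 9413) (nat_lit 88604569) (nat_lit 1162) (nat_lit 5097010) (PL.cons (nat_lit 9403) (nat_lit 88416409) (nat_lit 1161) (nat_lit 5087607) (PL.cons (nat_lit 9397) (nat_lit 88303609) (nat_lit 1160) (nat_lit 5078210) (PL.cons (nat_lit 9391) (nat_lit 88190881) (nat_lit 1159) (nat_lit 5068819) (PL.cons (nat_lit 9377) (nat_lit 87928129) (nat_lit 1158) (nat_lit 5059442) (PL.cons (nat_lit 9371) (nat_lit 87815641) (nat_lit 1157) (nat_lit 5050071) (PL.cons (nat_lit 9349) (nat_lit 87403801) (nat_lit 1156) (nat_lit 5040722) (PL.cons (nat_lit 9343) (nat_lit 87291649) (nat_lit 1155) (nat_lit 5031379) (PL.cons (nat_lit 9341) (nat_lit 87254281) (nat_lit 1154) (nat_lit 5022038) (PL.cons (nat_lit 9337) (nat_lit 87179569) (nat_lit 1153) (nat_lit 5012701) (PL.cons (nat_lit 9323) (nat_lit 86918329) (nat_lit 1152) (nat_lit 5003378) (PL.cons (nat_lit 9319) (nat_lit 86843761) (nat_lit 1151) (nat_lit 4994059) (PL.cons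 (nat_lit 9311) (nat_lit 86694721) (nat_lit 1150) (nat_lit 4984748) (PL.cons (nat_lit 9293) (nat_lit 86359849) (nat_lit 1149) (nat_lit 4975455) (PL.cons (nat_lit 9283) (nat_lit 86174089) (nat_lit 1148) (nat_lit 4966172) (PL.cons (nat_lit 9281) (nat_lit 86136961) (nat_lit 1147) (nat_lit 4956891) (PL.cons (nat_lit 9277) (nat_lit 86062729) (nat_lit 1146) (nat_lit 4947614) (PL.cons (nat_lit 9257) (nat_lit 85692049) (nat_lit 1145) (nat_lit 4938357) (PL.cons (nat_lit 9241) (nat_lit 85396081) (nat_lit 1144) (nat_lit 4929116) (PL.cons (nat_lit 9239) (nat_lit 85359121) (nat_lit 1143) (nat_lit 4919877) (PL.cons (nat_lit 9227) (nat_lit 85137529) (nat_lit 1142) (nat_lit 4910650) (PL.cons (nat_lit 9221) (nat_lit 85026841) (nat_lit 1141) (nat_lit 4901429) (PL.cons (nat_lit 9209) (nat_lit 84805681) (nat_lit 1140) (nat_lit 4892220) (PL.cons (nat_lit 9203) (nat_lit 84695209) (nat_lit 1139) (nat_lit 4883017) (PL.cons (nat_lit 9199) (nat_lit 84621601) (nat_lit 1138) (nat_lit 4873818) (PL.cons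 (nat_lit 9187) (nat_lit 84400969) (nat_lit 1137) (nat_lit 4864631) (PL.cons (nat_lit 9181) (nat_lit 84290761) (nat_lit 1136) (nat_lit 4855450) (PL.cons (nat_lit 9173) (nat_lit 84143929) (nat_lit 1135) (nat_lit 4846277) (PL.cons (nat_lit 9161) (nat_lit 83923921) (nat_lit 1134) (nat_lit 4837116) (PL.cons (nat_lit 9157) (nat_lit 83850649) (nat_lit 1133) (nat_lit 4827959) (PL.cons (nat_lit 9151) (nat_lit 83740801) (nat_lit 1132) (nat_lit 4818808) (PL.cons (nat_lit 9137) (nat_lit 83484769) (nat_lit 1131) (nat_lit 4809671) (PL.cons (nat_lit 9133) (nat_lit 83411689) (nat_lit 1130) (nat_lit 4800538) (PL.cons (nat_lit 9127) (nat_lit 83302129) (nat_lit 1129) (nat_lit 4791411) (PL.cons (nat_lit 9109) (nat_lit 82973881) (nat_lit 1128) (nat_lit 4782302) (PL.cons (nat_lit 9103) (nat_lit 82864609) (nat_lit 1127) (nat_lit 4773199) (PL.cons (nat_lit 9091) (nat_lit 82646281) (nat_lit 1126) (nat_lit 4764108) (PL.cons (nat_lit 9067) (nat_lit 82210489) (nat_lit 1125) (nat_lit 4755041) (PL.cons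 (nat_lit 9059) (nat_lit 82065481) (nat_lit 1124) (nat_lit 4745982) (PL.cons (nat_lit 9049) (nat_lit 81884401) (nat_lit 1123) (nat_lit 4736933) (PL.cons (nat_lit 9043) (nat_lit 81775849) (nat_lit 1122) (nat_lit 4727890) (PL.cons (nat_lit 9041) (nat_lit 81739681) (nat_lit 1121) (nat_lit 4718849) (PL.cons (nat_lit 9029) (nat_lit 81522841) (nat_lit 1120) (nat_lit 4709820) (PL.cons (nat_lit 9013) (nat_lit 81234169) (nat_lit 1119) (nat_lit 4700807) (PL.cons (nat_lit 9011) (nat_lit 81198121) (nat_lit 1118) (nat_lit 4691796) (PL.cons (nat_lit 9007) (nat_lit 81126049) (nat_lit 1117) (nat_lit 4682789) (PL.cons (nat_lit 9001) (nat_lit 81018001) (nat_lit 1116) (nat_lit 4673788) (PL.cons (nat_lit 8999) (nat_lit 80982001) (nat_lit 1115) (nat_lit 4664789) (PL.cons (nat_lit 8971) (nat_lit 80478841) (nat_lit 1114) (nat_lit 4655818) (PL.cons (nat_lit 8969) (nat_lit 80442961) (nat_lit 1113) (nat_lit 4646849) (PL.cons (nat_lit 8963) (nat_lit 80335369) (nat_lit 1112) (nat_lit 4637886) (PL.cons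 (nat_lit 8951) (nat_lit 80120401) (nat_lit 1111) (nat_lit 4628935) (PL.cons (nat_lit 8941) (nat_lit 79941481) (nat_lit 1110) (nat_lit 4619994) (PL.cons (nat_lit 8933) (nat_lit 79798489) (nat_lit 1109) (nat_lit 4611061) (PL.cons (nat_lit 8929) (nat_lit 79727041) (nat_lit 1108) (nat_lit 4602132) (PL.cons (nat_lit 8923) (nat_lit 79619929) (nat_lit 1107) (nat_lit 4593209) (PL.cons (nat_lit 8893) (nat_lit 79085449) (nat_lit 1106) (nat_lit 4584316) (PL.cons (nat_lit 8887) (nat_lit 78978769) (nat_lit 1105) (nat_lit 4575429) (PL.cons (nat_lit 8867) (nat_lit 78623689) (nat_lit 1104) (nat_lit 4566562) (PL.cons (nat_lit 8863) (nat_lit 78552769) (nat_lit 1103) (nat_lit 4557699) (PL.cons (nat_lit 8861) (nat_lit 78517321) (nat_lit 1102) (nat_lit 4548838) (PL.cons (nat_lit 8849) (nat_lit 78304801) (nat_lit 1101) (nat_lit 4539989) (PL.cons (nat_lit 8839) (nat_lit 78127921) (nat_lit 1100) (nat_lit 4531150) (PL.cons (nat_lit 8837) (nat_lit 78092569) (nat_lit 1099) (nat_lit 4522313) (PL.cons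 (nat_lit 8831) (nat_lit 77986561) (nat_lit 1098) (nat_lit 4513482) (PL.cons (nat_lit 8821) (nat_lit 77810041) (nat_lit 1097) (nat_lit 4504661) (PL.cons (nat_lit 8819) (nat_lit 77774761) (nat_lit 1096) (nat_lit 4495842) (PL.cons (nat_lit 8807) (nat_lit 77563249) (nat_lit 1095) (nat_lit 4487035) (PL.cons (nat_lit 8803) (nat_lit 77492809) (nat_lit 1094) (nat_lit 4478232) (PL.cons (nat_lit 8783) (nat_lit 77141089) (nat_lit 1093) (nat_lit 4469449) (PL.cons (nat_lit 8779) (nat_lit 77070841) (nat_lit 1092) (nat_lit 4460670) (PL.cons (nat_lit 8761) (nat_lit 76755121) (nat_lit 1091) (nat_lit 4451909) (PL.cons (nat_lit 8753) (nat_lit 76615009) (nat_lit 1090) (nat_lit 4443156) (PL.cons (nat_lit 8747) (nat_lit 76510009) (nat_lit 1089) (nat_lit 4434409) (PL.cons (nat_lit 8741) (nat_lit 76405081) (nat_lit 1088) (nat_lit 4425668) (PL.cons (nat_lit 8737) (nat_lit 76335169) (nat_lit 1087) (nat_lit 4416931) (PL.cons (nat_lit 8731) (nat_lit 76230361) (nat_lit 1086) (nat_lit 4408200) (PL.cons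 (nat_lit 8719) (nat_lit 76020961) (nat_lit 1085) (nat_lit 4399481) (PL.cons (nat_lit 8713) (nat_lit 75916369) (nat_lit 1084) (nat_lit 4390768) (PL.cons (nat_lit 8707) (nat_lit 75811849) (nat_lit 1083) (nat_lit 4382061) (PL.cons (nat_lit 8699) (nat_lit 75672601) (nat_lit 1082) (nat_lit 4373362) (PL.cons (nat_lit 8693) (nat_lit 75568249) (nat_lit 1081) (nat_lit 4364669) (PL.cons (nat_lit 8689) (nat_lit 75498721) (nat_lit 1080) (nat_lit 4355980) (PL.cons (nat_lit 8681) (nat_lit 75359761) (nat_lit 1079) (nat_lit 4347299) (PL.cons (nat_lit 8677) (nat_lit 75290329) (nat_lit 1078) (nat_lit 4338622) (PL.cons (nat_lit 8669) (nat_lit 75151561) (nat_lit 1077) (nat_lit 4329953) (PL.cons (nat_lit 8663) (nat_lit 75047569) (nat_lit 1076) (nat_lit 4321290) (PL.cons (nat_lit 8647) (nat_lit 74770609) (nat_lit 1075) (nat_lit 4312643) (PL.cons (nat_lit 8641) (nat_lit 74666881) (nat_lit 1074) (nat_lit 4304002) (PL.cons (nat_lit 8629) (nat_lit 74459641) (nat_lit 1073) (nat_lit 4295373) (PL.cons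 (nat_lit 8627) (nat_lit 74425129) (nat_lit 1072) (nat_lit 4286746) (PL.cons (nat_lit 8623) (nat_lit 74356129) (nat_lit 1071) (nat_lit 4278123) (PL.cons (nat_lit 8609) (nat_lit 74114881) (nat_lit 1070) (nat_lit 4269514) (PL.cons (nat_lit 8599) (nat_lit 73942801) (nat_lit 1069) (nat_lit 4260915) (PL.cons (nat_lit 8597) (nat_lit 73908409) (nat_lit 1068) (nat_lit 4252318) (PL.cons (nat_lit 8581) (nat_lit 73633561) (nat_lit 1067) (nat_lit 4243737) (PL.cons (nat_lit 8573) (nat_lit 73496329) (nat_lit 1066) (nat_lit 4235164) (PL.cons (nat_lit 8563) (nat_lit 73324969) (nat_lit 1065) (nat_lit 4226601) (PL.cons (nat_lit 8543) (nat_lit 72982849) (nat_lit 1064) (nat_lit 4218058) (PL.cons (nat_lit 8539) (nat_lit 72914521) (nat_lit 1063) (nat_lit 4209519) (PL.cons (nat_lit 8537) (nat_lit 72880369) (nat_lit 1062) (nat_lit 4200982) (PL.cons (nat_lit 8527) (nat_lit 72709729) (nat_lit 1061) (nat_lit 4192455) (PL.cons (nat_lit 8521) (nat_lit 72607441) (nat_lit 1060) (nat_lit 4183934) (PL.cons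 (nat_lit 8513) (nat_lit 72471169) (nat_lit 1059) (nat_lit 4175421) (PL.cons (nat_lit 8501) (nat_lit 72267001) (nat_lit 1058) (nat_lit 4166920) (PL.cons (nat_lit 8467) (nat_lit 71690089) (nat_lit 1057) (nat_lit 4158453) (PL.cons (nat_lit 8461) (nat_lit 71588521) (nat_lit 1056) (nat_lit 4149992) (PL.cons (nat_lit 8447) (nat_lit 71351809) (nat_lit 1055) (nat_lit 4141545) (PL.cons (nat_lit 8443) (nat_lit 71284249) (nat_lit 1054) (nat_lit 4133102) (PL.cons (nat_lit 8431) (nat_lit 71081761) (nat_lit 1053) (nat_lit 4124671) (PL.cons (nat_lit 8429) (nat_lit 71048041) (nat_lit 1052) (nat_lit 4116242) (PL.cons (nat_lit 8423) (nat_lit 70946929) (nat_lit 1051) (nat_lit 4107819) (PL.cons (nat_lit 8419) (nat_lit 70879561) (nat_lit 1050) (nat_lit 4099400) (PL.cons (nat_lit 8389) (nat_lit 70375321) (nat_lit 1049) (nat_lit 4091011) (PL.cons (nat_lit 8387) (nat_lit 70341769) (nat_lit 1048) (nat_lit 4082624) (PL.cons (nat_lit 8377) (nat_lit 70174129) (nat_lit 1047) (nat_lit 4074247) (PL.cons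 (nat_lit 8369) (nat_lit 70040161) (nat_lit 1046) (nat_lit 4065878) (PL.cons (nat_lit 8363) (nat_lit 69939769) (nat_lit 1045) (nat_lit 4057515) (PL.cons (nat_lit 8353) (nat_lit 69772609) (nat_lit 1044) (nat_lit 4049162) (PL.cons (nat_lit 8329) (nat_lit 69372241) (nat_lit 1043) (nat_lit 4040833) (PL.cons (nat_lit 8317) (nat_lit 69172489) (nat_lit 1042) (nat_lit 4032516) (PL.cons (nat_lit 8311) (nat_lit 69072721) (nat_lit 1041) (nat_lit 4024205) (PL.cons (nat_lit 8297) (nat_lit 68840209) (nat_lit 1040) (nat_lit 4015908) (PL.cons (nat_lit 8293) (nat_lit 68773849) (nat_lit 1039) (nat_lit 4007615) (PL.cons (nat_lit 8291) (nat_lit 68740681) (nat_lit 1038) (nat_lit 3999324) L11))))))))))))))))))))))))))))))))))))))))))))))))))))))))))))))))))))))))))))))))))))))))))))))))))))))))))))))))))))))))))))))))))))))))))))))))))))))))))))))))))))))))))))))))))))))))))))))))))))))))))))))))))))))))))))))))))))))))))))))))))))))))))))))))))))))))))))))))))))))))))))))))))))))))))))))))))))))))))))))))))))))))))))))))))))))))))))))))))))))))))))))))))))))))))))))))))))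

def L13 : PL := (PL.cons (nat_lit 15559) (nat_lit 242082481) (nat_lit 1813) (nat_lit 13212683) (PL.cons (nat_lit 15551) (nat_lit 241833601) (nat_lit 1812) (nat_lit 13197132) (PL.cons (nat_lit 15541) (nat_lit 241522681) (nat_lit 1811) (nat_lit 13181591) (PL.cons (nat_lit 15527) (nat_lit 241087729) (nat_lit 1810) (nat_lit 13166064) (PL.cons (nat_lit 15511) (nat_lit 240591121) (nat_lit 1809) (nat_lit 13150553) (PL.cons (nat_lit 15497) (nat_lit 240157009) (nat_lit 1808) (nat_lit 13135056) (PL.cons (nat_lit 15493) (nat_lit 240033049) (nat_lit 1807) (nat_lit 13119563) (PL.cons (nat_lit 15473) (nat_lit 239413729) (nat_lit 1806) (nat_lit 13104090) (PL.cons (nat_lit 15467) (nat_lit 239228089) (nat_lit 1805) (nat_lit 13088623) (PL.cons (nat_lit 15461) (nat_lit 239042521) (nat_lit 1804) (nat_lit 13073162) (PL.cons (nat_lit 15451) (nat_lit 238733401) (nat_lit 1803) (nat_lit 13057711) (PL.cons (nat_lit 15443) (nat_lit 238486249) (nat_lit 1802) (nat_lit 13042268) (PL.cons (nat_lit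 15439) (nat_lit 238362721) (nat_lit 1801) (nat_lit 13026829) (PL.cons (nat_lit 15427) (nat_lit 237992329) (nat_lit 1800) (nat_lit 13011402) (PL.cons (nat_lit 15413) (nat_lit 237560569) (nat_lit 1799) (nat_lit 12995989) (PL.cons (nat_lit 15401) (nat_lit 237190801) (nat_lit 1798) (nat_lit 12980588) (PL.cons (nat_lit 15391) (nat_lit 236882881) (nat_lit 1797) (nat_lit 12965197) (PL.cons (nat_lit 15383) (nat_lit 236636689) (nat_lit 1796) (nat_lit 12949814) (PL.cons (nat_lit 15377) (nat_lit 236452129) (nat_lit 1795) (nat_lit 12934437) (PL.cons (nat_lit 15373) (nat_lit 236329129) (nat_lit 1794) (nat_lit 12919064) (PL.cons (nat_lit 15361) (nat_lit 235960321) (nat_lit 1793) (nat_lit 12903703) (PL.cons (nat_lit 15359) (nat_lit 235898881) (nat_lit 1792) (nat_lit 12888344) (PL.cons (nat_lit 15349) (nat_lit 235591801) (nat_lit 1791) (nat_lit 12872995) (PL.cons (nat_lit 15331) (nat_lit 235039561) (nat_lit 1790) (nat_lit 12857664) (PL.cons (nat_lit 15329) (nat_lit 234978241) (nat_lit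 1789) (nat_lit 12842335) (PL.cons (nat_lit 15319) (nat_lit 234671761) (nat_lit 1788) (nat_lit 12827016) (PL.cons (nat_lit 15313) (nat_lit 234487969) (nat_lit 1787) (nat_lit 12811703) (PL.cons (nat_lit 15307) (nat_lit 234304249) (nat_lit 1786) (nat_lit 12796396) (PL.cons (nat_lit 15299) (nat_lit 234059401) (nat_lit 1785) (nat_lit 12781097) (PL.cons (nat_lit 15289) (nat_lit 233753521) (nat_lit 1784) (nat_lit 12765808) (PL.cons (nat_lit 15287) (nat_lit 233692369) (nat_lit 1783) (nat_lit 12750521) (PL.cons (nat_lit 15277) (nat_lit 233386729) (nat_lit 1782) (nat_lit 12735244) (PL.cons (nat_lit 15271) (nat_lit 233203441) (nat_lit 1781) (nat_lit 12719973) (PL.cons (nat_lit 15269) (nat_lit 233142361) (nat_lit 1780) (nat_lit 12704704) (PL.cons (nat_lit 15263) (nat_lit 232959169) (nat_lit 1779) (nat_lit 12689441) (PL.cons (nat_lit 15259) (nat_lit 232837081) (nat_lit 1778) (nat_lit 12674182) (PL.cons (nat_lit 15241) (nat_lit 232288081) (nat_lit 1777) (nat_lit 12658941) (PL.cons (nat_lit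 15233) (nat_lit 232044289) (nat_lit 1776) (nat_lit 12643708) (PL.cons (nat_lit 15227) (nat_lit 231861529) (nat_lit 1775) (nat_lit 12628481) (PL.cons (nat_lit 15217) (nat_lit 231557089) (nat_lit 1774) (nat_lit 12613264) (PL.cons (nat_lit 15199) (nat_lit 231009601) (nat_lit 1773) (nat_lit 12598065) (PL.cons (nat_lit 15193) (nat_lit 230827249) (nat_lit 1772) (nat_lit 12582872) (PL.cons (nat_lit 15187) (nat_lit 230644969) (nat_lit 1771) (nat_lit 12567685) (PL.cons (nat_lit 15173) (nat_lit 230219929) (nat_lit 1770) (nat_lit 12552512) (PL.cons (nat_lit 15161) (nat_lit 229855921) (nat_lit 1769) (nat_lit 12537351) (PL.cons (nat_lit 15149) (nat_lit 229492201) (nat_lit 1768) (nat_lit 12522202) (PL.cons (nat_lit 15139) (nat_lit 229189321) (nat_lit 1767) (nat_lit 12507063) (PL.cons (nat_lit 15137) (nat_lit 229128769) (nat_lit 1766) (nat_lit 12491926) (PL.cons (nat_lit 15131) (nat_lit 228947161) (nat_lit 1765) (nat_lit 12476795) (PL.cons (nat_lit 15121) (nat_lit 228644641) (nat_lit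 1764) (nat_lit 12461674) (PL.cons (nat_lit 15107) (nat_lit 228221449) (nat_lit 1763) (nat_lit 12446567) (PL.cons (nat_lit 15101) (nat_lit 228040201) (nat_lit 1762) (nat_lit 12431466) (PL.cons (nat_lit 15091) (nat_lit 227738281) (nat_lit 1761) (nat_lit 12416375) (PL.cons (nat_lit 15083) (nat_lit 227496889) (nat_lit 1760) (nat_lit 12401292) (PL.cons (nat_lit 15077) (nat_lit 227315929) (nat_lit 1759) (nat_lit 12386215) (PL.cons (nat_lit 15073) (nat_lit 227195329) (nat_lit 1758) (nat_lit 12371142) (PL.cons (nat_lit 15061) (nat_lit 226833721) (nat_lit 1757) (nat_lit 12356081) (PL.cons (nat_lit 15053) (nat_lit 226592809) (nat_lit 1756) (nat_lit 12341028) (PL.cons (nat_lit 15031) (nat_lit 225930961) (nat_lit 1755) (nat_lit 12325997) (PL.cons (nat_lit 15017) (nat_lit 225510289) (nat_lit 1754) (nat_lit 12310980) (PL.cons (nat_lit 15013) (nat_lit 225390169) (nat_lit 1753) (nat_lit 12295967) (PL.cons (nat_lit 14983) (nat_lit 224490289) (nat_lit 1752) (nat_lit 12280984) (PL.cons (nat_lit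 14969) (nat_lit 224070961) (nat_lit 1751) (nat_lit 12266015) (PL.cons (nat_lit 14957) (nat_lit 223711849) (nat_lit 1750) (nat_lit 12251058) (PL.cons (nat_lit 14951) (nat_lit 223532401) (nat_lit 1749) (nat_lit 12236107) (PL.cons (nat_lit 14947) (nat_lit 223412809) (nat_lit 1748) (nat_lit 12221160) (PL.cons (nat_lit 14939) (nat_lit 223173721) (nat_lit 1747) (nat_lit 12206221) (PL.cons (nat_lit 14929) (nat_lit 222875041) (nat_lit 1746) (nat_lit 12191292) (PL.cons (nat_lit 14923) (nat_lit 222695929) (nat_lit 1745) (nat_lit 12176369) (PL.cons (nat_lit 14897) (nat_lit 221920609) (nat_lit 1744) (nat_lit 12161472) (PL.cons (nat_lit 14891) (nat_lit 221741881) (nat_lit 1743) (nat_lit 12146581) (PL.cons (nat_lit 14887) (nat_lit 221622769) (nat_lit 1742) (nat_lit 12131694) (PL.cons (nat_lit 14879) (nat_lit 221384641) (nat_lit 1741) (nat_lit 12116815) (PL.cons (nat_lit 14869) (nat_lit 221087161) (nat_lit 1740) (nat_lit 12101946) (PL.cons (nat_lit 14867) (nat_lit 221027689) (nat_lit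 1739) (nat_lit 12087079) (PL.cons (nat_lit 14851) (nat_lit 220552201) (nat_lit 1738) (nat_lit 12072228) (PL.cons (nat_lit 14843) (nat_lit 220314649) (nat_lit 1737) (nat_lit 12057385) (PL.cons (nat_lit 14831) (nat_lit 219958561) (nat_lit 1736) (nat_lit 12042554) (PL.cons (nat_lit 14827) (nat_lit 219839929) (nat_lit 1735) (nat_lit 12027727) (PL.cons (nat_lit 14821) (nat_lit 219662041) (nat_lit 1734) (nat_lit 12012906) (PL.cons (nat_lit 14813) (nat_lit 219424969) (nat_lit 1733) (nat_lit 11998093) (PL.cons (nat_lit 14797) (nat_lit 218951209) (nat_lit 1732) (nat_lit 11983296) (PL.cons (nat_lit 14783) (nat_lit 218537089) (nat_lit 1731) (nat_lit 11968513) (PL.cons (nat_lit 14779) (nat_lit 218418841) (nat_lit 1730) (nat_lit 11953734) (PL.cons (nat_lit 14771) (nat_lit 218182441) (nat_lit 1729) (nat_lit 11938963) (PL.cons (nat_lit 14767) (nat_lit 218064289) (nat_lit 1728) (nat_lit 11924196) (PL.cons (nat_lit 14759) (nat_lit 217828081) (nat_lit 1727) (nat_lit 11909437) (PL.cons (nat_lit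 14753) (nat_lit 217651009) (nat_lit 1726) (nat_lit 11894684) (PL.cons (nat_lit 14747) (nat_lit 217474009) (nat_lit 1725) (nat_lit 11879937) (PL.cons (nat_lit 14741) (nat_lit 217297081) (nat_lit 1724) (nat_lit 11865196) (PL.cons (nat_lit 14737) (nat_lit 217179169) (nat_lit 1723) (nat_lit 11850459) (PL.cons (nat_lit 14731) (nat_lit 217002361) (nat_lit 1722) (nat_lit 11835728) (PL.cons (nat_lit 14723) (nat_lit 216766729) (nat_lit 1721) (nat_lit 11821005) (PL.cons (nat_lit 14717) (nat_lit 216590089) (nat_lit 1720) (nat_lit 11806288) (PL.cons (nat_lit 14713) (nat_lit 216472369) (nat_lit 1719) (nat_lit 11791575) (PL.cons (nat_lit 14699) (nat_lit 216060601) (nat_lit 1718) (nat_lit 11776876) (PL.cons (nat_lit 14683) (nat_lit 215590489) (nat_lit 1717) (nat_lit 11762193) (PL.cons (nat_lit 14669) (nat_lit 215179561) (nat_lit 1716) (nat_lit 11747524) (PL.cons (nat_lit 14657) (nat_lit 214827649) (nat_lit 1715) (nat_lit 11732867) (PL.cons (nat_lit 14653) (nat_lit 214710409) (nat_lit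 1714) (nat_lit 11718214) (PL.cons (nat_lit 14639) (nat_lit 214300321) (nat_lit 1713) (nat_lit 11703575) (PL.cons (nat_lit 14633) (nat_lit 214124689) (nat_lit 1712) (nat_lit 11688942) (PL.cons (nat_lit 14629) (nat_lit 214007641) (nat_lit 1711) (nat_lit 11674313) (PL.cons (nat_lit 14627) (nat_lit 213949129) (nat_lit 1710) (nat_lit 11659686) (PL.cons (nat_lit 14621) (nat_lit 213773641) (nat_lit 1709) (nat_lit 11645065) (PL.cons (nat_lit 14593) (nat_lit 212955649) (nat_lit 1708) (nat_lit 11630472) (PL.cons (nat_lit 14591) (nat_lit 212897281) (nat_lit 1707) (nat_lit 11615881) (PL.cons (nat_lit 14563) (nat_lit 212080969) (nat_lit 1706) (nat_lit 11601318) (PL.cons (nat_lit 14561) (nat_lit 212022721) (nat_lit 1705) (nat_lit 11586757) (PL.cons (nat_lit 14557) (nat_lit 211906249) (nat_lit 1704) (nat_lit 11572200) (PL.cons (nat_lit 14551) (nat_lit 211731601) (nat_lit 1703) (nat_lit 11557649) (PL.cons (nat_lit 14549) (nat_lit 211673401) (nat_lit 1702) (nat_lit 11543100) (PL.cons (nat_lit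 14543) (nat_lit 211498849) (nat_lit 1701) (nat_lit 11528557) (PL.cons (nat_lit 14537) (nat_lit 211324369) (nat_lit 1700) (nat_lit 11514020) (PL.cons (nat_lit 14533) (nat_lit 211208089) (nat_lit 1699) (nat_lit 11499487) (PL.cons (nat_lit 14519) (nat_lit 210801361) (nat_lit 1698) (nat_lit 11484968) (PL.cons (nat_lit 14503) (nat_lit 210337009) (nat_lit 1697) (nat_lit 11470465) (PL.cons (nat_lit 14489) (nat_lit 209931121) (nat_lit 1696) (nat_lit 11455976) (PL.cons (nat_lit 14479) (nat_lit 209641441) (nat_lit 1695) (nat_lit 11441497) (PL.cons (nat_lit 14461) (nat_lit 209120521) (nat_lit 1694) (nat_lit 11427036) (PL.cons (nat_lit 14449) (nat_lit 208773601) (nat_lit 1693) (nat_lit 11412587) (PL.cons (nat_lit 14447) (nat_lit 208715809) (nat_lit 1692) (nat_lit 11398140) (PL.cons (nat_lit 14437) (nat_lit 208426969) (nat_lit 1691) (nat_lit 11383703) (PL.cons (nat_lit 14431) (nat_lit 208253761) (nat_lit 1690) (nat_lit 11369272) (PL.cons (nat_lit 14423) (nat_lit 208022929) (nat_lit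 1689) (nat_lit 11354849) (PL.cons (nat_lit 14419) (nat_lit 207907561) (nat_lit 1688) (nat_lit 11340430) (PL.cons (nat_lit 14411) (nat_lit 207676921) (nat_lit 1687) (nat_lit 11326019) (PL.cons (nat_lit 14407) (nat_lit 207561649) (nat_lit 1686) (nat_lit 11311612) (PL.cons (nat_lit 14401) (nat_lit 207388801) (nat_lit 1685) (nat_lit 11297211) (PL.cons (nat_lit 14389) (nat_lit 207043321) (nat_lit 1684) (nat_lit 11282822) (PL.cons (nat_lit 14387) (nat_lit 206985769) (nat_lit 1683) (nat_lit 11268435) (PL.cons (nat_lit 14369) (nat_lit 206468161) (nat_lit 1682) (nat_lit 11254066) (PL.cons (nat_lit 14347) (nat_lit 205836409) (nat_lit 1681) (nat_lit 11239719) (PL.cons (nat_lit 14341) (nat_lit 205664281) (nat_lit 1680) (nat_lit 11225378) (PL.cons (nat_lit 14327) (nat_lit 205262929) (nat_lit 1679) (nat_lit 11211051) (PL.cons (nat_lit 14323) (nat_lit 205148329) (nat_lit 1678) (nat_lit 11196728) (PL.cons (nat_lit 14321) (nat_lit 205091041) (nat_lit 1677) (nat_lit 11182407) (PL.cons (nat_lit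 14303) (nat_lit 204575809) (nat_lit 1676) (nat_lit 11168104) (PL.cons (nat_lit 14293) (nat_lit 204289849) (nat_lit 1675) (nat_lit 11153811) (PL.cons (nat_lit 14281) (nat_lit 203946961) (nat_lit 1674) (nat_lit 11139530) (PL.cons (nat_lit 14251) (nat_lit 203091001) (nat_lit 1673) (nat_lit 11125279) (PL.cons (nat_lit 14249) (nat_lit 203034001) (nat_lit 1672) (nat_lit 11111030) (PL.cons (nat_lit 14243) (nat_lit 202863049) (nat_lit 1671) (nat_lit 11096787) (PL.cons (nat_lit 14221) (nat_lit 202236841) (nat_lit 1670) (nat_lit 11082566) (PL.cons (nat_lit 14207) (nat_lit 201838849) (nat_lit 1669) (nat_lit 11068359) (PL.cons (nat_lit 14197) (nat_lit 201554809) (nat_lit 1668) (nat_lit 11054162) (PL.cons (nat_lit 14177) (nat_lit 200987329) (nat_lit 1667) (nat_lit 11039985) (PL.cons (nat_lit 14173) (nat_lit 200873929) (nat_lit 1666) (nat_lit 11025812) (PL.cons (nat_lit 14159) (nat_lit 200477281) (nat_lit 1665) (nat_lit 11011653) (PL.cons (nat_lit 14153) (nat_lit 200307409) (nat_lit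 1664) (nat_lit 10997500) (PL.cons (nat_lit 14149) (nat_lit 200194201) (nat_lit 1663) (nat_lit 10983351) (PL.cons (nat_lit 14143) (nat_lit 200024449) (nat_lit 1662) (nat_lit 10969208) (PL.cons (nat_lit 14107) (nat_lit 199007449) (nat_lit 1661) (nat_lit 10955101) (PL.cons (nat_lit 14087) (nat_lit 198443569) (nat_lit 1660) (nat_lit 10941014) (PL.cons (nat_lit 14083) (nat_lit 198330889) (nat_lit 1659) (nat_lit 10926931) (PL.cons (nat_lit 14081) (nat_lit 198274561) (nat_lit 1658) (nat_lit 10912850) (PL.cons (nat_lit 14071) (nat_lit 197993041) (nat_lit 1657) (nat_lit 10898779) (PL.cons (nat_lit 14057) (nat_lit 197599249) (nat_lit 1656) (nat_lit 10884722) (PL.cons (nat_lit 14051) (nat_lit 197430601) (nat_lit 1655) (nat_lit 10870671) (PL.cons (nat_lit 14033) (nat_lit 196925089) (nat_lit 1654) (nat_lit 10856638) (PL.cons (nat_lit 14029) (nat_lit 196812841) (nat_lit 1653) (nat_lit 10842609) (PL.cons (nat_lit 14011) (nat_lit 196308121) (nat_lit 1652) (nat_lit 10828598) (PL.cons (nat_lit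 14009) (nat_lit 196252081) (nat_lit 1651) (nat_lit 10814589) (PL.cons (nat_lit 13999) (nat_lit 195972001) (nat_lit 1650) (nat_lit 10800590) (PL.cons (nat_lit 13997) (nat_lit 195916009) (nat_lit 1649) (nat_lit 10786593) (PL.cons (nat_lit 13967) (nat_lit 195077089) (nat_lit 1648) (nat_lit 10772626) (PL.cons (nat_lit 13963) (nat_lit 194965369) (nat_lit 1647) (nat_lit 10758663) (PL.cons (nat_lit 13933) (nat_lit 194128489) (nat_lit 1646) (nat_lit 10744730) (PL.cons (nat_lit 13931) (nat_lit 194072761) (nat_lit 1645) (nat_lit 10730799) (PL.cons (nat_lit 13921) (nat_lit 193794241) (nat_lit 1644) (nat_lit 10716878) (PL.cons (nat_lit 13913) (nat_lit 193571569) (nat_lit 1643) (nat_lit 10702965) (PL.cons (nat_lit 13907) (nat_lit 193404649) (nat_lit 1642) (nat_lit 10689058) (PL.cons (nat_lit 13903) (nat_lit 193293409) (nat_lit 1641) (nat_lit 10675155) (PL.cons (nat_lit 13901) (nat_lit 193237801) (nat_lit 1640) (nat_lit 10661254) (PL.cons (nat_lit 13883) (nat_lit 192737689) (nat_lit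 1639) (nat_lit 10647371) (PL.cons (nat_lit 13879) (nat_lit 192626641) (nat_lit 1638) (nat_lit 10633492) (PL.cons (nat_lit 13877) (nat_lit 192571129) (nat_lit 1637) (nat_lit 10619615) (PL.cons (nat_lit 13873) (nat_lit 192460129) (nat_lit 1636) (nat_lit 10605742) (PL.cons (nat_lit 13859) (nat_lit 192071881) (nat_lit 1635) (nat_lit 10591883) (PL.cons (nat_lit 13841) (nat_lit 191573281) (nat_lit 1634) (nat_lit 10578042) (PL.cons (nat_lit 13831) (nat_lit 191296561) (nat_lit 1633) (nat_lit 10564211) (PL.cons (nat_lit 13829) (nat_lit 191241241) (nat_lit 1632) (nat_lit 10550382) (PL.cons (nat_lit 13807) (nat_lit 190633249) (nat_lit 1631) (nat_lit 10536575) (PL.cons (nat_lit 13799) (nat_lit 190412401) (nat_lit 1630) (nat_lit 10522776) (PL.cons (nat_lit 13789) (nat_lit 190136521) (nat_lit 1629) (nat_lit 10508987) (PL.cons (nat_lit 13781) (nat_lit 189915961) (nat_lit 1628) (nat_lit 10495206) (PL.cons (nat_lit 13763) (nat_lit 189420169) (nat_lit 1627) (nat_lit 10481443) (PL.cons (nat_lit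 13759) (nat_lit 189310081) (nat_lit 1626) (nat_lit 10467684) (PL.cons (nat_lit 13757) (nat_lit 189255049) (nat_lit 1625) (nat_lit 10453927) (PL.cons (nat_lit 13751) (nat_lit 189090001) (nat_lit 1624) (nat_lit 10440176) (PL.cons (nat_lit 13729) (nat_lit 188485441) (nat_lit 1623) (nat_lit 10426447) (PL.cons (nat_lit 13723) (nat_lit 188320729) (nat_lit 1622) (nat_lit 10412724) (PL.cons (nat_lit 13721) (nat_lit 188265841) (nat_lit 1621) (nat_lit 10399003) (PL.cons (nat_lit 13711) (nat_lit 187991521) (nat_lit 1620) (nat_lit 10385292) (PL.cons (nat_lit 13709) (nat_lit 187936681) (nat_lit 1619) (nat_lit 10371583) (PL.cons (nat_lit 13697) (nat_lit 187607809) (nat_lit 1618) (nat_lit 10357886) (PL.cons (nat_lit 13693) (nat_lit 187498249) (nat_lit 1617) (nat_lit 10344193) (PL.cons (nat_lit 13691) (nat_lit 187443481) (nat_lit 1616) (nat_lit 10330502) (PL.cons (nat_lit 13687) (nat_lit 187333969) (nat_lit 1615) (nat_lit 10316815) (PL.cons (nat_lit 13681) (nat_lit 187169761) (nat_lit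 1614) (nat_lit 10303134) (PL.cons (nat_lit 13679) (nat_lit 187115041) (nat_lit 1613) (nat_lit 10289455) (PL.cons (nat_lit 13669) (nat_lit 186841561) (nat_lit 1612) (nat_lit 10275786) (PL.cons (nat_lit 13649) (nat_lit 186295201) (nat_lit 1611) (nat_lit 10262137) (PL.cons (nat_lit 13633) (nat_lit 185858689) (nat_lit 1610) (nat_lit 10248504) (PL.cons (nat_lit 13627) (nat_lit 185695129) (nat_lit 1609) (nat_lit 10234877) (PL.cons (nat_lit 13619) (nat_lit 185477161) (nat_lit 1608) (nat_lit 10221258) (PL.cons (nat_lit 13613) (nat_lit 185313769) (nat_lit 1607) (nat_lit 10207645) (PL.cons (nat_lit 13597) (nat_lit 184878409) (nat_lit 1606) (nat_lit 10194048) (PL.cons (nat_lit 13591) (nat_lit 184715281) (nat_lit 1605) (nat_lit 10180457) (PL.cons (nat_lit 13577) (nat_lit 184334929) (nat_lit 1604) (nat_lit 10166880) (PL.cons (nat_lit 13567) (nat_lit 184063489) (nat_lit 1603) (nat_lit 10153313) (PL.cons (nat_lit 13553) (nat_lit 183683809) (nat_lit 1602) (nat_lit 10139760) (PL.cons (nat_lit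 13537) (nat_lit 183250369) (nat_lit 1601) (nat_lit 10126223) (PL.cons (nat_lit 13523) (nat_lit 182871529) (nat_lit 1600) (nat_lit 10112700) (PL.cons (nat_lit 13513) (nat_lit 182601169) (nat_lit 1599) (nat_lit 10099187) (PL.cons (nat_lit 13499) (nat_lit 182223001) (nat_lit 1598) (nat_lit 10085688) (PL.cons (nat_lit 13487) (nat_lit 181899169) (nat_lit 1597) (nat_lit 10072201) (PL.cons (nat_lit 13477) (nat_lit 181629529) (nat_lit 1596) (nat_lit 10058724) (PL.cons (nat_lit 13469) (nat_lit 181413961) (nat_lit 1595) (nat_lit 10045255) (PL.cons (nat_lit 13463) (nat_lit 181252369) (nat_lit 1594) (nat_lit 10031792) (PL.cons (nat_lit 13457) (nat_lit 181090849) (nat_lit 1593) (nat_lit 10018335) (PL.cons (nat_lit 13451) (nat_lit 180929401) (nat_lit 1592) (nat_lit 10004884) (PL.cons (nat_lit 13441) (nat_lit 180660481) (nat_lit 1591) (nat_lit 9991443) (PL.cons (nat_lit 13421) (nat_lit 180123241) (nat_lit 1590) (nat_lit 9978022) (PL.cons (nat_lit 13417) (nat_lit 180015889) (nat_lit 1589)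 (nat_lit 9964605) (PL.cons (nat_lit 13411) (nat_lit 179854921) (nat_lit 1588) (nat_lit 9951194) (PL.cons (nat_lit 13399) (nat_lit 179533201) (nat_lit 1587) (nat_lit 9937795) (PL.cons (nat_lit 13397) (nat_lit 179479609) (nat_lit 1586) (nat_lit 9924398) (PL.cons (nat_lit 13381) (nat_lit 179051161) (nat_lit 1585) (nat_lit 9911017) (PL.cons (nat_lit 13367) (nat_lit 178676689) (nat_lit 1584) (nat_lit 9897650) (PL.cons (nat_lit 13339) (nat_lit 177928921) (nat_lit 1583) (nat_lit 9884311) (PL.cons (nat_lit 13337) (nat_lit 177875569) (nat_lit 1582) (nat_lit 9870974) (PL.cons (nat_lit 13331) (nat_lit 177715561) (nat_lit 1581) (nat_lit 9857643) (PL.cons (nat_lit 13327) (nat_lit 177608929) (nat_lit 1580) (nat_lit 9844316) (PL.cons (nat_lit 13313) (nat_lit 177235969) (nat_lit 1579) (nat_lit 9831003) (PL.cons (nat_lit 13309) (nat_lit 177129481) (nat_lit 1578) (nat_lit 9817694) (PL.cons (nat_lit 13297) (nat_lit 176810209) (nat_lit 1577) (nat_lit 9804397) (PL.cons (nat_lit 13291) (nat_lit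 176650681) (nat_lit 1576) (nat_lit 9791106) (PL.cons (nat_lit 13267) (nat_lit 176013289) (nat_lit 1575) (nat_lit 9777839) (PL.cons (nat_lit 13259) (nat_lit 175801081) (nat_lit 1574) (nat_lit 9764580) (PL.cons (nat_lit 13249) (nat_lit 175536001) (nat_lit 1573) (nat_lit 9751331) (PL.cons (nat_lit 13241) (nat_lit 175324081) (nat_lit 1572) (nat_lit 9738090) (PL.cons (nat_lit 13229) (nat_lit 175006441) (nat_lit 1571) (nat_lit 9724861) (PL.cons (nat_lit 13219) (nat_lit 174741961) (nat_lit 1570) (nat_lit 9711642) (PL.cons (nat_lit 13217) (nat_lit 174689089) (nat_lit 1569) (nat_lit 9698425) (PL.cons (nat_lit 13187) (nat_lit 173896969) (nat_lit 1568) (nat_lit 9685238) (PL.cons (nat_lit 13183) (nat_lit 173791489) (nat_lit 1567) (nat_lit 9672055) (PL.cons (nat_lit 13177) (nat_lit 173633329) (nat_lit 1566) (nat_lit 9658878) (PL.cons (nat_lit 13171) (nat_lit 173475241) (nat_lit 1565) (nat_lit 9645707) (PL.cons (nat_lit 13163) (nat_lit 173264569) (nat_lit 1564) (nat_lit 9632544) (PL.cons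 (nat_lit 13159) (nat_lit 173159281) (nat_lit 1563) (nat_lit 9619385) (PL.cons (nat_lit 13151) (nat_lit 172948801) (nat_lit 1562) (nat_lit 9606234) (PL.cons (nat_lit 13147) (nat_lit 172843609) (nat_lit 1561) (nat_lit 9593087) (PL.cons (nat_lit 13127) (nat_lit 172318129) (nat_lit 1560) (nat_lit 9579960) (PL.cons (nat_lit 13121) (nat_lit 172160641) (nat_lit 1559) (nat_lit 9566839) (PL.cons (nat_lit 13109) (nat_lit 171845881) (nat_lit 1558) (nat_lit 9553730) (PL.cons (nat_lit 13103) (nat_lit 171688609) (nat_lit 1557) (nat_lit 9540627) (PL.cons (nat_lit 13099) (nat_lit 171583801) (nat_lit 1556) (nat_lit 9527528) (PL.cons (nat_lit 13093) (nat_lit 171426649) (nat_lit 1555) (nat_lit 9514435) (PL.cons (nat_lit 13063) (nat_lit 170641969) (nat_lit 1554) (nat_lit 9501372) (PL.cons (nat_lit 13049) (nat_lit 170276401) (nat_lit 1553) (nat_lit 9488323) (PL.cons (nat_lit 13043) (nat_lit 170119849) (nat_lit 1552) (nat_lit 9475280) (PL.cons (nat_lit 13037) (nat_lit 169963369) (nat_lit 1551)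 (nat_lit 9462243) (PL.cons (nat_lit 13033) (nat_lit 169859089) (nat_lit 1550) (nat_lit 9449210) (PL.cons (nat_lit 13009) (nat_lit 169234081) (nat_lit 1549) (nat_lit 9436201) (PL.cons (nat_lit 13007) (nat_lit 169182049) (nat_lit 1548) (nat_lit 9423194) (PL.cons (nat_lit 13003) (nat_lit 169078009) (nat_lit 1547) (nat_lit 9410191) (PL.cons (nat_lit 13001) (nat_lit 169026001) (nat_lit 1546) (nat_lit 9397190) (PL.cons (nat_lit 12983) (nat_lit 168558289) (nat_lit 1545) (nat_lit 9384207) (PL.cons (nat_lit 12979) (nat_lit 168454441) (nat_lit 1544) (nat_lit 9371228) (PL.cons (nat_lit 12973) (nat_lit 168298729) (nat_lit 1543) (nat_lit 9358255) (PL.cons (nat_lit 12967) (nat_lit 168143089) (nat_lit 1542) (nat_lit 9345288) (PL.cons (nat_lit 12959) (nat_lit 167935681) (nat_lit 1541) (nat_lit 9332329) (PL.cons (nat_lit 12953) (nat_lit 167780209) (nat_lit 1540) (nat_lit 9319376) (PL.cons (nat_lit 12941) (nat_lit 167469481) (nat_lit 1539) (nat_lit 9306435) (PL.cons (nat_lit 12923) (nat_lit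 167003929) (nat_lit 1538) (nat_lit 9293512) (PL.cons (nat_lit 12919) (nat_lit 166900561) (nat_lit 1537) (nat_lit 9280593) (PL.cons (nat_lit 12917) (nat_lit 166848889) (nat_lit 1536) (nat_lit 9267676) (PL.cons (nat_lit 12911) (nat_lit 166693921) (nat_lit 1535) (nat_lit 9254765) (PL.cons (nat_lit 12907) (nat_lit 166590649) (nat_lit 1534) (nat_lit 9241858) (PL.cons (nat_lit 12899) (nat_lit 166384201) (nat_lit 1533) (nat_lit 9228959) (PL.cons (nat_lit 12893) (nat_lit 166229449) (nat_lit 1532) (nat_lit 9216066) (PL.cons (nat_lit 12889) (nat_lit 166126321) (nat_lit 1531) (nat_lit 9203177) (PL.cons (nat_lit 12853) (nat_lit 165199609) (nat_lit 1530) (nat_lit 9190324) (PL.cons (nat_lit 12841) (nat_lit 164891281) (nat_lit 1529) (nat_lit 9177483) (PL.cons (nat_lit 12829) (nat_lit 164583241) (nat_lit 1528) (nat_lit 9164654) (PL.cons (nat_lit 12823) (nat_lit 164429329) (nat_lit 1527) (nat_lit 9151831) (PL.cons (nat_lit 12821) (nat_lit 164378041) (nat_lit 1526) (nat_lit 9139010) (PL.cons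 (nat_lit 12809) (nat_lit 164070481) (nat_lit 1525) (nat_lit 9126201) (PL.cons (nat_lit 12799) (nat_lit 163814401) (nat_lit 1524) (nat_lit 9113402) (PL.cons (nat_lit 12791) (nat_lit 163609681) (nat_lit 1523) (nat_lit 9100611) (PL.cons (nat_lit 12781) (nat_lit 163353961) (nat_lit 1522) (nat_lit 9087830) (PL.cons (nat_lit 12763) (nat_lit 162894169) (nat_lit 1521) (nat_lit 9075067) (PL.cons (nat_lit 12757) (nat_lit 162741049) (nat_lit 1520) (nat_lit 9062310) (PL.cons (nat_lit 12743) (nat_lit 162384049) (nat_lit 1519) (nat_lit 9049567) (PL.cons (nat_lit 12739) (nat_lit 162282121) (nat_lit 1518) (nat_lit 9036828) (PL.cons (nat_lit 12721) (nat_lit 161823841) (nat_lit 1517) (nat_lit 9024107) (PL.cons (nat_lit 12713) (nat_lit 161620369) (nat_lit 1516) (nat_lit 9011394) (PL.cons (nat_lit 12703) (nat_lit 161366209) (nat_lit 1515) (nat_lit 8998691) (PL.cons (nat_lit 12697) (nat_lit 161213809) (nat_lit 1514) (nat_lit 8985994) (PL.cons (nat_lit 12689) (nat_lit 161010721) (nat_lit 1513)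 (nat_lit 8973305) (PL.cons (nat_lit 12671) (nat_lit 160554241) (nat_lit 1512) (nat_lit 8960634) (PL.cons (nat_lit 12659) (nat_lit 160250281) (nat_lit 1511) (nat_lit 8947975) (PL.cons (nat_lit 12653) (nat_lit 160098409) (nat_lit 1510) (nat_lit 8935322) (PL.cons (nat_lit 12647) (nat_lit 159946609) (nat_lit 1509) (nat_lit 8922675) (PL.cons (nat_lit 12641) (nat_lit 159794881) (nat_lit 1508) (nat_lit 8910034) (PL.cons (nat_lit 12637) (nat_lit 159693769) (nat_lit 1507) (nat_lit 8897397) (PL.cons (nat_lit 12619) (nat_lit 159239161) (nat_lit 1506) (nat_lit 8884778) (PL.cons (nat_lit 12613) (nat_lit 159087769) (nat_lit 1505) (nat_lit 8872165) (PL.cons (nat_lit 12611) (nat_lit 159037321) (nat_lit 1504) (nat_lit 8859554) (PL.cons (nat_lit 12601) (nat_lit 158785201) (nat_lit 1503) (nat_lit 8846953) (PL.cons (nat_lit 12589) (nat_lit 158482921) (nat_lit 1502) (nat_lit 8834364) (PL.cons (nat_lit 12583) (nat_lit 158331889) (nat_lit 1501) (nat_lit 8821781) (PL.cons (nat_lit 12577) (nat_lit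 158180929) (nat_lit 1500) (nat_lit 8809204) (PL.cons (nat_lit 12569) (nat_lit 157979761) (nat_lit 1499) (nat_lit 8796635) (PL.cons (nat_lit 12553) (nat_lit 157577809) (nat_lit 1498) (nat_lit 8784082) (PL.cons (nat_lit 12547) (nat_lit 157427209) (nat_lit 1497) (nat_lit 8771535) (PL.cons (nat_lit 12541) (nat_lit 157276681) (nat_lit 1496) (nat_lit 8758994) (PL.cons (nat_lit 12539) (nat_lit 157226521) (nat_lit 1495) (nat_lit 8746455) (PL.cons (nat_lit 12527) (nat_lit 156925729) (nat_lit 1494) (nat_lit 8733928) (PL.cons (nat_lit 12517) (nat_lit 156675289) (nat_lit 1493) (nat_lit 8721411) (PL.cons (nat_lit 12511) (nat_lit 156525121) (nat_lit 1492) (nat_lit 8708900) (PL.cons (nat_lit 12503) (nat_lit 156325009) (nat_lit 1491) (nat_lit 8696397) (PL.cons (nat_lit 12497) (nat_lit 156175009) (nat_lit 1490) (nat_lit 8683900) (PL.cons (nat_lit 12491) (nat_lit 156025081) (nat_lit 1489) (nat_lit 8671409) (PL.cons (nat_lit 12487) (nat_lit 155925169) (nat_lit 1488) (nat_lit 8658922) (PL.cons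 (nat_lit 12479) (nat_lit 155725441) (nat_lit 1487) (nat_lit 8646443) (PL.cons (nat_lit 12473) (nat_lit 155575729) (nat_lit 1486) (nat_lit 8633970) (PL.cons (nat_lit 12457) (nat_lit 155176849) (nat_lit 1485) (nat_lit 8621513) (PL.cons (nat_lit 12451) (nat_lit 155027401) (nat_lit 1484) (nat_lit 8609062) (PL.cons (nat_lit 12437) (nat_lit 154678969) (nat_lit 1483) (nat_lit 8596625) (PL.cons (nat_lit 12433) (nat_lit 154579489) (nat_lit 1482) (nat_lit 8584192) (PL.cons (nat_lit 12421) (nat_lit 154281241) (nat_lit 1481) (nat_lit 8571771) (PL.cons (nat_lit 12413) (nat_lit 154082569) (nat_lit 1480) (nat_lit 8559358) (PL.cons (nat_lit 12409) (nat_lit 153983281) (nat_lit 1479) (nat_lit 8546949) (PL.cons (nat_lit 12401) (nat_lit 153784801) (nat_lit 1478) (nat_lit 8534548) (PL.cons (nat_lit 12391) (nat_lit 153536881) (nat_lit 1477) (nat_lit 8522157) (PL.cons (nat_lit 12379) (nat_lit 153239641) (nat_lit 1476) (nat_lit 8509778) (PL.cons (nat_lit 12377) (nat_lit 153190129) (nat_lit 1475)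 (nat_lit 8497401) (PL.cons (nat_lit 12373) (nat_lit 153091129) (nat_lit 1474) (nat_lit 8485028) (PL.cons (nat_lit 12347) (nat_lit 152448409) (nat_lit 1473) (nat_lit 8472681) (PL.cons (nat_lit 12343) (nat_lit 152349649) (nat_lit 1472) (nat_lit 8460338) (PL.cons (nat_lit 12329) (nat_lit 152004241) (nat_lit 1471) (nat_lit 8448009) (PL.cons (nat_lit 12323) (nat_lit 151856329) (nat_lit 1470) (nat_lit 8435686) (PL.cons (nat_lit 12301) (nat_lit 151314601) (nat_lit 1469) (nat_lit 8423385) (PL.cons (nat_lit 12289) (nat_lit 151019521) (nat_lit 1468) (nat_lit 8411096) (PL.cons (nat_lit 12281) (nat_lit 150822961) (nat_lit 1467) (nat_lit 8398815) (PL.cons (nat_lit 12277) (nat_lit 150724729) (nat_lit 1466) (nat_lit 8386538) (PL.cons (nat_lit 12269) (nat_lit 150528361) (nat_lit 1465) (nat_lit 8374269) (PL.cons (nat_lit 12263) (nat_lit 150381169) (nat_lit 1464) (nat_lit 8362006) (PL.cons (nat_lit 12253) (nat_lit 150136009) (nat_lit 1463) (nat_lit 8349753) (PL.cons (nat_lit 12251) (nat_lit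 150087001) (nat_lit 1462) (nat_lit 8337502) (PL.cons (nat_lit 12241) (nat_lit 149842081) (nat_lit 1461) (nat_lit 8325261) (PL.cons (nat_lit 12239) (nat_lit 149793121) (nat_lit 1460) (nat_lit 8313022) (PL.cons (nat_lit 12227) (nat_lit 149499529) (nat_lit 1459) (nat_lit 8300795) (PL.cons (nat_lit 12211) (nat_lit 149108521) (nat_lit 1458) (nat_lit 8288584) (PL.cons (nat_lit 12203) (nat_lit 148913209) (nat_lit 1457) (nat_lit 8276381) (PL.cons (nat_lit 12197) (nat_lit 148766809) (nat_lit 1456) (nat_lit 8264184) (PL.cons (nat_lit 12163) (nat_lit 147938569) (nat_lit 1455) (nat_lit 8252021) (PL.cons (nat_lit 12161) (nat_lit 147889921) (nat_lit 1454) (nat_lit 8239860) (PL.cons (nat_lit 12157) (nat_lit 147792649) (nat_lit 1453) (nat_lit 8227703) (PL.cons (nat_lit 12149) (nat_lit 147598201) (nat_lit 1452) (nat_lit 8215554) (PL.cons (nat_lit 12143) (nat_lit 147452449) (nat_lit 1451) (nat_lit 8203411) (PL.cons (nat_lit 12119) (nat_lit 146870161) (nat_lit 1450) (nat_lit 8191292) (PL.cons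 (nat_lit 12113) (nat_lit 146724769) (nat_lit 1449) (nat_lit 8179179) (PL.cons (nat_lit 12109) (nat_lit 146627881) (nat_lit 1448) (nat_lit 8167070) (PL.cons (nat_lit 12107) (nat_lit 146579449) (nat_lit 1447) (nat_lit 8154963) (PL.cons (nat_lit 12101) (nat_lit 146434201) (nat_lit 1446) (nat_lit 8142862) (PL.cons (nat_lit 12097) (nat_lit 146337409) (nat_lit 1445) (nat_lit 8130765) (PL.cons (nat_lit 12073) (nat_lit 145757329) (nat_lit 1444) (nat_lit 8118692) (PL.cons (nat_lit 12071) (nat_lit 145709041) (nat_lit 1443) (nat_lit 8106621) (PL.cons (nat_lit 12049) (nat_lit 145178401) (nat_lit 1442) (nat_lit 8094572) (PL.cons (nat_lit 12043) (nat_lit 145033849) (nat_lit 1441) (nat_lit 8082529) (PL.cons (nat_lit 12041) (nat_lit 144985681) (nat_lit 1440) (nat_lit 8070488) (PL.cons (nat_lit 12037) (nat_lit 144889369) (nat_lit 1439) (nat_lit 8058451) (PL.cons (nat_lit 12011) (nat_lit 144264121) (nat_lit 1438) (nat_lit 8046440) (PL.cons (nat_lit 12007) (nat_lit 144168049) (nat_lit 1437)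 (nat_lit 8034433) (PL.cons (nat_lit 11987) (nat_lit 143688169) (nat_lit 1436) (nat_lit 8022446) (PL.cons (nat_lit 11981) (nat_lit 143544361) (nat_lit 1435) (nat_lit 8010465) (PL.cons (nat_lit 11971) (nat_lit 143304841) (nat_lit 1434) (nat_lit 7998494) (PL.cons (nat_lit 11969) (nat_lit 143256961) (nat_lit 1433) (nat_lit 7986525) (PL.cons (nat_lit 11959) (nat_lit 143017681) (nat_lit 1432) (nat_lit 7974566) (PL.cons (nat_lit 11953) (nat_lit 142874209) (nat_lit 1431) (nat_lit 7962613) (PL.cons (nat_lit 11941) (nat_lit 142587481) (nat_lit 1430) (nat_lit 7950672) (PL.cons (nat_lit 11939) (nat_lit 142539721) (nat_lit 1429) (nat_lit 7938733) (PL.cons (nat_lit 11933) (nat_lit 142396489) (nat_lit 1428) (nat_lit 7926800) (PL.cons (nat_lit 11927) (nat_lit 142253329) (nat_lit 1427) (nat_lit 7914873) (PL.cons (nat_lit 11923) (nat_lit 142157929) (nat_lit 1426) (nat_lit 7902950) L12))))))))))))))))))))))))))))))))))))))))))))))))))))))))))))))))))))))))))))))))))))))))))))))))))))))))))))))))))))))))))))))))))))))))))))))))))))))))))))))))))))))))))))))))))))))))))))))))))))))))))))))))))))))))))))))))))))))))))))))))))))))))))))))))))))))))))))))))))))))))))))))))))))))))))))))))))))))))))))))))))))))))))))))))))))))))))))))))))))))))))))))))))))))))))))))))))))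

def L14 : PL := (PL.cons (nat_lit 19433) (nat_lit 377641489) (nat_lit 2201) (nat_lit 19988391) (PL.cons (nat_lit 19429) (nat_lit 377486041) (nat_lit 2200) (nat_lit 19968962) (PL.cons (nat_lit 19427) (nat_lit 377408329) (nat_lit 2199) (nat_lit 19949535) (PL.cons (nat_lit 19423) (nat_lit 377252929) (nat_lit 2198) (nat_lit 19930112) (PL.cons (nat_lit 19421) (nat_lit 377175241) (nat_lit 2197) (nat_lit 19910691) (PL.cons (nat_lit 19417) (nat_lit 377019889) (nat_lit 2196) (nat_lit 19891274) (PL.cons (nat_lit 19403) (nat_lit 376476409) (nat_lit 2195) (nat_lit 19871871) (PL.cons (nat_lit 19391) (nat_lit 376010881) (nat_lit 2194) (nat_lit 19852480) (PL.cons (nat_lit 19387) (nat_lit 375855769) (nat_lit 2193) (nat_lit 19833093) (PL.cons (nat_lit 19381) (nat_lit 375623161) (nat_lit 2192) (nat_lit 19813712) (PL.cons (nat_lit 19379) (nat_lit 375545641) (nat_lit 2191) (nat_lit 19794333) (PL.cons (nat_lit 19373) (nat_lit 375313129) (nat_lit 2190) (nat_lit 19774960) (PL.cons (nat_lit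 19333) (nat_lit 373764889) (nat_lit 2189) (nat_lit 19755627) (PL.cons (nat_lit 19319) (nat_lit 373223761) (nat_lit 2188) (nat_lit 19736308) (PL.cons (nat_lit 19309) (nat_lit 372837481) (nat_lit 2187) (nat_lit 19716999) (PL.cons (nat_lit 19301) (nat_lit 372528601) (nat_lit 2186) (nat_lit 19697698) (PL.cons (nat_lit 19289) (nat_lit 372065521) (nat_lit 2185) (nat_lit 19678409) (PL.cons (nat_lit 19273) (nat_lit 371448529) (nat_lit 2184) (nat_lit 19659136) (PL.cons (nat_lit 19267) (nat_lit 371217289) (nat_lit 2183) (nat_lit 19639869) (PL.cons (nat_lit 19259) (nat_lit 370909081) (nat_lit 2182) (nat_lit 19620610) (PL.cons (nat_lit 19249) (nat_lit 370524001) (nat_lit 2181) (nat_lit 19601361) (PL.cons (nat_lit 19237) (nat_lit 370062169) (nat_lit 2180) (nat_lit 19582124) (PL.cons (nat_lit 19231) (nat_lit 369831361) (nat_lit 2179) (nat_lit 19562893) (PL.cons (nat_lit 19219) (nat_lit 369369961) (nat_lit 2178) (nat_lit 19543674) (PL.cons (nat_lit 19213) (nat_lit 369139369) (nat_lit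 2177) (nat_lit 19524461) (PL.cons (nat_lit 19211) (nat_lit 369062521) (nat_lit 2176) (nat_lit 19505250) (PL.cons (nat_lit 19207) (nat_lit 368908849) (nat_lit 2175) (nat_lit 19486043) (PL.cons (nat_lit 19183) (nat_lit 367987489) (nat_lit 2174) (nat_lit 19466860) (PL.cons (nat_lit 19181) (nat_lit 367910761) (nat_lit 2173) (nat_lit 19447679) (PL.cons (nat_lit 19163) (nat_lit 367220569) (nat_lit 2172) (nat_lit 19428516) (PL.cons (nat_lit 19157) (nat_lit 366990649) (nat_lit 2171) (nat_lit 19409359) (PL.cons (nat_lit 19141) (nat_lit 366377881) (nat_lit 2170) (nat_lit 19390218) (PL.cons (nat_lit 19139) (nat_lit 366301321) (nat_lit 2169) (nat_lit 19371079) (PL.cons (nat_lit 19121) (nat_lit 365612641) (nat_lit 2168) (nat_lit 19351958) (PL.cons (nat_lit 19087) (nat_lit 364313569) (nat_lit 2167) (nat_lit 19332871) (PL.cons (nat_lit 19081) (nat_lit 364084561) (nat_lit 2166) (nat_lit 19313790) (PL.cons (nat_lit 19079) (nat_lit 364008241) (nat_lit 2165) (nat_lit 19294711) (PL.cons (nat_lit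 19073) (nat_lit 363779329) (nat_lit 2164) (nat_lit 19275638) (PL.cons (nat_lit 19069) (nat_lit 363626761) (nat_lit 2163) (nat_lit 19256569) (PL.cons (nat_lit 19051) (nat_lit 362940601) (nat_lit 2162) (nat_lit 19237518) (PL.cons (nat_lit 19037) (nat_lit 362407369) (nat_lit 2161) (nat_lit 19218481) (PL.cons (nat_lit 19031) (nat_lit 362178961) (nat_lit 2160) (nat_lit 19199450) (PL.cons (nat_lit 19013) (nat_lit 361494169) (nat_lit 2159) (nat_lit 19180437) (PL.cons (nat_lit 19009) (nat_lit 361342081) (nat_lit 2158) (nat_lit 19161428) (PL.cons (nat_lit 19001) (nat_lit 361038001) (nat_lit 2157) (nat_lit 19142427) (PL.cons (nat_lit 18979) (nat_lit 360202441) (nat_lit 2156) (nat_lit 19123448) (PL.cons (nat_lit 18973) (nat_lit 359974729) (nat_lit 2155) (nat_lit 19104475) (PL.cons (nat_lit 18959) (nat_lit 359443681) (nat_lit 2154) (nat_lit 19085516) (PL.cons (nat_lit 18947) (nat_lit 358988809) (nat_lit 2153) (nat_lit 19066569) (PL.cons (nat_lit 18919) (nat_lit 357928561) (nat_lit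 2152) (nat_lit 19047650) (PL.cons (nat_lit 18917) (nat_lit 357852889) (nat_lit 2151) (nat_lit 19028733) (PL.cons (nat_lit 18913) (nat_lit 357701569) (nat_lit 2150) (nat_lit 19009820) (PL.cons (nat_lit 18911) (nat_lit 357625921) (nat_lit 2149) (nat_lit 18990909) (PL.cons (nat_lit 18899) (nat_lit 357172201) (nat_lit 2148) (nat_lit 18972010) (PL.cons (nat_lit 18869) (nat_lit 356039161) (nat_lit 2147) (nat_lit 18953141) (PL.cons (nat_lit 18859) (nat_lit 355661881) (nat_lit 2146) (nat_lit 18934282) (PL.cons (nat_lit 18839) (nat_lit 354907921) (nat_lit 2145) (nat_lit 18915443) (PL.cons (nat_lit 18803) (nat_lit 353552809) (nat_lit 2144) (nat_lit 18896640) (PL.cons (nat_lit 18797) (nat_lit 353327209) (nat_lit 2143) (nat_lit 18877843) (PL.cons (nat_lit 18793) (nat_lit 353176849) (nat_lit 2142) (nat_lit 18859050) (PL.cons (nat_lit 18787) (nat_lit 352951369) (nat_lit 2141) (nat_lit 18840263) (PL.cons (nat_lit 18773) (nat_lit 352425529) (nat_lit 2140) (nat_lit 18821490) (PL.cons (nat_lit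 18757) (nat_lit 351825049) (nat_lit 2139) (nat_lit 18802733) (PL.cons (nat_lit 18749) (nat_lit 351525001) (nat_lit 2138) (nat_lit 18783984) (PL.cons (nat_lit 18743) (nat_lit 351300049) (nat_lit 2137) (nat_lit 18765241) (PL.cons (nat_lit 18731) (nat_lit 350850361) (nat_lit 2136) (nat_lit 18746510) (PL.cons (nat_lit 18719) (nat_lit 350400961) (nat_lit 2135) (nat_lit 18727791) (PL.cons (nat_lit 18713) (nat_lit 350176369) (nat_lit 2134) (nat_lit 18709078) (PL.cons (nat_lit 18701) (nat_lit 349727401) (nat_lit 2133) (nat_lit 18690377) (PL.cons (nat_lit 18691) (nat_lit 349353481) (nat_lit 2132) (nat_lit 18671686) (PL.cons (nat_lit 18679) (nat_lit 348905041) (nat_lit 2131) (nat_lit 18653007) (PL.cons (nat_lit 18671) (nat_lit 348606241) (nat_lit 2130) (nat_lit 18634336) (PL.cons (nat_lit 18661) (nat_lit 348232921) (nat_lit 2129) (nat_lit 18615675) (PL.cons (nat_lit 18637) (nat_lit 347337769) (nat_lit 2128) (nat_lit 18597038) (PL.cons (nat_lit 18617) (nat_lit 346592689) (nat_lit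 2127) (nat_lit 18578421) (PL.cons (nat_lit 18593) (nat_lit 345699649) (nat_lit 2126) (nat_lit 18559828) (PL.cons (nat_lit 18587) (nat_lit 345476569) (nat_lit 2125) (nat_lit 18541241) (PL.cons (nat_lit 18583) (nat_lit 345327889) (nat_lit 2124) (nat_lit 18522658) (PL.cons (nat_lit 18553) (nat_lit 344213809) (nat_lit 2123) (nat_lit 18504105) (PL.cons (nat_lit 18541) (nat_lit 343768681) (nat_lit 2122) (nat_lit 18485564) (PL.cons (nat_lit 18539) (nat_lit 343694521) (nat_lit 2121) (nat_lit 18467025) (PL.cons (nat_lit 18523) (nat_lit 343101529) (nat_lit 2120) (nat_lit 18448502) (PL.cons (nat_lit 18521) (nat_lit 343027441) (nat_lit 2119) (nat_lit 18429981) (PL.cons (nat_lit 18517) (nat_lit 342879289) (nat_lit 2118) (nat_lit 18411464) (PL.cons (nat_lit 18503) (nat_lit 342361009) (nat_lit 2117) (nat_lit 18392961) (PL.cons (nat_lit 18493) (nat_lit 341991049) (nat_lit 2116) (nat_lit 18374468) (PL.cons (nat_lit 18481) (nat_lit 341547361) (nat_lit 2115) (nat_lit 18355987) (PL.cons (nat_lit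 18461) (nat_lit 340808521) (nat_lit 2114) (nat_lit 18337526) (PL.cons (nat_lit 18457) (nat_lit 340660849) (nat_lit 2113) (nat_lit 18319069) (PL.cons (nat_lit 18451) (nat_lit 340439401) (nat_lit 2112) (nat_lit 18300618) (PL.cons (nat_lit 18443) (nat_lit 340144249) (nat_lit 2111) (nat_lit 18282175) (PL.cons (nat_lit 18439) (nat_lit 339996721) (nat_lit 2110) (nat_lit 18263736) (PL.cons (nat_lit 18433) (nat_lit 339775489) (nat_lit 2109) (nat_lit 18245303) (PL.cons (nat_lit 18427) (nat_lit 339554329) (nat_lit 2108) (nat_lit 18226876) (PL.cons (nat_lit 18413) (nat_lit 339038569) (nat_lit 2107) (nat_lit 18208463) (PL.cons (nat_lit 18401) (nat_lit 338596801) (nat_lit 2106) (nat_lit 18190062) (PL.cons (nat_lit 18397) (nat_lit 338449609) (nat_lit 2105) (nat_lit 18171665) (PL.cons (nat_lit 18379) (nat_lit 337787641) (nat_lit 2104) (nat_lit 18153286) (PL.cons (nat_lit 18371) (nat_lit 337493641) (nat_lit 2103) (nat_lit 18134915) (PL.cons (nat_lit 18367) (nat_lit 337346689) (nat_lit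 2102) (nat_lit 18116548) (PL.cons (nat_lit 18353) (nat_lit 336832609) (nat_lit 2101) (nat_lit 18098195) (PL.cons (nat_lit 18341) (nat_lit 336392281) (nat_lit 2100) (nat_lit 18079854) (PL.cons (nat_lit 18329) (nat_lit 335952241) (nat_lit 2099) (nat_lit 18061525) (PL.cons (nat_lit 18313) (nat_lit 335365969) (nat_lit 2098) (nat_lit 18043212) (PL.cons (nat_lit 18311) (nat_lit 335292721) (nat_lit 2097) (nat_lit 18024901) (PL.cons (nat_lit 18307) (nat_lit 335146249) (nat_lit 2096) (nat_lit 18006594) (PL.cons (nat_lit 18301) (nat_lit 334926601) (nat_lit 2095) (nat_lit 17988293) (PL.cons (nat_lit 18289) (nat_lit 334487521) (nat_lit 2094) (nat_lit 17970004) (PL.cons (nat_lit 18287) (nat_lit 334414369) (nat_lit 2093) (nat_lit 17951717) (PL.cons (nat_lit 18269) (nat_lit 333756361) (nat_lit 2092) (nat_lit 17933448) (PL.cons (nat_lit 18257) (nat_lit 333318049) (nat_lit 2091) (nat_lit 17915191) (PL.cons (nat_lit 18253) (nat_lit 333172009) (nat_lit 2090) (nat_lit 17896938) (PL.cons (nat_lit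 18251) (nat_lit 333099001) (nat_lit 2089) (nat_lit 17878687) (PL.cons (nat_lit 18233) (nat_lit 332442289) (nat_lit 2088) (nat_lit 17860454) (PL.cons (nat_lit 18229) (nat_lit 332296441) (nat_lit 2087) (nat_lit 17842225) (PL.cons (nat_lit 18223) (nat_lit 332077729) (nat_lit 2086) (nat_lit 17824002) (PL.cons (nat_lit 18217) (nat_lit 331859089) (nat_lit 2085) (nat_lit 17805785) (PL.cons (nat_lit 18211) (nat_lit 331640521) (nat_lit 2084) (nat_lit 17787574) (PL.cons (nat_lit 18199) (nat_lit 331203601) (nat_lit 2083) (nat_lit 17769375) (PL.cons (nat_lit 18191) (nat_lit 330912481) (nat_lit 2082) (nat_lit 17751184) (PL.cons (nat_lit 18181) (nat_lit 330548761) (nat_lit 2081) (nat_lit 17733003) (PL.cons (nat_lit 18169) (nat_lit 330112561) (nat_lit 2080) (nat_lit 17714834) (PL.cons (nat_lit 18149) (nat_lit 329386201) (nat_lit 2079) (nat_lit 17696685) (PL.cons (nat_lit 18143) (nat_lit 329168449) (nat_lit 2078) (nat_lit 17678542) (PL.cons (nat_lit 18133) (nat_lit 328805689) (nat_lit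 2077) (nat_lit 17660409) (PL.cons (nat_lit 18131) (nat_lit 328733161) (nat_lit 2076) (nat_lit 17642278) (PL.cons (nat_lit 18127) (nat_lit 328588129) (nat_lit 2075) (nat_lit 17624151) (PL.cons (nat_lit 18121) (nat_lit 328370641) (nat_lit 2074) (nat_lit 17606030) (PL.cons (nat_lit 18119) (nat_lit 328298161) (nat_lit 2073) (nat_lit 17587911) (PL.cons (nat_lit 18097) (nat_lit 327501409) (nat_lit 2072) (nat_lit 17569814) (PL.cons (nat_lit 18089) (nat_lit 327211921) (nat_lit 2071) (nat_lit 17551725) (PL.cons (nat_lit 18077) (nat_lit 326777929) (nat_lit 2070) (nat_lit 17533648) (PL.cons (nat_lit 18061) (nat_lit 326199721) (nat_lit 2069) (nat_lit 17515587) (PL.cons (nat_lit 18059) (nat_lit 326127481) (nat_lit 2068) (nat_lit 17497528) (PL.cons (nat_lit 18049) (nat_lit 325766401) (nat_lit 2067) (nat_lit 17479479) (PL.cons (nat_lit 18047) (nat_lit 325694209) (nat_lit 2066) (nat_lit 17461432) (PL.cons (nat_lit 18043) (nat_lit 325549849) (nat_lit 2065) (nat_lit 17443389) (PL.cons (nat_lit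 18041) (nat_lit 325477681) (nat_lit 2064) (nat_lit 17425348) (PL.cons (nat_lit 18013) (nat_lit 324468169) (nat_lit 2063) (nat_lit 17407335) (PL.cons (nat_lit 17989) (nat_lit 323604121) (nat_lit 2062) (nat_lit 17389346) (PL.cons (nat_lit 17987) (nat_lit 323532169) (nat_lit 2061) (nat_lit 17371359) (PL.cons (nat_lit 17981) (nat_lit 323316361) (nat_lit 2060) (nat_lit 17353378) (PL.cons (nat_lit 17977) (nat_lit 323172529) (nat_lit 2059) (nat_lit 17335401) (PL.cons (nat_lit 17971) (nat_lit 322956841) (nat_lit 2058) (nat_lit 17317430) (PL.cons (nat_lit 17959) (nat_lit 322525681) (nat_lit 2057) (nat_lit 17299471) (PL.cons (nat_lit 17957) (nat_lit 322453849) (nat_lit 2056) (nat_lit 17281514) (PL.cons (nat_lit 17939) (nat_lit 321807721) (nat_lit 2055) (nat_lit 17263575) (PL.cons (nat_lit 17929) (nat_lit 321449041) (nat_lit 2054) (nat_lit 17245646) (PL.cons (nat_lit 17923) (nat_lit 321233929) (nat_lit 2053) (nat_lit 17227723) (PL.cons (nat_lit 17921) (nat_lit 321162241) (nat_lit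 2052) (nat_lit 17209802) (PL.cons (nat_lit 17911) (nat_lit 320803921) (nat_lit 2051) (nat_lit 17191891) (PL.cons (nat_lit 17909) (nat_lit 320732281) (nat_lit 2050) (nat_lit 17173982) (PL.cons (nat_lit 17903) (nat_lit 320517409) (nat_lit 2049) (nat_lit 17156079) (PL.cons (nat_lit 17891) (nat_lit 320087881) (nat_lit 2048) (nat_lit 17138188) (PL.cons (nat_lit 17881) (nat_lit 319730161) (nat_lit 2047) (nat_lit 17120307) (PL.cons (nat_lit 17863) (nat_lit 319086769) (nat_lit 2046) (nat_lit 17102444) (PL.cons (nat_lit 17851) (nat_lit 318658201) (nat_lit 2045) (nat_lit 17084593) (PL.cons (nat_lit 17839) (nat_lit 318229921) (nat_lit 2044) (nat_lit 17066754) (PL.cons (nat_lit 17837) (nat_lit 318158569) (nat_lit 2043) (nat_lit 17048917) (PL.cons (nat_lit 17827) (nat_lit 317801929) (nat_lit 2042) (nat_lit 17031090) (PL.cons (nat_lit 17807) (nat_lit 317089249) (nat_lit 2041) (nat_lit 17013283) (PL.cons (nat_lit 17791) (nat_lit 316519681) (nat_lit 2040) (nat_lit 16995492) (PL.cons (nat_lit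 17789) (nat_lit 316448521) (nat_lit 2039) (nat_lit 16977703) (PL.cons (nat_lit 17783) (nat_lit 316235089) (nat_lit 2038) (nat_lit 16959920) (PL.cons (nat_lit 17761) (nat_lit 315453121) (nat_lit 2037) (nat_lit 16942159) (PL.cons (nat_lit 17749) (nat_lit 315027001) (nat_lit 2036) (nat_lit 16924410) (PL.cons (nat_lit 17747) (nat_lit 314956009) (nat_lit 2035) (nat_lit 16906663) (PL.cons (nat_lit 17737) (nat_lit 314601169) (nat_lit 2034) (nat_lit 16888926) (PL.cons (nat_lit 17729) (nat_lit 314317441) (nat_lit 2033) (nat_lit 16871197) (PL.cons (nat_lit 17713) (nat_lit 313750369) (nat_lit 2032) (nat_lit 16853484) (PL.cons (nat_lit 17707) (nat_lit 313537849) (nat_lit 2031) (nat_lit 16835777) (PL.cons (nat_lit 17683) (nat_lit 312688489) (nat_lit 2030) (nat_lit 16818094) (PL.cons (nat_lit 17681) (nat_lit 312617761) (nat_lit 2029) (nat_lit 16800413) (PL.cons (nat_lit 17669) (nat_lit 312193561) (nat_lit 2028) (nat_lit 16782744) (PL.cons (nat_lit 17659) (nat_lit 311840281) (nat_lit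 2027) (nat_lit 16765085) (PL.cons (nat_lit 17657) (nat_lit 311769649) (nat_lit 2026) (nat_lit 16747428) (PL.cons (nat_lit 17627) (nat_lit 310711129) (nat_lit 2025) (nat_lit 16729801) (PL.cons (nat_lit 17623) (nat_lit 310570129) (nat_lit 2024) (nat_lit 16712178) (PL.cons (nat_lit 17609) (nat_lit 310076881) (nat_lit 2023) (nat_lit 16694569) (PL.cons (nat_lit 17599) (nat_lit 309724801) (nat_lit 2022) (nat_lit 16676970) (PL.cons (nat_lit 17597) (nat_lit 309654409) (nat_lit 2021) (nat_lit 16659373) (PL.cons (nat_lit 17581) (nat_lit 309091561) (nat_lit 2020) (nat_lit 16641792) (PL.cons (nat_lit 17579) (nat_lit 309021241) (nat_lit 2019) (nat_lit 16624213) (PL.cons (nat_lit 17573) (nat_lit 308810329) (nat_lit 2018) (nat_lit 16606640) (PL.cons (nat_lit 17569) (nat_lit 308669761) (nat_lit 2017) (nat_lit 16589071) (PL.cons (nat_lit 17551) (nat_lit 308037601) (nat_lit 2016) (nat_lit 16571520) (PL.cons (nat_lit 17539) (nat_lit 307616521) (nat_lit 2015) (nat_lit 16553981) (PL.cons (nat_lit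 17519) (nat_lit 306915361) (nat_lit 2014) (nat_lit 16536462) (PL.cons (nat_lit 17509) (nat_lit 306565081) (nat_lit 2013) (nat_lit 16518953) (PL.cons (nat_lit 17497) (nat_lit 306145009) (nat_lit 2012) (nat_lit 16501456) (PL.cons (nat_lit 17491) (nat_lit 305935081) (nat_lit 2011) (nat_lit 16483965) (PL.cons (nat_lit 17489) (nat_lit 305865121) (nat_lit 2010) (nat_lit 16466476) (PL.cons (nat_lit 17483) (nat_lit 305655289) (nat_lit 2009) (nat_lit 16448993) (PL.cons (nat_lit 17477) (nat_lit 305445529) (nat_lit 2008) (nat_lit 16431516) (PL.cons (nat_lit 17471) (nat_lit 305235841) (nat_lit 2007) (nat_lit 16414045) (PL.cons (nat_lit 17467) (nat_lit 305096089) (nat_lit 2006) (nat_lit 16396578) (PL.cons (nat_lit 17449) (nat_lit 304467601) (nat_lit 2005) (nat_lit 16379129) (PL.cons (nat_lit 17443) (nat_lit 304258249) (nat_lit 2004) (nat_lit 16361686) (PL.cons (nat_lit 17431) (nat_lit 303839761) (nat_lit 2003) (nat_lit 16344255) (PL.cons (nat_lit 17419) (nat_lit 303421561) (nat_lit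 2002) (nat_lit 16326836) (PL.cons (nat_lit 17417) (nat_lit 303351889) (nat_lit 2001) (nat_lit 16309419) (PL.cons (nat_lit 17401) (nat_lit 302794801) (nat_lit 2000) (nat_lit 16292018) (PL.cons (nat_lit 17393) (nat_lit 302516449) (nat_lit 1999) (nat_lit 16274625) (PL.cons (nat_lit 17389) (nat_lit 302377321) (nat_lit 1998) (nat_lit 16257236) (PL.cons (nat_lit 17387) (nat_lit 302307769) (nat_lit 1997) (nat_lit 16239849) (PL.cons (nat_lit 17383) (nat_lit 302168689) (nat_lit 1996) (nat_lit 16222466) (PL.cons (nat_lit 17377) (nat_lit 301960129) (nat_lit 1995) (nat_lit 16205089) (PL.cons (nat_lit 17359) (nat_lit 301334881) (nat_lit 1994) (nat_lit 16187730) (PL.cons (nat_lit 17351) (nat_lit 301057201) (nat_lit 1993) (nat_lit 16170379) (PL.cons (nat_lit 17341) (nat_lit 300710281) (nat_lit 1992) (nat_lit 16153038) (PL.cons (nat_lit 17333) (nat_lit 300432889) (nat_lit 1991) (nat_lit 16135705) (PL.cons (nat_lit 17327) (nat_lit 300224929) (nat_lit 1990) (nat_lit 16118378) (PL.cons (nat_lit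 17321) (nat_lit 300017041) (nat_lit 1989) (nat_lit 16101057) (PL.cons (nat_lit 17317) (nat_lit 299878489) (nat_lit 1988) (nat_lit 16083740) (PL.cons (nat_lit 17299) (nat_lit 299255401) (nat_lit 1987) (nat_lit 16066441) (PL.cons (nat_lit 17293) (nat_lit 299047849) (nat_lit 1986) (nat_lit 16049148) (PL.cons (nat_lit 17291) (nat_lit 298978681) (nat_lit 1985) (nat_lit 16031857) (PL.cons (nat_lit 17257) (nat_lit 297804049) (nat_lit 1984) (nat_lit 16014600) (PL.cons (nat_lit 17239) (nat_lit 297183121) (nat_lit 1983) (nat_lit 15997361) (PL.cons (nat_lit 17231) (nat_lit 296907361) (nat_lit 1982) (nat_lit 15980130) (PL.cons (nat_lit 17209) (nat_lit 296149681) (nat_lit 1981) (nat_lit 15962921) (PL.cons (nat_lit 17207) (nat_lit 296080849) (nat_lit 1980) (nat_lit 15945714) (PL.cons (nat_lit 17203) (nat_lit 295943209) (nat_lit 1979) (nat_lit 15928511) (PL.cons (nat_lit 17191) (nat_lit 295530481) (nat_lit 1978) (nat_lit 15911320) (PL.cons (nat_lit 17189) (nat_lit 295461721) (nat_lit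 1977) (nat_lit 15894131) (PL.cons (nat_lit 17183) (nat_lit 295255489) (nat_lit 1976) (nat_lit 15876948) (PL.cons (nat_lit 17167) (nat_lit 294705889) (nat_lit 1975) (nat_lit 15859781) (PL.cons (nat_lit 17159) (nat_lit 294431281) (nat_lit 1974) (nat_lit 15842622) (PL.cons (nat_lit 17137) (nat_lit 293676769) (nat_lit 1973) (nat_lit 15825485) (PL.cons (nat_lit 17123) (nat_lit 293197129) (nat_lit 1972) (nat_lit 15808362) (PL.cons (nat_lit 17117) (nat_lit 292991689) (nat_lit 1971) (nat_lit 15791245) (PL.cons (nat_lit 17107) (nat_lit 292649449) (nat_lit 1970) (nat_lit 15774138) (PL.cons (nat_lit 17099) (nat_lit 292375801) (nat_lit 1969) (nat_lit 15757039) (PL.cons (nat_lit 17093) (nat_lit 292170649) (nat_lit 1968) (nat_lit 15739946) (PL.cons (nat_lit 17077) (nat_lit 291623929) (nat_lit 1967) (nat_lit 15722869) (PL.cons (nat_lit 17053) (nat_lit 290804809) (nat_lit 1966) (nat_lit 15705816) (PL.cons (nat_lit 17047) (nat_lit 290600209) (nat_lit 1965) (nat_lit 15688769) (PL.cons (nat_lit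 17041) (nat_lit 290395681) (nat_lit 1964) (nat_lit 15671728) (PL.cons (nat_lit 17033) (nat_lit 290123089) (nat_lit 1963) (nat_lit 15654695) (PL.cons (nat_lit 17029) (nat_lit 289986841) (nat_lit 1962) (nat_lit 15637666) (PL.cons (nat_lit 17027) (nat_lit 289918729) (nat_lit 1961) (nat_lit 15620639) (PL.cons (nat_lit 17021) (nat_lit 289714441) (nat_lit 1960) (nat_lit 15603618) (PL.cons (nat_lit 17011) (nat_lit 289374121) (nat_lit 1959) (nat_lit 15586607) (PL.cons (nat_lit 16993) (nat_lit 288762049) (nat_lit 1958) (nat_lit 15569614) (PL.cons (nat_lit 16987) (nat_lit 288558169) (nat_lit 1957) (nat_lit 15552627) (PL.cons (nat_lit 16981) (nat_lit 288354361) (nat_lit 1956) (nat_lit 15535646) (PL.cons (nat_lit 16979) (nat_lit 288286441) (nat_lit 1955) (nat_lit 15518667) (PL.cons (nat_lit 16963) (nat_lit 287743369) (nat_lit 1954) (nat_lit 15501704) (PL.cons (nat_lit 16943) (nat_lit 287065249) (nat_lit 1953) (nat_lit 15484761) (PL.cons (nat_lit 16937) (nat_lit 286861969) (nat_lit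 1952) (nat_lit 15467824) (PL.cons (nat_lit 16931) (nat_lit 286658761) (nat_lit 1951) (nat_lit 15450893) (PL.cons (nat_lit 16927) (nat_lit 286523329) (nat_lit 1950) (nat_lit 15433966) (PL.cons (nat_lit 16921) (nat_lit 286320241) (nat_lit 1949) (nat_lit 15417045) (PL.cons (nat_lit 16903) (nat_lit 285711409) (nat_lit 1948) (nat_lit 15400142) (PL.cons (nat_lit 16901) (nat_lit 285643801) (nat_lit 1947) (nat_lit 15383241) (PL.cons (nat_lit 16889) (nat_lit 285238321) (nat_lit 1946) (nat_lit 15366352) (PL.cons (nat_lit 16883) (nat_lit 285035689) (nat_lit 1945) (nat_lit 15349469) (PL.cons (nat_lit 16879) (nat_lit 284900641) (nat_lit 1944) (nat_lit 15332590) (PL.cons (nat_lit 16871) (nat_lit 284630641) (nat_lit 1943) (nat_lit 15315719) (PL.cons (nat_lit 16843) (nat_lit 283686649) (nat_lit 1942) (nat_lit 15298876) (PL.cons (nat_lit 16831) (nat_lit 283282561) (nat_lit 1941) (nat_lit 15282045) (PL.cons (nat_lit 16829) (nat_lit 283215241) (nat_lit 1940) (nat_lit 15265216) (PL.cons (nat_lit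 16823) (nat_lit 283013329) (nat_lit 1939) (nat_lit 15248393) (PL.cons (nat_lit 16811) (nat_lit 282609721) (nat_lit 1938) (nat_lit 15231582) (PL.cons (nat_lit 16787) (nat_lit 281803369) (nat_lit 1937) (nat_lit 15214795) (PL.cons (nat_lit 16763) (nat_lit 280998169) (nat_lit 1936) (nat_lit 15198032) (PL.cons (nat_lit 16759) (nat_lit 280864081) (nat_lit 1935) (nat_lit 15181273) (PL.cons (nat_lit 16747) (nat_lit 280462009) (nat_lit 1934) (nat_lit 15164526) (PL.cons (nat_lit 16741) (nat_lit 280261081) (nat_lit 1933) (nat_lit 15147785) (PL.cons (nat_lit 16729) (nat_lit 279859441) (nat_lit 1932) (nat_lit 15131056) (PL.cons (nat_lit 16703) (nat_lit 278990209) (nat_lit 1931) (nat_lit 15114353) (PL.cons (nat_lit 16699) (nat_lit 278856601) (nat_lit 1930) (nat_lit 15097654) (PL.cons (nat_lit 16693) (nat_lit 278656249) (nat_lit 1929) (nat_lit 15080961) (PL.cons (nat_lit 16691) (nat_lit 278589481) (nat_lit 1928) (nat_lit 15064270) (PL.cons (nat_lit 16673) (nat_lit 277988929) (nat_lit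 1927) (nat_lit 15047597) (PL.cons (nat_lit 16661) (nat_lit 277588921) (nat_lit 1926) (nat_lit 15030936) (PL.cons (nat_lit 16657) (nat_lit 277455649) (nat_lit 1925) (nat_lit 15014279) (PL.cons (nat_lit 16651) (nat_lit 277255801) (nat_lit 1924) (nat_lit 14997628) (PL.cons (nat_lit 16649) (nat_lit 277189201) (nat_lit 1923) (nat_lit 14980979) (PL.cons (nat_lit 16633) (nat_lit 276656689) (nat_lit 1922) (nat_lit 14964346) (PL.cons (nat_lit 16631) (nat_lit 276590161) (nat_lit 1921) (nat_lit 14947715) (PL.cons (nat_lit 16619) (nat_lit 276191161) (nat_lit 1920) (nat_lit 14931096) (PL.cons (nat_lit 16607) (nat_lit 275792449) (nat_lit 1919) (nat_lit 14914489) (PL.cons (nat_lit 16603) (nat_lit 275659609) (nat_lit 1918) (nat_lit 14897886) (PL.cons (nat_lit 16573) (nat_lit 274664329) (nat_lit 1917) (nat_lit 14881313) (PL.cons (nat_lit 16567) (nat_lit 274465489) (nat_lit 1916) (nat_lit 14864746) (PL.cons (nat_lit 16561) (nat_lit 274266721) (nat_lit 1915) (nat_lit 14848185) (PL.cons (nat_lit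 16553) (nat_lit 274001809) (nat_lit 1914) (nat_lit 14831632) (PL.cons (nat_lit 16547) (nat_lit 273803209) (nat_lit 1913) (nat_lit 14815085) (PL.cons (nat_lit 16529) (nat_lit 273207841) (nat_lit 1912) (nat_lit 14798556) (PL.cons (nat_lit 16519) (nat_lit 272877361) (nat_lit 1911) (nat_lit 14782037) (PL.cons (nat_lit 16493) (nat_lit 272019049) (nat_lit 1910) (nat_lit 14765544) (PL.cons (nat_lit 16487) (nat_lit 271821169) (nat_lit 1909) (nat_lit 14749057) (PL.cons (nat_lit 16481) (nat_lit 271623361) (nat_lit 1908) (nat_lit 14732576) (PL.cons (nat_lit 16477) (nat_lit 271491529) (nat_lit 1907) (nat_lit 14716099) (PL.cons (nat_lit 16453) (nat_lit 270701209) (nat_lit 1906) (nat_lit 14699646) (PL.cons (nat_lit 16451) (nat_lit 270635401) (nat_lit 1905) (nat_lit 14683195) (PL.cons (nat_lit 16447) (nat_lit 270503809) (nat_lit 1904) (nat_lit 14666748) (PL.cons (nat_lit 16433) (nat_lit 270043489) (nat_lit 1903) (nat_lit 14650315) (PL.cons (nat_lit 16427) (nat_lit 269846329) (nat_lit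 1902) (nat_lit 14633888) (PL.cons (nat_lit 16421) (nat_lit 269649241) (nat_lit 1901) (nat_lit 14617467) (PL.cons (nat_lit 16417) (nat_lit 269517889) (nat_lit 1900) (nat_lit 14601050) (PL.cons (nat_lit 16411) (nat_lit 269320921) (nat_lit 1899) (nat_lit 14584639) (PL.cons (nat_lit 16381) (nat_lit 268337161) (nat_lit 1898) (nat_lit 14568258) (PL.cons (nat_lit 16369) (nat_lit 267944161) (nat_lit 1897) (nat_lit 14551889) (PL.cons (nat_lit 16363) (nat_lit 267747769) (nat_lit 1896) (nat_lit 14535526) (PL.cons (nat_lit 16361) (nat_lit 267682321) (nat_lit 1895) (nat_lit 14519165) (PL.cons (nat_lit 16349) (nat_lit 267289801) (nat_lit 1894) (nat_lit 14502816) (PL.cons (nat_lit 16339) (nat_lit 266962921) (nat_lit 1893) (nat_lit 14486477) (PL.cons (nat_lit 16333) (nat_lit 266766889) (nat_lit 1892) (nat_lit 14470144) (PL.cons (nat_lit 16319) (nat_lit 266309761) (nat_lit 1891) (nat_lit 14453825) (PL.cons (nat_lit 16301) (nat_lit 265722601) (nat_lit 1890) (nat_lit 14437524) (PL.cons (nat_lit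 16273) (nat_lit 264810529) (nat_lit 1889) (nat_lit 14421251) (PL.cons (nat_lit 16267) (nat_lit 264615289) (nat_lit 1888) (nat_lit 14404984) (PL.cons (nat_lit 16253) (nat_lit 264160009) (nat_lit 1887) (nat_lit 14388731) (PL.cons (nat_lit 16249) (nat_lit 264030001) (nat_lit 1886) (nat_lit 14372482) (PL.cons (nat_lit 16231) (nat_lit 263445361) (nat_lit 1885) (nat_lit 14356251) (PL.cons (nat_lit 16229) (nat_lit 263380441) (nat_lit 1884) (nat_lit 14340022) (PL.cons (nat_lit 16223) (nat_lit 263185729) (nat_lit 1883) (nat_lit 14323799) (PL.cons (nat_lit 16217) (nat_lit 262991089) (nat_lit 1882) (nat_lit 14307582) (PL.cons (nat_lit 16193) (nat_lit 262213249) (nat_lit 1881) (nat_lit 14291389) (PL.cons (nat_lit 16189) (nat_lit 262083721) (nat_lit 1880) (nat_lit 14275200) (PL.cons (nat_lit 16187) (nat_lit 262018969) (nat_lit 1879) (nat_lit 14259013) (PL.cons (nat_lit 16183) (nat_lit 261889489) (nat_lit 1878) (nat_lit 14242830) (PL.cons (nat_lit 16141) (nat_lit 260531881) (nat_lit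 1877) (nat_lit 14226689) (PL.cons (nat_lit 16139) (nat_lit 260467321) (nat_lit 1876) (nat_lit 14210550) (PL.cons (nat_lit 16127) (nat_lit 260080129) (nat_lit 1875) (nat_lit 14194423) (PL.cons (nat_lit 16111) (nat_lit 259564321) (nat_lit 1874) (nat_lit 14178312) (PL.cons (nat_lit 16103) (nat_lit 259306609) (nat_lit 1873) (nat_lit 14162209) (PL.cons (nat_lit 16097) (nat_lit 259113409) (nat_lit 1872) (nat_lit 14146112) (PL.cons (nat_lit 16091) (nat_lit 258920281) (nat_lit 1871) (nat_lit 14130021) (PL.cons (nat_lit 16087) (nat_lit 258791569) (nat_lit 1870) (nat_lit 14113934) (PL.cons (nat_lit 16073) (nat_lit 258341329) (nat_lit 1869) (nat_lit 14097861) (PL.cons (nat_lit 16069) (nat_lit 258212761) (nat_lit 1868) (nat_lit 14081792) (PL.cons (nat_lit 16067) (nat_lit 258148489) (nat_lit 1867) (nat_lit 14065725) (PL.cons (nat_lit 16063) (nat_lit 258019969) (nat_lit 1866) (nat_lit 14049662) (PL.cons (nat_lit 16061) (nat_lit 257955721) (nat_lit 1865) (nat_lit 14033601) (PL.cons (nat_lit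 16057) (nat_lit 257827249) (nat_lit 1864) (nat_lit 14017544) (PL.cons (nat_lit 16033) (nat_lit 257057089) (nat_lit 1863) (nat_lit 14001511) (PL.cons (nat_lit 16007) (nat_lit 256224049) (nat_lit 1862) (nat_lit 13985504) (PL.cons (nat_lit 16001) (nat_lit 256032001) (nat_lit 1861) (nat_lit 13969503) (PL.cons (nat_lit 15991) (nat_lit 255712081) (nat_lit 1860) (nat_lit 13953512) (PL.cons (nat_lit 15973) (nat_lit 255136729) (nat_lit 1859) (nat_lit 13937539) (PL.cons (nat_lit 15971) (nat_lit 255072841) (nat_lit 1858) (nat_lit 13921568) (PL.cons (nat_lit 15959) (nat_lit 254689681) (nat_lit 1857) (nat_lit 13905609) (PL.cons (nat_lit 15937) (nat_lit 253987969) (nat_lit 1856) (nat_lit 13889672) (PL.cons (nat_lit 15923) (nat_lit 253541929) (nat_lit 1855) (nat_lit 13873749) (PL.cons (nat_lit 15919) (nat_lit 253414561) (nat_lit 1854) (nat_lit 13857830) (PL.cons (nat_lit 15913) (nat_lit 253223569) (nat_lit 1853) (nat_lit 13841917) (PL.cons (nat_lit 15907) (nat_lit 253032649) (nat_lit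 1852) (nat_lit 13826010) (PL.cons (nat_lit 15901) (nat_lit 252841801) (nat_lit 1851) (nat_lit 13810109) (PL.cons (nat_lit 15889) (nat_lit 252460321) (nat_lit 1850) (nat_lit 13794220) (PL.cons (nat_lit 15887) (nat_lit 252396769) (nat_lit 1849) (nat_lit 13778333) (PL.cons (nat_lit 15881) (nat_lit 252206161) (nat_lit 1848) (nat_lit 13762452) (PL.cons (nat_lit 15877) (nat_lit 252079129) (nat_lit 1847) (nat_lit 13746575) (PL.cons (nat_lit 15859) (nat_lit 251507881) (nat_lit 1846) (nat_lit 13730716) (PL.cons (nat_lit 15823) (nat_lit 250367329) (nat_lit 1845) (nat_lit 13714893) (PL.cons (nat_lit 15817) (nat_lit 250177489) (nat_lit 1844) (nat_lit 13699076) (PL.cons (nat_lit 15809) (nat_lit 249924481) (nat_lit 1843) (nat_lit 13683267) (PL.cons (nat_lit 15803) (nat_lit 249734809) (nat_lit 1842) (nat_lit 13667464) (PL.cons (nat_lit 15797) (nat_lit 249545209) (nat_lit 1841) (nat_lit 13651667) (PL.cons (nat_lit 15791) (nat_lit 249355681) (nat_lit 1840) (nat_lit 13635876) (PL.cons (nat_lit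 15787) (nat_lit 249229369) (nat_lit 1839) (nat_lit 13620089) (PL.cons (nat_lit 15773) (nat_lit 248787529) (nat_lit 1838) (nat_lit 13604316) (PL.cons (nat_lit 15767) (nat_lit 248598289) (nat_lit 1837) (nat_lit 13588549) (PL.cons (nat_lit 15761) (nat_lit 248409121) (nat_lit 1836) (nat_lit 13572788) (PL.cons (nat_lit 15749) (nat_lit 248031001) (nat_lit 1835) (nat_lit 13557039) (PL.cons (nat_lit 15739) (nat_lit 247716121) (nat_lit 1834) (nat_lit 13541300) (PL.cons (nat_lit 15737) (nat_lit 247653169) (nat_lit 1833) (nat_lit 13525563) (PL.cons (nat_lit 15733) (nat_lit 247527289) (nat_lit 1832) (nat_lit 13509830) (PL.cons (nat_lit 15731) (nat_lit 247464361) (nat_lit 1831) (nat_lit 13494099) (PL.cons (nat_lit 15727) (nat_lit 247338529) (nat_lit 1830) (nat_lit 13478372) (PL.cons (nat_lit 15683) (nat_lit 245956489) (nat_lit 1829) (nat_lit 13462689) (PL.cons (nat_lit 15679) (nat_lit 245831041) (nat_lit 1828) (nat_lit 13447010) (PL.cons (nat_lit 15671) (nat_lit 245580241) (nat_lit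 1827) (nat_lit 13431339) (PL.cons (nat_lit 15667) (nat_lit 245454889) (nat_lit 1826) (nat_lit 13415672) (PL.cons (nat_lit 15661) (nat_lit 245266921) (nat_lit 1825) (nat_lit 13400011) (PL.cons (nat_lit 15649) (nat_lit 244891201) (nat_lit 1824) (nat_lit 13384362) (PL.cons (nat_lit 15647) (nat_lit 244828609) (nat_lit 1823) (nat_lit 13368715) (PL.cons (nat_lit 15643) (nat_lit 244703449) (nat_lit 1822) (nat_lit 13353072) (PL.cons (nat_lit 15641) (nat_lit 244640881) (nat_lit 1821) (nat_lit 13337431) (PL.cons (nat_lit 15629) (nat_lit 244265641) (nat_lit 1820) (nat_lit 13321802) (PL.cons (nat_lit 15619) (nat_lit 243953161) (nat_lit 1819) (nat_lit 13306183) (PL.cons (nat_lit 15607) (nat_lit 243578449) (nat_lit 1818) (nat_lit 13290576) (PL.cons (nat_lit 15601) (nat_lit 243391201) (nat_lit 1817) (nat_lit 13274975) (PL.cons (nat_lit 15583) (nat_lit 242829889) (nat_lit 1816) (nat_lit 13259392) (PL.cons (nat_lit 15581) (nat_lit 242767561) (nat_lit 1815) (nat_lit 13243811) (PL.cons (nat_lit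 15569) (nat_lit 242393761) (nat_lit 1814) (nat_lit 13228242) L13))))))))))))))))))))))))))))))))))))))))))))))))))))))))))))))))))))))))))))))))))))))))))))))))))))))))))))))))))))))))))))))))))))))))))))))))))))))))))))))))))))))))))))))))))))))))))))))))))))))))))))))))))))))))))))))))))))))))))))))))))))))))))))))))))))))))))))))))))))))))))))))))))))))))))))))))))))))))))))))))))))))))))))))))))))))))))))))))))))))))))))))))))))))))))))))))))))

def L15 : PL := (PL.cons (nat_lit 23209) (nat_lit 538657681) (nat_lit 2589) (nat_lit 28261895) (PL.cons (nat_lit 23203) (nat_lit 538379209) (nat_lit 2588) (nat_lit 28238692) (PL.cons (nat_lit 23201) (nat_lit 538286401) (nat_lit 2587) (nat_lit 28215491) (PL.cons (nat_lit 23197) (nat_lit 538100809) (nat_lit 2586) (nat_lit 28192294) (PL.cons (nat_lit 23189) (nat_lit 537729721) (nat_lit 2585) (nat_lit 28169105) (PL.cons (nat_lit 23173) (nat_lit 536987929) (nat_lit 2584) (nat_lit 28145932) (PL.cons (nat_lit 23167) (nat_lit 536709889)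 (nat_lit 2583) (nat_lit 28122765) (PL.cons (nat_lit 23159) (nat_lit 536339281) (nat_lit 2582) (nat_lit 28099606) (PL.cons (nat_lit 23143) (nat_lit 535598449) (nat_lit 2581) (nat_lit 28076463) (PL.cons (nat_lit 23131) (nat_lit 535043161) (nat_lit 2580) (nat_lit 28053332) (PL.cons (nat_lit 23117) (nat_lit 534395689) (nat_lit 2579) (nat_lit 28030215) (PL.cons (nat_lit 23099) (nat_lit 533563801) (nat_lit 2578) (nat_lit 28007116) (PL.cons (nat_lit 23087) (nat_lit 533009569) (nat_lit 2577) (nat_lit 27984029) (PL.cons (nat_lit 23081) (nat_lit 532732561) (nat_lit 2576) (nat_lit 27960948) (PL.cons (nat_lit 23071) (nat_lit 532271041) (nat_lit 2575) (nat_lit 27937877) (PL.cons (nat_lit 23063) (nat_lit 531901969) (nat_lit 2574) (nat_lit 27914814) (PL.cons (nat_lit 23059) (nat_lit 531717481) (nat_lit 2573) (nat_lit 27891755) (PL.cons (nat_lit 23057) (nat_lit 531625249) (nat_lit 2572) (nat_lit 27868698) (PL.cons (nat_lit 23053) (nat_lit 531440809) (nat_lit 2571) (nat_lit 27845645) (PL.cons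 (nat_lit 23041) (nat_lit 530887681) (nat_lit 2570) (nat_lit 27822604) (PL.cons (nat_lit 23039) (nat_lit 530795521) (nat_lit 2569) (nat_lit 27799565) (PL.cons (nat_lit 23029) (nat_lit 530334841) (nat_lit 2568) (nat_lit 27776536) (PL.cons (nat_lit 23027) (nat_lit 530242729) (nat_lit 2567) (nat_lit 27753509) (PL.cons (nat_lit 23021) (nat_lit 529966441) (nat_lit 2566) (nat_lit 27730488) (PL.cons (nat_lit 23017) (nat_lit 529782289) (nat_lit 2565) (nat_lit 27707471) (PL.cons (nat_lit 23011) (nat_lit 529506121) (nat_lit 2564) (nat_lit 27684460) (PL.cons (nat_lit 23003) (nat_lit 529138009) (nat_lit 2563) (nat_lit 27661457) (PL.cons (nat_lit 22993) (nat_lit 528678049) (nat_lit 2562) (nat_lit 27638464) (PL.cons (nat_lit 22973) (nat_lit 527758729) (nat_lit 2561) (nat_lit 27615491) (PL.cons (nat_lit 22963) (nat_lit 527299369) (nat_lit 2560) (nat_lit 27592528) (PL.cons (nat_lit 22961) (nat_lit 527207521) (nat_lit 2559) (nat_lit 27569567) (PL.cons (nat_lit 22943) (nat_lit 526381249)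 (nat_lit 2558) (nat_lit 27546624) (PL.cons (nat_lit 22937) (nat_lit 526105969) (nat_lit 2557) (nat_lit 27523687) (PL.cons (nat_lit 22921) (nat_lit 525372241) (nat_lit 2556) (nat_lit 27500766) (PL.cons (nat_lit 22907) (nat_lit 524730649) (nat_lit 2555) (nat_lit 27477859) (PL.cons (nat_lit 22901) (nat_lit 524455801) (nat_lit 2554) (nat_lit 27454958) (PL.cons (nat_lit 22877) (nat_lit 523357129) (nat_lit 2553) (nat_lit 27432081) (PL.cons (nat_lit 22871) (nat_lit 523082641) (nat_lit 2552) (nat_lit 27409210) (PL.cons (nat_lit 22861) (nat_lit 522625321) (nat_lit 2551) (nat_lit 27386349) (PL.cons (nat_lit 22859) (nat_lit 522533881) (nat_lit 2550) (nat_lit 27363490) (PL.cons (nat_lit 22853) (nat_lit 522259609) (nat_lit 2549) (nat_lit 27340637) (PL.cons (nat_lit 22817) (nat_lit 520615489) (nat_lit 2548) (nat_lit 27317820) (PL.cons (nat_lit 22811) (nat_lit 520341721) (nat_lit 2547) (nat_lit 27295009) (PL.cons (nat_lit 22807) (nat_lit 520159249) (nat_lit 2546) (nat_lit 27272202) (PL.cons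 (nat_lit 22787) (nat_lit 519247369) (nat_lit 2545) (nat_lit 27249415) (PL.cons (nat_lit 22783) (nat_lit 519065089) (nat_lit 2544) (nat_lit 27226632) (PL.cons (nat_lit 22777) (nat_lit 518791729) (nat_lit 2543) (nat_lit 27203855) (PL.cons (nat_lit 22769) (nat_lit 518427361) (nat_lit 2542) (nat_lit 27181086) (PL.cons (nat_lit 22751) (nat_lit 517608001) (nat_lit 2541) (nat_lit 27158335) (PL.cons (nat_lit 22741) (nat_lit 517153081) (nat_lit 2540) (nat_lit 27135594) (PL.cons (nat_lit 22739) (nat_lit 517062121) (nat_lit 2539) (nat_lit 27112855) (PL.cons (nat_lit 22727) (nat_lit 516516529) (nat_lit 2538) (nat_lit 27090128) (PL.cons (nat_lit 22721) (nat_lit 516243841) (nat_lit 2537) (nat_lit 27067407) (PL.cons (nat_lit 22717) (nat_lit 516062089) (nat_lit 2536) (nat_lit 27044690) (PL.cons (nat_lit 22709) (nat_lit 515698681) (nat_lit 2535) (nat_lit 27021981) (PL.cons (nat_lit 22699) (nat_lit 515244601) (nat_lit 2534) (nat_lit 26999282) (PL.cons (nat_lit 22697) (nat_lit 515153809)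 (nat_lit 2533) (nat_lit 26976585) (PL.cons (nat_lit 22691) (nat_lit 514881481) (nat_lit 2532) (nat_lit 26953894) (PL.cons (nat_lit 22679) (nat_lit 514337041) (nat_lit 2531) (nat_lit 26931215) (PL.cons (nat_lit 22669) (nat_lit 513883561) (nat_lit 2530) (nat_lit 26908546) (PL.cons (nat_lit 22651) (nat_lit 513067801) (nat_lit 2529) (nat_lit 26885895) (PL.cons (nat_lit 22643) (nat_lit 512705449) (nat_lit 2528) (nat_lit 26863252) (PL.cons (nat_lit 22639) (nat_lit 512524321) (nat_lit 2527) (nat_lit 26840613) (PL.cons (nat_lit 22637) (nat_lit 512433769) (nat_lit 2526) (nat_lit 26817976) (PL.cons (nat_lit 22621) (nat_lit 511709641) (nat_lit 2525) (nat_lit 26795355) (PL.cons (nat_lit 22619) (nat_lit 511619161) (nat_lit 2524) (nat_lit 26772736) (PL.cons (nat_lit 22613) (nat_lit 511347769) (nat_lit 2523) (nat_lit 26750123) (PL.cons (nat_lit 22573) (nat_lit 509540329) (nat_lit 2522) (nat_lit 26727550) (PL.cons (nat_lit 22571) (nat_lit 509450041) (nat_lit 2521) (nat_lit 26704979) (PL.cons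 (nat_lit 22567) (nat_lit 509269489) (nat_lit 2520) (nat_lit 26682412) (PL.cons (nat_lit 22549) (nat_lit 508457401) (nat_lit 2519) (nat_lit 26659863) (PL.cons (nat_lit 22543) (nat_lit 508186849) (nat_lit 2518) (nat_lit 26637320) (PL.cons (nat_lit 22541) (nat_lit 508096681) (nat_lit 2517) (nat_lit 26614779) (PL.cons (nat_lit 22531) (nat_lit 507645961) (nat_lit 2516) (nat_lit 26592248) (PL.cons (nat_lit 22511) (nat_lit 506745121) (nat_lit 2515) (nat_lit 26569737) (PL.cons (nat_lit 22501) (nat_lit 506295001) (nat_lit 2514) (nat_lit 26547236) (PL.cons (nat_lit 22483) (nat_lit 505485289) (nat_lit 2513) (nat_lit 26524753) (PL.cons (nat_lit 22481) (nat_lit 505395361) (nat_lit 2512) (nat_lit 26502272) (PL.cons (nat_lit 22469) (nat_lit 504855961) (nat_lit 2511) (nat_lit 26479803) (PL.cons (nat_lit 22453) (nat_lit 504137209) (nat_lit 2510) (nat_lit 26457350) (PL.cons (nat_lit 22447) (nat_lit 503867809) (nat_lit 2509) (nat_lit 26434903) (PL.cons (nat_lit 22441) (nat_lit 503598481)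 (nat_lit 2508) (nat_lit 26412462) (PL.cons (nat_lit 22433) (nat_lit 503239489) (nat_lit 2507) (nat_lit 26390029) (PL.cons (nat_lit 22409) (nat_lit 502163281) (nat_lit 2506) (nat_lit 26367620) (PL.cons (nat_lit 22397) (nat_lit 501625609) (nat_lit 2505) (nat_lit 26345223) (PL.cons (nat_lit 22391) (nat_lit 501356881) (nat_lit 2504) (nat_lit 26322832) (PL.cons (nat_lit 22381) (nat_lit 500909161) (nat_lit 2503) (nat_lit 26300451) (PL.cons (nat_lit 22369) (nat_lit 500372161) (nat_lit 2502) (nat_lit 26278082) (PL.cons (nat_lit 22367) (nat_lit 500282689) (nat_lit 2501) (nat_lit 26255715) (PL.cons (nat_lit 22349) (nat_lit 499477801) (nat_lit 2500) (nat_lit 26233366) (PL.cons (nat_lit 22343) (nat_lit 499209649) (nat_lit 2499) (nat_lit 26211023) (PL.cons (nat_lit 22307) (nat_lit 497602249) (nat_lit 2498) (nat_lit 26188716) (PL.cons (nat_lit 22303) (nat_lit 497423809) (nat_lit 2497) (nat_lit 26166413) (PL.cons (nat_lit 22291) (nat_lit 496888681) (nat_lit 2496) (nat_lit 26144122) (PL.cons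 (nat_lit 22283) (nat_lit 496532089) (nat_lit 2495) (nat_lit 26121839) (PL.cons (nat_lit 22279) (nat_lit 496353841) (nat_lit 2494) (nat_lit 26099560) (PL.cons (nat_lit 22277) (nat_lit 496264729) (nat_lit 2493) (nat_lit 26077283) (PL.cons (nat_lit 22273) (nat_lit 496086529) (nat_lit 2492) (nat_lit 26055010) (PL.cons (nat_lit 22271) (nat_lit 495997441) (nat_lit 2491) (nat_lit 26032739) (PL.cons (nat_lit 22259) (nat_lit 495463081) (nat_lit 2490) (nat_lit 26010480) (PL.cons (nat_lit 22247) (nat_lit 494929009) (nat_lit 2489) (nat_lit 25988233) (PL.cons (nat_lit 22229) (nat_lit 494128441) (nat_lit 2488) (nat_lit 25966004) (PL.cons (nat_lit 22193) (nat_lit 492529249) (nat_lit 2487) (nat_lit 25943811) (PL.cons (nat_lit 22189) (nat_lit 492351721) (nat_lit 2486) (nat_lit 25921622) (PL.cons (nat_lit 22171) (nat_lit 491553241) (nat_lit 2485) (nat_lit 25899451) (PL.cons (nat_lit 22159) (nat_lit 491021281) (nat_lit 2484) (nat_lit 25877292) (PL.cons (nat_lit 22157) (nat_lit 490932649)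 (nat_lit 2483) (nat_lit 25855135) (PL.cons (nat_lit 22153) (nat_lit 490755409) (nat_lit 2482) (nat_lit 25832982) (PL.cons (nat_lit 22147) (nat_lit 490489609) (nat_lit 2481) (nat_lit 25810835) (PL.cons (nat_lit 22133) (nat_lit 489869689) (nat_lit 2480) (nat_lit 25788702) (PL.cons (nat_lit 22129) (nat_lit 489692641) (nat_lit 2479) (nat_lit 25766573) (PL.cons (nat_lit 22123) (nat_lit 489427129) (nat_lit 2478) (nat_lit 25744450) (PL.cons (nat_lit 22111) (nat_lit 488896321) (nat_lit 2477) (nat_lit 25722339) (PL.cons (nat_lit 22109) (nat_lit 488807881) (nat_lit 2476) (nat_lit 25700230) (PL.cons (nat_lit 22093) (nat_lit 488100649) (nat_lit 2475) (nat_lit 25678137) (PL.cons (nat_lit 22091) (nat_lit 488012281) (nat_lit 2474) (nat_lit 25656046) (PL.cons (nat_lit 22079) (nat_lit 487482241) (nat_lit 2473) (nat_lit 25633967) (PL.cons (nat_lit 22073) (nat_lit 487217329) (nat_lit 2472) (nat_lit 25611894) (PL.cons (nat_lit 22067) (nat_lit 486952489) (nat_lit 2471) (nat_lit 25589827) (PL.cons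 (nat_lit 22063) (nat_lit 486775969) (nat_lit 2470) (nat_lit 25567764) (PL.cons (nat_lit 22051) (nat_lit 486246601) (nat_lit 2469) (nat_lit 25545713) (PL.cons (nat_lit 22039) (nat_lit 485717521) (nat_lit 2468) (nat_lit 25523674) (PL.cons (nat_lit 22037) (nat_lit 485629369) (nat_lit 2467) (nat_lit 25501637) (PL.cons (nat_lit 22031) (nat_lit 485364961) (nat_lit 2466) (nat_lit 25479606) (PL.cons (nat_lit 22027) (nat_lit 485188729) (nat_lit 2465) (nat_lit 25457579) (PL.cons (nat_lit 22013) (nat_lit 484572169) (nat_lit 2464) (nat_lit 25435566) (PL.cons (nat_lit 22003) (nat_lit 484132009) (nat_lit 2463) (nat_lit 25413563) (PL.cons (nat_lit 21997) (nat_lit 483868009) (nat_lit 2462) (nat_lit 25391566) (PL.cons (nat_lit 21991) (nat_lit 483604081) (nat_lit 2461) (nat_lit 25369575) (PL.cons (nat_lit 21977) (nat_lit 482988529) (nat_lit 2460) (nat_lit 25347598) (PL.cons (nat_lit 21961) (nat_lit 482285521) (nat_lit 2459) (nat_lit 25325637) (PL.cons (nat_lit 21943) (nat_lit 481495249)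 (nat_lit 2458) (nat_lit 25303694) (PL.cons (nat_lit 21937) (nat_lit 481231969) (nat_lit 2457) (nat_lit 25281757) (PL.cons (nat_lit 21929) (nat_lit 480881041) (nat_lit 2456) (nat_lit 25259828) (PL.cons (nat_lit 21911) (nat_lit 480091921) (nat_lit 2455) (nat_lit 25237917) (PL.cons (nat_lit 21893) (nat_lit 479303449) (nat_lit 2454) (nat_lit 25216024) (PL.cons (nat_lit 21881) (nat_lit 478778161) (nat_lit 2453) (nat_lit 25194143) (PL.cons (nat_lit 21871) (nat_lit 478340641) (nat_lit 2452) (nat_lit 25172272) (PL.cons (nat_lit 21863) (nat_lit 477990769) (nat_lit 2451) (nat_lit 25150409) (PL.cons (nat_lit 21859) (nat_lit 477815881) (nat_lit 2450) (nat_lit 25128550) (PL.cons (nat_lit 21851) (nat_lit 477466201) (nat_lit 2449) (nat_lit 25106699) (PL.cons (nat_lit 21841) (nat_lit 477029281) (nat_lit 2448) (nat_lit 25084858) (PL.cons (nat_lit 21839) (nat_lit 476941921) (nat_lit 2447) (nat_lit 25063019) (PL.cons (nat_lit 21821) (nat_lit 476156041) (nat_lit 2446) (nat_lit 25041198) (PL.cons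 (nat_lit 21817) (nat_lit 475981489) (nat_lit 2445) (nat_lit 25019381) (PL.cons (nat_lit 21803) (nat_lit 475370809) (nat_lit 2444) (nat_lit 24997578) (PL.cons (nat_lit 21799) (nat_lit 475196401) (nat_lit 2443) (nat_lit 24975779) (PL.cons (nat_lit 21787) (nat_lit 474673369) (nat_lit 2442) (nat_lit 24953992) (PL.cons (nat_lit 21773) (nat_lit 474063529) (nat_lit 2441) (nat_lit 24932219) (PL.cons (nat_lit 21767) (nat_lit 473802289) (nat_lit 2440) (nat_lit 24910452) (PL.cons (nat_lit 21757) (nat_lit 473367049) (nat_lit 2439) (nat_lit 24888695) (PL.cons (nat_lit 21751) (nat_lit 473106001) (nat_lit 2438) (nat_lit 24866944) (PL.cons (nat_lit 21739) (nat_lit 472584121) (nat_lit 2437) (nat_lit 24845205) (PL.cons (nat_lit 21737) (nat_lit 472497169) (nat_lit 2436) (nat_lit 24823468) (PL.cons (nat_lit 21727) (nat_lit 472062529) (nat_lit 2435) (nat_lit 24801741) (PL.cons (nat_lit 21713) (nat_lit 471454369) (nat_lit 2434) (nat_lit 24780028) (PL.cons (nat_lit 21701) (nat_lit 470933401)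 (nat_lit 2433) (nat_lit 24758327) (PL.cons (nat_lit 21683) (nat_lit 470152489) (nat_lit 2432) (nat_lit 24736644) (PL.cons (nat_lit 21673) (nat_lit 469718929) (nat_lit 2431) (nat_lit 24714971) (PL.cons (nat_lit 21661) (nat_lit 469198921) (nat_lit 2430) (nat_lit 24693310) (PL.cons (nat_lit 21649) (nat_lit 468679201) (nat_lit 2429) (nat_lit 24671661) (PL.cons (nat_lit 21647) (nat_lit 468592609) (nat_lit 2428) (nat_lit 24650014) (PL.cons (nat_lit 21617) (nat_lit 467294689) (nat_lit 2427) (nat_lit 24628397) (PL.cons (nat_lit 21613) (nat_lit 467121769) (nat_lit 2426) (nat_lit 24606784) (PL.cons (nat_lit 21611) (nat_lit 467035321) (nat_lit 2425) (nat_lit 24585173) (PL.cons (nat_lit 21601) (nat_lit 466603201) (nat_lit 2424) (nat_lit 24563572) (PL.cons (nat_lit 21599) (nat_lit 466516801) (nat_lit 2423) (nat_lit 24541973) (PL.cons (nat_lit 21589) (nat_lit 466084921) (nat_lit 2422) (nat_lit 24520384) (PL.cons (nat_lit 21587) (nat_lit 465998569) (nat_lit 2421) (nat_lit 24498797) (PL.cons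 (nat_lit 21577) (nat_lit 465566929) (nat_lit 2420) (nat_lit 24477220) (PL.cons (nat_lit 21569) (nat_lit 465221761) (nat_lit 2419) (nat_lit 24455651) (PL.cons (nat_lit 21563) (nat_lit 464962969) (nat_lit 2418) (nat_lit 24434088) (PL.cons (nat_lit 21559) (nat_lit 464790481) (nat_lit 2417) (nat_lit 24412529) (PL.cons (nat_lit 21557) (nat_lit 464704249) (nat_lit 2416) (nat_lit 24390972) (PL.cons (nat_lit 21529) (nat_lit 463497841) (nat_lit 2415) (nat_lit 24369443) (PL.cons (nat_lit 21523) (nat_lit 463239529) (nat_lit 2414) (nat_lit 24347920) (PL.cons (nat_lit 21521) (nat_lit 463153441) (nat_lit 2413) (nat_lit 24326399) (PL.cons (nat_lit 21517) (nat_lit 462981289) (nat_lit 2412) (nat_lit 24304882) (PL.cons (nat_lit 21503) (nat_lit 462379009) (nat_lit 2411) (nat_lit 24283379) (PL.cons (nat_lit 21499) (nat_lit 462207001) (nat_lit 2410) (nat_lit 24261880) (PL.cons (nat_lit 21493) (nat_lit 461949049) (nat_lit 2409) (nat_lit 24240387) (PL.cons (nat_lit 21491) (nat_lit 461863081)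 (nat_lit 2408) (nat_lit 24218896) (PL.cons (nat_lit 21487) (nat_lit 461691169) (nat_lit 2407) (nat_lit 24197409) (PL.cons (nat_lit 21481) (nat_lit 461433361) (nat_lit 2406) (nat_lit 24175928) (PL.cons (nat_lit 21467) (nat_lit 460832089) (nat_lit 2405) (nat_lit 24154461) (PL.cons (nat_lit 21433) (nat_lit 459373489) (nat_lit 2404) (nat_lit 24133028) (PL.cons (nat_lit 21419) (nat_lit 458773561) (nat_lit 2403) (nat_lit 24111609) (PL.cons (nat_lit 21407) (nat_lit 458259649) (nat_lit 2402) (nat_lit 24090202) (PL.cons (nat_lit 21401) (nat_lit 458002801) (nat_lit 2401) (nat_lit 24068801) (PL.cons (nat_lit 21397) (nat_lit 457831609) (nat_lit 2400) (nat_lit 24047404) (PL.cons (nat_lit 21391) (nat_lit 457574881) (nat_lit 2399) (nat_lit 24026013) (PL.cons (nat_lit 21383) (nat_lit 457232689) (nat_lit 2398) (nat_lit 24004630) (PL.cons (nat_lit 21379) (nat_lit 457061641) (nat_lit 2397) (nat_lit 23983251) (PL.cons (nat_lit 21377) (nat_lit 456976129) (nat_lit 2396) (nat_lit 23961874) (PL.cons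 (nat_lit 21347) (nat_lit 455694409) (nat_lit 2395) (nat_lit 23940527) (PL.cons (nat_lit 21341) (nat_lit 455438281) (nat_lit 2394) (nat_lit 23919186) (PL.cons (nat_lit 21323) (nat_lit 454670329) (nat_lit 2393) (nat_lit 23897863) (PL.cons (nat_lit 21319) (nat_lit 454499761) (nat_lit 2392) (nat_lit 23876544) (PL.cons (nat_lit 21317) (nat_lit 454414489) (nat_lit 2391) (nat_lit 23855227) (PL.cons (nat_lit 21313) (nat_lit 454243969) (nat_lit 2390) (nat_lit 23833914) (PL.cons (nat_lit 21283) (nat_lit 452966089) (nat_lit 2389) (nat_lit 23812631) (PL.cons (nat_lit 21277) (nat_lit 452710729) (nat_lit 2388) (nat_lit 23791354) (PL.cons (nat_lit 21269) (nat_lit 452370361) (nat_lit 2387) (nat_lit 23770085) (PL.cons (nat_lit 21247) (nat_lit 451435009) (nat_lit 2386) (nat_lit 23748838) (PL.cons (nat_lit 21227) (nat_lit 450585529) (nat_lit 2385) (nat_lit 23727611) (PL.cons (nat_lit 21221) (nat_lit 450330841) (nat_lit 2384) (nat_lit 23706390) (PL.cons (nat_lit 21211) (nat_lit 449906521)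 (nat_lit 2383) (nat_lit 23685179) (PL.cons (nat_lit 21193) (nat_lit 449143249) (nat_lit 2382) (nat_lit 23663986) (PL.cons (nat_lit 21191) (nat_lit 449058481) (nat_lit 2381) (nat_lit 23642795) (PL.cons (nat_lit 21187) (nat_lit 448888969) (nat_lit 2380) (nat_lit 23621608) (PL.cons (nat_lit 21179) (nat_lit 448550041) (nat_lit 2379) (nat_lit 23600429) (PL.cons (nat_lit 21169) (nat_lit 448126561) (nat_lit 2378) (nat_lit 23579260) (PL.cons (nat_lit 21163) (nat_lit 447872569) (nat_lit 2377) (nat_lit 23558097) (PL.cons (nat_lit 21157) (nat_lit 447618649) (nat_lit 2376) (nat_lit 23536940) (PL.cons (nat_lit 21149) (nat_lit 447280201) (nat_lit 2375) (nat_lit 23515791) (PL.cons (nat_lit 21143) (nat_lit 447026449) (nat_lit 2374) (nat_lit 23494648) (PL.cons (nat_lit 21139) (nat_lit 446857321) (nat_lit 2373) (nat_lit 23473509) (PL.cons (nat_lit 21121) (nat_lit 446096641) (nat_lit 2372) (nat_lit 23452388) (PL.cons (nat_lit 21107) (nat_lit 445505449) (nat_lit 2371) (nat_lit 23431281) (PL.cons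 (nat_lit 21101) (nat_lit 445252201) (nat_lit 2370) (nat_lit 23410180) (PL.cons (nat_lit 21089) (nat_lit 444745921) (nat_lit 2369) (nat_lit 23389091) (PL.cons (nat_lit 21067) (nat_lit 443818489) (nat_lit 2368) (nat_lit 23368024) (PL.cons (nat_lit 21061) (nat_lit 443565721) (nat_lit 2367) (nat_lit 23346963) (PL.cons (nat_lit 21059) (nat_lit 443481481) (nat_lit 2366) (nat_lit 23325904) (PL.cons (nat_lit 21031) (nat_lit 442302961) (nat_lit 2365) (nat_lit 23304873) (PL.cons (nat_lit 21023) (nat_lit 441966529) (nat_lit 2364) (nat_lit 23283850) (PL.cons (nat_lit 21019) (nat_lit 441798361) (nat_lit 2363) (nat_lit 23262831) (PL.cons (nat_lit 21017) (nat_lit 441714289) (nat_lit 2362) (nat_lit 23241814) (PL.cons (nat_lit 21013) (nat_lit 441546169) (nat_lit 2361) (nat_lit 23220801) (PL.cons (nat_lit 21011) (nat_lit 441462121) (nat_lit 2360) (nat_lit 23199790) (PL.cons (nat_lit 21001) (nat_lit 441042001) (nat_lit 2359) (nat_lit 23178789) (PL.cons (nat_lit 20983) (nat_lit 440286289)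 (nat_lit 2358) (nat_lit 23157806) (PL.cons (nat_lit 20981) (nat_lit 440202361) (nat_lit 2357) (nat_lit 23136825) (PL.cons (nat_lit 20963) (nat_lit 439447369) (nat_lit 2356) (nat_lit 23115862) (PL.cons (nat_lit 20959) (nat_lit 439279681) (nat_lit 2355) (nat_lit 23094903) (PL.cons (nat_lit 20947) (nat_lit 438776809) (nat_lit 2354) (nat_lit 23073956) (PL.cons (nat_lit 20939) (nat_lit 438441721) (nat_lit 2353) (nat_lit 23053017) (PL.cons (nat_lit 20929) (nat_lit 438023041) (nat_lit 2352) (nat_lit 23032088) (PL.cons (nat_lit 20921) (nat_lit 437688241) (nat_lit 2351) (nat_lit 23011167) (PL.cons (nat_lit 20903) (nat_lit 436935409) (nat_lit 2350) (nat_lit 22990264) (PL.cons (nat_lit 20899) (nat_lit 436768201) (nat_lit 2349) (nat_lit 22969365) (PL.cons (nat_lit 20897) (nat_lit 436684609) (nat_lit 2348) (nat_lit 22948468) (PL.cons (nat_lit 20887) (nat_lit 436266769) (nat_lit 2347) (nat_lit 22927581) (PL.cons (nat_lit 20879) (nat_lit 435932641) (nat_lit 2346) (nat_lit 22906702) (PL.cons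 (nat_lit 20873) (nat_lit 435682129) (nat_lit 2345) (nat_lit 22885829) (PL.cons (nat_lit 20857) (nat_lit 435014449) (nat_lit 2344) (nat_lit 22864972) (PL.cons (nat_lit 20849) (nat_lit 434680801) (nat_lit 2343) (nat_lit 22844123) (PL.cons (nat_lit 20809) (nat_lit 433014481) (nat_lit 2342) (nat_lit 22823314) (PL.cons (nat_lit 20807) (nat_lit 432931249) (nat_lit 2341) (nat_lit 22802507) (PL.cons (nat_lit 20789) (nat_lit 432182521) (nat_lit 2340) (nat_lit 22781718) (PL.cons (nat_lit 20773) (nat_lit 431517529) (nat_lit 2339) (nat_lit 22760945) (PL.cons (nat_lit 20771) (nat_lit 431434441) (nat_lit 2338) (nat_lit 22740174) (PL.cons (nat_lit 20759) (nat_lit 430936081) (nat_lit 2337) (nat_lit 22719415) (PL.cons (nat_lit 20753) (nat_lit 430687009) (nat_lit 2336) (nat_lit 22698662) (PL.cons (nat_lit 20749) (nat_lit 430521001) (nat_lit 2335) (nat_lit 22677913) (PL.cons (nat_lit 20747) (nat_lit 430438009) (nat_lit 2334) (nat_lit 22657166) (PL.cons (nat_lit 20743) (nat_lit 430272049)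 (nat_lit 2333) (nat_lit 22636423) (PL.cons (nat_lit 20731) (nat_lit 429774361) (nat_lit 2332) (nat_lit 22615692) (PL.cons (nat_lit 20719) (nat_lit 429276961) (nat_lit 2331) (nat_lit 22594973) (PL.cons (nat_lit 20717) (nat_lit 429194089) (nat_lit 2330) (nat_lit 22574256) (PL.cons (nat_lit 20707) (nat_lit 428779849) (nat_lit 2329) (nat_lit 22553549) (PL.cons (nat_lit 20693) (nat_lit 428200249) (nat_lit 2328) (nat_lit 22532856) (PL.cons (nat_lit 20681) (nat_lit 427703761) (nat_lit 2327) (nat_lit 22512175) (PL.cons (nat_lit 20663) (nat_lit 426959569) (nat_lit 2326) (nat_lit 22491512) (PL.cons (nat_lit 20641) (nat_lit 426050881) (nat_lit 2325) (nat_lit 22470871) (PL.cons (nat_lit 20639) (nat_lit 425968321) (nat_lit 2324) (nat_lit 22450232) (PL.cons (nat_lit 20627) (nat_lit 425473129) (nat_lit 2323) (nat_lit 22429605) (PL.cons (nat_lit 20611) (nat_lit 424813321) (nat_lit 2322) (nat_lit 22408994) (PL.cons (nat_lit 20599) (nat_lit 424318801) (nat_lit 2321) (nat_lit 22388395) (PL.cons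 (nat_lit 20593) (nat_lit 424071649) (nat_lit 2320) (nat_lit 22367802) (PL.cons (nat_lit 20563) (nat_lit 422836969) (nat_lit 2319) (nat_lit 22347239) (PL.cons (nat_lit 20551) (nat_lit 422343601) (nat_lit 2318) (nat_lit 22326688) (PL.cons (nat_lit 20549) (nat_lit 422261401) (nat_lit 2317) (nat_lit 22306139) (PL.cons (nat_lit 20543) (nat_lit 422014849) (nat_lit 2316) (nat_lit 22285596) (PL.cons (nat_lit 20533) (nat_lit 421604089) (nat_lit 2315) (nat_lit 22265063) (PL.cons (nat_lit 20521) (nat_lit 421111441) (nat_lit 2314) (nat_lit 22244542) (PL.cons (nat_lit 20509) (nat_lit 420619081) (nat_lit 2313) (nat_lit 22224033) (PL.cons (nat_lit 20507) (nat_lit 420537049) (nat_lit 2312) (nat_lit 22203526) (PL.cons (nat_lit 20483) (nat_lit 419553289) (nat_lit 2311) (nat_lit 22183043) (PL.cons (nat_lit 20479) (nat_lit 419389441) (nat_lit 2310) (nat_lit 22162564) (PL.cons (nat_lit 20477) (nat_lit 419307529) (nat_lit 2309) (nat_lit 22142087) (PL.cons (nat_lit 20443) (nat_lit 417916249)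 (nat_lit 2308) (nat_lit 22121644) (PL.cons (nat_lit 20441) (nat_lit 417834481) (nat_lit 2307) (nat_lit 22101203) (PL.cons (nat_lit 20431) (nat_lit 417425761) (nat_lit 2306) (nat_lit 22080772) (PL.cons (nat_lit 20411) (nat_lit 416608921) (nat_lit 2305) (nat_lit 22060361) (PL.cons (nat_lit 20407) (nat_lit 416445649) (nat_lit 2304) (nat_lit 22039954) (PL.cons (nat_lit 20399) (nat_lit 416119201) (nat_lit 2303) (nat_lit 22019555) (PL.cons (nat_lit 20393) (nat_lit 415874449) (nat_lit 2302) (nat_lit 21999162) (PL.cons (nat_lit 20389) (nat_lit 415711321) (nat_lit 2301) (nat_lit 21978773) (PL.cons (nat_lit 20369) (nat_lit 414896161) (nat_lit 2300) (nat_lit 21958404) (PL.cons (nat_lit 20359) (nat_lit 414488881) (nat_lit 2299) (nat_lit 21938045) (PL.cons (nat_lit 20357) (nat_lit 414407449) (nat_lit 2298) (nat_lit 21917688) (PL.cons (nat_lit 20353) (nat_lit 414244609) (nat_lit 2297) (nat_lit 21897335) (PL.cons (nat_lit 20347) (nat_lit 414000409) (nat_lit 2296) (nat_lit 21876988) (PL.cons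 (nat_lit 20341) (nat_lit 413756281) (nat_lit 2295) (nat_lit 21856647) (PL.cons (nat_lit 20333) (nat_lit 413430889) (nat_lit 2294) (nat_lit 21836314) (PL.cons (nat_lit 20327) (nat_lit 413186929) (nat_lit 2293) (nat_lit 21815987) (PL.cons (nat_lit 20323) (nat_lit 413024329) (nat_lit 2292) (nat_lit 21795664) (PL.cons (nat_lit 20297) (nat_lit 411968209) (nat_lit 2291) (nat_lit 21775367) (PL.cons (nat_lit 20287) (nat_lit 411562369) (nat_lit 2290) (nat_lit 21755080) (PL.cons (nat_lit 20269) (nat_lit 410832361) (nat_lit 2289) (nat_lit 21734811) (PL.cons (nat_lit 20261) (nat_lit 410508121) (nat_lit 2288) (nat_lit 21714550) (PL.cons (nat_lit 20249) (nat_lit 410022001) (nat_lit 2287) (nat_lit 21694301) (PL.cons (nat_lit 20233) (nat_lit 409374289) (nat_lit 2286) (nat_lit 21674068) (PL.cons (nat_lit 20231) (nat_lit 409293361) (nat_lit 2285) (nat_lit 21653837) (PL.cons (nat_lit 20219) (nat_lit 408807961) (nat_lit 2284) (nat_lit 21633618) (PL.cons (nat_lit 20201) (nat_lit 408080401)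 (nat_lit 2283) (nat_lit 21613417) (PL.cons (nat_lit 20183) (nat_lit 407353489) (nat_lit 2282) (nat_lit 21593234) (PL.cons (nat_lit 20177) (nat_lit 407111329) (nat_lit 2281) (nat_lit 21573057) (PL.cons (nat_lit 20173) (nat_lit 406949929) (nat_lit 2280) (nat_lit 21552884) (PL.cons (nat_lit 20161) (nat_lit 406465921) (nat_lit 2279) (nat_lit 21532723) (PL.cons (nat_lit 20149) (nat_lit 405982201) (nat_lit 2278) (nat_lit 21512574) (PL.cons (nat_lit 20147) (nat_lit 405901609) (nat_lit 2277) (nat_lit 21492427) (PL.cons (nat_lit 20143) (nat_lit 405740449) (nat_lit 2276) (nat_lit 21472284) (PL.cons (nat_lit 20129) (nat_lit 405176641) (nat_lit 2275) (nat_lit 21452155) (PL.cons (nat_lit 20123) (nat_lit 404935129) (nat_lit 2274) (nat_lit 21432032) (PL.cons (nat_lit 20117) (nat_lit 404693689) (nat_lit 2273) (nat_lit 21411915) (PL.cons (nat_lit 20113) (nat_lit 404532769) (nat_lit 2272) (nat_lit 21391802) (PL.cons (nat_lit 20107) (nat_lit 404291449) (nat_lit 2271) (nat_lit 21371695) (PL.cons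 (nat_lit 20101) (nat_lit 404050201) (nat_lit 2270) (nat_lit 21351594) (PL.cons (nat_lit 20089) (nat_lit 403567921) (nat_lit 2269) (nat_lit 21331505) (PL.cons (nat_lit 20071) (nat_lit 402845041) (nat_lit 2268) (nat_lit 21311434) (PL.cons (nat_lit 20063) (nat_lit 402523969) (nat_lit 2267) (nat_lit 21291371) (PL.cons (nat_lit 20051) (nat_lit 402042601) (nat_lit 2266) (nat_lit 21271320) (PL.cons (nat_lit 20047) (nat_lit 401882209) (nat_lit 2265) (nat_lit 21251273) (PL.cons (nat_lit 20029) (nat_lit 401160841) (nat_lit 2264) (nat_lit 21231244) (PL.cons (nat_lit 20023) (nat_lit 400920529) (nat_lit 2263) (nat_lit 21211221) (PL.cons (nat_lit 20021) (nat_lit 400840441) (nat_lit 2262) (nat_lit 21191200) (PL.cons (nat_lit 20011) (nat_lit 400440121) (nat_lit 2261) (nat_lit 21171189) (PL.cons (nat_lit 19997) (nat_lit 399880009) (nat_lit 2260) (nat_lit 21151192) (PL.cons (nat_lit 19993) (nat_lit 399720049) (nat_lit 2259) (nat_lit 21131199) (PL.cons (nat_lit 19991) (nat_lit 399640081)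 (nat_lit 2258) (nat_lit 21111208) (PL.cons (nat_lit 19979) (nat_lit 399160441) (nat_lit 2257) (nat_lit 21091229) (PL.cons (nat_lit 19973) (nat_lit 398920729) (nat_lit 2256) (nat_lit 21071256) (PL.cons (nat_lit 19963) (nat_lit 398521369) (nat_lit 2255) (nat_lit 21051293) (PL.cons (nat_lit 19961) (nat_lit 398441521) (nat_lit 2254) (nat_lit 21031332) (PL.cons (nat_lit 19949) (nat_lit 397962601) (nat_lit 2253) (nat_lit 21011383) (PL.cons (nat_lit 19937) (nat_lit 397483969) (nat_lit 2252) (nat_lit 20991446) (PL.cons (nat_lit 19927) (nat_lit 397085329) (nat_lit 2251) (nat_lit 20971519) (PL.cons (nat_lit 19919) (nat_lit 396766561) (nat_lit 2250) (nat_lit 20951600) (PL.cons (nat_lit 19913) (nat_lit 396527569) (nat_lit 2249) (nat_lit 20931687) (PL.cons (nat_lit 19891) (nat_lit 395651881) (nat_lit 2248) (nat_lit 20911796) (PL.cons (nat_lit 19889) (nat_lit 395572321) (nat_lit 2247) (nat_lit 20891907) (PL.cons (nat_lit 19867) (nat_lit 394697689) (nat_lit 2246) (nat_lit 20872040) (PL.cons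 (nat_lit 19861) (nat_lit 394459321) (nat_lit 2245) (nat_lit 20852179) (PL.cons (nat_lit 19853) (nat_lit 394141609) (nat_lit 2244) (nat_lit 20832326) (PL.cons (nat_lit 19843) (nat_lit 393744649) (nat_lit 2243) (nat_lit 20812483) (PL.cons (nat_lit 19841) (nat_lit 393665281) (nat_lit 2242) (nat_lit 20792642) (PL.cons (nat_lit 19819) (nat_lit 392792761) (nat_lit 2241) (nat_lit 20772823) (PL.cons (nat_lit 19813) (nat_lit 392554969) (nat_lit 2240) (nat_lit 20753010) (PL.cons (nat_lit 19801) (nat_lit 392079601) (nat_lit 2239) (nat_lit 20733209) (PL.cons (nat_lit 19793) (nat_lit 391762849) (nat_lit 2238) (nat_lit 20713416) (PL.cons (nat_lit 19777) (nat_lit 391129729) (nat_lit 2237) (nat_lit 20693639) (PL.cons (nat_lit 19763) (nat_lit 390576169) (nat_lit 2236) (nat_lit 20673876) (PL.cons (nat_lit 19759) (nat_lit 390418081) (nat_lit 2235) (nat_lit 20654117) (PL.cons (nat_lit 19753) (nat_lit 390181009) (nat_lit 2234) (nat_lit 20634364) (PL.cons (nat_lit 19751) (nat_lit 390102001)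 (nat_lit 2233) (nat_lit 20614613) (PL.cons (nat_lit 19739) (nat_lit 389628121) (nat_lit 2232) (nat_lit 20594874) (PL.cons (nat_lit 19727) (nat_lit 389154529) (nat_lit 2231) (nat_lit 20575147) (PL.cons (nat_lit 19717) (nat_lit 388760089) (nat_lit 2230) (nat_lit 20555430) (PL.cons (nat_lit 19709) (nat_lit 388444681) (nat_lit 2229) (nat_lit 20535721) (PL.cons (nat_lit 19699) (nat_lit 388050601) (nat_lit 2228) (nat_lit 20516022) (PL.cons (nat_lit 19697) (nat_lit 387971809) (nat_lit 2227) (nat_lit 20496325) (PL.cons (nat_lit 19687) (nat_lit 387577969) (nat_lit 2226) (nat_lit 20476638) (PL.cons (nat_lit 19681) (nat_lit 387341761) (nat_lit 2225) (nat_lit 20456957) (PL.cons (nat_lit 19661) (nat_lit 386554921) (nat_lit 2224) (nat_lit 20437296) (PL.cons (nat_lit 19609) (nat_lit 384512881) (nat_lit 2223) (nat_lit 20417687) (PL.cons (nat_lit 19603) (nat_lit 384277609) (nat_lit 2222) (nat_lit 20398084) (PL.cons (nat_lit 19597) (nat_lit 384042409) (nat_lit 2221) (nat_lit 20378487) (PL.cons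 (nat_lit 19583) (nat_lit 383493889) (nat_lit 2220) (nat_lit 20358904) (PL.cons (nat_lit 19577) (nat_lit 383258929) (nat_lit 2219) (nat_lit 20339327) (PL.cons (nat_lit 19571) (nat_lit 383024041) (nat_lit 2218) (nat_lit 20319756) (PL.cons (nat_lit 19559) (nat_lit 382554481) (nat_lit 2217) (nat_lit 20300197) (PL.cons (nat_lit 19553) (nat_lit 382319809) (nat_lit 2216) (nat_lit 20280644) (PL.cons (nat_lit 19543) (nat_lit 381928849) (nat_lit 2215) (nat_lit 20261101) (PL.cons (nat_lit 19541) (nat_lit 381850681) (nat_lit 2214) (nat_lit 20241560) (PL.cons (nat_lit 19531) (nat_lit 381459961) (nat_lit 2213) (nat_lit 20222029) (PL.cons (nat_lit 19507) (nat_lit 380523049) (nat_lit 2212) (nat_lit 20202522) (PL.cons (nat_lit 19501) (nat_lit 380289001) (nat_lit 2211) (nat_lit 20183021) (PL.cons (nat_lit 19489) (nat_lit 379821121) (nat_lit 2210) (nat_lit 20163532) (PL.cons (nat_lit 19483) (nat_lit 379587289) (nat_lit 2209) (nat_lit 20144049) (PL.cons (nat_lit 19477) (nat_lit 379353529)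 (nat_lit 2208) (nat_lit 20124572) (PL.cons (nat_lit 19471) (nat_lit 379119841) (nat_lit 2207) (nat_lit 20105101) (PL.cons (nat_lit 19469) (nat_lit 379041961) (nat_lit 2206) (nat_lit 20085632) (PL.cons (nat_lit 19463) (nat_lit 378808369) (nat_lit 2205) (nat_lit 20066169) (PL.cons (nat_lit 19457) (nat_lit 378574849) (nat_lit 2204) (nat_lit 20046712) (PL.cons (nat_lit 19447) (nat_lit 378185809) (nat_lit 2203) (nat_lit 20027265) (PL.cons (nat_lit 19441) (nat_lit 377952481) (nat_lit 2202) (nat_lit 20007824) L14))))))))))))))))))))))))))))))))))))))))))))))))))))))))))))))))))))))))))))))))))))))))))))))))))))))))))))))))))))))))))))))))))))))))))))))))))))))))))))))))))))))))))))))))))))))))))))))))))))))))))))))))))))))))))))))))))))))))))))))))))))))))))))))))))))))))))))))))))))))))))))))))))))))))))))))))))))))))))))))))))))))))))))))))))))))))))))))))))))))))))))))))))))))))))))))))))))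

def L16 : PL := (PL.cons (nat_lit 27197) (nat_lit 739676809) (nat_lit 2977) (nat_lit 38044047) (PL.cons (nat_lit 27191) (nat_lit 739350481) (nat_lit 2976) (nat_lit 38016856) (PL.cons (nat_lit 27179) (nat_lit 738698041) (nat_lit 2975) (nat_lit 37989677) (PL.cons (nat_lit 27143) (nat_lit 736742449) (nat_lit 2974) (nat_lit 37962534) (PL.cons (nat_lit 27127) (nat_lit 735874129) (nat_lit 2973) (nat_lit 37935407) (PL.cons (nat_lit 27109) (nat_lit 734897881) (nat_lit 2972) (nat_lit 37908298) (PL.cons (nat_lit 27107) (nat_lit 734789449) (nat_lit 2971) (nat_lit 37881191) (PL.cons (nat_lit 27103) (nat_lit 734572609) (nat_lit 2970) (nat_lit 37854088) (PL.cons (nat_lit 27091) (nat_lit 733922281) (nat_lit 2969) (nat_lit 37826997) (PL.cons (nat_lit 27077) (nat_lit 733163929) (nat_lit 2968) (nat_lit 37799920) (PL.cons (nat_lit 27073) (nat_lit 732947329) (nat_lit 2967) (nat_lit 37772847) (PL.cons (nat_lit 27067) (nat_lit 732622489) (nat_lit 2966) (nat_lit 37745780) (PL.cons (nat_lit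 27061) (nat_lit 732297721) (nat_lit 2965) (nat_lit 37718719) (PL.cons (nat_lit 27059) (nat_lit 732189481) (nat_lit 2964) (nat_lit 37691660) (PL.cons (nat_lit 27043) (nat_lit 731323849) (nat_lit 2963) (nat_lit 37664617) (PL.cons (nat_lit 27031) (nat_lit 730674961) (nat_lit 2962) (nat_lit 37637586) (PL.cons (nat_lit 27017) (nat_lit 729918289) (nat_lit 2961) (nat_lit 37610569) (PL.cons (nat_lit 27011) (nat_lit 729594121) (nat_lit 2960) (nat_lit 37583558) (PL.cons (nat_lit 26993) (nat_lit 728622049) (nat_lit 2959) (nat_lit 37556565) (PL.cons (nat_lit 26987) (nat_lit 728298169) (nat_lit 2958) (nat_lit 37529578) (PL.cons (nat_lit 26981) (nat_lit 727974361) (nat_lit 2957) (nat_lit 37502597) (PL.cons (nat_lit 26959) (nat_lit 726787681) (nat_lit 2956) (nat_lit 37475638) (PL.cons (nat_lit 26953) (nat_lit 726464209) (nat_lit 2955) (nat_lit 37448685) (PL.cons (nat_lit 26951) (nat_lit 726356401) (nat_lit 2954) (nat_lit 37421734) (PL.cons (nat_lit 26947) (nat_lit 726140809) (nat_lit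 2953) (nat_lit 37394787) (PL.cons (nat_lit 26927) (nat_lit 725063329) (nat_lit 2952) (nat_lit 37367860) (PL.cons (nat_lit 26921) (nat_lit 724740241) (nat_lit 2951) (nat_lit 37340939) (PL.cons (nat_lit 26903) (nat_lit 723771409) (nat_lit 2950) (nat_lit 37314036) (PL.cons (nat_lit 26893) (nat_lit 723233449) (nat_lit 2949) (nat_lit 37287143) (PL.cons (nat_lit 26891) (nat_lit 723125881) (nat_lit 2948) (nat_lit 37260252) (PL.cons (nat_lit 26881) (nat_lit 722588161) (nat_lit 2947) (nat_lit 37233371) (PL.cons (nat_lit 26879) (nat_lit 722480641) (nat_lit 2946) (nat_lit 37206492) (PL.cons (nat_lit 26863) (nat_lit 721620769) (nat_lit 2945) (nat_lit 37179629) (PL.cons (nat_lit 26861) (nat_lit 721513321) (nat_lit 2944) (nat_lit 37152768) (PL.cons (nat_lit 26849) (nat_lit 720868801) (nat_lit 2943) (nat_lit 37125919) (PL.cons (nat_lit 26839) (nat_lit 720331921) (nat_lit 2942) (nat_lit 37099080) (PL.cons (nat_lit 26833) (nat_lit 720009889) (nat_lit 2941) (nat_lit 37072247) (PL.cons (nat_lit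 26821) (nat_lit 719366041) (nat_lit 2940) (nat_lit 37045426) (PL.cons (nat_lit 26813) (nat_lit 718936969) (nat_lit 2939) (nat_lit 37018613) (PL.cons (nat_lit 26801) (nat_lit 718293601) (nat_lit 2938) (nat_lit 36991812) (PL.cons (nat_lit 26783) (nat_lit 717329089) (nat_lit 2937) (nat_lit 36965029) (PL.cons (nat_lit 26777) (nat_lit 717007729) (nat_lit 2936) (nat_lit 36938252) (PL.cons (nat_lit 26759) (nat_lit 716044081) (nat_lit 2935) (nat_lit 36911493) (PL.cons (nat_lit 26737) (nat_lit 714867169) (nat_lit 2934) (nat_lit 36884756) (PL.cons (nat_lit 26731) (nat_lit 714546361) (nat_lit 2933) (nat_lit 36858025) (PL.cons (nat_lit 26729) (nat_lit 714439441) (nat_lit 2932) (nat_lit 36831296) (PL.cons (nat_lit 26723) (nat_lit 714118729) (nat_lit 2931) (nat_lit 36804573) (PL.cons (nat_lit 26717) (nat_lit 713798089) (nat_lit 2930) (nat_lit 36777856) (PL.cons (nat_lit 26713) (nat_lit 713584369) (nat_lit 2929) (nat_lit 36751143) (PL.cons (nat_lit 26711) (nat_lit 713477521) (nat_lit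 2928) (nat_lit 36724432) (PL.cons (nat_lit 26701) (nat_lit 712943401) (nat_lit 2927) (nat_lit 36697731) (PL.cons (nat_lit 26699) (nat_lit 712836601) (nat_lit 2926) (nat_lit 36671032) (PL.cons (nat_lit 26693) (nat_lit 712516249) (nat_lit 2925) (nat_lit 36644339) (PL.cons (nat_lit 26687) (nat_lit 712195969) (nat_lit 2924) (nat_lit 36617652) (PL.cons (nat_lit 26683) (nat_lit 711982489) (nat_lit 2923) (nat_lit 36590969) (PL.cons (nat_lit 26681) (nat_lit 711875761) (nat_lit 2922) (nat_lit 36564288) (PL.cons (nat_lit 26669) (nat_lit 711235561) (nat_lit 2921) (nat_lit 36537619) (PL.cons (nat_lit 26647) (nat_lit 710062609) (nat_lit 2920) (nat_lit 36510972) (PL.cons (nat_lit 26641) (nat_lit 709742881) (nat_lit 2919) (nat_lit 36484331) (PL.cons (nat_lit 26633) (nat_lit 709316689) (nat_lit 2918) (nat_lit 36457698) (PL.cons (nat_lit 26627) (nat_lit 708997129) (nat_lit 2917) (nat_lit 36431071) (PL.cons (nat_lit 26597) (nat_lit 707400409) (nat_lit 2916) (nat_lit 36404474) (PL.cons (nat_lit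 26591) (nat_lit 707081281) (nat_lit 2915) (nat_lit 36377883) (PL.cons (nat_lit 26573) (nat_lit 706124329) (nat_lit 2914) (nat_lit 36351310) (PL.cons (nat_lit 26561) (nat_lit 705486721) (nat_lit 2913) (nat_lit 36324749) (PL.cons (nat_lit 26557) (nat_lit 705274249) (nat_lit 2912) (nat_lit 36298192) (PL.cons (nat_lit 26539) (nat_lit 704318521) (nat_lit 2911) (nat_lit 36271653) (PL.cons (nat_lit 26513) (nat_lit 702939169) (nat_lit 2910) (nat_lit 36245140) (PL.cons (nat_lit 26501) (nat_lit 702303001) (nat_lit 2909) (nat_lit 36218639) (PL.cons (nat_lit 26497) (nat_lit 702091009) (nat_lit 2908) (nat_lit 36192142) (PL.cons (nat_lit 26489) (nat_lit 701667121) (nat_lit 2907) (nat_lit 36165653) (PL.cons (nat_lit 26479) (nat_lit 701137441) (nat_lit 2906) (nat_lit 36139174) (PL.cons (nat_lit 26459) (nat_lit 700078681) (nat_lit 2905) (nat_lit 36112715) (PL.cons (nat_lit 26449) (nat_lit 699549601) (nat_lit 2904) (nat_lit 36086266) (PL.cons (nat_lit 26437) (nat_lit 698914969) (nat_lit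 2903) (nat_lit 36059829) (PL.cons (nat_lit 26431) (nat_lit 698597761) (nat_lit 2902) (nat_lit 36033398) (PL.cons (nat_lit 26423) (nat_lit 698174929) (nat_lit 2901) (nat_lit 36006975) (PL.cons (nat_lit 26417) (nat_lit 697857889) (nat_lit 2900) (nat_lit 35980558) (PL.cons (nat_lit 26407) (nat_lit 697329649) (nat_lit 2899) (nat_lit 35954151) (PL.cons (nat_lit 26399) (nat_lit 696907201) (nat_lit 2898) (nat_lit 35927752) (PL.cons (nat_lit 26393) (nat_lit 696590449) (nat_lit 2897) (nat_lit 35901359) (PL.cons (nat_lit 26387) (nat_lit 696273769) (nat_lit 2896) (nat_lit 35874972) (PL.cons (nat_lit 26371) (nat_lit 695429641) (nat_lit 2895) (nat_lit 35848601) (PL.cons (nat_lit 26357) (nat_lit 694691449) (nat_lit 2894) (nat_lit 35822244) (PL.cons (nat_lit 26347) (nat_lit 694164409) (nat_lit 2893) (nat_lit 35795897) (PL.cons (nat_lit 26339) (nat_lit 693742921) (nat_lit 2892) (nat_lit 35769558) (PL.cons (nat_lit 26321) (nat_lit 692795041) (nat_lit 2891) (nat_lit 35743237) (PL.cons (nat_lit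 26317) (nat_lit 692584489) (nat_lit 2890) (nat_lit 35716920) (PL.cons (nat_lit 26309) (nat_lit 692163481) (nat_lit 2889) (nat_lit 35690611) (PL.cons (nat_lit 26297) (nat_lit 691532209) (nat_lit 2888) (nat_lit 35664314) (PL.cons (nat_lit 26293) (nat_lit 691321849) (nat_lit 2887) (nat_lit 35638021) (PL.cons (nat_lit 26267) (nat_lit 689955289) (nat_lit 2886) (nat_lit 35611754) (PL.cons (nat_lit 26263) (nat_lit 689745169) (nat_lit 2885) (nat_lit 35585491) (PL.cons (nat_lit 26261) (nat_lit 689640121) (nat_lit 2884) (nat_lit 35559230) (PL.cons (nat_lit 26251) (nat_lit 689115001) (nat_lit 2883) (nat_lit 35532979) (PL.cons (nat_lit 26249) (nat_lit 689010001) (nat_lit 2882) (nat_lit 35506730) (PL.cons (nat_lit 26237) (nat_lit 688380169) (nat_lit 2881) (nat_lit 35480493) (PL.cons (nat_lit 26227) (nat_lit 687855529) (nat_lit 2880) (nat_lit 35454266) (PL.cons (nat_lit 26209) (nat_lit 686911681) (nat_lit 2879) (nat_lit 35428057) (PL.cons (nat_lit 26203) (nat_lit 686597209) (nat_lit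 2878) (nat_lit 35401854) (PL.cons (nat_lit 26189) (nat_lit 685863721) (nat_lit 2877) (nat_lit 35375665) (PL.cons (nat_lit 26183) (nat_lit 685549489) (nat_lit 2876) (nat_lit 35349482) (PL.cons (nat_lit 26177) (nat_lit 685235329) (nat_lit 2875) (nat_lit 35323305) (PL.cons (nat_lit 26171) (nat_lit 684921241) (nat_lit 2874) (nat_lit 35297134) (PL.cons (nat_lit 26161) (nat_lit 684397921) (nat_lit 2873) (nat_lit 35270973) (PL.cons (nat_lit 26153) (nat_lit 683979409) (nat_lit 2872) (nat_lit 35244820) (PL.cons (nat_lit 26141) (nat_lit 683351881) (nat_lit 2871) (nat_lit 35218679) (PL.cons (nat_lit 26119) (nat_lit 682202161) (nat_lit 2870) (nat_lit 35192560) (PL.cons (nat_lit 26113) (nat_lit 681888769) (nat_lit 2869) (nat_lit 35166447) (PL.cons (nat_lit 26111) (nat_lit 681784321) (nat_lit 2868) (nat_lit 35140336) (PL.cons (nat_lit 26107) (nat_lit 681575449) (nat_lit 2867) (nat_lit 35114229) (PL.cons (nat_lit 26099) (nat_lit 681157801) (nat_lit 2866) (nat_lit 35088130) (PL.cons (nat_lit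 26083) (nat_lit 680322889) (nat_lit 2865) (nat_lit 35062047) (PL.cons (nat_lit 26053) (nat_lit 678758809) (nat_lit 2864) (nat_lit 35035994) (PL.cons (nat_lit 26041) (nat_lit 678133681) (nat_lit 2863) (nat_lit 35009953) (PL.cons (nat_lit 26029) (nat_lit 677508841) (nat_lit 2862) (nat_lit 34983924) (PL.cons (nat_lit 26021) (nat_lit 677092441) (nat_lit 2861) (nat_lit 34957903) (PL.cons (nat_lit 26017) (nat_lit 676884289) (nat_lit 2860) (nat_lit 34931886) (PL.cons (nat_lit 26003) (nat_lit 676156009) (nat_lit 2859) (nat_lit 34905883) (PL.cons (nat_lit 25999) (nat_lit 675948001) (nat_lit 2858) (nat_lit 34879884) (PL.cons (nat_lit 25997) (nat_lit 675844009) (nat_lit 2857) (nat_lit 34853887) (PL.cons (nat_lit 25981) (nat_lit 675012361) (nat_lit 2856) (nat_lit 34827906) (PL.cons (nat_lit 25969) (nat_lit 674388961) (nat_lit 2855) (nat_lit 34801937) (PL.cons (nat_lit 25951) (nat_lit 673454401) (nat_lit 2854) (nat_lit 34775986) (PL.cons (nat_lit 25943) (nat_lit 673039249) (nat_lit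 2853) (nat_lit 34750043) (PL.cons (nat_lit 25939) (nat_lit 672831721) (nat_lit 2852) (nat_lit 34724104) (PL.cons (nat_lit 25933) (nat_lit 672520489) (nat_lit 2851) (nat_lit 34698171) (PL.cons (nat_lit 25931) (nat_lit 672416761) (nat_lit 2850) (nat_lit 34672240) (PL.cons (nat_lit 25919) (nat_lit 671794561) (nat_lit 2849) (nat_lit 34646321) (PL.cons (nat_lit 25913) (nat_lit 671483569) (nat_lit 2848) (nat_lit 34620408) (PL.cons (nat_lit 25903) (nat_lit 670965409) (nat_lit 2847) (nat_lit 34594505) (PL.cons (nat_lit 25889) (nat_lit 670240321) (nat_lit 2846) (nat_lit 34568616) (PL.cons (nat_lit 25873) (nat_lit 669412129) (nat_lit 2845) (nat_lit 34542743) (PL.cons (nat_lit 25867) (nat_lit 669101689) (nat_lit 2844) (nat_lit 34516876) (PL.cons (nat_lit 25849) (nat_lit 668170801) (nat_lit 2843) (nat_lit 34491027) (PL.cons (nat_lit 25847) (nat_lit 668067409) (nat_lit 2842) (nat_lit 34465180) (PL.cons (nat_lit 25841) (nat_lit 667757281) (nat_lit 2841) (nat_lit 34439339) (PL.cons (nat_lit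 25819) (nat_lit 666620761) (nat_lit 2840) (nat_lit 34413520) (PL.cons (nat_lit 25801) (nat_lit 665691601) (nat_lit 2839) (nat_lit 34387719) (PL.cons (nat_lit 25799) (nat_lit 665588401) (nat_lit 2838) (nat_lit 34361920) (PL.cons (nat_lit 25793) (nat_lit 665278849) (nat_lit 2837) (nat_lit 34336127) (PL.cons (nat_lit 25771) (nat_lit 664144441) (nat_lit 2836) (nat_lit 34310356) (PL.cons (nat_lit 25763) (nat_lit 663732169) (nat_lit 2835) (nat_lit 34284593) (PL.cons (nat_lit 25759) (nat_lit 663526081) (nat_lit 2834) (nat_lit 34258834) (PL.cons (nat_lit 25747) (nat_lit 662908009) (nat_lit 2833) (nat_lit 34233087) (PL.cons (nat_lit 25741) (nat_lit 662599081) (nat_lit 2832) (nat_lit 34207346) (PL.cons (nat_lit 25733) (nat_lit 662187289) (nat_lit 2831) (nat_lit 34181613) (PL.cons (nat_lit 25717) (nat_lit 661364089) (nat_lit 2830) (nat_lit 34155896) (PL.cons (nat_lit 25703) (nat_lit 660644209) (nat_lit 2829) (nat_lit 34130193) (PL.cons (nat_lit 25693) (nat_lit 660130249) (nat_lit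 2828) (nat_lit 34104500) (PL.cons (nat_lit 25679) (nat_lit 659411041) (nat_lit 2827) (nat_lit 34078821) (PL.cons (nat_lit 25673) (nat_lit 659102929) (nat_lit 2826) (nat_lit 34053148) (PL.cons (nat_lit 25667) (nat_lit 658794889) (nat_lit 2825) (nat_lit 34027481) (PL.cons (nat_lit 25657) (nat_lit 658281649) (nat_lit 2824) (nat_lit 34001824) (PL.cons (nat_lit 25643) (nat_lit 657563449) (nat_lit 2823) (nat_lit 33976181) (PL.cons (nat_lit 25639) (nat_lit 657358321) (nat_lit 2822) (nat_lit 33950542) (PL.cons (nat_lit 25633) (nat_lit 657050689) (nat_lit 2821) (nat_lit 33924909) (PL.cons (nat_lit 25621) (nat_lit 656435641) (nat_lit 2820) (nat_lit 33899288) (PL.cons (nat_lit 25609) (nat_lit 655820881) (nat_lit 2819) (nat_lit 33873679) (PL.cons (nat_lit 25603) (nat_lit 655513609) (nat_lit 2818) (nat_lit 33848076) (PL.cons (nat_lit 25601) (nat_lit 655411201) (nat_lit 2817) (nat_lit 33822475) (PL.cons (nat_lit 25589) (nat_lit 654796921) (nat_lit 2816) (nat_lit 33796886) (PL.cons (nat_lit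 25583) (nat_lit 654489889) (nat_lit 2815) (nat_lit 33771303) (PL.cons (nat_lit 25579) (nat_lit 654285241) (nat_lit 2814) (nat_lit 33745724) (PL.cons (nat_lit 25577) (nat_lit 654182929) (nat_lit 2813) (nat_lit 33720147) (PL.cons (nat_lit 25561) (nat_lit 653364721) (nat_lit 2812) (nat_lit 33694586) (PL.cons (nat_lit 25541) (nat_lit 652342681) (nat_lit 2811) (nat_lit 33669045) (PL.cons (nat_lit 25537) (nat_lit 652138369) (nat_lit 2810) (nat_lit 33643508) (PL.cons (nat_lit 25523) (nat_lit 651423529) (nat_lit 2809) (nat_lit 33617985) (PL.cons (nat_lit 25471) (nat_lit 648771841) (nat_lit 2808) (nat_lit 33592514) (PL.cons (nat_lit 25469) (nat_lit 648669961) (nat_lit 2807) (nat_lit 33567045) (PL.cons (nat_lit 25463) (nat_lit 648364369) (nat_lit 2806) (nat_lit 33541582) (PL.cons (nat_lit 25457) (nat_lit 648058849) (nat_lit 2805) (nat_lit 33516125) (PL.cons (nat_lit 25453) (nat_lit 647855209) (nat_lit 2804) (nat_lit 33490672) (PL.cons (nat_lit 25447) (nat_lit 647549809) (nat_lit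 2803) (nat_lit 33465225) (PL.cons (nat_lit 25439) (nat_lit 647142721) (nat_lit 2802) (nat_lit 33439786) (PL.cons (nat_lit 25423) (nat_lit 646328929) (nat_lit 2801) (nat_lit 33414363) (PL.cons (nat_lit 25411) (nat_lit 645718921) (nat_lit 2800) (nat_lit 33388952) (PL.cons (nat_lit 25409) (nat_lit 645617281) (nat_lit 2799) (nat_lit 33363543) (PL.cons (nat_lit 25391) (nat_lit 644702881) (nat_lit 2798) (nat_lit 33338152) (PL.cons (nat_lit 25373) (nat_lit 643789129) (nat_lit 2797) (nat_lit 33312779) (PL.cons (nat_lit 25367) (nat_lit 643484689) (nat_lit 2796) (nat_lit 33287412) (PL.cons (nat_lit 25357) (nat_lit 642977449) (nat_lit 2795) (nat_lit 33262055) (PL.cons (nat_lit 25349) (nat_lit 642571801) (nat_lit 2794) (nat_lit 33236706) (PL.cons (nat_lit 25343) (nat_lit 642267649) (nat_lit 2793) (nat_lit 33211363) (PL.cons (nat_lit 25339) (nat_lit 642064921) (nat_lit 2792) (nat_lit 33186024) (PL.cons (nat_lit 25321) (nat_lit 641153041) (nat_lit 2791) (nat_lit 33160703) (PL.cons (nat_lit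 25309) (nat_lit 640545481) (nat_lit 2790) (nat_lit 33135394) (PL.cons (nat_lit 25307) (nat_lit 640444249) (nat_lit 2789) (nat_lit 33110087) (PL.cons (nat_lit 25303) (nat_lit 640241809) (nat_lit 2788) (nat_lit 33084784) (PL.cons (nat_lit 25301) (nat_lit 640140601) (nat_lit 2787) (nat_lit 33059483) (PL.cons (nat_lit 25261) (nat_lit 638118121) (nat_lit 2786) (nat_lit 33034222) (PL.cons (nat_lit 25253) (nat_lit 637714009) (nat_lit 2785) (nat_lit 33008969) (PL.cons (nat_lit 25247) (nat_lit 637411009) (nat_lit 2784) (nat_lit 32983722) (PL.cons (nat_lit 25243) (nat_lit 637209049) (nat_lit 2783) (nat_lit 32958479) (PL.cons (nat_lit 25237) (nat_lit 636906169) (nat_lit 2782) (nat_lit 32933242) (PL.cons (nat_lit 25229) (nat_lit 636502441) (nat_lit 2781) (nat_lit 32908013) (PL.cons (nat_lit 25219) (nat_lit 635997961) (nat_lit 2780) (nat_lit 32882794) (PL.cons (nat_lit 25189) (nat_lit 634485721) (nat_lit 2779) (nat_lit 32857605) (PL.cons (nat_lit 25183) (nat_lit 634183489) (nat_lit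 2778) (nat_lit 32832422) (PL.cons (nat_lit 25171) (nat_lit 633579241) (nat_lit 2777) (nat_lit 32807251) (PL.cons (nat_lit 25169) (nat_lit 633478561) (nat_lit 2776) (nat_lit 32782082) (PL.cons (nat_lit 25163) (nat_lit 633176569) (nat_lit 2775) (nat_lit 32756919) (PL.cons (nat_lit 25153) (nat_lit 632673409) (nat_lit 2774) (nat_lit 32731766) (PL.cons (nat_lit 25147) (nat_lit 632371609) (nat_lit 2773) (nat_lit 32706619) (PL.cons (nat_lit 25127) (nat_lit 631366129) (nat_lit 2772) (nat_lit 32681492) (PL.cons (nat_lit 25121) (nat_lit 631064641) (nat_lit 2771) (nat_lit 32656371) (PL.cons (nat_lit 25117) (nat_lit 630863689) (nat_lit 2770) (nat_lit 32631254) (PL.cons (nat_lit 25111) (nat_lit 630562321) (nat_lit 2769) (nat_lit 32606143) (PL.cons (nat_lit 25097) (nat_lit 629859409) (nat_lit 2768) (nat_lit 32581046) (PL.cons (nat_lit 25087) (nat_lit 629357569) (nat_lit 2767) (nat_lit 32555959) (PL.cons (nat_lit 25073) (nat_lit 628655329) (nat_lit 2766) (nat_lit 32530886) (PL.cons (nat_lit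 25057) (nat_lit 627853249) (nat_lit 2765) (nat_lit 32505829) (PL.cons (nat_lit 25037) (nat_lit 626851369) (nat_lit 2764) (nat_lit 32480792) (PL.cons (nat_lit 25033) (nat_lit 626651089) (nat_lit 2763) (nat_lit 32455759) (PL.cons (nat_lit 25031) (nat_lit 626550961) (nat_lit 2762) (nat_lit 32430728) (PL.cons (nat_lit 25013) (nat_lit 625650169) (nat_lit 2761) (nat_lit 32405715) (PL.cons (nat_lit 24989) (nat_lit 624450121) (nat_lit 2760) (nat_lit 32380726) (PL.cons (nat_lit 24979) (nat_lit 623950441) (nat_lit 2759) (nat_lit 32355747) (PL.cons (nat_lit 24977) (nat_lit 623850529) (nat_lit 2758) (nat_lit 32330770) (PL.cons (nat_lit 24971) (nat_lit 623550841) (nat_lit 2757) (nat_lit 32305799) (PL.cons (nat_lit 24967) (nat_lit 623351089) (nat_lit 2756) (nat_lit 32280832) (PL.cons (nat_lit 24953) (nat_lit 622652209) (nat_lit 2755) (nat_lit 32255879) (PL.cons (nat_lit 24943) (nat_lit 622153249) (nat_lit 2754) (nat_lit 32230936) (PL.cons (nat_lit 24923) (nat_lit 621155929) (nat_lit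 2753) (nat_lit 32206013) (PL.cons (nat_lit 24919) (nat_lit 620956561) (nat_lit 2752) (nat_lit 32181094) (PL.cons (nat_lit 24917) (nat_lit 620856889) (nat_lit 2751) (nat_lit 32156177) (PL.cons (nat_lit 24907) (nat_lit 620358649) (nat_lit 2750) (nat_lit 32131270) (PL.cons (nat_lit 24889) (nat_lit 619462321) (nat_lit 2749) (nat_lit 32106381) (PL.cons (nat_lit 24877) (nat_lit 618865129) (nat_lit 2748) (nat_lit 32081504) (PL.cons (nat_lit 24859) (nat_lit 617969881) (nat_lit 2747) (nat_lit 32056645) (PL.cons (nat_lit 24851) (nat_lit 617572201) (nat_lit 2746) (nat_lit 32031794) (PL.cons (nat_lit 24847) (nat_lit 617373409) (nat_lit 2745) (nat_lit 32006947) (PL.cons (nat_lit 24841) (nat_lit 617075281) (nat_lit 2744) (nat_lit 31982106) (PL.cons (nat_lit 24821) (nat_lit 616082041) (nat_lit 2743) (nat_lit 31957285) (PL.cons (nat_lit 24809) (nat_lit 615486481) (nat_lit 2742) (nat_lit 31932476) (PL.cons (nat_lit 24799) (nat_lit 614990401) (nat_lit 2741) (nat_lit 31907677) (PL.cons (nat_lit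 24793) (nat_lit 614692849) (nat_lit 2740) (nat_lit 31882884) (PL.cons (nat_lit 24781) (nat_lit 614097961) (nat_lit 2739) (nat_lit 31858103) (PL.cons (nat_lit 24767) (nat_lit 613404289) (nat_lit 2738) (nat_lit 31833336) (PL.cons (nat_lit 24763) (nat_lit 613206169) (nat_lit 2737) (nat_lit 31808573) (PL.cons (nat_lit 24749) (nat_lit 612513001) (nat_lit 2736) (nat_lit 31783824) (PL.cons (nat_lit 24733) (nat_lit 611721289) (nat_lit 2735) (nat_lit 31759091) (PL.cons (nat_lit 24709) (nat_lit 610534681) (nat_lit 2734) (nat_lit 31734382) (PL.cons (nat_lit 24697) (nat_lit 609941809) (nat_lit 2733) (nat_lit 31709685) (PL.cons (nat_lit 24691) (nat_lit 609645481) (nat_lit 2732) (nat_lit 31684994) (PL.cons (nat_lit 24683) (nat_lit 609250489) (nat_lit 2731) (nat_lit 31660311) (PL.cons (nat_lit 24677) (nat_lit 608954329) (nat_lit 2730) (nat_lit 31635634) (PL.cons (nat_lit 24671) (nat_lit 608658241) (nat_lit 2729) (nat_lit 31610963) (PL.cons (nat_lit 24659) (nat_lit 608066281) (nat_lit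 2728) (nat_lit 31586304) (PL.cons (nat_lit 24631) (nat_lit 606686161) (nat_lit 2727) (nat_lit 31561673) (PL.cons (nat_lit 24623) (nat_lit 606292129) (nat_lit 2726) (nat_lit 31537050) (PL.cons (nat_lit 24611) (nat_lit 605701321) (nat_lit 2725) (nat_lit 31512439) (PL.cons (nat_lit 24593) (nat_lit 604815649) (nat_lit 2724) (nat_lit 31487846) (PL.cons (nat_lit 24571) (nat_lit 603734041) (nat_lit 2723) (nat_lit 31463275) (PL.cons (nat_lit 24551) (nat_lit 602751601) (nat_lit 2722) (nat_lit 31438724) (PL.cons (nat_lit 24547) (nat_lit 602555209) (nat_lit 2721) (nat_lit 31414177) (PL.cons (nat_lit 24533) (nat_lit 601868089) (nat_lit 2720) (nat_lit 31389644) (PL.cons (nat_lit 24527) (nat_lit 601573729) (nat_lit 2719) (nat_lit 31365117) (PL.cons (nat_lit 24517) (nat_lit 601083289) (nat_lit 2718) (nat_lit 31340600) (PL.cons (nat_lit 24509) (nat_lit 600691081) (nat_lit 2717) (nat_lit 31316091) (PL.cons (nat_lit 24499) (nat_lit 600201001) (nat_lit 2716) (nat_lit 31291592) (PL.cons (nat_lit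 24481) (nat_lit 599319361) (nat_lit 2715) (nat_lit 31267111) (PL.cons (nat_lit 24473) (nat_lit 598927729) (nat_lit 2714) (nat_lit 31242638) (PL.cons (nat_lit 24469) (nat_lit 598731961) (nat_lit 2713) (nat_lit 31218169) (PL.cons (nat_lit 24443) (nat_lit 597460249) (nat_lit 2712) (nat_lit 31193726) (PL.cons (nat_lit 24439) (nat_lit 597264721) (nat_lit 2711) (nat_lit 31169287) (PL.cons (nat_lit 24421) (nat_lit 596385241) (nat_lit 2710) (nat_lit 31144866) (PL.cons (nat_lit 24419) (nat_lit 596287561) (nat_lit 2709) (nat_lit 31120447) (PL.cons (nat_lit 24413) (nat_lit 595994569) (nat_lit 2708) (nat_lit 31096034) (PL.cons (nat_lit 24407) (nat_lit 595701649) (nat_lit 2707) (nat_lit 31071627) (PL.cons (nat_lit 24391) (nat_lit 594920881) (nat_lit 2706) (nat_lit 31047236) (PL.cons (nat_lit 24379) (nat_lit 594335641) (nat_lit 2705) (nat_lit 31022857) (PL.cons (nat_lit 24373) (nat_lit 594043129) (nat_lit 2704) (nat_lit 30998484) (PL.cons (nat_lit 24371) (nat_lit 593945641) (nat_lit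 2703) (nat_lit 30974113) (PL.cons (nat_lit 24359) (nat_lit 593360881) (nat_lit 2702) (nat_lit 30949754) (PL.cons (nat_lit 24337) (nat_lit 592289569) (nat_lit 2701) (nat_lit 30925417) (PL.cons (nat_lit 24329) (nat_lit 591900241) (nat_lit 2700) (nat_lit 30901088) (PL.cons (nat_lit 24317) (nat_lit 591316489) (nat_lit 2699) (nat_lit 30876771) (PL.cons (nat_lit 24281) (nat_lit 589566961) (nat_lit 2698) (nat_lit 30852490) (PL.cons (nat_lit 24251) (nat_lit 588111001) (nat_lit 2697) (nat_lit 30828239) (PL.cons (nat_lit 24247) (nat_lit 587917009) (nat_lit 2696) (nat_lit 30803992) (PL.cons (nat_lit 24239) (nat_lit 587529121) (nat_lit 2695) (nat_lit 30779753) (PL.cons (nat_lit 24229) (nat_lit 587044441) (nat_lit 2694) (nat_lit 30755524) (PL.cons (nat_lit 24223) (nat_lit 586753729) (nat_lit 2693) (nat_lit 30731301) (PL.cons (nat_lit 24203) (nat_lit 585785209) (nat_lit 2692) (nat_lit 30707098) (PL.cons (nat_lit 24197) (nat_lit 585494809) (nat_lit 2691) (nat_lit 30682901) (PL.cons (nat_lit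 24181) (nat_lit 584720761) (nat_lit 2690) (nat_lit 30658720) (PL.cons (nat_lit 24179) (nat_lit 584624041) (nat_lit 2689) (nat_lit 30634541) (PL.cons (nat_lit 24169) (nat_lit 584140561) (nat_lit 2688) (nat_lit 30610372) (PL.cons (nat_lit 24151) (nat_lit 583270801) (nat_lit 2687) (nat_lit 30586221) (PL.cons (nat_lit 24137) (nat_lit 582594769) (nat_lit 2686) (nat_lit 30562084) (PL.cons (nat_lit 24133) (nat_lit 582401689) (nat_lit 2685) (nat_lit 30537951) (PL.cons (nat_lit 24121) (nat_lit 581822641) (nat_lit 2684) (nat_lit 30513830) (PL.cons (nat_lit 24113) (nat_lit 581436769) (nat_lit 2683) (nat_lit 30489717) (PL.cons (nat_lit 24109) (nat_lit 581243881) (nat_lit 2682) (nat_lit 30465608) (PL.cons (nat_lit 24107) (nat_lit 581147449) (nat_lit 2681) (nat_lit 30441501) (PL.cons (nat_lit 24103) (nat_lit 580954609) (nat_lit 2680) (nat_lit 30417398) (PL.cons (nat_lit 24097) (nat_lit 580665409) (nat_lit 2679) (nat_lit 30393301) (PL.cons (nat_lit 24091) (nat_lit 580376281) (nat_lit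 2678) (nat_lit 30369210) (PL.cons (nat_lit 24083) (nat_lit 579990889) (nat_lit 2677) (nat_lit 30345127) (PL.cons (nat_lit 24077) (nat_lit 579701929) (nat_lit 2676) (nat_lit 30321050) (PL.cons (nat_lit 24071) (nat_lit 579413041) (nat_lit 2675) (nat_lit 30296979) (PL.cons (nat_lit 24061) (nat_lit 578931721) (nat_lit 2674) (nat_lit 30272918) (PL.cons (nat_lit 24049) (nat_lit 578354401) (nat_lit 2673) (nat_lit 30248869) (PL.cons (nat_lit 24043) (nat_lit 578065849) (nat_lit 2672) (nat_lit 30224826) (PL.cons (nat_lit 24029) (nat_lit 577392841) (nat_lit 2671) (nat_lit 30200797) (PL.cons (nat_lit 24023) (nat_lit 577104529) (nat_lit 2670) (nat_lit 30176774) (PL.cons (nat_lit 24019) (nat_lit 576912361) (nat_lit 2669) (nat_lit 30152755) (PL.cons (nat_lit 24007) (nat_lit 576336049) (nat_lit 2668) (nat_lit 30128748) (PL.cons (nat_lit 24001) (nat_lit 576048001) (nat_lit 2667) (nat_lit 30104747) (PL.cons (nat_lit 23993) (nat_lit 575664049) (nat_lit 2666) (nat_lit 30080754) (PL.cons (nat_lit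 23981) (nat_lit 575088361) (nat_lit 2665) (nat_lit 30056773) (PL.cons (nat_lit 23977) (nat_lit 574896529) (nat_lit 2664) (nat_lit 30032796) (PL.cons (nat_lit 23971) (nat_lit 574608841) (nat_lit 2663) (nat_lit 30008825) (PL.cons (nat_lit 23957) (nat_lit 573937849) (nat_lit 2662) (nat_lit 29984868) (PL.cons (nat_lit 23929) (nat_lit 572597041) (nat_lit 2661) (nat_lit 29960939) (PL.cons (nat_lit 23917) (nat_lit 572022889) (nat_lit 2660) (nat_lit 29937022) (PL.cons (nat_lit 23911) (nat_lit 571735921) (nat_lit 2659) (nat_lit 29913111) (PL.cons (nat_lit 23909) (nat_lit 571640281) (nat_lit 2658) (nat_lit 29889202) (PL.cons (nat_lit 23899) (nat_lit 571162201) (nat_lit 2657) (nat_lit 29865303) (PL.cons (nat_lit 23893) (nat_lit 570875449) (nat_lit 2656) (nat_lit 29841410) (PL.cons (nat_lit 23887) (nat_lit 570588769) (nat_lit 2655) (nat_lit 29817523) (PL.cons (nat_lit 23879) (nat_lit 570206641) (nat_lit 2654) (nat_lit 29793644) (PL.cons (nat_lit 23873) (nat_lit 569920129) (nat_lit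 2653) (nat_lit 29769771) (PL.cons (nat_lit 23869) (nat_lit 569729161) (nat_lit 2652) (nat_lit 29745902) (PL.cons (nat_lit 23857) (nat_lit 569156449) (nat_lit 2651) (nat_lit 29722045) (PL.cons (nat_lit 23833) (nat_lit 568011889) (nat_lit 2650) (nat_lit 29698212) (PL.cons (nat_lit 23831) (nat_lit 567916561) (nat_lit 2649) (nat_lit 29674381) (PL.cons (nat_lit 23827) (nat_lit 567725929) (nat_lit 2648) (nat_lit 29650554) (PL.cons (nat_lit 23819) (nat_lit 567344761) (nat_lit 2647) (nat_lit 29626735) (PL.cons (nat_lit 23813) (nat_lit 567058969) (nat_lit 2646) (nat_lit 29602922) (PL.cons (nat_lit 23801) (nat_lit 566487601) (nat_lit 2645) (nat_lit 29579121) (PL.cons (nat_lit 23789) (nat_lit 565916521) (nat_lit 2644) (nat_lit 29555332) (PL.cons (nat_lit 23773) (nat_lit 565155529) (nat_lit 2643) (nat_lit 29531559) (PL.cons (nat_lit 23767) (nat_lit 564870289) (nat_lit 2642) (nat_lit 29507792) (PL.cons (nat_lit 23761) (nat_lit 564585121) (nat_lit 2641) (nat_lit 29484031) (PL.cons (nat_lit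 23753) (nat_lit 564205009) (nat_lit 2640) (nat_lit 29460278) (PL.cons (nat_lit 23747) (nat_lit 563920009) (nat_lit 2639) (nat_lit 29436531) (PL.cons (nat_lit 23743) (nat_lit 563730049) (nat_lit 2638) (nat_lit 29412788) (PL.cons (nat_lit 23741) (nat_lit 563635081) (nat_lit 2637) (nat_lit 29389047) (PL.cons (nat_lit 23719) (nat_lit 562590961) (nat_lit 2636) (nat_lit 29365328) (PL.cons (nat_lit 23689) (nat_lit 561168721) (nat_lit 2635) (nat_lit 29341639) (PL.cons (nat_lit 23687) (nat_lit 561073969) (nat_lit 2634) (nat_lit 29317952) (PL.cons (nat_lit 23677) (nat_lit 560600329) (nat_lit 2633) (nat_lit 29294275) (PL.cons (nat_lit 23671) (nat_lit 560316241) (nat_lit 2632) (nat_lit 29270604) (PL.cons (nat_lit 23669) (nat_lit 560221561) (nat_lit 2631) (nat_lit 29246935) (PL.cons (nat_lit 23663) (nat_lit 559937569) (nat_lit 2630) (nat_lit 29223272) (PL.cons (nat_lit 23633) (nat_lit 558518689) (nat_lit 2629) (nat_lit 29199639) (PL.cons (nat_lit 23629) (nat_lit 558329641) (nat_lit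 2628) (nat_lit 29176010) (PL.cons (nat_lit 23627) (nat_lit 558235129) (nat_lit 2627) (nat_lit 29152383) (PL.cons (nat_lit 23623) (nat_lit 558046129) (nat_lit 2626) (nat_lit 29128760) (PL.cons (nat_lit 23609) (nat_lit 557384881) (nat_lit 2625) (nat_lit 29105151) (PL.cons (nat_lit 23603) (nat_lit 557101609) (nat_lit 2624) (nat_lit 29081548) (PL.cons (nat_lit 23599) (nat_lit 556912801) (nat_lit 2623) (nat_lit 29057949) (PL.cons (nat_lit 23593) (nat_lit 556629649) (nat_lit 2622) (nat_lit 29034356) (PL.cons (nat_lit 23581) (nat_lit 556063561) (nat_lit 2621) (nat_lit 29010775) (PL.cons (nat_lit 23567) (nat_lit 555403489) (nat_lit 2620) (nat_lit 28987208) (PL.cons (nat_lit 23563) (nat_lit 555214969) (nat_lit 2619) (nat_lit 28963645) (PL.cons (nat_lit 23561) (nat_lit 555120721) (nat_lit 2618) (nat_lit 28940084) (PL.cons (nat_lit 23557) (nat_lit 554932249) (nat_lit 2617) (nat_lit 28916527) (PL.cons (nat_lit 23549) (nat_lit 554555401) (nat_lit 2616) (nat_lit 28892978) (PL.cons (nat_lit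 23539) (nat_lit 554084521) (nat_lit 2615) (nat_lit 28869439) (PL.cons (nat_lit 23537) (nat_lit 553990369) (nat_lit 2614) (nat_lit 28845902) (PL.cons (nat_lit 23531) (nat_lit 553707961) (nat_lit 2613) (nat_lit 28822371) (PL.cons (nat_lit 23509) (nat_lit 552673081) (nat_lit 2612) (nat_lit 28798862) (PL.cons (nat_lit 23497) (nat_lit 552109009) (nat_lit 2611) (nat_lit 28775365) (PL.cons (nat_lit 23473) (nat_lit 550981729) (nat_lit 2610) (nat_lit 28751892) (PL.cons (nat_lit 23459) (nat_lit 550324681) (nat_lit 2609) (nat_lit 28728433) (PL.cons (nat_lit 23447) (nat_lit 549761809) (nat_lit 2608) (nat_lit 28704986) (PL.cons (nat_lit 23431) (nat_lit 549011761) (nat_lit 2607) (nat_lit 28681555) (PL.cons (nat_lit 23417) (nat_lit 548355889) (nat_lit 2606) (nat_lit 28658138) (PL.cons (nat_lit 23399) (nat_lit 547513201) (nat_lit 2605) (nat_lit 28634739) (PL.cons (nat_lit 23371) (nat_lit 546203641) (nat_lit 2604) (nat_lit 28611368) (PL.cons (nat_lit 23369) (nat_lit 546110161) (nat_lit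 2603) (nat_lit 28587999) (PL.cons (nat_lit 23357) (nat_lit 545549449) (nat_lit 2602) (nat_lit 28564642) (PL.cons (nat_lit 23339) (nat_lit 544708921) (nat_lit 2601) (nat_lit 28541303) (PL.cons (nat_lit 23333) (nat_lit 544428889) (nat_lit 2600) (nat_lit 28517970) (PL.cons (nat_lit 23327) (nat_lit 544148929) (nat_lit 2599) (nat_lit 28494643) (PL.cons (nat_lit 23321) (nat_lit 543869041) (nat_lit 2598) (nat_lit 28471322) (PL.cons (nat_lit 23311) (nat_lit 543402721) (nat_lit 2597) (nat_lit 28448011) (PL.cons (nat_lit 23297) (nat_lit 542750209) (nat_lit 2596) (nat_lit 28424714) (PL.cons (nat_lit 23293) (nat_lit 542563849) (nat_lit 2595) (nat_lit 28401421) (PL.cons (nat_lit 23291) (nat_lit 542470681) (nat_lit 2594) (nat_lit 28378130) (PL.cons (nat_lit 23279) (nat_lit 541911841) (nat_lit 2593) (nat_lit 28354851) (PL.cons (nat_lit 23269) (nat_lit 541446361) (nat_lit 2592) (nat_lit 28331582) (PL.cons (nat_lit 23251) (nat_lit 540609001) (nat_lit 2591) (nat_lit 28308331) (PL.cons (nat_lit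 23227) (nat_lit 539493529) (nat_lit 2590) (nat_lit 28285104) L15))))))))))))))))))))))))))))))))))))))))))))))))))))))))))))))))))))))))))))))))))))))))))))))))))))))))))))))))))))))))))))))))))))))))))))))))))))))))))))))))))))))))))))))))))))))))))))))))))))))))))))))))))))))))))))))))))))))))))))))))))))))))))))))))))))))))))))))))))))))))))))))))))))))))))))))))))))))))))))))))))))))))))))))))))))))))))))))))))))))))))))))))))))))))))))))))))))

def L17 : PL := (PL.cons (nat_lit 31247) (nat_lit 976375009) (nat_lit 3365) (nat_lit 49382355) (PL.cons (nat_lit 31237) (nat_lit 975750169) (nat_lit 3364) (nat_lit 49351118) (PL.cons (nat_lit 31231) (nat_lit 975375361) (nat_lit 3363) (nat_lit 49319887) (PL.cons (nat_lit 31223) (nat_lit 974875729) (nat_lit 3362) (nat_lit 49288664) (PL.cons (nat_lit 31219) (nat_lit 974625961) (nat_lit 3361) (nat_lit 49257445) (PL.cons (nat_lit 31193) (nat_lit 973003249) (nat_lit 3360) (nat_lit 49226252) (PL.cons (nat_lit 31189) (nat_lit 972753721)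 (nat_lit 3359) (nat_lit 49195063) (PL.cons (nat_lit 31183) (nat_lit 972379489) (nat_lit 3358) (nat_lit 49163880) (PL.cons (nat_lit 31181) (nat_lit 972254761) (nat_lit 3357) (nat_lit 49132699) (PL.cons (nat_lit 31177) (nat_lit 972005329) (nat_lit 3356) (nat_lit 49101522) (PL.cons (nat_lit 31159) (nat_lit 970883281) (nat_lit 3355) (nat_lit 49070363) (PL.cons (nat_lit 31153) (nat_lit 970509409) (nat_lit 3354) (nat_lit 49039210) (PL.cons (nat_lit 31151) (nat_lit 970384801) (nat_lit 3353) (nat_lit 49008059) (PL.cons (nat_lit 31147) (nat_lit 970135609) (nat_lit 3352) (nat_lit 48976912) (PL.cons (nat_lit 31139) (nat_lit 969637321) (nat_lit 3351) (nat_lit 48945773) (PL.cons (nat_lit 31123) (nat_lit 968641129) (nat_lit 3350) (nat_lit 48914650) (PL.cons (nat_lit 31121) (nat_lit 968516641) (nat_lit 3349) (nat_lit 48883529) (PL.cons (nat_lit 31091) (nat_lit 966650281) (nat_lit 3348) (nat_lit 48852438) (PL.cons (nat_lit 31081) (nat_lit 966028561) (nat_lit 3347) (nat_lit 48821357) (PL.cons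 (nat_lit 31079) (nat_lit 965904241) (nat_lit 3346) (nat_lit 48790278) (PL.cons (nat_lit 31069) (nat_lit 965282761) (nat_lit 3345) (nat_lit 48759209) (PL.cons (nat_lit 31063) (nat_lit 964909969) (nat_lit 3344) (nat_lit 48728146) (PL.cons (nat_lit 31051) (nat_lit 964164601) (nat_lit 3343) (nat_lit 48697095) (PL.cons (nat_lit 31039) (nat_lit 963419521) (nat_lit 3342) (nat_lit 48666056) (PL.cons (nat_lit 31033) (nat_lit 963047089) (nat_lit 3341) (nat_lit 48635023) (PL.cons (nat_lit 31019) (nat_lit 962178361) (nat_lit 3340) (nat_lit 48604004) (PL.cons (nat_lit 31013) (nat_lit 961806169) (nat_lit 3339) (nat_lit 48572991) (PL.cons (nat_lit 30983) (nat_lit 959946289) (nat_lit 3338) (nat_lit 48542008) (PL.cons (nat_lit 30977) (nat_lit 959574529) (nat_lit 3337) (nat_lit 48511031) (PL.cons (nat_lit 30971) (nat_lit 959202841) (nat_lit 3336) (nat_lit 48480060) (PL.cons (nat_lit 30949) (nat_lit 957840601) (nat_lit 3335) (nat_lit 48449111) (PL.cons (nat_lit 30941) (nat_lit 957345481)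 (nat_lit 3334) (nat_lit 48418170) (PL.cons (nat_lit 30937) (nat_lit 957097969) (nat_lit 3333) (nat_lit 48387233) (PL.cons (nat_lit 30931) (nat_lit 956726761) (nat_lit 3332) (nat_lit 48356302) (PL.cons (nat_lit 30911) (nat_lit 955489921) (nat_lit 3331) (nat_lit 48325391) (PL.cons (nat_lit 30893) (nat_lit 954377449) (nat_lit 3330) (nat_lit 48294498) (PL.cons (nat_lit 30881) (nat_lit 953636161) (nat_lit 3329) (nat_lit 48263617) (PL.cons (nat_lit 30871) (nat_lit 953018641) (nat_lit 3328) (nat_lit 48232746) (PL.cons (nat_lit 30869) (nat_lit 952895161) (nat_lit 3327) (nat_lit 48201877) (PL.cons (nat_lit 30859) (nat_lit 952277881) (nat_lit 3326) (nat_lit 48171018) (PL.cons (nat_lit 30853) (nat_lit 951907609) (nat_lit 3325) (nat_lit 48140165) (PL.cons (nat_lit 30851) (nat_lit 951784201) (nat_lit 3324) (nat_lit 48109314) (PL.cons (nat_lit 30841) (nat_lit 951167281) (nat_lit 3323) (nat_lit 48078473) (PL.cons (nat_lit 30839) (nat_lit 951043921) (nat_lit 3322) (nat_lit 48047634) (PL.cons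 (nat_lit 30829) (nat_lit 950427241) (nat_lit 3321) (nat_lit 48016805) (PL.cons (nat_lit 30817) (nat_lit 949687489) (nat_lit 3320) (nat_lit 47985988) (PL.cons (nat_lit 30809) (nat_lit 949194481) (nat_lit 3319) (nat_lit 47955179) (PL.cons (nat_lit 30803) (nat_lit 948824809) (nat_lit 3318) (nat_lit 47924376) (PL.cons (nat_lit 30781) (nat_lit 947469961) (nat_lit 3317) (nat_lit 47893595) (PL.cons (nat_lit 30773) (nat_lit 946977529) (nat_lit 3316) (nat_lit 47862822) (PL.cons (nat_lit 30763) (nat_lit 946362169) (nat_lit 3315) (nat_lit 47832059) (PL.cons (nat_lit 30757) (nat_lit 945993049) (nat_lit 3314) (nat_lit 47801302) (PL.cons (nat_lit 30727) (nat_lit 944148529) (nat_lit 3313) (nat_lit 47770575) (PL.cons (nat_lit 30713) (nat_lit 943288369) (nat_lit 3312) (nat_lit 47739862) (PL.cons (nat_lit 30707) (nat_lit 942919849) (nat_lit 3311) (nat_lit 47709155) (PL.cons (nat_lit 30703) (nat_lit 942674209) (nat_lit 3310) (nat_lit 47678452) (PL.cons (nat_lit 30697) (nat_lit 942305809)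 (nat_lit 3309) (nat_lit 47647755) (PL.cons (nat_lit 30689) (nat_lit 941814721) (nat_lit 3308) (nat_lit 47617066) (PL.cons (nat_lit 30677) (nat_lit 941078329) (nat_lit 3307) (nat_lit 47586389) (PL.cons (nat_lit 30671) (nat_lit 940710241) (nat_lit 3306) (nat_lit 47555718) (PL.cons (nat_lit 30661) (nat_lit 940096921) (nat_lit 3305) (nat_lit 47525057) (PL.cons (nat_lit 30649) (nat_lit 939361201) (nat_lit 3304) (nat_lit 47494408) (PL.cons (nat_lit 30643) (nat_lit 938993449) (nat_lit 3303) (nat_lit 47463765) (PL.cons (nat_lit 30637) (nat_lit 938625769) (nat_lit 3302) (nat_lit 47433128) (PL.cons (nat_lit 30631) (nat_lit 938258161) (nat_lit 3301) (nat_lit 47402497) (PL.cons (nat_lit 30593) (nat_lit 935931649) (nat_lit 3300) (nat_lit 47371904) (PL.cons (nat_lit 30577) (nat_lit 934952929) (nat_lit 3299) (nat_lit 47341327) (PL.cons (nat_lit 30559) (nat_lit 933852481) (nat_lit 3298) (nat_lit 47310768) (PL.cons (nat_lit 30557) (nat_lit 933730249) (nat_lit 3297) (nat_lit 47280211) (PL.cons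 (nat_lit 30553) (nat_lit 933485809) (nat_lit 3296) (nat_lit 47249658) (PL.cons (nat_lit 30539) (nat_lit 932630521) (nat_lit 3295) (nat_lit 47219119) (PL.cons (nat_lit 30529) (nat_lit 932019841) (nat_lit 3294) (nat_lit 47188590) (PL.cons (nat_lit 30517) (nat_lit 931287289) (nat_lit 3293) (nat_lit 47158073) (PL.cons (nat_lit 30509) (nat_lit 930799081) (nat_lit 3292) (nat_lit 47127564) (PL.cons (nat_lit 30497) (nat_lit 930067009) (nat_lit 3291) (nat_lit 47097067) (PL.cons (nat_lit 30493) (nat_lit 929823049) (nat_lit 3290) (nat_lit 47066574) (PL.cons (nat_lit 30491) (nat_lit 929701081) (nat_lit 3289) (nat_lit 47036083) (PL.cons (nat_lit 30469) (nat_lit 928359961) (nat_lit 3288) (nat_lit 47005614) (PL.cons (nat_lit 30467) (nat_lit 928238089) (nat_lit 3287) (nat_lit 46975147) (PL.cons (nat_lit 30449) (nat_lit 927141601) (nat_lit 3286) (nat_lit 46944698) (PL.cons (nat_lit 30431) (nat_lit 926045761) (nat_lit 3285) (nat_lit 46914267) (PL.cons (nat_lit 30427) (nat_lit 925802329)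 (nat_lit 3284) (nat_lit 46883840) (PL.cons (nat_lit 30403) (nat_lit 924342409) (nat_lit 3283) (nat_lit 46853437) (PL.cons (nat_lit 30391) (nat_lit 923612881) (nat_lit 3282) (nat_lit 46823046) (PL.cons (nat_lit 30389) (nat_lit 923491321) (nat_lit 3281) (nat_lit 46792657) (PL.cons (nat_lit 30367) (nat_lit 922154689) (nat_lit 3280) (nat_lit 46762290) (PL.cons (nat_lit 30347) (nat_lit 920940409) (nat_lit 3279) (nat_lit 46731943) (PL.cons (nat_lit 30341) (nat_lit 920576281) (nat_lit 3278) (nat_lit 46701602) (PL.cons (nat_lit 30323) (nat_lit 919484329) (nat_lit 3277) (nat_lit 46671279) (PL.cons (nat_lit 30319) (nat_lit 919241761) (nat_lit 3276) (nat_lit 46640960) (PL.cons (nat_lit 30313) (nat_lit 918877969) (nat_lit 3275) (nat_lit 46610647) (PL.cons (nat_lit 30307) (nat_lit 918514249) (nat_lit 3274) (nat_lit 46580340) (PL.cons (nat_lit 30293) (nat_lit 917665849) (nat_lit 3273) (nat_lit 46550047) (PL.cons (nat_lit 30271) (nat_lit 916333441) (nat_lit 3272) (nat_lit 46519776) (PL.cons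 (nat_lit 30269) (nat_lit 916212361) (nat_lit 3271) (nat_lit 46489507) (PL.cons (nat_lit 30259) (nat_lit 915607081) (nat_lit 3270) (nat_lit 46459248) (PL.cons (nat_lit 30253) (nat_lit 915244009) (nat_lit 3269) (nat_lit 46428995) (PL.cons (nat_lit 30241) (nat_lit 914518081) (nat_lit 3268) (nat_lit 46398754) (PL.cons (nat_lit 30223) (nat_lit 913429729) (nat_lit 3267) (nat_lit 46368531) (PL.cons (nat_lit 30211) (nat_lit 912704521) (nat_lit 3266) (nat_lit 46338320) (PL.cons (nat_lit 30203) (nat_lit 912221209) (nat_lit 3265) (nat_lit 46308117) (PL.cons (nat_lit 30197) (nat_lit 911858809) (nat_lit 3264) (nat_lit 46277920) (PL.cons (nat_lit 30187) (nat_lit 911254969) (nat_lit 3263) (nat_lit 46247733) (PL.cons (nat_lit 30181) (nat_lit 910892761) (nat_lit 3262) (nat_lit 46217552) (PL.cons (nat_lit 30169) (nat_lit 910168561) (nat_lit 3261) (nat_lit 46187383) (PL.cons (nat_lit 30161) (nat_lit 909685921) (nat_lit 3260) (nat_lit 46157222) (PL.cons (nat_lit 30139) (nat_lit 908359321)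 (nat_lit 3259) (nat_lit 46127083) (PL.cons (nat_lit 30137) (nat_lit 908238769) (nat_lit 3258) (nat_lit 46096946) (PL.cons (nat_lit 30133) (nat_lit 907997689) (nat_lit 3257) (nat_lit 46066813) (PL.cons (nat_lit 30119) (nat_lit 907154161) (nat_lit 3256) (nat_lit 46036694) (PL.cons (nat_lit 30113) (nat_lit 906792769) (nat_lit 3255) (nat_lit 46006581) (PL.cons (nat_lit 30109) (nat_lit 906551881) (nat_lit 3254) (nat_lit 45976472) (PL.cons (nat_lit 30103) (nat_lit 906190609) (nat_lit 3253) (nat_lit 45946369) (PL.cons (nat_lit 30097) (nat_lit 905829409) (nat_lit 3252) (nat_lit 45916272) (PL.cons (nat_lit 30091) (nat_lit 905468281) (nat_lit 3251) (nat_lit 45886181) (PL.cons (nat_lit 30089) (nat_lit 905347921) (nat_lit 3250) (nat_lit 45856092) (PL.cons (nat_lit 30071) (nat_lit 904265041) (nat_lit 3249) (nat_lit 45826021) (PL.cons (nat_lit 30059) (nat_lit 903543481) (nat_lit 3248) (nat_lit 45795962) (PL.cons (nat_lit 30047) (nat_lit 902822209) (nat_lit 3247) (nat_lit 45765915) (PL.cons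 (nat_lit 30029) (nat_lit 901740841) (nat_lit 3246) (nat_lit 45735886) (PL.cons (nat_lit 30013) (nat_lit 900780169) (nat_lit 3245) (nat_lit 45705873) (PL.cons (nat_lit 30011) (nat_lit 900660121) (nat_lit 3244) (nat_lit 45675862) (PL.cons (nat_lit 29989) (nat_lit 899340121) (nat_lit 3243) (nat_lit 45645873) (PL.cons (nat_lit 29983) (nat_lit 898980289) (nat_lit 3242) (nat_lit 45615890) (PL.cons (nat_lit 29959) (nat_lit 897541681) (nat_lit 3241) (nat_lit 45585931) (PL.cons (nat_lit 29947) (nat_lit 896822809) (nat_lit 3240) (nat_lit 45555984) (PL.cons (nat_lit 29927) (nat_lit 895625329) (nat_lit 3239) (nat_lit 45526057) (PL.cons (nat_lit 29921) (nat_lit 895266241) (nat_lit 3238) (nat_lit 45496136) (PL.cons (nat_lit 29917) (nat_lit 895026889) (nat_lit 3237) (nat_lit 45466219) (PL.cons (nat_lit 29881) (nat_lit 892874161) (nat_lit 3236) (nat_lit 45436338) (PL.cons (nat_lit 29879) (nat_lit 892754641) (nat_lit 3235) (nat_lit 45406459) (PL.cons (nat_lit 29873) (nat_lit 892396129)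 (nat_lit 3234) (nat_lit 45376586) (PL.cons (nat_lit 29867) (nat_lit 892037689) (nat_lit 3233) (nat_lit 45346719) (PL.cons (nat_lit 29863) (nat_lit 891798769) (nat_lit 3232) (nat_lit 45316856) (PL.cons (nat_lit 29851) (nat_lit 891082201) (nat_lit 3231) (nat_lit 45287005) (PL.cons (nat_lit 29837) (nat_lit 890246569) (nat_lit 3230) (nat_lit 45257168) (PL.cons (nat_lit 29833) (nat_lit 890007889) (nat_lit 3229) (nat_lit 45227335) (PL.cons (nat_lit 29819) (nat_lit 889172761) (nat_lit 3228) (nat_lit 45197516) (PL.cons (nat_lit 29803) (nat_lit 888218809) (nat_lit 3227) (nat_lit 45167713) (PL.cons (nat_lit 29789) (nat_lit 887384521) (nat_lit 3226) (nat_lit 45137924) (PL.cons (nat_lit 29761) (nat_lit 885717121) (nat_lit 3225) (nat_lit 45108163) (PL.cons (nat_lit 29759) (nat_lit 885598081) (nat_lit 3224) (nat_lit 45078404) (PL.cons (nat_lit 29753) (nat_lit 885241009) (nat_lit 3223) (nat_lit 45048651) (PL.cons (nat_lit 29741) (nat_lit 884527081) (nat_lit 3222) (nat_lit 45018910) (PL.cons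 (nat_lit 29723) (nat_lit 883456729) (nat_lit 3221) (nat_lit 44989187) (PL.cons (nat_lit 29717) (nat_lit 883100089) (nat_lit 3220) (nat_lit 44959470) (PL.cons (nat_lit 29683) (nat_lit 881080489) (nat_lit 3219) (nat_lit 44929787) (PL.cons (nat_lit 29671) (nat_lit 880368241) (nat_lit 3218) (nat_lit 44900116) (PL.cons (nat_lit 29669) (nat_lit 880249561) (nat_lit 3217) (nat_lit 44870447) (PL.cons (nat_lit 29663) (nat_lit 879893569) (nat_lit 3216) (nat_lit 44840784) (PL.cons (nat_lit 29641) (nat_lit 878588881) (nat_lit 3215) (nat_lit 44811143) (PL.cons (nat_lit 29633) (nat_lit 878114689) (nat_lit 3214) (nat_lit 44781510) (PL.cons (nat_lit 29629) (nat_lit 877877641) (nat_lit 3213) (nat_lit 44751881) (PL.cons (nat_lit 29611) (nat_lit 876811321) (nat_lit 3212) (nat_lit 44722270) (PL.cons (nat_lit 29599) (nat_lit 876100801) (nat_lit 3211) (nat_lit 44692671) (PL.cons (nat_lit 29587) (nat_lit 875390569) (nat_lit 3210) (nat_lit 44663084) (PL.cons (nat_lit 29581) (nat_lit 875035561)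 (nat_lit 3209) (nat_lit 44633503) (PL.cons (nat_lit 29573) (nat_lit 874562329) (nat_lit 3208) (nat_lit 44603930) (PL.cons (nat_lit 29569) (nat_lit 874325761) (nat_lit 3207) (nat_lit 44574361) (PL.cons (nat_lit 29567) (nat_lit 874207489) (nat_lit 3206) (nat_lit 44544794) (PL.cons (nat_lit 29537) (nat_lit 872434369) (nat_lit 3205) (nat_lit 44515257) (PL.cons (nat_lit 29531) (nat_lit 872079961) (nat_lit 3204) (nat_lit 44485726) (PL.cons (nat_lit 29527) (nat_lit 871843729) (nat_lit 3203) (nat_lit 44456199) (PL.cons (nat_lit 29501) (nat_lit 870309001) (nat_lit 3202) (nat_lit 44426698) (PL.cons (nat_lit 29483) (nat_lit 869247289) (nat_lit 3201) (nat_lit 44397215) (PL.cons (nat_lit 29473) (nat_lit 868657729) (nat_lit 3200) (nat_lit 44367742) (PL.cons (nat_lit 29453) (nat_lit 867479209) (nat_lit 3199) (nat_lit 44338289) (PL.cons (nat_lit 29443) (nat_lit 866890249) (nat_lit 3198) (nat_lit 44308846) (PL.cons (nat_lit 29437) (nat_lit 866536969) (nat_lit 3197) (nat_lit 44279409) (PL.cons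 (nat_lit 29429) (nat_lit 866066041) (nat_lit 3196) (nat_lit 44249980) (PL.cons (nat_lit 29423) (nat_lit 865712929) (nat_lit 3195) (nat_lit 44220557) (PL.cons (nat_lit 29411) (nat_lit 865006921) (nat_lit 3194) (nat_lit 44191146) (PL.cons (nat_lit 29401) (nat_lit 864418801) (nat_lit 3193) (nat_lit 44161745) (PL.cons (nat_lit 29399) (nat_lit 864301201) (nat_lit 3192) (nat_lit 44132346) (PL.cons (nat_lit 29389) (nat_lit 863713321) (nat_lit 3191) (nat_lit 44102957) (PL.cons (nat_lit 29387) (nat_lit 863595769) (nat_lit 3190) (nat_lit 44073570) (PL.cons (nat_lit 29383) (nat_lit 863360689) (nat_lit 3189) (nat_lit 44044187) (PL.cons (nat_lit 29363) (nat_lit 862185769) (nat_lit 3188) (nat_lit 44014824) (PL.cons (nat_lit 29347) (nat_lit 861246409) (nat_lit 3187) (nat_lit 43985477) (PL.cons (nat_lit 29339) (nat_lit 860776921) (nat_lit 3186) (nat_lit 43956138) (PL.cons (nat_lit 29333) (nat_lit 860424889) (nat_lit 3185) (nat_lit 43926805) (PL.cons (nat_lit 29327) (nat_lit 860072929)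 (nat_lit 3184) (nat_lit 43897478) (PL.cons (nat_lit 29311) (nat_lit 859134721) (nat_lit 3183) (nat_lit 43868167) (PL.cons (nat_lit 29303) (nat_lit 858665809) (nat_lit 3182) (nat_lit 43838864) (PL.cons (nat_lit 29297) (nat_lit 858314209) (nat_lit 3181) (nat_lit 43809567) (PL.cons (nat_lit 29287) (nat_lit 857728369) (nat_lit 3180) (nat_lit 43780280) (PL.cons (nat_lit 29269) (nat_lit 856674361) (nat_lit 3179) (nat_lit 43751011) (PL.cons (nat_lit 29251) (nat_lit 855621001) (nat_lit 3178) (nat_lit 43721760) (PL.cons (nat_lit 29243) (nat_lit 855153049) (nat_lit 3177) (nat_lit 43692517) (PL.cons (nat_lit 29231) (nat_lit 854451361) (nat_lit 3176) (nat_lit 43663286) (PL.cons (nat_lit 29221) (nat_lit 853866841) (nat_lit 3175) (nat_lit 43634065) (PL.cons (nat_lit 29209) (nat_lit 853165681) (nat_lit 3174) (nat_lit 43604856) (PL.cons (nat_lit 29207) (nat_lit 853048849) (nat_lit 3173) (nat_lit 43575649) (PL.cons (nat_lit 29201) (nat_lit 852698401) (nat_lit 3172) (nat_lit 43546448) (PL.cons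 (nat_lit 29191) (nat_lit 852114481) (nat_lit 3171) (nat_lit 43517257) (PL.cons (nat_lit 29179) (nat_lit 851414041) (nat_lit 3170) (nat_lit 43488078) (PL.cons (nat_lit 29173) (nat_lit 851063929) (nat_lit 3169) (nat_lit 43458905) (PL.cons (nat_lit 29167) (nat_lit 850713889) (nat_lit 3168) (nat_lit 43429738) (PL.cons (nat_lit 29153) (nat_lit 849897409) (nat_lit 3167) (nat_lit 43400585) (PL.cons (nat_lit 29147) (nat_lit 849547609) (nat_lit 3166) (nat_lit 43371438) (PL.cons (nat_lit 29137) (nat_lit 848964769) (nat_lit 3165) (nat_lit 43342301) (PL.cons (nat_lit 29131) (nat_lit 848615161) (nat_lit 3164) (nat_lit 43313170) (PL.cons (nat_lit 29129) (nat_lit 848498641) (nat_lit 3163) (nat_lit 43284041) (PL.cons (nat_lit 29123) (nat_lit 848149129) (nat_lit 3162) (nat_lit 43254918) (PL.cons (nat_lit 29101) (nat_lit 846868201) (nat_lit 3161) (nat_lit 43225817) (PL.cons (nat_lit 29077) (nat_lit 845471929) (nat_lit 3160) (nat_lit 43196740) (PL.cons (nat_lit 29063) (nat_lit 844657969)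 (nat_lit 3159) (nat_lit 43167677) (PL.cons (nat_lit 29059) (nat_lit 844425481) (nat_lit 3158) (nat_lit 43138618) (PL.cons (nat_lit 29033) (nat_lit 842915089) (nat_lit 3157) (nat_lit 43109585) (PL.cons (nat_lit 29027) (nat_lit 842566729) (nat_lit 3156) (nat_lit 43080558) (PL.cons (nat_lit 29023) (nat_lit 842334529) (nat_lit 3155) (nat_lit 43051535) (PL.cons (nat_lit 29021) (nat_lit 842218441) (nat_lit 3154) (nat_lit 43022514) (PL.cons (nat_lit 29017) (nat_lit 841986289) (nat_lit 3153) (nat_lit 42993497) (PL.cons (nat_lit 29009) (nat_lit 841522081) (nat_lit 3152) (nat_lit 42964488) (PL.cons (nat_lit 28979) (nat_lit 839782441) (nat_lit 3151) (nat_lit 42935509) (PL.cons (nat_lit 28961) (nat_lit 838739521) (nat_lit 3150) (nat_lit 42906548) (PL.cons (nat_lit 28949) (nat_lit 838044601) (nat_lit 3149) (nat_lit 42877599) (PL.cons (nat_lit 28933) (nat_lit 837118489) (nat_lit 3148) (nat_lit 42848666) (PL.cons (nat_lit 28927) (nat_lit 836771329) (nat_lit 3147) (nat_lit 42819739) (PL.cons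 (nat_lit 28921) (nat_lit 836424241) (nat_lit 3146) (nat_lit 42790818) (PL.cons (nat_lit 28909) (nat_lit 835730281) (nat_lit 3145) (nat_lit 42761909) (PL.cons (nat_lit 28901) (nat_lit 835267801) (nat_lit 3144) (nat_lit 42733008) (PL.cons (nat_lit 28879) (nat_lit 833996641) (nat_lit 3143) (nat_lit 42704129) (PL.cons (nat_lit 28871) (nat_lit 833534641) (nat_lit 3142) (nat_lit 42675258) (PL.cons (nat_lit 28867) (nat_lit 833303689) (nat_lit 3141) (nat_lit 42646391) (PL.cons (nat_lit 28859) (nat_lit 832841881) (nat_lit 3140) (nat_lit 42617532) (PL.cons (nat_lit 28843) (nat_lit 831918649) (nat_lit 3139) (nat_lit 42588689) (PL.cons (nat_lit 28837) (nat_lit 831572569) (nat_lit 3138) (nat_lit 42559852) (PL.cons (nat_lit 28817) (nat_lit 830419489) (nat_lit 3137) (nat_lit 42531035) (PL.cons (nat_lit 28813) (nat_lit 830188969) (nat_lit 3136) (nat_lit 42502222) (PL.cons (nat_lit 28807) (nat_lit 829843249) (nat_lit 3135) (nat_lit 42473415) (PL.cons (nat_lit 28793) (nat_lit 829036849)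 (nat_lit 3134) (nat_lit 42444622) (PL.cons (nat_lit 28789) (nat_lit 828806521) (nat_lit 3133) (nat_lit 42415833) (PL.cons (nat_lit 28771) (nat_lit 827770441) (nat_lit 3132) (nat_lit 42387062) (PL.cons (nat_lit 28759) (nat_lit 827080081) (nat_lit 3131) (nat_lit 42358303) (PL.cons (nat_lit 28753) (nat_lit 826735009) (nat_lit 3130) (nat_lit 42329550) (PL.cons (nat_lit 28751) (nat_lit 826620001) (nat_lit 3129) (nat_lit 42300799) (PL.cons (nat_lit 28729) (nat_lit 825355441) (nat_lit 3128) (nat_lit 42272070) (PL.cons (nat_lit 28723) (nat_lit 825010729) (nat_lit 3127) (nat_lit 42243347) (PL.cons (nat_lit 28711) (nat_lit 824321521) (nat_lit 3126) (nat_lit 42214636) (PL.cons (nat_lit 28703) (nat_lit 823862209) (nat_lit 3125) (nat_lit 42185933) (PL.cons (nat_lit 28697) (nat_lit 823517809) (nat_lit 3124) (nat_lit 42157236) (PL.cons (nat_lit 28687) (nat_lit 822943969) (nat_lit 3123) (nat_lit 42128549) (PL.cons (nat_lit 28669) (nat_lit 821911561) (nat_lit 3122) (nat_lit 42099880) (PL.cons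 (nat_lit 28663) (nat_lit 821567569) (nat_lit 3121) (nat_lit 42071217) (PL.cons (nat_lit 28661) (nat_lit 821452921) (nat_lit 3120) (nat_lit 42042556) (PL.cons (nat_lit 28657) (nat_lit 821223649) (nat_lit 3119) (nat_lit 42013899) (PL.cons (nat_lit 28649) (nat_lit 820765201) (nat_lit 3118) (nat_lit 41985250) (PL.cons (nat_lit 28643) (nat_lit 820421449) (nat_lit 3117) (nat_lit 41956607) (PL.cons (nat_lit 28631) (nat_lit 819734161) (nat_lit 3116) (nat_lit 41927976) (PL.cons (nat_lit 28627) (nat_lit 819505129) (nat_lit 3115) (nat_lit 41899349) (PL.cons (nat_lit 28621) (nat_lit 819161641) (nat_lit 3114) (nat_lit 41870728) (PL.cons (nat_lit 28619) (nat_lit 819047161) (nat_lit 3113) (nat_lit 41842109) (PL.cons (nat_lit 28607) (nat_lit 818360449) (nat_lit 3112) (nat_lit 41813502) (PL.cons (nat_lit 28603) (nat_lit 818131609) (nat_lit 3111) (nat_lit 41784899) (PL.cons (nat_lit 28597) (nat_lit 817788409) (nat_lit 3110) (nat_lit 41756302) (PL.cons (nat_lit 28591) (nat_lit 817445281)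 (nat_lit 3109) (nat_lit 41727711) (PL.cons (nat_lit 28579) (nat_lit 816759241) (nat_lit 3108) (nat_lit 41699132) (PL.cons (nat_lit 28573) (nat_lit 816416329) (nat_lit 3107) (nat_lit 41670559) (PL.cons (nat_lit 28571) (nat_lit 816302041) (nat_lit 3106) (nat_lit 41641988) (PL.cons (nat_lit 28559) (nat_lit 815616481) (nat_lit 3105) (nat_lit 41613429) (PL.cons (nat_lit 28549) (nat_lit 815045401) (nat_lit 3104) (nat_lit 41584880) (PL.cons (nat_lit 28547) (nat_lit 814931209) (nat_lit 3103) (nat_lit 41556333) (PL.cons (nat_lit 28541) (nat_lit 814588681) (nat_lit 3102) (nat_lit 41527792) (PL.cons (nat_lit 28537) (nat_lit 814360369) (nat_lit 3101) (nat_lit 41499255) (PL.cons (nat_lit 28517) (nat_lit 813219289) (nat_lit 3100) (nat_lit 41470738) (PL.cons (nat_lit 28513) (nat_lit 812991169) (nat_lit 3099) (nat_lit 41442225) (PL.cons (nat_lit 28499) (nat_lit 812193001) (nat_lit 3098) (nat_lit 41413726) (PL.cons (nat_lit 28493) (nat_lit 811851049) (nat_lit 3097) (nat_lit 41385233) (PL.cons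 (nat_lit 28477) (nat_lit 810939529) (nat_lit 3096) (nat_lit 41356756) (PL.cons (nat_lit 28463) (nat_lit 810142369) (nat_lit 3095) (nat_lit 41328293) (PL.cons (nat_lit 28447) (nat_lit 809231809) (nat_lit 3094) (nat_lit 41299846) (PL.cons (nat_lit 28439) (nat_lit 808776721) (nat_lit 3093) (nat_lit 41271407) (PL.cons (nat_lit 28433) (nat_lit 808435489) (nat_lit 3092) (nat_lit 41242974) (PL.cons (nat_lit 28429) (nat_lit 808208041) (nat_lit 3091) (nat_lit 41214545) (PL.cons (nat_lit 28411) (nat_lit 807184921) (nat_lit 3090) (nat_lit 41186134) (PL.cons (nat_lit 28409) (nat_lit 807071281) (nat_lit 3089) (nat_lit 41157725) (PL.cons (nat_lit 28403) (nat_lit 806730409) (nat_lit 3088) (nat_lit 41129322) (PL.cons (nat_lit 28393) (nat_lit 806162449) (nat_lit 3087) (nat_lit 41100929) (PL.cons (nat_lit 28387) (nat_lit 805821769) (nat_lit 3086) (nat_lit 41072542) (PL.cons (nat_lit 28351) (nat_lit 803779201) (nat_lit 3085) (nat_lit 41044191) (PL.cons (nat_lit 28349) (nat_lit 803665801)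 (nat_lit 3084) (nat_lit 41015842) (PL.cons (nat_lit 28319) (nat_lit 801965761) (nat_lit 3083) (nat_lit 40987523) (PL.cons (nat_lit 28309) (nat_lit 801399481) (nat_lit 3082) (nat_lit 40959214) (PL.cons (nat_lit 28307) (nat_lit 801286249) (nat_lit 3081) (nat_lit 40930907) (PL.cons (nat_lit 28297) (nat_lit 800720209) (nat_lit 3080) (nat_lit 40902610) (PL.cons (nat_lit 28289) (nat_lit 800267521) (nat_lit 3079) (nat_lit 40874321) (PL.cons (nat_lit 28283) (nat_lit 799928089) (nat_lit 3078) (nat_lit 40846038) (PL.cons (nat_lit 28279) (nat_lit 799701841) (nat_lit 3077) (nat_lit 40817759) (PL.cons (nat_lit 28277) (nat_lit 799588729) (nat_lit 3076) (nat_lit 40789482) (PL.cons (nat_lit 28229) (nat_lit 796876441) (nat_lit 3075) (nat_lit 40761253) (PL.cons (nat_lit 28219) (nat_lit 796311961) (nat_lit 3074) (nat_lit 40733034) (PL.cons (nat_lit 28211) (nat_lit 795860521) (nat_lit 3073) (nat_lit 40704823) (PL.cons (nat_lit 28201) (nat_lit 795296401) (nat_lit 3072) (nat_lit 40676622) (PL.cons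 (nat_lit 28183) (nat_lit 794281489) (nat_lit 3071) (nat_lit 40648439) (PL.cons (nat_lit 28181) (nat_lit 794168761) (nat_lit 3070) (nat_lit 40620258) (PL.cons (nat_lit 28163) (nat_lit 793154569) (nat_lit 3069) (nat_lit 40592095) (PL.cons (nat_lit 28151) (nat_lit 792478801) (nat_lit 3068) (nat_lit 40563944) (PL.cons (nat_lit 28123) (nat_lit 790903129) (nat_lit 3067) (nat_lit 40535821) (PL.cons (nat_lit 28111) (nat_lit 790228321) (nat_lit 3066) (nat_lit 40507710) (PL.cons (nat_lit 28109) (nat_lit 790115881) (nat_lit 3065) (nat_lit 40479601) (PL.cons (nat_lit 28099) (nat_lit 789553801) (nat_lit 3064) (nat_lit 40451502) (PL.cons (nat_lit 28097) (nat_lit 789441409) (nat_lit 3063) (nat_lit 40423405) (PL.cons (nat_lit 28087) (nat_lit 788879569) (nat_lit 3062) (nat_lit 40395318) (PL.cons (nat_lit 28081) (nat_lit 788542561) (nat_lit 3061) (nat_lit 40367237) (PL.cons (nat_lit 28069) (nat_lit 787868761) (nat_lit 3060) (nat_lit 40339168) (PL.cons (nat_lit 28057) (nat_lit 787195249)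 (nat_lit 3059) (nat_lit 40311111) (PL.cons (nat_lit 28051) (nat_lit 786858601) (nat_lit 3058) (nat_lit 40283060) (PL.cons (nat_lit 28031) (nat_lit 785736961) (nat_lit 3057) (nat_lit 40255029) (PL.cons (nat_lit 28027) (nat_lit 785512729) (nat_lit 3056) (nat_lit 40227002) (PL.cons (nat_lit 28019) (nat_lit 785064361) (nat_lit 3055) (nat_lit 40198983) (PL.cons (nat_lit 28001) (nat_lit 784056001) (nat_lit 3054) (nat_lit 40170982) (PL.cons (nat_lit 27997) (nat_lit 783832009) (nat_lit 3053) (nat_lit 40142985) (PL.cons (nat_lit 27983) (nat_lit 783048289) (nat_lit 3052) (nat_lit 40115002) (PL.cons (nat_lit 27967) (nat_lit 782153089) (nat_lit 3051) (nat_lit 40087035) (PL.cons (nat_lit 27961) (nat_lit 781817521) (nat_lit 3050) (nat_lit 40059074) (PL.cons (nat_lit 27953) (nat_lit 781370209) (nat_lit 3049) (nat_lit 40031121) (PL.cons (nat_lit 27947) (nat_lit 781034809) (nat_lit 3048) (nat_lit 40003174) (PL.cons (nat_lit 27943) (nat_lit 780811249) (nat_lit 3047) (nat_lit 39975231) (PL.cons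 (nat_lit 27941) (nat_lit 780699481) (nat_lit 3046) (nat_lit 39947290) (PL.cons (nat_lit 27919) (nat_lit 779470561) (nat_lit 3045) (nat_lit 39919371) (PL.cons (nat_lit 27917) (nat_lit 779358889) (nat_lit 3044) (nat_lit 39891454) (PL.cons (nat_lit 27901) (nat_lit 778465801) (nat_lit 3043) (nat_lit 39863553) (PL.cons (nat_lit 27893) (nat_lit 778019449) (nat_lit 3042) (nat_lit 39835660) (PL.cons (nat_lit 27883) (nat_lit 777461689) (nat_lit 3041) (nat_lit 39807777) (PL.cons (nat_lit 27851) (nat_lit 775678201) (nat_lit 3040) (nat_lit 39779926) (PL.cons (nat_lit 27847) (nat_lit 775455409) (nat_lit 3039) (nat_lit 39752079) (PL.cons (nat_lit 27827) (nat_lit 774341929) (nat_lit 3038) (nat_lit 39724252) (PL.cons (nat_lit 27823) (nat_lit 774119329) (nat_lit 3037) (nat_lit 39696429) (PL.cons (nat_lit 27817) (nat_lit 773785489) (nat_lit 3036) (nat_lit 39668612) (PL.cons (nat_lit 27809) (nat_lit 773340481) (nat_lit 3035) (nat_lit 39640803) (PL.cons (nat_lit 27803) (nat_lit 773006809)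 (nat_lit 3034) (nat_lit 39613000) (PL.cons (nat_lit 27799) (nat_lit 772784401) (nat_lit 3033) (nat_lit 39585201) (PL.cons (nat_lit 27793) (nat_lit 772450849) (nat_lit 3032) (nat_lit 39557408) (PL.cons (nat_lit 27791) (nat_lit 772339681) (nat_lit 3031) (nat_lit 39529617) (PL.cons (nat_lit 27779) (nat_lit 771672841) (nat_lit 3030) (nat_lit 39501838) (PL.cons (nat_lit 27773) (nat_lit 771339529) (nat_lit 3029) (nat_lit 39474065) (PL.cons (nat_lit 27767) (nat_lit 771006289) (nat_lit 3028) (nat_lit 39446298) (PL.cons (nat_lit 27763) (nat_lit 770784169) (nat_lit 3027) (nat_lit 39418535) (PL.cons (nat_lit 27751) (nat_lit 770118001) (nat_lit 3026) (nat_lit 39390784) (PL.cons (nat_lit 27749) (nat_lit 770007001) (nat_lit 3025) (nat_lit 39363035) (PL.cons (nat_lit 27743) (nat_lit 769674049) (nat_lit 3024) (nat_lit 39335292) (PL.cons (nat_lit 27739) (nat_lit 769452121) (nat_lit 3023) (nat_lit 39307553) (PL.cons (nat_lit 27737) (nat_lit 769341169) (nat_lit 3022) (nat_lit 39279816) (PL.cons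 (nat_lit 27733) (nat_lit 769119289) (nat_lit 3021) (nat_lit 39252083) (PL.cons (nat_lit 27701) (nat_lit 767345401) (nat_lit 3020) (nat_lit 39224382) (PL.cons (nat_lit 27697) (nat_lit 767123809) (nat_lit 3019) (nat_lit 39196685) (PL.cons (nat_lit 27691) (nat_lit 766791481) (nat_lit 3018) (nat_lit 39168994) (PL.cons (nat_lit 27689) (nat_lit 766680721) (nat_lit 3017) (nat_lit 39141305) (PL.cons (nat_lit 27673) (nat_lit 765794929) (nat_lit 3016) (nat_lit 39113632) (PL.cons (nat_lit 27653) (nat_lit 764688409) (nat_lit 3015) (nat_lit 39085979) (PL.cons (nat_lit 27647) (nat_lit 764356609) (nat_lit 3014) (nat_lit 39058332) (PL.cons (nat_lit 27631) (nat_lit 763472161) (nat_lit 3013) (nat_lit 39030701) (PL.cons (nat_lit 27617) (nat_lit 762698689) (nat_lit 3012) (nat_lit 39003084) (PL.cons (nat_lit 27611) (nat_lit 762367321) (nat_lit 3011) (nat_lit 38975473) (PL.cons (nat_lit 27583) (nat_lit 760821889) (nat_lit 3010) (nat_lit 38947890) (PL.cons (nat_lit 27581) (nat_lit 760711561)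 (nat_lit 3009) (nat_lit 38920309) (PL.cons (nat_lit 27551) (nat_lit 759057601) (nat_lit 3008) (nat_lit 38892758) (PL.cons (nat_lit 27541) (nat_lit 758506681) (nat_lit 3007) (nat_lit 38865217) (PL.cons (nat_lit 27539) (nat_lit 758396521) (nat_lit 3006) (nat_lit 38837678) (PL.cons (nat_lit 27529) (nat_lit 757845841) (nat_lit 3005) (nat_lit 38810149) (PL.cons (nat_lit 27527) (nat_lit 757735729) (nat_lit 3004) (nat_lit 38782622) (PL.cons (nat_lit 27509) (nat_lit 756745081) (nat_lit 3003) (nat_lit 38755113) (PL.cons (nat_lit 27487) (nat_lit 755535169) (nat_lit 3002) (nat_lit 38727626) (PL.cons (nat_lit 27481) (nat_lit 755205361) (nat_lit 3001) (nat_lit 38700145) (PL.cons (nat_lit 27479) (nat_lit 755095441) (nat_lit 3000) (nat_lit 38672666) (PL.cons (nat_lit 27457) (nat_lit 753886849) (nat_lit 2999) (nat_lit 38645209) (PL.cons (nat_lit 27449) (nat_lit 753447601) (nat_lit 2998) (nat_lit 38617760) (PL.cons (nat_lit 27437) (nat_lit 752788969) (nat_lit 2997) (nat_lit 38590323) (PL.cons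 (nat_lit 27431) (nat_lit 752459761) (nat_lit 2996) (nat_lit 38562892) (PL.cons (nat_lit 27427) (nat_lit 752240329) (nat_lit 2995) (nat_lit 38535465) (PL.cons (nat_lit 27409) (nat_lit 751253281) (nat_lit 2994) (nat_lit 38508056) (PL.cons (nat_lit 27407) (nat_lit 751143649) (nat_lit 2993) (nat_lit 38480649) (PL.cons (nat_lit 27397) (nat_lit 750595609) (nat_lit 2992) (nat_lit 38453252) (PL.cons (nat_lit 27367) (nat_lit 748952689) (nat_lit 2991) (nat_lit 38425885) (PL.cons (nat_lit 27361) (nat_lit 748624321) (nat_lit 2990) (nat_lit 38398524) (PL.cons (nat_lit 27337) (nat_lit 747311569) (nat_lit 2989) (nat_lit 38371187) (PL.cons (nat_lit 27329) (nat_lit 746874241) (nat_lit 2988) (nat_lit 38343858) (PL.cons (nat_lit 27299) (nat_lit 745235401) (nat_lit 2987) (nat_lit 38316559) (PL.cons (nat_lit 27283) (nat_lit 744362089) (nat_lit 2986) (nat_lit 38289276) (PL.cons (nat_lit 27281) (nat_lit 744252961) (nat_lit 2985) (nat_lit 38261995) (PL.cons (nat_lit 27277) (nat_lit 744034729)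 (nat_lit 2984) (nat_lit 38234718) (PL.cons (nat_lit 27271) (nat_lit 743707441) (nat_lit 2983) (nat_lit 38207447) (PL.cons (nat_lit 27259) (nat_lit 743053081) (nat_lit 2982) (nat_lit 38180188) (PL.cons (nat_lit 27253) (nat_lit 742726009) (nat_lit 2981) (nat_lit 38152935) (PL.cons (nat_lit 27241) (nat_lit 742072081) (nat_lit 2980) (nat_lit 38125694) (PL.cons (nat_lit 27239) (nat_lit 741963121) (nat_lit 2979) (nat_lit 38098455) (PL.cons (nat_lit 27211) (nat_lit 740438521) (nat_lit 2978) (nat_lit 38071244) L16))))))))))))))))))))))))))))))))))))))))))))))))))))))))))))))))))))))))))))))))))))))))))))))))))))))))))))))))))))))))))))))))))))))))))))))))))))))))))))))))))))))))))))))))))))))))))))))))))))))))))))))))))))))))))))))))))))))))))))))))))))))))))))))))))))))))))))))))))))))))))))))))))))))))))))))))))))))))))))))))))))))))))))))))))))))))))))))))))))))))))))))))))))))))))))))))))))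

def L18 : PL := (PL.cons (nat_lit 35251) (nat_lit 1242633001) (nat_lit 3753) (nat_lit 62277631) (PL.cons (nat_lit 35227) (nat_lit 1240941529) (nat_lit 3752) (nat_lit 62242404) (PL.cons (nat_lit 35221) (nat_lit 1240518841) (nat_lit 3751) (nat_lit 62207183) (PL.cons (nat_lit 35201) (nat_lit 1239110401) (nat_lit 3750) (nat_lit 62171982) (PL.cons (nat_lit 35171) (nat_lit 1236999241) (nat_lit 3749) (nat_lit 62136811) (PL.cons (nat_lit 35159) (nat_lit 1236155281) (nat_lit 3748) (nat_lit 62101652) (PL.cons (nat_lit 35153) (nat_lit 1235733409) (nat_lit 3747) (nat_lit 62066499) (PL.cons (nat_lit 35149) (nat_lit 1235452201) (nat_lit 3746) (nat_lit 62031350) (PL.cons (nat_lit 35141) (nat_lit 1234889881) (nat_lit 3745) (nat_lit 61996209) (PL.cons (nat_lit 35129) (nat_lit 1234046641) (nat_lit 3744) (nat_lit 61961080) (PL.cons (nat_lit 35117) (nat_lit 1233203689) (nat_lit 3743) (nat_lit 61925963) (PL.cons (nat_lit 35111) (nat_lit 1232782321) (nat_lit 3742) (nat_lit 61890852) (PL.cons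 (nat_lit 35107) (nat_lit 1232501449) (nat_lit 3741) (nat_lit 61855745) (PL.cons (nat_lit 35099) (nat_lit 1231939801) (nat_lit 3740) (nat_lit 61820646) (PL.cons (nat_lit 35089) (nat_lit 1231237921) (nat_lit 3739) (nat_lit 61785557) (PL.cons (nat_lit 35083) (nat_lit 1230816889) (nat_lit 3738) (nat_lit 61750474) (PL.cons (nat_lit 35081) (nat_lit 1230676561) (nat_lit 3737) (nat_lit 61715393) (PL.cons (nat_lit 35069) (nat_lit 1229834761) (nat_lit 3736) (nat_lit 61680324) (PL.cons (nat_lit 35059) (nat_lit 1229133481) (nat_lit 3735) (nat_lit 61645265) (PL.cons (nat_lit 35053) (nat_lit 1228712809) (nat_lit 3734) (nat_lit 61610212) (PL.cons (nat_lit 35051) (nat_lit 1228572601) (nat_lit 3733) (nat_lit 61575161) (PL.cons (nat_lit 35027) (nat_lit 1226890729) (nat_lit 3732) (nat_lit 61540134) (PL.cons (nat_lit 35023) (nat_lit 1226610529) (nat_lit 3731) (nat_lit 61505111) (PL.cons (nat_lit 34981) (nat_lit 1223670361) (nat_lit 3730) (nat_lit 61470130) (PL.cons (nat_lit 34963) (nat_lit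 1222411369) (nat_lit 3729) (nat_lit 61435167) (PL.cons (nat_lit 34961) (nat_lit 1222271521) (nat_lit 3728) (nat_lit 61400206) (PL.cons (nat_lit 34949) (nat_lit 1221432601) (nat_lit 3727) (nat_lit 61365257) (PL.cons (nat_lit 34939) (nat_lit 1220733721) (nat_lit 3726) (nat_lit 61330318) (PL.cons (nat_lit 34919) (nat_lit 1219336561) (nat_lit 3725) (nat_lit 61295399) (PL.cons (nat_lit 34913) (nat_lit 1218917569) (nat_lit 3724) (nat_lit 61260486) (PL.cons (nat_lit 34897) (nat_lit 1217800609) (nat_lit 3723) (nat_lit 61225589) (PL.cons (nat_lit 34883) (nat_lit 1216823689) (nat_lit 3722) (nat_lit 61190706) (PL.cons (nat_lit 34877) (nat_lit 1216405129) (nat_lit 3721) (nat_lit 61155829) (PL.cons (nat_lit 34871) (nat_lit 1215986641) (nat_lit 3720) (nat_lit 61120958) (PL.cons (nat_lit 34849) (nat_lit 1214452801) (nat_lit 3719) (nat_lit 61086109) (PL.cons (nat_lit 34847) (nat_lit 1214313409) (nat_lit 3718) (nat_lit 61051262) (PL.cons (nat_lit 34843) (nat_lit 1214034649) (nat_lit 3717)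 (nat_lit 61016419) (PL.cons (nat_lit 34841) (nat_lit 1213895281) (nat_lit 3716) (nat_lit 60981578) (PL.cons (nat_lit 34819) (nat_lit 1212362761) (nat_lit 3715) (nat_lit 60946759) (PL.cons (nat_lit 34807) (nat_lit 1211527249) (nat_lit 3714) (nat_lit 60911952) (PL.cons (nat_lit 34781) (nat_lit 1209717961) (nat_lit 3713) (nat_lit 60877171) (PL.cons (nat_lit 34763) (nat_lit 1208466169) (nat_lit 3712) (nat_lit 60842408) (PL.cons (nat_lit 34759) (nat_lit 1208188081) (nat_lit 3711) (nat_lit 60807649) (PL.cons (nat_lit 34757) (nat_lit 1208049049) (nat_lit 3710) (nat_lit 60772892) (PL.cons (nat_lit 34747) (nat_lit 1207354009) (nat_lit 3709) (nat_lit 60738145) (PL.cons (nat_lit 34739) (nat_lit 1206798121) (nat_lit 3708) (nat_lit 60703406) (PL.cons (nat_lit 34729) (nat_lit 1206103441) (nat_lit 3707) (nat_lit 60668677) (PL.cons (nat_lit 34721) (nat_lit 1205547841) (nat_lit 3706) (nat_lit 60633956) (PL.cons (nat_lit 34703) (nat_lit 1204298209) (nat_lit 3705) (nat_lit 60599253) (PL.cons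 (nat_lit 34693) (nat_lit 1203604249) (nat_lit 3704) (nat_lit 60564560) (PL.cons (nat_lit 34687) (nat_lit 1203187969) (nat_lit 3703) (nat_lit 60529873) (PL.cons (nat_lit 34679) (nat_lit 1202633041) (nat_lit 3702) (nat_lit 60495194) (PL.cons (nat_lit 34673) (nat_lit 1202216929) (nat_lit 3701) (nat_lit 60460521) (PL.cons (nat_lit 34667) (nat_lit 1201800889) (nat_lit 3700) (nat_lit 60425854) (PL.cons (nat_lit 34651) (nat_lit 1200691801) (nat_lit 3699) (nat_lit 60391203) (PL.cons (nat_lit 34649) (nat_lit 1200553201) (nat_lit 3698) (nat_lit 60356554) (PL.cons (nat_lit 34631) (nat_lit 1199306161) (nat_lit 3697) (nat_lit 60321923) (PL.cons (nat_lit 34613) (nat_lit 1198059769) (nat_lit 3696) (nat_lit 60287310) (PL.cons (nat_lit 34607) (nat_lit 1197644449) (nat_lit 3695) (nat_lit 60252703) (PL.cons (nat_lit 34603) (nat_lit 1197367609) (nat_lit 3694) (nat_lit 60218100) (PL.cons (nat_lit 34591) (nat_lit 1196537281) (nat_lit 3693) (nat_lit 60183509) (PL.cons (nat_lit 34589) (nat_lit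 1196398921) (nat_lit 3692) (nat_lit 60148920) (PL.cons (nat_lit 34583) (nat_lit 1195983889) (nat_lit 3691) (nat_lit 60114337) (PL.cons (nat_lit 34549) (nat_lit 1193633401) (nat_lit 3690) (nat_lit 60079788) (PL.cons (nat_lit 34543) (nat_lit 1193218849) (nat_lit 3689) (nat_lit 60045245) (PL.cons (nat_lit 34537) (nat_lit 1192804369) (nat_lit 3688) (nat_lit 60010708) (PL.cons (nat_lit 34519) (nat_lit 1191561361) (nat_lit 3687) (nat_lit 59976189) (PL.cons (nat_lit 34513) (nat_lit 1191147169) (nat_lit 3686) (nat_lit 59941676) (PL.cons (nat_lit 34511) (nat_lit 1191009121) (nat_lit 3685) (nat_lit 59907165) (PL.cons (nat_lit 34501) (nat_lit 1190319001) (nat_lit 3684) (nat_lit 59872664) (PL.cons (nat_lit 34499) (nat_lit 1190181001) (nat_lit 3683) (nat_lit 59838165) (PL.cons (nat_lit 34487) (nat_lit 1189353169) (nat_lit 3682) (nat_lit 59803678) (PL.cons (nat_lit 34483) (nat_lit 1189077289) (nat_lit 3681) (nat_lit 59769195) (PL.cons (nat_lit 34471) (nat_lit 1188249841) (nat_lit 3680)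 (nat_lit 59734724) (PL.cons (nat_lit 34469) (nat_lit 1188111961) (nat_lit 3679) (nat_lit 59700255) (PL.cons (nat_lit 34457) (nat_lit 1187284849) (nat_lit 3678) (nat_lit 59665798) (PL.cons (nat_lit 34439) (nat_lit 1186044721) (nat_lit 3677) (nat_lit 59631359) (PL.cons (nat_lit 34429) (nat_lit 1185356041) (nat_lit 3676) (nat_lit 59596930) (PL.cons (nat_lit 34421) (nat_lit 1184805241) (nat_lit 3675) (nat_lit 59562509) (PL.cons (nat_lit 34403) (nat_lit 1183566409) (nat_lit 3674) (nat_lit 59528106) (PL.cons (nat_lit 34381) (nat_lit 1182053161) (nat_lit 3673) (nat_lit 59493725) (PL.cons (nat_lit 34369) (nat_lit 1181228161) (nat_lit 3672) (nat_lit 59459356) (PL.cons (nat_lit 34367) (nat_lit 1181090689) (nat_lit 3671) (nat_lit 59424989) (PL.cons (nat_lit 34361) (nat_lit 1180678321) (nat_lit 3670) (nat_lit 59390628) (PL.cons (nat_lit 34351) (nat_lit 1179991201) (nat_lit 3669) (nat_lit 59356277) (PL.cons (nat_lit 34337) (nat_lit 1179029569) (nat_lit 3668) (nat_lit 59321940) (PL.cons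 (nat_lit 34327) (nat_lit 1178342929) (nat_lit 3667) (nat_lit 59287613) (PL.cons (nat_lit 34319) (nat_lit 1177793761) (nat_lit 3666) (nat_lit 59253294) (PL.cons (nat_lit 34313) (nat_lit 1177381969) (nat_lit 3665) (nat_lit 59218981) (PL.cons (nat_lit 34303) (nat_lit 1176695809) (nat_lit 3664) (nat_lit 59184678) (PL.cons (nat_lit 34301) (nat_lit 1176558601) (nat_lit 3663) (nat_lit 59150377) (PL.cons (nat_lit 34297) (nat_lit 1176284209) (nat_lit 3662) (nat_lit 59116080) (PL.cons (nat_lit 34283) (nat_lit 1175324089) (nat_lit 3661) (nat_lit 59081797) (PL.cons (nat_lit 34273) (nat_lit 1174638529) (nat_lit 3660) (nat_lit 59047524) (PL.cons (nat_lit 34267) (nat_lit 1174227289) (nat_lit 3659) (nat_lit 59013257) (PL.cons (nat_lit 34261) (nat_lit 1173816121) (nat_lit 3658) (nat_lit 58978996) (PL.cons (nat_lit 34259) (nat_lit 1173679081) (nat_lit 3657) (nat_lit 58944737) (PL.cons (nat_lit 34253) (nat_lit 1173268009) (nat_lit 3656) (nat_lit 58910484) (PL.cons (nat_lit 34231) (nat_lit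 1171761361) (nat_lit 3655) (nat_lit 58876253) (PL.cons (nat_lit 34217) (nat_lit 1170803089) (nat_lit 3654) (nat_lit 58842036) (PL.cons (nat_lit 34213) (nat_lit 1170529369) (nat_lit 3653) (nat_lit 58807823) (PL.cons (nat_lit 34211) (nat_lit 1170392521) (nat_lit 3652) (nat_lit 58773612) (PL.cons (nat_lit 34183) (nat_lit 1168477489) (nat_lit 3651) (nat_lit 58739429) (PL.cons (nat_lit 34171) (nat_lit 1167657241) (nat_lit 3650) (nat_lit 58705258) (PL.cons (nat_lit 34159) (nat_lit 1166837281) (nat_lit 3649) (nat_lit 58671099) (PL.cons (nat_lit 34157) (nat_lit 1166700649) (nat_lit 3648) (nat_lit 58636942) (PL.cons (nat_lit 34147) (nat_lit 1166017609) (nat_lit 3647) (nat_lit 58602795) (PL.cons (nat_lit 34141) (nat_lit 1165607881) (nat_lit 3646) (nat_lit 58568654) (PL.cons (nat_lit 34129) (nat_lit 1164788641) (nat_lit 3645) (nat_lit 58534525) (PL.cons (nat_lit 34127) (nat_lit 1164652129) (nat_lit 3644) (nat_lit 58500398) (PL.cons (nat_lit 34123) (nat_lit 1164379129) (nat_lit 3643)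 (nat_lit 58466275) (PL.cons (nat_lit 34061) (nat_lit 1160151721) (nat_lit 3642) (nat_lit 58432214) (PL.cons (nat_lit 34057) (nat_lit 1159879249) (nat_lit 3641) (nat_lit 58398157) (PL.cons (nat_lit 34039) (nat_lit 1158653521) (nat_lit 3640) (nat_lit 58364118) (PL.cons (nat_lit 34033) (nat_lit 1158245089) (nat_lit 3639) (nat_lit 58330085) (PL.cons (nat_lit 34031) (nat_lit 1158108961) (nat_lit 3638) (nat_lit 58296054) (PL.cons (nat_lit 34019) (nat_lit 1157292361) (nat_lit 3637) (nat_lit 58262035) (PL.cons (nat_lit 33997) (nat_lit 1155796009) (nat_lit 3636) (nat_lit 58228038) (PL.cons (nat_lit 33967) (nat_lit 1153757089) (nat_lit 3635) (nat_lit 58194071) (PL.cons (nat_lit 33961) (nat_lit 1153349521) (nat_lit 3634) (nat_lit 58160110) (PL.cons (nat_lit 33941) (nat_lit 1151991481) (nat_lit 3633) (nat_lit 58126169) (PL.cons (nat_lit 33937) (nat_lit 1151719969) (nat_lit 3632) (nat_lit 58092232) (PL.cons (nat_lit 33931) (nat_lit 1151312761) (nat_lit 3631) (nat_lit 58058301) (PL.cons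 (nat_lit 33923) (nat_lit 1150769929) (nat_lit 3630) (nat_lit 58024378) (PL.cons (nat_lit 33911) (nat_lit 1149955921) (nat_lit 3629) (nat_lit 57990467) (PL.cons (nat_lit 33893) (nat_lit 1148735449) (nat_lit 3628) (nat_lit 57956574) (PL.cons (nat_lit 33889) (nat_lit 1148464321) (nat_lit 3627) (nat_lit 57922685) (PL.cons (nat_lit 33871) (nat_lit 1147244641) (nat_lit 3626) (nat_lit 57888814) (PL.cons (nat_lit 33863) (nat_lit 1146702769) (nat_lit 3625) (nat_lit 57854951) (PL.cons (nat_lit 33857) (nat_lit 1146296449) (nat_lit 3624) (nat_lit 57821094) (PL.cons (nat_lit 33851) (nat_lit 1145890201) (nat_lit 3623) (nat_lit 57787243) (PL.cons (nat_lit 33829) (nat_lit 1144401241) (nat_lit 3622) (nat_lit 57753414) (PL.cons (nat_lit 33827) (nat_lit 1144265929) (nat_lit 3621) (nat_lit 57719587) (PL.cons (nat_lit 33811) (nat_lit 1143183721) (nat_lit 3620) (nat_lit 57685776) (PL.cons (nat_lit 33809) (nat_lit 1143048481) (nat_lit 3619) (nat_lit 57651967) (PL.cons (nat_lit 33797) (nat_lit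 1142237209) (nat_lit 3618) (nat_lit 57618170) (PL.cons (nat_lit 33791) (nat_lit 1141831681) (nat_lit 3617) (nat_lit 57584379) (PL.cons (nat_lit 33773) (nat_lit 1140615529) (nat_lit 3616) (nat_lit 57550606) (PL.cons (nat_lit 33769) (nat_lit 1140345361) (nat_lit 3615) (nat_lit 57516837) (PL.cons (nat_lit 33767) (nat_lit 1140210289) (nat_lit 3614) (nat_lit 57483070) (PL.cons (nat_lit 33757) (nat_lit 1139535049) (nat_lit 3613) (nat_lit 57449313) (PL.cons (nat_lit 33751) (nat_lit 1139130001) (nat_lit 3612) (nat_lit 57415562) (PL.cons (nat_lit 33749) (nat_lit 1138995001) (nat_lit 3611) (nat_lit 57381813) (PL.cons (nat_lit 33739) (nat_lit 1138320121) (nat_lit 3610) (nat_lit 57348074) (PL.cons (nat_lit 33721) (nat_lit 1137105841) (nat_lit 3609) (nat_lit 57314353) (PL.cons (nat_lit 33713) (nat_lit 1136566369) (nat_lit 3608) (nat_lit 57280640) (PL.cons (nat_lit 33703) (nat_lit 1135892209) (nat_lit 3607) (nat_lit 57246937) (PL.cons (nat_lit 33679) (nat_lit 1134275041) (nat_lit 3606)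 (nat_lit 57213258) (PL.cons (nat_lit 33647) (nat_lit 1132120609) (nat_lit 3605) (nat_lit 57179611) (PL.cons (nat_lit 33641) (nat_lit 1131716881) (nat_lit 3604) (nat_lit 57145970) (PL.cons (nat_lit 33637) (nat_lit 1131447769) (nat_lit 3603) (nat_lit 57112333) (PL.cons (nat_lit 33629) (nat_lit 1130909641) (nat_lit 3602) (nat_lit 57078704) (PL.cons (nat_lit 33623) (nat_lit 1130506129) (nat_lit 3601) (nat_lit 57045081) (PL.cons (nat_lit 33619) (nat_lit 1130237161) (nat_lit 3600) (nat_lit 57011462) (PL.cons (nat_lit 33617) (nat_lit 1130102689) (nat_lit 3599) (nat_lit 56977845) (PL.cons (nat_lit 33613) (nat_lit 1129833769) (nat_lit 3598) (nat_lit 56944232) (PL.cons (nat_lit 33601) (nat_lit 1129027201) (nat_lit 3597) (nat_lit 56910631) (PL.cons (nat_lit 33599) (nat_lit 1128892801) (nat_lit 3596) (nat_lit 56877032) (PL.cons (nat_lit 33589) (nat_lit 1128220921) (nat_lit 3595) (nat_lit 56843443) (PL.cons (nat_lit 33587) (nat_lit 1128086569) (nat_lit 3594) (nat_lit 56809856) (PL.cons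 (nat_lit 33581) (nat_lit 1127683561) (nat_lit 3593) (nat_lit 56776275) (PL.cons (nat_lit 33577) (nat_lit 1127414929) (nat_lit 3592) (nat_lit 56742698) (PL.cons (nat_lit 33569) (nat_lit 1126877761) (nat_lit 3591) (nat_lit 56709129) (PL.cons (nat_lit 33563) (nat_lit 1126474969) (nat_lit 3590) (nat_lit 56675566) (PL.cons (nat_lit 33547) (nat_lit 1125401209) (nat_lit 3589) (nat_lit 56642019) (PL.cons (nat_lit 33533) (nat_lit 1124462089) (nat_lit 3588) (nat_lit 56608486) (PL.cons (nat_lit 33529) (nat_lit 1124193841) (nat_lit 3587) (nat_lit 56574957) (PL.cons (nat_lit 33521) (nat_lit 1123657441) (nat_lit 3586) (nat_lit 56541436) (PL.cons (nat_lit 33503) (nat_lit 1122451009) (nat_lit 3585) (nat_lit 56507933) (PL.cons (nat_lit 33493) (nat_lit 1121781049) (nat_lit 3584) (nat_lit 56474440) (PL.cons (nat_lit 33487) (nat_lit 1121379169) (nat_lit 3583) (nat_lit 56440953) (PL.cons (nat_lit 33479) (nat_lit 1120843441) (nat_lit 3582) (nat_lit 56407474) (PL.cons (nat_lit 33469) (nat_lit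 1120173961) (nat_lit 3581) (nat_lit 56374005) (PL.cons (nat_lit 33461) (nat_lit 1119638521) (nat_lit 3580) (nat_lit 56340544) (PL.cons (nat_lit 33457) (nat_lit 1119370849) (nat_lit 3579) (nat_lit 56307087) (PL.cons (nat_lit 33427) (nat_lit 1117364329) (nat_lit 3578) (nat_lit 56273660) (PL.cons (nat_lit 33413) (nat_lit 1116428569) (nat_lit 3577) (nat_lit 56240247) (PL.cons (nat_lit 33409) (nat_lit 1116161281) (nat_lit 3576) (nat_lit 56206838) (PL.cons (nat_lit 33403) (nat_lit 1115760409) (nat_lit 3575) (nat_lit 56173435) (PL.cons (nat_lit 33391) (nat_lit 1114958881) (nat_lit 3574) (nat_lit 56140044) (PL.cons (nat_lit 33377) (nat_lit 1114024129) (nat_lit 3573) (nat_lit 56106667) (PL.cons (nat_lit 33359) (nat_lit 1112822881) (nat_lit 3572) (nat_lit 56073308) (PL.cons (nat_lit 33353) (nat_lit 1112422609) (nat_lit 3571) (nat_lit 56039955) (PL.cons (nat_lit 33349) (nat_lit 1112155801) (nat_lit 3570) (nat_lit 56006606) (PL.cons (nat_lit 33347) (nat_lit 1112022409) (nat_lit 3569)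 (nat_lit 55973259) (PL.cons (nat_lit 33343) (nat_lit 1111755649) (nat_lit 3568) (nat_lit 55939916) (PL.cons (nat_lit 33331) (nat_lit 1110955561) (nat_lit 3567) (nat_lit 55906585) (PL.cons (nat_lit 33329) (nat_lit 1110822241) (nat_lit 3566) (nat_lit 55873256) (PL.cons (nat_lit 33317) (nat_lit 1110022489) (nat_lit 3565) (nat_lit 55839939) (PL.cons (nat_lit 33311) (nat_lit 1109622721) (nat_lit 3564) (nat_lit 55806628) (PL.cons (nat_lit 33301) (nat_lit 1108956601) (nat_lit 3563) (nat_lit 55773327) (PL.cons (nat_lit 33289) (nat_lit 1108157521) (nat_lit 3562) (nat_lit 55740038) (PL.cons (nat_lit 33287) (nat_lit 1108024369) (nat_lit 3561) (nat_lit 55706751) (PL.cons (nat_lit 33247) (nat_lit 1105363009) (nat_lit 3560) (nat_lit 55673504) (PL.cons (nat_lit 33223) (nat_lit 1103767729) (nat_lit 3559) (nat_lit 55640281) (PL.cons (nat_lit 33211) (nat_lit 1102970521) (nat_lit 3558) (nat_lit 55607070) (PL.cons (nat_lit 33203) (nat_lit 1102439209) (nat_lit 3557) (nat_lit 55573867) (PL.cons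 (nat_lit 33199) (nat_lit 1102173601) (nat_lit 3556) (nat_lit 55540668) (PL.cons (nat_lit 33191) (nat_lit 1101642481) (nat_lit 3555) (nat_lit 55507477) (PL.cons (nat_lit 33181) (nat_lit 1100978761) (nat_lit 3554) (nat_lit 55474296) (PL.cons (nat_lit 33179) (nat_lit 1100846041) (nat_lit 3553) (nat_lit 55441117) (PL.cons (nat_lit 33161) (nat_lit 1099651921) (nat_lit 3552) (nat_lit 55407956) (PL.cons (nat_lit 33151) (nat_lit 1098988801) (nat_lit 3551) (nat_lit 55374805) (PL.cons (nat_lit 33149) (nat_lit 1098856201) (nat_lit 3550) (nat_lit 55341656) (PL.cons (nat_lit 33119) (nat_lit 1096868161) (nat_lit 3549) (nat_lit 55308537) (PL.cons (nat_lit 33113) (nat_lit 1096470769) (nat_lit 3548) (nat_lit 55275424) (PL.cons (nat_lit 33107) (nat_lit 1096073449) (nat_lit 3547) (nat_lit 55242317) (PL.cons (nat_lit 33091) (nat_lit 1095014281) (nat_lit 3546) (nat_lit 55209226) (PL.cons (nat_lit 33083) (nat_lit 1094484889) (nat_lit 3545) (nat_lit 55176143) (PL.cons (nat_lit 33073) (nat_lit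 1093823329) (nat_lit 3544) (nat_lit 55143070) (PL.cons (nat_lit 33071) (nat_lit 1093691041) (nat_lit 3543) (nat_lit 55109999) (PL.cons (nat_lit 33053) (nat_lit 1092500809) (nat_lit 3542) (nat_lit 55076946) (PL.cons (nat_lit 33049) (nat_lit 1092236401) (nat_lit 3541) (nat_lit 55043897) (PL.cons (nat_lit 33037) (nat_lit 1091443369) (nat_lit 3540) (nat_lit 55010860) (PL.cons (nat_lit 33029) (nat_lit 1090914841) (nat_lit 3539) (nat_lit 54977831) (PL.cons (nat_lit 33023) (nat_lit 1090518529) (nat_lit 3538) (nat_lit 54944808) (PL.cons (nat_lit 33013) (nat_lit 1089858169) (nat_lit 3537) (nat_lit 54911795) (PL.cons (nat_lit 32999) (nat_lit 1088934001) (nat_lit 3536) (nat_lit 54878796) (PL.cons (nat_lit 32993) (nat_lit 1088538049) (nat_lit 3535) (nat_lit 54845803) (PL.cons (nat_lit 32987) (nat_lit 1088142169) (nat_lit 3534) (nat_lit 54812816) (PL.cons (nat_lit 32983) (nat_lit 1087878289) (nat_lit 3533) (nat_lit 54779833) (PL.cons (nat_lit 32971) (nat_lit 1087086841) (nat_lit 3532)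 (nat_lit 54746862) (PL.cons (nat_lit 32969) (nat_lit 1086954961) (nat_lit 3531) (nat_lit 54713893) (PL.cons (nat_lit 32957) (nat_lit 1086163849) (nat_lit 3530) (nat_lit 54680936) (PL.cons (nat_lit 32941) (nat_lit 1085109481) (nat_lit 3529) (nat_lit 54647995) (PL.cons (nat_lit 32939) (nat_lit 1084977721) (nat_lit 3528) (nat_lit 54615056) (PL.cons (nat_lit 32933) (nat_lit 1084582489) (nat_lit 3527) (nat_lit 54582123) (PL.cons (nat_lit 32917) (nat_lit 1083528889) (nat_lit 3526) (nat_lit 54549206) (PL.cons (nat_lit 32911) (nat_lit 1083133921) (nat_lit 3525) (nat_lit 54516295) (PL.cons (nat_lit 32909) (nat_lit 1083002281) (nat_lit 3524) (nat_lit 54483386) (PL.cons (nat_lit 32887) (nat_lit 1081554769) (nat_lit 3523) (nat_lit 54450499) (PL.cons (nat_lit 32869) (nat_lit 1080371161) (nat_lit 3522) (nat_lit 54417630) (PL.cons (nat_lit 32843) (nat_lit 1078662649) (nat_lit 3521) (nat_lit 54384787) (PL.cons (nat_lit 32839) (nat_lit 1078399921) (nat_lit 3520) (nat_lit 54351948) (PL.cons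 (nat_lit 32833) (nat_lit 1078005889) (nat_lit 3519) (nat_lit 54319115) (PL.cons (nat_lit 32831) (nat_lit 1077874561) (nat_lit 3518) (nat_lit 54286284) (PL.cons (nat_lit 32803) (nat_lit 1076036809) (nat_lit 3517) (nat_lit 54253481) (PL.cons (nat_lit 32801) (nat_lit 1075905601) (nat_lit 3516) (nat_lit 54220680) (PL.cons (nat_lit 32797) (nat_lit 1075643209) (nat_lit 3515) (nat_lit 54187883) (PL.cons (nat_lit 32789) (nat_lit 1075118521) (nat_lit 3514) (nat_lit 54155094) (PL.cons (nat_lit 32783) (nat_lit 1074725089) (nat_lit 3513) (nat_lit 54122311) (PL.cons (nat_lit 32779) (nat_lit 1074462841) (nat_lit 3512) (nat_lit 54089532) (PL.cons (nat_lit 32771) (nat_lit 1073938441) (nat_lit 3511) (nat_lit 54056761) (PL.cons (nat_lit 32749) (nat_lit 1072497001) (nat_lit 3510) (nat_lit 54024012) (PL.cons (nat_lit 32719) (nat_lit 1070532961) (nat_lit 3509) (nat_lit 53991293) (PL.cons (nat_lit 32717) (nat_lit 1070402089) (nat_lit 3508) (nat_lit 53958576) (PL.cons (nat_lit 32713) (nat_lit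 1070140369) (nat_lit 3507) (nat_lit 53925863) (PL.cons (nat_lit 32707) (nat_lit 1069747849) (nat_lit 3506) (nat_lit 53893156) (PL.cons (nat_lit 32693) (nat_lit 1068832249) (nat_lit 3505) (nat_lit 53860463) (PL.cons (nat_lit 32687) (nat_lit 1068439969) (nat_lit 3504) (nat_lit 53827776) (PL.cons (nat_lit 32653) (nat_lit 1066218409) (nat_lit 3503) (nat_lit 53795123) (PL.cons (nat_lit 32647) (nat_lit 1065826609) (nat_lit 3502) (nat_lit 53762476) (PL.cons (nat_lit 32633) (nat_lit 1064912689) (nat_lit 3501) (nat_lit 53729843) (PL.cons (nat_lit 32621) (nat_lit 1064129641) (nat_lit 3500) (nat_lit 53697222) (PL.cons (nat_lit 32611) (nat_lit 1063477321) (nat_lit 3499) (nat_lit 53664611) (PL.cons (nat_lit 32609) (nat_lit 1063346881) (nat_lit 3498) (nat_lit 53632002) (PL.cons (nat_lit 32603) (nat_lit 1062955609) (nat_lit 3497) (nat_lit 53599399) (PL.cons (nat_lit 32587) (nat_lit 1061912569) (nat_lit 3496) (nat_lit 53566812) (PL.cons (nat_lit 32579) (nat_lit 1061391241) (nat_lit 3495)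 (nat_lit 53534233) (PL.cons (nat_lit 32573) (nat_lit 1061000329) (nat_lit 3494) (nat_lit 53501660) (PL.cons (nat_lit 32569) (nat_lit 1060739761) (nat_lit 3493) (nat_lit 53469091) (PL.cons (nat_lit 32563) (nat_lit 1060348969) (nat_lit 3492) (nat_lit 53436528) (PL.cons (nat_lit 32561) (nat_lit 1060218721) (nat_lit 3491) (nat_lit 53403967) (PL.cons (nat_lit 32537) (nat_lit 1058656369) (nat_lit 3490) (nat_lit 53371430) (PL.cons (nat_lit 32533) (nat_lit 1058396089) (nat_lit 3489) (nat_lit 53338897) (PL.cons (nat_lit 32531) (nat_lit 1058265961) (nat_lit 3488) (nat_lit 53306366) (PL.cons (nat_lit 32507) (nat_lit 1056705049) (nat_lit 3487) (nat_lit 53273859) (PL.cons (nat_lit 32503) (nat_lit 1056445009) (nat_lit 3486) (nat_lit 53241356) (PL.cons (nat_lit 32497) (nat_lit 1056055009) (nat_lit 3485) (nat_lit 53208859) (PL.cons (nat_lit 32491) (nat_lit 1055665081) (nat_lit 3484) (nat_lit 53176368) (PL.cons (nat_lit 32479) (nat_lit 1054885441) (nat_lit 3483) (nat_lit 53143889) (PL.cons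 (nat_lit 32467) (nat_lit 1054106089) (nat_lit 3482) (nat_lit 53111422) (PL.cons (nat_lit 32443) (nat_lit 1052548249) (nat_lit 3481) (nat_lit 53078979) (PL.cons (nat_lit 32441) (nat_lit 1052418481) (nat_lit 3480) (nat_lit 53046538) (PL.cons (nat_lit 32429) (nat_lit 1051640041) (nat_lit 3479) (nat_lit 53014109) (PL.cons (nat_lit 32423) (nat_lit 1051250929) (nat_lit 3478) (nat_lit 52981686) (PL.cons (nat_lit 32413) (nat_lit 1050602569) (nat_lit 3477) (nat_lit 52949273) (PL.cons (nat_lit 32411) (nat_lit 1050472921) (nat_lit 3476) (nat_lit 52916862) (PL.cons (nat_lit 32401) (nat_lit 1049824801) (nat_lit 3475) (nat_lit 52884461) (PL.cons (nat_lit 32381) (nat_lit 1048529161) (nat_lit 3474) (nat_lit 52852080) (PL.cons (nat_lit 32377) (nat_lit 1048270129) (nat_lit 3473) (nat_lit 52819703) (PL.cons (nat_lit 32371) (nat_lit 1047881641) (nat_lit 3472) (nat_lit 52787332) (PL.cons (nat_lit 32369) (nat_lit 1047752161) (nat_lit 3471) (nat_lit 52754963) (PL.cons (nat_lit 32363) (nat_lit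 1047363769) (nat_lit 3470) (nat_lit 52722600) (PL.cons (nat_lit 32359) (nat_lit 1047104881) (nat_lit 3469) (nat_lit 52690241) (PL.cons (nat_lit 32353) (nat_lit 1046716609) (nat_lit 3468) (nat_lit 52657888) (PL.cons (nat_lit 32341) (nat_lit 1045940281) (nat_lit 3467) (nat_lit 52625547) (PL.cons (nat_lit 32327) (nat_lit 1045034929) (nat_lit 3466) (nat_lit 52593220) (PL.cons (nat_lit 32323) (nat_lit 1044776329) (nat_lit 3465) (nat_lit 52560897) (PL.cons (nat_lit 32321) (nat_lit 1044647041) (nat_lit 3464) (nat_lit 52528576) (PL.cons (nat_lit 32309) (nat_lit 1043871481) (nat_lit 3463) (nat_lit 52496267) (PL.cons (nat_lit 32303) (nat_lit 1043483809) (nat_lit 3462) (nat_lit 52463964) (PL.cons (nat_lit 32299) (nat_lit 1043225401) (nat_lit 3461) (nat_lit 52431665) (PL.cons (nat_lit 32297) (nat_lit 1043096209) (nat_lit 3460) (nat_lit 52399368) (PL.cons (nat_lit 32261) (nat_lit 1040772121) (nat_lit 3459) (nat_lit 52367107) (PL.cons (nat_lit 32257) (nat_lit 1040514049) (nat_lit 3458)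 (nat_lit 52334850) (PL.cons (nat_lit 32251) (nat_lit 1040127001) (nat_lit 3457) (nat_lit 52302599) (PL.cons (nat_lit 32237) (nat_lit 1039224169) (nat_lit 3456) (nat_lit 52270362) (PL.cons (nat_lit 32233) (nat_lit 1038966289) (nat_lit 3455) (nat_lit 52238129) (PL.cons (nat_lit 32213) (nat_lit 1037677369) (nat_lit 3454) (nat_lit 52205916) (PL.cons (nat_lit 32203) (nat_lit 1037033209) (nat_lit 3453) (nat_lit 52173713) (PL.cons (nat_lit 32191) (nat_lit 1036260481) (nat_lit 3452) (nat_lit 52141522) (PL.cons (nat_lit 32189) (nat_lit 1036131721) (nat_lit 3451) (nat_lit 52109333) (PL.cons (nat_lit 32183) (nat_lit 1035745489) (nat_lit 3450) (nat_lit 52077150) (PL.cons (nat_lit 32173) (nat_lit 1035101929) (nat_lit 3449) (nat_lit 52044977) (PL.cons (nat_lit 32159) (nat_lit 1034201281) (nat_lit 3448) (nat_lit 52012818) (PL.cons (nat_lit 32143) (nat_lit 1033172449) (nat_lit 3447) (nat_lit 51980675) (PL.cons (nat_lit 32141) (nat_lit 1033043881) (nat_lit 3446) (nat_lit 51948534) (PL.cons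 (nat_lit 32119) (nat_lit 1031630161) (nat_lit 3445) (nat_lit 51916415) (PL.cons (nat_lit 32117) (nat_lit 1031501689) (nat_lit 3444) (nat_lit 51884298) (PL.cons (nat_lit 32099) (nat_lit 1030345801) (nat_lit 3443) (nat_lit 51852199) (PL.cons (nat_lit 32089) (nat_lit 1029703921) (nat_lit 3442) (nat_lit 51820110) (PL.cons (nat_lit 32083) (nat_lit 1029318889) (nat_lit 3441) (nat_lit 51788027) (PL.cons (nat_lit 32077) (nat_lit 1028933929) (nat_lit 3440) (nat_lit 51755950) (PL.cons (nat_lit 32069) (nat_lit 1028420761) (nat_lit 3439) (nat_lit 51723881) (PL.cons (nat_lit 32063) (nat_lit 1028035969) (nat_lit 3438) (nat_lit 51691818) (PL.cons (nat_lit 32059) (nat_lit 1027779481) (nat_lit 3437) (nat_lit 51659759) (PL.cons (nat_lit 32057) (nat_lit 1027651249) (nat_lit 3436) (nat_lit 51627702) (PL.cons (nat_lit 32051) (nat_lit 1027266601) (nat_lit 3435) (nat_lit 51595651) (PL.cons (nat_lit 32029) (nat_lit 1025856841) (nat_lit 3434) (nat_lit 51563622) (PL.cons (nat_lit 32027) (nat_lit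 1025728729) (nat_lit 3433) (nat_lit 51531595) (PL.cons (nat_lit 32009) (nat_lit 1024576081) (nat_lit 3432) (nat_lit 51499586) (PL.cons (nat_lit 32003) (nat_lit 1024192009) (nat_lit 3431) (nat_lit 51467583) (PL.cons (nat_lit 31991) (nat_lit 1023424081) (nat_lit 3430) (nat_lit 51435592) (PL.cons (nat_lit 31981) (nat_lit 1022784361) (nat_lit 3429) (nat_lit 51403611) (PL.cons (nat_lit 31973) (nat_lit 1022272729) (nat_lit 3428) (nat_lit 51371638) (PL.cons (nat_lit 31963) (nat_lit 1021633369) (nat_lit 3427) (nat_lit 51339675) (PL.cons (nat_lit 31957) (nat_lit 1021249849) (nat_lit 3426) (nat_lit 51307718) (PL.cons (nat_lit 31907) (nat_lit 1018056649) (nat_lit 3425) (nat_lit 51275811) (PL.cons (nat_lit 31891) (nat_lit 1017035881) (nat_lit 3424) (nat_lit 51243920) (PL.cons (nat_lit 31883) (nat_lit 1016525689) (nat_lit 3423) (nat_lit 51212037) (PL.cons (nat_lit 31873) (nat_lit 1015888129) (nat_lit 3422) (nat_lit 51180164) (PL.cons (nat_lit 31859) (nat_lit 1014995881) (nat_lit 3421)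 (nat_lit 51148305) (PL.cons (nat_lit 31849) (nat_lit 1014358801) (nat_lit 3420) (nat_lit 51116456) (PL.cons (nat_lit 31847) (nat_lit 1014231409) (nat_lit 3419) (nat_lit 51084609) (PL.cons (nat_lit 31817) (nat_lit 1012321489) (nat_lit 3418) (nat_lit 51052792) (PL.cons (nat_lit 31799) (nat_lit 1011176401) (nat_lit 3417) (nat_lit 51020993) (PL.cons (nat_lit 31793) (nat_lit 1010794849) (nat_lit 3416) (nat_lit 50989200) (PL.cons (nat_lit 31771) (nat_lit 1009396441) (nat_lit 3415) (nat_lit 50957429) (PL.cons (nat_lit 31769) (nat_lit 1009269361) (nat_lit 3414) (nat_lit 50925660) (PL.cons (nat_lit 31751) (nat_lit 1008126001) (nat_lit 3413) (nat_lit 50893909) (PL.cons (nat_lit 31741) (nat_lit 1007491081) (nat_lit 3412) (nat_lit 50862168) (PL.cons (nat_lit 31729) (nat_lit 1006729441) (nat_lit 3411) (nat_lit 50830439) (PL.cons (nat_lit 31727) (nat_lit 1006602529) (nat_lit 3410) (nat_lit 50798712) (PL.cons (nat_lit 31723) (nat_lit 1006348729) (nat_lit 3409) (nat_lit 50766989) (PL.cons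 (nat_lit 31721) (nat_lit 1006221841) (nat_lit 3408) (nat_lit 50735268) (PL.cons (nat_lit 31699) (nat_lit 1004826601) (nat_lit 3407) (nat_lit 50703569) (PL.cons (nat_lit 31687) (nat_lit 1004065969) (nat_lit 3406) (nat_lit 50671882) (PL.cons (nat_lit 31667) (nat_lit 1002798889) (nat_lit 3405) (nat_lit 50640215) (PL.cons (nat_lit 31663) (nat_lit 1002545569) (nat_lit 3404) (nat_lit 50608552) (PL.cons (nat_lit 31657) (nat_lit 1002165649) (nat_lit 3403) (nat_lit 50576895) (PL.cons (nat_lit 31649) (nat_lit 1001659201) (nat_lit 3402) (nat_lit 50545246) (PL.cons (nat_lit 31643) (nat_lit 1001279449) (nat_lit 3401) (nat_lit 50513603) (PL.cons (nat_lit 31627) (nat_lit 1000267129) (nat_lit 3400) (nat_lit 50481976) (PL.cons (nat_lit 31607) (nat_lit 999002449) (nat_lit 3399) (nat_lit 50450369) (PL.cons (nat_lit 31601) (nat_lit 998623201) (nat_lit 3398) (nat_lit 50418768) (PL.cons (nat_lit 31583) (nat_lit 997485889) (nat_lit 3397) (nat_lit 50387185) (PL.cons (nat_lit 31573) (nat_lit 996854329)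 (nat_lit 3396) (nat_lit 50355612) (PL.cons (nat_lit 31567) (nat_lit 996475489) (nat_lit 3395) (nat_lit 50324045) (PL.cons (nat_lit 31547) (nat_lit 995213209) (nat_lit 3394) (nat_lit 50292498) (PL.cons (nat_lit 31543) (nat_lit 994960849) (nat_lit 3393) (nat_lit 50260955) (PL.cons (nat_lit 31541) (nat_lit 994834681) (nat_lit 3392) (nat_lit 50229414) (PL.cons (nat_lit 31531) (nat_lit 994203961) (nat_lit 3391) (nat_lit 50197883) (PL.cons (nat_lit 31517) (nat_lit 993321289) (nat_lit 3390) (nat_lit 50166366) (PL.cons (nat_lit 31513) (nat_lit 993069169) (nat_lit 3389) (nat_lit 50134853) (PL.cons (nat_lit 31511) (nat_lit 992943121) (nat_lit 3388) (nat_lit 50103342) (PL.cons (nat_lit 31489) (nat_lit 991557121) (nat_lit 3387) (nat_lit 50071853) (PL.cons (nat_lit 31481) (nat_lit 991053361) (nat_lit 3386) (nat_lit 50040372) (PL.cons (nat_lit 31477) (nat_lit 990801529) (nat_lit 3385) (nat_lit 50008895) (PL.cons (nat_lit 31469) (nat_lit 990297961) (nat_lit 3384) (nat_lit 49977426) (PL.cons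 (nat_lit 31397) (nat_lit 985771609) (nat_lit 3383) (nat_lit 49946029) (PL.cons (nat_lit 31393) (nat_lit 985520449) (nat_lit 3382) (nat_lit 49914636) (PL.cons (nat_lit 31391) (nat_lit 985394881) (nat_lit 3381) (nat_lit 49883245) (PL.cons (nat_lit 31387) (nat_lit 985143769) (nat_lit 3380) (nat_lit 49851858) (PL.cons (nat_lit 31379) (nat_lit 984641641) (nat_lit 3379) (nat_lit 49820479) (PL.cons (nat_lit 31357) (nat_lit 983261449) (nat_lit 3378) (nat_lit 49789122) (PL.cons (nat_lit 31337) (nat_lit 982007569) (nat_lit 3377) (nat_lit 49757785) (PL.cons (nat_lit 31333) (nat_lit 981756889) (nat_lit 3376) (nat_lit 49726452) (PL.cons (nat_lit 31327) (nat_lit 981380929) (nat_lit 3375) (nat_lit 49695125) (PL.cons (nat_lit 31321) (nat_lit 981005041) (nat_lit 3374) (nat_lit 49663804) (PL.cons (nat_lit 31319) (nat_lit 980879761) (nat_lit 3373) (nat_lit 49632485) (PL.cons (nat_lit 31307) (nat_lit 980128249) (nat_lit 3372) (nat_lit 49601178) (PL.cons (nat_lit 31277) (nat_lit 978250729)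 (nat_lit 3371) (nat_lit 49569901) (PL.cons (nat_lit 31271) (nat_lit 977875441) (nat_lit 3370) (nat_lit 49538630) (PL.cons (nat_lit 31267) (nat_lit 977625289) (nat_lit 3369) (nat_lit 49507363) (PL.cons (nat_lit 31259) (nat_lit 977125081) (nat_lit 3368) (nat_lit 49476104) (PL.cons (nat_lit 31253) (nat_lit 976750009) (nat_lit 3367) (nat_lit 49444851) (PL.cons (nat_lit 31249) (nat_lit 976500001) (nat_lit 3366) (nat_lit 49413602) L17))))))))))))))))))))))))))))))))))))))))))))))))))))))))))))))))))))))))))))))))))))))))))))))))))))))))))))))))))))))))))))))))))))))))))))))))))))))))))))))))))))))))))))))))))))))))))))))))))))))))))))))))))))))))))))))))))))))))))))))))))))))))))))))))))))))))))))))))))))))))))))))))))))))))))))))))))))))))))))))))))))))))))))))))))))))))))))))))))))))))))))))))))))))))))))))))))))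

def L19 : PL := (PL.cons (nat_lit 39359) (nat_lit 1549130881) (nat_lit 4141) (nat_lit 76750167) (PL.cons (nat_lit 39343) (nat_lit 1547871649) (nat_lit 4140) (nat_lit 76710824) (PL.cons (nat_lit 39341) (nat_lit 1547714281) (nat_lit 4139) (nat_lit 76671483) (PL.cons (nat_lit 39323) (nat_lit 1546298329) (nat_lit 4138) (nat_lit 76632160) (PL.cons (nat_lit 39317) (nat_lit 1545826489) (nat_lit 4137) (nat_lit 76592843) (PL.cons (nat_lit 39313) (nat_lit 1545511969) (nat_lit 4136) (nat_lit 76553530) (PL.cons (nat_lit 39301) (nat_lit 1544568601) (nat_lit 4135) (nat_lit 76514229) (PL.cons (nat_lit 39293) (nat_lit 1543939849) (nat_lit 4134) (nat_lit 76474936) (PL.cons (nat_lit 39251) (nat_lit 1540641001) (nat_lit 4133) (nat_lit 76435685) (PL.cons (nat_lit 39241) (nat_lit 1539856081) (nat_lit 4132) (nat_lit 76396444) (PL.cons (nat_lit 39239) (nat_lit 1539699121) (nat_lit 4131) (nat_lit 76357205) (PL.cons (nat_lit 39233) (nat_lit 1539228289) (nat_lit 4130) (nat_lit 76317972) (PL.cons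 (nat_lit 39229) (nat_lit 1538914441) (nat_lit 4129) (nat_lit 76278743) (PL.cons (nat_lit 39227) (nat_lit 1538757529) (nat_lit 4128) (nat_lit 76239516) (PL.cons (nat_lit 39217) (nat_lit 1537973089) (nat_lit 4127) (nat_lit 76200299) (PL.cons (nat_lit 39209) (nat_lit 1537345681) (nat_lit 4126) (nat_lit 76161090) (PL.cons (nat_lit 39199) (nat_lit 1536561601) (nat_lit 4125) (nat_lit 76121891) (PL.cons (nat_lit 39191) (nat_lit 1535934481) (nat_lit 4124) (nat_lit 76082700) (PL.cons (nat_lit 39181) (nat_lit 1535150761) (nat_lit 4123) (nat_lit 76043519) (PL.cons (nat_lit 39163) (nat_lit 1533740569) (nat_lit 4122) (nat_lit 76004356) (PL.cons (nat_lit 39161) (nat_lit 1533583921) (nat_lit 4121) (nat_lit 75965195) (PL.cons (nat_lit 39157) (nat_lit 1533270649) (nat_lit 4120) (nat_lit 75926038) (PL.cons (nat_lit 39139) (nat_lit 1531861321) (nat_lit 4119) (nat_lit 75886899) (PL.cons (nat_lit 39133) (nat_lit 1531391689) (nat_lit 4118) (nat_lit 75847766) (PL.cons (nat_lit 39119) (nat_lit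 1530296161) (nat_lit 4117) (nat_lit 75808647) (PL.cons (nat_lit 39113) (nat_lit 1529826769) (nat_lit 4116) (nat_lit 75769534) (PL.cons (nat_lit 39107) (nat_lit 1529357449) (nat_lit 4115) (nat_lit 75730427) (PL.cons (nat_lit 39103) (nat_lit 1529044609) (nat_lit 4114) (nat_lit 75691324) (PL.cons (nat_lit 39097) (nat_lit 1528575409) (nat_lit 4113) (nat_lit 75652227) (PL.cons (nat_lit 39089) (nat_lit 1527949921) (nat_lit 4112) (nat_lit 75613138) (PL.cons (nat_lit 39079) (nat_lit 1527168241) (nat_lit 4111) (nat_lit 75574059) (PL.cons (nat_lit 39047) (nat_lit 1524668209) (nat_lit 4110) (nat_lit 75535012) (PL.cons (nat_lit 39043) (nat_lit 1524355849) (nat_lit 4109) (nat_lit 75495969) (PL.cons (nat_lit 39041) (nat_lit 1524199681) (nat_lit 4108) (nat_lit 75456928) (PL.cons (nat_lit 39023) (nat_lit 1522794529) (nat_lit 4107) (nat_lit 75417905) (PL.cons (nat_lit 39019) (nat_lit 1522482361) (nat_lit 4106) (nat_lit 75378886) (PL.cons (nat_lit 38993) (nat_lit 1520454049) (nat_lit 4105)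 (nat_lit 75339893) (PL.cons (nat_lit 38977) (nat_lit 1519206529) (nat_lit 4104) (nat_lit 75300916) (PL.cons (nat_lit 38971) (nat_lit 1518738841) (nat_lit 4103) (nat_lit 75261945) (PL.cons (nat_lit 38959) (nat_lit 1517803681) (nat_lit 4102) (nat_lit 75222986) (PL.cons (nat_lit 38953) (nat_lit 1517336209) (nat_lit 4101) (nat_lit 75184033) (PL.cons (nat_lit 38933) (nat_lit 1515778489) (nat_lit 4100) (nat_lit 75145100) (PL.cons (nat_lit 38923) (nat_lit 1514999929) (nat_lit 4099) (nat_lit 75106177) (PL.cons (nat_lit 38921) (nat_lit 1514844241) (nat_lit 4098) (nat_lit 75067256) (PL.cons (nat_lit 38917) (nat_lit 1514532889) (nat_lit 4097) (nat_lit 75028339) (PL.cons (nat_lit 38903) (nat_lit 1513443409) (nat_lit 4096) (nat_lit 74989436) (PL.cons (nat_lit 38891) (nat_lit 1512509881) (nat_lit 4095) (nat_lit 74950545) (PL.cons (nat_lit 38873) (nat_lit 1511110129) (nat_lit 4094) (nat_lit 74911672) (PL.cons (nat_lit 38867) (nat_lit 1510643689) (nat_lit 4093) (nat_lit 74872805) (PL.cons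 (nat_lit 38861) (nat_lit 1510177321) (nat_lit 4092) (nat_lit 74833944) (PL.cons (nat_lit 38851) (nat_lit 1509400201) (nat_lit 4091) (nat_lit 74795093) (PL.cons (nat_lit 38839) (nat_lit 1508467921) (nat_lit 4090) (nat_lit 74756254) (PL.cons (nat_lit 38833) (nat_lit 1508001889) (nat_lit 4089) (nat_lit 74717421) (PL.cons (nat_lit 38821) (nat_lit 1507070041) (nat_lit 4088) (nat_lit 74678600) (PL.cons (nat_lit 38803) (nat_lit 1505672809) (nat_lit 4087) (nat_lit 74639797) (PL.cons (nat_lit 38791) (nat_lit 1504741681) (nat_lit 4086) (nat_lit 74601006) (PL.cons (nat_lit 38783) (nat_lit 1504121089) (nat_lit 4085) (nat_lit 74562223) (PL.cons (nat_lit 38767) (nat_lit 1502880289) (nat_lit 4084) (nat_lit 74523456) (PL.cons (nat_lit 38749) (nat_lit 1501485001) (nat_lit 4083) (nat_lit 74484707) (PL.cons (nat_lit 38747) (nat_lit 1501330009) (nat_lit 4082) (nat_lit 74445960) (PL.cons (nat_lit 38737) (nat_lit 1500555169) (nat_lit 4081) (nat_lit 74407223) (PL.cons (nat_lit 38729) (nat_lit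 1499935441) (nat_lit 4080) (nat_lit 74368494) (PL.cons (nat_lit 38723) (nat_lit 1499470729) (nat_lit 4079) (nat_lit 74329771) (PL.cons (nat_lit 38713) (nat_lit 1498696369) (nat_lit 4078) (nat_lit 74291058) (PL.cons (nat_lit 38711) (nat_lit 1498541521) (nat_lit 4077) (nat_lit 74252347) (PL.cons (nat_lit 38707) (nat_lit 1498231849) (nat_lit 4076) (nat_lit 74213640) (PL.cons (nat_lit 38699) (nat_lit 1497612601) (nat_lit 4075) (nat_lit 74174941) (PL.cons (nat_lit 38693) (nat_lit 1497148249) (nat_lit 4074) (nat_lit 74136248) (PL.cons (nat_lit 38677) (nat_lit 1495910329) (nat_lit 4073) (nat_lit 74097571) (PL.cons (nat_lit 38671) (nat_lit 1495446241) (nat_lit 4072) (nat_lit 74058900) (PL.cons (nat_lit 38669) (nat_lit 1495291561) (nat_lit 4071) (nat_lit 74020231) (PL.cons (nat_lit 38653) (nat_lit 1494054409) (nat_lit 4070) (nat_lit 73981578) (PL.cons (nat_lit 38651) (nat_lit 1493899801) (nat_lit 4069) (nat_lit 73942927) (PL.cons (nat_lit 38639) (nat_lit 1492972321) (nat_lit 4068)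 (nat_lit 73904288) (PL.cons (nat_lit 38629) (nat_lit 1492199641) (nat_lit 4067) (nat_lit 73865659) (PL.cons (nat_lit 38611) (nat_lit 1490809321) (nat_lit 4066) (nat_lit 73827048) (PL.cons (nat_lit 38609) (nat_lit 1490654881) (nat_lit 4065) (nat_lit 73788439) (PL.cons (nat_lit 38603) (nat_lit 1490191609) (nat_lit 4064) (nat_lit 73749836) (PL.cons (nat_lit 38593) (nat_lit 1489419649) (nat_lit 4063) (nat_lit 73711243) (PL.cons (nat_lit 38569) (nat_lit 1487567761) (nat_lit 4062) (nat_lit 73672674) (PL.cons (nat_lit 38567) (nat_lit 1487413489) (nat_lit 4061) (nat_lit 73634107) (PL.cons (nat_lit 38561) (nat_lit 1486950721) (nat_lit 4060) (nat_lit 73595546) (PL.cons (nat_lit 38557) (nat_lit 1486642249) (nat_lit 4059) (nat_lit 73556989) (PL.cons (nat_lit 38543) (nat_lit 1485562849) (nat_lit 4058) (nat_lit 73518446) (PL.cons (nat_lit 38501) (nat_lit 1482327001) (nat_lit 4057) (nat_lit 73479945) (PL.cons (nat_lit 38461) (nat_lit 1479248521) (nat_lit 4056) (nat_lit 73441484) (PL.cons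 (nat_lit 38459) (nat_lit 1479094681) (nat_lit 4055) (nat_lit 73403025) (PL.cons (nat_lit 38453) (nat_lit 1478633209) (nat_lit 4054) (nat_lit 73364572) (PL.cons (nat_lit 38449) (nat_lit 1478325601) (nat_lit 4053) (nat_lit 73326123) (PL.cons (nat_lit 38447) (nat_lit 1478171809) (nat_lit 4052) (nat_lit 73287676) (PL.cons (nat_lit 38431) (nat_lit 1476941761) (nat_lit 4051) (nat_lit 73249245) (PL.cons (nat_lit 38393) (nat_lit 1474022449) (nat_lit 4050) (nat_lit 73210852) (PL.cons (nat_lit 38377) (nat_lit 1472794129) (nat_lit 4049) (nat_lit 73172475) (PL.cons (nat_lit 38371) (nat_lit 1472333641) (nat_lit 4048) (nat_lit 73134104) (PL.cons (nat_lit 38351) (nat_lit 1470799201) (nat_lit 4047) (nat_lit 73095753) (PL.cons (nat_lit 38333) (nat_lit 1469418889) (nat_lit 4046) (nat_lit 73057420) (PL.cons (nat_lit 38329) (nat_lit 1469112241) (nat_lit 4045) (nat_lit 73019091) (PL.cons (nat_lit 38327) (nat_lit 1468958929) (nat_lit 4044) (nat_lit 72980764) (PL.cons (nat_lit 38321) (nat_lit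 1468499041) (nat_lit 4043) (nat_lit 72942443) (PL.cons (nat_lit 38317) (nat_lit 1468192489) (nat_lit 4042) (nat_lit 72904126) (PL.cons (nat_lit 38303) (nat_lit 1467119809) (nat_lit 4041) (nat_lit 72865823) (PL.cons (nat_lit 38299) (nat_lit 1466813401) (nat_lit 4040) (nat_lit 72827524) (PL.cons (nat_lit 38287) (nat_lit 1465894369) (nat_lit 4039) (nat_lit 72789237) (PL.cons (nat_lit 38281) (nat_lit 1465434961) (nat_lit 4038) (nat_lit 72750956) (PL.cons (nat_lit 38273) (nat_lit 1464822529) (nat_lit 4037) (nat_lit 72712683) (PL.cons (nat_lit 38261) (nat_lit 1463904121) (nat_lit 4036) (nat_lit 72674422) (PL.cons (nat_lit 38239) (nat_lit 1462221121) (nat_lit 4035) (nat_lit 72636183) (PL.cons (nat_lit 38237) (nat_lit 1462068169) (nat_lit 4034) (nat_lit 72597946) (PL.cons (nat_lit 38231) (nat_lit 1461609361) (nat_lit 4033) (nat_lit 72559715) (PL.cons (nat_lit 38219) (nat_lit 1460691961) (nat_lit 4032) (nat_lit 72521496) (PL.cons (nat_lit 38201) (nat_lit 1459316401) (nat_lit 4031)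 (nat_lit 72483295) (PL.cons (nat_lit 38197) (nat_lit 1459010809) (nat_lit 4030) (nat_lit 72445098) (PL.cons (nat_lit 38189) (nat_lit 1458399721) (nat_lit 4029) (nat_lit 72406909) (PL.cons (nat_lit 38183) (nat_lit 1457941489) (nat_lit 4028) (nat_lit 72368726) (PL.cons (nat_lit 38177) (nat_lit 1457483329) (nat_lit 4027) (nat_lit 72330549) (PL.cons (nat_lit 38167) (nat_lit 1456719889) (nat_lit 4026) (nat_lit 72292382) (PL.cons (nat_lit 38153) (nat_lit 1455651409) (nat_lit 4025) (nat_lit 72254229) (PL.cons (nat_lit 38149) (nat_lit 1455346201) (nat_lit 4024) (nat_lit 72216080) (PL.cons (nat_lit 38119) (nat_lit 1453058161) (nat_lit 4023) (nat_lit 72177961) (PL.cons (nat_lit 38113) (nat_lit 1452600769) (nat_lit 4022) (nat_lit 72139848) (PL.cons (nat_lit 38083) (nat_lit 1450314889) (nat_lit 4021) (nat_lit 72101765) (PL.cons (nat_lit 38069) (nat_lit 1449248761) (nat_lit 4020) (nat_lit 72063696) (PL.cons (nat_lit 38053) (nat_lit 1448030809) (nat_lit 4019) (nat_lit 72025643) (PL.cons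 (nat_lit 38047) (nat_lit 1447574209) (nat_lit 4018) (nat_lit 71987596) (PL.cons (nat_lit 38039) (nat_lit 1446965521) (nat_lit 4017) (nat_lit 71949557) (PL.cons (nat_lit 38011) (nat_lit 1444836121) (nat_lit 4016) (nat_lit 71911546) (PL.cons (nat_lit 37997) (nat_lit 1443772009) (nat_lit 4015) (nat_lit 71873549) (PL.cons (nat_lit 37993) (nat_lit 1443468049) (nat_lit 4014) (nat_lit 71835556) (PL.cons (nat_lit 37991) (nat_lit 1443316081) (nat_lit 4013) (nat_lit 71797565) (PL.cons (nat_lit 37987) (nat_lit 1443012169) (nat_lit 4012) (nat_lit 71759578) (PL.cons (nat_lit 37967) (nat_lit 1441493089) (nat_lit 4011) (nat_lit 71721611) (PL.cons (nat_lit 37963) (nat_lit 1441189369) (nat_lit 4010) (nat_lit 71683648) (PL.cons (nat_lit 37957) (nat_lit 1440733849) (nat_lit 4009) (nat_lit 71645691) (PL.cons (nat_lit 37951) (nat_lit 1440278401) (nat_lit 4008) (nat_lit 71607740) (PL.cons (nat_lit 37907) (nat_lit 1436940649) (nat_lit 4007) (nat_lit 71569833) (PL.cons (nat_lit 37897) (nat_lit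 1436182609) (nat_lit 4006) (nat_lit 71531936) (PL.cons (nat_lit 37889) (nat_lit 1435576321) (nat_lit 4005) (nat_lit 71494047) (PL.cons (nat_lit 37879) (nat_lit 1434818641) (nat_lit 4004) (nat_lit 71456168) (PL.cons (nat_lit 37871) (nat_lit 1434212641) (nat_lit 4003) (nat_lit 71418297) (PL.cons (nat_lit 37861) (nat_lit 1433455321) (nat_lit 4002) (nat_lit 71380436) (PL.cons (nat_lit 37853) (nat_lit 1432849609) (nat_lit 4001) (nat_lit 71342583) (PL.cons (nat_lit 37847) (nat_lit 1432395409) (nat_lit 4000) (nat_lit 71304736) (PL.cons (nat_lit 37831) (nat_lit 1431184561) (nat_lit 3999) (nat_lit 71266905) (PL.cons (nat_lit 37813) (nat_lit 1429822969) (nat_lit 3998) (nat_lit 71229092) (PL.cons (nat_lit 37811) (nat_lit 1429671721) (nat_lit 3997) (nat_lit 71191281) (PL.cons (nat_lit 37799) (nat_lit 1428764401) (nat_lit 3996) (nat_lit 71153482) (PL.cons (nat_lit 37783) (nat_lit 1427555089) (nat_lit 3995) (nat_lit 71115699) (PL.cons (nat_lit 37781) (nat_lit 1427403961) (nat_lit 3994)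 (nat_lit 71077918) (PL.cons (nat_lit 37747) (nat_lit 1424836009) (nat_lit 3993) (nat_lit 71040171) (PL.cons (nat_lit 37717) (nat_lit 1422572089) (nat_lit 3992) (nat_lit 71002454) (PL.cons (nat_lit 37699) (nat_lit 1421214601) (nat_lit 3991) (nat_lit 70964755) (PL.cons (nat_lit 37693) (nat_lit 1420762249) (nat_lit 3990) (nat_lit 70927062) (PL.cons (nat_lit 37691) (nat_lit 1420611481) (nat_lit 3989) (nat_lit 70889371) (PL.cons (nat_lit 37663) (nat_lit 1418501569) (nat_lit 3988) (nat_lit 70851708) (PL.cons (nat_lit 37657) (nat_lit 1418049649) (nat_lit 3987) (nat_lit 70814051) (PL.cons (nat_lit 37649) (nat_lit 1417447201) (nat_lit 3986) (nat_lit 70776402) (PL.cons (nat_lit 37643) (nat_lit 1416995449) (nat_lit 3985) (nat_lit 70738759) (PL.cons (nat_lit 37633) (nat_lit 1416242689) (nat_lit 3984) (nat_lit 70701126) (PL.cons (nat_lit 37619) (nat_lit 1415189161) (nat_lit 3983) (nat_lit 70663507) (PL.cons (nat_lit 37607) (nat_lit 1414286449) (nat_lit 3982) (nat_lit 70625900) (PL.cons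 (nat_lit 37591) (nat_lit 1413083281) (nat_lit 3981) (nat_lit 70588309) (PL.cons (nat_lit 37589) (nat_lit 1412932921) (nat_lit 3980) (nat_lit 70550720) (PL.cons (nat_lit 37579) (nat_lit 1412181241) (nat_lit 3979) (nat_lit 70513141) (PL.cons (nat_lit 37573) (nat_lit 1411730329) (nat_lit 3978) (nat_lit 70475568) (PL.cons (nat_lit 37571) (nat_lit 1411580041) (nat_lit 3977) (nat_lit 70437997) (PL.cons (nat_lit 37567) (nat_lit 1411279489) (nat_lit 3976) (nat_lit 70400430) (PL.cons (nat_lit 37561) (nat_lit 1410828721) (nat_lit 3975) (nat_lit 70362869) (PL.cons (nat_lit 37549) (nat_lit 1409927401) (nat_lit 3974) (nat_lit 70325320) (PL.cons (nat_lit 37547) (nat_lit 1409777209) (nat_lit 3973) (nat_lit 70287773) (PL.cons (nat_lit 37537) (nat_lit 1409026369) (nat_lit 3972) (nat_lit 70250236) (PL.cons (nat_lit 37529) (nat_lit 1408425841) (nat_lit 3971) (nat_lit 70212707) (PL.cons (nat_lit 37517) (nat_lit 1407525289) (nat_lit 3970) (nat_lit 70175190) (PL.cons (nat_lit 37511) (nat_lit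 1407075121) (nat_lit 3969) (nat_lit 70137679) (PL.cons (nat_lit 37507) (nat_lit 1406775049) (nat_lit 3968) (nat_lit 70100172) (PL.cons (nat_lit 37501) (nat_lit 1406325001) (nat_lit 3967) (nat_lit 70062671) (PL.cons (nat_lit 37493) (nat_lit 1405725049) (nat_lit 3966) (nat_lit 70025178) (PL.cons (nat_lit 37489) (nat_lit 1405425121) (nat_lit 3965) (nat_lit 69987689) (PL.cons (nat_lit 37483) (nat_lit 1404975289) (nat_lit 3964) (nat_lit 69950206) (PL.cons (nat_lit 37463) (nat_lit 1403476369) (nat_lit 3963) (nat_lit 69912743) (PL.cons (nat_lit 37447) (nat_lit 1402277809) (nat_lit 3962) (nat_lit 69875296) (PL.cons (nat_lit 37441) (nat_lit 1401828481) (nat_lit 3961) (nat_lit 69837855) (PL.cons (nat_lit 37423) (nat_lit 1400480929) (nat_lit 3960) (nat_lit 69800432) (PL.cons (nat_lit 37409) (nat_lit 1399433281) (nat_lit 3959) (nat_lit 69763023) (PL.cons (nat_lit 37397) (nat_lit 1398535609) (nat_lit 3958) (nat_lit 69725626) (PL.cons (nat_lit 37379) (nat_lit 1397189641) (nat_lit 3957)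 (nat_lit 69688247) (PL.cons (nat_lit 37369) (nat_lit 1396442161) (nat_lit 3956) (nat_lit 69650878) (PL.cons (nat_lit 37363) (nat_lit 1395993769) (nat_lit 3955) (nat_lit 69613515) (PL.cons (nat_lit 37361) (nat_lit 1395844321) (nat_lit 3954) (nat_lit 69576154) (PL.cons (nat_lit 37357) (nat_lit 1395545449) (nat_lit 3953) (nat_lit 69538797) (PL.cons (nat_lit 37339) (nat_lit 1394200921) (nat_lit 3952) (nat_lit 69501458) (PL.cons (nat_lit 37337) (nat_lit 1394051569) (nat_lit 3951) (nat_lit 69464121) (PL.cons (nat_lit 37321) (nat_lit 1392857041) (nat_lit 3950) (nat_lit 69426800) (PL.cons (nat_lit 37313) (nat_lit 1392259969) (nat_lit 3949) (nat_lit 69389487) (PL.cons (nat_lit 37309) (nat_lit 1391961481) (nat_lit 3948) (nat_lit 69352178) (PL.cons (nat_lit 37307) (nat_lit 1391812249) (nat_lit 3947) (nat_lit 69314871) (PL.cons (nat_lit 37277) (nat_lit 1389574729) (nat_lit 3946) (nat_lit 69277594) (PL.cons (nat_lit 37273) (nat_lit 1389276529) (nat_lit 3945) (nat_lit 69240321) (PL.cons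 (nat_lit 37253) (nat_lit 1387786009) (nat_lit 3944) (nat_lit 69203068) (PL.cons (nat_lit 37243) (nat_lit 1387041049) (nat_lit 3943) (nat_lit 69165825) (PL.cons (nat_lit 37223) (nat_lit 1385551729) (nat_lit 3942) (nat_lit 69128602) (PL.cons (nat_lit 37217) (nat_lit 1385105089) (nat_lit 3941) (nat_lit 69091385) (PL.cons (nat_lit 37201) (nat_lit 1383914401) (nat_lit 3940) (nat_lit 69054184) (PL.cons (nat_lit 37199) (nat_lit 1383765601) (nat_lit 3939) (nat_lit 69016985) (PL.cons (nat_lit 37189) (nat_lit 1383021721) (nat_lit 3938) (nat_lit 68979796) (PL.cons (nat_lit 37181) (nat_lit 1382426761) (nat_lit 3937) (nat_lit 68942615) (PL.cons (nat_lit 37171) (nat_lit 1381683241) (nat_lit 3936) (nat_lit 68905444) (PL.cons (nat_lit 37159) (nat_lit 1380791281) (nat_lit 3935) (nat_lit 68868285) (PL.cons (nat_lit 37139) (nat_lit 1379305321) (nat_lit 3934) (nat_lit 68831146) (PL.cons (nat_lit 37123) (nat_lit 1378117129) (nat_lit 3933) (nat_lit 68794023) (PL.cons (nat_lit 37117) (nat_lit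 1377671689) (nat_lit 3932) (nat_lit 68756906) (PL.cons (nat_lit 37097) (nat_lit 1376187409) (nat_lit 3931) (nat_lit 68719809) (PL.cons (nat_lit 37087) (nat_lit 1375445569) (nat_lit 3930) (nat_lit 68682722) (PL.cons (nat_lit 37061) (nat_lit 1373517721) (nat_lit 3929) (nat_lit 68645661) (PL.cons (nat_lit 37057) (nat_lit 1373221249) (nat_lit 3928) (nat_lit 68608604) (PL.cons (nat_lit 37049) (nat_lit 1372628401) (nat_lit 3927) (nat_lit 68571555) (PL.cons (nat_lit 37039) (nat_lit 1371887521) (nat_lit 3926) (nat_lit 68534516) (PL.cons (nat_lit 37021) (nat_lit 1370554441) (nat_lit 3925) (nat_lit 68497495) (PL.cons (nat_lit 37019) (nat_lit 1370406361) (nat_lit 3924) (nat_lit 68460476) (PL.cons (nat_lit 37013) (nat_lit 1369962169) (nat_lit 3923) (nat_lit 68423463) (PL.cons (nat_lit 37003) (nat_lit 1369222009) (nat_lit 3922) (nat_lit 68386460) (PL.cons (nat_lit 36997) (nat_lit 1368778009) (nat_lit 3921) (nat_lit 68349463) (PL.cons (nat_lit 36979) (nat_lit 1367446441) (nat_lit 3920)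 (nat_lit 68312484) (PL.cons (nat_lit 36973) (nat_lit 1367002729) (nat_lit 3919) (nat_lit 68275511) (PL.cons (nat_lit 36947) (nat_lit 1365080809) (nat_lit 3918) (nat_lit 68238564) (PL.cons (nat_lit 36943) (nat_lit 1364785249) (nat_lit 3917) (nat_lit 68201621) (PL.cons (nat_lit 36931) (nat_lit 1363898761) (nat_lit 3916) (nat_lit 68164690) (PL.cons (nat_lit 36929) (nat_lit 1363751041) (nat_lit 3915) (nat_lit 68127761) (PL.cons (nat_lit 36923) (nat_lit 1363307929) (nat_lit 3914) (nat_lit 68090838) (PL.cons (nat_lit 36919) (nat_lit 1363012561) (nat_lit 3913) (nat_lit 68053919) (PL.cons (nat_lit 36913) (nat_lit 1362569569) (nat_lit 3912) (nat_lit 68017006) (PL.cons (nat_lit 36901) (nat_lit 1361683801) (nat_lit 3911) (nat_lit 67980105) (PL.cons (nat_lit 36899) (nat_lit 1361536201) (nat_lit 3910) (nat_lit 67943206) (PL.cons (nat_lit 36887) (nat_lit 1360650769) (nat_lit 3909) (nat_lit 67906319) (PL.cons (nat_lit 36877) (nat_lit 1359913129) (nat_lit 3908) (nat_lit 67869442) (PL.cons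 (nat_lit 36871) (nat_lit 1359470641) (nat_lit 3907) (nat_lit 67832571) (PL.cons (nat_lit 36857) (nat_lit 1358438449) (nat_lit 3906) (nat_lit 67795714) (PL.cons (nat_lit 36847) (nat_lit 1357701409) (nat_lit 3905) (nat_lit 67758867) (PL.cons (nat_lit 36833) (nat_lit 1356669889) (nat_lit 3904) (nat_lit 67722034) (PL.cons (nat_lit 36821) (nat_lit 1355786041) (nat_lit 3903) (nat_lit 67685213) (PL.cons (nat_lit 36809) (nat_lit 1354902481) (nat_lit 3902) (nat_lit 67648404) (PL.cons (nat_lit 36793) (nat_lit 1353724849) (nat_lit 3901) (nat_lit 67611611) (PL.cons (nat_lit 36791) (nat_lit 1353577681) (nat_lit 3900) (nat_lit 67574820) (PL.cons (nat_lit 36787) (nat_lit 1353283369) (nat_lit 3899) (nat_lit 67538033) (PL.cons (nat_lit 36781) (nat_lit 1352841961) (nat_lit 3898) (nat_lit 67501252) (PL.cons (nat_lit 36779) (nat_lit 1352694841) (nat_lit 3897) (nat_lit 67464473) (PL.cons (nat_lit 36767) (nat_lit 1351812289) (nat_lit 3896) (nat_lit 67427706) (PL.cons (nat_lit 36761) (nat_lit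 1351371121) (nat_lit 3895) (nat_lit 67390945) (PL.cons (nat_lit 36749) (nat_lit 1350489001) (nat_lit 3894) (nat_lit 67354196) (PL.cons (nat_lit 36739) (nat_lit 1349754121) (nat_lit 3893) (nat_lit 67317457) (PL.cons (nat_lit 36721) (nat_lit 1348431841) (nat_lit 3892) (nat_lit 67280736) (PL.cons (nat_lit 36713) (nat_lit 1347844369) (nat_lit 3891) (nat_lit 67244023) (PL.cons (nat_lit 36709) (nat_lit 1347550681) (nat_lit 3890) (nat_lit 67207314) (PL.cons (nat_lit 36697) (nat_lit 1346669809) (nat_lit 3889) (nat_lit 67170617) (PL.cons (nat_lit 36691) (nat_lit 1346229481) (nat_lit 3888) (nat_lit 67133926) (PL.cons (nat_lit 36683) (nat_lit 1345642489) (nat_lit 3887) (nat_lit 67097243) (PL.cons (nat_lit 36677) (nat_lit 1345202329) (nat_lit 3886) (nat_lit 67060566) (PL.cons (nat_lit 36671) (nat_lit 1344762241) (nat_lit 3885) (nat_lit 67023895) (PL.cons (nat_lit 36653) (nat_lit 1343442409) (nat_lit 3884) (nat_lit 66987242) (PL.cons (nat_lit 36643) (nat_lit 1342709449) (nat_lit 3883)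 (nat_lit 66950599) (PL.cons (nat_lit 36637) (nat_lit 1342269769) (nat_lit 3882) (nat_lit 66913962) (PL.cons (nat_lit 36629) (nat_lit 1341683641) (nat_lit 3881) (nat_lit 66877333) (PL.cons (nat_lit 36607) (nat_lit 1340072449) (nat_lit 3880) (nat_lit 66840726) (PL.cons (nat_lit 36599) (nat_lit 1339486801) (nat_lit 3879) (nat_lit 66804127) (PL.cons (nat_lit 36587) (nat_lit 1338608569) (nat_lit 3878) (nat_lit 66767540) (PL.cons (nat_lit 36583) (nat_lit 1338315889) (nat_lit 3877) (nat_lit 66730957) (PL.cons (nat_lit 36571) (nat_lit 1337438041) (nat_lit 3876) (nat_lit 66694386) (PL.cons (nat_lit 36563) (nat_lit 1336852969) (nat_lit 3875) (nat_lit 66657823) (PL.cons (nat_lit 36559) (nat_lit 1336560481) (nat_lit 3874) (nat_lit 66621264) (PL.cons (nat_lit 36551) (nat_lit 1335975601) (nat_lit 3873) (nat_lit 66584713) (PL.cons (nat_lit 36541) (nat_lit 1335244681) (nat_lit 3872) (nat_lit 66548172) (PL.cons (nat_lit 36529) (nat_lit 1334367841) (nat_lit 3871) (nat_lit 66511643) (PL.cons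 (nat_lit 36527) (nat_lit 1334221729) (nat_lit 3870) (nat_lit 66475116) (PL.cons (nat_lit 36523) (nat_lit 1333929529) (nat_lit 3869) (nat_lit 66438593) (PL.cons (nat_lit 36497) (nat_lit 1332031009) (nat_lit 3868) (nat_lit 66402096) (PL.cons (nat_lit 36493) (nat_lit 1331739049) (nat_lit 3867) (nat_lit 66365603) (PL.cons (nat_lit 36479) (nat_lit 1330717441) (nat_lit 3866) (nat_lit 66329124) (PL.cons (nat_lit 36473) (nat_lit 1330279729) (nat_lit 3865) (nat_lit 66292651) (PL.cons (nat_lit 36469) (nat_lit 1329987961) (nat_lit 3864) (nat_lit 66256182) (PL.cons (nat_lit 36467) (nat_lit 1329842089) (nat_lit 3863) (nat_lit 66219715) (PL.cons (nat_lit 36457) (nat_lit 1329112849) (nat_lit 3862) (nat_lit 66183258) (PL.cons (nat_lit 36451) (nat_lit 1328675401) (nat_lit 3861) (nat_lit 66146807) (PL.cons (nat_lit 36433) (nat_lit 1327363489) (nat_lit 3860) (nat_lit 66110374) (PL.cons (nat_lit 36389) (nat_lit 1324159321) (nat_lit 3859) (nat_lit 66073985) (PL.cons (nat_lit 36383) (nat_lit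 1323722689) (nat_lit 3858) (nat_lit 66037602) (PL.cons (nat_lit 36373) (nat_lit 1322995129) (nat_lit 3857) (nat_lit 66001229) (PL.cons (nat_lit 36353) (nat_lit 1321540609) (nat_lit 3856) (nat_lit 65964876) (PL.cons (nat_lit 36343) (nat_lit 1320813649) (nat_lit 3855) (nat_lit 65928533) (PL.cons (nat_lit 36341) (nat_lit 1320668281) (nat_lit 3854) (nat_lit 65892192) (PL.cons (nat_lit 36319) (nat_lit 1319069761) (nat_lit 3853) (nat_lit 65855873) (PL.cons (nat_lit 36313) (nat_lit 1318633969) (nat_lit 3852) (nat_lit 65819560) (PL.cons (nat_lit 36307) (nat_lit 1318198249) (nat_lit 3851) (nat_lit 65783253) (PL.cons (nat_lit 36299) (nat_lit 1317617401) (nat_lit 3850) (nat_lit 65746954) (PL.cons (nat_lit 36293) (nat_lit 1317181849) (nat_lit 3849) (nat_lit 65710661) (PL.cons (nat_lit 36277) (nat_lit 1316020729) (nat_lit 3848) (nat_lit 65674384) (PL.cons (nat_lit 36269) (nat_lit 1315440361) (nat_lit 3847) (nat_lit 65638115) (PL.cons (nat_lit 36263) (nat_lit 1315005169) (nat_lit 3846)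 (nat_lit 65601852) (PL.cons (nat_lit 36251) (nat_lit 1314135001) (nat_lit 3845) (nat_lit 65565601) (PL.cons (nat_lit 36241) (nat_lit 1313410081) (nat_lit 3844) (nat_lit 65529360) (PL.cons (nat_lit 36229) (nat_lit 1312540441) (nat_lit 3843) (nat_lit 65493131) (PL.cons (nat_lit 36217) (nat_lit 1311671089) (nat_lit 3842) (nat_lit 65456914) (PL.cons (nat_lit 36209) (nat_lit 1311091681) (nat_lit 3841) (nat_lit 65420705) (PL.cons (nat_lit 36191) (nat_lit 1309788481) (nat_lit 3840) (nat_lit 65384514) (PL.cons (nat_lit 36187) (nat_lit 1309498969) (nat_lit 3839) (nat_lit 65348327) (PL.cons (nat_lit 36161) (nat_lit 1307617921) (nat_lit 3838) (nat_lit 65312166) (PL.cons (nat_lit 36151) (nat_lit 1306894801) (nat_lit 3837) (nat_lit 65276015) (PL.cons (nat_lit 36137) (nat_lit 1305882769) (nat_lit 3836) (nat_lit 65239878) (PL.cons (nat_lit 36131) (nat_lit 1305449161) (nat_lit 3835) (nat_lit 65203747) (PL.cons (nat_lit 36109) (nat_lit 1303859881) (nat_lit 3834) (nat_lit 65167638) (PL.cons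 (nat_lit 36107) (nat_lit 1303715449) (nat_lit 3833) (nat_lit 65131531) (PL.cons (nat_lit 36097) (nat_lit 1302993409) (nat_lit 3832) (nat_lit 65095434) (PL.cons (nat_lit 36083) (nat_lit 1301982889) (nat_lit 3831) (nat_lit 65059351) (PL.cons (nat_lit 36073) (nat_lit 1301261329) (nat_lit 3830) (nat_lit 65023278) (PL.cons (nat_lit 36067) (nat_lit 1300828489) (nat_lit 3829) (nat_lit 64987211) (PL.cons (nat_lit 36061) (nat_lit 1300395721) (nat_lit 3828) (nat_lit 64951150) (PL.cons (nat_lit 36037) (nat_lit 1298665369) (nat_lit 3827) (nat_lit 64915113) (PL.cons (nat_lit 36017) (nat_lit 1297224289) (nat_lit 3826) (nat_lit 64879096) (PL.cons (nat_lit 36013) (nat_lit 1296936169) (nat_lit 3825) (nat_lit 64843083) (PL.cons (nat_lit 36011) (nat_lit 1296792121) (nat_lit 3824) (nat_lit 64807072) (PL.cons (nat_lit 36007) (nat_lit 1296504049) (nat_lit 3823) (nat_lit 64771065) (PL.cons (nat_lit 35999) (nat_lit 1295928001) (nat_lit 3822) (nat_lit 64735066) (PL.cons (nat_lit 35993) (nat_lit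 1295496049) (nat_lit 3821) (nat_lit 64699073) (PL.cons (nat_lit 35983) (nat_lit 1294776289) (nat_lit 3820) (nat_lit 64663090) (PL.cons (nat_lit 35977) (nat_lit 1294344529) (nat_lit 3819) (nat_lit 64627113) (PL.cons (nat_lit 35969) (nat_lit 1293768961) (nat_lit 3818) (nat_lit 64591144) (PL.cons (nat_lit 35963) (nat_lit 1293337369) (nat_lit 3817) (nat_lit 64555181) (PL.cons (nat_lit 35951) (nat_lit 1292474401) (nat_lit 3816) (nat_lit 64519230) (PL.cons (nat_lit 35933) (nat_lit 1291180489) (nat_lit 3815) (nat_lit 64483297) (PL.cons (nat_lit 35923) (nat_lit 1290461929) (nat_lit 3814) (nat_lit 64447374) (PL.cons (nat_lit 35911) (nat_lit 1289599921) (nat_lit 3813) (nat_lit 64411463) (PL.cons (nat_lit 35899) (nat_lit 1288738201) (nat_lit 3812) (nat_lit 64375564) (PL.cons (nat_lit 35897) (nat_lit 1288594609) (nat_lit 3811) (nat_lit 64339667) (PL.cons (nat_lit 35879) (nat_lit 1287302641) (nat_lit 3810) (nat_lit 64303788) (PL.cons (nat_lit 35869) (nat_lit 1286585161) (nat_lit 3809)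 (nat_lit 64267919) (PL.cons (nat_lit 35863) (nat_lit 1286154769) (nat_lit 3808) (nat_lit 64232056) (PL.cons (nat_lit 35851) (nat_lit 1285294201) (nat_lit 3807) (nat_lit 64196205) (PL.cons (nat_lit 35839) (nat_lit 1284433921) (nat_lit 3806) (nat_lit 64160366) (PL.cons (nat_lit 35837) (nat_lit 1284290569) (nat_lit 3805) (nat_lit 64124529) (PL.cons (nat_lit 35831) (nat_lit 1283860561) (nat_lit 3804) (nat_lit 64088698) (PL.cons (nat_lit 35809) (nat_lit 1282284481) (nat_lit 3803) (nat_lit 64052889) (PL.cons (nat_lit 35803) (nat_lit 1281854809) (nat_lit 3802) (nat_lit 64017086) (PL.cons (nat_lit 35801) (nat_lit 1281711601) (nat_lit 3801) (nat_lit 63981285) (PL.cons (nat_lit 35797) (nat_lit 1281425209) (nat_lit 3800) (nat_lit 63945488) (PL.cons (nat_lit 35771) (nat_lit 1279564441) (nat_lit 3799) (nat_lit 63909717) (PL.cons (nat_lit 35759) (nat_lit 1278706081) (nat_lit 3798) (nat_lit 63873958) (PL.cons (nat_lit 35753) (nat_lit 1278277009) (nat_lit 3797) (nat_lit 63838205) (PL.cons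 (nat_lit 35747) (nat_lit 1277848009) (nat_lit 3796) (nat_lit 63802458) (PL.cons (nat_lit 35731) (nat_lit 1276704361) (nat_lit 3795) (nat_lit 63766727) (PL.cons (nat_lit 35729) (nat_lit 1276561441) (nat_lit 3794) (nat_lit 63730998) (PL.cons (nat_lit 35677) (nat_lit 1272848329) (nat_lit 3793) (nat_lit 63695321) (PL.cons (nat_lit 35671) (nat_lit 1272420241) (nat_lit 3792) (nat_lit 63659650) (PL.cons (nat_lit 35617) (nat_lit 1268570689) (nat_lit 3791) (nat_lit 63624033) (PL.cons (nat_lit 35603) (nat_lit 1267573609) (nat_lit 3790) (nat_lit 63588430) (PL.cons (nat_lit 35597) (nat_lit 1267146409) (nat_lit 3789) (nat_lit 63552833) (PL.cons (nat_lit 35593) (nat_lit 1266861649) (nat_lit 3788) (nat_lit 63517240) (PL.cons (nat_lit 35591) (nat_lit 1266719281) (nat_lit 3787) (nat_lit 63481649) (PL.cons (nat_lit 35573) (nat_lit 1265438329) (nat_lit 3786) (nat_lit 63446076) (PL.cons (nat_lit 35569) (nat_lit 1265153761) (nat_lit 3785) (nat_lit 63410507) (PL.cons (nat_lit 35543) (nat_lit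 1263304849) (nat_lit 3784) (nat_lit 63374964) (PL.cons (nat_lit 35537) (nat_lit 1262878369) (nat_lit 3783) (nat_lit 63339427) (PL.cons (nat_lit 35533) (nat_lit 1262594089) (nat_lit 3782) (nat_lit 63303894) (PL.cons (nat_lit 35531) (nat_lit 1262451961) (nat_lit 3781) (nat_lit 63268363) (PL.cons (nat_lit 35527) (nat_lit 1262167729) (nat_lit 3780) (nat_lit 63232836) (PL.cons (nat_lit 35521) (nat_lit 1261741441) (nat_lit 3779) (nat_lit 63197315) (PL.cons (nat_lit 35509) (nat_lit 1260889081) (nat_lit 3778) (nat_lit 63161806) (PL.cons (nat_lit 35507) (nat_lit 1260747049) (nat_lit 3777) (nat_lit 63126299) (PL.cons (nat_lit 35491) (nat_lit 1259611081) (nat_lit 3776) (nat_lit 63090808) (PL.cons (nat_lit 35461) (nat_lit 1257482521) (nat_lit 3775) (nat_lit 63055347) (PL.cons (nat_lit 35449) (nat_lit 1256631601) (nat_lit 3774) (nat_lit 63019898) (PL.cons (nat_lit 35447) (nat_lit 1256489809) (nat_lit 3773) (nat_lit 62984451) (PL.cons (nat_lit 35437) (nat_lit 1255780969) (nat_lit 3772)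 (nat_lit 62949014) (PL.cons (nat_lit 35423) (nat_lit 1254788929) (nat_lit 3771) (nat_lit 62913591) (PL.cons (nat_lit 35419) (nat_lit 1254505561) (nat_lit 3770) (nat_lit 62878172) (PL.cons (nat_lit 35407) (nat_lit 1253655649) (nat_lit 3769) (nat_lit 62842765) (PL.cons (nat_lit 35401) (nat_lit 1253230801) (nat_lit 3768) (nat_lit 62807364) (PL.cons (nat_lit 35393) (nat_lit 1252664449) (nat_lit 3767) (nat_lit 62771971) (PL.cons (nat_lit 35381) (nat_lit 1251815161) (nat_lit 3766) (nat_lit 62736590) (PL.cons (nat_lit 35363) (nat_lit 1250541769) (nat_lit 3765) (nat_lit 62701227) (PL.cons (nat_lit 35353) (nat_lit 1249834609) (nat_lit 3764) (nat_lit 62665874) (PL.cons (nat_lit 35339) (nat_lit 1248844921) (nat_lit 3763) (nat_lit 62630535) (PL.cons (nat_lit 35327) (nat_lit 1247996929) (nat_lit 3762) (nat_lit 62595208) (PL.cons (nat_lit 35323) (nat_lit 1247714329) (nat_lit 3761) (nat_lit 62559885) (PL.cons (nat_lit 35317) (nat_lit 1247290489) (nat_lit 3760) (nat_lit 62524568) (PL.cons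 (nat_lit 35311) (nat_lit 1246866721) (nat_lit 3759) (nat_lit 62489257) (PL.cons (nat_lit 35291) (nat_lit 1245454681) (nat_lit 3758) (nat_lit 62453966) (PL.cons (nat_lit 35281) (nat_lit 1244748961) (nat_lit 3757) (nat_lit 62418685) (PL.cons (nat_lit 35279) (nat_lit 1244607841) (nat_lit 3756) (nat_lit 62383406) (PL.cons (nat_lit 35267) (nat_lit 1243761289) (nat_lit 3755) (nat_lit 62348139) (PL.cons (nat_lit 35257) (nat_lit 1243056049) (nat_lit 3754) (nat_lit 62312882) L18))))))))))))))))))))))))))))))))))))))))))))))))))))))))))))))))))))))))))))))))))))))))))))))))))))))))))))))))))))))))))))))))))))))))))))))))))))))))))))))))))))))))))))))))))))))))))))))))))))))))))))))))))))))))))))))))))))))))))))))))))))))))))))))))))))))))))))))))))))))))))))))))))))))))))))))))))))))))))))))))))))))))))))))))))))))))))))))))))))))))))))))))))))))))))))))))))))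

def L20 : PL := (PL.cons (nat_lit 43457) (nat_lit 1888510849) (nat_lit 4529) (nat_lit 92818257) (PL.cons (nat_lit 43451) (nat_lit 1887989401) (nat_lit 4528) (nat_lit 92774806) (PL.cons (nat_lit 43441) (nat_lit 1887120481) (nat_lit 4527) (nat_lit 92731365) (PL.cons (nat_lit 43427) (nat_lit 1885904329) (nat_lit 4526) (nat_lit 92687938) (PL.cons (nat_lit 43411) (nat_lit 1884514921) (nat_lit 4525) (nat_lit 92644527) (PL.cons (nat_lit 43403) (nat_lit 1883820409) (nat_lit 4524) (nat_lit 92601124) (PL.cons (nat_lit 43399) (nat_lit 1883473201) (nat_lit 4523) (nat_lit 92557725) (PL.cons (nat_lit 43397) (nat_lit 1883299609) (nat_lit 4522) (nat_lit 92514328) (PL.cons (nat_lit 43391) (nat_lit 1882778881) (nat_lit 4521) (nat_lit 92470937) (PL.cons (nat_lit 43331) (nat_lit 1877575561) (nat_lit 4520) (nat_lit 92427606) (PL.cons (nat_lit 43321) (nat_lit 1876709041) (nat_lit 4519) (nat_lit 92384285) (PL.cons (nat_lit 43319) (nat_lit 1876535761) (nat_lit 4518) (nat_lit 92340966) (PL.cons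 (nat_lit 43313) (nat_lit 1876015969) (nat_lit 4517) (nat_lit 92297653) (PL.cons (nat_lit 43291) (nat_lit 1874110681) (nat_lit 4516) (nat_lit 92254362) (PL.cons (nat_lit 43283) (nat_lit 1873418089) (nat_lit 4515) (nat_lit 92211079) (PL.cons (nat_lit 43271) (nat_lit 1872379441) (nat_lit 4514) (nat_lit 92167808) (PL.cons (nat_lit 43261) (nat_lit 1871514121) (nat_lit 4513) (nat_lit 92124547) (PL.cons (nat_lit 43237) (nat_lit 1869438169) (nat_lit 4512) (nat_lit 92081310) (PL.cons (nat_lit 43223) (nat_lit 1868227729) (nat_lit 4511) (nat_lit 92038087) (PL.cons (nat_lit 43207) (nat_lit 1866844849) (nat_lit 4510) (nat_lit 91994880) (PL.cons (nat_lit 43201) (nat_lit 1866326401) (nat_lit 4509) (nat_lit 91951679) (PL.cons (nat_lit 43189) (nat_lit 1865289721) (nat_lit 4508) (nat_lit 91908490) (PL.cons (nat_lit 43177) (nat_lit 1864253329) (nat_lit 4507) (nat_lit 91865313) (PL.cons (nat_lit 43159) (nat_lit 1862699281) (nat_lit 4506) (nat_lit 91822154) (PL.cons (nat_lit 43151) (nat_lit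 1862008801) (nat_lit 4505) (nat_lit 91779003) (PL.cons (nat_lit 43133) (nat_lit 1860455689) (nat_lit 4504) (nat_lit 91735870) (PL.cons (nat_lit 43117) (nat_lit 1859075689) (nat_lit 4503) (nat_lit 91692753) (PL.cons (nat_lit 43103) (nat_lit 1857868609) (nat_lit 4502) (nat_lit 91649650) (PL.cons (nat_lit 43093) (nat_lit 1857006649) (nat_lit 4501) (nat_lit 91606557) (PL.cons (nat_lit 43067) (nat_lit 1854766489) (nat_lit 4500) (nat_lit 91563490) (PL.cons (nat_lit 43063) (nat_lit 1854421969) (nat_lit 4499) (nat_lit 91520427) (PL.cons (nat_lit 43051) (nat_lit 1853388601) (nat_lit 4498) (nat_lit 91477376) (PL.cons (nat_lit 43049) (nat_lit 1853216401) (nat_lit 4497) (nat_lit 91434327) (PL.cons (nat_lit 43037) (nat_lit 1852183369) (nat_lit 4496) (nat_lit 91391290) (PL.cons (nat_lit 43019) (nat_lit 1850634361) (nat_lit 4495) (nat_lit 91348271) (PL.cons (nat_lit 43013) (nat_lit 1850118169) (nat_lit 4494) (nat_lit 91305258) (PL.cons (nat_lit 43003) (nat_lit 1849258009) (nat_lit 4493)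 (nat_lit 91262255) (PL.cons (nat_lit 42989) (nat_lit 1848054121) (nat_lit 4492) (nat_lit 91219266) (PL.cons (nat_lit 42979) (nat_lit 1847194441) (nat_lit 4491) (nat_lit 91176287) (PL.cons (nat_lit 42967) (nat_lit 1846163089) (nat_lit 4490) (nat_lit 91133320) (PL.cons (nat_lit 42961) (nat_lit 1845647521) (nat_lit 4489) (nat_lit 91090359) (PL.cons (nat_lit 42953) (nat_lit 1844960209) (nat_lit 4488) (nat_lit 91047406) (PL.cons (nat_lit 42943) (nat_lit 1844101249) (nat_lit 4487) (nat_lit 91004463) (PL.cons (nat_lit 42937) (nat_lit 1843585969) (nat_lit 4486) (nat_lit 90961526) (PL.cons (nat_lit 42929) (nat_lit 1842899041) (nat_lit 4485) (nat_lit 90918597) (PL.cons (nat_lit 42923) (nat_lit 1842383929) (nat_lit 4484) (nat_lit 90875674) (PL.cons (nat_lit 42901) (nat_lit 1840495801) (nat_lit 4483) (nat_lit 90832773) (PL.cons (nat_lit 42899) (nat_lit 1840324201) (nat_lit 4482) (nat_lit 90789874) (PL.cons (nat_lit 42863) (nat_lit 1837236769) (nat_lit 4481) (nat_lit 90747011) (PL.cons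 (nat_lit 42859) (nat_lit 1836893881) (nat_lit 4480) (nat_lit 90704152) (PL.cons (nat_lit 42853) (nat_lit 1836379609) (nat_lit 4479) (nat_lit 90661299) (PL.cons (nat_lit 42841) (nat_lit 1835351281) (nat_lit 4478) (nat_lit 90618458) (PL.cons (nat_lit 42839) (nat_lit 1835179921) (nat_lit 4477) (nat_lit 90575619) (PL.cons (nat_lit 42829) (nat_lit 1834323241) (nat_lit 4476) (nat_lit 90532790) (PL.cons (nat_lit 42821) (nat_lit 1833638041) (nat_lit 4475) (nat_lit 90489969) (PL.cons (nat_lit 42797) (nat_lit 1831583209) (nat_lit 4474) (nat_lit 90447172) (PL.cons (nat_lit 42793) (nat_lit 1831240849) (nat_lit 4473) (nat_lit 90404379) (PL.cons (nat_lit 42787) (nat_lit 1830727369) (nat_lit 4472) (nat_lit 90361592) (PL.cons (nat_lit 42773) (nat_lit 1829529529) (nat_lit 4471) (nat_lit 90318819) (PL.cons (nat_lit 42767) (nat_lit 1829016289) (nat_lit 4470) (nat_lit 90276052) (PL.cons (nat_lit 42751) (nat_lit 1827648001) (nat_lit 4469) (nat_lit 90233301) (PL.cons (nat_lit 42743) (nat_lit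 1826964049) (nat_lit 4468) (nat_lit 90190558) (PL.cons (nat_lit 42737) (nat_lit 1826451169) (nat_lit 4467) (nat_lit 90147821) (PL.cons (nat_lit 42727) (nat_lit 1825596529) (nat_lit 4466) (nat_lit 90105094) (PL.cons (nat_lit 42719) (nat_lit 1824912961) (nat_lit 4465) (nat_lit 90062375) (PL.cons (nat_lit 42709) (nat_lit 1824058681) (nat_lit 4464) (nat_lit 90019666) (PL.cons (nat_lit 42703) (nat_lit 1823546209) (nat_lit 4463) (nat_lit 89976963) (PL.cons (nat_lit 42701) (nat_lit 1823375401) (nat_lit 4462) (nat_lit 89934262) (PL.cons (nat_lit 42697) (nat_lit 1823033809) (nat_lit 4461) (nat_lit 89891565) (PL.cons (nat_lit 42689) (nat_lit 1822350721) (nat_lit 4460) (nat_lit 89848876) (PL.cons (nat_lit 42683) (nat_lit 1821838489) (nat_lit 4459) (nat_lit 89806193) (PL.cons (nat_lit 42677) (nat_lit 1821326329) (nat_lit 4458) (nat_lit 89763516) (PL.cons (nat_lit 42667) (nat_lit 1820472889) (nat_lit 4457) (nat_lit 89720849) (PL.cons (nat_lit 42649) (nat_lit 1818937201) (nat_lit 4456)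 (nat_lit 89678200) (PL.cons (nat_lit 42643) (nat_lit 1818425449) (nat_lit 4455) (nat_lit 89635557) (PL.cons (nat_lit 42641) (nat_lit 1818254881) (nat_lit 4454) (nat_lit 89592916) (PL.cons (nat_lit 42611) (nat_lit 1815697321) (nat_lit 4453) (nat_lit 89550305) (PL.cons (nat_lit 42589) (nat_lit 1813822921) (nat_lit 4452) (nat_lit 89507716) (PL.cons (nat_lit 42577) (nat_lit 1812800929) (nat_lit 4451) (nat_lit 89465139) (PL.cons (nat_lit 42571) (nat_lit 1812290041) (nat_lit 4450) (nat_lit 89422568) (PL.cons (nat_lit 42569) (nat_lit 1812119761) (nat_lit 4449) (nat_lit 89379999) (PL.cons (nat_lit 42557) (nat_lit 1811098249) (nat_lit 4448) (nat_lit 89337442) (PL.cons (nat_lit 42533) (nat_lit 1809056089) (nat_lit 4447) (nat_lit 89294909) (PL.cons (nat_lit 42509) (nat_lit 1807015081) (nat_lit 4446) (nat_lit 89252400) (PL.cons (nat_lit 42499) (nat_lit 1806165001) (nat_lit 4445) (nat_lit 89209901) (PL.cons (nat_lit 42491) (nat_lit 1805485081) (nat_lit 4444) (nat_lit 89167410) (PL.cons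 (nat_lit 42487) (nat_lit 1805145169) (nat_lit 4443) (nat_lit 89124923) (PL.cons (nat_lit 42473) (nat_lit 1803955729) (nat_lit 4442) (nat_lit 89082450) (PL.cons (nat_lit 42467) (nat_lit 1803446089) (nat_lit 4441) (nat_lit 89039983) (PL.cons (nat_lit 42463) (nat_lit 1803106369) (nat_lit 4440) (nat_lit 88997520) (PL.cons (nat_lit 42461) (nat_lit 1802936521) (nat_lit 4439) (nat_lit 88955059) (PL.cons (nat_lit 42457) (nat_lit 1802596849) (nat_lit 4438) (nat_lit 88912602) (PL.cons (nat_lit 42451) (nat_lit 1802087401) (nat_lit 4437) (nat_lit 88870151) (PL.cons (nat_lit 42443) (nat_lit 1801408249) (nat_lit 4436) (nat_lit 88827708) (PL.cons (nat_lit 42437) (nat_lit 1800898969) (nat_lit 4435) (nat_lit 88785271) (PL.cons (nat_lit 42433) (nat_lit 1800559489) (nat_lit 4434) (nat_lit 88742838) (PL.cons (nat_lit 42409) (nat_lit 1798523281) (nat_lit 4433) (nat_lit 88700429) (PL.cons (nat_lit 42407) (nat_lit 1798353649) (nat_lit 4432) (nat_lit 88658022) (PL.cons (nat_lit 42403) (nat_lit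 1798014409) (nat_lit 4431) (nat_lit 88615619) (PL.cons (nat_lit 42397) (nat_lit 1797505609) (nat_lit 4430) (nat_lit 88573222) (PL.cons (nat_lit 42391) (nat_lit 1796996881) (nat_lit 4429) (nat_lit 88530831) (PL.cons (nat_lit 42379) (nat_lit 1795979641) (nat_lit 4428) (nat_lit 88488452) (PL.cons (nat_lit 42373) (nat_lit 1795471129) (nat_lit 4427) (nat_lit 88446079) (PL.cons (nat_lit 42359) (nat_lit 1794284881) (nat_lit 4426) (nat_lit 88403720) (PL.cons (nat_lit 42349) (nat_lit 1793437801) (nat_lit 4425) (nat_lit 88361371) (PL.cons (nat_lit 42337) (nat_lit 1792421569) (nat_lit 4424) (nat_lit 88319034) (PL.cons (nat_lit 42331) (nat_lit 1791913561) (nat_lit 4423) (nat_lit 88276703) (PL.cons (nat_lit 42323) (nat_lit 1791236329) (nat_lit 4422) (nat_lit 88234380) (PL.cons (nat_lit 42307) (nat_lit 1789882249) (nat_lit 4421) (nat_lit 88192073) (PL.cons (nat_lit 42299) (nat_lit 1789205401) (nat_lit 4420) (nat_lit 88149774) (PL.cons (nat_lit 42293) (nat_lit 1788697849) (nat_lit 4419)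 (nat_lit 88107481) (PL.cons (nat_lit 42283) (nat_lit 1787852089) (nat_lit 4418) (nat_lit 88065198) (PL.cons (nat_lit 42281) (nat_lit 1787682961) (nat_lit 4417) (nat_lit 88022917) (PL.cons (nat_lit 42257) (nat_lit 1785654049) (nat_lit 4416) (nat_lit 87980660) (PL.cons (nat_lit 42239) (nat_lit 1784133121) (nat_lit 4415) (nat_lit 87938421) (PL.cons (nat_lit 42227) (nat_lit 1783119529) (nat_lit 4414) (nat_lit 87896194) (PL.cons (nat_lit 42223) (nat_lit 1782781729) (nat_lit 4413) (nat_lit 87853971) (PL.cons (nat_lit 42221) (nat_lit 1782612841) (nat_lit 4412) (nat_lit 87811750) (PL.cons (nat_lit 42209) (nat_lit 1781599681) (nat_lit 4411) (nat_lit 87769541) (PL.cons (nat_lit 42197) (nat_lit 1780586809) (nat_lit 4410) (nat_lit 87727344) (PL.cons (nat_lit 42193) (nat_lit 1780249249) (nat_lit 4409) (nat_lit 87685151) (PL.cons (nat_lit 42187) (nat_lit 1779742969) (nat_lit 4408) (nat_lit 87642964) (PL.cons (nat_lit 42181) (nat_lit 1779236761) (nat_lit 4407) (nat_lit 87600783) (PL.cons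 (nat_lit 42179) (nat_lit 1779068041) (nat_lit 4406) (nat_lit 87558604) (PL.cons (nat_lit 42169) (nat_lit 1778224561) (nat_lit 4405) (nat_lit 87516435) (PL.cons (nat_lit 42157) (nat_lit 1777212649) (nat_lit 4404) (nat_lit 87474278) (PL.cons (nat_lit 42139) (nat_lit 1775695321) (nat_lit 4403) (nat_lit 87432139) (PL.cons (nat_lit 42131) (nat_lit 1775021161) (nat_lit 4402) (nat_lit 87390008) (PL.cons (nat_lit 42101) (nat_lit 1772494201) (nat_lit 4401) (nat_lit 87347907) (PL.cons (nat_lit 42089) (nat_lit 1771483921) (nat_lit 4400) (nat_lit 87305818) (PL.cons (nat_lit 42083) (nat_lit 1770978889) (nat_lit 4399) (nat_lit 87263735) (PL.cons (nat_lit 42073) (nat_lit 1770137329) (nat_lit 4398) (nat_lit 87221662) (PL.cons (nat_lit 42071) (nat_lit 1769969041) (nat_lit 4397) (nat_lit 87179591) (PL.cons (nat_lit 42061) (nat_lit 1769127721) (nat_lit 4396) (nat_lit 87137530) (PL.cons (nat_lit 42043) (nat_lit 1767613849) (nat_lit 4395) (nat_lit 87095487) (PL.cons (nat_lit 42023) (nat_lit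 1765932529) (nat_lit 4394) (nat_lit 87053464) (PL.cons (nat_lit 42019) (nat_lit 1765596361) (nat_lit 4393) (nat_lit 87011445) (PL.cons (nat_lit 42017) (nat_lit 1765428289) (nat_lit 4392) (nat_lit 86969428) (PL.cons (nat_lit 42013) (nat_lit 1765092169) (nat_lit 4391) (nat_lit 86927415) (PL.cons (nat_lit 41999) (nat_lit 1763916001) (nat_lit 4390) (nat_lit 86885416) (PL.cons (nat_lit 41983) (nat_lit 1762572289) (nat_lit 4389) (nat_lit 86843433) (PL.cons (nat_lit 41981) (nat_lit 1762404361) (nat_lit 4388) (nat_lit 86801452) (PL.cons (nat_lit 41969) (nat_lit 1761396961) (nat_lit 4387) (nat_lit 86759483) (PL.cons (nat_lit 41959) (nat_lit 1760557681) (nat_lit 4386) (nat_lit 86717524) (PL.cons (nat_lit 41957) (nat_lit 1760389849) (nat_lit 4385) (nat_lit 86675567) (PL.cons (nat_lit 41953) (nat_lit 1760054209) (nat_lit 4384) (nat_lit 86633614) (PL.cons (nat_lit 41947) (nat_lit 1759550809) (nat_lit 4383) (nat_lit 86591667) (PL.cons (nat_lit 41941) (nat_lit 1759047481) (nat_lit 4382)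 (nat_lit 86549726) (PL.cons (nat_lit 41927) (nat_lit 1757873329) (nat_lit 4381) (nat_lit 86507799) (PL.cons (nat_lit 41911) (nat_lit 1756531921) (nat_lit 4380) (nat_lit 86465888) (PL.cons (nat_lit 41903) (nat_lit 1755861409) (nat_lit 4379) (nat_lit 86423985) (PL.cons (nat_lit 41897) (nat_lit 1755358609) (nat_lit 4378) (nat_lit 86382088) (PL.cons (nat_lit 41893) (nat_lit 1755023449) (nat_lit 4377) (nat_lit 86340195) (PL.cons (nat_lit 41887) (nat_lit 1754520769) (nat_lit 4376) (nat_lit 86298308) (PL.cons (nat_lit 41879) (nat_lit 1753850641) (nat_lit 4375) (nat_lit 86256429) (PL.cons (nat_lit 41863) (nat_lit 1752510769) (nat_lit 4374) (nat_lit 86214566) (PL.cons (nat_lit 41851) (nat_lit 1751506201) (nat_lit 4373) (nat_lit 86172715) (PL.cons (nat_lit 41849) (nat_lit 1751338801) (nat_lit 4372) (nat_lit 86130866) (PL.cons (nat_lit 41843) (nat_lit 1750836649) (nat_lit 4371) (nat_lit 86089023) (PL.cons (nat_lit 41813) (nat_lit 1748326969) (nat_lit 4370) (nat_lit 86047210) (PL.cons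 (nat_lit 41809) (nat_lit 1747992481) (nat_lit 4369) (nat_lit 86005401) (PL.cons (nat_lit 41801) (nat_lit 1747323601) (nat_lit 4368) (nat_lit 85963600) (PL.cons (nat_lit 41777) (nat_lit 1745317729) (nat_lit 4367) (nat_lit 85921823) (PL.cons (nat_lit 41771) (nat_lit 1744816441) (nat_lit 4366) (nat_lit 85880052) (PL.cons (nat_lit 41761) (nat_lit 1743981121) (nat_lit 4365) (nat_lit 85838291) (PL.cons (nat_lit 41759) (nat_lit 1743814081) (nat_lit 4364) (nat_lit 85796532) (PL.cons (nat_lit 41737) (nat_lit 1741977169) (nat_lit 4363) (nat_lit 85754795) (PL.cons (nat_lit 41729) (nat_lit 1741309441) (nat_lit 4362) (nat_lit 85713066) (PL.cons (nat_lit 41719) (nat_lit 1740474961) (nat_lit 4361) (nat_lit 85671347) (PL.cons (nat_lit 41687) (nat_lit 1737805969) (nat_lit 4360) (nat_lit 85629660) (PL.cons (nat_lit 41681) (nat_lit 1737305761) (nat_lit 4359) (nat_lit 85587979) (PL.cons (nat_lit 41669) (nat_lit 1736305561) (nat_lit 4358) (nat_lit 85546310) (PL.cons (nat_lit 41659) (nat_lit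 1735472281) (nat_lit 4357) (nat_lit 85504651) (PL.cons (nat_lit 41651) (nat_lit 1734805801) (nat_lit 4356) (nat_lit 85463000) (PL.cons (nat_lit 41647) (nat_lit 1734472609) (nat_lit 4355) (nat_lit 85421353) (PL.cons (nat_lit 41641) (nat_lit 1733972881) (nat_lit 4354) (nat_lit 85379712) (PL.cons (nat_lit 41627) (nat_lit 1732807129) (nat_lit 4353) (nat_lit 85338085) (PL.cons (nat_lit 41621) (nat_lit 1732307641) (nat_lit 4352) (nat_lit 85296464) (PL.cons (nat_lit 41617) (nat_lit 1731974689) (nat_lit 4351) (nat_lit 85254847) (PL.cons (nat_lit 41611) (nat_lit 1731475321) (nat_lit 4350) (nat_lit 85213236) (PL.cons (nat_lit 41609) (nat_lit 1731308881) (nat_lit 4349) (nat_lit 85171627) (PL.cons (nat_lit 41603) (nat_lit 1730809609) (nat_lit 4348) (nat_lit 85130024) (PL.cons (nat_lit 41597) (nat_lit 1730310409) (nat_lit 4347) (nat_lit 85088427) (PL.cons (nat_lit 41593) (nat_lit 1729977649) (nat_lit 4346) (nat_lit 85046834) (PL.cons (nat_lit 41579) (nat_lit 1728813241) (nat_lit 4345)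 (nat_lit 85005255) (PL.cons (nat_lit 41549) (nat_lit 1726319401) (nat_lit 4344) (nat_lit 84963706) (PL.cons (nat_lit 41543) (nat_lit 1725820849) (nat_lit 4343) (nat_lit 84922163) (PL.cons (nat_lit 41539) (nat_lit 1725488521) (nat_lit 4342) (nat_lit 84880624) (PL.cons (nat_lit 41521) (nat_lit 1723993441) (nat_lit 4341) (nat_lit 84839103) (PL.cons (nat_lit 41519) (nat_lit 1723827361) (nat_lit 4340) (nat_lit 84797584) (PL.cons (nat_lit 41513) (nat_lit 1723329169) (nat_lit 4339) (nat_lit 84756071) (PL.cons (nat_lit 41507) (nat_lit 1722831049) (nat_lit 4338) (nat_lit 84714564) (PL.cons (nat_lit 41491) (nat_lit 1721503081) (nat_lit 4337) (nat_lit 84673073) (PL.cons (nat_lit 41479) (nat_lit 1720507441) (nat_lit 4336) (nat_lit 84631594) (PL.cons (nat_lit 41467) (nat_lit 1719512089) (nat_lit 4335) (nat_lit 84590127) (PL.cons (nat_lit 41453) (nat_lit 1718351209) (nat_lit 4334) (nat_lit 84548674) (PL.cons (nat_lit 41443) (nat_lit 1717522249) (nat_lit 4333) (nat_lit 84507231) (PL.cons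 (nat_lit 41413) (nat_lit 1715036569) (nat_lit 4332) (nat_lit 84465818) (PL.cons (nat_lit 41411) (nat_lit 1714870921) (nat_lit 4331) (nat_lit 84424407) (PL.cons (nat_lit 41399) (nat_lit 1713877201) (nat_lit 4330) (nat_lit 84383008) (PL.cons (nat_lit 41389) (nat_lit 1713049321) (nat_lit 4329) (nat_lit 84341619) (PL.cons (nat_lit 41387) (nat_lit 1712883769) (nat_lit 4328) (nat_lit 84300232) (PL.cons (nat_lit 41381) (nat_lit 1712387161) (nat_lit 4327) (nat_lit 84258851) (PL.cons (nat_lit 41357) (nat_lit 1710401449) (nat_lit 4326) (nat_lit 84217494) (PL.cons (nat_lit 41351) (nat_lit 1709905201) (nat_lit 4325) (nat_lit 84176143) (PL.cons (nat_lit 41341) (nat_lit 1709078281) (nat_lit 4324) (nat_lit 84134802) (PL.cons (nat_lit 41333) (nat_lit 1708416889) (nat_lit 4323) (nat_lit 84093469) (PL.cons (nat_lit 41299) (nat_lit 1705607401) (nat_lit 4322) (nat_lit 84052170) (PL.cons (nat_lit 41281) (nat_lit 1704120961) (nat_lit 4321) (nat_lit 84010889) (PL.cons (nat_lit 41269) (nat_lit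 1703130361) (nat_lit 4320) (nat_lit 83969620) (PL.cons (nat_lit 41263) (nat_lit 1702635169) (nat_lit 4319) (nat_lit 83928357) (PL.cons (nat_lit 41257) (nat_lit 1702140049) (nat_lit 4318) (nat_lit 83887100) (PL.cons (nat_lit 41243) (nat_lit 1700985049) (nat_lit 4317) (nat_lit 83845857) (PL.cons (nat_lit 41233) (nat_lit 1700160289) (nat_lit 4316) (nat_lit 83804624) (PL.cons (nat_lit 41231) (nat_lit 1699995361) (nat_lit 4315) (nat_lit 83763393) (PL.cons (nat_lit 41227) (nat_lit 1699665529) (nat_lit 4314) (nat_lit 83722166) (PL.cons (nat_lit 41221) (nat_lit 1699170841) (nat_lit 4313) (nat_lit 83680945) (PL.cons (nat_lit 41213) (nat_lit 1698511369) (nat_lit 4312) (nat_lit 83639732) (PL.cons (nat_lit 41203) (nat_lit 1697687209) (nat_lit 4311) (nat_lit 83598529) (PL.cons (nat_lit 41201) (nat_lit 1697522401) (nat_lit 4310) (nat_lit 83557328) (PL.cons (nat_lit 41189) (nat_lit 1696533721) (nat_lit 4309) (nat_lit 83516139) (PL.cons (nat_lit 41183) (nat_lit 1696039489) (nat_lit 4308)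 (nat_lit 83474956) (PL.cons (nat_lit 41179) (nat_lit 1695710041) (nat_lit 4307) (nat_lit 83433777) (PL.cons (nat_lit 41177) (nat_lit 1695545329) (nat_lit 4306) (nat_lit 83392600) (PL.cons (nat_lit 41161) (nat_lit 1694227921) (nat_lit 4305) (nat_lit 83351439) (PL.cons (nat_lit 41149) (nat_lit 1693240201) (nat_lit 4304) (nat_lit 83310290) (PL.cons (nat_lit 41143) (nat_lit 1692746449) (nat_lit 4303) (nat_lit 83269147) (PL.cons (nat_lit 41141) (nat_lit 1692581881) (nat_lit 4302) (nat_lit 83228006) (PL.cons (nat_lit 41131) (nat_lit 1691759161) (nat_lit 4301) (nat_lit 83186875) (PL.cons (nat_lit 41117) (nat_lit 1690607689) (nat_lit 4300) (nat_lit 83145758) (PL.cons (nat_lit 41113) (nat_lit 1690278769) (nat_lit 4299) (nat_lit 83104645) (PL.cons (nat_lit 41081) (nat_lit 1687648561) (nat_lit 4298) (nat_lit 83063564) (PL.cons (nat_lit 41077) (nat_lit 1687319929) (nat_lit 4297) (nat_lit 83022487) (PL.cons (nat_lit 41057) (nat_lit 1685677249) (nat_lit 4296) (nat_lit 82981430) (PL.cons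 (nat_lit 41051) (nat_lit 1685184601) (nat_lit 4295) (nat_lit 82940379) (PL.cons (nat_lit 41047) (nat_lit 1684856209) (nat_lit 4294) (nat_lit 82899332) (PL.cons (nat_lit 41039) (nat_lit 1684199521) (nat_lit 4293) (nat_lit 82858293) (PL.cons (nat_lit 41023) (nat_lit 1682886529) (nat_lit 4292) (nat_lit 82817270) (PL.cons (nat_lit 41017) (nat_lit 1682394289) (nat_lit 4291) (nat_lit 82776253) (PL.cons (nat_lit 41011) (nat_lit 1681902121) (nat_lit 4290) (nat_lit 82735242) (PL.cons (nat_lit 40993) (nat_lit 1680426049) (nat_lit 4289) (nat_lit 82694249) (PL.cons (nat_lit 40973) (nat_lit 1678786729) (nat_lit 4288) (nat_lit 82653276) (PL.cons (nat_lit 40961) (nat_lit 1677803521) (nat_lit 4287) (nat_lit 82612315) (PL.cons (nat_lit 40949) (nat_lit 1676820601) (nat_lit 4286) (nat_lit 82571366) (PL.cons (nat_lit 40939) (nat_lit 1676001721) (nat_lit 4285) (nat_lit 82530427) (PL.cons (nat_lit 40933) (nat_lit 1675510489) (nat_lit 4284) (nat_lit 82489494) (PL.cons (nat_lit 40927) (nat_lit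 1675019329) (nat_lit 4283) (nat_lit 82448567) (PL.cons (nat_lit 40903) (nat_lit 1673055409) (nat_lit 4282) (nat_lit 82407664) (PL.cons (nat_lit 40897) (nat_lit 1672564609) (nat_lit 4281) (nat_lit 82366767) (PL.cons (nat_lit 40883) (nat_lit 1671419689) (nat_lit 4280) (nat_lit 82325884) (PL.cons (nat_lit 40879) (nat_lit 1671092641) (nat_lit 4279) (nat_lit 82285005) (PL.cons (nat_lit 40867) (nat_lit 1670111689) (nat_lit 4278) (nat_lit 82244138) (PL.cons (nat_lit 40853) (nat_lit 1668967609) (nat_lit 4277) (nat_lit 82203285) (PL.cons (nat_lit 40849) (nat_lit 1668640801) (nat_lit 4276) (nat_lit 82162436) (PL.cons (nat_lit 40847) (nat_lit 1668477409) (nat_lit 4275) (nat_lit 82121589) (PL.cons (nat_lit 40841) (nat_lit 1667987281) (nat_lit 4274) (nat_lit 82080748) (PL.cons (nat_lit 40829) (nat_lit 1667007241) (nat_lit 4273) (nat_lit 82039919) (PL.cons (nat_lit 40823) (nat_lit 1666517329) (nat_lit 4272) (nat_lit 81999096) (PL.cons (nat_lit 40819) (nat_lit 1666190761) (nat_lit 4271)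 (nat_lit 81958277) (PL.cons (nat_lit 40813) (nat_lit 1665700969) (nat_lit 4270) (nat_lit 81917464) (PL.cons (nat_lit 40801) (nat_lit 1664721601) (nat_lit 4269) (nat_lit 81876663) (PL.cons (nat_lit 40787) (nat_lit 1663579369) (nat_lit 4268) (nat_lit 81835876) (PL.cons (nat_lit 40771) (nat_lit 1662274441) (nat_lit 4267) (nat_lit 81795105) (PL.cons (nat_lit 40763) (nat_lit 1661622169) (nat_lit 4266) (nat_lit 81754342) (PL.cons (nat_lit 40759) (nat_lit 1661296081) (nat_lit 4265) (nat_lit 81713583) (PL.cons (nat_lit 40751) (nat_lit 1660644001) (nat_lit 4264) (nat_lit 81672832) (PL.cons (nat_lit 40739) (nat_lit 1659666121) (nat_lit 4263) (nat_lit 81632093) (PL.cons (nat_lit 40709) (nat_lit 1657222681) (nat_lit 4262) (nat_lit 81591384) (PL.cons (nat_lit 40699) (nat_lit 1656408601) (nat_lit 4261) (nat_lit 81550685) (PL.cons (nat_lit 40697) (nat_lit 1656245809) (nat_lit 4260) (nat_lit 81509988) (PL.cons (nat_lit 40693) (nat_lit 1655920249) (nat_lit 4259) (nat_lit 81469295) (PL.cons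 (nat_lit 40639) (nat_lit 1651528321) (nat_lit 4258) (nat_lit 81428656) (PL.cons (nat_lit 40637) (nat_lit 1651365769) (nat_lit 4257) (nat_lit 81388019) (PL.cons (nat_lit 40627) (nat_lit 1650553129) (nat_lit 4256) (nat_lit 81347392) (PL.cons (nat_lit 40609) (nat_lit 1649090881) (nat_lit 4255) (nat_lit 81306783) (PL.cons (nat_lit 40597) (nat_lit 1648116409) (nat_lit 4254) (nat_lit 81266186) (PL.cons (nat_lit 40591) (nat_lit 1647629281) (nat_lit 4253) (nat_lit 81225595) (PL.cons (nat_lit 40583) (nat_lit 1646979889) (nat_lit 4252) (nat_lit 81185012) (PL.cons (nat_lit 40577) (nat_lit 1646492929) (nat_lit 4251) (nat_lit 81144435) (PL.cons (nat_lit 40559) (nat_lit 1645032481) (nat_lit 4250) (nat_lit 81103876) (PL.cons (nat_lit 40543) (nat_lit 1643734849) (nat_lit 4249) (nat_lit 81063333) (PL.cons (nat_lit 40531) (nat_lit 1642761961) (nat_lit 4248) (nat_lit 81022802) (PL.cons (nat_lit 40529) (nat_lit 1642599841) (nat_lit 4247) (nat_lit 80982273) (PL.cons (nat_lit 40519) (nat_lit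 1641789361) (nat_lit 4246) (nat_lit 80941754) (PL.cons (nat_lit 40507) (nat_lit 1640817049) (nat_lit 4245) (nat_lit 80901247) (PL.cons (nat_lit 40499) (nat_lit 1640169001) (nat_lit 4244) (nat_lit 80860748) (PL.cons (nat_lit 40493) (nat_lit 1639683049) (nat_lit 4243) (nat_lit 80820255) (PL.cons (nat_lit 40487) (nat_lit 1639197169) (nat_lit 4242) (nat_lit 80779768) (PL.cons (nat_lit 40483) (nat_lit 1638873289) (nat_lit 4241) (nat_lit 80739285) (PL.cons (nat_lit 40471) (nat_lit 1637901841) (nat_lit 4240) (nat_lit 80698814) (PL.cons (nat_lit 40459) (nat_lit 1636930681) (nat_lit 4239) (nat_lit 80658355) (PL.cons (nat_lit 40433) (nat_lit 1634827489) (nat_lit 4238) (nat_lit 80617922) (PL.cons (nat_lit 40429) (nat_lit 1634504041) (nat_lit 4237) (nat_lit 80577493) (PL.cons (nat_lit 40427) (nat_lit 1634342329) (nat_lit 4236) (nat_lit 80537066) (PL.cons (nat_lit 40423) (nat_lit 1634018929) (nat_lit 4235) (nat_lit 80496643) (PL.cons (nat_lit 40387) (nat_lit 1631109769) (nat_lit 4234)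 (nat_lit 80456256) (PL.cons (nat_lit 40361) (nat_lit 1629010321) (nat_lit 4233) (nat_lit 80415895) (PL.cons (nat_lit 40357) (nat_lit 1628687449) (nat_lit 4232) (nat_lit 80375538) (PL.cons (nat_lit 40351) (nat_lit 1628203201) (nat_lit 4231) (nat_lit 80335187) (PL.cons (nat_lit 40343) (nat_lit 1627557649) (nat_lit 4230) (nat_lit 80294844) (PL.cons (nat_lit 40289) (nat_lit 1623203521) (nat_lit 4229) (nat_lit 80254555) (PL.cons (nat_lit 40283) (nat_lit 1622720089) (nat_lit 4228) (nat_lit 80214272) (PL.cons (nat_lit 40277) (nat_lit 1622236729) (nat_lit 4227) (nat_lit 80173995) (PL.cons (nat_lit 40253) (nat_lit 1620304009) (nat_lit 4226) (nat_lit 80133742) (PL.cons (nat_lit 40241) (nat_lit 1619338081) (nat_lit 4225) (nat_lit 80093501) (PL.cons (nat_lit 40237) (nat_lit 1619016169) (nat_lit 4224) (nat_lit 80053264) (PL.cons (nat_lit 40231) (nat_lit 1618533361) (nat_lit 4223) (nat_lit 80013033) (PL.cons (nat_lit 40213) (nat_lit 1617085369) (nat_lit 4222) (nat_lit 79972820) (PL.cons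 (nat_lit 40193) (nat_lit 1615477249) (nat_lit 4221) (nat_lit 79932627) (PL.cons (nat_lit 40189) (nat_lit 1615155721) (nat_lit 4220) (nat_lit 79892438) (PL.cons (nat_lit 40177) (nat_lit 1614191329) (nat_lit 4219) (nat_lit 79852261) (PL.cons (nat_lit 40169) (nat_lit 1613548561) (nat_lit 4218) (nat_lit 79812092) (PL.cons (nat_lit 40163) (nat_lit 1613066569) (nat_lit 4217) (nat_lit 79771929) (PL.cons (nat_lit 40153) (nat_lit 1612263409) (nat_lit 4216) (nat_lit 79731776) (PL.cons (nat_lit 40151) (nat_lit 1612102801) (nat_lit 4215) (nat_lit 79691625) (PL.cons (nat_lit 40129) (nat_lit 1610336641) (nat_lit 4214) (nat_lit 79651496) (PL.cons (nat_lit 40127) (nat_lit 1610176129) (nat_lit 4213) (nat_lit 79611369) (PL.cons (nat_lit 40123) (nat_lit 1609855129) (nat_lit 4212) (nat_lit 79571246) (PL.cons (nat_lit 40111) (nat_lit 1608892321) (nat_lit 4211) (nat_lit 79531135) (PL.cons (nat_lit 40099) (nat_lit 1607929801) (nat_lit 4210) (nat_lit 79491036) (PL.cons (nat_lit 40093) (nat_lit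 1607448649) (nat_lit 4209) (nat_lit 79450943) (PL.cons (nat_lit 40087) (nat_lit 1606967569) (nat_lit 4208) (nat_lit 79410856) (PL.cons (nat_lit 40063) (nat_lit 1605043969) (nat_lit 4207) (nat_lit 79370793) (PL.cons (nat_lit 40039) (nat_lit 1603121521) (nat_lit 4206) (nat_lit 79330754) (PL.cons (nat_lit 40037) (nat_lit 1602961369) (nat_lit 4205) (nat_lit 79290717) (PL.cons (nat_lit 40031) (nat_lit 1602480961) (nat_lit 4204) (nat_lit 79250686) (PL.cons (nat_lit 40013) (nat_lit 1601040169) (nat_lit 4203) (nat_lit 79210673) (PL.cons (nat_lit 40009) (nat_lit 1600720081) (nat_lit 4202) (nat_lit 79170664) (PL.cons (nat_lit 39989) (nat_lit 1599120121) (nat_lit 4201) (nat_lit 79130675) (PL.cons (nat_lit 39983) (nat_lit 1598640289) (nat_lit 4200) (nat_lit 79090692) (PL.cons (nat_lit 39979) (nat_lit 1598320441) (nat_lit 4199) (nat_lit 79050713) (PL.cons (nat_lit 39971) (nat_lit 1597680841) (nat_lit 4198) (nat_lit 79010742) (PL.cons (nat_lit 39953) (nat_lit 1596242209) (nat_lit 4197)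 (nat_lit 78970789) (PL.cons (nat_lit 39937) (nat_lit 1594963969) (nat_lit 4196) (nat_lit 78930852) (PL.cons (nat_lit 39929) (nat_lit 1594325041) (nat_lit 4195) (nat_lit 78890923) (PL.cons (nat_lit 39901) (nat_lit 1592089801) (nat_lit 4194) (nat_lit 78851022) (PL.cons (nat_lit 39887) (nat_lit 1590972769) (nat_lit 4193) (nat_lit 78811135) (PL.cons (nat_lit 39883) (nat_lit 1590653689) (nat_lit 4192) (nat_lit 78771252) (PL.cons (nat_lit 39877) (nat_lit 1590175129) (nat_lit 4191) (nat_lit 78731375) (PL.cons (nat_lit 39869) (nat_lit 1589537161) (nat_lit 4190) (nat_lit 78691506) (PL.cons (nat_lit 39863) (nat_lit 1589058769) (nat_lit 4189) (nat_lit 78651643) (PL.cons (nat_lit 39857) (nat_lit 1588580449) (nat_lit 4188) (nat_lit 78611786) (PL.cons (nat_lit 39847) (nat_lit 1587783409) (nat_lit 4187) (nat_lit 78571939) (PL.cons (nat_lit 39841) (nat_lit 1587305281) (nat_lit 4186) (nat_lit 78532098) (PL.cons (nat_lit 39839) (nat_lit 1587145921) (nat_lit 4185) (nat_lit 78492259) (PL.cons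 (nat_lit 39829) (nat_lit 1586349241) (nat_lit 4184) (nat_lit 78452430) (PL.cons (nat_lit 39827) (nat_lit 1586189929) (nat_lit 4183) (nat_lit 78412603) (PL.cons (nat_lit 39821) (nat_lit 1585712041) (nat_lit 4182) (nat_lit 78372782) (PL.cons (nat_lit 39799) (nat_lit 1583960401) (nat_lit 4181) (nat_lit 78332983) (PL.cons (nat_lit 39791) (nat_lit 1583323681) (nat_lit 4180) (nat_lit 78293192) (PL.cons (nat_lit 39779) (nat_lit 1582368841) (nat_lit 4179) (nat_lit 78253413) (PL.cons (nat_lit 39769) (nat_lit 1581573361) (nat_lit 4178) (nat_lit 78213644) (PL.cons (nat_lit 39761) (nat_lit 1580937121) (nat_lit 4177) (nat_lit 78173883) (PL.cons (nat_lit 39749) (nat_lit 1579983001) (nat_lit 4176) (nat_lit 78134134) (PL.cons (nat_lit 39733) (nat_lit 1578711289) (nat_lit 4175) (nat_lit 78094401) (PL.cons (nat_lit 39727) (nat_lit 1578234529) (nat_lit 4174) (nat_lit 78054674) (PL.cons (nat_lit 39719) (nat_lit 1577598961) (nat_lit 4173) (nat_lit 78014955) (PL.cons (nat_lit 39709) (nat_lit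 1576804681) (nat_lit 4172) (nat_lit 77975246) (PL.cons (nat_lit 39703) (nat_lit 1576328209) (nat_lit 4171) (nat_lit 77935543) (PL.cons (nat_lit 39679) (nat_lit 1574423041) (nat_lit 4170) (nat_lit 77895864) (PL.cons (nat_lit 39671) (nat_lit 1573788241) (nat_lit 4169) (nat_lit 77856193) (PL.cons (nat_lit 39667) (nat_lit 1573470889) (nat_lit 4168) (nat_lit 77816526) (PL.cons (nat_lit 39659) (nat_lit 1572836281) (nat_lit 4167) (nat_lit 77776867) (PL.cons (nat_lit 39631) (nat_lit 1570616161) (nat_lit 4166) (nat_lit 77737236) (PL.cons (nat_lit 39623) (nat_lit 1569982129) (nat_lit 4165) (nat_lit 77697613) (PL.cons (nat_lit 39619) (nat_lit 1569665161) (nat_lit 4164) (nat_lit 77657994) (PL.cons (nat_lit 39607) (nat_lit 1568714449) (nat_lit 4163) (nat_lit 77618387) (PL.cons (nat_lit 39581) (nat_lit 1566655561) (nat_lit 4162) (nat_lit 77578806) (PL.cons (nat_lit 39569) (nat_lit 1565705761) (nat_lit 4161) (nat_lit 77539237) (PL.cons (nat_lit 39563) (nat_lit 1565230969) (nat_lit 4160)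 (nat_lit 77499674) (PL.cons (nat_lit 39551) (nat_lit 1564281601) (nat_lit 4159) (nat_lit 77460123) (PL.cons (nat_lit 39541) (nat_lit 1563490681) (nat_lit 4158) (nat_lit 77420582) (PL.cons (nat_lit 39521) (nat_lit 1561909441) (nat_lit 4157) (nat_lit 77381061) (PL.cons (nat_lit 39511) (nat_lit 1561119121) (nat_lit 4156) (nat_lit 77341550) (PL.cons (nat_lit 39509) (nat_lit 1560961081) (nat_lit 4155) (nat_lit 77302041) (PL.cons (nat_lit 39503) (nat_lit 1560487009) (nat_lit 4154) (nat_lit 77262538) (PL.cons (nat_lit 39499) (nat_lit 1560171001) (nat_lit 4153) (nat_lit 77223039) (PL.cons (nat_lit 39461) (nat_lit 1557170521) (nat_lit 4152) (nat_lit 77183578) (PL.cons (nat_lit 39451) (nat_lit 1556381401) (nat_lit 4151) (nat_lit 77144127) (PL.cons (nat_lit 39443) (nat_lit 1555750249) (nat_lit 4150) (nat_lit 77104684) (PL.cons (nat_lit 39439) (nat_lit 1555434721) (nat_lit 4149) (nat_lit 77065245) (PL.cons (nat_lit 39419) (nat_lit 1553857561) (nat_lit 4148) (nat_lit 77025826) (PL.cons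 (nat_lit 39409) (nat_lit 1553069281) (nat_lit 4147) (nat_lit 76986417) (PL.cons (nat_lit 39397) (nat_lit 1552123609) (nat_lit 4146) (nat_lit 76947020) (PL.cons (nat_lit 39383) (nat_lit 1551020689) (nat_lit 4145) (nat_lit 76907637) (PL.cons (nat_lit 39373) (nat_lit 1550233129) (nat_lit 4144) (nat_lit 76868264) (PL.cons (nat_lit 39371) (nat_lit 1550075641) (nat_lit 4143) (nat_lit 76828893) (PL.cons (nat_lit 39367) (nat_lit 1549760689) (nat_lit 4142) (nat_lit 76789526) L19))))))))))))))))))))))))))))))))))))))))))))))))))))))))))))))))))))))))))))))))))))))))))))))))))))))))))))))))))))))))))))))))))))))))))))))))))))))))))))))))))))))))))))))))))))))))))))))))))))))))))))))))))))))))))))))))))))))))))))))))))))))))))))))))))))))))))))))))))))))))))))))))))))))))))))))))))))))))))))))))))))))))))))))))))))))))))))))))))))))))))))))))))))))))))))))))))))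

def L21 : PL := (PL.cons (nat_lit 47681) (nat_lit 2273477761) (nat_lit 4913) (nat_lit 110314941) (PL.cons (nat_lit 47659) (nat_lit 2271380281) (nat_lit 4912) (nat_lit 110267282) (PL.cons (nat_lit 47657) (nat_lit 2271189649) (nat_lit 4911) (nat_lit 110219625) (PL.cons (nat_lit 47653) (nat_lit 2270808409) (nat_lit 4910) (nat_lit 110171972) (PL.cons (nat_lit 47639) (nat_lit 2269474321) (nat_lit 4909) (nat_lit 110124333) (PL.cons (nat_lit 47629) (nat_lit 2268521641) (nat_lit 4908) (nat_lit 110076704) (PL.cons (nat_lit 47623) (nat_lit 2267950129) (nat_lit 4907) (nat_lit 110029081) (PL.cons (nat_lit 47609) (nat_lit 2266616881) (nat_lit 4906) (nat_lit 109981472) (PL.cons (nat_lit 47599) (nat_lit 2265664801) (nat_lit 4905) (nat_lit 109933873) (PL.cons (nat_lit 47591) (nat_lit 2264903281) (nat_lit 4904) (nat_lit 109886282) (PL.cons (nat_lit 47581) (nat_lit 2263951561) (nat_lit 4903) (nat_lit 109838701) (PL.cons (nat_lit 47569) (nat_lit 2262809761) (nat_lit 4902) (nat_lit 109791132)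 (PL.cons (nat_lit 47563) (nat_lit 2262238969) (nat_lit 4901) (nat_lit 109743569) (PL.cons (nat_lit 47543) (nat_lit 2260336849) (nat_lit 4900) (nat_lit 109696026) (PL.cons (nat_lit 47533) (nat_lit 2259386089) (nat_lit 4899) (nat_lit 109648493) (PL.cons (nat_lit 47527) (nat_lit 2258815729) (nat_lit 4898) (nat_lit 109600966) (PL.cons (nat_lit 47521) (nat_lit 2258245441) (nat_lit 4897) (nat_lit 109553445) (PL.cons (nat_lit 47513) (nat_lit 2257485169) (nat_lit 4896) (nat_lit 109505932) (PL.cons (nat_lit 47507) (nat_lit 2256915049) (nat_lit 4895) (nat_lit 109458425) (PL.cons (nat_lit 47501) (nat_lit 2256345001) (nat_lit 4894) (nat_lit 109410924) (PL.cons (nat_lit 47497) (nat_lit 2255965009) (nat_lit 4893) (nat_lit 109363427) (PL.cons (nat_lit 47491) (nat_lit 2255395081) (nat_lit 4892) (nat_lit 109315936) (PL.cons (nat_lit 47459) (nat_lit 2252356681) (nat_lit 4891) (nat_lit 109268477) (PL.cons (nat_lit 47441) (nat_lit 2250648481) (nat_lit 4890) (nat_lit 109221036) (PL.cons (nat_lit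 47431) (nat_lit 2249699761) (nat_lit 4889) (nat_lit 109173605) (PL.cons (nat_lit 47419) (nat_lit 2248561561) (nat_lit 4888) (nat_lit 109126186) (PL.cons (nat_lit 47417) (nat_lit 2248371889) (nat_lit 4887) (nat_lit 109078769) (PL.cons (nat_lit 47407) (nat_lit 2247423649) (nat_lit 4886) (nat_lit 109031362) (PL.cons (nat_lit 47389) (nat_lit 2245717321) (nat_lit 4885) (nat_lit 108983973) (PL.cons (nat_lit 47387) (nat_lit 2245527769) (nat_lit 4884) (nat_lit 108936586) (PL.cons (nat_lit 47381) (nat_lit 2244959161) (nat_lit 4883) (nat_lit 108889205) (PL.cons (nat_lit 47363) (nat_lit 2243253769) (nat_lit 4882) (nat_lit 108841842) (PL.cons (nat_lit 47353) (nat_lit 2242306609) (nat_lit 4881) (nat_lit 108794489) (PL.cons (nat_lit 47351) (nat_lit 2242117201) (nat_lit 4880) (nat_lit 108747138) (PL.cons (nat_lit 47339) (nat_lit 2240980921) (nat_lit 4879) (nat_lit 108699799) (PL.cons (nat_lit 47317) (nat_lit 2238898489) (nat_lit 4878) (nat_lit 108652482) (PL.cons (nat_lit 47309) (nat_lit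 2238141481) (nat_lit 4877) (nat_lit 108605173) (PL.cons (nat_lit 47303) (nat_lit 2237573809) (nat_lit 4876) (nat_lit 108557870) (PL.cons (nat_lit 47297) (nat_lit 2237006209) (nat_lit 4875) (nat_lit 108510573) (PL.cons (nat_lit 47293) (nat_lit 2236627849) (nat_lit 4874) (nat_lit 108463280) (PL.cons (nat_lit 47287) (nat_lit 2236060369) (nat_lit 4873) (nat_lit 108415993) (PL.cons (nat_lit 47279) (nat_lit 2235303841) (nat_lit 4872) (nat_lit 108368714) (PL.cons (nat_lit 47269) (nat_lit 2234358361) (nat_lit 4871) (nat_lit 108321445) (PL.cons (nat_lit 47251) (nat_lit 2232657001) (nat_lit 4870) (nat_lit 108274194) (PL.cons (nat_lit 47237) (nat_lit 2231334169) (nat_lit 4869) (nat_lit 108226957) (PL.cons (nat_lit 47221) (nat_lit 2229822841) (nat_lit 4868) (nat_lit 108179736) (PL.cons (nat_lit 47207) (nat_lit 2228500849) (nat_lit 4867) (nat_lit 108132529) (PL.cons (nat_lit 47189) (nat_lit 2226801721) (nat_lit 4866) (nat_lit 108085340) (PL.cons (nat_lit 47161) (nat_lit 2224159921)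 (nat_lit 4865) (nat_lit 108038179) (PL.cons (nat_lit 47149) (nat_lit 2223028201) (nat_lit 4864) (nat_lit 107991030) (PL.cons (nat_lit 47147) (nat_lit 2222839609) (nat_lit 4863) (nat_lit 107943883) (PL.cons (nat_lit 47143) (nat_lit 2222462449) (nat_lit 4862) (nat_lit 107896740) (PL.cons (nat_lit 47137) (nat_lit 2221896769) (nat_lit 4861) (nat_lit 107849603) (PL.cons (nat_lit 47129) (nat_lit 2221142641) (nat_lit 4860) (nat_lit 107802474) (PL.cons (nat_lit 47123) (nat_lit 2220577129) (nat_lit 4859) (nat_lit 107755351) (PL.cons (nat_lit 47119) (nat_lit 2220200161) (nat_lit 4858) (nat_lit 107708232) (PL.cons (nat_lit 47111) (nat_lit 2219446321) (nat_lit 4857) (nat_lit 107661121) (PL.cons (nat_lit 47093) (nat_lit 2217750649) (nat_lit 4856) (nat_lit 107614028) (PL.cons (nat_lit 47087) (nat_lit 2217185569) (nat_lit 4855) (nat_lit 107566941) (PL.cons (nat_lit 47059) (nat_lit 2214549481) (nat_lit 4854) (nat_lit 107519882) (PL.cons (nat_lit 47057) (nat_lit 2214361249) (nat_lit 4853)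 (nat_lit 107472825) (PL.cons (nat_lit 47051) (nat_lit 2213796601) (nat_lit 4852) (nat_lit 107425774) (PL.cons (nat_lit 47041) (nat_lit 2212855681) (nat_lit 4851) (nat_lit 107378733) (PL.cons (nat_lit 47017) (nat_lit 2210598289) (nat_lit 4850) (nat_lit 107331716) (PL.cons (nat_lit 46997) (nat_lit 2208718009) (nat_lit 4849) (nat_lit 107284719) (PL.cons (nat_lit 46993) (nat_lit 2208342049) (nat_lit 4848) (nat_lit 107237726) (PL.cons (nat_lit 46957) (nat_lit 2204959849) (nat_lit 4847) (nat_lit 107190769) (PL.cons (nat_lit 46933) (nat_lit 2202706489) (nat_lit 4846) (nat_lit 107143836) (PL.cons (nat_lit 46919) (nat_lit 2201392561) (nat_lit 4845) (nat_lit 107096917) (PL.cons (nat_lit 46901) (nat_lit 2199703801) (nat_lit 4844) (nat_lit 107050016) (PL.cons (nat_lit 46889) (nat_lit 2198578321) (nat_lit 4843) (nat_lit 107003127) (PL.cons (nat_lit 46877) (nat_lit 2197453129) (nat_lit 4842) (nat_lit 106956250) (PL.cons (nat_lit 46867) (nat_lit 2196515689) (nat_lit 4841) (nat_lit 106909383)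 (PL.cons (nat_lit 46861) (nat_lit 2195953321) (nat_lit 4840) (nat_lit 106862522) (PL.cons (nat_lit 46853) (nat_lit 2195203609) (nat_lit 4839) (nat_lit 106815669) (PL.cons (nat_lit 46831) (nat_lit 2193142561) (nat_lit 4838) (nat_lit 106768838) (PL.cons (nat_lit 46829) (nat_lit 2192955241) (nat_lit 4837) (nat_lit 106722009) (PL.cons (nat_lit 46819) (nat_lit 2192018761) (nat_lit 4836) (nat_lit 106675190) (PL.cons (nat_lit 46817) (nat_lit 2191831489) (nat_lit 4835) (nat_lit 106628373) (PL.cons (nat_lit 46811) (nat_lit 2191269721) (nat_lit 4834) (nat_lit 106581562) (PL.cons (nat_lit 46807) (nat_lit 2190895249) (nat_lit 4833) (nat_lit 106534755) (PL.cons (nat_lit 46771) (nat_lit 2187526441) (nat_lit 4832) (nat_lit 106487984) (PL.cons (nat_lit 46769) (nat_lit 2187339361) (nat_lit 4831) (nat_lit 106441215) (PL.cons (nat_lit 46757) (nat_lit 2186217049) (nat_lit 4830) (nat_lit 106394458) (PL.cons (nat_lit 46751) (nat_lit 2185656001) (nat_lit 4829) (nat_lit 106347707) (PL.cons (nat_lit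 46747) (nat_lit 2185282009) (nat_lit 4828) (nat_lit 106300960) (PL.cons (nat_lit 46727) (nat_lit 2183412529) (nat_lit 4827) (nat_lit 106254233) (PL.cons (nat_lit 46723) (nat_lit 2183038729) (nat_lit 4826) (nat_lit 106207510) (PL.cons (nat_lit 46703) (nat_lit 2181170209) (nat_lit 4825) (nat_lit 106160807) (PL.cons (nat_lit 46691) (nat_lit 2180049481) (nat_lit 4824) (nat_lit 106114116) (PL.cons (nat_lit 46687) (nat_lit 2179675969) (nat_lit 4823) (nat_lit 106067429) (PL.cons (nat_lit 46681) (nat_lit 2179115761) (nat_lit 4822) (nat_lit 106020748) (PL.cons (nat_lit 46679) (nat_lit 2178929041) (nat_lit 4821) (nat_lit 105974069) (PL.cons (nat_lit 46663) (nat_lit 2177435569) (nat_lit 4820) (nat_lit 105927406) (PL.cons (nat_lit 46649) (nat_lit 2176129201) (nat_lit 4819) (nat_lit 105880757) (PL.cons (nat_lit 46643) (nat_lit 2175569449) (nat_lit 4818) (nat_lit 105834114) (PL.cons (nat_lit 46639) (nat_lit 2175196321) (nat_lit 4817) (nat_lit 105787475) (PL.cons (nat_lit 46633) (nat_lit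 2174636689) (nat_lit 4816) (nat_lit 105740842) (PL.cons (nat_lit 46619) (nat_lit 2173331161) (nat_lit 4815) (nat_lit 105694223) (PL.cons (nat_lit 46601) (nat_lit 2171653201) (nat_lit 4814) (nat_lit 105647622) (PL.cons (nat_lit 46591) (nat_lit 2170721281) (nat_lit 4813) (nat_lit 105601031) (PL.cons (nat_lit 46589) (nat_lit 2170534921) (nat_lit 4812) (nat_lit 105554442) (PL.cons (nat_lit 46573) (nat_lit 2169044329) (nat_lit 4811) (nat_lit 105507869) (PL.cons (nat_lit 46567) (nat_lit 2168485489) (nat_lit 4810) (nat_lit 105461302) (PL.cons (nat_lit 46559) (nat_lit 2167740481) (nat_lit 4809) (nat_lit 105414743) (PL.cons (nat_lit 46549) (nat_lit 2166809401) (nat_lit 4808) (nat_lit 105368194) (PL.cons (nat_lit 46523) (nat_lit 2164389529) (nat_lit 4807) (nat_lit 105321671) (PL.cons (nat_lit 46511) (nat_lit 2163273121) (nat_lit 4806) (nat_lit 105275160) (PL.cons (nat_lit 46507) (nat_lit 2162901049) (nat_lit 4805) (nat_lit 105228653) (PL.cons (nat_lit 46499) (nat_lit 2162157001)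 (nat_lit 4804) (nat_lit 105182154) (PL.cons (nat_lit 46489) (nat_lit 2161227121) (nat_lit 4803) (nat_lit 105135665) (PL.cons (nat_lit 46477) (nat_lit 2160111529) (nat_lit 4802) (nat_lit 105089188) (PL.cons (nat_lit 46471) (nat_lit 2159553841) (nat_lit 4801) (nat_lit 105042717) (PL.cons (nat_lit 46457) (nat_lit 2158252849) (nat_lit 4800) (nat_lit 104996260) (PL.cons (nat_lit 46451) (nat_lit 2157695401) (nat_lit 4799) (nat_lit 104949809) (PL.cons (nat_lit 46447) (nat_lit 2157323809) (nat_lit 4798) (nat_lit 104903362) (PL.cons (nat_lit 46441) (nat_lit 2156766481) (nat_lit 4797) (nat_lit 104856921) (PL.cons (nat_lit 46439) (nat_lit 2156580721) (nat_lit 4796) (nat_lit 104810482) (PL.cons (nat_lit 46411) (nat_lit 2153980921) (nat_lit 4795) (nat_lit 104764071) (PL.cons (nat_lit 46399) (nat_lit 2152867201) (nat_lit 4794) (nat_lit 104717672) (PL.cons (nat_lit 46381) (nat_lit 2151197161) (nat_lit 4793) (nat_lit 104671291) (PL.cons (nat_lit 46351) (nat_lit 2148415201) (nat_lit 4792)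 (nat_lit 104624940) (PL.cons (nat_lit 46349) (nat_lit 2148229801) (nat_lit 4791) (nat_lit 104578591) (PL.cons (nat_lit 46337) (nat_lit 2147117569) (nat_lit 4790) (nat_lit 104532254) (PL.cons (nat_lit 46327) (nat_lit 2146190929) (nat_lit 4789) (nat_lit 104485927) (PL.cons (nat_lit 46309) (nat_lit 2144523481) (nat_lit 4788) (nat_lit 104439618) (PL.cons (nat_lit 46307) (nat_lit 2144338249) (nat_lit 4787) (nat_lit 104393311) (PL.cons (nat_lit 46301) (nat_lit 2143782601) (nat_lit 4786) (nat_lit 104347010) (PL.cons (nat_lit 46279) (nat_lit 2141745841) (nat_lit 4785) (nat_lit 104300731) (PL.cons (nat_lit 46273) (nat_lit 2141190529) (nat_lit 4784) (nat_lit 104254458) (PL.cons (nat_lit 46271) (nat_lit 2141005441) (nat_lit 4783) (nat_lit 104208187) (PL.cons (nat_lit 46261) (nat_lit 2140080121) (nat_lit 4782) (nat_lit 104161926) (PL.cons (nat_lit 46237) (nat_lit 2137860169) (nat_lit 4781) (nat_lit 104115689) (PL.cons (nat_lit 46229) (nat_lit 2137120441) (nat_lit 4780) (nat_lit 104069460)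 (PL.cons (nat_lit 46219) (nat_lit 2136195961) (nat_lit 4779) (nat_lit 104023241) (PL.cons (nat_lit 46199) (nat_lit 2134347601) (nat_lit 4778) (nat_lit 103977042) (PL.cons (nat_lit 46187) (nat_lit 2133238969) (nat_lit 4777) (nat_lit 103930855) (PL.cons (nat_lit 46183) (nat_lit 2132869489) (nat_lit 4776) (nat_lit 103884672) (PL.cons (nat_lit 46181) (nat_lit 2132684761) (nat_lit 4775) (nat_lit 103838491) (PL.cons (nat_lit 46171) (nat_lit 2131761241) (nat_lit 4774) (nat_lit 103792320) (PL.cons (nat_lit 46153) (nat_lit 2130099409) (nat_lit 4773) (nat_lit 103746167) (PL.cons (nat_lit 46147) (nat_lit 2129545609) (nat_lit 4772) (nat_lit 103700020) (PL.cons (nat_lit 46141) (nat_lit 2128991881) (nat_lit 4771) (nat_lit 103653879) (PL.cons (nat_lit 46133) (nat_lit 2128253689) (nat_lit 4770) (nat_lit 103607746) (PL.cons (nat_lit 46103) (nat_lit 2125486609) (nat_lit 4769) (nat_lit 103561643) (PL.cons (nat_lit 46099) (nat_lit 2125117801) (nat_lit 4768) (nat_lit 103515544) (PL.cons (nat_lit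 46093) (nat_lit 2124564649) (nat_lit 4767) (nat_lit 103469451) (PL.cons (nat_lit 46091) (nat_lit 2124380281) (nat_lit 4766) (nat_lit 103423360) (PL.cons (nat_lit 46073) (nat_lit 2122721329) (nat_lit 4765) (nat_lit 103377287) (PL.cons (nat_lit 46061) (nat_lit 2121615721) (nat_lit 4764) (nat_lit 103331226) (PL.cons (nat_lit 46051) (nat_lit 2120694601) (nat_lit 4763) (nat_lit 103285175) (PL.cons (nat_lit 46049) (nat_lit 2120510401) (nat_lit 4762) (nat_lit 103239126) (PL.cons (nat_lit 46027) (nat_lit 2118484729) (nat_lit 4761) (nat_lit 103193099) (PL.cons (nat_lit 46021) (nat_lit 2117932441) (nat_lit 4760) (nat_lit 103147078) (PL.cons (nat_lit 45989) (nat_lit 2114988121) (nat_lit 4759) (nat_lit 103101089) (PL.cons (nat_lit 45979) (nat_lit 2114068441) (nat_lit 4758) (nat_lit 103055110) (PL.cons (nat_lit 45971) (nat_lit 2113332841) (nat_lit 4757) (nat_lit 103009139) (PL.cons (nat_lit 45959) (nat_lit 2112229681) (nat_lit 4756) (nat_lit 102963180) (PL.cons (nat_lit 45953) (nat_lit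 2111678209) (nat_lit 4755) (nat_lit 102917227) (PL.cons (nat_lit 45949) (nat_lit 2111310601) (nat_lit 4754) (nat_lit 102871278) (PL.cons (nat_lit 45943) (nat_lit 2110759249) (nat_lit 4753) (nat_lit 102825335) (PL.cons (nat_lit 45893) (nat_lit 2106167449) (nat_lit 4752) (nat_lit 102779442) (PL.cons (nat_lit 45887) (nat_lit 2105616769) (nat_lit 4751) (nat_lit 102733555) (PL.cons (nat_lit 45869) (nat_lit 2103965161) (nat_lit 4750) (nat_lit 102687686) (PL.cons (nat_lit 45863) (nat_lit 2103414769) (nat_lit 4749) (nat_lit 102641823) (PL.cons (nat_lit 45853) (nat_lit 2102497609) (nat_lit 4748) (nat_lit 102595970) (PL.cons (nat_lit 45841) (nat_lit 2101397281) (nat_lit 4747) (nat_lit 102550129) (PL.cons (nat_lit 45833) (nat_lit 2100663889) (nat_lit 4746) (nat_lit 102504296) (PL.cons (nat_lit 45827) (nat_lit 2100113929) (nat_lit 4745) (nat_lit 102458469) (PL.cons (nat_lit 45823) (nat_lit 2099747329) (nat_lit 4744) (nat_lit 102412646) (PL.cons (nat_lit 45821) (nat_lit 2099564041)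 (nat_lit 4743) (nat_lit 102366825) (PL.cons (nat_lit 45817) (nat_lit 2099197489) (nat_lit 4742) (nat_lit 102321008) (PL.cons (nat_lit 45779) (nat_lit 2095716841) (nat_lit 4741) (nat_lit 102275229) (PL.cons (nat_lit 45767) (nat_lit 2094618289) (nat_lit 4740) (nat_lit 102229462) (PL.cons (nat_lit 45763) (nat_lit 2094252169) (nat_lit 4739) (nat_lit 102183699) (PL.cons (nat_lit 45757) (nat_lit 2093703049) (nat_lit 4738) (nat_lit 102137942) (PL.cons (nat_lit 45751) (nat_lit 2093154001) (nat_lit 4737) (nat_lit 102092191) (PL.cons (nat_lit 45737) (nat_lit 2091873169) (nat_lit 4736) (nat_lit 102046454) (PL.cons (nat_lit 45707) (nat_lit 2089129849) (nat_lit 4735) (nat_lit 102000747) (PL.cons (nat_lit 45697) (nat_lit 2088215809) (nat_lit 4734) (nat_lit 101955050) (PL.cons (nat_lit 45691) (nat_lit 2087667481) (nat_lit 4733) (nat_lit 101909359) (PL.cons (nat_lit 45677) (nat_lit 2086388329) (nat_lit 4732) (nat_lit 101863682) (PL.cons (nat_lit 45673) (nat_lit 2086022929) (nat_lit 4731)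 (nat_lit 101818009) (PL.cons (nat_lit 45667) (nat_lit 2085474889) (nat_lit 4730) (nat_lit 101772342) (PL.cons (nat_lit 45659) (nat_lit 2084744281) (nat_lit 4729) (nat_lit 101726683) (PL.cons (nat_lit 45641) (nat_lit 2083100881) (nat_lit 4728) (nat_lit 101681042) (PL.cons (nat_lit 45631) (nat_lit 2082188161) (nat_lit 4727) (nat_lit 101635411) (PL.cons (nat_lit 45613) (nat_lit 2080545769) (nat_lit 4726) (nat_lit 101589798) (PL.cons (nat_lit 45599) (nat_lit 2079268801) (nat_lit 4725) (nat_lit 101544199) (PL.cons (nat_lit 45589) (nat_lit 2078356921) (nat_lit 4724) (nat_lit 101498610) (PL.cons (nat_lit 45587) (nat_lit 2078174569) (nat_lit 4723) (nat_lit 101453023) (PL.cons (nat_lit 45569) (nat_lit 2076533761) (nat_lit 4722) (nat_lit 101407454) (PL.cons (nat_lit 45557) (nat_lit 2075440249) (nat_lit 4721) (nat_lit 101361897) (PL.cons (nat_lit 45553) (nat_lit 2075075809) (nat_lit 4720) (nat_lit 101316344) (PL.cons (nat_lit 45541) (nat_lit 2073982681) (nat_lit 4719) (nat_lit 101270803)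 (PL.cons (nat_lit 45533) (nat_lit 2073254089) (nat_lit 4718) (nat_lit 101225270) (PL.cons (nat_lit 45523) (nat_lit 2072343529) (nat_lit 4717) (nat_lit 101179747) (PL.cons (nat_lit 45503) (nat_lit 2070523009) (nat_lit 4716) (nat_lit 101134244) (PL.cons (nat_lit 45497) (nat_lit 2069977009) (nat_lit 4715) (nat_lit 101088747) (PL.cons (nat_lit 45491) (nat_lit 2069431081) (nat_lit 4714) (nat_lit 101043256) (PL.cons (nat_lit 45481) (nat_lit 2068521361) (nat_lit 4713) (nat_lit 100997775) (PL.cons (nat_lit 45439) (nat_lit 2064702721) (nat_lit 4712) (nat_lit 100952336) (PL.cons (nat_lit 45433) (nat_lit 2064157489) (nat_lit 4711) (nat_lit 100906903) (PL.cons (nat_lit 45427) (nat_lit 2063612329) (nat_lit 4710) (nat_lit 100861476) (PL.cons (nat_lit 45413) (nat_lit 2062340569) (nat_lit 4709) (nat_lit 100816063) (PL.cons (nat_lit 45403) (nat_lit 2061432409) (nat_lit 4708) (nat_lit 100770660) (PL.cons (nat_lit 45389) (nat_lit 2060161321) (nat_lit 4707) (nat_lit 100725271) (PL.cons (nat_lit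 45377) (nat_lit 2059072129) (nat_lit 4706) (nat_lit 100679894) (PL.cons (nat_lit 45361) (nat_lit 2057620321) (nat_lit 4705) (nat_lit 100634533) (PL.cons (nat_lit 45343) (nat_lit 2055987649) (nat_lit 4704) (nat_lit 100589190) (PL.cons (nat_lit 45341) (nat_lit 2055806281) (nat_lit 4703) (nat_lit 100543849) (PL.cons (nat_lit 45337) (nat_lit 2055443569) (nat_lit 4702) (nat_lit 100498512) (PL.cons (nat_lit 45329) (nat_lit 2054718241) (nat_lit 4701) (nat_lit 100453183) (PL.cons (nat_lit 45319) (nat_lit 2053811761) (nat_lit 4700) (nat_lit 100407864) (PL.cons (nat_lit 45317) (nat_lit 2053630489) (nat_lit 4699) (nat_lit 100362547) (PL.cons (nat_lit 45307) (nat_lit 2052724249) (nat_lit 4698) (nat_lit 100317240) (PL.cons (nat_lit 45293) (nat_lit 2051455849) (nat_lit 4697) (nat_lit 100271947) (PL.cons (nat_lit 45289) (nat_lit 2051093521) (nat_lit 4696) (nat_lit 100226658) (PL.cons (nat_lit 45281) (nat_lit 2050368961) (nat_lit 4695) (nat_lit 100181377) (PL.cons (nat_lit 45263) (nat_lit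 2048739169) (nat_lit 4694) (nat_lit 100136114) (PL.cons (nat_lit 45259) (nat_lit 2048377081) (nat_lit 4693) (nat_lit 100090855) (PL.cons (nat_lit 45247) (nat_lit 2047291009) (nat_lit 4692) (nat_lit 100045608) (PL.cons (nat_lit 45233) (nat_lit 2046024289) (nat_lit 4691) (nat_lit 100000375) (PL.cons (nat_lit 45197) (nat_lit 2042768809) (nat_lit 4690) (nat_lit 99955178) (PL.cons (nat_lit 45191) (nat_lit 2042226481) (nat_lit 4689) (nat_lit 99909987) (PL.cons (nat_lit 45181) (nat_lit 2041322761) (nat_lit 4688) (nat_lit 99864806) (PL.cons (nat_lit 45179) (nat_lit 2041142041) (nat_lit 4687) (nat_lit 99819627) (PL.cons (nat_lit 45161) (nat_lit 2039515921) (nat_lit 4686) (nat_lit 99774466) (PL.cons (nat_lit 45139) (nat_lit 2037529321) (nat_lit 4685) (nat_lit 99729327) (PL.cons (nat_lit 45137) (nat_lit 2037348769) (nat_lit 4684) (nat_lit 99684190) (PL.cons (nat_lit 45131) (nat_lit 2036807161) (nat_lit 4683) (nat_lit 99639059) (PL.cons (nat_lit 45127) (nat_lit 2036446129) (nat_lit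 4682) (nat_lit 99593932) (PL.cons (nat_lit 45121) (nat_lit 2035904641) (nat_lit 4681) (nat_lit 99548811) (PL.cons (nat_lit 45119) (nat_lit 2035724161) (nat_lit 4680) (nat_lit 99503692) (PL.cons (nat_lit 45083) (nat_lit 2032476889) (nat_lit 4679) (nat_lit 99458609) (PL.cons (nat_lit 45077) (nat_lit 2031935929) (nat_lit 4678) (nat_lit 99413532) (PL.cons (nat_lit 45061) (nat_lit 2030493721) (nat_lit 4677) (nat_lit 99368471) (PL.cons (nat_lit 45053) (nat_lit 2029772809) (nat_lit 4676) (nat_lit 99323418) (PL.cons (nat_lit 45013) (nat_lit 2026170169) (nat_lit 4675) (nat_lit 99278405) (PL.cons (nat_lit 45007) (nat_lit 2025630049) (nat_lit 4674) (nat_lit 99233398) (PL.cons (nat_lit 44987) (nat_lit 2023830169) (nat_lit 4673) (nat_lit 99188411) (PL.cons (nat_lit 44983) (nat_lit 2023470289) (nat_lit 4672) (nat_lit 99143428) (PL.cons (nat_lit 44971) (nat_lit 2022390841) (nat_lit 4671) (nat_lit 99098457) (PL.cons (nat_lit 44963) (nat_lit 2021671369) (nat_lit 4670) (nat_lit 99053494)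 (PL.cons (nat_lit 44959) (nat_lit 2021311681) (nat_lit 4669) (nat_lit 99008535) (PL.cons (nat_lit 44953) (nat_lit 2020772209) (nat_lit 4668) (nat_lit 98963582) (PL.cons (nat_lit 44939) (nat_lit 2019513721) (nat_lit 4667) (nat_lit 98918643) (PL.cons (nat_lit 44927) (nat_lit 2018435329) (nat_lit 4666) (nat_lit 98873716) (PL.cons (nat_lit 44917) (nat_lit 2017536889) (nat_lit 4665) (nat_lit 98828799) (PL.cons (nat_lit 44909) (nat_lit 2016818281) (nat_lit 4664) (nat_lit 98783890) (PL.cons (nat_lit 44893) (nat_lit 2015381449) (nat_lit 4663) (nat_lit 98738997) (PL.cons (nat_lit 44887) (nat_lit 2014842769) (nat_lit 4662) (nat_lit 98694110) (PL.cons (nat_lit 44879) (nat_lit 2014124641) (nat_lit 4661) (nat_lit 98649231) (PL.cons (nat_lit 44867) (nat_lit 2013047689) (nat_lit 4660) (nat_lit 98604364) (PL.cons (nat_lit 44851) (nat_lit 2011612201) (nat_lit 4659) (nat_lit 98559513) (PL.cons (nat_lit 44843) (nat_lit 2010894649) (nat_lit 4658) (nat_lit 98514670) (PL.cons (nat_lit 44839)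 (nat_lit 2010535921) (nat_lit 4657) (nat_lit 98469831) (PL.cons (nat_lit 44819) (nat_lit 2008742761) (nat_lit 4656) (nat_lit 98425012) (PL.cons (nat_lit 44809) (nat_lit 2007846481) (nat_lit 4655) (nat_lit 98380203) (PL.cons (nat_lit 44797) (nat_lit 2006771209) (nat_lit 4654) (nat_lit 98335406) (PL.cons (nat_lit 44789) (nat_lit 2006054521) (nat_lit 4653) (nat_lit 98290617) (PL.cons (nat_lit 44777) (nat_lit 2004979729) (nat_lit 4652) (nat_lit 98245840) (PL.cons (nat_lit 44773) (nat_lit 2004621529) (nat_lit 4651) (nat_lit 98201067) (PL.cons (nat_lit 44771) (nat_lit 2004442441) (nat_lit 4650) (nat_lit 98156296) (PL.cons (nat_lit 44753) (nat_lit 2002831009) (nat_lit 4649) (nat_lit 98111543) (PL.cons (nat_lit 44741) (nat_lit 2001757081) (nat_lit 4648) (nat_lit 98066802) (PL.cons (nat_lit 44729) (nat_lit 2000683441) (nat_lit 4647) (nat_lit 98022073) (PL.cons (nat_lit 44711) (nat_lit 1999073521) (nat_lit 4646) (nat_lit 97977362) (PL.cons (nat_lit 44701) (nat_lit 1998179401) (nat_lit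 4645) (nat_lit 97932661) (PL.cons (nat_lit 44699) (nat_lit 1998000601) (nat_lit 4644) (nat_lit 97887962) (PL.cons (nat_lit 44687) (nat_lit 1996927969) (nat_lit 4643) (nat_lit 97843275) (PL.cons (nat_lit 44683) (nat_lit 1996570489) (nat_lit 4642) (nat_lit 97798592) (PL.cons (nat_lit 44657) (nat_lit 1994247649) (nat_lit 4641) (nat_lit 97753935) (PL.cons (nat_lit 44651) (nat_lit 1993711801) (nat_lit 4640) (nat_lit 97709284) (PL.cons (nat_lit 44647) (nat_lit 1993354609) (nat_lit 4639) (nat_lit 97664637) (PL.cons (nat_lit 44641) (nat_lit 1992818881) (nat_lit 4638) (nat_lit 97619996) (PL.cons (nat_lit 44633) (nat_lit 1992104689) (nat_lit 4637) (nat_lit 97575363) (PL.cons (nat_lit 44623) (nat_lit 1991212129) (nat_lit 4636) (nat_lit 97530740) (PL.cons (nat_lit 44621) (nat_lit 1991033641) (nat_lit 4635) (nat_lit 97486119) (PL.cons (nat_lit 44617) (nat_lit 1990676689) (nat_lit 4634) (nat_lit 97441502) (PL.cons (nat_lit 44587) (nat_lit 1988000569) (nat_lit 4633) (nat_lit 97396915)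 (PL.cons (nat_lit 44579) (nat_lit 1987287241) (nat_lit 4632) (nat_lit 97352336) (PL.cons (nat_lit 44563) (nat_lit 1985860969) (nat_lit 4631) (nat_lit 97307773) (PL.cons (nat_lit 44549) (nat_lit 1984613401) (nat_lit 4630) (nat_lit 97263224) (PL.cons (nat_lit 44543) (nat_lit 1984078849) (nat_lit 4629) (nat_lit 97218681) (PL.cons (nat_lit 44537) (nat_lit 1983544369) (nat_lit 4628) (nat_lit 97174144) (PL.cons (nat_lit 44533) (nat_lit 1983188089) (nat_lit 4627) (nat_lit 97129611) (PL.cons (nat_lit 44531) (nat_lit 1983009961) (nat_lit 4626) (nat_lit 97085080) (PL.cons (nat_lit 44519) (nat_lit 1981941361) (nat_lit 4625) (nat_lit 97040561) (PL.cons (nat_lit 44507) (nat_lit 1980873049) (nat_lit 4624) (nat_lit 96996054) (PL.cons (nat_lit 44501) (nat_lit 1980339001) (nat_lit 4623) (nat_lit 96951553) (PL.cons (nat_lit 44497) (nat_lit 1979983009) (nat_lit 4622) (nat_lit 96907056) (PL.cons (nat_lit 44491) (nat_lit 1979449081) (nat_lit 4621) (nat_lit 96862565) (PL.cons (nat_lit 44483)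 (nat_lit 1978737289) (nat_lit 4620) (nat_lit 96818082) (PL.cons (nat_lit 44453) (nat_lit 1976069209) (nat_lit 4619) (nat_lit 96773629) (PL.cons (nat_lit 44449) (nat_lit 1975713601) (nat_lit 4618) (nat_lit 96729180) (PL.cons (nat_lit 44417) (nat_lit 1972869889) (nat_lit 4617) (nat_lit 96684763) (PL.cons (nat_lit 44389) (nat_lit 1970383321) (nat_lit 4616) (nat_lit 96640374) (PL.cons (nat_lit 44383) (nat_lit 1969850689) (nat_lit 4615) (nat_lit 96595991) (PL.cons (nat_lit 44381) (nat_lit 1969673161) (nat_lit 4614) (nat_lit 96551610) (PL.cons (nat_lit 44371) (nat_lit 1968785641) (nat_lit 4613) (nat_lit 96507239) (PL.cons (nat_lit 44357) (nat_lit 1967543449) (nat_lit 4612) (nat_lit 96462882) (PL.cons (nat_lit 44351) (nat_lit 1967011201) (nat_lit 4611) (nat_lit 96418531) (PL.cons (nat_lit 44293) (nat_lit 1961869849) (nat_lit 4610) (nat_lit 96374238) (PL.cons (nat_lit 44281) (nat_lit 1960806961) (nat_lit 4609) (nat_lit 96329957) (PL.cons (nat_lit 44279) (nat_lit 1960629841) (nat_lit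 4608) (nat_lit 96285678) (PL.cons (nat_lit 44273) (nat_lit 1960098529) (nat_lit 4607) (nat_lit 96241405) (PL.cons (nat_lit 44269) (nat_lit 1959744361) (nat_lit 4606) (nat_lit 96197136) (PL.cons (nat_lit 44267) (nat_lit 1959567289) (nat_lit 4605) (nat_lit 96152869) (PL.cons (nat_lit 44263) (nat_lit 1959213169) (nat_lit 4604) (nat_lit 96108606) (PL.cons (nat_lit 44257) (nat_lit 1958682049) (nat_lit 4603) (nat_lit 96064349) (PL.cons (nat_lit 44249) (nat_lit 1957974001) (nat_lit 4602) (nat_lit 96020100) (PL.cons (nat_lit 44221) (nat_lit 1955496841) (nat_lit 4601) (nat_lit 95975879) (PL.cons (nat_lit 44207) (nat_lit 1954258849) (nat_lit 4600) (nat_lit 95931672) (PL.cons (nat_lit 44203) (nat_lit 1953905209) (nat_lit 4599) (nat_lit 95887469) (PL.cons (nat_lit 44201) (nat_lit 1953728401) (nat_lit 4598) (nat_lit 95843268) (PL.cons (nat_lit 44189) (nat_lit 1952667721) (nat_lit 4597) (nat_lit 95799079) (PL.cons (nat_lit 44179) (nat_lit 1951784041) (nat_lit 4596) (nat_lit 95754900)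 (PL.cons (nat_lit 44171) (nat_lit 1951077241) (nat_lit 4595) (nat_lit 95710729) (PL.cons (nat_lit 44159) (nat_lit 1950017281) (nat_lit 4594) (nat_lit 95666570) (PL.cons (nat_lit 44131) (nat_lit 1947545161) (nat_lit 4593) (nat_lit 95622439) (PL.cons (nat_lit 44129) (nat_lit 1947368641) (nat_lit 4592) (nat_lit 95578310) (PL.cons (nat_lit 44123) (nat_lit 1946839129) (nat_lit 4591) (nat_lit 95534187) (PL.cons (nat_lit 44119) (nat_lit 1946486161) (nat_lit 4590) (nat_lit 95490068) (PL.cons (nat_lit 44111) (nat_lit 1945780321) (nat_lit 4589) (nat_lit 95445957) (PL.cons (nat_lit 44101) (nat_lit 1944898201) (nat_lit 4588) (nat_lit 95401856) (PL.cons (nat_lit 44089) (nat_lit 1943839921) (nat_lit 4587) (nat_lit 95357767) (PL.cons (nat_lit 44087) (nat_lit 1943663569) (nat_lit 4586) (nat_lit 95313680) (PL.cons (nat_lit 44071) (nat_lit 1942253041) (nat_lit 4585) (nat_lit 95269609) (PL.cons (nat_lit 44059) (nat_lit 1941195481) (nat_lit 4584) (nat_lit 95225550) (PL.cons (nat_lit 44053)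 (nat_lit 1940666809) (nat_lit 4583) (nat_lit 95181497) (PL.cons (nat_lit 44041) (nat_lit 1939609681) (nat_lit 4582) (nat_lit 95137456) (PL.cons (nat_lit 44029) (nat_lit 1938552841) (nat_lit 4581) (nat_lit 95093427) (PL.cons (nat_lit 44027) (nat_lit 1938376729) (nat_lit 4580) (nat_lit 95049400) (PL.cons (nat_lit 44021) (nat_lit 1937848441) (nat_lit 4579) (nat_lit 95005379) (PL.cons (nat_lit 44017) (nat_lit 1937496289) (nat_lit 4578) (nat_lit 94961362) (PL.cons (nat_lit 43997) (nat_lit 1935736009) (nat_lit 4577) (nat_lit 94917365) (PL.cons (nat_lit 43991) (nat_lit 1935208081) (nat_lit 4576) (nat_lit 94873374) (PL.cons (nat_lit 43987) (nat_lit 1934856169) (nat_lit 4575) (nat_lit 94829387) (PL.cons (nat_lit 43973) (nat_lit 1933624729) (nat_lit 4574) (nat_lit 94785414) (PL.cons (nat_lit 43969) (nat_lit 1933272961) (nat_lit 4573) (nat_lit 94741445) (PL.cons (nat_lit 43963) (nat_lit 1932745369) (nat_lit 4572) (nat_lit 94697482) (PL.cons (nat_lit 43961) (nat_lit 1932569521) (nat_lit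 4571) (nat_lit 94653521) (PL.cons (nat_lit 43951) (nat_lit 1931690401) (nat_lit 4570) (nat_lit 94609570) (PL.cons (nat_lit 43943) (nat_lit 1930987249) (nat_lit 4569) (nat_lit 94565627) (PL.cons (nat_lit 43933) (nat_lit 1930108489) (nat_lit 4568) (nat_lit 94521694) (PL.cons (nat_lit 43913) (nat_lit 1928351569) (nat_lit 4567) (nat_lit 94477781) (PL.cons (nat_lit 43891) (nat_lit 1926419881) (nat_lit 4566) (nat_lit 94433890) (PL.cons (nat_lit 43889) (nat_lit 1926244321) (nat_lit 4565) (nat_lit 94390001) (PL.cons (nat_lit 43867) (nat_lit 1924313689) (nat_lit 4564) (nat_lit 94346134) (PL.cons (nat_lit 43853) (nat_lit 1923085609) (nat_lit 4563) (nat_lit 94302281) (PL.cons (nat_lit 43801) (nat_lit 1918527601) (nat_lit 4562) (nat_lit 94258480) (PL.cons (nat_lit 43793) (nat_lit 1917826849) (nat_lit 4561) (nat_lit 94214687) (PL.cons (nat_lit 43789) (nat_lit 1917476521) (nat_lit 4560) (nat_lit 94170898) (PL.cons (nat_lit 43787) (nat_lit 1917301369) (nat_lit 4559) (nat_lit 94127111)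 (PL.cons (nat_lit 43783) (nat_lit 1916951089) (nat_lit 4558) (nat_lit 94083328) (PL.cons (nat_lit 43781) (nat_lit 1916775961) (nat_lit 4557) (nat_lit 94039547) (PL.cons (nat_lit 43777) (nat_lit 1916425729) (nat_lit 4556) (nat_lit 93995770) (PL.cons (nat_lit 43759) (nat_lit 1914850081) (nat_lit 4555) (nat_lit 93952011) (PL.cons (nat_lit 43753) (nat_lit 1914325009) (nat_lit 4554) (nat_lit 93908258) (PL.cons (nat_lit 43721) (nat_lit 1911525841) (nat_lit 4553) (nat_lit 93864537) (PL.cons (nat_lit 43717) (nat_lit 1911176089) (nat_lit 4552) (nat_lit 93820820) (PL.cons (nat_lit 43711) (nat_lit 1910651521) (nat_lit 4551) (nat_lit 93777109) (PL.cons (nat_lit 43691) (nat_lit 1908903481) (nat_lit 4550) (nat_lit 93733418) (PL.cons (nat_lit 43669) (nat_lit 1906981561) (nat_lit 4549) (nat_lit 93689749) (PL.cons (nat_lit 43661) (nat_lit 1906282921) (nat_lit 4548) (nat_lit 93646088) (PL.cons (nat_lit 43651) (nat_lit 1905409801) (nat_lit 4547) (nat_lit 93602437) (PL.cons (nat_lit 43649)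 (nat_lit 1905235201) (nat_lit 4546) (nat_lit 93558788) (PL.cons (nat_lit 43633) (nat_lit 1903838689) (nat_lit 4545) (nat_lit 93515155) (PL.cons (nat_lit 43627) (nat_lit 1903315129) (nat_lit 4544) (nat_lit 93471528) (PL.cons (nat_lit 43613) (nat_lit 1902093769) (nat_lit 4543) (nat_lit 93427915) (PL.cons (nat_lit 43609) (nat_lit 1901744881) (nat_lit 4542) (nat_lit 93384306) (PL.cons (nat_lit 43607) (nat_lit 1901570449) (nat_lit 4541) (nat_lit 93340699) (PL.cons (nat_lit 43597) (nat_lit 1900698409) (nat_lit 4540) (nat_lit 93297102) (PL.cons (nat_lit 43591) (nat_lit 1900175281) (nat_lit 4539) (nat_lit 93253511) (PL.cons (nat_lit 43579) (nat_lit 1899129241) (nat_lit 4538) (nat_lit 93209932) (PL.cons (nat_lit 43577) (nat_lit 1898954929) (nat_lit 4537) (nat_lit 93166355) (PL.cons (nat_lit 43573) (nat_lit 1898606329) (nat_lit 4536) (nat_lit 93122782) (PL.cons (nat_lit 43543) (nat_lit 1895992849) (nat_lit 4535) (nat_lit 93079239) (PL.cons (nat_lit 43541) (nat_lit 1895818681) (nat_lit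 4534) (nat_lit 93035698) (PL.cons (nat_lit 43517) (nat_lit 1893729289) (nat_lit 4533) (nat_lit 92992181) (PL.cons (nat_lit 43499) (nat_lit 1892163001) (nat_lit 4532) (nat_lit 92948682) (PL.cons (nat_lit 43487) (nat_lit 1891119169) (nat_lit 4531) (nat_lit 92905195) (PL.cons (nat_lit 43481) (nat_lit 1890597361) (nat_lit 4530) (nat_lit 92861714) L20))))))))))))))))))))))))))))))))))))))))))))))))))))))))))))))))))))))))))))))))))))))))))))))))))))))))))))))))))))))))))))))))))))))))))))))))))))))))))))))))))))))))))))))))))))))))))))))))))))))))))))))))))))))))))))))))))))))))))))))))))))))))))))))))))))))))))))))))))))))))))))))))))))))))))))))))))))))))))))))))))))))))))))))))))))))))))))))))))))))))))))))))))))))))))))))))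

def L22 : PL := (PL.cons (nat_lit 51769) (nat_lit 2680029361) (nat_lit 5295) (nat_lit 129309719) (PL.cons (nat_lit 51767) (nat_lit 2679822289) (nat_lit 5294) (nat_lit 129257952) (PL.cons (nat_lit 51749) (nat_lit 2677959001) (nat_lit 5293) (nat_lit 129206203) (PL.cons (nat_lit 51721) (nat_lit 2675061841) (nat_lit 5292) (nat_lit 129154482) (PL.cons (nat_lit 51719) (nat_lit 2674854961) (nat_lit 5291) (nat_lit 129102763) (PL.cons (nat_lit 51713) (nat_lit 2674234369) (nat_lit 5290) (nat_lit 129051050) (PL.cons (nat_lit 51691) (nat_lit 2671959481) (nat_lit 5289) (nat_lit 128999359) (PL.cons (nat_lit 51683) (nat_lit 2671132489) (nat_lit 5288) (nat_lit 128947676) (PL.cons (nat_lit 51679) (nat_lit 2670719041) (nat_lit 5287) (nat_lit 128895997) (PL.cons (nat_lit 51673) (nat_lit 2670098929) (nat_lit 5286) (nat_lit 128844324) (PL.cons (nat_lit 51659) (nat_lit 2668652281) (nat_lit 5285) (nat_lit 128792665) (PL.cons (nat_lit 51647) (nat_lit 2667412609) (nat_lit 5284) (nat_lit 128741018)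 (PL.cons (nat_lit 51637) (nat_lit 2666379769) (nat_lit 5283) (nat_lit 128689381) (PL.cons (nat_lit 51631) (nat_lit 2665760161) (nat_lit 5282) (nat_lit 128637750) (PL.cons (nat_lit 51613) (nat_lit 2663901769) (nat_lit 5281) (nat_lit 128586137) (PL.cons (nat_lit 51607) (nat_lit 2663282449) (nat_lit 5280) (nat_lit 128534530) (PL.cons (nat_lit 51599) (nat_lit 2662456801) (nat_lit 5279) (nat_lit 128482931) (PL.cons (nat_lit 51593) (nat_lit 2661837649) (nat_lit 5278) (nat_lit 128431338) (PL.cons (nat_lit 51581) (nat_lit 2660599561) (nat_lit 5277) (nat_lit 128379757) (PL.cons (nat_lit 51577) (nat_lit 2660186929) (nat_lit 5276) (nat_lit 128328180) (PL.cons (nat_lit 51563) (nat_lit 2658742969) (nat_lit 5275) (nat_lit 128276617) (PL.cons (nat_lit 51551) (nat_lit 2657505601) (nat_lit 5274) (nat_lit 128225066) (PL.cons (nat_lit 51539) (nat_lit 2656268521) (nat_lit 5273) (nat_lit 128173527) (PL.cons (nat_lit 51521) (nat_lit 2654413441) (nat_lit 5272) (nat_lit 128122006) (PL.cons (nat_lit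 51517) (nat_lit 2654001289) (nat_lit 5271) (nat_lit 128070489) (PL.cons (nat_lit 51511) (nat_lit 2653383121) (nat_lit 5270) (nat_lit 128018978) (PL.cons (nat_lit 51503) (nat_lit 2652559009) (nat_lit 5269) (nat_lit 127967475) (PL.cons (nat_lit 51487) (nat_lit 2650911169) (nat_lit 5268) (nat_lit 127915988) (PL.cons (nat_lit 51481) (nat_lit 2650293361) (nat_lit 5267) (nat_lit 127864507) (PL.cons (nat_lit 51479) (nat_lit 2650087441) (nat_lit 5266) (nat_lit 127813028) (PL.cons (nat_lit 51473) (nat_lit 2649469729) (nat_lit 5265) (nat_lit 127761555) (PL.cons (nat_lit 51461) (nat_lit 2648234521) (nat_lit 5264) (nat_lit 127710094) (PL.cons (nat_lit 51449) (nat_lit 2646999601) (nat_lit 5263) (nat_lit 127658645) (PL.cons (nat_lit 51439) (nat_lit 2645970721) (nat_lit 5262) (nat_lit 127607206) (PL.cons (nat_lit 51437) (nat_lit 2645764969) (nat_lit 5261) (nat_lit 127555769) (PL.cons (nat_lit 51431) (nat_lit 2645147761) (nat_lit 5260) (nat_lit 127504338) (PL.cons (nat_lit 51427) (nat_lit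 2644736329) (nat_lit 5259) (nat_lit 127452911) (PL.cons (nat_lit 51421) (nat_lit 2644119241) (nat_lit 5258) (nat_lit 127401490) (PL.cons (nat_lit 51419) (nat_lit 2643913561) (nat_lit 5257) (nat_lit 127350071) (PL.cons (nat_lit 51413) (nat_lit 2643296569) (nat_lit 5256) (nat_lit 127298658) (PL.cons (nat_lit 51407) (nat_lit 2642679649) (nat_lit 5255) (nat_lit 127247251) (PL.cons (nat_lit 51383) (nat_lit 2640212689) (nat_lit 5254) (nat_lit 127195868) (PL.cons (nat_lit 51361) (nat_lit 2637952321) (nat_lit 5253) (nat_lit 127144507) (PL.cons (nat_lit 51349) (nat_lit 2636719801) (nat_lit 5252) (nat_lit 127093158) (PL.cons (nat_lit 51347) (nat_lit 2636514409) (nat_lit 5251) (nat_lit 127041811) (PL.cons (nat_lit 51343) (nat_lit 2636103649) (nat_lit 5250) (nat_lit 126990468) (PL.cons (nat_lit 51341) (nat_lit 2635898281) (nat_lit 5249) (nat_lit 126939127) (PL.cons (nat_lit 51329) (nat_lit 2634666241) (nat_lit 5248) (nat_lit 126887798) (PL.cons (nat_lit 51307) (nat_lit 2632408249)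 (nat_lit 5247) (nat_lit 126836491) (PL.cons (nat_lit 51287) (nat_lit 2630356369) (nat_lit 5246) (nat_lit 126785204) (PL.cons (nat_lit 51283) (nat_lit 2629946089) (nat_lit 5245) (nat_lit 126733921) (PL.cons (nat_lit 51263) (nat_lit 2627895169) (nat_lit 5244) (nat_lit 126682658) (PL.cons (nat_lit 51257) (nat_lit 2627280049) (nat_lit 5243) (nat_lit 126631401) (PL.cons (nat_lit 51241) (nat_lit 2625640081) (nat_lit 5242) (nat_lit 126580160) (PL.cons (nat_lit 51239) (nat_lit 2625435121) (nat_lit 5241) (nat_lit 126528921) (PL.cons (nat_lit 51229) (nat_lit 2624410441) (nat_lit 5240) (nat_lit 126477692) (PL.cons (nat_lit 51217) (nat_lit 2623181089) (nat_lit 5239) (nat_lit 126426475) (PL.cons (nat_lit 51203) (nat_lit 2621747209) (nat_lit 5238) (nat_lit 126375272) (PL.cons (nat_lit 51199) (nat_lit 2621337601) (nat_lit 5237) (nat_lit 126324073) (PL.cons (nat_lit 51197) (nat_lit 2621132809) (nat_lit 5236) (nat_lit 126272876) (PL.cons (nat_lit 51193) (nat_lit 2620723249) (nat_lit 5235)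 (nat_lit 126221683) (PL.cons (nat_lit 51169) (nat_lit 2618266561) (nat_lit 5234) (nat_lit 126170514) (PL.cons (nat_lit 51157) (nat_lit 2617038649) (nat_lit 5233) (nat_lit 126119357) (PL.cons (nat_lit 51151) (nat_lit 2616424801) (nat_lit 5232) (nat_lit 126068206) (PL.cons (nat_lit 51137) (nat_lit 2614992769) (nat_lit 5231) (nat_lit 126017069) (PL.cons (nat_lit 51133) (nat_lit 2614583689) (nat_lit 5230) (nat_lit 125965936) (PL.cons (nat_lit 51131) (nat_lit 2614379161) (nat_lit 5229) (nat_lit 125914805) (PL.cons (nat_lit 51109) (nat_lit 2612129881) (nat_lit 5228) (nat_lit 125863696) (PL.cons (nat_lit 51071) (nat_lit 2608247041) (nat_lit 5227) (nat_lit 125812625) (PL.cons (nat_lit 51061) (nat_lit 2607225721) (nat_lit 5226) (nat_lit 125761564) (PL.cons (nat_lit 51059) (nat_lit 2607021481) (nat_lit 5225) (nat_lit 125710505) (PL.cons (nat_lit 51047) (nat_lit 2605796209) (nat_lit 5224) (nat_lit 125659458) (PL.cons (nat_lit 51043) (nat_lit 2605387849) (nat_lit 5223) (nat_lit 125608415)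 (PL.cons (nat_lit 51031) (nat_lit 2604162961) (nat_lit 5222) (nat_lit 125557384) (PL.cons (nat_lit 51001) (nat_lit 2601102001) (nat_lit 5221) (nat_lit 125506383) (PL.cons (nat_lit 50993) (nat_lit 2600286049) (nat_lit 5220) (nat_lit 125455390) (PL.cons (nat_lit 50989) (nat_lit 2599878121) (nat_lit 5219) (nat_lit 125404401) (PL.cons (nat_lit 50971) (nat_lit 2598042841) (nat_lit 5218) (nat_lit 125353430) (PL.cons (nat_lit 50969) (nat_lit 2597838961) (nat_lit 5217) (nat_lit 125302461) (PL.cons (nat_lit 50957) (nat_lit 2596615849) (nat_lit 5216) (nat_lit 125251504) (PL.cons (nat_lit 50951) (nat_lit 2596004401) (nat_lit 5215) (nat_lit 125200553) (PL.cons (nat_lit 50929) (nat_lit 2593763041) (nat_lit 5214) (nat_lit 125149624) (PL.cons (nat_lit 50923) (nat_lit 2593151929) (nat_lit 5213) (nat_lit 125098701) (PL.cons (nat_lit 50909) (nat_lit 2591726281) (nat_lit 5212) (nat_lit 125047792) (PL.cons (nat_lit 50893) (nat_lit 2590097449) (nat_lit 5211) (nat_lit 124996899) (PL.cons (nat_lit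 50891) (nat_lit 2589893881) (nat_lit 5210) (nat_lit 124946008) (PL.cons (nat_lit 50873) (nat_lit 2588062129) (nat_lit 5209) (nat_lit 124895135) (PL.cons (nat_lit 50867) (nat_lit 2587451689) (nat_lit 5208) (nat_lit 124844268) (PL.cons (nat_lit 50857) (nat_lit 2586434449) (nat_lit 5207) (nat_lit 124793411) (PL.cons (nat_lit 50849) (nat_lit 2585620801) (nat_lit 5206) (nat_lit 124742562) (PL.cons (nat_lit 50839) (nat_lit 2584603921) (nat_lit 5205) (nat_lit 124691723) (PL.cons (nat_lit 50833) (nat_lit 2583993889) (nat_lit 5204) (nat_lit 124640890) (PL.cons (nat_lit 50821) (nat_lit 2582774041) (nat_lit 5203) (nat_lit 124590069) (PL.cons (nat_lit 50789) (nat_lit 2579522521) (nat_lit 5202) (nat_lit 124539280) (PL.cons (nat_lit 50777) (nat_lit 2578303729) (nat_lit 5201) (nat_lit 124488503) (PL.cons (nat_lit 50773) (nat_lit 2577897529) (nat_lit 5200) (nat_lit 124437730) (PL.cons (nat_lit 50767) (nat_lit 2577288289) (nat_lit 5199) (nat_lit 124386963) (PL.cons (nat_lit 50753) (nat_lit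 2575867009) (nat_lit 5198) (nat_lit 124336210) (PL.cons (nat_lit 50741) (nat_lit 2574649081) (nat_lit 5197) (nat_lit 124285469) (PL.cons (nat_lit 50723) (nat_lit 2572822729) (nat_lit 5196) (nat_lit 124234746) (PL.cons (nat_lit 50707) (nat_lit 2571199849) (nat_lit 5195) (nat_lit 124184039) (PL.cons (nat_lit 50683) (nat_lit 2568766489) (nat_lit 5194) (nat_lit 124133356) (PL.cons (nat_lit 50671) (nat_lit 2567550241) (nat_lit 5193) (nat_lit 124082685) (PL.cons (nat_lit 50651) (nat_lit 2565523801) (nat_lit 5192) (nat_lit 124032034) (PL.cons (nat_lit 50647) (nat_lit 2565118609) (nat_lit 5191) (nat_lit 123981387) (PL.cons (nat_lit 50627) (nat_lit 2563093129) (nat_lit 5190) (nat_lit 123930760) (PL.cons (nat_lit 50599) (nat_lit 2560258801) (nat_lit 5189) (nat_lit 123880161) (PL.cons (nat_lit 50593) (nat_lit 2559651649) (nat_lit 5188) (nat_lit 123829568) (PL.cons (nat_lit 50591) (nat_lit 2559449281) (nat_lit 5187) (nat_lit 123778977) (PL.cons (nat_lit 50587) (nat_lit 2559044569)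 (nat_lit 5186) (nat_lit 123728390) (PL.cons (nat_lit 50581) (nat_lit 2558437561) (nat_lit 5185) (nat_lit 123677809) (PL.cons (nat_lit 50551) (nat_lit 2555403601) (nat_lit 5184) (nat_lit 123627258) (PL.cons (nat_lit 50549) (nat_lit 2555201401) (nat_lit 5183) (nat_lit 123576709) (PL.cons (nat_lit 50543) (nat_lit 2554594849) (nat_lit 5182) (nat_lit 123526166) (PL.cons (nat_lit 50539) (nat_lit 2554190521) (nat_lit 5181) (nat_lit 123475627) (PL.cons (nat_lit 50527) (nat_lit 2552977729) (nat_lit 5180) (nat_lit 123425100) (PL.cons (nat_lit 50513) (nat_lit 2551563169) (nat_lit 5179) (nat_lit 123374587) (PL.cons (nat_lit 50503) (nat_lit 2550553009) (nat_lit 5178) (nat_lit 123324084) (PL.cons (nat_lit 50497) (nat_lit 2549947009) (nat_lit 5177) (nat_lit 123273587) (PL.cons (nat_lit 50461) (nat_lit 2546312521) (nat_lit 5176) (nat_lit 123223126) (PL.cons (nat_lit 50459) (nat_lit 2546110681) (nat_lit 5175) (nat_lit 123172667) (PL.cons (nat_lit 50441) (nat_lit 2544294481) (nat_lit 5174)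 (nat_lit 123122226) (PL.cons (nat_lit 50423) (nat_lit 2542478929) (nat_lit 5173) (nat_lit 123071803) (PL.cons (nat_lit 50417) (nat_lit 2541873889) (nat_lit 5172) (nat_lit 123021386) (PL.cons (nat_lit 50411) (nat_lit 2541268921) (nat_lit 5171) (nat_lit 122970975) (PL.cons (nat_lit 50387) (nat_lit 2538849769) (nat_lit 5170) (nat_lit 122920588) (PL.cons (nat_lit 50383) (nat_lit 2538446689) (nat_lit 5169) (nat_lit 122870205) (PL.cons (nat_lit 50377) (nat_lit 2537842129) (nat_lit 5168) (nat_lit 122819828) (PL.cons (nat_lit 50363) (nat_lit 2536431769) (nat_lit 5167) (nat_lit 122769465) (PL.cons (nat_lit 50359) (nat_lit 2536028881) (nat_lit 5166) (nat_lit 122719106) (PL.cons (nat_lit 50341) (nat_lit 2534216281) (nat_lit 5165) (nat_lit 122668765) (PL.cons (nat_lit 50333) (nat_lit 2533410889) (nat_lit 5164) (nat_lit 122618432) (PL.cons (nat_lit 50329) (nat_lit 2533008241) (nat_lit 5163) (nat_lit 122568103) (PL.cons (nat_lit 50321) (nat_lit 2532203041) (nat_lit 5162) (nat_lit 122517782)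 (PL.cons (nat_lit 50311) (nat_lit 2531196721) (nat_lit 5161) (nat_lit 122467471) (PL.cons (nat_lit 50291) (nat_lit 2529184681) (nat_lit 5160) (nat_lit 122417180) (PL.cons (nat_lit 50287) (nat_lit 2528782369) (nat_lit 5159) (nat_lit 122366893) (PL.cons (nat_lit 50273) (nat_lit 2527374529) (nat_lit 5158) (nat_lit 122316620) (PL.cons (nat_lit 50263) (nat_lit 2526369169) (nat_lit 5157) (nat_lit 122266357) (PL.cons (nat_lit 50261) (nat_lit 2526168121) (nat_lit 5156) (nat_lit 122216096) (PL.cons (nat_lit 50231) (nat_lit 2523153361) (nat_lit 5155) (nat_lit 122165865) (PL.cons (nat_lit 50227) (nat_lit 2522751529) (nat_lit 5154) (nat_lit 122115638) (PL.cons (nat_lit 50221) (nat_lit 2522148841) (nat_lit 5153) (nat_lit 122065417) (PL.cons (nat_lit 50207) (nat_lit 2520742849) (nat_lit 5152) (nat_lit 122015210) (PL.cons (nat_lit 50177) (nat_lit 2517731329) (nat_lit 5151) (nat_lit 121965033) (PL.cons (nat_lit 50159) (nat_lit 2515925281) (nat_lit 5150) (nat_lit 121914874) (PL.cons (nat_lit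 50153) (nat_lit 2515323409) (nat_lit 5149) (nat_lit 121864721) (PL.cons (nat_lit 50147) (nat_lit 2514721609) (nat_lit 5148) (nat_lit 121814574) (PL.cons (nat_lit 50131) (nat_lit 2513117161) (nat_lit 5147) (nat_lit 121764443) (PL.cons (nat_lit 50129) (nat_lit 2512916641) (nat_lit 5146) (nat_lit 121714314) (PL.cons (nat_lit 50123) (nat_lit 2512315129) (nat_lit 5145) (nat_lit 121664191) (PL.cons (nat_lit 50119) (nat_lit 2511914161) (nat_lit 5144) (nat_lit 121614072) (PL.cons (nat_lit 50111) (nat_lit 2511112321) (nat_lit 5143) (nat_lit 121563961) (PL.cons (nat_lit 50101) (nat_lit 2510110201) (nat_lit 5142) (nat_lit 121513860) (PL.cons (nat_lit 50093) (nat_lit 2509308649) (nat_lit 5141) (nat_lit 121463767) (PL.cons (nat_lit 50087) (nat_lit 2508707569) (nat_lit 5140) (nat_lit 121413680) (PL.cons (nat_lit 50077) (nat_lit 2507705929) (nat_lit 5139) (nat_lit 121363603) (PL.cons (nat_lit 50069) (nat_lit 2506904761) (nat_lit 5138) (nat_lit 121313534) (PL.cons (nat_lit 50053) (nat_lit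 2505302809) (nat_lit 5137) (nat_lit 121263481) (PL.cons (nat_lit 50051) (nat_lit 2505102601) (nat_lit 5136) (nat_lit 121213430) (PL.cons (nat_lit 50047) (nat_lit 2504702209) (nat_lit 5135) (nat_lit 121163383) (PL.cons (nat_lit 50033) (nat_lit 2503301089) (nat_lit 5134) (nat_lit 121113350) (PL.cons (nat_lit 50023) (nat_lit 2502300529) (nat_lit 5133) (nat_lit 121063327) (PL.cons (nat_lit 50021) (nat_lit 2502100441) (nat_lit 5132) (nat_lit 121013306) (PL.cons (nat_lit 49999) (nat_lit 2499900001) (nat_lit 5131) (nat_lit 120963307) (PL.cons (nat_lit 49993) (nat_lit 2499300049) (nat_lit 5130) (nat_lit 120913314) (PL.cons (nat_lit 49991) (nat_lit 2499100081) (nat_lit 5129) (nat_lit 120863323) (PL.cons (nat_lit 49957) (nat_lit 2495701849) (nat_lit 5128) (nat_lit 120813366) (PL.cons (nat_lit 49943) (nat_lit 2494303249) (nat_lit 5127) (nat_lit 120763423) (PL.cons (nat_lit 49939) (nat_lit 2493903721) (nat_lit 5126) (nat_lit 120713484) (PL.cons (nat_lit 49937) (nat_lit 2493703969)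 (nat_lit 5125) (nat_lit 120663547) (PL.cons (nat_lit 49927) (nat_lit 2492705329) (nat_lit 5124) (nat_lit 120613620) (PL.cons (nat_lit 49921) (nat_lit 2492106241) (nat_lit 5123) (nat_lit 120563699) (PL.cons (nat_lit 49919) (nat_lit 2491906561) (nat_lit 5122) (nat_lit 120513780) (PL.cons (nat_lit 49891) (nat_lit 2489111881) (nat_lit 5121) (nat_lit 120463889) (PL.cons (nat_lit 49877) (nat_lit 2487715129) (nat_lit 5120) (nat_lit 120414012) (PL.cons (nat_lit 49871) (nat_lit 2487116641) (nat_lit 5119) (nat_lit 120364141) (PL.cons (nat_lit 49853) (nat_lit 2485321609) (nat_lit 5118) (nat_lit 120314288) (PL.cons (nat_lit 49843) (nat_lit 2484324649) (nat_lit 5117) (nat_lit 120264445) (PL.cons (nat_lit 49831) (nat_lit 2483128561) (nat_lit 5116) (nat_lit 120214614) (PL.cons (nat_lit 49823) (nat_lit 2482331329) (nat_lit 5115) (nat_lit 120164791) (PL.cons (nat_lit 49811) (nat_lit 2481135721) (nat_lit 5114) (nat_lit 120114980) (PL.cons (nat_lit 49807) (nat_lit 2480737249) (nat_lit 5113)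 (nat_lit 120065173) (PL.cons (nat_lit 49801) (nat_lit 2480139601) (nat_lit 5112) (nat_lit 120015372) (PL.cons (nat_lit 49789) (nat_lit 2478944521) (nat_lit 5111) (nat_lit 119965583) (PL.cons (nat_lit 49787) (nat_lit 2478745369) (nat_lit 5110) (nat_lit 119915796) (PL.cons (nat_lit 49783) (nat_lit 2478347089) (nat_lit 5109) (nat_lit 119866013) (PL.cons (nat_lit 49757) (nat_lit 2475759049) (nat_lit 5108) (nat_lit 119816256) (PL.cons (nat_lit 49747) (nat_lit 2474764009) (nat_lit 5107) (nat_lit 119766509) (PL.cons (nat_lit 49741) (nat_lit 2474167081) (nat_lit 5106) (nat_lit 119716768) (PL.cons (nat_lit 49739) (nat_lit 2473968121) (nat_lit 5105) (nat_lit 119667029) (PL.cons (nat_lit 49727) (nat_lit 2472774529) (nat_lit 5104) (nat_lit 119617302) (PL.cons (nat_lit 49711) (nat_lit 2471183521) (nat_lit 5103) (nat_lit 119567591) (PL.cons (nat_lit 49697) (nat_lit 2469791809) (nat_lit 5102) (nat_lit 119517894) (PL.cons (nat_lit 49681) (nat_lit 2468201761) (nat_lit 5101) (nat_lit 119468213)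 (PL.cons (nat_lit 49669) (nat_lit 2467009561) (nat_lit 5100) (nat_lit 119418544) (PL.cons (nat_lit 49667) (nat_lit 2466810889) (nat_lit 5099) (nat_lit 119368877) (PL.cons (nat_lit 49663) (nat_lit 2466413569) (nat_lit 5098) (nat_lit 119319214) (PL.cons (nat_lit 49639) (nat_lit 2464030321) (nat_lit 5097) (nat_lit 119269575) (PL.cons (nat_lit 49633) (nat_lit 2463434689) (nat_lit 5096) (nat_lit 119219942) (PL.cons (nat_lit 49627) (nat_lit 2462839129) (nat_lit 5095) (nat_lit 119170315) (PL.cons (nat_lit 49613) (nat_lit 2461449769) (nat_lit 5094) (nat_lit 119120702) (PL.cons (nat_lit 49603) (nat_lit 2460457609) (nat_lit 5093) (nat_lit 119071099) (PL.cons (nat_lit 49597) (nat_lit 2459862409) (nat_lit 5092) (nat_lit 119021502) (PL.cons (nat_lit 49559) (nat_lit 2456094481) (nat_lit 5091) (nat_lit 118971943) (PL.cons (nat_lit 49549) (nat_lit 2455103401) (nat_lit 5090) (nat_lit 118922394) (PL.cons (nat_lit 49547) (nat_lit 2454905209) (nat_lit 5089) (nat_lit 118872847) (PL.cons (nat_lit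 49537) (nat_lit 2453914369) (nat_lit 5088) (nat_lit 118823310) (PL.cons (nat_lit 49531) (nat_lit 2453319961) (nat_lit 5087) (nat_lit 118773779) (PL.cons (nat_lit 49529) (nat_lit 2453121841) (nat_lit 5086) (nat_lit 118724250) (PL.cons (nat_lit 49523) (nat_lit 2452527529) (nat_lit 5085) (nat_lit 118674727) (PL.cons (nat_lit 49499) (nat_lit 2450151001) (nat_lit 5084) (nat_lit 118625228) (PL.cons (nat_lit 49481) (nat_lit 2448369361) (nat_lit 5083) (nat_lit 118575747) (PL.cons (nat_lit 49477) (nat_lit 2447973529) (nat_lit 5082) (nat_lit 118526270) (PL.cons (nat_lit 49463) (nat_lit 2446588369) (nat_lit 5081) (nat_lit 118476807) (PL.cons (nat_lit 49459) (nat_lit 2446192681) (nat_lit 5080) (nat_lit 118427348) (PL.cons (nat_lit 49451) (nat_lit 2445401401) (nat_lit 5079) (nat_lit 118377897) (PL.cons (nat_lit 49433) (nat_lit 2443621489) (nat_lit 5078) (nat_lit 118328464) (PL.cons (nat_lit 49429) (nat_lit 2443226041) (nat_lit 5077) (nat_lit 118279035) (PL.cons (nat_lit 49417) (nat_lit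 2442039889) (nat_lit 5076) (nat_lit 118229618) (PL.cons (nat_lit 49411) (nat_lit 2441446921) (nat_lit 5075) (nat_lit 118180207) (PL.cons (nat_lit 49409) (nat_lit 2441249281) (nat_lit 5074) (nat_lit 118130798) (PL.cons (nat_lit 49393) (nat_lit 2439668449) (nat_lit 5073) (nat_lit 118081405) (PL.cons (nat_lit 49391) (nat_lit 2439470881) (nat_lit 5072) (nat_lit 118032014) (PL.cons (nat_lit 49369) (nat_lit 2437298161) (nat_lit 5071) (nat_lit 117982645) (PL.cons (nat_lit 49367) (nat_lit 2437100689) (nat_lit 5070) (nat_lit 117933278) (PL.cons (nat_lit 49363) (nat_lit 2436705769) (nat_lit 5069) (nat_lit 117883915) (PL.cons (nat_lit 49339) (nat_lit 2434336921) (nat_lit 5068) (nat_lit 117834576) (PL.cons (nat_lit 49333) (nat_lit 2433744889) (nat_lit 5067) (nat_lit 117785243) (PL.cons (nat_lit 49331) (nat_lit 2433547561) (nat_lit 5066) (nat_lit 117735912) (PL.cons (nat_lit 49307) (nat_lit 2431180249) (nat_lit 5065) (nat_lit 117686605) (PL.cons (nat_lit 49297) (nat_lit 2430194209)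 (nat_lit 5064) (nat_lit 117637308) (PL.cons (nat_lit 49279) (nat_lit 2428419841) (nat_lit 5063) (nat_lit 117588029) (PL.cons (nat_lit 49277) (nat_lit 2428222729) (nat_lit 5062) (nat_lit 117538752) (PL.cons (nat_lit 49261) (nat_lit 2426646121) (nat_lit 5061) (nat_lit 117489491) (PL.cons (nat_lit 49253) (nat_lit 2425858009) (nat_lit 5060) (nat_lit 117440238) (PL.cons (nat_lit 49223) (nat_lit 2422903729) (nat_lit 5059) (nat_lit 117391015) (PL.cons (nat_lit 49211) (nat_lit 2421722521) (nat_lit 5058) (nat_lit 117341804) (PL.cons (nat_lit 49207) (nat_lit 2421328849) (nat_lit 5057) (nat_lit 117292597) (PL.cons (nat_lit 49201) (nat_lit 2420738401) (nat_lit 5056) (nat_lit 117243396) (PL.cons (nat_lit 49199) (nat_lit 2420541601) (nat_lit 5055) (nat_lit 117194197) (PL.cons (nat_lit 49193) (nat_lit 2419951249) (nat_lit 5054) (nat_lit 117145004) (PL.cons (nat_lit 49177) (nat_lit 2418377329) (nat_lit 5053) (nat_lit 117095827) (PL.cons (nat_lit 49171) (nat_lit 2417787241) (nat_lit 5052)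 (nat_lit 117046656) (PL.cons (nat_lit 49169) (nat_lit 2417590561) (nat_lit 5051) (nat_lit 116997487) (PL.cons (nat_lit 49157) (nat_lit 2416410649) (nat_lit 5050) (nat_lit 116948330) (PL.cons (nat_lit 49139) (nat_lit 2414641321) (nat_lit 5049) (nat_lit 116899191) (PL.cons (nat_lit 49123) (nat_lit 2413069129) (nat_lit 5048) (nat_lit 116850068) (PL.cons (nat_lit 49121) (nat_lit 2412872641) (nat_lit 5047) (nat_lit 116800947) (PL.cons (nat_lit 49117) (nat_lit 2412479689) (nat_lit 5046) (nat_lit 116751830) (PL.cons (nat_lit 49109) (nat_lit 2411693881) (nat_lit 5045) (nat_lit 116702721) (PL.cons (nat_lit 49103) (nat_lit 2411104609) (nat_lit 5044) (nat_lit 116653618) (PL.cons (nat_lit 49081) (nat_lit 2408944561) (nat_lit 5043) (nat_lit 116604537) (PL.cons (nat_lit 49069) (nat_lit 2407766761) (nat_lit 5042) (nat_lit 116555468) (PL.cons (nat_lit 49057) (nat_lit 2406589249) (nat_lit 5041) (nat_lit 116506411) (PL.cons (nat_lit 49043) (nat_lit 2405215849) (nat_lit 5040) (nat_lit 116457368)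 (PL.cons (nat_lit 49037) (nat_lit 2404627369) (nat_lit 5039) (nat_lit 116408331) (PL.cons (nat_lit 49033) (nat_lit 2404235089) (nat_lit 5038) (nat_lit 116359298) (PL.cons (nat_lit 49031) (nat_lit 2404038961) (nat_lit 5037) (nat_lit 116310267) (PL.cons (nat_lit 49019) (nat_lit 2402862361) (nat_lit 5036) (nat_lit 116261248) (PL.cons (nat_lit 49009) (nat_lit 2401882081) (nat_lit 5035) (nat_lit 116212239) (PL.cons (nat_lit 49003) (nat_lit 2401294009) (nat_lit 5034) (nat_lit 116163236) (PL.cons (nat_lit 48991) (nat_lit 2400118081) (nat_lit 5033) (nat_lit 116114245) (PL.cons (nat_lit 48989) (nat_lit 2399922121) (nat_lit 5032) (nat_lit 116065256) (PL.cons (nat_lit 48973) (nat_lit 2398354729) (nat_lit 5031) (nat_lit 116016283) (PL.cons (nat_lit 48953) (nat_lit 2396396209) (nat_lit 5030) (nat_lit 115967330) (PL.cons (nat_lit 48947) (nat_lit 2395808809) (nat_lit 5029) (nat_lit 115918383) (PL.cons (nat_lit 48907) (nat_lit 2391894649) (nat_lit 5028) (nat_lit 115869476) (PL.cons (nat_lit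 48889) (nat_lit 2390134321) (nat_lit 5027) (nat_lit 115820587) (PL.cons (nat_lit 48883) (nat_lit 2389547689) (nat_lit 5026) (nat_lit 115771704) (PL.cons (nat_lit 48871) (nat_lit 2388374641) (nat_lit 5025) (nat_lit 115722833) (PL.cons (nat_lit 48869) (nat_lit 2388179161) (nat_lit 5024) (nat_lit 115673964) (PL.cons (nat_lit 48859) (nat_lit 2387201881) (nat_lit 5023) (nat_lit 115625105) (PL.cons (nat_lit 48857) (nat_lit 2387006449) (nat_lit 5022) (nat_lit 115576248) (PL.cons (nat_lit 48847) (nat_lit 2386029409) (nat_lit 5021) (nat_lit 115527401) (PL.cons (nat_lit 48823) (nat_lit 2383685329) (nat_lit 5020) (nat_lit 115478578) (PL.cons (nat_lit 48821) (nat_lit 2383490041) (nat_lit 5019) (nat_lit 115429757) (PL.cons (nat_lit 48817) (nat_lit 2383099489) (nat_lit 5018) (nat_lit 115380940) (PL.cons (nat_lit 48809) (nat_lit 2382318481) (nat_lit 5017) (nat_lit 115332131) (PL.cons (nat_lit 48799) (nat_lit 2381342401) (nat_lit 5016) (nat_lit 115283332) (PL.cons (nat_lit 48787) (nat_lit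 2380171369) (nat_lit 5015) (nat_lit 115234545) (PL.cons (nat_lit 48781) (nat_lit 2379585961) (nat_lit 5014) (nat_lit 115185764) (PL.cons (nat_lit 48779) (nat_lit 2379390841) (nat_lit 5013) (nat_lit 115136985) (PL.cons (nat_lit 48767) (nat_lit 2378220289) (nat_lit 5012) (nat_lit 115088218) (PL.cons (nat_lit 48761) (nat_lit 2377635121) (nat_lit 5011) (nat_lit 115039457) (PL.cons (nat_lit 48757) (nat_lit 2377245049) (nat_lit 5010) (nat_lit 114990700) (PL.cons (nat_lit 48751) (nat_lit 2376660001) (nat_lit 5009) (nat_lit 114941949) (PL.cons (nat_lit 48733) (nat_lit 2374905289) (nat_lit 5008) (nat_lit 114893216) (PL.cons (nat_lit 48731) (nat_lit 2374710361) (nat_lit 5007) (nat_lit 114844485) (PL.cons (nat_lit 48679) (nat_lit 2369645041) (nat_lit 5006) (nat_lit 114795806) (PL.cons (nat_lit 48677) (nat_lit 2369450329) (nat_lit 5005) (nat_lit 114747129) (PL.cons (nat_lit 48673) (nat_lit 2369060929) (nat_lit 5004) (nat_lit 114698456) (PL.cons (nat_lit 48661) (nat_lit 2367892921)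 (nat_lit 5003) (nat_lit 114649795) (PL.cons (nat_lit 48649) (nat_lit 2366725201) (nat_lit 5002) (nat_lit 114601146) (PL.cons (nat_lit 48647) (nat_lit 2366530609) (nat_lit 5001) (nat_lit 114552499) (PL.cons (nat_lit 48623) (nat_lit 2364196129) (nat_lit 5000) (nat_lit 114503876) (PL.cons (nat_lit 48619) (nat_lit 2363807161) (nat_lit 4999) (nat_lit 114455257) (PL.cons (nat_lit 48611) (nat_lit 2363029321) (nat_lit 4998) (nat_lit 114406646) (PL.cons (nat_lit 48593) (nat_lit 2361279649) (nat_lit 4997) (nat_lit 114358053) (PL.cons (nat_lit 48589) (nat_lit 2360890921) (nat_lit 4996) (nat_lit 114309464) (PL.cons (nat_lit 48571) (nat_lit 2359142041) (nat_lit 4995) (nat_lit 114260893) (PL.cons (nat_lit 48563) (nat_lit 2358364969) (nat_lit 4994) (nat_lit 114212330) (PL.cons (nat_lit 48541) (nat_lit 2356228681) (nat_lit 4993) (nat_lit 114163789) (PL.cons (nat_lit 48539) (nat_lit 2356034521) (nat_lit 4992) (nat_lit 114115250) (PL.cons (nat_lit 48533) (nat_lit 2355452089) (nat_lit 4991)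 (nat_lit 114066717) (PL.cons (nat_lit 48527) (nat_lit 2354869729) (nat_lit 4990) (nat_lit 114018190) (PL.cons (nat_lit 48523) (nat_lit 2354481529) (nat_lit 4989) (nat_lit 113969667) (PL.cons (nat_lit 48497) (nat_lit 2351959009) (nat_lit 4988) (nat_lit 113921170) (PL.cons (nat_lit 48491) (nat_lit 2351377081) (nat_lit 4987) (nat_lit 113872679) (PL.cons (nat_lit 48487) (nat_lit 2350989169) (nat_lit 4986) (nat_lit 113824192) (PL.cons (nat_lit 48481) (nat_lit 2350407361) (nat_lit 4985) (nat_lit 113775711) (PL.cons (nat_lit 48479) (nat_lit 2350213441) (nat_lit 4984) (nat_lit 113727232) (PL.cons (nat_lit 48473) (nat_lit 2349631729) (nat_lit 4983) (nat_lit 113678759) (PL.cons (nat_lit 48463) (nat_lit 2348662369) (nat_lit 4982) (nat_lit 113630296) (PL.cons (nat_lit 48449) (nat_lit 2347305601) (nat_lit 4981) (nat_lit 113581847) (PL.cons (nat_lit 48437) (nat_lit 2346142969) (nat_lit 4980) (nat_lit 113533410) (PL.cons (nat_lit 48413) (nat_lit 2343818569) (nat_lit 4979) (nat_lit 113484997)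 (PL.cons (nat_lit 48409) (nat_lit 2343431281) (nat_lit 4978) (nat_lit 113436588) (PL.cons (nat_lit 48407) (nat_lit 2343237649) (nat_lit 4977) (nat_lit 113388181) (PL.cons (nat_lit 48397) (nat_lit 2342269609) (nat_lit 4976) (nat_lit 113339784) (PL.cons (nat_lit 48383) (nat_lit 2340914689) (nat_lit 4975) (nat_lit 113291401) (PL.cons (nat_lit 48371) (nat_lit 2339753641) (nat_lit 4974) (nat_lit 113243030) (PL.cons (nat_lit 48353) (nat_lit 2338012609) (nat_lit 4973) (nat_lit 113194677) (PL.cons (nat_lit 48341) (nat_lit 2336852281) (nat_lit 4972) (nat_lit 113146336) (PL.cons (nat_lit 48337) (nat_lit 2336465569) (nat_lit 4971) (nat_lit 113097999) (PL.cons (nat_lit 48313) (nat_lit 2334145969) (nat_lit 4970) (nat_lit 113049686) (PL.cons (nat_lit 48311) (nat_lit 2333952721) (nat_lit 4969) (nat_lit 113001375) (PL.cons (nat_lit 48299) (nat_lit 2332793401) (nat_lit 4968) (nat_lit 112953076) (PL.cons (nat_lit 48281) (nat_lit 2331054961) (nat_lit 4967) (nat_lit 112904795) (PL.cons (nat_lit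 48271) (nat_lit 2330089441) (nat_lit 4966) (nat_lit 112856524) (PL.cons (nat_lit 48259) (nat_lit 2328931081) (nat_lit 4965) (nat_lit 112808265) (PL.cons (nat_lit 48247) (nat_lit 2327773009) (nat_lit 4964) (nat_lit 112760018) (PL.cons (nat_lit 48239) (nat_lit 2327001121) (nat_lit 4963) (nat_lit 112711779) (PL.cons (nat_lit 48221) (nat_lit 2325264841) (nat_lit 4962) (nat_lit 112663558) (PL.cons (nat_lit 48197) (nat_lit 2322950809) (nat_lit 4961) (nat_lit 112615361) (PL.cons (nat_lit 48193) (nat_lit 2322565249) (nat_lit 4960) (nat_lit 112567168) (PL.cons (nat_lit 48187) (nat_lit 2321986969) (nat_lit 4959) (nat_lit 112518981) (PL.cons (nat_lit 48179) (nat_lit 2321216041) (nat_lit 4958) (nat_lit 112470802) (PL.cons (nat_lit 48163) (nat_lit 2319674569) (nat_lit 4957) (nat_lit 112422639) (PL.cons (nat_lit 48157) (nat_lit 2319096649) (nat_lit 4956) (nat_lit 112374482) (PL.cons (nat_lit 48131) (nat_lit 2316593161) (nat_lit 4955) (nat_lit 112326351) (PL.cons (nat_lit 48121) (nat_lit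 2315630641) (nat_lit 4954) (nat_lit 112278230) (PL.cons (nat_lit 48119) (nat_lit 2315438161) (nat_lit 4953) (nat_lit 112230111) (PL.cons (nat_lit 48109) (nat_lit 2314475881) (nat_lit 4952) (nat_lit 112182002) (PL.cons (nat_lit 48091) (nat_lit 2312744281) (nat_lit 4951) (nat_lit 112133911) (PL.cons (nat_lit 48079) (nat_lit 2311590241) (nat_lit 4950) (nat_lit 112085832) (PL.cons (nat_lit 48073) (nat_lit 2311013329) (nat_lit 4949) (nat_lit 112037759) (PL.cons (nat_lit 48049) (nat_lit 2308706401) (nat_lit 4948) (nat_lit 111989710) (PL.cons (nat_lit 48029) (nat_lit 2306784841) (nat_lit 4947) (nat_lit 111941681) (PL.cons (nat_lit 48023) (nat_lit 2306208529) (nat_lit 4946) (nat_lit 111893658) (PL.cons (nat_lit 48017) (nat_lit 2305632289) (nat_lit 4945) (nat_lit 111845641) (PL.cons (nat_lit 47981) (nat_lit 2302176361) (nat_lit 4944) (nat_lit 111797660) (PL.cons (nat_lit 47977) (nat_lit 2301792529) (nat_lit 4943) (nat_lit 111749683) (PL.cons (nat_lit 47969) (nat_lit 2301024961)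 (nat_lit 4942) (nat_lit 111701714) (PL.cons (nat_lit 47963) (nat_lit 2300449369) (nat_lit 4941) (nat_lit 111653751) (PL.cons (nat_lit 47951) (nat_lit 2299298401) (nat_lit 4940) (nat_lit 111605800) (PL.cons (nat_lit 47947) (nat_lit 2298914809) (nat_lit 4939) (nat_lit 111557853) (PL.cons (nat_lit 47939) (nat_lit 2298147721) (nat_lit 4938) (nat_lit 111509914) (PL.cons (nat_lit 47933) (nat_lit 2297572489) (nat_lit 4937) (nat_lit 111461981) (PL.cons (nat_lit 47917) (nat_lit 2296038889) (nat_lit 4936) (nat_lit 111414064) (PL.cons (nat_lit 47911) (nat_lit 2295463921) (nat_lit 4935) (nat_lit 111366153) (PL.cons (nat_lit 47903) (nat_lit 2294697409) (nat_lit 4934) (nat_lit 111318250) (PL.cons (nat_lit 47881) (nat_lit 2292590161) (nat_lit 4933) (nat_lit 111270369) (PL.cons (nat_lit 47869) (nat_lit 2291441161) (nat_lit 4932) (nat_lit 111222500) (PL.cons (nat_lit 47857) (nat_lit 2290292449) (nat_lit 4931) (nat_lit 111174643) (PL.cons (nat_lit 47843) (nat_lit 2288952649) (nat_lit 4930)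 (nat_lit 111126800) (PL.cons (nat_lit 47837) (nat_lit 2288378569) (nat_lit 4929) (nat_lit 111078963) (PL.cons (nat_lit 47819) (nat_lit 2286656761) (nat_lit 4928) (nat_lit 111031144) (PL.cons (nat_lit 47809) (nat_lit 2285700481) (nat_lit 4927) (nat_lit 110983335) (PL.cons (nat_lit 47807) (nat_lit 2285509249) (nat_lit 4926) (nat_lit 110935528) (PL.cons (nat_lit 47797) (nat_lit 2284553209) (nat_lit 4925) (nat_lit 110887731) (PL.cons (nat_lit 47791) (nat_lit 2283979681) (nat_lit 4924) (nat_lit 110839940) (PL.cons (nat_lit 47779) (nat_lit 2282832841) (nat_lit 4923) (nat_lit 110792161) (PL.cons (nat_lit 47777) (nat_lit 2282641729) (nat_lit 4922) (nat_lit 110744384) (PL.cons (nat_lit 47743) (nat_lit 2279394049) (nat_lit 4921) (nat_lit 110696641) (PL.cons (nat_lit 47741) (nat_lit 2279203081) (nat_lit 4920) (nat_lit 110648900) (PL.cons (nat_lit 47737) (nat_lit 2278821169) (nat_lit 4919) (nat_lit 110601163) (PL.cons (nat_lit 47717) (nat_lit 2276912089) (nat_lit 4918) (nat_lit 110553446)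 (PL.cons (nat_lit 47713) (nat_lit 2276530369) (nat_lit 4917) (nat_lit 110505733) (PL.cons (nat_lit 47711) (nat_lit 2276339521) (nat_lit 4916) (nat_lit 110458022) (PL.cons (nat_lit 47701) (nat_lit 2275385401) (nat_lit 4915) (nat_lit 110410321) (PL.cons (nat_lit 47699) (nat_lit 2275194601) (nat_lit 4914) (nat_lit 110362622) L21))))))))))))))))))))))))))))))))))))))))))))))))))))))))))))))))))))))))))))))))))))))))))))))))))))))))))))))))))))))))))))))))))))))))))))))))))))))))))))))))))))))))))))))))))))))))))))))))))))))))))))))))))))))))))))))))))))))))))))))))))))))))))))))))))))))))))))))))))))))))))))))))))))))))))))))))))))))))))))))))))))))))))))))))))))))))))))))))))))))))))))))))))))))))))))))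

def L23 : PL := (PL.cons (nat_lit 55933) (nat_lit 3128500489) (nat_lit 5677) (nat_lit 149887549) (PL.cons (nat_lit 55931) (nat_lit 3128276761) (nat_lit 5676) (nat_lit 149831618) (PL.cons (nat_lit 55927) (nat_lit 3127829329) (nat_lit 5675) (nat_lit 149775691) (PL.cons (nat_lit 55921) (nat_lit 3127158241) (nat_lit 5674) (nat_lit 149719770) (PL.cons (nat_lit 55903) (nat_lit 3125145409) (nat_lit 5673) (nat_lit 149663867) (PL.cons (nat_lit 55901) (nat_lit 3124921801) (nat_lit 5672) (nat_lit 149607966) (PL.cons (nat_lit 55897) (nat_lit 3124474609) (nat_lit 5671) (nat_lit 149552069) (PL.cons (nat_lit 55889) (nat_lit 3123580321) (nat_lit 5670) (nat_lit 149496180) (PL.cons (nat_lit 55871) (nat_lit 3121568641) (nat_lit 5669) (nat_lit 149440309) (PL.cons (nat_lit 55849) (nat_lit 3119110801) (nat_lit 5668) (nat_lit 149384460) (PL.cons (nat_lit 55843) (nat_lit 3118440649) (nat_lit 5667) (nat_lit 149328617) (PL.cons (nat_lit 55837) (nat_lit 3117770569) (nat_lit 5666) (nat_lit 149272780)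 (PL.cons (nat_lit 55829) (nat_lit 3116877241) (nat_lit 5665) (nat_lit 149216951) (PL.cons (nat_lit 55823) (nat_lit 3116207329) (nat_lit 5664) (nat_lit 149161128) (PL.cons (nat_lit 55819) (nat_lit 3115760761) (nat_lit 5663) (nat_lit 149105309) (PL.cons (nat_lit 55817) (nat_lit 3115537489) (nat_lit 5662) (nat_lit 149049492) (PL.cons (nat_lit 55813) (nat_lit 3115090969) (nat_lit 5661) (nat_lit 148993679) (PL.cons (nat_lit 55807) (nat_lit 3114421249) (nat_lit 5660) (nat_lit 148937872) (PL.cons (nat_lit 55799) (nat_lit 3113528401) (nat_lit 5659) (nat_lit 148882073) (PL.cons (nat_lit 55793) (nat_lit 3112858849) (nat_lit 5658) (nat_lit 148826280) (PL.cons (nat_lit 55787) (nat_lit 3112189369) (nat_lit 5657) (nat_lit 148770493) (PL.cons (nat_lit 55763) (nat_lit 3109512169) (nat_lit 5656) (nat_lit 148714730) (PL.cons (nat_lit 55733) (nat_lit 3106167289) (nat_lit 5655) (nat_lit 148658997) (PL.cons (nat_lit 55721) (nat_lit 3104829841) (nat_lit 5654) (nat_lit 148603276) (PL.cons (nat_lit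 55717) (nat_lit 3104384089) (nat_lit 5653) (nat_lit 148547559) (PL.cons (nat_lit 55711) (nat_lit 3103715521) (nat_lit 5652) (nat_lit 148491848) (PL.cons (nat_lit 55697) (nat_lit 3102155809) (nat_lit 5651) (nat_lit 148436151) (PL.cons (nat_lit 55691) (nat_lit 3101487481) (nat_lit 5650) (nat_lit 148380460) (PL.cons (nat_lit 55681) (nat_lit 3100373761) (nat_lit 5649) (nat_lit 148324779) (PL.cons (nat_lit 55673) (nat_lit 3099482929) (nat_lit 5648) (nat_lit 148269106) (PL.cons (nat_lit 55667) (nat_lit 3098814889) (nat_lit 5647) (nat_lit 148213439) (PL.cons (nat_lit 55663) (nat_lit 3098369569) (nat_lit 5646) (nat_lit 148157776) (PL.cons (nat_lit 55661) (nat_lit 3098146921) (nat_lit 5645) (nat_lit 148102115) (PL.cons (nat_lit 55639) (nat_lit 3095698321) (nat_lit 5644) (nat_lit 148046476) (PL.cons (nat_lit 55633) (nat_lit 3095030689) (nat_lit 5643) (nat_lit 147990843) (PL.cons (nat_lit 55631) (nat_lit 3094808161) (nat_lit 5642) (nat_lit 147935212) (PL.cons (nat_lit 55621) (nat_lit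 3093695641) (nat_lit 5641) (nat_lit 147879591) (PL.cons (nat_lit 55619) (nat_lit 3093473161) (nat_lit 5640) (nat_lit 147823972) (PL.cons (nat_lit 55609) (nat_lit 3092360881) (nat_lit 5639) (nat_lit 147768363) (PL.cons (nat_lit 55603) (nat_lit 3091693609) (nat_lit 5638) (nat_lit 147712760) (PL.cons (nat_lit 55589) (nat_lit 3090136921) (nat_lit 5637) (nat_lit 147657171) (PL.cons (nat_lit 55579) (nat_lit 3089025241) (nat_lit 5636) (nat_lit 147601592) (PL.cons (nat_lit 55547) (nat_lit 3085469209) (nat_lit 5635) (nat_lit 147546045) (PL.cons (nat_lit 55541) (nat_lit 3084802681) (nat_lit 5634) (nat_lit 147490504) (PL.cons (nat_lit 55529) (nat_lit 3083469841) (nat_lit 5633) (nat_lit 147434975) (PL.cons (nat_lit 55511) (nat_lit 3081471121) (nat_lit 5632) (nat_lit 147379464) (PL.cons (nat_lit 55501) (nat_lit 3080361001) (nat_lit 5631) (nat_lit 147323963) (PL.cons (nat_lit 55487) (nat_lit 3078807169) (nat_lit 5630) (nat_lit 147268476) (PL.cons (nat_lit 55469) (nat_lit 3076809961)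 (nat_lit 5629) (nat_lit 147213007) (PL.cons (nat_lit 55457) (nat_lit 3075478849) (nat_lit 5628) (nat_lit 147157550) (PL.cons (nat_lit 55441) (nat_lit 3073704481) (nat_lit 5627) (nat_lit 147102109) (PL.cons (nat_lit 55439) (nat_lit 3073482721) (nat_lit 5626) (nat_lit 147046670) (PL.cons (nat_lit 55411) (nat_lit 3070378921) (nat_lit 5625) (nat_lit 146991259) (PL.cons (nat_lit 55399) (nat_lit 3069049201) (nat_lit 5624) (nat_lit 146935860) (PL.cons (nat_lit 55381) (nat_lit 3067055161) (nat_lit 5623) (nat_lit 146880479) (PL.cons (nat_lit 55373) (nat_lit 3066169129) (nat_lit 5622) (nat_lit 146825106) (PL.cons (nat_lit 55351) (nat_lit 3063733201) (nat_lit 5621) (nat_lit 146769755) (PL.cons (nat_lit 55343) (nat_lit 3062847649) (nat_lit 5620) (nat_lit 146714412) (PL.cons (nat_lit 55339) (nat_lit 3062404921) (nat_lit 5619) (nat_lit 146659073) (PL.cons (nat_lit 55337) (nat_lit 3062183569) (nat_lit 5618) (nat_lit 146603736) (PL.cons (nat_lit 55333) (nat_lit 3061740889) (nat_lit 5617)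 (nat_lit 146548403) (PL.cons (nat_lit 55331) (nat_lit 3061519561) (nat_lit 5616) (nat_lit 146493072) (PL.cons (nat_lit 55313) (nat_lit 3059527969) (nat_lit 5615) (nat_lit 146437759) (PL.cons (nat_lit 55291) (nat_lit 3057094681) (nat_lit 5614) (nat_lit 146382468) (PL.cons (nat_lit 55259) (nat_lit 3053557081) (nat_lit 5613) (nat_lit 146327209) (PL.cons (nat_lit 55249) (nat_lit 3052452001) (nat_lit 5612) (nat_lit 146271960) (PL.cons (nat_lit 55243) (nat_lit 3051789049) (nat_lit 5611) (nat_lit 146216717) (PL.cons (nat_lit 55229) (nat_lit 3050242441) (nat_lit 5610) (nat_lit 146161488) (PL.cons (nat_lit 55219) (nat_lit 3049137961) (nat_lit 5609) (nat_lit 146106269) (PL.cons (nat_lit 55217) (nat_lit 3048917089) (nat_lit 5608) (nat_lit 146051052) (PL.cons (nat_lit 55213) (nat_lit 3048475369) (nat_lit 5607) (nat_lit 145995839) (PL.cons (nat_lit 55207) (nat_lit 3047812849) (nat_lit 5606) (nat_lit 145940632) (PL.cons (nat_lit 55201) (nat_lit 3047150401) (nat_lit 5605) (nat_lit 145885431)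 (PL.cons (nat_lit 55171) (nat_lit 3043839241) (nat_lit 5604) (nat_lit 145830260) (PL.cons (nat_lit 55163) (nat_lit 3042956569) (nat_lit 5603) (nat_lit 145775097) (PL.cons (nat_lit 55147) (nat_lit 3041191609) (nat_lit 5602) (nat_lit 145719950) (PL.cons (nat_lit 55127) (nat_lit 3038986129) (nat_lit 5601) (nat_lit 145664823) (PL.cons (nat_lit 55117) (nat_lit 3037883689) (nat_lit 5600) (nat_lit 145609706) (PL.cons (nat_lit 55109) (nat_lit 3037001881) (nat_lit 5599) (nat_lit 145554597) (PL.cons (nat_lit 55103) (nat_lit 3036340609) (nat_lit 5598) (nat_lit 145499494) (PL.cons (nat_lit 55079) (nat_lit 3033696241) (nat_lit 5597) (nat_lit 145444415) (PL.cons (nat_lit 55073) (nat_lit 3033035329) (nat_lit 5596) (nat_lit 145389342) (PL.cons (nat_lit 55061) (nat_lit 3031713721) (nat_lit 5595) (nat_lit 145334281) (PL.cons (nat_lit 55057) (nat_lit 3031273249) (nat_lit 5594) (nat_lit 145279224) (PL.cons (nat_lit 55051) (nat_lit 3030612601) (nat_lit 5593) (nat_lit 145224173) (PL.cons (nat_lit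 55049) (nat_lit 3030392401) (nat_lit 5592) (nat_lit 145169124) (PL.cons (nat_lit 55021) (nat_lit 3027310441) (nat_lit 5591) (nat_lit 145114103) (PL.cons (nat_lit 55009) (nat_lit 3025990081) (nat_lit 5590) (nat_lit 145059094) (PL.cons (nat_lit 55001) (nat_lit 3025110001) (nat_lit 5589) (nat_lit 145004093) (PL.cons (nat_lit 54983) (nat_lit 3023130289) (nat_lit 5588) (nat_lit 144949110) (PL.cons (nat_lit 54979) (nat_lit 3022690441) (nat_lit 5587) (nat_lit 144894131) (PL.cons (nat_lit 54973) (nat_lit 3022030729) (nat_lit 5586) (nat_lit 144839158) (PL.cons (nat_lit 54959) (nat_lit 3020491681) (nat_lit 5585) (nat_lit 144784199) (PL.cons (nat_lit 54949) (nat_lit 3019392601) (nat_lit 5584) (nat_lit 144729250) (PL.cons (nat_lit 54941) (nat_lit 3018513481) (nat_lit 5583) (nat_lit 144674309) (PL.cons (nat_lit 54919) (nat_lit 3016096561) (nat_lit 5582) (nat_lit 144619390) (PL.cons (nat_lit 54917) (nat_lit 3015876889) (nat_lit 5581) (nat_lit 144564473) (PL.cons (nat_lit 54907) (nat_lit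 3014778649) (nat_lit 5580) (nat_lit 144509566) (PL.cons (nat_lit 54881) (nat_lit 3011924161) (nat_lit 5579) (nat_lit 144454685) (PL.cons (nat_lit 54877) (nat_lit 3011485129) (nat_lit 5578) (nat_lit 144399808) (PL.cons (nat_lit 54869) (nat_lit 3010607161) (nat_lit 5577) (nat_lit 144344939) (PL.cons (nat_lit 54851) (nat_lit 3008632201) (nat_lit 5576) (nat_lit 144290088) (PL.cons (nat_lit 54833) (nat_lit 3006657889) (nat_lit 5575) (nat_lit 144235255) (PL.cons (nat_lit 54829) (nat_lit 3006219241) (nat_lit 5574) (nat_lit 144180426) (PL.cons (nat_lit 54799) (nat_lit 3002930401) (nat_lit 5573) (nat_lit 144125627) (PL.cons (nat_lit 54787) (nat_lit 3001615369) (nat_lit 5572) (nat_lit 144070840) (PL.cons (nat_lit 54779) (nat_lit 3000738841) (nat_lit 5571) (nat_lit 144016061) (PL.cons (nat_lit 54773) (nat_lit 3000081529) (nat_lit 5570) (nat_lit 143961288) (PL.cons (nat_lit 54767) (nat_lit 2999424289) (nat_lit 5569) (nat_lit 143906521) (PL.cons (nat_lit 54751) (nat_lit 2997672001)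 (nat_lit 5568) (nat_lit 143851770) (PL.cons (nat_lit 54727) (nat_lit 2995044529) (nat_lit 5567) (nat_lit 143797043) (PL.cons (nat_lit 54721) (nat_lit 2994387841) (nat_lit 5566) (nat_lit 143742322) (PL.cons (nat_lit 54713) (nat_lit 2993512369) (nat_lit 5565) (nat_lit 143687609) (PL.cons (nat_lit 54709) (nat_lit 2993074681) (nat_lit 5564) (nat_lit 143632900) (PL.cons (nat_lit 54679) (nat_lit 2989793041) (nat_lit 5563) (nat_lit 143578221) (PL.cons (nat_lit 54673) (nat_lit 2989136929) (nat_lit 5562) (nat_lit 143523548) (PL.cons (nat_lit 54667) (nat_lit 2988480889) (nat_lit 5561) (nat_lit 143468881) (PL.cons (nat_lit 54647) (nat_lit 2986294609) (nat_lit 5560) (nat_lit 143414234) (PL.cons (nat_lit 54631) (nat_lit 2984546161) (nat_lit 5559) (nat_lit 143359603) (PL.cons (nat_lit 54629) (nat_lit 2984327641) (nat_lit 5558) (nat_lit 143304974) (PL.cons (nat_lit 54623) (nat_lit 2983672129) (nat_lit 5557) (nat_lit 143250351) (PL.cons (nat_lit 54617) (nat_lit 2983016689) (nat_lit 5556)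 (nat_lit 143195734) (PL.cons (nat_lit 54601) (nat_lit 2981269201) (nat_lit 5555) (nat_lit 143141133) (PL.cons (nat_lit 54583) (nat_lit 2979303889) (nat_lit 5554) (nat_lit 143086550) (PL.cons (nat_lit 54581) (nat_lit 2979085561) (nat_lit 5553) (nat_lit 143031969) (PL.cons (nat_lit 54577) (nat_lit 2978648929) (nat_lit 5552) (nat_lit 142977392) (PL.cons (nat_lit 54563) (nat_lit 2977120969) (nat_lit 5551) (nat_lit 142922829) (PL.cons (nat_lit 54559) (nat_lit 2976684481) (nat_lit 5550) (nat_lit 142868270) (PL.cons (nat_lit 54547) (nat_lit 2975375209) (nat_lit 5549) (nat_lit 142813723) (PL.cons (nat_lit 54541) (nat_lit 2974720681) (nat_lit 5548) (nat_lit 142759182) (PL.cons (nat_lit 54539) (nat_lit 2974502521) (nat_lit 5547) (nat_lit 142704643) (PL.cons (nat_lit 54521) (nat_lit 2972539441) (nat_lit 5546) (nat_lit 142650122) (PL.cons (nat_lit 54517) (nat_lit 2972103289) (nat_lit 5545) (nat_lit 142595605) (PL.cons (nat_lit 54503) (nat_lit 2970577009) (nat_lit 5544) (nat_lit 142541102)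 (PL.cons (nat_lit 54499) (nat_lit 2970141001) (nat_lit 5543) (nat_lit 142486603) (PL.cons (nat_lit 54497) (nat_lit 2969923009) (nat_lit 5542) (nat_lit 142432106) (PL.cons (nat_lit 54493) (nat_lit 2969487049) (nat_lit 5541) (nat_lit 142377613) (PL.cons (nat_lit 54469) (nat_lit 2966871961) (nat_lit 5540) (nat_lit 142323144) (PL.cons (nat_lit 54449) (nat_lit 2964693601) (nat_lit 5539) (nat_lit 142268695) (PL.cons (nat_lit 54443) (nat_lit 2964040249) (nat_lit 5538) (nat_lit 142214252) (PL.cons (nat_lit 54437) (nat_lit 2963386969) (nat_lit 5537) (nat_lit 142159815) (PL.cons (nat_lit 54421) (nat_lit 2961645241) (nat_lit 5536) (nat_lit 142105394) (PL.cons (nat_lit 54419) (nat_lit 2961427561) (nat_lit 5535) (nat_lit 142050975) (PL.cons (nat_lit 54413) (nat_lit 2960774569) (nat_lit 5534) (nat_lit 141996562) (PL.cons (nat_lit 54409) (nat_lit 2960339281) (nat_lit 5533) (nat_lit 141942153) (PL.cons (nat_lit 54403) (nat_lit 2959686409) (nat_lit 5532) (nat_lit 141887750) (PL.cons (nat_lit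 54401) (nat_lit 2959468801) (nat_lit 5531) (nat_lit 141833349) (PL.cons (nat_lit 54377) (nat_lit 2956858129) (nat_lit 5530) (nat_lit 141778972) (PL.cons (nat_lit 54371) (nat_lit 2956205641) (nat_lit 5529) (nat_lit 141724601) (PL.cons (nat_lit 54367) (nat_lit 2955770689) (nat_lit 5528) (nat_lit 141670234) (PL.cons (nat_lit 54361) (nat_lit 2955118321) (nat_lit 5527) (nat_lit 141615873) (PL.cons (nat_lit 54347) (nat_lit 2953596409) (nat_lit 5526) (nat_lit 141561526) (PL.cons (nat_lit 54331) (nat_lit 2951857561) (nat_lit 5525) (nat_lit 141507195) (PL.cons (nat_lit 54323) (nat_lit 2950988329) (nat_lit 5524) (nat_lit 141452872) (PL.cons (nat_lit 54319) (nat_lit 2950553761) (nat_lit 5523) (nat_lit 141398553) (PL.cons (nat_lit 54311) (nat_lit 2949684721) (nat_lit 5522) (nat_lit 141344242) (PL.cons (nat_lit 54293) (nat_lit 2947729849) (nat_lit 5521) (nat_lit 141289949) (PL.cons (nat_lit 54287) (nat_lit 2947078369) (nat_lit 5520) (nat_lit 141235662) (PL.cons (nat_lit 54277) (nat_lit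 2945992729) (nat_lit 5519) (nat_lit 141181385) (PL.cons (nat_lit 54269) (nat_lit 2945124361) (nat_lit 5518) (nat_lit 141127116) (PL.cons (nat_lit 54251) (nat_lit 2943171001) (nat_lit 5517) (nat_lit 141072865) (PL.cons (nat_lit 54217) (nat_lit 2939483089) (nat_lit 5516) (nat_lit 141018648) (PL.cons (nat_lit 54193) (nat_lit 2936881249) (nat_lit 5515) (nat_lit 140964455) (PL.cons (nat_lit 54181) (nat_lit 2935580761) (nat_lit 5514) (nat_lit 140910274) (PL.cons (nat_lit 54167) (nat_lit 2934063889) (nat_lit 5513) (nat_lit 140856107) (PL.cons (nat_lit 54163) (nat_lit 2933630569) (nat_lit 5512) (nat_lit 140801944) (PL.cons (nat_lit 54151) (nat_lit 2932330801) (nat_lit 5511) (nat_lit 140747793) (PL.cons (nat_lit 54139) (nat_lit 2931031321) (nat_lit 5510) (nat_lit 140693654) (PL.cons (nat_lit 54133) (nat_lit 2930381689) (nat_lit 5509) (nat_lit 140639521) (PL.cons (nat_lit 54121) (nat_lit 2929082641) (nat_lit 5508) (nat_lit 140585400) (PL.cons (nat_lit 54101) (nat_lit 2926918201)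 (nat_lit 5507) (nat_lit 140531299) (PL.cons (nat_lit 54091) (nat_lit 2925836281) (nat_lit 5506) (nat_lit 140477208) (PL.cons (nat_lit 54083) (nat_lit 2924970889) (nat_lit 5505) (nat_lit 140423125) (PL.cons (nat_lit 54059) (nat_lit 2922375481) (nat_lit 5504) (nat_lit 140369066) (PL.cons (nat_lit 54049) (nat_lit 2921294401) (nat_lit 5503) (nat_lit 140315017) (PL.cons (nat_lit 54037) (nat_lit 2919997369) (nat_lit 5502) (nat_lit 140260980) (PL.cons (nat_lit 54013) (nat_lit 2917404169) (nat_lit 5501) (nat_lit 140206967) (PL.cons (nat_lit 54011) (nat_lit 2917188121) (nat_lit 5500) (nat_lit 140152956) (PL.cons (nat_lit 54001) (nat_lit 2916108001) (nat_lit 5499) (nat_lit 140098955) (PL.cons (nat_lit 53993) (nat_lit 2915244049) (nat_lit 5498) (nat_lit 140044962) (PL.cons (nat_lit 53987) (nat_lit 2914596169) (nat_lit 5497) (nat_lit 139990975) (PL.cons (nat_lit 53959) (nat_lit 2911573681) (nat_lit 5496) (nat_lit 139937016) (PL.cons (nat_lit 53951) (nat_lit 2910710401) (nat_lit 5495)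 (nat_lit 139883065) (PL.cons (nat_lit 53939) (nat_lit 2909415721) (nat_lit 5494) (nat_lit 139829126) (PL.cons (nat_lit 53927) (nat_lit 2908121329) (nat_lit 5493) (nat_lit 139775199) (PL.cons (nat_lit 53923) (nat_lit 2907689929) (nat_lit 5492) (nat_lit 139721276) (PL.cons (nat_lit 53917) (nat_lit 2907042889) (nat_lit 5491) (nat_lit 139667359) (PL.cons (nat_lit 53899) (nat_lit 2905102201) (nat_lit 5490) (nat_lit 139613460) (PL.cons (nat_lit 53897) (nat_lit 2904886609) (nat_lit 5489) (nat_lit 139559563) (PL.cons (nat_lit 53891) (nat_lit 2904239881) (nat_lit 5488) (nat_lit 139505672) (PL.cons (nat_lit 53887) (nat_lit 2903808769) (nat_lit 5487) (nat_lit 139451785) (PL.cons (nat_lit 53881) (nat_lit 2903162161) (nat_lit 5486) (nat_lit 139397904) (PL.cons (nat_lit 53861) (nat_lit 2901007321) (nat_lit 5485) (nat_lit 139344043) (PL.cons (nat_lit 53857) (nat_lit 2900576449) (nat_lit 5484) (nat_lit 139290186) (PL.cons (nat_lit 53849) (nat_lit 2899714801) (nat_lit 5483) (nat_lit 139236337)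 (PL.cons (nat_lit 53831) (nat_lit 2897776561) (nat_lit 5482) (nat_lit 139182506) (PL.cons (nat_lit 53819) (nat_lit 2896484761) (nat_lit 5481) (nat_lit 139128687) (PL.cons (nat_lit 53813) (nat_lit 2895838969) (nat_lit 5480) (nat_lit 139074874) (PL.cons (nat_lit 53791) (nat_lit 2893471681) (nat_lit 5479) (nat_lit 139021083) (PL.cons (nat_lit 53783) (nat_lit 2892611089) (nat_lit 5478) (nat_lit 138967300) (PL.cons (nat_lit 53777) (nat_lit 2891965729) (nat_lit 5477) (nat_lit 138913523) (PL.cons (nat_lit 53773) (nat_lit 2891535529) (nat_lit 5476) (nat_lit 138859750) (PL.cons (nat_lit 53759) (nat_lit 2890030081) (nat_lit 5475) (nat_lit 138805991) (PL.cons (nat_lit 53731) (nat_lit 2887020361) (nat_lit 5474) (nat_lit 138752260) (PL.cons (nat_lit 53719) (nat_lit 2885730961) (nat_lit 5473) (nat_lit 138698541) (PL.cons (nat_lit 53717) (nat_lit 2885516089) (nat_lit 5472) (nat_lit 138644824) (PL.cons (nat_lit 53699) (nat_lit 2883582601) (nat_lit 5471) (nat_lit 138591125) (PL.cons (nat_lit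 53693) (nat_lit 2882938249) (nat_lit 5470) (nat_lit 138537432) (PL.cons (nat_lit 53681) (nat_lit 2881649761) (nat_lit 5469) (nat_lit 138483751) (PL.cons (nat_lit 53657) (nat_lit 2879073649) (nat_lit 5468) (nat_lit 138430094) (PL.cons (nat_lit 53653) (nat_lit 2878644409) (nat_lit 5467) (nat_lit 138376441) (PL.cons (nat_lit 53639) (nat_lit 2877142321) (nat_lit 5466) (nat_lit 138322802) (PL.cons (nat_lit 53633) (nat_lit 2876498689) (nat_lit 5465) (nat_lit 138269169) (PL.cons (nat_lit 53629) (nat_lit 2876069641) (nat_lit 5464) (nat_lit 138215540) (PL.cons (nat_lit 53623) (nat_lit 2875426129) (nat_lit 5463) (nat_lit 138161917) (PL.cons (nat_lit 53617) (nat_lit 2874782689) (nat_lit 5462) (nat_lit 138108300) (PL.cons (nat_lit 53611) (nat_lit 2874139321) (nat_lit 5461) (nat_lit 138054689) (PL.cons (nat_lit 53609) (nat_lit 2873924881) (nat_lit 5460) (nat_lit 138001080) (PL.cons (nat_lit 53597) (nat_lit 2872638409) (nat_lit 5459) (nat_lit 137947483) (PL.cons (nat_lit 53593) (nat_lit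 2872209649) (nat_lit 5458) (nat_lit 137893890) (PL.cons (nat_lit 53591) (nat_lit 2871995281) (nat_lit 5457) (nat_lit 137840299) (PL.cons (nat_lit 53569) (nat_lit 2869637761) (nat_lit 5456) (nat_lit 137786730) (PL.cons (nat_lit 53551) (nat_lit 2867709601) (nat_lit 5455) (nat_lit 137733179) (PL.cons (nat_lit 53549) (nat_lit 2867495401) (nat_lit 5454) (nat_lit 137679630) (PL.cons (nat_lit 53527) (nat_lit 2865139729) (nat_lit 5453) (nat_lit 137626103) (PL.cons (nat_lit 53507) (nat_lit 2862999049) (nat_lit 5452) (nat_lit 137572596) (PL.cons (nat_lit 53503) (nat_lit 2862571009) (nat_lit 5451) (nat_lit 137519093) (PL.cons (nat_lit 53479) (nat_lit 2860003441) (nat_lit 5450) (nat_lit 137465614) (PL.cons (nat_lit 53453) (nat_lit 2857223209) (nat_lit 5449) (nat_lit 137412161) (PL.cons (nat_lit 53441) (nat_lit 2855940481) (nat_lit 5448) (nat_lit 137358720) (PL.cons (nat_lit 53437) (nat_lit 2855512969) (nat_lit 5447) (nat_lit 137305283) (PL.cons (nat_lit 53419) (nat_lit 2853589561)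 (nat_lit 5446) (nat_lit 137251864) (PL.cons (nat_lit 53411) (nat_lit 2852734921) (nat_lit 5445) (nat_lit 137198453) (PL.cons (nat_lit 53407) (nat_lit 2852307649) (nat_lit 5444) (nat_lit 137145046) (PL.cons (nat_lit 53401) (nat_lit 2851666801) (nat_lit 5443) (nat_lit 137091645) (PL.cons (nat_lit 53381) (nat_lit 2849531161) (nat_lit 5442) (nat_lit 137038264) (PL.cons (nat_lit 53377) (nat_lit 2849104129) (nat_lit 5441) (nat_lit 136984887) (PL.cons (nat_lit 53359) (nat_lit 2847182881) (nat_lit 5440) (nat_lit 136931528) (PL.cons (nat_lit 53353) (nat_lit 2846542609) (nat_lit 5439) (nat_lit 136878175) (PL.cons (nat_lit 53327) (nat_lit 2843768929) (nat_lit 5438) (nat_lit 136824848) (PL.cons (nat_lit 53323) (nat_lit 2843342329) (nat_lit 5437) (nat_lit 136771525) (PL.cons (nat_lit 53309) (nat_lit 2841849481) (nat_lit 5436) (nat_lit 136718216) (PL.cons (nat_lit 53299) (nat_lit 2840783401) (nat_lit 5435) (nat_lit 136664917) (PL.cons (nat_lit 53281) (nat_lit 2838864961) (nat_lit 5434)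 (nat_lit 136611636) (PL.cons (nat_lit 53279) (nat_lit 2838651841) (nat_lit 5433) (nat_lit 136558357) (PL.cons (nat_lit 53269) (nat_lit 2837586361) (nat_lit 5432) (nat_lit 136505088) (PL.cons (nat_lit 53267) (nat_lit 2837373289) (nat_lit 5431) (nat_lit 136451821) (PL.cons (nat_lit 53239) (nat_lit 2834391121) (nat_lit 5430) (nat_lit 136398582) (PL.cons (nat_lit 53233) (nat_lit 2833752289) (nat_lit 5429) (nat_lit 136345349) (PL.cons (nat_lit 53231) (nat_lit 2833539361) (nat_lit 5428) (nat_lit 136292118) (PL.cons (nat_lit 53201) (nat_lit 2830346401) (nat_lit 5427) (nat_lit 136238917) (PL.cons (nat_lit 53197) (nat_lit 2829920809) (nat_lit 5426) (nat_lit 136185720) (PL.cons (nat_lit 53189) (nat_lit 2829069721) (nat_lit 5425) (nat_lit 136132531) (PL.cons (nat_lit 53173) (nat_lit 2827367929) (nat_lit 5424) (nat_lit 136079358) (PL.cons (nat_lit 53171) (nat_lit 2827155241) (nat_lit 5423) (nat_lit 136026187) (PL.cons (nat_lit 53161) (nat_lit 2826091921) (nat_lit 5422) (nat_lit 135973026)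 (PL.cons (nat_lit 53149) (nat_lit 2824816201) (nat_lit 5421) (nat_lit 135919877) (PL.cons (nat_lit 53147) (nat_lit 2824603609) (nat_lit 5420) (nat_lit 135866730) (PL.cons (nat_lit 53129) (nat_lit 2822690641) (nat_lit 5419) (nat_lit 135813601) (PL.cons (nat_lit 53117) (nat_lit 2821415689) (nat_lit 5418) (nat_lit 135760484) (PL.cons (nat_lit 53113) (nat_lit 2820990769) (nat_lit 5417) (nat_lit 135707371) (PL.cons (nat_lit 53101) (nat_lit 2819716201) (nat_lit 5416) (nat_lit 135654270) (PL.cons (nat_lit 53093) (nat_lit 2818866649) (nat_lit 5415) (nat_lit 135601177) (PL.cons (nat_lit 53089) (nat_lit 2818441921) (nat_lit 5414) (nat_lit 135548088) (PL.cons (nat_lit 53087) (nat_lit 2818229569) (nat_lit 5413) (nat_lit 135495001) (PL.cons (nat_lit 53077) (nat_lit 2817167929) (nat_lit 5412) (nat_lit 135441924) (PL.cons (nat_lit 53069) (nat_lit 2816318761) (nat_lit 5411) (nat_lit 135388855) (PL.cons (nat_lit 53051) (nat_lit 2814408601) (nat_lit 5410) (nat_lit 135335804) (PL.cons (nat_lit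 53047) (nat_lit 2813984209) (nat_lit 5409) (nat_lit 135282757) (PL.cons (nat_lit 53017) (nat_lit 2810802289) (nat_lit 5408) (nat_lit 135229740) (PL.cons (nat_lit 53003) (nat_lit 2809318009) (nat_lit 5407) (nat_lit 135176737) (PL.cons (nat_lit 52999) (nat_lit 2808894001) (nat_lit 5406) (nat_lit 135123738) (PL.cons (nat_lit 52981) (nat_lit 2806986361) (nat_lit 5405) (nat_lit 135070757) (PL.cons (nat_lit 52973) (nat_lit 2806138729) (nat_lit 5404) (nat_lit 135017784) (PL.cons (nat_lit 52967) (nat_lit 2805503089) (nat_lit 5403) (nat_lit 134964817) (PL.cons (nat_lit 52963) (nat_lit 2805079369) (nat_lit 5402) (nat_lit 134911854) (PL.cons (nat_lit 52957) (nat_lit 2804443849) (nat_lit 5401) (nat_lit 134858897) (PL.cons (nat_lit 52951) (nat_lit 2803808401) (nat_lit 5400) (nat_lit 134805946) (PL.cons (nat_lit 52937) (nat_lit 2802325969) (nat_lit 5399) (nat_lit 134753009) (PL.cons (nat_lit 52919) (nat_lit 2800420561) (nat_lit 5398) (nat_lit 134700090) (PL.cons (nat_lit 52903) (nat_lit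 2798727409) (nat_lit 5397) (nat_lit 134647187) (PL.cons (nat_lit 52901) (nat_lit 2798515801) (nat_lit 5396) (nat_lit 134594286) (PL.cons (nat_lit 52889) (nat_lit 2797246321) (nat_lit 5395) (nat_lit 134541397) (PL.cons (nat_lit 52883) (nat_lit 2796611689) (nat_lit 5394) (nat_lit 134488514) (PL.cons (nat_lit 52879) (nat_lit 2796188641) (nat_lit 5393) (nat_lit 134435635) (PL.cons (nat_lit 52861) (nat_lit 2794285321) (nat_lit 5392) (nat_lit 134382774) (PL.cons (nat_lit 52859) (nat_lit 2794073881) (nat_lit 5391) (nat_lit 134329915) (PL.cons (nat_lit 52837) (nat_lit 2791748569) (nat_lit 5390) (nat_lit 134277078) (PL.cons (nat_lit 52817) (nat_lit 2789635489) (nat_lit 5389) (nat_lit 134224261) (PL.cons (nat_lit 52813) (nat_lit 2789212969) (nat_lit 5388) (nat_lit 134171448) (PL.cons (nat_lit 52807) (nat_lit 2788579249) (nat_lit 5387) (nat_lit 134118641) (PL.cons (nat_lit 52783) (nat_lit 2786045089) (nat_lit 5386) (nat_lit 134065858) (PL.cons (nat_lit 52769) (nat_lit 2784567361)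 (nat_lit 5385) (nat_lit 134013089) (PL.cons (nat_lit 52757) (nat_lit 2783301049) (nat_lit 5384) (nat_lit 133960332) (PL.cons (nat_lit 52747) (nat_lit 2782246009) (nat_lit 5383) (nat_lit 133907585) (PL.cons (nat_lit 52733) (nat_lit 2780769289) (nat_lit 5382) (nat_lit 133854852) (PL.cons (nat_lit 52727) (nat_lit 2780136529) (nat_lit 5381) (nat_lit 133802125) (PL.cons (nat_lit 52721) (nat_lit 2779503841) (nat_lit 5380) (nat_lit 133749404) (PL.cons (nat_lit 52711) (nat_lit 2778449521) (nat_lit 5379) (nat_lit 133696693) (PL.cons (nat_lit 52709) (nat_lit 2778238681) (nat_lit 5378) (nat_lit 133643984) (PL.cons (nat_lit 52697) (nat_lit 2776973809) (nat_lit 5377) (nat_lit 133591287) (PL.cons (nat_lit 52691) (nat_lit 2776341481) (nat_lit 5376) (nat_lit 133538596) (PL.cons (nat_lit 52673) (nat_lit 2774444929) (nat_lit 5375) (nat_lit 133485923) (PL.cons (nat_lit 52667) (nat_lit 2773812889) (nat_lit 5374) (nat_lit 133433256) (PL.cons (nat_lit 52639) (nat_lit 2770864321) (nat_lit 5373)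 (nat_lit 133380617) (PL.cons (nat_lit 52631) (nat_lit 2770022161) (nat_lit 5372) (nat_lit 133327986) (PL.cons (nat_lit 52627) (nat_lit 2769601129) (nat_lit 5371) (nat_lit 133275359) (PL.cons (nat_lit 52609) (nat_lit 2767706881) (nat_lit 5370) (nat_lit 133222750) (PL.cons (nat_lit 52583) (nat_lit 2764971889) (nat_lit 5369) (nat_lit 133170167) (PL.cons (nat_lit 52579) (nat_lit 2764551241) (nat_lit 5368) (nat_lit 133117588) (PL.cons (nat_lit 52571) (nat_lit 2763710041) (nat_lit 5367) (nat_lit 133065017) (PL.cons (nat_lit 52567) (nat_lit 2763289489) (nat_lit 5366) (nat_lit 133012450) (PL.cons (nat_lit 52561) (nat_lit 2762658721) (nat_lit 5365) (nat_lit 132959889) (PL.cons (nat_lit 52553) (nat_lit 2761817809) (nat_lit 5364) (nat_lit 132907336) (PL.cons (nat_lit 52543) (nat_lit 2760766849) (nat_lit 5363) (nat_lit 132854793) (PL.cons (nat_lit 52541) (nat_lit 2760556681) (nat_lit 5362) (nat_lit 132802252) (PL.cons (nat_lit 52529) (nat_lit 2759295841) (nat_lit 5361) (nat_lit 132749723)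 (PL.cons (nat_lit 52517) (nat_lit 2758035289) (nat_lit 5360) (nat_lit 132697206) (PL.cons (nat_lit 52511) (nat_lit 2757405121) (nat_lit 5359) (nat_lit 132644695) (PL.cons (nat_lit 52501) (nat_lit 2756355001) (nat_lit 5358) (nat_lit 132592194) (PL.cons (nat_lit 52489) (nat_lit 2755095121) (nat_lit 5357) (nat_lit 132539705) (PL.cons (nat_lit 52457) (nat_lit 2751736849) (nat_lit 5356) (nat_lit 132487248) (PL.cons (nat_lit 52453) (nat_lit 2751317209) (nat_lit 5355) (nat_lit 132434795) (PL.cons (nat_lit 52433) (nat_lit 2749219489) (nat_lit 5354) (nat_lit 132382362) (PL.cons (nat_lit 52391) (nat_lit 2744816881) (nat_lit 5353) (nat_lit 132329971) (PL.cons (nat_lit 52387) (nat_lit 2744397769) (nat_lit 5352) (nat_lit 132277584) (PL.cons (nat_lit 52379) (nat_lit 2743559641) (nat_lit 5351) (nat_lit 132225205) (PL.cons (nat_lit 52369) (nat_lit 2742512161) (nat_lit 5350) (nat_lit 132172836) (PL.cons (nat_lit 52363) (nat_lit 2741883769) (nat_lit 5349) (nat_lit 132120473) (PL.cons (nat_lit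 52361) (nat_lit 2741674321) (nat_lit 5348) (nat_lit 132068112) (PL.cons (nat_lit 52321) (nat_lit 2737487041) (nat_lit 5347) (nat_lit 132015791) (PL.cons (nat_lit 52313) (nat_lit 2736649969) (nat_lit 5346) (nat_lit 131963478) (PL.cons (nat_lit 52301) (nat_lit 2735394601) (nat_lit 5345) (nat_lit 131911177) (PL.cons (nat_lit 52291) (nat_lit 2734348681) (nat_lit 5344) (nat_lit 131858886) (PL.cons (nat_lit 52289) (nat_lit 2734139521) (nat_lit 5343) (nat_lit 131806597) (PL.cons (nat_lit 52267) (nat_lit 2731839289) (nat_lit 5342) (nat_lit 131754330) (PL.cons (nat_lit 52259) (nat_lit 2731003081) (nat_lit 5341) (nat_lit 131702071) (PL.cons (nat_lit 52253) (nat_lit 2730376009) (nat_lit 5340) (nat_lit 131649818) (PL.cons (nat_lit 52249) (nat_lit 2729958001) (nat_lit 5339) (nat_lit 131597569) (PL.cons (nat_lit 52237) (nat_lit 2728704169) (nat_lit 5338) (nat_lit 131545332) (PL.cons (nat_lit 52223) (nat_lit 2727241729) (nat_lit 5337) (nat_lit 131493109) (PL.cons (nat_lit 52201) (nat_lit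 2724944401) (nat_lit 5336) (nat_lit 131440908) (PL.cons (nat_lit 52189) (nat_lit 2723691721) (nat_lit 5335) (nat_lit 131388719) (PL.cons (nat_lit 52183) (nat_lit 2723065489) (nat_lit 5334) (nat_lit 131336536) (PL.cons (nat_lit 52181) (nat_lit 2722856761) (nat_lit 5333) (nat_lit 131284355) (PL.cons (nat_lit 52177) (nat_lit 2722439329) (nat_lit 5332) (nat_lit 131232178) (PL.cons (nat_lit 52163) (nat_lit 2720978569) (nat_lit 5331) (nat_lit 131180015) (PL.cons (nat_lit 52153) (nat_lit 2719935409) (nat_lit 5330) (nat_lit 131127862) (PL.cons (nat_lit 52147) (nat_lit 2719309609) (nat_lit 5329) (nat_lit 131075715) (PL.cons (nat_lit 52127) (nat_lit 2717224129) (nat_lit 5328) (nat_lit 131023588) (PL.cons (nat_lit 52121) (nat_lit 2716598641) (nat_lit 5327) (nat_lit 130971467) (PL.cons (nat_lit 52103) (nat_lit 2714722609) (nat_lit 5326) (nat_lit 130919364) (PL.cons (nat_lit 52081) (nat_lit 2712430561) (nat_lit 5325) (nat_lit 130867283) (PL.cons (nat_lit 52069) (nat_lit 2711180761)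 (nat_lit 5324) (nat_lit 130815214) (PL.cons (nat_lit 52067) (nat_lit 2710972489) (nat_lit 5323) (nat_lit 130763147) (PL.cons (nat_lit 52057) (nat_lit 2709931249) (nat_lit 5322) (nat_lit 130711090) (PL.cons (nat_lit 52051) (nat_lit 2709306601) (nat_lit 5321) (nat_lit 130659039) (PL.cons (nat_lit 52027) (nat_lit 2706808729) (nat_lit 5320) (nat_lit 130607012) (PL.cons (nat_lit 52021) (nat_lit 2706184441) (nat_lit 5319) (nat_lit 130554991) (PL.cons (nat_lit 52009) (nat_lit 2704936081) (nat_lit 5318) (nat_lit 130502982) (PL.cons (nat_lit 51991) (nat_lit 2703064081) (nat_lit 5317) (nat_lit 130450991) (PL.cons (nat_lit 51977) (nat_lit 2701608529) (nat_lit 5316) (nat_lit 130399014) (PL.cons (nat_lit 51973) (nat_lit 2701192729) (nat_lit 5315) (nat_lit 130347041) (PL.cons (nat_lit 51971) (nat_lit 2700984841) (nat_lit 5314) (nat_lit 130295070) (PL.cons (nat_lit 51949) (nat_lit 2698698601) (nat_lit 5313) (nat_lit 130243121) (PL.cons (nat_lit 51941) (nat_lit 2697867481) (nat_lit 5312)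 (nat_lit 130191180) (PL.cons (nat_lit 51929) (nat_lit 2696621041) (nat_lit 5311) (nat_lit 130139251) (PL.cons (nat_lit 51913) (nat_lit 2694959569) (nat_lit 5310) (nat_lit 130087338) (PL.cons (nat_lit 51907) (nat_lit 2694336649) (nat_lit 5309) (nat_lit 130035431) (PL.cons (nat_lit 51899) (nat_lit 2693506201) (nat_lit 5308) (nat_lit 129983532) (PL.cons (nat_lit 51893) (nat_lit 2692883449) (nat_lit 5307) (nat_lit 129931639) (PL.cons (nat_lit 51871) (nat_lit 2690600641) (nat_lit 5306) (nat_lit 129879768) (PL.cons (nat_lit 51869) (nat_lit 2690393161) (nat_lit 5305) (nat_lit 129827899) (PL.cons (nat_lit 51859) (nat_lit 2689355881) (nat_lit 5304) (nat_lit 129776040) (PL.cons (nat_lit 51853) (nat_lit 2688733609) (nat_lit 5303) (nat_lit 129724187) (PL.cons (nat_lit 51839) (nat_lit 2687281921) (nat_lit 5302) (nat_lit 129672348) (PL.cons (nat_lit 51829) (nat_lit 2686245241) (nat_lit 5301) (nat_lit 129620519) (PL.cons (nat_lit 51827) (nat_lit 2686037929) (nat_lit 5300) (nat_lit 129568692)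 (PL.cons (nat_lit 51817) (nat_lit 2685001489) (nat_lit 5299) (nat_lit 129516875) (PL.cons (nat_lit 51803) (nat_lit 2683550809) (nat_lit 5298) (nat_lit 129465072) (PL.cons (nat_lit 51797) (nat_lit 2682929209) (nat_lit 5297) (nat_lit 129413275) (PL.cons (nat_lit 51787) (nat_lit 2681893369) (nat_lit 5296) (nat_lit 129361488) L22))))))))))))))))))))))))))))))))))))))))))))))))))))))))))))))))))))))))))))))))))))))))))))))))))))))))))))))))))))))))))))))))))))))))))))))))))))))))))))))))))))))))))))))))))))))))))))))))))))))))))))))))))))))))))))))))))))))))))))))))))))))))))))))))))))))))))))))))))))))))))))))))))))))))))))))))))))))))))))))))))))))))))))))))))))))))))))))))))))))))))))))))))))))))))))))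

def L24 : PL := (PL.cons (nat_lit 60037) (nat_lit 3604441369) (nat_lit 6059) (nat_lit 172028795) (PL.cons (nat_lit 60029) (nat_lit 3603480841) (nat_lit 6058) (nat_lit 171968766) (PL.cons (nat_lit 60017) (nat_lit 3602040289) (nat_lit 6057) (nat_lit 171908749) (PL.cons (nat_lit 60013) (nat_lit 3601560169) (nat_lit 6056) (nat_lit 171848736) (PL.cons (nat_lit 59999) (nat_lit 3599880001) (nat_lit 6055) (nat_lit 171788737) (PL.cons (nat_lit 59981) (nat_lit 3597720361) (nat_lit 6054) (nat_lit 171728756) (PL.cons (nat_lit 59971) (nat_lit 3596520841) (nat_lit 6053) (nat_lit 171668785) (PL.cons (nat_lit 59957) (nat_lit 3594841849) (nat_lit 6052) (nat_lit 171608828) (PL.cons (nat_lit 59951) (nat_lit 3594122401) (nat_lit 6051) (nat_lit 171548877) (PL.cons (nat_lit 59929) (nat_lit 3591485041) (nat_lit 6050) (nat_lit 171488948) (PL.cons (nat_lit 59921) (nat_lit 3590526241) (nat_lit 6049) (nat_lit 171429027) (PL.cons (nat_lit 59887) (nat_lit 3586452769) (nat_lit 6048) (nat_lit 171369140)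 (PL.cons (nat_lit 59879) (nat_lit 3585494641) (nat_lit 6047) (nat_lit 171309261) (PL.cons (nat_lit 59863) (nat_lit 3583578769) (nat_lit 6046) (nat_lit 171249398) (PL.cons (nat_lit 59833) (nat_lit 3579987889) (nat_lit 6045) (nat_lit 171189565) (PL.cons (nat_lit 59809) (nat_lit 3577116481) (nat_lit 6044) (nat_lit 171129756) (PL.cons (nat_lit 59797) (nat_lit 3575681209) (nat_lit 6043) (nat_lit 171069959) (PL.cons (nat_lit 59791) (nat_lit 3574963681) (nat_lit 6042) (nat_lit 171010168) (PL.cons (nat_lit 59779) (nat_lit 3573528841) (nat_lit 6041) (nat_lit 170950389) (PL.cons (nat_lit 59771) (nat_lit 3572572441) (nat_lit 6040) (nat_lit 170890618) (PL.cons (nat_lit 59753) (nat_lit 3570421009) (nat_lit 6039) (nat_lit 170830865) (PL.cons (nat_lit 59747) (nat_lit 3569704009) (nat_lit 6038) (nat_lit 170771118) (PL.cons (nat_lit 59743) (nat_lit 3569226049) (nat_lit 6037) (nat_lit 170711375) (PL.cons (nat_lit 59729) (nat_lit 3567553441) (nat_lit 6036) (nat_lit 170651646) (PL.cons (nat_lit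 59723) (nat_lit 3566836729) (nat_lit 6035) (nat_lit 170591923) (PL.cons (nat_lit 59707) (nat_lit 3564925849) (nat_lit 6034) (nat_lit 170532216) (PL.cons (nat_lit 59699) (nat_lit 3563970601) (nat_lit 6033) (nat_lit 170472517) (PL.cons (nat_lit 59693) (nat_lit 3563254249) (nat_lit 6032) (nat_lit 170412824) (PL.cons (nat_lit 59671) (nat_lit 3560628241) (nat_lit 6031) (nat_lit 170353153) (PL.cons (nat_lit 59669) (nat_lit 3560389561) (nat_lit 6030) (nat_lit 170293484) (PL.cons (nat_lit 59663) (nat_lit 3559673569) (nat_lit 6029) (nat_lit 170233821) (PL.cons (nat_lit 59659) (nat_lit 3559196281) (nat_lit 6028) (nat_lit 170174162) (PL.cons (nat_lit 59651) (nat_lit 3558241801) (nat_lit 6027) (nat_lit 170114511) (PL.cons (nat_lit 59629) (nat_lit 3555617641) (nat_lit 6026) (nat_lit 170054882) (PL.cons (nat_lit 59627) (nat_lit 3555379129) (nat_lit 6025) (nat_lit 169995255) (PL.cons (nat_lit 59621) (nat_lit 3554663641) (nat_lit 6024) (nat_lit 169935634) (PL.cons (nat_lit 59617) (nat_lit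 3554186689) (nat_lit 6023) (nat_lit 169876017) (PL.cons (nat_lit 59611) (nat_lit 3553471321) (nat_lit 6022) (nat_lit 169816406) (PL.cons (nat_lit 59581) (nat_lit 3549895561) (nat_lit 6021) (nat_lit 169756825) (PL.cons (nat_lit 59567) (nat_lit 3548227489) (nat_lit 6020) (nat_lit 169697258) (PL.cons (nat_lit 59561) (nat_lit 3547512721) (nat_lit 6019) (nat_lit 169637697) (PL.cons (nat_lit 59557) (nat_lit 3547036249) (nat_lit 6018) (nat_lit 169578140) (PL.cons (nat_lit 59539) (nat_lit 3544892521) (nat_lit 6017) (nat_lit 169518601) (PL.cons (nat_lit 59513) (nat_lit 3541797169) (nat_lit 6016) (nat_lit 169459088) (PL.cons (nat_lit 59509) (nat_lit 3541321081) (nat_lit 6015) (nat_lit 169399579) (PL.cons (nat_lit 59497) (nat_lit 3539893009) (nat_lit 6014) (nat_lit 169340082) (PL.cons (nat_lit 59473) (nat_lit 3537037729) (nat_lit 6013) (nat_lit 169280609) (PL.cons (nat_lit 59471) (nat_lit 3536799841) (nat_lit 6012) (nat_lit 169221138) (PL.cons (nat_lit 59467) (nat_lit 3536324089)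 (nat_lit 6011) (nat_lit 169161671) (PL.cons (nat_lit 59453) (nat_lit 3534659209) (nat_lit 6010) (nat_lit 169102218) (PL.cons (nat_lit 59447) (nat_lit 3533945809) (nat_lit 6009) (nat_lit 169042771) (PL.cons (nat_lit 59443) (nat_lit 3533470249) (nat_lit 6008) (nat_lit 168983328) (PL.cons (nat_lit 59441) (nat_lit 3533232481) (nat_lit 6007) (nat_lit 168923887) (PL.cons (nat_lit 59419) (nat_lit 3530617561) (nat_lit 6006) (nat_lit 168864468) (PL.cons (nat_lit 59417) (nat_lit 3530379889) (nat_lit 6005) (nat_lit 168805051) (PL.cons (nat_lit 59407) (nat_lit 3529191649) (nat_lit 6004) (nat_lit 168745644) (PL.cons (nat_lit 59399) (nat_lit 3528241201) (nat_lit 6003) (nat_lit 168686245) (PL.cons (nat_lit 59393) (nat_lit 3527528449) (nat_lit 6002) (nat_lit 168626852) (PL.cons (nat_lit 59387) (nat_lit 3526815769) (nat_lit 6001) (nat_lit 168567465) (PL.cons (nat_lit 59377) (nat_lit 3525628129) (nat_lit 6000) (nat_lit 168508088) (PL.cons (nat_lit 59369) (nat_lit 3524678161) (nat_lit 5999)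 (nat_lit 168448719) (PL.cons (nat_lit 59359) (nat_lit 3523490881) (nat_lit 5998) (nat_lit 168389360) (PL.cons (nat_lit 59357) (nat_lit 3523253449) (nat_lit 5997) (nat_lit 168330003) (PL.cons (nat_lit 59351) (nat_lit 3522541201) (nat_lit 5996) (nat_lit 168270652) (PL.cons (nat_lit 59341) (nat_lit 3521354281) (nat_lit 5995) (nat_lit 168211311) (PL.cons (nat_lit 59333) (nat_lit 3520404889) (nat_lit 5994) (nat_lit 168151978) (PL.cons (nat_lit 59281) (nat_lit 3514236961) (nat_lit 5993) (nat_lit 168092697) (PL.cons (nat_lit 59273) (nat_lit 3513288529) (nat_lit 5992) (nat_lit 168033424) (PL.cons (nat_lit 59263) (nat_lit 3512103169) (nat_lit 5991) (nat_lit 167974161) (PL.cons (nat_lit 59243) (nat_lit 3509733049) (nat_lit 5990) (nat_lit 167914918) (PL.cons (nat_lit 59239) (nat_lit 3509259121) (nat_lit 5989) (nat_lit 167855679) (PL.cons (nat_lit 59233) (nat_lit 3508548289) (nat_lit 5988) (nat_lit 167796446) (PL.cons (nat_lit 59221) (nat_lit 3507126841) (nat_lit 5987) (nat_lit 167737225)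 (PL.cons (nat_lit 59219) (nat_lit 3506889961) (nat_lit 5986) (nat_lit 167678006) (PL.cons (nat_lit 59209) (nat_lit 3505705681) (nat_lit 5985) (nat_lit 167618797) (PL.cons (nat_lit 59207) (nat_lit 3505468849) (nat_lit 5984) (nat_lit 167559590) (PL.cons (nat_lit 59197) (nat_lit 3504284809) (nat_lit 5983) (nat_lit 167500393) (PL.cons (nat_lit 59183) (nat_lit 3502627489) (nat_lit 5982) (nat_lit 167441210) (PL.cons (nat_lit 59167) (nat_lit 3500733889) (nat_lit 5981) (nat_lit 167382043) (PL.cons (nat_lit 59159) (nat_lit 3499787281) (nat_lit 5980) (nat_lit 167322884) (PL.cons (nat_lit 59149) (nat_lit 3498604201) (nat_lit 5979) (nat_lit 167263735) (PL.cons (nat_lit 59141) (nat_lit 3497657881) (nat_lit 5978) (nat_lit 167204594) (PL.cons (nat_lit 59123) (nat_lit 3495529129) (nat_lit 5977) (nat_lit 167145471) (PL.cons (nat_lit 59119) (nat_lit 3495056161) (nat_lit 5976) (nat_lit 167086352) (PL.cons (nat_lit 59113) (nat_lit 3494346769) (nat_lit 5975) (nat_lit 167027239) (PL.cons (nat_lit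 59107) (nat_lit 3493637449) (nat_lit 5974) (nat_lit 166968132) (PL.cons (nat_lit 59093) (nat_lit 3491982649) (nat_lit 5973) (nat_lit 166909039) (PL.cons (nat_lit 59083) (nat_lit 3490800889) (nat_lit 5972) (nat_lit 166849956) (PL.cons (nat_lit 59077) (nat_lit 3490091929) (nat_lit 5971) (nat_lit 166790879) (PL.cons (nat_lit 59069) (nat_lit 3489146761) (nat_lit 5970) (nat_lit 166731810) (PL.cons (nat_lit 59063) (nat_lit 3488437969) (nat_lit 5969) (nat_lit 166672747) (PL.cons (nat_lit 59053) (nat_lit 3487256809) (nat_lit 5968) (nat_lit 166613694) (PL.cons (nat_lit 59051) (nat_lit 3487020601) (nat_lit 5967) (nat_lit 166554643) (PL.cons (nat_lit 59029) (nat_lit 3484422841) (nat_lit 5966) (nat_lit 166495614) (PL.cons (nat_lit 59023) (nat_lit 3483714529) (nat_lit 5965) (nat_lit 166436591) (PL.cons (nat_lit 59021) (nat_lit 3483478441) (nat_lit 5964) (nat_lit 166377570) (PL.cons (nat_lit 59011) (nat_lit 3482298121) (nat_lit 5963) (nat_lit 166318559) (PL.cons (nat_lit 59009) (nat_lit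 3482062081) (nat_lit 5962) (nat_lit 166259550) (PL.cons (nat_lit 58997) (nat_lit 3480646009) (nat_lit 5961) (nat_lit 166200553) (PL.cons (nat_lit 58991) (nat_lit 3479938081) (nat_lit 5960) (nat_lit 166141562) (PL.cons (nat_lit 58979) (nat_lit 3478522441) (nat_lit 5959) (nat_lit 166082583) (PL.cons (nat_lit 58967) (nat_lit 3477107089) (nat_lit 5958) (nat_lit 166023616) (PL.cons (nat_lit 58963) (nat_lit 3476635369) (nat_lit 5957) (nat_lit 165964653) (PL.cons (nat_lit 58943) (nat_lit 3474277249) (nat_lit 5956) (nat_lit 165905710) (PL.cons (nat_lit 58937) (nat_lit 3473569969) (nat_lit 5955) (nat_lit 165846773) (PL.cons (nat_lit 58921) (nat_lit 3471684241) (nat_lit 5954) (nat_lit 165787852) (PL.cons (nat_lit 58913) (nat_lit 3470741569) (nat_lit 5953) (nat_lit 165728939) (PL.cons (nat_lit 58909) (nat_lit 3470270281) (nat_lit 5952) (nat_lit 165670030) (PL.cons (nat_lit 58907) (nat_lit 3470034649) (nat_lit 5951) (nat_lit 165611123) (PL.cons (nat_lit 58901) (nat_lit 3469327801)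 (nat_lit 5950) (nat_lit 165552222) (PL.cons (nat_lit 58897) (nat_lit 3468856609) (nat_lit 5949) (nat_lit 165493325) (PL.cons (nat_lit 58889) (nat_lit 3467914321) (nat_lit 5948) (nat_lit 165434436) (PL.cons (nat_lit 58831) (nat_lit 3461086561) (nat_lit 5947) (nat_lit 165375605) (PL.cons (nat_lit 58789) (nat_lit 3456146521) (nat_lit 5946) (nat_lit 165316816) (PL.cons (nat_lit 58787) (nat_lit 3455911369) (nat_lit 5945) (nat_lit 165258029) (PL.cons (nat_lit 58771) (nat_lit 3454030441) (nat_lit 5944) (nat_lit 165199258) (PL.cons (nat_lit 58763) (nat_lit 3453090169) (nat_lit 5943) (nat_lit 165140495) (PL.cons (nat_lit 58757) (nat_lit 3452385049) (nat_lit 5942) (nat_lit 165081738) (PL.cons (nat_lit 58741) (nat_lit 3450505081) (nat_lit 5941) (nat_lit 165022997) (PL.cons (nat_lit 58733) (nat_lit 3449565289) (nat_lit 5940) (nat_lit 164964264) (PL.cons (nat_lit 58727) (nat_lit 3448860529) (nat_lit 5939) (nat_lit 164905537) (PL.cons (nat_lit 58711) (nat_lit 3446981521) (nat_lit 5938)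 (nat_lit 164846826) (PL.cons (nat_lit 58699) (nat_lit 3445572601) (nat_lit 5937) (nat_lit 164788127) (PL.cons (nat_lit 58693) (nat_lit 3444868249) (nat_lit 5936) (nat_lit 164729434) (PL.cons (nat_lit 58687) (nat_lit 3444163969) (nat_lit 5935) (nat_lit 164670747) (PL.cons (nat_lit 58679) (nat_lit 3443225041) (nat_lit 5934) (nat_lit 164612068) (PL.cons (nat_lit 58661) (nat_lit 3441112921) (nat_lit 5933) (nat_lit 164553407) (PL.cons (nat_lit 58657) (nat_lit 3440643649) (nat_lit 5932) (nat_lit 164494750) (PL.cons (nat_lit 58631) (nat_lit 3437594161) (nat_lit 5931) (nat_lit 164436119) (PL.cons (nat_lit 58613) (nat_lit 3435483769) (nat_lit 5930) (nat_lit 164377506) (PL.cons (nat_lit 58603) (nat_lit 3434311609) (nat_lit 5929) (nat_lit 164318903) (PL.cons (nat_lit 58601) (nat_lit 3434077201) (nat_lit 5928) (nat_lit 164260302) (PL.cons (nat_lit 58579) (nat_lit 3431499241) (nat_lit 5927) (nat_lit 164201723) (PL.cons (nat_lit 58573) (nat_lit 3430796329) (nat_lit 5926) (nat_lit 164143150)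 (PL.cons (nat_lit 58567) (nat_lit 3430093489) (nat_lit 5925) (nat_lit 164084583) (PL.cons (nat_lit 58549) (nat_lit 3427985401) (nat_lit 5924) (nat_lit 164026034) (PL.cons (nat_lit 58543) (nat_lit 3427282849) (nat_lit 5923) (nat_lit 163967491) (PL.cons (nat_lit 58537) (nat_lit 3426580369) (nat_lit 5922) (nat_lit 163908954) (PL.cons (nat_lit 58511) (nat_lit 3423537121) (nat_lit 5921) (nat_lit 163850443) (PL.cons (nat_lit 58481) (nat_lit 3420027361) (nat_lit 5920) (nat_lit 163791962) (PL.cons (nat_lit 58477) (nat_lit 3419559529) (nat_lit 5919) (nat_lit 163733485) (PL.cons (nat_lit 58453) (nat_lit 3416753209) (nat_lit 5918) (nat_lit 163675032) (PL.cons (nat_lit 58451) (nat_lit 3416519401) (nat_lit 5917) (nat_lit 163616581) (PL.cons (nat_lit 58441) (nat_lit 3415350481) (nat_lit 5916) (nat_lit 163558140) (PL.cons (nat_lit 58439) (nat_lit 3415116721) (nat_lit 5915) (nat_lit 163499701) (PL.cons (nat_lit 58427) (nat_lit 3413714329) (nat_lit 5914) (nat_lit 163441274) (PL.cons (nat_lit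 58417) (nat_lit 3412545889) (nat_lit 5913) (nat_lit 163382857) (PL.cons (nat_lit 58411) (nat_lit 3411844921) (nat_lit 5912) (nat_lit 163324446) (PL.cons (nat_lit 58403) (nat_lit 3410910409) (nat_lit 5911) (nat_lit 163266043) (PL.cons (nat_lit 58393) (nat_lit 3409742449) (nat_lit 5910) (nat_lit 163207650) (PL.cons (nat_lit 58391) (nat_lit 3409508881) (nat_lit 5909) (nat_lit 163149259) (PL.cons (nat_lit 58379) (nat_lit 3408107641) (nat_lit 5908) (nat_lit 163090880) (PL.cons (nat_lit 58369) (nat_lit 3406940161) (nat_lit 5907) (nat_lit 163032511) (PL.cons (nat_lit 58367) (nat_lit 3406706689) (nat_lit 5906) (nat_lit 162974144) (PL.cons (nat_lit 58363) (nat_lit 3406239769) (nat_lit 5905) (nat_lit 162915781) (PL.cons (nat_lit 58337) (nat_lit 3403205569) (nat_lit 5904) (nat_lit 162857444) (PL.cons (nat_lit 58321) (nat_lit 3401339041) (nat_lit 5903) (nat_lit 162799123) (PL.cons (nat_lit 58313) (nat_lit 3400405969) (nat_lit 5902) (nat_lit 162740810) (PL.cons (nat_lit 58309) (nat_lit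 3399939481) (nat_lit 5901) (nat_lit 162682501) (PL.cons (nat_lit 58271) (nat_lit 3395509441) (nat_lit 5900) (nat_lit 162624230) (PL.cons (nat_lit 58243) (nat_lit 3392247049) (nat_lit 5899) (nat_lit 162565987) (PL.cons (nat_lit 58237) (nat_lit 3391548169) (nat_lit 5898) (nat_lit 162507750) (PL.cons (nat_lit 58231) (nat_lit 3390849361) (nat_lit 5897) (nat_lit 162449519) (PL.cons (nat_lit 58229) (nat_lit 3390616441) (nat_lit 5896) (nat_lit 162391290) (PL.cons (nat_lit 58217) (nat_lit 3389219089) (nat_lit 5895) (nat_lit 162333073) (PL.cons (nat_lit 58211) (nat_lit 3388520521) (nat_lit 5894) (nat_lit 162274862) (PL.cons (nat_lit 58207) (nat_lit 3388054849) (nat_lit 5893) (nat_lit 162216655) (PL.cons (nat_lit 58199) (nat_lit 3387123601) (nat_lit 5892) (nat_lit 162158456) (PL.cons (nat_lit 58193) (nat_lit 3386425249) (nat_lit 5891) (nat_lit 162100263) (PL.cons (nat_lit 58189) (nat_lit 3385959721) (nat_lit 5890) (nat_lit 162042074) (PL.cons (nat_lit 58171) (nat_lit 3383865241)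 (nat_lit 5889) (nat_lit 161983903) (PL.cons (nat_lit 58169) (nat_lit 3383632561) (nat_lit 5888) (nat_lit 161925734) (PL.cons (nat_lit 58153) (nat_lit 3381771409) (nat_lit 5887) (nat_lit 161867581) (PL.cons (nat_lit 58151) (nat_lit 3381538801) (nat_lit 5886) (nat_lit 161809430) (PL.cons (nat_lit 58147) (nat_lit 3381073609) (nat_lit 5885) (nat_lit 161751283) (PL.cons (nat_lit 58129) (nat_lit 3378980641) (nat_lit 5884) (nat_lit 161693154) (PL.cons (nat_lit 58111) (nat_lit 3376888321) (nat_lit 5883) (nat_lit 161635043) (PL.cons (nat_lit 58109) (nat_lit 3376655881) (nat_lit 5882) (nat_lit 161576934) (PL.cons (nat_lit 58099) (nat_lit 3375493801) (nat_lit 5881) (nat_lit 161518835) (PL.cons (nat_lit 58073) (nat_lit 3372473329) (nat_lit 5880) (nat_lit 161460762) (PL.cons (nat_lit 58067) (nat_lit 3371776489) (nat_lit 5879) (nat_lit 161402695) (PL.cons (nat_lit 58061) (nat_lit 3371079721) (nat_lit 5878) (nat_lit 161344634) (PL.cons (nat_lit 58057) (nat_lit 3370615249) (nat_lit 5877)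 (nat_lit 161286577) (PL.cons (nat_lit 58049) (nat_lit 3369686401) (nat_lit 5876) (nat_lit 161228528) (PL.cons (nat_lit 58043) (nat_lit 3368989849) (nat_lit 5875) (nat_lit 161170485) (PL.cons (nat_lit 58031) (nat_lit 3367596961) (nat_lit 5874) (nat_lit 161112454) (PL.cons (nat_lit 58027) (nat_lit 3367132729) (nat_lit 5873) (nat_lit 161054427) (PL.cons (nat_lit 58013) (nat_lit 3365508169) (nat_lit 5872) (nat_lit 160996414) (PL.cons (nat_lit 57991) (nat_lit 3362956081) (nat_lit 5871) (nat_lit 160938423) (PL.cons (nat_lit 57977) (nat_lit 3361332529) (nat_lit 5870) (nat_lit 160880446) (PL.cons (nat_lit 57973) (nat_lit 3360868729) (nat_lit 5869) (nat_lit 160822473) (PL.cons (nat_lit 57947) (nat_lit 3357854809) (nat_lit 5868) (nat_lit 160764526) (PL.cons (nat_lit 57943) (nat_lit 3357391249) (nat_lit 5867) (nat_lit 160706583) (PL.cons (nat_lit 57923) (nat_lit 3355073929) (nat_lit 5866) (nat_lit 160648660) (PL.cons (nat_lit 57917) (nat_lit 3354378889) (nat_lit 5865) (nat_lit 160590743)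 (PL.cons (nat_lit 57901) (nat_lit 3352525801) (nat_lit 5864) (nat_lit 160532842) (PL.cons (nat_lit 57899) (nat_lit 3352294201) (nat_lit 5863) (nat_lit 160474943) (PL.cons (nat_lit 57881) (nat_lit 3350210161) (nat_lit 5862) (nat_lit 160417062) (PL.cons (nat_lit 57859) (nat_lit 3347663881) (nat_lit 5861) (nat_lit 160359203) (PL.cons (nat_lit 57853) (nat_lit 3346969609) (nat_lit 5860) (nat_lit 160301350) (PL.cons (nat_lit 57847) (nat_lit 3346275409) (nat_lit 5859) (nat_lit 160243503) (PL.cons (nat_lit 57839) (nat_lit 3345349921) (nat_lit 5858) (nat_lit 160185664) (PL.cons (nat_lit 57829) (nat_lit 3344193241) (nat_lit 5857) (nat_lit 160127835) (PL.cons (nat_lit 57809) (nat_lit 3341880481) (nat_lit 5856) (nat_lit 160070026) (PL.cons (nat_lit 57803) (nat_lit 3341186809) (nat_lit 5855) (nat_lit 160012223) (PL.cons (nat_lit 57793) (nat_lit 3340030849) (nat_lit 5854) (nat_lit 159954430) (PL.cons (nat_lit 57791) (nat_lit 3339799681) (nat_lit 5853) (nat_lit 159896639) (PL.cons (nat_lit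 57787) (nat_lit 3339337369) (nat_lit 5852) (nat_lit 159838852) (PL.cons (nat_lit 57781) (nat_lit 3338643961) (nat_lit 5851) (nat_lit 159781071) (PL.cons (nat_lit 57773) (nat_lit 3337719529) (nat_lit 5850) (nat_lit 159723298) (PL.cons (nat_lit 57751) (nat_lit 3335178001) (nat_lit 5849) (nat_lit 159665547) (PL.cons (nat_lit 57737) (nat_lit 3333561169) (nat_lit 5848) (nat_lit 159607810) (PL.cons (nat_lit 57731) (nat_lit 3332868361) (nat_lit 5847) (nat_lit 159550079) (PL.cons (nat_lit 57727) (nat_lit 3332406529) (nat_lit 5846) (nat_lit 159492352) (PL.cons (nat_lit 57719) (nat_lit 3331482961) (nat_lit 5845) (nat_lit 159434633) (PL.cons (nat_lit 57713) (nat_lit 3330790369) (nat_lit 5844) (nat_lit 159376920) (PL.cons (nat_lit 57709) (nat_lit 3330328681) (nat_lit 5843) (nat_lit 159319211) (PL.cons (nat_lit 57697) (nat_lit 3328943809) (nat_lit 5842) (nat_lit 159261514) (PL.cons (nat_lit 57689) (nat_lit 3328020721) (nat_lit 5841) (nat_lit 159203825) (PL.cons (nat_lit 57679) (nat_lit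 3326867041) (nat_lit 5840) (nat_lit 159146146) (PL.cons (nat_lit 57667) (nat_lit 3325482889) (nat_lit 5839) (nat_lit 159088479) (PL.cons (nat_lit 57653) (nat_lit 3323868409) (nat_lit 5838) (nat_lit 159030826) (PL.cons (nat_lit 57649) (nat_lit 3323407201) (nat_lit 5837) (nat_lit 158973177) (PL.cons (nat_lit 57641) (nat_lit 3322484881) (nat_lit 5836) (nat_lit 158915536) (PL.cons (nat_lit 57637) (nat_lit 3322023769) (nat_lit 5835) (nat_lit 158857899) (PL.cons (nat_lit 57601) (nat_lit 3317875201) (nat_lit 5834) (nat_lit 158800298) (PL.cons (nat_lit 57593) (nat_lit 3316953649) (nat_lit 5833) (nat_lit 158742705) (PL.cons (nat_lit 57587) (nat_lit 3316262569) (nat_lit 5832) (nat_lit 158685118) (PL.cons (nat_lit 57571) (nat_lit 3314420041) (nat_lit 5831) (nat_lit 158627547) (PL.cons (nat_lit 57559) (nat_lit 3313038481) (nat_lit 5830) (nat_lit 158569988) (PL.cons (nat_lit 57557) (nat_lit 3312808249) (nat_lit 5829) (nat_lit 158512431) (PL.cons (nat_lit 57529) (nat_lit 3309585841)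 (nat_lit 5828) (nat_lit 158454902) (PL.cons (nat_lit 57527) (nat_lit 3309355729) (nat_lit 5827) (nat_lit 158397375) (PL.cons (nat_lit 57503) (nat_lit 3306595009) (nat_lit 5826) (nat_lit 158339872) (PL.cons (nat_lit 57493) (nat_lit 3305445049) (nat_lit 5825) (nat_lit 158282379) (PL.cons (nat_lit 57487) (nat_lit 3304755169) (nat_lit 5824) (nat_lit 158224892) (PL.cons (nat_lit 57467) (nat_lit 3302456089) (nat_lit 5823) (nat_lit 158167425) (PL.cons (nat_lit 57457) (nat_lit 3301306849) (nat_lit 5822) (nat_lit 158109968) (PL.cons (nat_lit 57427) (nat_lit 3297860329) (nat_lit 5821) (nat_lit 158052541) (PL.cons (nat_lit 57413) (nat_lit 3296252569) (nat_lit 5820) (nat_lit 157995128) (PL.cons (nat_lit 57397) (nat_lit 3294415609) (nat_lit 5819) (nat_lit 157937731) (PL.cons (nat_lit 57389) (nat_lit 3293497321) (nat_lit 5818) (nat_lit 157880342) (PL.cons (nat_lit 57383) (nat_lit 3292808689) (nat_lit 5817) (nat_lit 157822959) (PL.cons (nat_lit 57373) (nat_lit 3291661129) (nat_lit 5816)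 (nat_lit 157765586) (PL.cons (nat_lit 57367) (nat_lit 3290972689) (nat_lit 5815) (nat_lit 157708219) (PL.cons (nat_lit 57349) (nat_lit 3288907801) (nat_lit 5814) (nat_lit 157650870) (PL.cons (nat_lit 57347) (nat_lit 3288678409) (nat_lit 5813) (nat_lit 157593523) (PL.cons (nat_lit 57331) (nat_lit 3286843561) (nat_lit 5812) (nat_lit 157536192) (PL.cons (nat_lit 57329) (nat_lit 3286614241) (nat_lit 5811) (nat_lit 157478863) (PL.cons (nat_lit 57301) (nat_lit 3283404601) (nat_lit 5810) (nat_lit 157421562) (PL.cons (nat_lit 57287) (nat_lit 3281800369) (nat_lit 5809) (nat_lit 157364275) (PL.cons (nat_lit 57283) (nat_lit 3281342089) (nat_lit 5808) (nat_lit 157306992) (PL.cons (nat_lit 57271) (nat_lit 3279967441) (nat_lit 5807) (nat_lit 157249721) (PL.cons (nat_lit 57269) (nat_lit 3279738361) (nat_lit 5806) (nat_lit 157192452) (PL.cons (nat_lit 57259) (nat_lit 3278593081) (nat_lit 5805) (nat_lit 157135193) (PL.cons (nat_lit 57251) (nat_lit 3277677001) (nat_lit 5804) (nat_lit 157077942)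 (PL.cons (nat_lit 57241) (nat_lit 3276532081) (nat_lit 5803) (nat_lit 157020701) (PL.cons (nat_lit 57223) (nat_lit 3274471729) (nat_lit 5802) (nat_lit 156963478) (PL.cons (nat_lit 57221) (nat_lit 3274242841) (nat_lit 5801) (nat_lit 156906257) (PL.cons (nat_lit 57203) (nat_lit 3272183209) (nat_lit 5800) (nat_lit 156849054) (PL.cons (nat_lit 57193) (nat_lit 3271039249) (nat_lit 5799) (nat_lit 156791861) (PL.cons (nat_lit 57191) (nat_lit 3270810481) (nat_lit 5798) (nat_lit 156734670) (PL.cons (nat_lit 57179) (nat_lit 3269438041) (nat_lit 5797) (nat_lit 156677491) (PL.cons (nat_lit 57173) (nat_lit 3268751929) (nat_lit 5796) (nat_lit 156620318) (PL.cons (nat_lit 57163) (nat_lit 3267608569) (nat_lit 5795) (nat_lit 156563155) (PL.cons (nat_lit 57149) (nat_lit 3266008201) (nat_lit 5794) (nat_lit 156506006) (PL.cons (nat_lit 57143) (nat_lit 3265322449) (nat_lit 5793) (nat_lit 156448863) (PL.cons (nat_lit 57139) (nat_lit 3264865321) (nat_lit 5792) (nat_lit 156391724) (PL.cons (nat_lit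 57131) (nat_lit 3263951161) (nat_lit 5791) (nat_lit 156334593) (PL.cons (nat_lit 57119) (nat_lit 3262580161) (nat_lit 5790) (nat_lit 156277474) (PL.cons (nat_lit 57107) (nat_lit 3261209449) (nat_lit 5789) (nat_lit 156220367) (PL.cons (nat_lit 57097) (nat_lit 3260067409) (nat_lit 5788) (nat_lit 156163270) (PL.cons (nat_lit 57089) (nat_lit 3259153921) (nat_lit 5787) (nat_lit 156106181) (PL.cons (nat_lit 57077) (nat_lit 3257783929) (nat_lit 5786) (nat_lit 156049104) (PL.cons (nat_lit 57073) (nat_lit 3257327329) (nat_lit 5785) (nat_lit 155992031) (PL.cons (nat_lit 57059) (nat_lit 3255729481) (nat_lit 5784) (nat_lit 155934972) (PL.cons (nat_lit 57047) (nat_lit 3254360209) (nat_lit 5783) (nat_lit 155877925) (PL.cons (nat_lit 57041) (nat_lit 3253675681) (nat_lit 5782) (nat_lit 155820884) (PL.cons (nat_lit 57037) (nat_lit 3253219369) (nat_lit 5781) (nat_lit 155763847) (PL.cons (nat_lit 56999) (nat_lit 3248886001) (nat_lit 5780) (nat_lit 155706848) (PL.cons (nat_lit 56993) (nat_lit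 3248202049) (nat_lit 5779) (nat_lit 155649855) (PL.cons (nat_lit 56989) (nat_lit 3247746121) (nat_lit 5778) (nat_lit 155592866) (PL.cons (nat_lit 56983) (nat_lit 3247062289) (nat_lit 5777) (nat_lit 155535883) (PL.cons (nat_lit 56963) (nat_lit 3244783369) (nat_lit 5776) (nat_lit 155478920) (PL.cons (nat_lit 56957) (nat_lit 3244099849) (nat_lit 5775) (nat_lit 155421963) (PL.cons (nat_lit 56951) (nat_lit 3243416401) (nat_lit 5774) (nat_lit 155365012) (PL.cons (nat_lit 56941) (nat_lit 3242277481) (nat_lit 5773) (nat_lit 155308071) (PL.cons (nat_lit 56929) (nat_lit 3240911041) (nat_lit 5772) (nat_lit 155251142) (PL.cons (nat_lit 56923) (nat_lit 3240227929) (nat_lit 5771) (nat_lit 155194219) (PL.cons (nat_lit 56921) (nat_lit 3240000241) (nat_lit 5770) (nat_lit 155137298) (PL.cons (nat_lit 56911) (nat_lit 3238861921) (nat_lit 5769) (nat_lit 155080387) (PL.cons (nat_lit 56909) (nat_lit 3238634281) (nat_lit 5768) (nat_lit 155023478) (PL.cons (nat_lit 56897) (nat_lit 3237268609)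 (nat_lit 5767) (nat_lit 154966581) (PL.cons (nat_lit 56893) (nat_lit 3236813449) (nat_lit 5766) (nat_lit 154909688) (PL.cons (nat_lit 56891) (nat_lit 3236585881) (nat_lit 5765) (nat_lit 154852797) (PL.cons (nat_lit 56873) (nat_lit 3234538129) (nat_lit 5764) (nat_lit 154795924) (PL.cons (nat_lit 56857) (nat_lit 3232718449) (nat_lit 5763) (nat_lit 154739067) (PL.cons (nat_lit 56843) (nat_lit 3231126649) (nat_lit 5762) (nat_lit 154682224) (PL.cons (nat_lit 56827) (nat_lit 3229307929) (nat_lit 5761) (nat_lit 154625397) (PL.cons (nat_lit 56821) (nat_lit 3228626041) (nat_lit 5760) (nat_lit 154568576) (PL.cons (nat_lit 56813) (nat_lit 3227716969) (nat_lit 5759) (nat_lit 154511763) (PL.cons (nat_lit 56809) (nat_lit 3227262481) (nat_lit 5758) (nat_lit 154454954) (PL.cons (nat_lit 56807) (nat_lit 3227035249) (nat_lit 5757) (nat_lit 154398147) (PL.cons (nat_lit 56783) (nat_lit 3224309089) (nat_lit 5756) (nat_lit 154341364) (PL.cons (nat_lit 56779) (nat_lit 3223854841) (nat_lit 5755)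 (nat_lit 154284585) (PL.cons (nat_lit 56773) (nat_lit 3223173529) (nat_lit 5754) (nat_lit 154227812) (PL.cons (nat_lit 56767) (nat_lit 3222492289) (nat_lit 5753) (nat_lit 154171045) (PL.cons (nat_lit 56747) (nat_lit 3220222009) (nat_lit 5752) (nat_lit 154114298) (PL.cons (nat_lit 56737) (nat_lit 3219087169) (nat_lit 5751) (nat_lit 154057561) (PL.cons (nat_lit 56731) (nat_lit 3218406361) (nat_lit 5750) (nat_lit 154000830) (PL.cons (nat_lit 56713) (nat_lit 3216364369) (nat_lit 5749) (nat_lit 153944117) (PL.cons (nat_lit 56711) (nat_lit 3216137521) (nat_lit 5748) (nat_lit 153887406) (PL.cons (nat_lit 56701) (nat_lit 3215003401) (nat_lit 5747) (nat_lit 153830705) (PL.cons (nat_lit 56687) (nat_lit 3213415969) (nat_lit 5746) (nat_lit 153774018) (PL.cons (nat_lit 56681) (nat_lit 3212735761) (nat_lit 5745) (nat_lit 153717337) (PL.cons (nat_lit 56671) (nat_lit 3211602241) (nat_lit 5744) (nat_lit 153660666) (PL.cons (nat_lit 56663) (nat_lit 3210695569) (nat_lit 5743) (nat_lit 153604003)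 (PL.cons (nat_lit 56659) (nat_lit 3210242281) (nat_lit 5742) (nat_lit 153547344) (PL.cons (nat_lit 56633) (nat_lit 3207296689) (nat_lit 5741) (nat_lit 153490711) (PL.cons (nat_lit 56629) (nat_lit 3206843641) (nat_lit 5740) (nat_lit 153434082) (PL.cons (nat_lit 56611) (nat_lit 3204805321) (nat_lit 5739) (nat_lit 153377471) (PL.cons (nat_lit 56599) (nat_lit 3203446801) (nat_lit 5738) (nat_lit 153320872) (PL.cons (nat_lit 56597) (nat_lit 3203220409) (nat_lit 5737) (nat_lit 153264275) (PL.cons (nat_lit 56591) (nat_lit 3202541281) (nat_lit 5736) (nat_lit 153207684) (PL.cons (nat_lit 56569) (nat_lit 3200051761) (nat_lit 5735) (nat_lit 153151115) (PL.cons (nat_lit 56543) (nat_lit 3197110849) (nat_lit 5734) (nat_lit 153094572) (PL.cons (nat_lit 56533) (nat_lit 3195980089) (nat_lit 5733) (nat_lit 153038039) (PL.cons (nat_lit 56531) (nat_lit 3195753961) (nat_lit 5732) (nat_lit 152981508) (PL.cons (nat_lit 56527) (nat_lit 3195301729) (nat_lit 5731) (nat_lit 152924981) (PL.cons (nat_lit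 56519) (nat_lit 3194397361) (nat_lit 5730) (nat_lit 152868462) (PL.cons (nat_lit 56509) (nat_lit 3193267081) (nat_lit 5729) (nat_lit 152811953) (PL.cons (nat_lit 56503) (nat_lit 3192589009) (nat_lit 5728) (nat_lit 152755450) (PL.cons (nat_lit 56501) (nat_lit 3192363001) (nat_lit 5727) (nat_lit 152698949) (PL.cons (nat_lit 56489) (nat_lit 3191007121) (nat_lit 5726) (nat_lit 152642460) (PL.cons (nat_lit 56479) (nat_lit 3189877441) (nat_lit 5725) (nat_lit 152585981) (PL.cons (nat_lit 56477) (nat_lit 3189651529) (nat_lit 5724) (nat_lit 152529504) (PL.cons (nat_lit 56473) (nat_lit 3189199729) (nat_lit 5723) (nat_lit 152473031) (PL.cons (nat_lit 56467) (nat_lit 3188522089) (nat_lit 5722) (nat_lit 152416564) (PL.cons (nat_lit 56453) (nat_lit 3186941209) (nat_lit 5721) (nat_lit 152360111) (PL.cons (nat_lit 56443) (nat_lit 3185812249) (nat_lit 5720) (nat_lit 152303668) (PL.cons (nat_lit 56437) (nat_lit 3185134969) (nat_lit 5719) (nat_lit 152247231) (PL.cons (nat_lit 56431) (nat_lit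 3184457761) (nat_lit 5718) (nat_lit 152190800) (PL.cons (nat_lit 56417) (nat_lit 3182877889) (nat_lit 5717) (nat_lit 152134383) (PL.cons (nat_lit 56401) (nat_lit 3181072801) (nat_lit 5716) (nat_lit 152077982) (PL.cons (nat_lit 56393) (nat_lit 3180170449) (nat_lit 5715) (nat_lit 152021589) (PL.cons (nat_lit 56383) (nat_lit 3179042689) (nat_lit 5714) (nat_lit 151965206) (PL.cons (nat_lit 56377) (nat_lit 3178366129) (nat_lit 5713) (nat_lit 151908829) (PL.cons (nat_lit 56369) (nat_lit 3177464161) (nat_lit 5712) (nat_lit 151852460) (PL.cons (nat_lit 56359) (nat_lit 3176336881) (nat_lit 5711) (nat_lit 151796101) (PL.cons (nat_lit 56333) (nat_lit 3173406889) (nat_lit 5710) (nat_lit 151739768) (PL.cons (nat_lit 56311) (nat_lit 3170928721) (nat_lit 5709) (nat_lit 151683457) (PL.cons (nat_lit 56299) (nat_lit 3169577401) (nat_lit 5708) (nat_lit 151627158) (PL.cons (nat_lit 56269) (nat_lit 3166200361) (nat_lit 5707) (nat_lit 151570889) (PL.cons (nat_lit 56267) (nat_lit 3165975289)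 (nat_lit 5706) (nat_lit 151514622) (PL.cons (nat_lit 56263) (nat_lit 3165525169) (nat_lit 5705) (nat_lit 151458359) (PL.cons (nat_lit 56249) (nat_lit 3163950001) (nat_lit 5704) (nat_lit 151402110) (PL.cons (nat_lit 56239) (nat_lit 3162825121) (nat_lit 5703) (nat_lit 151345871) (PL.cons (nat_lit 56237) (nat_lit 3162600169) (nat_lit 5702) (nat_lit 151289634) (PL.cons (nat_lit 56209) (nat_lit 3159451681) (nat_lit 5701) (nat_lit 151233425) (PL.cons (nat_lit 56207) (nat_lit 3159226849) (nat_lit 5700) (nat_lit 151177218) (PL.cons (nat_lit 56197) (nat_lit 3158102809) (nat_lit 5699) (nat_lit 151121021) (PL.cons (nat_lit 56179) (nat_lit 3156080041) (nat_lit 5698) (nat_lit 151064842) (PL.cons (nat_lit 56171) (nat_lit 3155181241) (nat_lit 5697) (nat_lit 151008671) (PL.cons (nat_lit 56167) (nat_lit 3154731889) (nat_lit 5696) (nat_lit 150952504) (PL.cons (nat_lit 56149) (nat_lit 3152710201) (nat_lit 5695) (nat_lit 150896355) (PL.cons (nat_lit 56131) (nat_lit 3150689161) (nat_lit 5694)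 (nat_lit 150840224) (PL.cons (nat_lit 56123) (nat_lit 3149791129) (nat_lit 5693) (nat_lit 150784101) (PL.cons (nat_lit 56113) (nat_lit 3148668769) (nat_lit 5692) (nat_lit 150727988) (PL.cons (nat_lit 56101) (nat_lit 3147322201) (nat_lit 5691) (nat_lit 150671887) (PL.cons (nat_lit 56099) (nat_lit 3147097801) (nat_lit 5690) (nat_lit 150615788) (PL.cons (nat_lit 56093) (nat_lit 3146424649) (nat_lit 5689) (nat_lit 150559695) (PL.cons (nat_lit 56087) (nat_lit 3145751569) (nat_lit 5688) (nat_lit 150503608) (PL.cons (nat_lit 56081) (nat_lit 3145078561) (nat_lit 5687) (nat_lit 150447527) (PL.cons (nat_lit 56053) (nat_lit 3141938809) (nat_lit 5686) (nat_lit 150391474) (PL.cons (nat_lit 56041) (nat_lit 3140593681) (nat_lit 5685) (nat_lit 150335433) (PL.cons (nat_lit 56039) (nat_lit 3140369521) (nat_lit 5684) (nat_lit 150279394) (PL.cons (nat_lit 56009) (nat_lit 3137008081) (nat_lit 5683) (nat_lit 150223385) (PL.cons (nat_lit 56003) (nat_lit 3136336009) (nat_lit 5682) (nat_lit 150167382)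 (PL.cons (nat_lit 55997) (nat_lit 3135664009) (nat_lit 5681) (nat_lit 150111385) (PL.cons (nat_lit 55987) (nat_lit 3134544169) (nat_lit 5680) (nat_lit 150055398) (PL.cons (nat_lit 55967) (nat_lit 3132305089) (nat_lit 5679) (nat_lit 149999431) (PL.cons (nat_lit 55949) (nat_lit 3130290601) (nat_lit 5678) (nat_lit 149943482) L23))))))))))))))))))))))))))))))))))))))))))))))))))))))))))))))))))))))))))))))))))))))))))))))))))))))))))))))))))))))))))))))))))))))))))))))))))))))))))))))))))))))))))))))))))))))))))))))))))))))))))))))))))))))))))))))))))))))))))))))))))))))))))))))))))))))))))))))))))))))))))))))))))))))))))))))))))))))))))))))))))))))))))))))))))))))))))))))))))))))))))))))))))))))))))))))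

def L25 : PL := (PL.cons (nat_lit 64373) (nat_lit 4143883129) (nat_lit 6441) (nat_lit 195792097) (PL.cons (nat_lit 64333) (nat_lit 4138734889) (nat_lit 6440) (nat_lit 195727764) (PL.cons (nat_lit 64327) (nat_lit 4137962929) (nat_lit 6439) (nat_lit 195663437) (PL.cons (nat_lit 64319) (nat_lit 4136933761) (nat_lit 6438) (nat_lit 195599118) (PL.cons (nat_lit 64303) (nat_lit 4134875809) (nat_lit 6437) (nat_lit 195534815) (PL.cons (nat_lit 64301) (nat_lit 4134618601) (nat_lit 6436) (nat_lit 195470514) (PL.cons (nat_lit 64283) (nat_lit 4132304089) (nat_lit 6435) (nat_lit 195406231) (PL.cons (nat_lit 64279) (nat_lit 4131789841) (nat_lit 6434) (nat_lit 195341952) (PL.cons (nat_lit 64271) (nat_lit 4130761441) (nat_lit 6433) (nat_lit 195277681) (PL.cons (nat_lit 64237) (nat_lit 4126392169) (nat_lit 6432) (nat_lit 195213444) (PL.cons (nat_lit 64231) (nat_lit 4125621361) (nat_lit 6431) (nat_lit 195149213) (PL.cons (nat_lit 64223) (nat_lit 4124593729) (nat_lit 6430) (nat_lit 195084990)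 (PL.cons (nat_lit 64217) (nat_lit 4123823089) (nat_lit 6429) (nat_lit 195020773) (PL.cons (nat_lit 64189) (nat_lit 4120227721) (nat_lit 6428) (nat_lit 194956584) (PL.cons (nat_lit 64187) (nat_lit 4119970969) (nat_lit 6427) (nat_lit 194892397) (PL.cons (nat_lit 64171) (nat_lit 4117917241) (nat_lit 6426) (nat_lit 194828226) (PL.cons (nat_lit 64157) (nat_lit 4116120649) (nat_lit 6425) (nat_lit 194764069) (PL.cons (nat_lit 64153) (nat_lit 4115607409) (nat_lit 6424) (nat_lit 194699916) (PL.cons (nat_lit 64151) (nat_lit 4115350801) (nat_lit 6423) (nat_lit 194635765) (PL.cons (nat_lit 64123) (nat_lit 4111759129) (nat_lit 6422) (nat_lit 194571642) (PL.cons (nat_lit 64109) (nat_lit 4109963881) (nat_lit 6421) (nat_lit 194507533) (PL.cons (nat_lit 64091) (nat_lit 4107656281) (nat_lit 6420) (nat_lit 194443442) (PL.cons (nat_lit 64081) (nat_lit 4106374561) (nat_lit 6419) (nat_lit 194379361) (PL.cons (nat_lit 64067) (nat_lit 4104580489) (nat_lit 6418) (nat_lit 194315294) (PL.cons (nat_lit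 64063) (nat_lit 4104067969) (nat_lit 6417) (nat_lit 194251231) (PL.cons (nat_lit 64037) (nat_lit 4100737369) (nat_lit 6416) (nat_lit 194187194) (PL.cons (nat_lit 64033) (nat_lit 4100225089) (nat_lit 6415) (nat_lit 194123161) (PL.cons (nat_lit 64019) (nat_lit 4098432361) (nat_lit 6414) (nat_lit 194059142) (PL.cons (nat_lit 64013) (nat_lit 4097664169) (nat_lit 6413) (nat_lit 193995129) (PL.cons (nat_lit 64007) (nat_lit 4096896049) (nat_lit 6412) (nat_lit 193931122) (PL.cons (nat_lit 63997) (nat_lit 4095616009) (nat_lit 6411) (nat_lit 193867125) (PL.cons (nat_lit 63977) (nat_lit 4093056529) (nat_lit 6410) (nat_lit 193803148) (PL.cons (nat_lit 63949) (nat_lit 4089474601) (nat_lit 6409) (nat_lit 193739199) (PL.cons (nat_lit 63929) (nat_lit 4086917041) (nat_lit 6408) (nat_lit 193675270) (PL.cons (nat_lit 63913) (nat_lit 4084871569) (nat_lit 6407) (nat_lit 193611357) (PL.cons (nat_lit 63907) (nat_lit 4084104649) (nat_lit 6406) (nat_lit 193547450) (PL.cons (nat_lit 63901) (nat_lit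 4083337801) (nat_lit 6405) (nat_lit 193483549) (PL.cons (nat_lit 63863) (nat_lit 4078482769) (nat_lit 6404) (nat_lit 193419686) (PL.cons (nat_lit 63857) (nat_lit 4077716449) (nat_lit 6403) (nat_lit 193355829) (PL.cons (nat_lit 63853) (nat_lit 4077205609) (nat_lit 6402) (nat_lit 193291976) (PL.cons (nat_lit 63841) (nat_lit 4075673281) (nat_lit 6401) (nat_lit 193228135) (PL.cons (nat_lit 63839) (nat_lit 4075417921) (nat_lit 6400) (nat_lit 193164296) (PL.cons (nat_lit 63823) (nat_lit 4073375329) (nat_lit 6399) (nat_lit 193100473) (PL.cons (nat_lit 63809) (nat_lit 4071588481) (nat_lit 6398) (nat_lit 193036664) (PL.cons (nat_lit 63803) (nat_lit 4070822809) (nat_lit 6397) (nat_lit 192972861) (PL.cons (nat_lit 63799) (nat_lit 4070312401) (nat_lit 6396) (nat_lit 192909062) (PL.cons (nat_lit 63793) (nat_lit 4069546849) (nat_lit 6395) (nat_lit 192845269) (PL.cons (nat_lit 63781) (nat_lit 4068015961) (nat_lit 6394) (nat_lit 192781488) (PL.cons (nat_lit 63773) (nat_lit 4066995529)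 (nat_lit 6393) (nat_lit 192717715) (PL.cons (nat_lit 63761) (nat_lit 4065465121) (nat_lit 6392) (nat_lit 192653954) (PL.cons (nat_lit 63743) (nat_lit 4063170049) (nat_lit 6391) (nat_lit 192590211) (PL.cons (nat_lit 63737) (nat_lit 4062405169) (nat_lit 6390) (nat_lit 192526474) (PL.cons (nat_lit 63727) (nat_lit 4061130529) (nat_lit 6389) (nat_lit 192462747) (PL.cons (nat_lit 63719) (nat_lit 4060110961) (nat_lit 6388) (nat_lit 192399028) (PL.cons (nat_lit 63709) (nat_lit 4058836681) (nat_lit 6387) (nat_lit 192335319) (PL.cons (nat_lit 63703) (nat_lit 4058072209) (nat_lit 6386) (nat_lit 192271616) (PL.cons (nat_lit 63697) (nat_lit 4057307809) (nat_lit 6385) (nat_lit 192207919) (PL.cons (nat_lit 63691) (nat_lit 4056543481) (nat_lit 6384) (nat_lit 192144228) (PL.cons (nat_lit 63689) (nat_lit 4056288721) (nat_lit 6383) (nat_lit 192080539) (PL.cons (nat_lit 63671) (nat_lit 4053996241) (nat_lit 6382) (nat_lit 192016868) (PL.cons (nat_lit 63667) (nat_lit 4053486889) (nat_lit 6381)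 (nat_lit 191953201) (PL.cons (nat_lit 63659) (nat_lit 4052468281) (nat_lit 6380) (nat_lit 191889542) (PL.cons (nat_lit 63649) (nat_lit 4051195201) (nat_lit 6379) (nat_lit 191825893) (PL.cons (nat_lit 63647) (nat_lit 4050940609) (nat_lit 6378) (nat_lit 191762246) (PL.cons (nat_lit 63629) (nat_lit 4048649641) (nat_lit 6377) (nat_lit 191698617) (PL.cons (nat_lit 63617) (nat_lit 4047122689) (nat_lit 6376) (nat_lit 191635000) (PL.cons (nat_lit 63611) (nat_lit 4046359321) (nat_lit 6375) (nat_lit 191571389) (PL.cons (nat_lit 63607) (nat_lit 4045850449) (nat_lit 6374) (nat_lit 191507782) (PL.cons (nat_lit 63601) (nat_lit 4045087201) (nat_lit 6373) (nat_lit 191444181) (PL.cons (nat_lit 63599) (nat_lit 4044832801) (nat_lit 6372) (nat_lit 191380582) (PL.cons (nat_lit 63589) (nat_lit 4043560921) (nat_lit 6371) (nat_lit 191316993) (PL.cons (nat_lit 63587) (nat_lit 4043306569) (nat_lit 6370) (nat_lit 191253406) (PL.cons (nat_lit 63577) (nat_lit 4042034929) (nat_lit 6369) (nat_lit 191189829)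 (PL.cons (nat_lit 63559) (nat_lit 4039746481) (nat_lit 6368) (nat_lit 191126270) (PL.cons (nat_lit 63541) (nat_lit 4037458681) (nat_lit 6367) (nat_lit 191062729) (PL.cons (nat_lit 63533) (nat_lit 4036442089) (nat_lit 6366) (nat_lit 190999196) (PL.cons (nat_lit 63527) (nat_lit 4035679729) (nat_lit 6365) (nat_lit 190935669) (PL.cons (nat_lit 63521) (nat_lit 4034917441) (nat_lit 6364) (nat_lit 190872148) (PL.cons (nat_lit 63499) (nat_lit 4032123001) (nat_lit 6363) (nat_lit 190808649) (PL.cons (nat_lit 63493) (nat_lit 4031361049) (nat_lit 6362) (nat_lit 190745156) (PL.cons (nat_lit 63487) (nat_lit 4030599169) (nat_lit 6361) (nat_lit 190681669) (PL.cons (nat_lit 63473) (nat_lit 4028821729) (nat_lit 6360) (nat_lit 190618196) (PL.cons (nat_lit 63467) (nat_lit 4028060089) (nat_lit 6359) (nat_lit 190554729) (PL.cons (nat_lit 63463) (nat_lit 4027552369) (nat_lit 6358) (nat_lit 190491266) (PL.cons (nat_lit 63443) (nat_lit 4025014249) (nat_lit 6357) (nat_lit 190427823) (PL.cons (nat_lit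 63439) (nat_lit 4024506721) (nat_lit 6356) (nat_lit 190364384) (PL.cons (nat_lit 63421) (nat_lit 4022223241) (nat_lit 6355) (nat_lit 190300963) (PL.cons (nat_lit 63419) (nat_lit 4021969561) (nat_lit 6354) (nat_lit 190237544) (PL.cons (nat_lit 63409) (nat_lit 4020701281) (nat_lit 6353) (nat_lit 190174135) (PL.cons (nat_lit 63397) (nat_lit 4019179609) (nat_lit 6352) (nat_lit 190110738) (PL.cons (nat_lit 63391) (nat_lit 4018418881) (nat_lit 6351) (nat_lit 190047347) (PL.cons (nat_lit 63389) (nat_lit 4018165321) (nat_lit 6350) (nat_lit 189983958) (PL.cons (nat_lit 63377) (nat_lit 4016644129) (nat_lit 6349) (nat_lit 189920581) (PL.cons (nat_lit 63367) (nat_lit 4015376689) (nat_lit 6348) (nat_lit 189857214) (PL.cons (nat_lit 63361) (nat_lit 4014616321) (nat_lit 6347) (nat_lit 189793853) (PL.cons (nat_lit 63353) (nat_lit 4013602609) (nat_lit 6346) (nat_lit 189730500) (PL.cons (nat_lit 63347) (nat_lit 4012842409) (nat_lit 6345) (nat_lit 189667153) (PL.cons (nat_lit 63337) (nat_lit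 4011575569) (nat_lit 6344) (nat_lit 189603816) (PL.cons (nat_lit 63331) (nat_lit 4010815561) (nat_lit 6343) (nat_lit 189540485) (PL.cons (nat_lit 63317) (nat_lit 4009042489) (nat_lit 6342) (nat_lit 189477168) (PL.cons (nat_lit 63313) (nat_lit 4008535969) (nat_lit 6341) (nat_lit 189413855) (PL.cons (nat_lit 63311) (nat_lit 4008282721) (nat_lit 6340) (nat_lit 189350544) (PL.cons (nat_lit 63299) (nat_lit 4006763401) (nat_lit 6339) (nat_lit 189287245) (PL.cons (nat_lit 63281) (nat_lit 4004484961) (nat_lit 6338) (nat_lit 189223964) (PL.cons (nat_lit 63277) (nat_lit 4003978729) (nat_lit 6337) (nat_lit 189160687) (PL.cons (nat_lit 63247) (nat_lit 4000183009) (nat_lit 6336) (nat_lit 189097440) (PL.cons (nat_lit 63241) (nat_lit 3999424081) (nat_lit 6335) (nat_lit 189034199) (PL.cons (nat_lit 63211) (nat_lit 3995630521) (nat_lit 6334) (nat_lit 188970988) (PL.cons (nat_lit 63199) (nat_lit 3994113601) (nat_lit 6333) (nat_lit 188907789) (PL.cons (nat_lit 63197) (nat_lit 3993860809)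 (nat_lit 6332) (nat_lit 188844592) (PL.cons (nat_lit 63179) (nat_lit 3991586041) (nat_lit 6331) (nat_lit 188781413) (PL.cons (nat_lit 63149) (nat_lit 3987796201) (nat_lit 6330) (nat_lit 188718264) (PL.cons (nat_lit 63131) (nat_lit 3985523161) (nat_lit 6329) (nat_lit 188655133) (PL.cons (nat_lit 63127) (nat_lit 3985018129) (nat_lit 6328) (nat_lit 188592006) (PL.cons (nat_lit 63113) (nat_lit 3983250769) (nat_lit 6327) (nat_lit 188528893) (PL.cons (nat_lit 63103) (nat_lit 3981988609) (nat_lit 6326) (nat_lit 188465790) (PL.cons (nat_lit 63097) (nat_lit 3981231409) (nat_lit 6325) (nat_lit 188402693) (PL.cons (nat_lit 63079) (nat_lit 3978960241) (nat_lit 6324) (nat_lit 188339614) (PL.cons (nat_lit 63073) (nat_lit 3978203329) (nat_lit 6323) (nat_lit 188276541) (PL.cons (nat_lit 63067) (nat_lit 3977446489) (nat_lit 6322) (nat_lit 188213474) (PL.cons (nat_lit 63059) (nat_lit 3976437481) (nat_lit 6321) (nat_lit 188150415) (PL.cons (nat_lit 63031) (nat_lit 3972906961) (nat_lit 6320)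 (nat_lit 188087384) (PL.cons (nat_lit 63029) (nat_lit 3972654841) (nat_lit 6319) (nat_lit 188024355) (PL.cons (nat_lit 62989) (nat_lit 3967614121) (nat_lit 6318) (nat_lit 187961366) (PL.cons (nat_lit 62987) (nat_lit 3967362169) (nat_lit 6317) (nat_lit 187898379) (PL.cons (nat_lit 62983) (nat_lit 3966858289) (nat_lit 6316) (nat_lit 187835396) (PL.cons (nat_lit 62981) (nat_lit 3966606361) (nat_lit 6315) (nat_lit 187772415) (PL.cons (nat_lit 62971) (nat_lit 3965346841) (nat_lit 6314) (nat_lit 187709444) (PL.cons (nat_lit 62969) (nat_lit 3965094961) (nat_lit 6313) (nat_lit 187646475) (PL.cons (nat_lit 62939) (nat_lit 3961317721) (nat_lit 6312) (nat_lit 187583536) (PL.cons (nat_lit 62929) (nat_lit 3960059041) (nat_lit 6311) (nat_lit 187520607) (PL.cons (nat_lit 62927) (nat_lit 3959807329) (nat_lit 6310) (nat_lit 187457680) (PL.cons (nat_lit 62921) (nat_lit 3959052241) (nat_lit 6309) (nat_lit 187394759) (PL.cons (nat_lit 62903) (nat_lit 3956787409) (nat_lit 6308) (nat_lit 187331856)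 (PL.cons (nat_lit 62897) (nat_lit 3956032609) (nat_lit 6307) (nat_lit 187268959) (PL.cons (nat_lit 62873) (nat_lit 3953014129) (nat_lit 6306) (nat_lit 187206086) (PL.cons (nat_lit 62869) (nat_lit 3952511161) (nat_lit 6305) (nat_lit 187143217) (PL.cons (nat_lit 62861) (nat_lit 3951505321) (nat_lit 6304) (nat_lit 187080356) (PL.cons (nat_lit 62851) (nat_lit 3950248201) (nat_lit 6303) (nat_lit 187017505) (PL.cons (nat_lit 62827) (nat_lit 3947231929) (nat_lit 6302) (nat_lit 186954678) (PL.cons (nat_lit 62819) (nat_lit 3946226761) (nat_lit 6301) (nat_lit 186891859) (PL.cons (nat_lit 62801) (nat_lit 3943965601) (nat_lit 6300) (nat_lit 186829058) (PL.cons (nat_lit 62791) (nat_lit 3942709681) (nat_lit 6299) (nat_lit 186766267) (PL.cons (nat_lit 62773) (nat_lit 3940449529) (nat_lit 6298) (nat_lit 186703494) (PL.cons (nat_lit 62761) (nat_lit 3938943121) (nat_lit 6297) (nat_lit 186640733) (PL.cons (nat_lit 62753) (nat_lit 3937939009) (nat_lit 6296) (nat_lit 186577980) (PL.cons (nat_lit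 62743) (nat_lit 3936684049) (nat_lit 6295) (nat_lit 186515237) (PL.cons (nat_lit 62731) (nat_lit 3935178361) (nat_lit 6294) (nat_lit 186452506) (PL.cons (nat_lit 62723) (nat_lit 3934174729) (nat_lit 6293) (nat_lit 186389783) (PL.cons (nat_lit 62701) (nat_lit 3931415401) (nat_lit 6292) (nat_lit 186327082) (PL.cons (nat_lit 62687) (nat_lit 3929659969) (nat_lit 6291) (nat_lit 186264395) (PL.cons (nat_lit 62683) (nat_lit 3929158489) (nat_lit 6290) (nat_lit 186201712) (PL.cons (nat_lit 62659) (nat_lit 3926150281) (nat_lit 6289) (nat_lit 186139053) (PL.cons (nat_lit 62653) (nat_lit 3925398409) (nat_lit 6288) (nat_lit 186076400) (PL.cons (nat_lit 62639) (nat_lit 3923644321) (nat_lit 6287) (nat_lit 186013761) (PL.cons (nat_lit 62633) (nat_lit 3922892689) (nat_lit 6286) (nat_lit 185951128) (PL.cons (nat_lit 62627) (nat_lit 3922141129) (nat_lit 6285) (nat_lit 185888501) (PL.cons (nat_lit 62617) (nat_lit 3920888689) (nat_lit 6284) (nat_lit 185825884) (PL.cons (nat_lit 62603) (nat_lit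 3919135609) (nat_lit 6283) (nat_lit 185763281) (PL.cons (nat_lit 62597) (nat_lit 3918384409) (nat_lit 6282) (nat_lit 185700684) (PL.cons (nat_lit 62591) (nat_lit 3917633281) (nat_lit 6281) (nat_lit 185638093) (PL.cons (nat_lit 62581) (nat_lit 3916381561) (nat_lit 6280) (nat_lit 185575512) (PL.cons (nat_lit 62563) (nat_lit 3914128969) (nat_lit 6279) (nat_lit 185512949) (PL.cons (nat_lit 62549) (nat_lit 3912377401) (nat_lit 6278) (nat_lit 185450400) (PL.cons (nat_lit 62539) (nat_lit 3911126521) (nat_lit 6277) (nat_lit 185387861) (PL.cons (nat_lit 62533) (nat_lit 3910376089) (nat_lit 6276) (nat_lit 185325328) (PL.cons (nat_lit 62507) (nat_lit 3907125049) (nat_lit 6275) (nat_lit 185262821) (PL.cons (nat_lit 62501) (nat_lit 3906375001) (nat_lit 6274) (nat_lit 185200320) (PL.cons (nat_lit 62497) (nat_lit 3905875009) (nat_lit 6273) (nat_lit 185137823) (PL.cons (nat_lit 62483) (nat_lit 3904125289) (nat_lit 6272) (nat_lit 185075340) (PL.cons (nat_lit 62477) (nat_lit 3903375529)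 (nat_lit 6271) (nat_lit 185012863) (PL.cons (nat_lit 62473) (nat_lit 3902875729) (nat_lit 6270) (nat_lit 184950390) (PL.cons (nat_lit 62467) (nat_lit 3902126089) (nat_lit 6269) (nat_lit 184887923) (PL.cons (nat_lit 62459) (nat_lit 3901126681) (nat_lit 6268) (nat_lit 184825464) (PL.cons (nat_lit 62423) (nat_lit 3896630929) (nat_lit 6267) (nat_lit 184763041) (PL.cons (nat_lit 62417) (nat_lit 3895881889) (nat_lit 6266) (nat_lit 184700624) (PL.cons (nat_lit 62401) (nat_lit 3893884801) (nat_lit 6265) (nat_lit 184638223) (PL.cons (nat_lit 62383) (nat_lit 3891638689) (nat_lit 6264) (nat_lit 184575840) (PL.cons (nat_lit 62351) (nat_lit 3887647201) (nat_lit 6263) (nat_lit 184513489) (PL.cons (nat_lit 62347) (nat_lit 3887148409) (nat_lit 6262) (nat_lit 184451142) (PL.cons (nat_lit 62327) (nat_lit 3884654929) (nat_lit 6261) (nat_lit 184388815) (PL.cons (nat_lit 62323) (nat_lit 3884156329) (nat_lit 6260) (nat_lit 184326492) (PL.cons (nat_lit 62311) (nat_lit 3882660721) (nat_lit 6259)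 (nat_lit 184264181) (PL.cons (nat_lit 62303) (nat_lit 3881663809) (nat_lit 6258) (nat_lit 184201878) (PL.cons (nat_lit 62299) (nat_lit 3881165401) (nat_lit 6257) (nat_lit 184139579) (PL.cons (nat_lit 62297) (nat_lit 3880916209) (nat_lit 6256) (nat_lit 184077282) (PL.cons (nat_lit 62273) (nat_lit 3877926529) (nat_lit 6255) (nat_lit 184015009) (PL.cons (nat_lit 62233) (nat_lit 3872946289) (nat_lit 6254) (nat_lit 183952776) (PL.cons (nat_lit 62219) (nat_lit 3871203961) (nat_lit 6253) (nat_lit 183890557) (PL.cons (nat_lit 62213) (nat_lit 3870457369) (nat_lit 6252) (nat_lit 183828344) (PL.cons (nat_lit 62207) (nat_lit 3869710849) (nat_lit 6251) (nat_lit 183766137) (PL.cons (nat_lit 62201) (nat_lit 3868964401) (nat_lit 6250) (nat_lit 183703936) (PL.cons (nat_lit 62191) (nat_lit 3867720481) (nat_lit 6249) (nat_lit 183641745) (PL.cons (nat_lit 62189) (nat_lit 3867471721) (nat_lit 6248) (nat_lit 183579556) (PL.cons (nat_lit 62171) (nat_lit 3865233241) (nat_lit 6247) (nat_lit 183517385)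 (PL.cons (nat_lit 62143) (nat_lit 3861752449) (nat_lit 6246) (nat_lit 183455242) (PL.cons (nat_lit 62141) (nat_lit 3861503881) (nat_lit 6245) (nat_lit 183393101) (PL.cons (nat_lit 62137) (nat_lit 3861006769) (nat_lit 6244) (nat_lit 183330964) (PL.cons (nat_lit 62131) (nat_lit 3860261161) (nat_lit 6243) (nat_lit 183268833) (PL.cons (nat_lit 62129) (nat_lit 3860012641) (nat_lit 6242) (nat_lit 183206704) (PL.cons (nat_lit 62119) (nat_lit 3858770161) (nat_lit 6241) (nat_lit 183144585) (PL.cons (nat_lit 62099) (nat_lit 3856285801) (nat_lit 6240) (nat_lit 183082486) (PL.cons (nat_lit 62081) (nat_lit 3854050561) (nat_lit 6239) (nat_lit 183020405) (PL.cons (nat_lit 62071) (nat_lit 3852809041) (nat_lit 6238) (nat_lit 182958334) (PL.cons (nat_lit 62057) (nat_lit 3851071249) (nat_lit 6237) (nat_lit 182896277) (PL.cons (nat_lit 62053) (nat_lit 3850574809) (nat_lit 6236) (nat_lit 182834224) (PL.cons (nat_lit 62047) (nat_lit 3849830209) (nat_lit 6235) (nat_lit 182772177) (PL.cons (nat_lit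 62039) (nat_lit 3848837521) (nat_lit 6234) (nat_lit 182710138) (PL.cons (nat_lit 62017) (nat_lit 3846108289) (nat_lit 6233) (nat_lit 182648121) (PL.cons (nat_lit 62011) (nat_lit 3845364121) (nat_lit 6232) (nat_lit 182586110) (PL.cons (nat_lit 62003) (nat_lit 3844372009) (nat_lit 6231) (nat_lit 182524107) (PL.cons (nat_lit 61991) (nat_lit 3842884081) (nat_lit 6230) (nat_lit 182462116) (PL.cons (nat_lit 61987) (nat_lit 3842388169) (nat_lit 6229) (nat_lit 182400129) (PL.cons (nat_lit 61981) (nat_lit 3841644361) (nat_lit 6228) (nat_lit 182338148) (PL.cons (nat_lit 61979) (nat_lit 3841396441) (nat_lit 6227) (nat_lit 182276169) (PL.cons (nat_lit 61967) (nat_lit 3839909089) (nat_lit 6226) (nat_lit 182214202) (PL.cons (nat_lit 61961) (nat_lit 3839165521) (nat_lit 6225) (nat_lit 182152241) (PL.cons (nat_lit 61949) (nat_lit 3837678601) (nat_lit 6224) (nat_lit 182090292) (PL.cons (nat_lit 61933) (nat_lit 3835696489) (nat_lit 6223) (nat_lit 182028359) (PL.cons (nat_lit 61927) (nat_lit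 3834953329) (nat_lit 6222) (nat_lit 181966432) (PL.cons (nat_lit 61909) (nat_lit 3832724281) (nat_lit 6221) (nat_lit 181904523) (PL.cons (nat_lit 61879) (nat_lit 3829010641) (nat_lit 6220) (nat_lit 181842644) (PL.cons (nat_lit 61871) (nat_lit 3828020641) (nat_lit 6219) (nat_lit 181780773) (PL.cons (nat_lit 61861) (nat_lit 3826783321) (nat_lit 6218) (nat_lit 181718912) (PL.cons (nat_lit 61843) (nat_lit 3824556649) (nat_lit 6217) (nat_lit 181657069) (PL.cons (nat_lit 61837) (nat_lit 3823814569) (nat_lit 6216) (nat_lit 181595232) (PL.cons (nat_lit 61819) (nat_lit 3821588761) (nat_lit 6215) (nat_lit 181533413) (PL.cons (nat_lit 61813) (nat_lit 3820846969) (nat_lit 6214) (nat_lit 181471600) (PL.cons (nat_lit 61781) (nat_lit 3816891961) (nat_lit 6213) (nat_lit 181409819) (PL.cons (nat_lit 61757) (nat_lit 3813927049) (nat_lit 6212) (nat_lit 181348062) (PL.cons (nat_lit 61751) (nat_lit 3813186001) (nat_lit 6211) (nat_lit 181286311) (PL.cons (nat_lit 61729) (nat_lit 3810469441)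 (nat_lit 6210) (nat_lit 181224582) (PL.cons (nat_lit 61723) (nat_lit 3809728729) (nat_lit 6209) (nat_lit 181162859) (PL.cons (nat_lit 61717) (nat_lit 3808988089) (nat_lit 6208) (nat_lit 181101142) (PL.cons (nat_lit 61703) (nat_lit 3807260209) (nat_lit 6207) (nat_lit 181039439) (PL.cons (nat_lit 61687) (nat_lit 3805285969) (nat_lit 6206) (nat_lit 180977752) (PL.cons (nat_lit 61681) (nat_lit 3804545761) (nat_lit 6205) (nat_lit 180916071) (PL.cons (nat_lit 61673) (nat_lit 3803558929) (nat_lit 6204) (nat_lit 180854398) (PL.cons (nat_lit 61667) (nat_lit 3802818889) (nat_lit 6203) (nat_lit 180792731) (PL.cons (nat_lit 61657) (nat_lit 3801585649) (nat_lit 6202) (nat_lit 180731074) (PL.cons (nat_lit 61651) (nat_lit 3800845801) (nat_lit 6201) (nat_lit 180669423) (PL.cons (nat_lit 61643) (nat_lit 3799859449) (nat_lit 6200) (nat_lit 180607780) (PL.cons (nat_lit 61637) (nat_lit 3799119769) (nat_lit 6199) (nat_lit 180546143) (PL.cons (nat_lit 61631) (nat_lit 3798380161) (nat_lit 6198)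 (nat_lit 180484512) (PL.cons (nat_lit 61627) (nat_lit 3797887129) (nat_lit 6197) (nat_lit 180422885) (PL.cons (nat_lit 61613) (nat_lit 3796161769) (nat_lit 6196) (nat_lit 180361272) (PL.cons (nat_lit 61609) (nat_lit 3795668881) (nat_lit 6195) (nat_lit 180299663) (PL.cons (nat_lit 61603) (nat_lit 3794929609) (nat_lit 6194) (nat_lit 180238060) (PL.cons (nat_lit 61583) (nat_lit 3792465889) (nat_lit 6193) (nat_lit 180176477) (PL.cons (nat_lit 61561) (nat_lit 3789756721) (nat_lit 6192) (nat_lit 180114916) (PL.cons (nat_lit 61559) (nat_lit 3789510481) (nat_lit 6191) (nat_lit 180053357) (PL.cons (nat_lit 61553) (nat_lit 3788771809) (nat_lit 6190) (nat_lit 179991804) (PL.cons (nat_lit 61547) (nat_lit 3788033209) (nat_lit 6189) (nat_lit 179930257) (PL.cons (nat_lit 61543) (nat_lit 3787540849) (nat_lit 6188) (nat_lit 179868714) (PL.cons (nat_lit 61519) (nat_lit 3784587361) (nat_lit 6187) (nat_lit 179807195) (PL.cons (nat_lit 61511) (nat_lit 3783603121) (nat_lit 6186) (nat_lit 179745684)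 (PL.cons (nat_lit 61507) (nat_lit 3783111049) (nat_lit 6185) (nat_lit 179684177) (PL.cons (nat_lit 61493) (nat_lit 3781389049) (nat_lit 6184) (nat_lit 179622684) (PL.cons (nat_lit 61487) (nat_lit 3780651169) (nat_lit 6183) (nat_lit 179561197) (PL.cons (nat_lit 61483) (nat_lit 3780159289) (nat_lit 6182) (nat_lit 179499714) (PL.cons (nat_lit 61471) (nat_lit 3778683841) (nat_lit 6181) (nat_lit 179438243) (PL.cons (nat_lit 61469) (nat_lit 3778437961) (nat_lit 6180) (nat_lit 179376774) (PL.cons (nat_lit 61463) (nat_lit 3777700369) (nat_lit 6179) (nat_lit 179315311) (PL.cons (nat_lit 61441) (nat_lit 3774996481) (nat_lit 6178) (nat_lit 179253870) (PL.cons (nat_lit 61417) (nat_lit 3772047889) (nat_lit 6177) (nat_lit 179192453) (PL.cons (nat_lit 61409) (nat_lit 3771065281) (nat_lit 6176) (nat_lit 179131044) (PL.cons (nat_lit 61403) (nat_lit 3770328409) (nat_lit 6175) (nat_lit 179069641) (PL.cons (nat_lit 61381) (nat_lit 3767627161) (nat_lit 6174) (nat_lit 179008260) (PL.cons (nat_lit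 61379) (nat_lit 3767381641) (nat_lit 6173) (nat_lit 178946881) (PL.cons (nat_lit 61363) (nat_lit 3765417769) (nat_lit 6172) (nat_lit 178885518) (PL.cons (nat_lit 61357) (nat_lit 3764681449) (nat_lit 6171) (nat_lit 178824161) (PL.cons (nat_lit 61343) (nat_lit 3762963649) (nat_lit 6170) (nat_lit 178762818) (PL.cons (nat_lit 61339) (nat_lit 3762472921) (nat_lit 6169) (nat_lit 178701479) (PL.cons (nat_lit 61333) (nat_lit 3761736889) (nat_lit 6168) (nat_lit 178640146) (PL.cons (nat_lit 61331) (nat_lit 3761491561) (nat_lit 6167) (nat_lit 178578815) (PL.cons (nat_lit 61297) (nat_lit 3757322209) (nat_lit 6166) (nat_lit 178517518) (PL.cons (nat_lit 61291) (nat_lit 3756586681) (nat_lit 6165) (nat_lit 178456227) (PL.cons (nat_lit 61283) (nat_lit 3755606089) (nat_lit 6164) (nat_lit 178394944) (PL.cons (nat_lit 61261) (nat_lit 3752910121) (nat_lit 6163) (nat_lit 178333683) (PL.cons (nat_lit 61253) (nat_lit 3751930009) (nat_lit 6162) (nat_lit 178272430) (PL.cons (nat_lit 61231) (nat_lit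 3749235361) (nat_lit 6161) (nat_lit 178211199) (PL.cons (nat_lit 61223) (nat_lit 3748255729) (nat_lit 6160) (nat_lit 178149976) (PL.cons (nat_lit 61211) (nat_lit 3746786521) (nat_lit 6159) (nat_lit 178088765) (PL.cons (nat_lit 61169) (nat_lit 3741646561) (nat_lit 6158) (nat_lit 178027596) (PL.cons (nat_lit 61153) (nat_lit 3739689409) (nat_lit 6157) (nat_lit 177966443) (PL.cons (nat_lit 61151) (nat_lit 3739444801) (nat_lit 6156) (nat_lit 177905292) (PL.cons (nat_lit 61141) (nat_lit 3738221881) (nat_lit 6155) (nat_lit 177844151) (PL.cons (nat_lit 61129) (nat_lit 3736754641) (nat_lit 6154) (nat_lit 177783022) (PL.cons (nat_lit 61121) (nat_lit 3735776641) (nat_lit 6153) (nat_lit 177721901) (PL.cons (nat_lit 61099) (nat_lit 3733087801) (nat_lit 6152) (nat_lit 177660802) (PL.cons (nat_lit 61091) (nat_lit 3732110281) (nat_lit 6151) (nat_lit 177599711) (PL.cons (nat_lit 61057) (nat_lit 3727957249) (nat_lit 6150) (nat_lit 177538654) (PL.cons (nat_lit 61051) (nat_lit 3727224601)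 (nat_lit 6149) (nat_lit 177477603) (PL.cons (nat_lit 61043) (nat_lit 3726247849) (nat_lit 6148) (nat_lit 177416560) (PL.cons (nat_lit 61031) (nat_lit 3724782961) (nat_lit 6147) (nat_lit 177355529) (PL.cons (nat_lit 61027) (nat_lit 3724294729) (nat_lit 6146) (nat_lit 177294502) (PL.cons (nat_lit 61007) (nat_lit 3721854049) (nat_lit 6145) (nat_lit 177233495) (PL.cons (nat_lit 61001) (nat_lit 3721122001) (nat_lit 6144) (nat_lit 177172494) (PL.cons (nat_lit 60961) (nat_lit 3716243521) (nat_lit 6143) (nat_lit 177111533) (PL.cons (nat_lit 60953) (nat_lit 3715268209) (nat_lit 6142) (nat_lit 177050580) (PL.cons (nat_lit 60943) (nat_lit 3714049249) (nat_lit 6141) (nat_lit 176989637) (PL.cons (nat_lit 60937) (nat_lit 3713317969) (nat_lit 6140) (nat_lit 176928700) (PL.cons (nat_lit 60923) (nat_lit 3711611929) (nat_lit 6139) (nat_lit 176867777) (PL.cons (nat_lit 60919) (nat_lit 3711124561) (nat_lit 6138) (nat_lit 176806858) (PL.cons (nat_lit 60917) (nat_lit 3710880889) (nat_lit 6137)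 (nat_lit 176745941) (PL.cons (nat_lit 60913) (nat_lit 3710393569) (nat_lit 6136) (nat_lit 176685028) (PL.cons (nat_lit 60901) (nat_lit 3708931801) (nat_lit 6135) (nat_lit 176624127) (PL.cons (nat_lit 60899) (nat_lit 3708688201) (nat_lit 6134) (nat_lit 176563228) (PL.cons (nat_lit 60889) (nat_lit 3707470321) (nat_lit 6133) (nat_lit 176502339) (PL.cons (nat_lit 60887) (nat_lit 3707226769) (nat_lit 6132) (nat_lit 176441452) (PL.cons (nat_lit 60869) (nat_lit 3705035161) (nat_lit 6131) (nat_lit 176380583) (PL.cons (nat_lit 60859) (nat_lit 3703817881) (nat_lit 6130) (nat_lit 176319724) (PL.cons (nat_lit 60821) (nat_lit 3699194041) (nat_lit 6129) (nat_lit 176258903) (PL.cons (nat_lit 60811) (nat_lit 3697977721) (nat_lit 6128) (nat_lit 176198092) (PL.cons (nat_lit 60793) (nat_lit 3695788849) (nat_lit 6127) (nat_lit 176137299) (PL.cons (nat_lit 60779) (nat_lit 3694086841) (nat_lit 6126) (nat_lit 176076520) (PL.cons (nat_lit 60773) (nat_lit 3693357529) (nat_lit 6125) (nat_lit 176015747)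 (PL.cons (nat_lit 60763) (nat_lit 3692142169) (nat_lit 6124) (nat_lit 175954984) (PL.cons (nat_lit 60761) (nat_lit 3691899121) (nat_lit 6123) (nat_lit 175894223) (PL.cons (nat_lit 60757) (nat_lit 3691413049) (nat_lit 6122) (nat_lit 175833466) (PL.cons (nat_lit 60737) (nat_lit 3688983169) (nat_lit 6121) (nat_lit 175772729) (PL.cons (nat_lit 60733) (nat_lit 3688497289) (nat_lit 6120) (nat_lit 175711996) (PL.cons (nat_lit 60727) (nat_lit 3687768529) (nat_lit 6119) (nat_lit 175651269) (PL.cons (nat_lit 60719) (nat_lit 3686796961) (nat_lit 6118) (nat_lit 175590550) (PL.cons (nat_lit 60703) (nat_lit 3684854209) (nat_lit 6117) (nat_lit 175529847) (PL.cons (nat_lit 60689) (nat_lit 3683154721) (nat_lit 6116) (nat_lit 175469158) (PL.cons (nat_lit 60679) (nat_lit 3681941041) (nat_lit 6115) (nat_lit 175408479) (PL.cons (nat_lit 60661) (nat_lit 3679756921) (nat_lit 6114) (nat_lit 175347818) (PL.cons (nat_lit 60659) (nat_lit 3679514281) (nat_lit 6113) (nat_lit 175287159) (PL.cons (nat_lit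 60649) (nat_lit 3678301201) (nat_lit 6112) (nat_lit 175226510) (PL.cons (nat_lit 60647) (nat_lit 3678058609) (nat_lit 6111) (nat_lit 175165863) (PL.cons (nat_lit 60637) (nat_lit 3676845769) (nat_lit 6110) (nat_lit 175105226) (PL.cons (nat_lit 60631) (nat_lit 3676118161) (nat_lit 6109) (nat_lit 175044595) (PL.cons (nat_lit 60623) (nat_lit 3675148129) (nat_lit 6108) (nat_lit 174983972) (PL.cons (nat_lit 60617) (nat_lit 3674420689) (nat_lit 6107) (nat_lit 174923355) (PL.cons (nat_lit 60611) (nat_lit 3673693321) (nat_lit 6106) (nat_lit 174862744) (PL.cons (nat_lit 60607) (nat_lit 3673208449) (nat_lit 6105) (nat_lit 174802137) (PL.cons (nat_lit 60601) (nat_lit 3672481201) (nat_lit 6104) (nat_lit 174741536) (PL.cons (nat_lit 60589) (nat_lit 3671026921) (nat_lit 6103) (nat_lit 174680947) (PL.cons (nat_lit 60539) (nat_lit 3664970521) (nat_lit 6102) (nat_lit 174620408) (PL.cons (nat_lit 60527) (nat_lit 3663517729) (nat_lit 6101) (nat_lit 174559881) (PL.cons (nat_lit 60521) (nat_lit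 3662791441) (nat_lit 6100) (nat_lit 174499360) (PL.cons (nat_lit 60509) (nat_lit 3661339081) (nat_lit 6099) (nat_lit 174438851) (PL.cons (nat_lit 60497) (nat_lit 3659887009) (nat_lit 6098) (nat_lit 174378354) (PL.cons (nat_lit 60493) (nat_lit 3659403049) (nat_lit 6097) (nat_lit 174317861) (PL.cons (nat_lit 60457) (nat_lit 3655048849) (nat_lit 6096) (nat_lit 174257404) (PL.cons (nat_lit 60449) (nat_lit 3654081601) (nat_lit 6095) (nat_lit 174196955) (PL.cons (nat_lit 60443) (nat_lit 3653356249) (nat_lit 6094) (nat_lit 174136512) (PL.cons (nat_lit 60427) (nat_lit 3651422329) (nat_lit 6093) (nat_lit 174076085) (PL.cons (nat_lit 60413) (nat_lit 3649730569) (nat_lit 6092) (nat_lit 174015672) (PL.cons (nat_lit 60397) (nat_lit 3647797609) (nat_lit 6091) (nat_lit 173955275) (PL.cons (nat_lit 60383) (nat_lit 3646106689) (nat_lit 6090) (nat_lit 173894892) (PL.cons (nat_lit 60373) (nat_lit 3644899129) (nat_lit 6089) (nat_lit 173834519) (PL.cons (nat_lit 60353) (nat_lit 3642484609)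 (nat_lit 6088) (nat_lit 173774166) (PL.cons (nat_lit 60343) (nat_lit 3641277649) (nat_lit 6087) (nat_lit 173713823) (PL.cons (nat_lit 60337) (nat_lit 3640553569) (nat_lit 6086) (nat_lit 173653486) (PL.cons (nat_lit 60331) (nat_lit 3639829561) (nat_lit 6085) (nat_lit 173593155) (PL.cons (nat_lit 60317) (nat_lit 3638140489) (nat_lit 6084) (nat_lit 173532838) (PL.cons (nat_lit 60293) (nat_lit 3635245849) (nat_lit 6083) (nat_lit 173472545) (PL.cons (nat_lit 60289) (nat_lit 3634763521) (nat_lit 6082) (nat_lit 173412256) (PL.cons (nat_lit 60271) (nat_lit 3632593441) (nat_lit 6081) (nat_lit 173351985) (PL.cons (nat_lit 60259) (nat_lit 3631147081) (nat_lit 6080) (nat_lit 173291726) (PL.cons (nat_lit 60257) (nat_lit 3630906049) (nat_lit 6079) (nat_lit 173231469) (PL.cons (nat_lit 60251) (nat_lit 3630183001) (nat_lit 6078) (nat_lit 173171218) (PL.cons (nat_lit 60223) (nat_lit 3626809729) (nat_lit 6077) (nat_lit 173110995) (PL.cons (nat_lit 60217) (nat_lit 3626087089) (nat_lit 6076)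 (nat_lit 173050778) (PL.cons (nat_lit 60209) (nat_lit 3625123681) (nat_lit 6075) (nat_lit 172990569) (PL.cons (nat_lit 60169) (nat_lit 3620308561) (nat_lit 6074) (nat_lit 172930400) (PL.cons (nat_lit 60167) (nat_lit 3620067889) (nat_lit 6073) (nat_lit 172870233) (PL.cons (nat_lit 60161) (nat_lit 3619345921) (nat_lit 6072) (nat_lit 172810072) (PL.cons (nat_lit 60149) (nat_lit 3617902201) (nat_lit 6071) (nat_lit 172749923) (PL.cons (nat_lit 60139) (nat_lit 3616699321) (nat_lit 6070) (nat_lit 172689784) (PL.cons (nat_lit 60133) (nat_lit 3615977689) (nat_lit 6069) (nat_lit 172629651) (PL.cons (nat_lit 60127) (nat_lit 3615256129) (nat_lit 6068) (nat_lit 172569524) (PL.cons (nat_lit 60107) (nat_lit 3612851449) (nat_lit 6067) (nat_lit 172509417) (PL.cons (nat_lit 60103) (nat_lit 3612370609) (nat_lit 6066) (nat_lit 172449314) (PL.cons (nat_lit 60101) (nat_lit 3612130201) (nat_lit 6065) (nat_lit 172389213) (PL.cons (nat_lit 60091) (nat_lit 3610928281) (nat_lit 6064) (nat_lit 172329122)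 (PL.cons (nat_lit 60089) (nat_lit 3610687921) (nat_lit 6063) (nat_lit 172269033) (PL.cons (nat_lit 60083) (nat_lit 3609966889) (nat_lit 6062) (nat_lit 172208950) (PL.cons (nat_lit 60077) (nat_lit 3609245929) (nat_lit 6061) (nat_lit 172148873) (PL.cons (nat_lit 60041) (nat_lit 3604921681) (nat_lit 6060) (nat_lit 172088832) L24))))))))))))))))))))))))))))))))))))))))))))))))))))))))))))))))))))))))))))))))))))))))))))))))))))))))))))))))))))))))))))))))))))))))))))))))))))))))))))))))))))))))))))))))))))))))))))))))))))))))))))))))))))))))))))))))))))))))))))))))))))))))))))))))))))))))))))))))))))))))))))))))))))))))))))))))))))))))))))))))))))))))))))))))))))))))))))))))))))))))))))))))))))))))))))))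

def L26 : PL := (PL.cons (nat_lit 68639) (nat_lit 4711312321) (nat_lit 6821) (nat_lit 221060499) (PL.cons (nat_lit 68633) (nat_lit 4710488689) (nat_lit 6820) (nat_lit 220991866) (PL.cons (nat_lit 68611) (nat_lit 4707469321) (nat_lit 6819) (nat_lit 220923255) (PL.cons (nat_lit 68597) (nat_lit 4705548409) (nat_lit 6818) (nat_lit 220854658) (PL.cons (nat_lit 68581) (nat_lit 4703353561) (nat_lit 6817) (nat_lit 220786077) (PL.cons (nat_lit 68567) (nat_lit 4701433489) (nat_lit 6816) (nat_lit 220717510) (PL.cons (nat_lit 68543) (nat_lit 4698142849) (nat_lit 6815) (nat_lit 220648967) (PL.cons (nat_lit 68539) (nat_lit 4697594521) (nat_lit 6814) (nat_lit 220580428) (PL.cons (nat_lit 68531) (nat_lit 4696497961) (nat_lit 6813) (nat_lit 220511897) (PL.cons (nat_lit 68521) (nat_lit 4695127441) (nat_lit 6812) (nat_lit 220443376) (PL.cons (nat_lit 68507) (nat_lit 4693209049) (nat_lit 6811) (nat_lit 220374869) (PL.cons (nat_lit 68501) (nat_lit 4692387001) (nat_lit 6810) (nat_lit 220306368)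 (PL.cons (nat_lit 68491) (nat_lit 4691017081) (nat_lit 6809) (nat_lit 220237877) (PL.cons (nat_lit 68489) (nat_lit 4690743121) (nat_lit 6808) (nat_lit 220169388) (PL.cons (nat_lit 68483) (nat_lit 4689921289) (nat_lit 6807) (nat_lit 220100905) (PL.cons (nat_lit 68477) (nat_lit 4689099529) (nat_lit 6806) (nat_lit 220032428) (PL.cons (nat_lit 68473) (nat_lit 4688551729) (nat_lit 6805) (nat_lit 219963955) (PL.cons (nat_lit 68449) (nat_lit 4685265601) (nat_lit 6804) (nat_lit 219895506) (PL.cons (nat_lit 68447) (nat_lit 4684991809) (nat_lit 6803) (nat_lit 219827059) (PL.cons (nat_lit 68443) (nat_lit 4684444249) (nat_lit 6802) (nat_lit 219758616) (PL.cons (nat_lit 68437) (nat_lit 4683622969) (nat_lit 6801) (nat_lit 219690179) (PL.cons (nat_lit 68399) (nat_lit 4678423201) (nat_lit 6800) (nat_lit 219621780) (PL.cons (nat_lit 68389) (nat_lit 4677055321) (nat_lit 6799) (nat_lit 219553391) (PL.cons (nat_lit 68371) (nat_lit 4674593641) (nat_lit 6798) (nat_lit 219485020) (PL.cons (nat_lit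 68351) (nat_lit 4671859201) (nat_lit 6797) (nat_lit 219416669) (PL.cons (nat_lit 68329) (nat_lit 4668852241) (nat_lit 6796) (nat_lit 219348340) (PL.cons (nat_lit 68311) (nat_lit 4666392721) (nat_lit 6795) (nat_lit 219280029) (PL.cons (nat_lit 68281) (nat_lit 4662294961) (nat_lit 6794) (nat_lit 219211748) (PL.cons (nat_lit 68279) (nat_lit 4662021841) (nat_lit 6793) (nat_lit 219143469) (PL.cons (nat_lit 68261) (nat_lit 4659564121) (nat_lit 6792) (nat_lit 219075208) (PL.cons (nat_lit 68239) (nat_lit 4656561121) (nat_lit 6791) (nat_lit 219006969) (PL.cons (nat_lit 68227) (nat_lit 4654923529) (nat_lit 6790) (nat_lit 218938742) (PL.cons (nat_lit 68219) (nat_lit 4653831961) (nat_lit 6789) (nat_lit 218870523) (PL.cons (nat_lit 68213) (nat_lit 4653013369) (nat_lit 6788) (nat_lit 218802310) (PL.cons (nat_lit 68209) (nat_lit 4652467681) (nat_lit 6787) (nat_lit 218734101) (PL.cons (nat_lit 68207) (nat_lit 4652194849) (nat_lit 6786) (nat_lit 218665894) (PL.cons (nat_lit 68171) (nat_lit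 4647285241) (nat_lit 6785) (nat_lit 218597723) (PL.cons (nat_lit 68161) (nat_lit 4645921921) (nat_lit 6784) (nat_lit 218529562) (PL.cons (nat_lit 68147) (nat_lit 4644013609) (nat_lit 6783) (nat_lit 218461415) (PL.cons (nat_lit 68141) (nat_lit 4643195881) (nat_lit 6782) (nat_lit 218393274) (PL.cons (nat_lit 68113) (nat_lit 4639380769) (nat_lit 6781) (nat_lit 218325161) (PL.cons (nat_lit 68111) (nat_lit 4639108321) (nat_lit 6780) (nat_lit 218257050) (PL.cons (nat_lit 68099) (nat_lit 4637473801) (nat_lit 6779) (nat_lit 218188951) (PL.cons (nat_lit 68087) (nat_lit 4635839569) (nat_lit 6778) (nat_lit 218120864) (PL.cons (nat_lit 68071) (nat_lit 4633661041) (nat_lit 6777) (nat_lit 218052793) (PL.cons (nat_lit 68059) (nat_lit 4632027481) (nat_lit 6776) (nat_lit 217984734) (PL.cons (nat_lit 68053) (nat_lit 4631210809) (nat_lit 6775) (nat_lit 217916681) (PL.cons (nat_lit 68041) (nat_lit 4629577681) (nat_lit 6774) (nat_lit 217848640) (PL.cons (nat_lit 68023) (nat_lit 4627128529)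 (nat_lit 6773) (nat_lit 217780617) (PL.cons (nat_lit 67993) (nat_lit 4623048049) (nat_lit 6772) (nat_lit 217712624) (PL.cons (nat_lit 67987) (nat_lit 4622232169) (nat_lit 6771) (nat_lit 217644637) (PL.cons (nat_lit 67979) (nat_lit 4621144441) (nat_lit 6770) (nat_lit 217576658) (PL.cons (nat_lit 67967) (nat_lit 4619513089) (nat_lit 6769) (nat_lit 217508691) (PL.cons (nat_lit 67961) (nat_lit 4618697521) (nat_lit 6768) (nat_lit 217440730) (PL.cons (nat_lit 67957) (nat_lit 4618153849) (nat_lit 6767) (nat_lit 217372773) (PL.cons (nat_lit 67943) (nat_lit 4616251249) (nat_lit 6766) (nat_lit 217304830) (PL.cons (nat_lit 67939) (nat_lit 4615707721) (nat_lit 6765) (nat_lit 217236891) (PL.cons (nat_lit 67933) (nat_lit 4614892489) (nat_lit 6764) (nat_lit 217168958) (PL.cons (nat_lit 67931) (nat_lit 4614620761) (nat_lit 6763) (nat_lit 217101027) (PL.cons (nat_lit 67927) (nat_lit 4614077329) (nat_lit 6762) (nat_lit 217033100) (PL.cons (nat_lit 67901) (nat_lit 4610545801) (nat_lit 6761)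 (nat_lit 216965199) (PL.cons (nat_lit 67891) (nat_lit 4609187881) (nat_lit 6760) (nat_lit 216897308) (PL.cons (nat_lit 67883) (nat_lit 4608101689) (nat_lit 6759) (nat_lit 216829425) (PL.cons (nat_lit 67867) (nat_lit 4605929689) (nat_lit 6758) (nat_lit 216761558) (PL.cons (nat_lit 67853) (nat_lit 4604029609) (nat_lit 6757) (nat_lit 216693705) (PL.cons (nat_lit 67843) (nat_lit 4602672649) (nat_lit 6756) (nat_lit 216625862) (PL.cons (nat_lit 67829) (nat_lit 4600773241) (nat_lit 6755) (nat_lit 216558033) (PL.cons (nat_lit 67819) (nat_lit 4599416761) (nat_lit 6754) (nat_lit 216490214) (PL.cons (nat_lit 67807) (nat_lit 4597789249) (nat_lit 6753) (nat_lit 216422407) (PL.cons (nat_lit 67801) (nat_lit 4596975601) (nat_lit 6752) (nat_lit 216354606) (PL.cons (nat_lit 67789) (nat_lit 4595348521) (nat_lit 6751) (nat_lit 216286817) (PL.cons (nat_lit 67783) (nat_lit 4594535089) (nat_lit 6750) (nat_lit 216219034) (PL.cons (nat_lit 67777) (nat_lit 4593721729) (nat_lit 6749) (nat_lit 216151257)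 (PL.cons (nat_lit 67763) (nat_lit 4591824169) (nat_lit 6748) (nat_lit 216083494) (PL.cons (nat_lit 67759) (nat_lit 4591282081) (nat_lit 6747) (nat_lit 216015735) (PL.cons (nat_lit 67757) (nat_lit 4591011049) (nat_lit 6746) (nat_lit 215947978) (PL.cons (nat_lit 67751) (nat_lit 4590198001) (nat_lit 6745) (nat_lit 215880227) (PL.cons (nat_lit 67741) (nat_lit 4588843081) (nat_lit 6744) (nat_lit 215812486) (PL.cons (nat_lit 67733) (nat_lit 4587759289) (nat_lit 6743) (nat_lit 215744753) (PL.cons (nat_lit 67723) (nat_lit 4586404729) (nat_lit 6742) (nat_lit 215677030) (PL.cons (nat_lit 67709) (nat_lit 4584508681) (nat_lit 6741) (nat_lit 215609321) (PL.cons (nat_lit 67699) (nat_lit 4583154601) (nat_lit 6740) (nat_lit 215541622) (PL.cons (nat_lit 67679) (nat_lit 4580447041) (nat_lit 6739) (nat_lit 215473943) (PL.cons (nat_lit 67651) (nat_lit 4576657801) (nat_lit 6738) (nat_lit 215406292) (PL.cons (nat_lit 67631) (nat_lit 4573952161) (nat_lit 6737) (nat_lit 215338661) (PL.cons (nat_lit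 67619) (nat_lit 4572329161) (nat_lit 6736) (nat_lit 215271042) (PL.cons (nat_lit 67607) (nat_lit 4570706449) (nat_lit 6735) (nat_lit 215203435) (PL.cons (nat_lit 67601) (nat_lit 4569895201) (nat_lit 6734) (nat_lit 215135834) (PL.cons (nat_lit 67589) (nat_lit 4568272921) (nat_lit 6733) (nat_lit 215068245) (PL.cons (nat_lit 67579) (nat_lit 4566921241) (nat_lit 6732) (nat_lit 215000666) (PL.cons (nat_lit 67577) (nat_lit 4566650929) (nat_lit 6731) (nat_lit 214933089) (PL.cons (nat_lit 67567) (nat_lit 4565299489) (nat_lit 6730) (nat_lit 214865522) (PL.cons (nat_lit 67559) (nat_lit 4564218481) (nat_lit 6729) (nat_lit 214797963) (PL.cons (nat_lit 67547) (nat_lit 4562597209) (nat_lit 6728) (nat_lit 214730416) (PL.cons (nat_lit 67537) (nat_lit 4561246369) (nat_lit 6727) (nat_lit 214662879) (PL.cons (nat_lit 67531) (nat_lit 4560435961) (nat_lit 6726) (nat_lit 214595348) (PL.cons (nat_lit 67523) (nat_lit 4559355529) (nat_lit 6725) (nat_lit 214527825) (PL.cons (nat_lit 67511) (nat_lit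 4557735121) (nat_lit 6724) (nat_lit 214460314) (PL.cons (nat_lit 67499) (nat_lit 4556115001) (nat_lit 6723) (nat_lit 214392815) (PL.cons (nat_lit 67493) (nat_lit 4555305049) (nat_lit 6722) (nat_lit 214325322) (PL.cons (nat_lit 67489) (nat_lit 4554765121) (nat_lit 6721) (nat_lit 214257833) (PL.cons (nat_lit 67481) (nat_lit 4553685361) (nat_lit 6720) (nat_lit 214190352) (PL.cons (nat_lit 67477) (nat_lit 4553145529) (nat_lit 6719) (nat_lit 214122875) (PL.cons (nat_lit 67453) (nat_lit 4549907209) (nat_lit 6718) (nat_lit 214055422) (PL.cons (nat_lit 67447) (nat_lit 4549097809) (nat_lit 6717) (nat_lit 213987975) (PL.cons (nat_lit 67433) (nat_lit 4547209489) (nat_lit 6716) (nat_lit 213920542) (PL.cons (nat_lit 67429) (nat_lit 4546670041) (nat_lit 6715) (nat_lit 213853113) (PL.cons (nat_lit 67427) (nat_lit 4546400329) (nat_lit 6714) (nat_lit 213785686) (PL.cons (nat_lit 67421) (nat_lit 4545591241) (nat_lit 6713) (nat_lit 213718265) (PL.cons (nat_lit 67411) (nat_lit 4544242921)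 (nat_lit 6712) (nat_lit 213650854) (PL.cons (nat_lit 67409) (nat_lit 4543973281) (nat_lit 6711) (nat_lit 213583445) (PL.cons (nat_lit 67399) (nat_lit 4542625201) (nat_lit 6710) (nat_lit 213516046) (PL.cons (nat_lit 67391) (nat_lit 4541546881) (nat_lit 6709) (nat_lit 213448655) (PL.cons (nat_lit 67369) (nat_lit 4538582161) (nat_lit 6708) (nat_lit 213381286) (PL.cons (nat_lit 67349) (nat_lit 4535887801) (nat_lit 6707) (nat_lit 213313937) (PL.cons (nat_lit 67343) (nat_lit 4535079649) (nat_lit 6706) (nat_lit 213246594) (PL.cons (nat_lit 67339) (nat_lit 4534540921) (nat_lit 6705) (nat_lit 213179255) (PL.cons (nat_lit 67307) (nat_lit 4530232249) (nat_lit 6704) (nat_lit 213111948) (PL.cons (nat_lit 67289) (nat_lit 4527809521) (nat_lit 6703) (nat_lit 213044659) (PL.cons (nat_lit 67273) (nat_lit 4525656529) (nat_lit 6702) (nat_lit 212977386) (PL.cons (nat_lit 67271) (nat_lit 4525387441) (nat_lit 6701) (nat_lit 212910115) (PL.cons (nat_lit 67261) (nat_lit 4524042121) (nat_lit 6700)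 (nat_lit 212842854) (PL.cons (nat_lit 67247) (nat_lit 4522159009) (nat_lit 6699) (nat_lit 212775607) (PL.cons (nat_lit 67231) (nat_lit 4520007361) (nat_lit 6698) (nat_lit 212708376) (PL.cons (nat_lit 67219) (nat_lit 4518393961) (nat_lit 6697) (nat_lit 212641157) (PL.cons (nat_lit 67217) (nat_lit 4518125089) (nat_lit 6696) (nat_lit 212573940) (PL.cons (nat_lit 67213) (nat_lit 4517587369) (nat_lit 6695) (nat_lit 212506727) (PL.cons (nat_lit 67211) (nat_lit 4517318521) (nat_lit 6694) (nat_lit 212439516) (PL.cons (nat_lit 67189) (nat_lit 4514361721) (nat_lit 6693) (nat_lit 212372327) (PL.cons (nat_lit 67187) (nat_lit 4514092969) (nat_lit 6692) (nat_lit 212305140) (PL.cons (nat_lit 67181) (nat_lit 4513286761) (nat_lit 6691) (nat_lit 212237959) (PL.cons (nat_lit 67169) (nat_lit 4511674561) (nat_lit 6690) (nat_lit 212170790) (PL.cons (nat_lit 67157) (nat_lit 4510062649) (nat_lit 6689) (nat_lit 212103633) (PL.cons (nat_lit 67153) (nat_lit 4509525409) (nat_lit 6688) (nat_lit 212036480)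 (PL.cons (nat_lit 67141) (nat_lit 4507913881) (nat_lit 6687) (nat_lit 211969339) (PL.cons (nat_lit 67139) (nat_lit 4507645321) (nat_lit 6686) (nat_lit 211902200) (PL.cons (nat_lit 67129) (nat_lit 4506302641) (nat_lit 6685) (nat_lit 211835071) (PL.cons (nat_lit 67121) (nat_lit 4505228641) (nat_lit 6684) (nat_lit 211767950) (PL.cons (nat_lit 67103) (nat_lit 4502812609) (nat_lit 6683) (nat_lit 211700847) (PL.cons (nat_lit 67079) (nat_lit 4499592241) (nat_lit 6682) (nat_lit 211633768) (PL.cons (nat_lit 67073) (nat_lit 4498787329) (nat_lit 6681) (nat_lit 211566695) (PL.cons (nat_lit 67061) (nat_lit 4497177721) (nat_lit 6680) (nat_lit 211499634) (PL.cons (nat_lit 67057) (nat_lit 4496641249) (nat_lit 6679) (nat_lit 211432577) (PL.cons (nat_lit 67049) (nat_lit 4495568401) (nat_lit 6678) (nat_lit 211365528) (PL.cons (nat_lit 67043) (nat_lit 4494763849) (nat_lit 6677) (nat_lit 211298485) (PL.cons (nat_lit 67033) (nat_lit 4493423089) (nat_lit 6676) (nat_lit 211231452) (PL.cons (nat_lit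 67021) (nat_lit 4491814441) (nat_lit 6675) (nat_lit 211164431) (PL.cons (nat_lit 67003) (nat_lit 4489402009) (nat_lit 6674) (nat_lit 211097428) (PL.cons (nat_lit 66977) (nat_lit 4485918529) (nat_lit 6673) (nat_lit 211030451) (PL.cons (nat_lit 66973) (nat_lit 4485382729) (nat_lit 6672) (nat_lit 210963478) (PL.cons (nat_lit 66959) (nat_lit 4483507681) (nat_lit 6671) (nat_lit 210896519) (PL.cons (nat_lit 66949) (nat_lit 4482168601) (nat_lit 6670) (nat_lit 210829570) (PL.cons (nat_lit 66947) (nat_lit 4481900809) (nat_lit 6669) (nat_lit 210762623) (PL.cons (nat_lit 66943) (nat_lit 4481365249) (nat_lit 6668) (nat_lit 210695680) (PL.cons (nat_lit 66931) (nat_lit 4479758761) (nat_lit 6667) (nat_lit 210628749) (PL.cons (nat_lit 66923) (nat_lit 4478687929) (nat_lit 6666) (nat_lit 210561826) (PL.cons (nat_lit 66919) (nat_lit 4478152561) (nat_lit 6665) (nat_lit 210494907) (PL.cons (nat_lit 66889) (nat_lit 4474138321) (nat_lit 6664) (nat_lit 210428018) (PL.cons (nat_lit 66883) (nat_lit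 4473335689) (nat_lit 6663) (nat_lit 210361135) (PL.cons (nat_lit 66877) (nat_lit 4472533129) (nat_lit 6662) (nat_lit 210294258) (PL.cons (nat_lit 66863) (nat_lit 4470660769) (nat_lit 6661) (nat_lit 210227395) (PL.cons (nat_lit 66853) (nat_lit 4469323609) (nat_lit 6660) (nat_lit 210160542) (PL.cons (nat_lit 66851) (nat_lit 4469056201) (nat_lit 6659) (nat_lit 210093691) (PL.cons (nat_lit 66841) (nat_lit 4467719281) (nat_lit 6658) (nat_lit 210026850) (PL.cons (nat_lit 66821) (nat_lit 4465046041) (nat_lit 6657) (nat_lit 209960029) (PL.cons (nat_lit 66809) (nat_lit 4463442481) (nat_lit 6656) (nat_lit 209893220) (PL.cons (nat_lit 66797) (nat_lit 4461839209) (nat_lit 6655) (nat_lit 209826423) (PL.cons (nat_lit 66791) (nat_lit 4461037681) (nat_lit 6654) (nat_lit 209759632) (PL.cons (nat_lit 66763) (nat_lit 4457298169) (nat_lit 6653) (nat_lit 209692869) (PL.cons (nat_lit 66751) (nat_lit 4455696001) (nat_lit 6652) (nat_lit 209626118) (PL.cons (nat_lit 66749) (nat_lit 4455429001)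 (nat_lit 6651) (nat_lit 209559369) (PL.cons (nat_lit 66739) (nat_lit 4454094121) (nat_lit 6650) (nat_lit 209492630) (PL.cons (nat_lit 66733) (nat_lit 4453293289) (nat_lit 6649) (nat_lit 209425897) (PL.cons (nat_lit 66721) (nat_lit 4451691841) (nat_lit 6648) (nat_lit 209359176) (PL.cons (nat_lit 66713) (nat_lit 4450624369) (nat_lit 6647) (nat_lit 209292463) (PL.cons (nat_lit 66701) (nat_lit 4449023401) (nat_lit 6646) (nat_lit 209225762) (PL.cons (nat_lit 66697) (nat_lit 4448489809) (nat_lit 6645) (nat_lit 209159065) (PL.cons (nat_lit 66683) (nat_lit 4446622489) (nat_lit 6644) (nat_lit 209092382) (PL.cons (nat_lit 66653) (nat_lit 4442622409) (nat_lit 6643) (nat_lit 209025729) (PL.cons (nat_lit 66643) (nat_lit 4441289449) (nat_lit 6642) (nat_lit 208959086) (PL.cons (nat_lit 66629) (nat_lit 4439423641) (nat_lit 6641) (nat_lit 208892457) (PL.cons (nat_lit 66617) (nat_lit 4437824689) (nat_lit 6640) (nat_lit 208825840) (PL.cons (nat_lit 66601) (nat_lit 4435693201) (nat_lit 6639)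 (nat_lit 208759239) (PL.cons (nat_lit 66593) (nat_lit 4434627649) (nat_lit 6638) (nat_lit 208692646) (PL.cons (nat_lit 66587) (nat_lit 4433828569) (nat_lit 6637) (nat_lit 208626059) (PL.cons (nat_lit 66571) (nat_lit 4431698041) (nat_lit 6636) (nat_lit 208559488) (PL.cons (nat_lit 66569) (nat_lit 4431431761) (nat_lit 6635) (nat_lit 208492919) (PL.cons (nat_lit 66553) (nat_lit 4429301809) (nat_lit 6634) (nat_lit 208426366) (PL.cons (nat_lit 66541) (nat_lit 4427704681) (nat_lit 6633) (nat_lit 208359825) (PL.cons (nat_lit 66533) (nat_lit 4426640089) (nat_lit 6632) (nat_lit 208293292) (PL.cons (nat_lit 66529) (nat_lit 4426107841) (nat_lit 6631) (nat_lit 208226763) (PL.cons (nat_lit 66523) (nat_lit 4425309529) (nat_lit 6630) (nat_lit 208160240) (PL.cons (nat_lit 66509) (nat_lit 4423447081) (nat_lit 6629) (nat_lit 208093731) (PL.cons (nat_lit 66499) (nat_lit 4422117001) (nat_lit 6628) (nat_lit 208027232) (PL.cons (nat_lit 66491) (nat_lit 4421053081) (nat_lit 6627) (nat_lit 207960741)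 (PL.cons (nat_lit 66467) (nat_lit 4417862089) (nat_lit 6626) (nat_lit 207894274) (PL.cons (nat_lit 66463) (nat_lit 4417330369) (nat_lit 6625) (nat_lit 207827811) (PL.cons (nat_lit 66457) (nat_lit 4416532849) (nat_lit 6624) (nat_lit 207761354) (PL.cons (nat_lit 66449) (nat_lit 4415469601) (nat_lit 6623) (nat_lit 207694905) (PL.cons (nat_lit 66431) (nat_lit 4413077761) (nat_lit 6622) (nat_lit 207628474) (PL.cons (nat_lit 66413) (nat_lit 4410686569) (nat_lit 6621) (nat_lit 207562061) (PL.cons (nat_lit 66403) (nat_lit 4409358409) (nat_lit 6620) (nat_lit 207495658) (PL.cons (nat_lit 66383) (nat_lit 4406702689) (nat_lit 6619) (nat_lit 207429275) (PL.cons (nat_lit 66377) (nat_lit 4405906129) (nat_lit 6618) (nat_lit 207362898) (PL.cons (nat_lit 66373) (nat_lit 4405375129) (nat_lit 6617) (nat_lit 207296525) (PL.cons (nat_lit 66361) (nat_lit 4403782321) (nat_lit 6616) (nat_lit 207230164) (PL.cons (nat_lit 66359) (nat_lit 4403516881) (nat_lit 6615) (nat_lit 207163805) (PL.cons (nat_lit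 66347) (nat_lit 4401924409) (nat_lit 6614) (nat_lit 207097458) (PL.cons (nat_lit 66343) (nat_lit 4401393649) (nat_lit 6613) (nat_lit 207031115) (PL.cons (nat_lit 66337) (nat_lit 4400597569) (nat_lit 6612) (nat_lit 206964778) (PL.cons (nat_lit 66301) (nat_lit 4395822601) (nat_lit 6611) (nat_lit 206898477) (PL.cons (nat_lit 66293) (nat_lit 4394761849) (nat_lit 6610) (nat_lit 206832184) (PL.cons (nat_lit 66271) (nat_lit 4391845441) (nat_lit 6609) (nat_lit 206765913) (PL.cons (nat_lit 66239) (nat_lit 4387605121) (nat_lit 6608) (nat_lit 206699674) (PL.cons (nat_lit 66221) (nat_lit 4385220841) (nat_lit 6607) (nat_lit 206633453) (PL.cons (nat_lit 66191) (nat_lit 4381248481) (nat_lit 6606) (nat_lit 206567262) (PL.cons (nat_lit 66179) (nat_lit 4379660041) (nat_lit 6605) (nat_lit 206501083) (PL.cons (nat_lit 66173) (nat_lit 4378865929) (nat_lit 6604) (nat_lit 206434910) (PL.cons (nat_lit 66169) (nat_lit 4378336561) (nat_lit 6603) (nat_lit 206368741) (PL.cons (nat_lit 66161) (nat_lit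 4377277921) (nat_lit 6602) (nat_lit 206302580) (PL.cons (nat_lit 66137) (nat_lit 4374102769) (nat_lit 6601) (nat_lit 206236443) (PL.cons (nat_lit 66109) (nat_lit 4370399881) (nat_lit 6600) (nat_lit 206170334) (PL.cons (nat_lit 66107) (nat_lit 4370135449) (nat_lit 6599) (nat_lit 206104227) (PL.cons (nat_lit 66103) (nat_lit 4369606609) (nat_lit 6598) (nat_lit 206038124) (PL.cons (nat_lit 66089) (nat_lit 4367755921) (nat_lit 6597) (nat_lit 205972035) (PL.cons (nat_lit 66083) (nat_lit 4366962889) (nat_lit 6596) (nat_lit 205905952) (PL.cons (nat_lit 66071) (nat_lit 4365377041) (nat_lit 6595) (nat_lit 205839881) (PL.cons (nat_lit 66067) (nat_lit 4364848489) (nat_lit 6594) (nat_lit 205773814) (PL.cons (nat_lit 66047) (nat_lit 4362206209) (nat_lit 6593) (nat_lit 205707767) (PL.cons (nat_lit 66041) (nat_lit 4361413681) (nat_lit 6592) (nat_lit 205641726) (PL.cons (nat_lit 66037) (nat_lit 4360885369) (nat_lit 6591) (nat_lit 205575689) (PL.cons (nat_lit 66029) (nat_lit 4359828841)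 (nat_lit 6590) (nat_lit 205509660) (PL.cons (nat_lit 65993) (nat_lit 4355076049) (nat_lit 6589) (nat_lit 205443667) (PL.cons (nat_lit 65983) (nat_lit 4353756289) (nat_lit 6588) (nat_lit 205377684) (PL.cons (nat_lit 65981) (nat_lit 4353492361) (nat_lit 6587) (nat_lit 205311703) (PL.cons (nat_lit 65963) (nat_lit 4351117369) (nat_lit 6586) (nat_lit 205245740) (PL.cons (nat_lit 65957) (nat_lit 4350325849) (nat_lit 6585) (nat_lit 205179783) (PL.cons (nat_lit 65951) (nat_lit 4349534401) (nat_lit 6584) (nat_lit 205113832) (PL.cons (nat_lit 65929) (nat_lit 4346633041) (nat_lit 6583) (nat_lit 205047903) (PL.cons (nat_lit 65927) (nat_lit 4346369329) (nat_lit 6582) (nat_lit 204981976) (PL.cons (nat_lit 65921) (nat_lit 4345578241) (nat_lit 6581) (nat_lit 204916055) (PL.cons (nat_lit 65899) (nat_lit 4342678201) (nat_lit 6580) (nat_lit 204850156) (PL.cons (nat_lit 65881) (nat_lit 4340306161) (nat_lit 6579) (nat_lit 204784275) (PL.cons (nat_lit 65867) (nat_lit 4338461689) (nat_lit 6578)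 (nat_lit 204718408) (PL.cons (nat_lit 65851) (nat_lit 4336354201) (nat_lit 6577) (nat_lit 204652557) (PL.cons (nat_lit 65843) (nat_lit 4335300649) (nat_lit 6576) (nat_lit 204586714) (PL.cons (nat_lit 65839) (nat_lit 4334773921) (nat_lit 6575) (nat_lit 204520875) (PL.cons (nat_lit 65837) (nat_lit 4334510569) (nat_lit 6574) (nat_lit 204455038) (PL.cons (nat_lit 65831) (nat_lit 4333720561) (nat_lit 6573) (nat_lit 204389207) (PL.cons (nat_lit 65827) (nat_lit 4333193929) (nat_lit 6572) (nat_lit 204323380) (PL.cons (nat_lit 65809) (nat_lit 4330824481) (nat_lit 6571) (nat_lit 204257571) (PL.cons (nat_lit 65789) (nat_lit 4328192521) (nat_lit 6570) (nat_lit 204191782) (PL.cons (nat_lit 65777) (nat_lit 4326613729) (nat_lit 6569) (nat_lit 204126005) (PL.cons (nat_lit 65761) (nat_lit 4324509121) (nat_lit 6568) (nat_lit 204060244) (PL.cons (nat_lit 65731) (nat_lit 4320564361) (nat_lit 6567) (nat_lit 203994513) (PL.cons (nat_lit 65729) (nat_lit 4320301441) (nat_lit 6566) (nat_lit 203928784)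 (PL.cons (nat_lit 65719) (nat_lit 4318986961) (nat_lit 6565) (nat_lit 203863065) (PL.cons (nat_lit 65717) (nat_lit 4318724089) (nat_lit 6564) (nat_lit 203797348) (PL.cons (nat_lit 65713) (nat_lit 4318198369) (nat_lit 6563) (nat_lit 203731635) (PL.cons (nat_lit 65707) (nat_lit 4317409849) (nat_lit 6562) (nat_lit 203665928) (PL.cons (nat_lit 65701) (nat_lit 4316621401) (nat_lit 6561) (nat_lit 203600227) (PL.cons (nat_lit 65699) (nat_lit 4316358601) (nat_lit 6560) (nat_lit 203534528) (PL.cons (nat_lit 65687) (nat_lit 4314781969) (nat_lit 6559) (nat_lit 203468841) (PL.cons (nat_lit 65677) (nat_lit 4313468329) (nat_lit 6558) (nat_lit 203403164) (PL.cons (nat_lit 65657) (nat_lit 4310841649) (nat_lit 6557) (nat_lit 203337507) (PL.cons (nat_lit 65651) (nat_lit 4310053801) (nat_lit 6556) (nat_lit 203271856) (PL.cons (nat_lit 65647) (nat_lit 4309528609) (nat_lit 6555) (nat_lit 203206209) (PL.cons (nat_lit 65633) (nat_lit 4307690689) (nat_lit 6554) (nat_lit 203140576) (PL.cons (nat_lit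 65629) (nat_lit 4307165641) (nat_lit 6553) (nat_lit 203074947) (PL.cons (nat_lit 65617) (nat_lit 4305590689) (nat_lit 6552) (nat_lit 203009330) (PL.cons (nat_lit 65609) (nat_lit 4304540881) (nat_lit 6551) (nat_lit 202943721) (PL.cons (nat_lit 65599) (nat_lit 4303228801) (nat_lit 6550) (nat_lit 202878122) (PL.cons (nat_lit 65587) (nat_lit 4301654569) (nat_lit 6549) (nat_lit 202812535) (PL.cons (nat_lit 65581) (nat_lit 4300867561) (nat_lit 6548) (nat_lit 202746954) (PL.cons (nat_lit 65579) (nat_lit 4300605241) (nat_lit 6547) (nat_lit 202681375) (PL.cons (nat_lit 65563) (nat_lit 4298506969) (nat_lit 6546) (nat_lit 202615812) (PL.cons (nat_lit 65557) (nat_lit 4297720249) (nat_lit 6545) (nat_lit 202550255) (PL.cons (nat_lit 65551) (nat_lit 4296933601) (nat_lit 6544) (nat_lit 202484704) (PL.cons (nat_lit 65543) (nat_lit 4295884849) (nat_lit 6543) (nat_lit 202419161) (PL.cons (nat_lit 65539) (nat_lit 4295360521) (nat_lit 6542) (nat_lit 202353622) (PL.cons (nat_lit 65537) (nat_lit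 4295098369) (nat_lit 6541) (nat_lit 202288085) (PL.cons (nat_lit 65521) (nat_lit 4293001441) (nat_lit 6540) (nat_lit 202222564) (PL.cons (nat_lit 65519) (nat_lit 4292739361) (nat_lit 6539) (nat_lit 202157045) (PL.cons (nat_lit 65497) (nat_lit 4289857009) (nat_lit 6538) (nat_lit 202091548) (PL.cons (nat_lit 65479) (nat_lit 4287499441) (nat_lit 6537) (nat_lit 202026069) (PL.cons (nat_lit 65449) (nat_lit 4283571601) (nat_lit 6536) (nat_lit 201960620) (PL.cons (nat_lit 65447) (nat_lit 4283309809) (nat_lit 6535) (nat_lit 201895173) (PL.cons (nat_lit 65437) (nat_lit 4282000969) (nat_lit 6534) (nat_lit 201829736) (PL.cons (nat_lit 65423) (nat_lit 4280168929) (nat_lit 6533) (nat_lit 201764313) (PL.cons (nat_lit 65419) (nat_lit 4279645561) (nat_lit 6532) (nat_lit 201698894) (PL.cons (nat_lit 65413) (nat_lit 4278860569) (nat_lit 6531) (nat_lit 201633481) (PL.cons (nat_lit 65407) (nat_lit 4278075649) (nat_lit 6530) (nat_lit 201568074) (PL.cons (nat_lit 65393) (nat_lit 4276244449)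 (nat_lit 6529) (nat_lit 201502681) (PL.cons (nat_lit 65381) (nat_lit 4274675161) (nat_lit 6528) (nat_lit 201437300) (PL.cons (nat_lit 65371) (nat_lit 4273367641) (nat_lit 6527) (nat_lit 201371929) (PL.cons (nat_lit 65357) (nat_lit 4271537449) (nat_lit 6526) (nat_lit 201306572) (PL.cons (nat_lit 65353) (nat_lit 4271014609) (nat_lit 6525) (nat_lit 201241219) (PL.cons (nat_lit 65327) (nat_lit 4267616929) (nat_lit 6524) (nat_lit 201175892) (PL.cons (nat_lit 65323) (nat_lit 4267094329) (nat_lit 6523) (nat_lit 201110569) (PL.cons (nat_lit 65309) (nat_lit 4265265481) (nat_lit 6522) (nat_lit 201045260) (PL.cons (nat_lit 65293) (nat_lit 4263175849) (nat_lit 6521) (nat_lit 200979967) (PL.cons (nat_lit 65287) (nat_lit 4262392369) (nat_lit 6520) (nat_lit 200914680) (PL.cons (nat_lit 65269) (nat_lit 4260042361) (nat_lit 6519) (nat_lit 200849411) (PL.cons (nat_lit 65267) (nat_lit 4259781289) (nat_lit 6518) (nat_lit 200784144) (PL.cons (nat_lit 65257) (nat_lit 4258476049) (nat_lit 6517)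 (nat_lit 200718887) (PL.cons (nat_lit 65239) (nat_lit 4256127121) (nat_lit 6516) (nat_lit 200653648) (PL.cons (nat_lit 65213) (nat_lit 4252735369) (nat_lit 6515) (nat_lit 200588435) (PL.cons (nat_lit 65203) (nat_lit 4251431209) (nat_lit 6514) (nat_lit 200523232) (PL.cons (nat_lit 65183) (nat_lit 4248823489) (nat_lit 6513) (nat_lit 200458049) (PL.cons (nat_lit 65179) (nat_lit 4248302041) (nat_lit 6512) (nat_lit 200392870) (PL.cons (nat_lit 65173) (nat_lit 4247519929) (nat_lit 6511) (nat_lit 200327697) (PL.cons (nat_lit 65171) (nat_lit 4247259241) (nat_lit 6510) (nat_lit 200262526) (PL.cons (nat_lit 65167) (nat_lit 4246737889) (nat_lit 6509) (nat_lit 200197359) (PL.cons (nat_lit 65147) (nat_lit 4244131609) (nat_lit 6508) (nat_lit 200132212) (PL.cons (nat_lit 65141) (nat_lit 4243349881) (nat_lit 6507) (nat_lit 200067071) (PL.cons (nat_lit 65129) (nat_lit 4241786641) (nat_lit 6506) (nat_lit 200001942) (PL.cons (nat_lit 65123) (nat_lit 4241005129) (nat_lit 6505) (nat_lit 199936819)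 (PL.cons (nat_lit 65119) (nat_lit 4240484161) (nat_lit 6504) (nat_lit 199871700) (PL.cons (nat_lit 65111) (nat_lit 4239442321) (nat_lit 6503) (nat_lit 199806589) (PL.cons (nat_lit 65101) (nat_lit 4238140201) (nat_lit 6502) (nat_lit 199741488) (PL.cons (nat_lit 65099) (nat_lit 4237879801) (nat_lit 6501) (nat_lit 199676389) (PL.cons (nat_lit 65089) (nat_lit 4236577921) (nat_lit 6500) (nat_lit 199611300) (PL.cons (nat_lit 65071) (nat_lit 4234235041) (nat_lit 6499) (nat_lit 199546229) (PL.cons (nat_lit 65063) (nat_lit 4233193969) (nat_lit 6498) (nat_lit 199481166) (PL.cons (nat_lit 65053) (nat_lit 4231892809) (nat_lit 6497) (nat_lit 199416113) (PL.cons (nat_lit 65033) (nat_lit 4229291089) (nat_lit 6496) (nat_lit 199351080) (PL.cons (nat_lit 65029) (nat_lit 4228770841) (nat_lit 6495) (nat_lit 199286051) (PL.cons (nat_lit 65027) (nat_lit 4228510729) (nat_lit 6494) (nat_lit 199221024) (PL.cons (nat_lit 65011) (nat_lit 4226430121) (nat_lit 6493) (nat_lit 199156013) (PL.cons (nat_lit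 65003) (nat_lit 4225390009) (nat_lit 6492) (nat_lit 199091010) (PL.cons (nat_lit 64997) (nat_lit 4224610009) (nat_lit 6491) (nat_lit 199026013) (PL.cons (nat_lit 64969) (nat_lit 4220970961) (nat_lit 6490) (nat_lit 198961044) (PL.cons (nat_lit 64951) (nat_lit 4218632401) (nat_lit 6489) (nat_lit 198896093) (PL.cons (nat_lit 64937) (nat_lit 4216813969) (nat_lit 6488) (nat_lit 198831156) (PL.cons (nat_lit 64927) (nat_lit 4215515329) (nat_lit 6487) (nat_lit 198766229) (PL.cons (nat_lit 64921) (nat_lit 4214736241) (nat_lit 6486) (nat_lit 198701308) (PL.cons (nat_lit 64919) (nat_lit 4214476561) (nat_lit 6485) (nat_lit 198636389) (PL.cons (nat_lit 64901) (nat_lit 4212139801) (nat_lit 6484) (nat_lit 198571488) (PL.cons (nat_lit 64891) (nat_lit 4210841881) (nat_lit 6483) (nat_lit 198506597) (PL.cons (nat_lit 64879) (nat_lit 4209284641) (nat_lit 6482) (nat_lit 198441718) (PL.cons (nat_lit 64877) (nat_lit 4209025129) (nat_lit 6481) (nat_lit 198376841) (PL.cons (nat_lit 64871) (nat_lit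 4208246641) (nat_lit 6480) (nat_lit 198311970) (PL.cons (nat_lit 64853) (nat_lit 4205911609) (nat_lit 6479) (nat_lit 198247117) (PL.cons (nat_lit 64849) (nat_lit 4205392801) (nat_lit 6478) (nat_lit 198182268) (PL.cons (nat_lit 64817) (nat_lit 4201243489) (nat_lit 6477) (nat_lit 198117451) (PL.cons (nat_lit 64811) (nat_lit 4200465721) (nat_lit 6476) (nat_lit 198052640) (PL.cons (nat_lit 64793) (nat_lit 4198132849) (nat_lit 6475) (nat_lit 197987847) (PL.cons (nat_lit 64783) (nat_lit 4196837089) (nat_lit 6474) (nat_lit 197923064) (PL.cons (nat_lit 64781) (nat_lit 4196577961) (nat_lit 6473) (nat_lit 197858283) (PL.cons (nat_lit 64763) (nat_lit 4194246169) (nat_lit 6472) (nat_lit 197793520) (PL.cons (nat_lit 64747) (nat_lit 4192174009) (nat_lit 6471) (nat_lit 197728773) (PL.cons (nat_lit 64717) (nat_lit 4188290089) (nat_lit 6470) (nat_lit 197664056) (PL.cons (nat_lit 64709) (nat_lit 4187254681) (nat_lit 6469) (nat_lit 197599347) (PL.cons (nat_lit 64693) (nat_lit 4185184249)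 (nat_lit 6468) (nat_lit 197534654) (PL.cons (nat_lit 64679) (nat_lit 4183373041) (nat_lit 6467) (nat_lit 197469975) (PL.cons (nat_lit 64667) (nat_lit 4181820889) (nat_lit 6466) (nat_lit 197405308) (PL.cons (nat_lit 64663) (nat_lit 4181303569) (nat_lit 6465) (nat_lit 197340645) (PL.cons (nat_lit 64661) (nat_lit 4181044921) (nat_lit 6464) (nat_lit 197275984) (PL.cons (nat_lit 64633) (nat_lit 4177424689) (nat_lit 6463) (nat_lit 197211351) (PL.cons (nat_lit 64627) (nat_lit 4176649129) (nat_lit 6462) (nat_lit 197146724) (PL.cons (nat_lit 64621) (nat_lit 4175873641) (nat_lit 6461) (nat_lit 197082103) (PL.cons (nat_lit 64613) (nat_lit 4174839769) (nat_lit 6460) (nat_lit 197017490) (PL.cons (nat_lit 64609) (nat_lit 4174322881) (nat_lit 6459) (nat_lit 196952881) (PL.cons (nat_lit 64601) (nat_lit 4173289201) (nat_lit 6458) (nat_lit 196888280) (PL.cons (nat_lit 64591) (nat_lit 4171997281) (nat_lit 6457) (nat_lit 196823689) (PL.cons (nat_lit 64579) (nat_lit 4170447241) (nat_lit 6456)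 (nat_lit 196759110) (PL.cons (nat_lit 64577) (nat_lit 4170188929) (nat_lit 6455) (nat_lit 196694533) (PL.cons (nat_lit 64567) (nat_lit 4168897489) (nat_lit 6454) (nat_lit 196629966) (PL.cons (nat_lit 64553) (nat_lit 4167089809) (nat_lit 6453) (nat_lit 196565413) (PL.cons (nat_lit 64513) (nat_lit 4161927169) (nat_lit 6452) (nat_lit 196500900) (PL.cons (nat_lit 64499) (nat_lit 4160121001) (nat_lit 6451) (nat_lit 196436401) (PL.cons (nat_lit 64489) (nat_lit 4158831121) (nat_lit 6450) (nat_lit 196371912) (PL.cons (nat_lit 64483) (nat_lit 4158057289) (nat_lit 6449) (nat_lit 196307429) (PL.cons (nat_lit 64453) (nat_lit 4154189209) (nat_lit 6448) (nat_lit 196242976) (PL.cons (nat_lit 64451) (nat_lit 4153931401) (nat_lit 6447) (nat_lit 196178525) (PL.cons (nat_lit 64439) (nat_lit 4152384721) (nat_lit 6446) (nat_lit 196114086) (PL.cons (nat_lit 64433) (nat_lit 4151611489) (nat_lit 6445) (nat_lit 196049653) (PL.cons (nat_lit 64403) (nat_lit 4147746409) (nat_lit 6444) (nat_lit 195985250)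 (PL.cons (nat_lit 64399) (nat_lit 4147231201) (nat_lit 6443) (nat_lit 195920851) (PL.cons (nat_lit 64381) (nat_lit 4144913161) (nat_lit 6442) (nat_lit 195856470) L25))))))))))))))))))))))))))))))))))))))))))))))))))))))))))))))))))))))))))))))))))))))))))))))))))))))))))))))))))))))))))))))))))))))))))))))))))))))))))))))))))))))))))))))))))))))))))))))))))))))))))))))))))))))))))))))))))))))))))))))))))))))))))))))))))))))))))))))))))))))))))))))))))))))))))))))))))))))))))))))))))))))))))))))))))))))))))))))))))))))))))))))))))))))))))))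

end Pool.Agent.Q254.PS
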