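import Pool.Agent.Q254.PS.Lists
import Pool.Agent.Q254.PS.Wheel
set_option autoImplicit false
set_option maxRecDepth 100000
namespace Pool.Agent.Q254.PS

theorem g2C_0 : grp gC whC (getC tbl) selC (nat_lit 4711447171) L0 (nat_lit 26) = nat_lit 442512554 := by
  decide +kernel

theorem g2C_1 : grp gC whC (getC tbl) selC (nat_lit 4711447171) L1 (nat_lit 26) = nat_lit 69199454 := by
  decide +kernel

theorem g2C_2 : grp gC whC (getC tbl) selC (nat_lit 4711447171) L2 (nat_lit 26) = nat_lit 34255236 := by
  decide +kernel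

theorem g2C_3 : grp gC whC (getC tbl) selC (nat_lit 4711447171) L3 (nat_lit 26) = nat_lit 21453404 := by
  decide +kernel

theorem g2C_4 : grp gC whC (getC tbl) selC (nat_lit 4711447171) L4 (nat_lit 26) = nat_lit 15135634 := by
  decide +kernel

theorem g2C_5 : grp gC whC (getC tbl) selC (nat_lit 4711447171) L5 (nat_lit 26) = nat_lit 11345113 := by
  decide +kernel

theorem g2C_6 : grp gC whC (getC tbl) selC (nat_lit 4711447171) L6 (nat_lit 26) = nat_lit 9001503 := by
  decide +kernel

theorem g2C_7 : grp gC whC (getC tbl) selC (nat_lit 4711447171) L7 (nat_lit 26) = nat_lit 7413767 := by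
  decide +kernel

theorem g2C_8 : grp gC whC (getC tbl) selC (nat_lit 4711447171) L8 (nat_lit 26) = nat_lit 6282232 := by
  decide +kernel

theorem g2C_9 : grp gC whC (getC tbl) selC (nat_lit 4711447171) L9 (nat_lit 24) = nat_lit 5140152 := by
  decide +kernel

end Pool.Agent.Q254.PS
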