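import Pool.Agent.Q254.PS.Lists
import Pool.Agent.Q254.PS.Wheel
set_option autoImplicit false
set_option maxRecDepth 100000
namespace Pool.Agent.Q254.PS

theorem g2S_0 : grp gS whS (getS tbl) selS (nat_lit 4711447171) L0 (nat_lit 26) = nat_lit 1042424756339546162 := by
  decide +kernel

theorem g2S_1 : grp gS whS (getS tbl) selS (nat_lit 4711447171) L1 (nat_lit 26) = nat_lit 162934846469774376 := by
  decide +kernel

theorem g2S_2 : grp gS whS (getS tbl) selS (nat_lit 4711447171) L2 (nat_lit 26) = nat_lit 81031614759283416 := by
  decide +kernel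

theorem g2S_3 : grp gS whS (getS tbl) selS (nat_lit 4711447171) L3 (nat_lit 26) = nat_lit 50959962564247520 := by
  decide +kernel

theorem g2S_4 : grp gS whS (getS tbl) selS (nat_lit 4711447171) L4 (nat_lit 26) = nat_lit 35983327033687602 := by
  decide +kernel

theorem g2S_5 : grp gS whS (getS tbl) selS (nat_lit 4711447171) L5 (nat_lit 26) = nat_lit 26880260620572239 := by
  decide +kernel

theorem g2S_6 : grp gS whS (getS tbl) selS (nat_lit 4711447171) L6 (nat_lit 26) = nat_lit 21156957192496003 := by
  decide +kernel

theorem g2S_7 : grp gS whS (getS tbl) selS (nat_lit 4711447171) L7 (nat_lit 26) = nat_lit 17216299419865383 := by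
  decide +kernel

theorem g2S_8 : grp gS whS (getS tbl) selS (nat_lit 4711447171) L8 (nat_lit 26) = nat_lit 14393156046004718 := by
  decide +kernel

theorem g2S_9 : grp gS whS (getS tbl) selS (nat_lit 4711447171) L9 (nat_lit 24) = nat_lit 11668065838389988 := by
  decide +kernel

end Pool.Agent.Q254.PS
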