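import Pool.Agent.Q254.PS.Lists
import Pool.Agent.Q254.PS.Wheel
set_option autoImplicit false
set_option maxRecDepth 100000
namespace Pool.Agent.Q254.PS

theorem g1C_0 : grp gC whC (getC tbl) selC (nat_lit 2274652151) L0 (nat_lit 26) = nat_lit 213643613 := by
  decide +kernel

theorem g1C_1 : grp gC whC (getC tbl) selC (nat_lit 2274652151) L1 (nat_lit 26) = nat_lit 33443254 := by
  decide +kernel

theorem g1C_2 : grp gC whC (getC tbl) selC (nat_lit 2274652151) L2 (nat_lit 26) = nat_lit 16447930 := by
  decide +kernel

theorem g1C_3 : grp gC whC (getC tbl) selC (nat_lit 2274652151) L3 (nat_lit 26) = nat_lit 10230657 := by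
  decide +kernel

theorem g1C_4 : grp gC whC (getC tbl) selC (nat_lit 2274652151) L4 (nat_lit 26) = nat_lit 7196536 := by
  decide +kernel

theorem g1C_5 : grp gC whC (getC tbl) selC (nat_lit 2274652151) L5 (nat_lit 26) = nat_lit 5407417 := by
  decide +kernel

theorem g1C_6 : grp gC whC (getC tbl) selC (nat_lit 2274652151) L6 (nat_lit 26) = nat_lit 4332361 := by
  decide +kernel

theorem g1C_7 : grp gC whC (getC tbl) selC (nat_lit 2274652151) L7 (nat_lit 26) = nat_lit 3632602 := by
  decide +kernel

theorem g1C_8 : grp gC whC (getC tbl) selC (nat_lit 2274652151) L8 (nat_lit 26) = nat_lit 3151835 := by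
  decide +kernel

theorem g1C_9 : grp gC whC (getC tbl) selC (nat_lit 2274652151) L9 (nat_lit 24) = nat_lit 2612081 := by
  decide +kernel

theorem g1S_0 : grp gS whS (getS tbl) selS (nat_lit 2274652151) L0 (nat_lit 26) = nat_lit 242972882783143475 := by
  decide +kernel

theorem g1S_1 : grp gS whS (getS tbl) selS (nat_lit 2274652151) L1 (nat_lit 26) = nat_lit 38049145313600632 := by
  decide +kernel

theorem g1S_2 : grp gS whS (getS tbl) selS (nat_lit 2274652151) L2 (nat_lit 26) = nat_lit 18828580681214628 := by
  decide +kernel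

theorem g1S_3 : grp gS whS (getS tbl) selS (nat_lit 2274652151) L3 (nat_lit 26) = nat_lit 11741155775381521 := by
  decide +kernel

theorem g1S_4 : grp gS whS (getS tbl) selS (nat_lit 2274652151) L4 (nat_lit 26) = nat_lit 8228097978533188 := by
  decide +kernel

theorem g1S_5 : grp gS whS (getS tbl) selS (nat_lit 2274652151) L5 (nat_lit 26) = nat_lit 6114105023881143 := by
  decide +kernel

theorem g1S_6 : grp gS whS (getS tbl) selS (nat_lit 2274652151) L6 (nat_lit 26) = nat_lit 4820051326929767 := by
  decide +kernel

theorem g1S_7 : grp gS whS (getS tbl) selS (nat_lit 2274652151) L7 (nat_lit 26) = nat_lit 3982337430691840 := by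
  decide +kernel

theorem g1S_8 : grp gS whS (getS tbl) selS (nat_lit 2274652151) L8 (nat_lit 26) = nat_lit 3443163509695277 := by
  decide +kernel

theorem g1S_9 : grp gS whS (getS tbl) selS (nat_lit 2274652151) L9 (nat_lit 24) = nat_lit 2853685628971755 := by
  decide +kernel

end Pool.Agent.Q254.PS
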