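import Pool.Agent.Q254.PS.Lists
import Pool.Agent.Q254.PS.Wheel
set_option autoImplicit false
set_option maxRecDepth 100000
namespace Pool.Agent.Q254.PS

theorem g2C_10 : grp gC whC (getC tbl) selC (nat_lit 4711447171) L10 (nat_lit 388) = nat_lit 46391599 := by
  decide +kernel

theorem g2C_11 : grp gC whC (getC tbl) selC (nat_lit 4711447171) L11 (nat_lit 388) = nat_lit 22656543 := by
  decide +kernel

theorem g2C_12 : grp gC whC (getC tbl) selC (nat_lit 4711447171) L12 (nat_lit 388) = nat_lit 14840726 := by
  decide +kernel

theorem g2C_13 : grp gC whC (getC tbl) selC (nat_lit 4711447171) L13 (nat_lit 388) = nat_lit 10854059 := by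
  decide +kernel

theorem g2C_14 : grp gC whC (getC tbl) selC (nat_lit 4711447171) L14 (nat_lit 388) = nat_lit 8413527 := by
  decide +kernel

theorem g2C_15 : grp gC whC (getC tbl) selC (nat_lit 4711447171) L15 (nat_lit 388) = nat_lit 6724973 := by
  decide +kernel

theorem g2C_16 : grp gC whC (getC tbl) selC (nat_lit 4711447171) L16 (nat_lit 388) = nat_lit 5487657 := by
  decide +kernel

theorem g2C_17 : grp gC whC (getC tbl) selC (nat_lit 4711447171) L17 (nat_lit 388) = nat_lit 4511489 := by
  decide +kernel

theorem g2C_18 : grp gC whC (getC tbl) selC (nat_lit 4711447171) L18 (nat_lit 388) = nat_lit 3726635 := by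
  decide +kernel

theorem g2C_19 : grp gC whC (getC tbl) selC (nat_lit 4711447171) L19 (nat_lit 388) = nat_lit 3066811 := by
  decide +kernel

theorem g2C_20 : grp gC whC (getC tbl) selC (nat_lit 4711447171) L20 (nat_lit 388) = nat_lit 2498531 := by
  decide +kernel

theorem g2C_21 : grp gC whC (getC tbl) selC (nat_lit 4711447171) L21 (nat_lit 384) = nat_lit 1984026 := by
  decide +kernel

theorem g2C_22 : grp gC whC (getC tbl) selC (nat_lit 4711447171) L22 (nat_lit 382) = nat_lit 1540712 := by
  decide +kernel

theorem g2C_23 : grp gC whC (getC tbl) selC (nat_lit 4711447171) L23 (nat_lit 382) = nat_lit 1148867 := by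
  decide +kernel

theorem g2C_24 : grp gC whC (getC tbl) selC (nat_lit 4711447171) L24 (nat_lit 382) = nat_lit 796336 := by
  decide +kernel

theorem g2C_25 : grp gC whC (getC tbl) selC (nat_lit 4711447171) L25 (nat_lit 382) = nat_lit 461833 := by
  decide +kernel

theorem g2C_26 : grp gC whC (getC tbl) selC (nat_lit 4711447171) L26 (nat_lit 380) = nat_lit 147916 := by
  decide +kernel

theorem g2S_10 : grp gS whS (getS tbl) selS (nat_lit 4711447171) L10 (nat_lit 388) = nat_lit 105184422626714689 := by
  decide +kernel

theorem g2S_11 : grp gS whS (getS tbl) selS (nat_lit 4711447171) L11 (nat_lit 388) = nat_lit 51757425687020609 := by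
  decide +kernel

theorem g2S_12 : grp gS whS (getS tbl) selS (nat_lit 4711447171) L12 (nat_lit 388) = nat_lit 34411408776924520 := by
  decide +kernel

theorem g2S_13 : grp gS whS (getS tbl) selS (nat_lit 4711447171) L13 (nat_lit 388) = nat_lit 25723052085120949 := by
  decide +kernel

theorem g2S_14 : grp gS whS (getS tbl) selS (nat_lit 4711447171) L14 (nat_lit 388) = nat_lit 20497927598547535 := by
  decide +kernel

theorem g2S_15 : grp gS whS (getS tbl) selS (nat_lit 4711447171) L15 (nat_lit 388) = nat_lit 16948600983547697 := by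
  decide +kernel

theorem g2S_16 : grp gS whS (getS tbl) selS (nat_lit 4711447171) L16 (nat_lit 388) = nat_lit 14373937013492907 := by
  decide +kernel

theorem g2S_17 : grp gS whS (getS tbl) selS (nat_lit 4711447171) L17 (nat_lit 388) = nat_lit 12347374617279223 := by
  decide +kernel

theorem g2S_18 : grp gS whS (getS tbl) selS (nat_lit 4711447171) L18 (nat_lit 388) = nat_lit 10698504621222259 := by
  decide +kernel

theorem g2S_19 : grp gS whS (getS tbl) selS (nat_lit 4711447171) L19 (nat_lit 388) = nat_lit 9264518739003245 := by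
  decide +kernel

theorem g2S_20 : grp gS whS (getS tbl) selS (nat_lit 4711447171) L20 (nat_lit 388) = nat_lit 7965756405630483 := by
  decide +kernel

theorem g2S_21 : grp gS whS (getS tbl) selS (nat_lit 4711447171) L21 (nat_lit 384) = nat_lit 6695999441072920 := by
  decide +kernel

theorem g2S_22 : grp gS whS (getS tbl) selS (nat_lit 4711447171) L22 (nat_lit 382) = nat_lit 5511662793523638 := by
  decide +kernel

theorem g2S_23 : grp gS whS (getS tbl) selS (nat_lit 4711447171) L23 (nat_lit 382) = nat_lit 4357063981781939 := by
  decide +kernel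

theorem g2S_24 : grp gS whS (getS tbl) selS (nat_lit 4711447171) L24 (nat_lit 382) = nat_lit 3205481136385272 := by
  decide +kernel

theorem g2S_25 : grp gS whS (getS tbl) selS (nat_lit 4711447171) L25 (nat_lit 382) = nat_lit 1973705892713353 := by
  decide +kernel

theorem g2S_26 : grp gS whS (getS tbl) selS (nat_lit 4711447171) L26 (nat_lit 380) = nat_lit 667034434620572 := by
  decide +kernel

theorem g1C_10 : grp gC whC (getC tbl) selC (nat_lit 2274652151) L10 (nat_lit 388) = nat_lit 23620186 := by
  decide +kernel

theorem g1C_11 : grp gC whC (getC tbl) selC (nat_lit 2274652151) L11 (nat_lit 388) = nat_lit 11459644 := by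
  decide +kernel

theorem g1C_12 : grp gC whC (getC tbl) selC (nat_lit 2274652151) L12 (nat_lit 388) = nat_lit 7397442 := by
  decide +kernel

theorem g1C_13 : grp gC whC (getC tbl) selC (nat_lit 2274652151) L13 (nat_lit 388) = nat_lit 5283334 := by
  decide +kernel

theorem g1C_14 : grp gC whC (getC tbl) selC (nat_lit 2274652151) L14 (nat_lit 388) = nat_lit 3961445 := by
  decide +kernel

theorem g1C_15 : grp gC whC (getC tbl) selC (nat_lit 2274652151) L15 (nat_lit 388) = nat_lit 3021675 := by
  decide +kernel

theorem g1C_16 : grp gC whC (getC tbl) selC (nat_lit 2274652151) L16 (nat_lit 388) = nat_lit 2314705 := by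
  decide +kernel

theorem g1C_17 : grp gC whC (getC tbl) selC (nat_lit 2274652151) L17 (nat_lit 388) = nat_lit 1739110 := by
  decide +kernel

theorem g1C_18 : grp gC whC (getC tbl) selC (nat_lit 2274652151) L18 (nat_lit 388) = nat_lit 1261211 := by
  decide +kernel

theorem g1C_19 : grp gC whC (getC tbl) selC (nat_lit 2274652151) L19 (nat_lit 388) = nat_lit 853031 := by
  decide +kernel

theorem g1C_20 : grp gC whC (getC tbl) selC (nat_lit 2274652151) L20 (nat_lit 388) = nat_lit 485811 := by
  decide +kernel

theorem g1C_21 : grp gC whC (getC tbl) selC (nat_lit 2274652151) L21 (nat_lit 384) = nat_lit 155256 := by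
  decide +kernel

theorem g1S_10 : grp gS whS (getS tbl) selS (nat_lit 2274652151) L10 (nat_lit 388) = nat_lit 25880284968579580 := by
  decide +kernel

theorem g1S_11 : grp gS whS (getS tbl) selS (nat_lit 2274652151) L11 (nat_lit 388) = nat_lit 12769022774778898 := by
  decide +kernel

theorem g1S_12 : grp gS whS (getS tbl) selS (nat_lit 2274652151) L12 (nat_lit 388) = nat_lit 8496161199502298 := by
  decide +kernel

theorem g1S_13 : grp gS whS (getS tbl) selS (nat_lit 2274652151) L13 (nat_lit 388) = nat_lit 6327904919671032 := by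
  decide +kernel

theorem g1S_14 : grp gS whS (getS tbl) selS (nat_lit 2274652151) L14 (nat_lit 388) = nat_lit 5000673182234485 := by
  decide +kernel

theorem g1S_15 : grp gS whS (getS tbl) selS (nat_lit 2274652151) L15 (nat_lit 388) = nat_lit 4056906323738439 := by
  decide +kernel

theorem g1S_16 : grp gS whS (getS tbl) selS (nat_lit 2274652151) L16 (nat_lit 388) = nat_lit 3329952367927543 := by
  decide +kernel

theorem g1S_17 : grp gS whS (getS tbl) selS (nat_lit 2274652151) L17 (nat_lit 388) = nat_lit 2697843007729460 := by
  decide +kernel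

theorem g1S_18 : grp gS whS (getS tbl) selS (nat_lit 2274652151) L18 (nat_lit 388) = nat_lit 2117474657747163 := by
  decide +kernel

theorem g1S_19 : grp gS whS (getS tbl) selS (nat_lit 2274652151) L19 (nat_lit 388) = nat_lit 1556783994188829 := by
  decide +kernel

theorem g1S_20 : grp gS whS (getS tbl) selS (nat_lit 2274652151) L20 (nat_lit 388) = nat_lit 963659178902405 := by
  decide +kernel

theorem g1S_21 : grp gS whS (getS tbl) selS (nat_lit 2274652151) L21 (nat_lit 384) = nat_lit 332170169333328 := by
  decide +kernel

end Pool.Agent.Q254.PS
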