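import Pool.Agent.Q254.PS.Lists
import Pool.Agent.Q254.PS.Wheel
set_option autoImplicit false
set_option maxRecDepth 100000
namespace Pool.Agent.Q254.PS

theorem cl_0 : chkL L0 (nat_lit 26) = true := by decide +kernel
theorem cl_1 : chkL L1 (nat_lit 26) = true := by decide +kernel
theorem cl_2 : chkL L2 (nat_lit 26) = true := by decide +kernel
theorem cl_3 : chkL L3 (nat_lit 26) = true := by decide +kernel
theorem cl_4 : chkL L4 (nat_lit 26) = true := by decide +kernel
theorem cl_5 : chkL L5 (nat_lit 26) = true := by decide +kernel
theorem cl_6 : chkL L6 (nat_lit 26) = true := by decide +kernel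
theorem cl_7 : chkL L7 (nat_lit 26) = true := by decide +kernel
theorem cl_8 : chkL L8 (nat_lit 26) = true := by decide +kernel
theorem cl_9 : chkL L9 (nat_lit 24) = true := by decide +kernel
theorem cl_10 : chkL L10 (nat_lit 388) = true := by decide +kernel
theorem cl_11 : chkL L11 (nat_lit 388) = true := by decide +kernel
theorem cl_12 : chkL L12 (nat_lit 388) = true := by decide +kernel
theorem cl_13 : chkL L13 (nat_lit 388) = true := by decide +kernel
theorem cl_14 : chkL L14 (nat_lit 388) = true := by decide +kernel
theorem cl_15 : chkL L15 (nat_lit 388) = true := by decide +kernel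
theorem cl_16 : chkL L16 (nat_lit 388) = true := by decide +kernel
theorem cl_17 : chkL L17 (nat_lit 388) = true := by decide +kernel
theorem cl_18 : chkL L18 (nat_lit 388) = true := by decide +kernel
theorem cl_19 : chkL L19 (nat_lit 388) = true := by decide +kernel
theorem cl_20 : chkL L20 (nat_lit 388) = true := by decide +kernel
theorem cl_21 : chkL L21 (nat_lit 384) = true := by decide +kernel
theorem cl_22 : chkL L22 (nat_lit 382) = true := by decide +kernel
theorem cl_23 : chkL L23 (nat_lit 382) = true := by decide +kernel
theorem cl_24 : chkL L24 (nat_lit 382) = true := by decide +kernel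
theorem cl_25 : chkL L25 (nat_lit 382) = true := by decide +kernel
theorem cl_26 : chkL L26 (nat_lit 380) = true := by decide +kernel

end Pool.Agent.Q254.PS
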