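import Pool.Agent.Q254.PS.TblOK
import Pool.Agent.Q254.PS.NumA
import Pool.Agent.Q254.PS.NumB
import Pool.Agent.Q254.PS.NumC
import Pool.Agent.Q254.PS.NumD
import Pool.Agent.Q254.PS.NumL

set_option autoImplicit false
set_option maxRecDepth 100000

namespace Pool.Agent.Q254.PS

attribute [local irreducible] Ps grp O

theorem DC : Dat gC whC (getC tbl) selC where
  one := rfl
  mul := fun _ _ => rfl
  wh := fun z => whC_eq z
  get := fun z hz => (tbl_ok z hz).1
  sel := fun _ _ _ he _ => he

theorem DS : Dat gS whS (getS tbl) selS where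
  one := rfl
  mul := fun _ _ => rfl
  wh := fun z => whS_eq z
  get := fun z hz => (tbl_ok z hz).2
  sel := fun _ _ _ _ hs => hs

theorem stepL {a b c v w r : ℕ} (h1 : a + b = c) (hb : b = v) (hc : c = w) (hw : w = r + v) :
    a = r := by omega

theorem hd0 : hd L0 = 127 := rfl

theorem dr0 : drp 26 L0 = PL.nil := rfl

theorem gd0 : Good L0 :=
  chkL_ok tbl_ok L0 26 cl_0 (by rw [hd0]; norm_num) (by rw [dr0]; exact trivial)

theorem hd1 : hd L1 = 269 := rfl

theorem dr1 : drp 26 L1 = L0 := rfl

theorem gd1 : Good L1 :=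
  chkL_ok tbl_ok L1 26 cl_1 (by rw [hd1]; norm_num) (by rw [dr1]; exact gd0)

theorem hd2 : hd L2 = 431 := rfl

theorem dr2 : drp 26 L2 = L1 := rfl

theorem gd2 : Good L2 :=
  chkL_ok tbl_ok L2 26 cl_2 (by rw [hd2]; norm_num) (by rw [dr2]; exact gd1)

theorem hd3 : hd L3 = 599 := rfl

theorem dr3 : drp 26 L3 = L2 := rfl

theorem gd3 : Good L3 :=
  chkL_ok tbl_ok L3 26 cl_3 (by rw [hd3]; norm_num) (by rw [dr3]; exact gd2)

theorem hd4 : hd L4 = 761 := rfl

theorem dr4 : drp 26 L4 = L3 := rfl

theorem gd4 : Good L4 :=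
  chkL_ok tbl_ok L4 26 cl_4 (by rw [hd4]; norm_num) (by rw [dr4]; exact gd3)

theorem hd5 : hd L5 = 947 := rfl

theorem dr5 : drp 26 L5 = L4 := rfl

theorem gd5 : Good L5 :=
  chkL_ok tbl_ok L5 26 cl_5 (by rw [hd5]; norm_num) (by rw [dr5]; exact gd4)

theorem hd6 : hd L6 = 1117 := rfl

theorem dr6 : drp 26 L6 = L5 := rfl

theorem gd6 : Good L6 :=
  chkL_ok tbl_ok L6 26 cl_6 (by rw [hd6]; norm_num) (by rw [dr6]; exact gd5)

theorem hd7 : hd L7 = 1303 := rfl

theorem dr7 : drp 26 L7 = L6 := rfl

theorem gd7 : Good L7 :=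
  chkL_ok tbl_ok L7 26 cl_7 (by rw [hd7]; norm_num) (by rw [dr7]; exact gd6)

theorem hd8 : hd L8 = 1499 := rfl

theorem dr8 : drp 26 L8 = L7 := rfl

theorem gd8 : Good L8 :=
  chkL_ok tbl_ok L8 26 cl_8 (by rw [hd8]; norm_num) (by rw [dr8]; exact gd7)

theorem hd9 : hd L9 = 1669 := rfl

theorem dr9 : drp 24 L9 = L8 := rfl

theorem gd9 : Good L9 :=
  chkL_ok tbl_ok L9 24 cl_9 (by rw [hd9]; norm_num) (by rw [dr9]; exact gd8)

theorem hd10 : hd L10 = 4861 := rfl

theorem dr10 : drp 388 L10 = L9 := rfl

theorem gd10 : Good L10 :=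
  chkL_ok tbl_ok L10 388 cl_10 (by rw [hd10]; norm_num) (by rw [dr10]; exact gd9)

theorem hd11 : hd L11 = 8287 := rfl

theorem dr11 : drp 388 L11 = L10 := rfl

theorem gd11 : Good L11 :=
  chkL_ok tbl_ok L11 388 cl_11 (by rw [hd11]; norm_num) (by rw [dr11]; exact gd10)

theorem hd12 : hd L12 = 11909 := rfl

theorem dr12 : drp 388 L12 = L11 := rfl

theorem gd12 : Good L12 :=
  chkL_ok tbl_ok L12 388 cl_12 (by rw [hd12]; norm_num) (by rw [dr12]; exact gd11)

theorem hd13 : hd L13 = 15559 := rfl

theorem dr13 : drp 388 L13 = L12 := rfl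

theorem gd13 : Good L13 :=
  chkL_ok tbl_ok L13 388 cl_13 (by rw [hd13]; norm_num) (by rw [dr13]; exact gd12)

theorem hd14 : hd L14 = 19433 := rfl

theorem dr14 : drp 388 L14 = L13 := rfl

theorem gd14 : Good L14 :=
  chkL_ok tbl_ok L14 388 cl_14 (by rw [hd14]; norm_num) (by rw [dr14]; exact gd13)

theorem hd15 : hd L15 = 23209 := rfl

theorem dr15 : drp 388 L15 = L14 := rfl

theorem gd15 : Good L15 :=
  chkL_ok tbl_ok L15 388 cl_15 (by rw [hd15]; norm_num) (by rw [dr15]; exact gd14)

theorem hd16 : hd L16 = 27197 := rfl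

theorem dr16 : drp 388 L16 = L15 := rfl

theorem gd16 : Good L16 :=
  chkL_ok tbl_ok L16 388 cl_16 (by rw [hd16]; norm_num) (by rw [dr16]; exact gd15)

theorem hd17 : hd L17 = 31247 := rfl

theorem dr17 : drp 388 L17 = L16 := rfl

theorem gd17 : Good L17 :=
  chkL_ok tbl_ok L17 388 cl_17 (by rw [hd17]; norm_num) (by rw [dr17]; exact gd16)

theorem hd18 : hd L18 = 35251 := rfl

theorem dr18 : drp 388 L18 = L17 := rfl

theorem gd18 : Good L18 :=
  chkL_ok tbl_ok L18 388 cl_18 (by rw [hd18]; norm_num) (by rw [dr18]; exact gd17)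

theorem hd19 : hd L19 = 39359 := rfl

theorem dr19 : drp 388 L19 = L18 := rfl

theorem gd19 : Good L19 :=
  chkL_ok tbl_ok L19 388 cl_19 (by rw [hd19]; norm_num) (by rw [dr19]; exact gd18)

theorem hd20 : hd L20 = 43457 := rfl

theorem dr20 : drp 388 L20 = L19 := rfl

theorem gd20 : Good L20 :=
  chkL_ok tbl_ok L20 388 cl_20 (by rw [hd20]; norm_num) (by rw [dr20]; exact gd19)

theorem hd21 : hd L21 = 47681 := rfl

theorem dr21 : drp 384 L21 = L20 := rfl

theorem gd21 : Good L21 :=
  chkL_ok tbl_ok L21 384 cl_21 (by rw [hd21]; norm_num) (by rw [dr21]; exact gd20)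

theorem hd22 : hd L22 = 51769 := rfl

theorem dr22 : drp 382 L22 = L21 := rfl

theorem gd22 : Good L22 :=
  chkL_ok tbl_ok L22 382 cl_22 (by rw [hd22]; norm_num) (by rw [dr22]; exact gd21)

theorem hd23 : hd L23 = 55933 := rfl

theorem dr23 : drp 382 L23 = L22 := rfl

theorem gd23 : Good L23 :=
  chkL_ok tbl_ok L23 382 cl_23 (by rw [hd23]; norm_num) (by rw [dr23]; exact gd22)

theorem hd24 : hd L24 = 60037 := rfl

theorem dr24 : drp 382 L24 = L23 := rfl

theorem gd24 : Good L24 :=
  chkL_ok tbl_ok L24 382 cl_24 (by rw [hd24]; norm_num) (by rw [dr24]; exact gd23)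

theorem hd25 : hd L25 = 64373 := rfl

theorem dr25 : drp 382 L25 = L24 := rfl

theorem gd25 : Good L25 :=
  chkL_ok tbl_ok L25 382 cl_25 (by rw [hd25]; norm_num) (by rw [dr25]; exact gd24)

theorem hd26 : hd L26 = 68639 := rfl

theorem dr26 : drp 380 L26 = L25 := rfl

theorem gd26 : Good L26 :=
  chkL_ok tbl_ok L26 380 cl_26 (by rw [hd26]; norm_num) (by rw [dr26]; exact gd25)

theorem w1C : whC 2274652151 = 472654993 := by decide +kernel

theorem b1C : Ps gC 2274652151 (hd PL.nil + 1) = 472654993 := by
    have h := DC.wh 2274652151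
    rw [w1C] at h
    exact h.symm

theorem p1C_0 : Ps gC 2274652151 (127 + 1) = 259011380 := by
    have h1 := grp_ok DC (x := 2274652151) (by norm_num) L0 gd0 (by rw [hd0]; norm_num) 26
    rw [dr0, hd0] at h1
    exact stepL (v := 213643613) (w := 472654993) h1 g1C_0 (b1C) (by norm_num)

theorem p1C_1 : Ps gC 2274652151 (269 + 1) = 225568126 := by
    have h1 := grp_ok DC (x := 2274652151) (by norm_num) L1 gd1 (by rw [hd1]; norm_num) 26
    rw [dr1, hd1, hd0] at h1
    exact stepL (v := 33443254) (w := 259011380) h1 g1C_1 (p1C_0) (by norm_num)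

theorem p1C_2 : Ps gC 2274652151 (431 + 1) = 209120196 := by
    have h1 := grp_ok DC (x := 2274652151) (by norm_num) L2 gd2 (by rw [hd2]; norm_num) 26
    rw [dr2, hd2, hd1] at h1
    exact stepL (v := 16447930) (w := 225568126) h1 g1C_2 (p1C_1) (by norm_num)

theorem p1C_3 : Ps gC 2274652151 (599 + 1) = 198889539 := by
    have h1 := grp_ok DC (x := 2274652151) (by norm_num) L3 gd3 (by rw [hd3]; norm_num) 26
    rw [dr3, hd3, hd2] at h1
    exact stepL (v := 10230657) (w := 209120196) h1 g1C_3 (p1C_2) (by norm_num)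

theorem p1C_4 : Ps gC 2274652151 (761 + 1) = 191693003 := by
    have h1 := grp_ok DC (x := 2274652151) (by norm_num) L4 gd4 (by rw [hd4]; norm_num) 26
    rw [dr4, hd4, hd3] at h1
    exact stepL (v := 7196536) (w := 198889539) h1 g1C_4 (p1C_3) (by norm_num)

theorem p1C_5 : Ps gC 2274652151 (947 + 1) = 186285586 := by
    have h1 := grp_ok DC (x := 2274652151) (by norm_num) L5 gd5 (by rw [hd5]; norm_num) 26
    rw [dr5, hd5, hd4] at h1
    exact stepL (v := 5407417) (w := 191693003) h1 g1C_5 (p1C_4) (by norm_num)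

theorem p1C_6 : Ps gC 2274652151 (1117 + 1) = 181953225 := by
    have h1 := grp_ok DC (x := 2274652151) (by norm_num) L6 gd6 (by rw [hd6]; norm_num) 26
    rw [dr6, hd6, hd5] at h1
    exact stepL (v := 4332361) (w := 186285586) h1 g1C_6 (p1C_5) (by norm_num)

theorem p1C_7 : Ps gC 2274652151 (1303 + 1) = 178320623 := by
    have h1 := grp_ok DC (x := 2274652151) (by norm_num) L7 gd7 (by rw [hd7]; norm_num) 26
    rw [dr7, hd7, hd6] at h1
    exact stepL (v := 3632602) (w := 181953225) h1 g1C_7 (p1C_6) (by norm_num)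

theorem p1C_8 : Ps gC 2274652151 (1499 + 1) = 175168788 := by
    have h1 := grp_ok DC (x := 2274652151) (by norm_num) L8 gd8 (by rw [hd8]; norm_num) 26
    rw [dr8, hd8, hd7] at h1
    exact stepL (v := 3151835) (w := 178320623) h1 g1C_8 (p1C_7) (by norm_num)

theorem p1C_9 : Ps gC 2274652151 (1669 + 1) = 172556707 := by
    have h1 := grp_ok DC (x := 2274652151) (by norm_num) L9 gd9 (by rw [hd9]; norm_num) 24
    rw [dr9, hd9, hd8] at h1
    exact stepL (v := 2612081) (w := 175168788) h1 g1C_9 (p1C_8) (by norm_num)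

theorem p1C_10 : Ps gC 2274652151 (4861 + 1) = 148936521 := by
    have h1 := grp_ok DC (x := 2274652151) (by norm_num) L10 gd10 (by rw [hd10]; norm_num) 388
    rw [dr10, hd10, hd9] at h1
    exact stepL (v := 23620186) (w := 172556707) h1 g1C_10 (p1C_9) (by norm_num)

theorem p1C_11 : Ps gC 2274652151 (8287 + 1) = 137476877 := by
    have h1 := grp_ok DC (x := 2274652151) (by norm_num) L11 gd11 (by rw [hd11]; norm_num) 388
    rw [dr11, hd11, hd10] at h1
    exact stepL (v := 11459644) (w := 148936521) h1 g1C_11 (p1C_10) (by norm_num)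

theorem p1C_12 : Ps gC 2274652151 (11909 + 1) = 130079435 := by
    have h1 := grp_ok DC (x := 2274652151) (by norm_num) L12 gd12 (by rw [hd12]; norm_num) 388
    rw [dr12, hd12, hd11] at h1
    exact stepL (v := 7397442) (w := 137476877) h1 g1C_12 (p1C_11) (by norm_num)

theorem p1C_13 : Ps gC 2274652151 (15559 + 1) = 124796101 := by
    have h1 := grp_ok DC (x := 2274652151) (by norm_num) L13 gd13 (by rw [hd13]; norm_num) 388
    rw [dr13, hd13, hd12] at h1
    exact stepL (v := 5283334) (w := 130079435) h1 g1C_13 (p1C_12) (by norm_num)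

theorem p1C_14 : Ps gC 2274652151 (19433 + 1) = 120834656 := by
    have h1 := grp_ok DC (x := 2274652151) (by norm_num) L14 gd14 (by rw [hd14]; norm_num) 388
    rw [dr14, hd14, hd13] at h1
    exact stepL (v := 3961445) (w := 124796101) h1 g1C_14 (p1C_13) (by norm_num)

theorem p1C_15 : Ps gC 2274652151 (23209 + 1) = 117812981 := by
    have h1 := grp_ok DC (x := 2274652151) (by norm_num) L15 gd15 (by rw [hd15]; norm_num) 388
    rw [dr15, hd15, hd14] at h1
    exact stepL (v := 3021675) (w := 120834656) h1 g1C_15 (p1C_14) (by norm_num)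

theorem p1C_16 : Ps gC 2274652151 (27197 + 1) = 115498276 := by
    have h1 := grp_ok DC (x := 2274652151) (by norm_num) L16 gd16 (by rw [hd16]; norm_num) 388
    rw [dr16, hd16, hd15] at h1
    exact stepL (v := 2314705) (w := 117812981) h1 g1C_16 (p1C_15) (by norm_num)

theorem p1C_17 : Ps gC 2274652151 (31247 + 1) = 113759166 := by
    have h1 := grp_ok DC (x := 2274652151) (by norm_num) L17 gd17 (by rw [hd17]; norm_num) 388
    rw [dr17, hd17, hd16] at h1
    exact stepL (v := 1739110) (w := 115498276) h1 g1C_17 (p1C_16) (by norm_num)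

theorem p1C_18 : Ps gC 2274652151 (35251 + 1) = 112497955 := by
    have h1 := grp_ok DC (x := 2274652151) (by norm_num) L18 gd18 (by rw [hd18]; norm_num) 388
    rw [dr18, hd18, hd17] at h1
    exact stepL (v := 1261211) (w := 113759166) h1 g1C_18 (p1C_17) (by norm_num)

theorem p1C_19 : Ps gC 2274652151 (39359 + 1) = 111644924 := by
    have h1 := grp_ok DC (x := 2274652151) (by norm_num) L19 gd19 (by rw [hd19]; norm_num) 388
    rw [dr19, hd19, hd18] at h1
    exact stepL (v := 853031) (w := 112497955) h1 g1C_19 (p1C_18) (by norm_num)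

theorem p1C_20 : Ps gC 2274652151 (43457 + 1) = 111159113 := by
    have h1 := grp_ok DC (x := 2274652151) (by norm_num) L20 gd20 (by rw [hd20]; norm_num) 388
    rw [dr20, hd20, hd19] at h1
    exact stepL (v := 485811) (w := 111644924) h1 g1C_20 (p1C_19) (by norm_num)

theorem p1C_21 : Ps gC 2274652151 (47681 + 1) = 111003857 := by
    have h1 := grp_ok DC (x := 2274652151) (by norm_num) L21 gd21 (by rw [hd21]; norm_num) 384
    rw [dr21, hd21, hd20] at h1
    exact stepL (v := 155256) (w := 111159113) h1 g1C_21 (p1C_20) (by norm_num)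

theorem w1S : whS 2274652151 = 537562848918840991 := by decide +kernel

theorem b1S : Ps gS 2274652151 (hd PL.nil + 1) = 537562848918840991 := by
    have h := DS.wh 2274652151
    rw [w1S] at h
    exact h.symm

theorem p1S_0 : Ps gS 2274652151 (127 + 1) = 294589966135697516 := by
    have h1 := grp_ok DS (x := 2274652151) (by norm_num) L0 gd0 (by rw [hd0]; norm_num) 26
    rw [dr0, hd0] at h1
    exact stepL (v := 242972882783143475) (w := 537562848918840991) h1 g1S_0 (b1S) (by norm_num)

theorem p1S_1 : Ps gS 2274652151 (269 + 1) = 256540820822096884 := by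
    have h1 := grp_ok DS (x := 2274652151) (by norm_num) L1 gd1 (by rw [hd1]; norm_num) 26
    rw [dr1, hd1, hd0] at h1
    exact stepL (v := 38049145313600632) (w := 294589966135697516) h1 g1S_1 (p1S_0) (by norm_num)

theorem p1S_2 : Ps gS 2274652151 (431 + 1) = 237712240140882256 := by
    have h1 := grp_ok DS (x := 2274652151) (by norm_num) L2 gd2 (by rw [hd2]; norm_num) 26
    rw [dr2, hd2, hd1] at h1
    exact stepL (v := 18828580681214628) (w := 256540820822096884) h1 g1S_2 (p1S_1) (by norm_num)

theorem p1S_3 : Ps gS 2274652151 (599 + 1) = 225971084365500735 := by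
    have h1 := grp_ok DS (x := 2274652151) (by norm_num) L3 gd3 (by rw [hd3]; norm_num) 26
    rw [dr3, hd3, hd2] at h1
    exact stepL (v := 11741155775381521) (w := 237712240140882256) h1 g1S_3 (p1S_2) (by norm_num)

theorem p1S_4 : Ps gS 2274652151 (761 + 1) = 217742986386967547 := by
    have h1 := grp_ok DS (x := 2274652151) (by norm_num) L4 gd4 (by rw [hd4]; norm_num) 26
    rw [dr4, hd4, hd3] at h1
    exact stepL (v := 8228097978533188) (w := 225971084365500735) h1 g1S_4 (p1S_3) (by norm_num)

theorem p1S_5 : Ps gS 2274652151 (947 + 1) = 211628881363086404 := by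
    have h1 := grp_ok DS (x := 2274652151) (by norm_num) L5 gd5 (by rw [hd5]; norm_num) 26
    rw [dr5, hd5, hd4] at h1
    exact stepL (v := 6114105023881143) (w := 217742986386967547) h1 g1S_5 (p1S_4) (by norm_num)

theorem p1S_6 : Ps gS 2274652151 (1117 + 1) = 206808830036156637 := by
    have h1 := grp_ok DS (x := 2274652151) (by norm_num) L6 gd6 (by rw [hd6]; norm_num) 26
    rw [dr6, hd6, hd5] at h1
    exact stepL (v := 4820051326929767) (w := 211628881363086404) h1 g1S_6 (p1S_5) (by norm_num)

theorem p1S_7 : Ps gS 2274652151 (1303 + 1) = 202826492605464797 := by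
    have h1 := grp_ok DS (x := 2274652151) (by norm_num) L7 gd7 (by rw [hd7]; norm_num) 26
    rw [dr7, hd7, hd6] at h1
    exact stepL (v := 3982337430691840) (w := 206808830036156637) h1 g1S_7 (p1S_6) (by norm_num)

theorem p1S_8 : Ps gS 2274652151 (1499 + 1) = 199383329095769520 := by
    have h1 := grp_ok DS (x := 2274652151) (by norm_num) L8 gd8 (by rw [hd8]; norm_num) 26
    rw [dr8, hd8, hd7] at h1
    exact stepL (v := 3443163509695277) (w := 202826492605464797) h1 g1S_8 (p1S_7) (by norm_num)

theorem p1S_9 : Ps gS 2274652151 (1669 + 1) = 196529643466797765 := by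
    have h1 := grp_ok DS (x := 2274652151) (by norm_num) L9 gd9 (by rw [hd9]; norm_num) 24
    rw [dr9, hd9, hd8] at h1
    exact stepL (v := 2853685628971755) (w := 199383329095769520) h1 g1S_9 (p1S_8) (by norm_num)

theorem p1S_10 : Ps gS 2274652151 (4861 + 1) = 170649358498218185 := by
    have h1 := grp_ok DS (x := 2274652151) (by norm_num) L10 gd10 (by rw [hd10]; norm_num) 388
    rw [dr10, hd10, hd9] at h1
    exact stepL (v := 25880284968579580) (w := 196529643466797765) h1 g1S_10 (p1S_9) (by norm_num)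

theorem p1S_11 : Ps gS 2274652151 (8287 + 1) = 157880335723439287 := by
    have h1 := grp_ok DS (x := 2274652151) (by norm_num) L11 gd11 (by rw [hd11]; norm_num) 388
    rw [dr11, hd11, hd10] at h1
    exact stepL (v := 12769022774778898) (w := 170649358498218185) h1 g1S_11 (p1S_10) (by norm_num)

theorem p1S_12 : Ps gS 2274652151 (11909 + 1) = 149384174523936989 := by
    have h1 := grp_ok DS (x := 2274652151) (by norm_num) L12 gd12 (by rw [hd12]; norm_num) 388
    rw [dr12, hd12, hd11] at h1
    exact stepL (v := 8496161199502298) (w := 157880335723439287) h1 g1S_12 (p1S_11) (by norm_num)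

theorem p1S_13 : Ps gS 2274652151 (15559 + 1) = 143056269604265957 := by
    have h1 := grp_ok DS (x := 2274652151) (by norm_num) L13 gd13 (by rw [hd13]; norm_num) 388
    rw [dr13, hd13, hd12] at h1
    exact stepL (v := 6327904919671032) (w := 149384174523936989) h1 g1S_13 (p1S_12) (by norm_num)

theorem p1S_14 : Ps gS 2274652151 (19433 + 1) = 138055596422031472 := by
    have h1 := grp_ok DS (x := 2274652151) (by norm_num) L14 gd14 (by rw [hd14]; norm_num) 388
    rw [dr14, hd14, hd13] at h1
    exact stepL (v := 5000673182234485) (w := 143056269604265957) h1 g1S_14 (p1S_13) (by norm_num)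

theorem p1S_15 : Ps gS 2274652151 (23209 + 1) = 133998690098293033 := by
    have h1 := grp_ok DS (x := 2274652151) (by norm_num) L15 gd15 (by rw [hd15]; norm_num) 388
    rw [dr15, hd15, hd14] at h1
    exact stepL (v := 4056906323738439) (w := 138055596422031472) h1 g1S_15 (p1S_14) (by norm_num)

theorem p1S_16 : Ps gS 2274652151 (27197 + 1) = 130668737730365490 := by
    have h1 := grp_ok DS (x := 2274652151) (by norm_num) L16 gd16 (by rw [hd16]; norm_num) 388
    rw [dr16, hd16, hd15] at h1
    exact stepL (v := 3329952367927543) (w := 133998690098293033) h1 g1S_16 (p1S_15) (by norm_num)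

theorem p1S_17 : Ps gS 2274652151 (31247 + 1) = 127970894722636030 := by
    have h1 := grp_ok DS (x := 2274652151) (by norm_num) L17 gd17 (by rw [hd17]; norm_num) 388
    rw [dr17, hd17, hd16] at h1
    exact stepL (v := 2697843007729460) (w := 130668737730365490) h1 g1S_17 (p1S_16) (by norm_num)

theorem p1S_18 : Ps gS 2274652151 (35251 + 1) = 125853420064888867 := by
    have h1 := grp_ok DS (x := 2274652151) (by norm_num) L18 gd18 (by rw [hd18]; norm_num) 388
    rw [dr18, hd18, hd17] at h1
    exact stepL (v := 2117474657747163) (w := 127970894722636030) h1 g1S_18 (p1S_17) (by norm_num)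

theorem p1S_19 : Ps gS 2274652151 (39359 + 1) = 124296636070700038 := by
    have h1 := grp_ok DS (x := 2274652151) (by norm_num) L19 gd19 (by rw [hd19]; norm_num) 388
    rw [dr19, hd19, hd18] at h1
    exact stepL (v := 1556783994188829) (w := 125853420064888867) h1 g1S_19 (p1S_18) (by norm_num)

theorem p1S_20 : Ps gS 2274652151 (43457 + 1) = 123332976891797633 := by
    have h1 := grp_ok DS (x := 2274652151) (by norm_num) L20 gd20 (by rw [hd20]; norm_num) 388
    rw [dr20, hd20, hd19] at h1
    exact stepL (v := 963659178902405) (w := 124296636070700038) h1 g1S_20 (p1S_19) (by norm_num)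

theorem p1S_21 : Ps gS 2274652151 (47681 + 1) = 123000806722464305 := by
    have h1 := grp_ok DS (x := 2274652151) (by norm_num) L21 gd21 (by rw [hd21]; norm_num) 384
    rw [dr21, hd21, hd20] at h1
    exact stepL (v := 332170169333328) (w := 123332976891797633) h1 g1S_21 (p1S_20) (by norm_num)

theorem w2C : whC 4711447171 = 979002009 := by decide +kernel

theorem b2C : Ps gC 4711447171 (hd PL.nil + 1) = 979002009 := by
    have h := DC.wh 4711447171
    rw [w2C] at h
    exact h.symm

theorem p2C_0 : Ps gC 4711447171 (127 + 1) = 536489455 := by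
    have h1 := grp_ok DC (x := 4711447171) (by norm_num) L0 gd0 (by rw [hd0]; norm_num) 26
    rw [dr0, hd0] at h1
    exact stepL (v := 442512554) (w := 979002009) h1 g2C_0 (b2C) (by norm_num)

theorem p2C_1 : Ps gC 4711447171 (269 + 1) = 467290001 := by
    have h1 := grp_ok DC (x := 4711447171) (by norm_num) L1 gd1 (by rw [hd1]; norm_num) 26
    rw [dr1, hd1, hd0] at h1
    exact stepL (v := 69199454) (w := 536489455) h1 g2C_1 (p2C_0) (by norm_num)

theorem p2C_2 : Ps gC 4711447171 (431 + 1) = 433034765 := by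
    have h1 := grp_ok DC (x := 4711447171) (by norm_num) L2 gd2 (by rw [hd2]; norm_num) 26
    rw [dr2, hd2, hd1] at h1
    exact stepL (v := 34255236) (w := 467290001) h1 g2C_2 (p2C_1) (by norm_num)

theorem p2C_3 : Ps gC 4711447171 (599 + 1) = 411581361 := by
    have h1 := grp_ok DC (x := 4711447171) (by norm_num) L3 gd3 (by rw [hd3]; norm_num) 26
    rw [dr3, hd3, hd2] at h1
    exact stepL (v := 21453404) (w := 433034765) h1 g2C_3 (p2C_2) (by norm_num)

theorem p2C_4 : Ps gC 4711447171 (761 + 1) = 396445727 := by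
    have h1 := grp_ok DC (x := 4711447171) (by norm_num) L4 gd4 (by rw [hd4]; norm_num) 26
    rw [dr4, hd4, hd3] at h1
    exact stepL (v := 15135634) (w := 411581361) h1 g2C_4 (p2C_3) (by norm_num)

theorem p2C_5 : Ps gC 4711447171 (947 + 1) = 385100614 := by
    have h1 := grp_ok DC (x := 4711447171) (by norm_num) L5 gd5 (by rw [hd5]; norm_num) 26
    rw [dr5, hd5, hd4] at h1
    exact stepL (v := 11345113) (w := 396445727) h1 g2C_5 (p2C_4) (by norm_num)

theorem p2C_6 : Ps gC 4711447171 (1117 + 1) = 376099111 := by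
    have h1 := grp_ok DC (x := 4711447171) (by norm_num) L6 gd6 (by rw [hd6]; norm_num) 26
    rw [dr6, hd6, hd5] at h1
    exact stepL (v := 9001503) (w := 385100614) h1 g2C_6 (p2C_5) (by norm_num)

theorem p2C_7 : Ps gC 4711447171 (1303 + 1) = 368685344 := by
    have h1 := grp_ok DC (x := 4711447171) (by norm_num) L7 gd7 (by rw [hd7]; norm_num) 26
    rw [dr7, hd7, hd6] at h1
    exact stepL (v := 7413767) (w := 376099111) h1 g2C_7 (p2C_6) (by norm_num)

theorem p2C_8 : Ps gC 4711447171 (1499 + 1) = 362403112 := by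
    have h1 := grp_ok DC (x := 4711447171) (by norm_num) L8 gd8 (by rw [hd8]; norm_num) 26
    rw [dr8, hd8, hd7] at h1
    exact stepL (v := 6282232) (w := 368685344) h1 g2C_8 (p2C_7) (by norm_num)

theorem p2C_9 : Ps gC 4711447171 (1669 + 1) = 357262960 := by
    have h1 := grp_ok DC (x := 4711447171) (by norm_num) L9 gd9 (by rw [hd9]; norm_num) 24
    rw [dr9, hd9, hd8] at h1
    exact stepL (v := 5140152) (w := 362403112) h1 g2C_9 (p2C_8) (by norm_num)

theorem p2C_10 : Ps gC 4711447171 (4861 + 1) = 310871361 := by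
    have h1 := grp_ok DC (x := 4711447171) (by norm_num) L10 gd10 (by rw [hd10]; norm_num) 388
    rw [dr10, hd10, hd9] at h1
    exact stepL (v := 46391599) (w := 357262960) h1 g2C_10 (p2C_9) (by norm_num)

theorem p2C_11 : Ps gC 4711447171 (8287 + 1) = 288214818 := by
    have h1 := grp_ok DC (x := 4711447171) (by norm_num) L11 gd11 (by rw [hd11]; norm_num) 388
    rw [dr11, hd11, hd10] at h1
    exact stepL (v := 22656543) (w := 310871361) h1 g2C_11 (p2C_10) (by norm_num)

theorem p2C_12 : Ps gC 4711447171 (11909 + 1) = 273374092 := by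
    have h1 := grp_ok DC (x := 4711447171) (by norm_num) L12 gd12 (by rw [hd12]; norm_num) 388
    rw [dr12, hd12, hd11] at h1
    exact stepL (v := 14840726) (w := 288214818) h1 g2C_12 (p2C_11) (by norm_num)

theorem p2C_13 : Ps gC 4711447171 (15559 + 1) = 262520033 := by
    have h1 := grp_ok DC (x := 4711447171) (by norm_num) L13 gd13 (by rw [hd13]; norm_num) 388
    rw [dr13, hd13, hd12] at h1
    exact stepL (v := 10854059) (w := 273374092) h1 g2C_13 (p2C_12) (by norm_num)

theorem p2C_14 : Ps gC 4711447171 (19433 + 1) = 254106506 := by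
    have h1 := grp_ok DC (x := 4711447171) (by norm_num) L14 gd14 (by rw [hd14]; norm_num) 388
    rw [dr14, hd14, hd13] at h1
    exact stepL (v := 8413527) (w := 262520033) h1 g2C_14 (p2C_13) (by norm_num)

theorem p2C_15 : Ps gC 4711447171 (23209 + 1) = 247381533 := by
    have h1 := grp_ok DC (x := 4711447171) (by norm_num) L15 gd15 (by rw [hd15]; norm_num) 388
    rw [dr15, hd15, hd14] at h1
    exact stepL (v := 6724973) (w := 254106506) h1 g2C_15 (p2C_14) (by norm_num)

theorem p2C_16 : Ps gC 4711447171 (27197 + 1) = 241893876 := by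
    have h1 := grp_ok DC (x := 4711447171) (by norm_num) L16 gd16 (by rw [hd16]; norm_num) 388
    rw [dr16, hd16, hd15] at h1
    exact stepL (v := 5487657) (w := 247381533) h1 g2C_16 (p2C_15) (by norm_num)

theorem p2C_17 : Ps gC 4711447171 (31247 + 1) = 237382387 := by
    have h1 := grp_ok DC (x := 4711447171) (by norm_num) L17 gd17 (by rw [hd17]; norm_num) 388
    rw [dr17, hd17, hd16] at h1
    exact stepL (v := 4511489) (w := 241893876) h1 g2C_17 (p2C_16) (by norm_num)

theorem p2C_18 : Ps gC 4711447171 (35251 + 1) = 233655752 := by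
    have h1 := grp_ok DC (x := 4711447171) (by norm_num) L18 gd18 (by rw [hd18]; norm_num) 388
    rw [dr18, hd18, hd17] at h1
    exact stepL (v := 3726635) (w := 237382387) h1 g2C_18 (p2C_17) (by norm_num)

theorem p2C_19 : Ps gC 4711447171 (39359 + 1) = 230588941 := by
    have h1 := grp_ok DC (x := 4711447171) (by norm_num) L19 gd19 (by rw [hd19]; norm_num) 388
    rw [dr19, hd19, hd18] at h1
    exact stepL (v := 3066811) (w := 233655752) h1 g2C_19 (p2C_18) (by norm_num)

theorem p2C_20 : Ps gC 4711447171 (43457 + 1) = 228090410 := by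
    have h1 := grp_ok DC (x := 4711447171) (by norm_num) L20 gd20 (by rw [hd20]; norm_num) 388
    rw [dr20, hd20, hd19] at h1
    exact stepL (v := 2498531) (w := 230588941) h1 g2C_20 (p2C_19) (by norm_num)

theorem p2C_21 : Ps gC 4711447171 (47681 + 1) = 226106384 := by
    have h1 := grp_ok DC (x := 4711447171) (by norm_num) L21 gd21 (by rw [hd21]; norm_num) 384
    rw [dr21, hd21, hd20] at h1
    exact stepL (v := 1984026) (w := 228090410) h1 g2C_21 (p2C_20) (by norm_num)

theorem p2C_22 : Ps gC 4711447171 (51769 + 1) = 224565672 := by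
    have h1 := grp_ok DC (x := 4711447171) (by norm_num) L22 gd22 (by rw [hd22]; norm_num) 382
    rw [dr22, hd22, hd21] at h1
    exact stepL (v := 1540712) (w := 226106384) h1 g2C_22 (p2C_21) (by norm_num)

theorem p2C_23 : Ps gC 4711447171 (55933 + 1) = 223416805 := by
    have h1 := grp_ok DC (x := 4711447171) (by norm_num) L23 gd23 (by rw [hd23]; norm_num) 382
    rw [dr23, hd23, hd22] at h1
    exact stepL (v := 1148867) (w := 224565672) h1 g2C_23 (p2C_22) (by norm_num)

theorem p2C_24 : Ps gC 4711447171 (60037 + 1) = 222620469 := by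
    have h1 := grp_ok DC (x := 4711447171) (by norm_num) L24 gd24 (by rw [hd24]; norm_num) 382
    rw [dr24, hd24, hd23] at h1
    exact stepL (v := 796336) (w := 223416805) h1 g2C_24 (p2C_23) (by norm_num)

theorem p2C_25 : Ps gC 4711447171 (64373 + 1) = 222158636 := by
    have h1 := grp_ok DC (x := 4711447171) (by norm_num) L25 gd25 (by rw [hd25]; norm_num) 382
    rw [dr25, hd25, hd24] at h1
    exact stepL (v := 461833) (w := 222620469) h1 g2C_25 (p2C_24) (by norm_num)

theorem p2C_26 : Ps gC 4711447171 (68639 + 1) = 222010720 := by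
    have h1 := grp_ok DC (x := 4711447171) (by norm_num) L26 gd26 (by rw [hd26]; norm_num) 380
    rw [dr26, hd26, hd25] at h1
    exact stepL (v := 147916) (w := 222158636) h1 g2C_26 (p2C_25) (by norm_num)

theorem w2S : whS 4711447171 = 2306258121537649451 := by decide +kernel

theorem b2S : Ps gS 4711447171 (hd PL.nil + 1) = 2306258121537649451 := by
    have h := DS.wh 4711447171
    rw [w2S] at h
    exact h.symm

theorem p2S_0 : Ps gS 4711447171 (127 + 1) = 1263833365198103289 := by
    have h1 := grp_ok DS (x := 4711447171) (by norm_num) L0 gd0 (by rw [hd0]; norm_num) 26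
    rw [dr0, hd0] at h1
    exact stepL (v := 1042424756339546162) (w := 2306258121537649451) h1 g2S_0 (b2S) (by norm_num)

theorem p2S_1 : Ps gS 4711447171 (269 + 1) = 1100898518728328913 := by
    have h1 := grp_ok DS (x := 4711447171) (by norm_num) L1 gd1 (by rw [hd1]; norm_num) 26
    rw [dr1, hd1, hd0] at h1
    exact stepL (v := 162934846469774376) (w := 1263833365198103289) h1 g2S_1 (p2S_0) (by norm_num)

theorem p2S_2 : Ps gS 4711447171 (431 + 1) = 1019866903969045497 := by
    have h1 := grp_ok DS (x := 4711447171) (by norm_num) L2 gd2 (by rw [hd2]; norm_num) 26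
    rw [dr2, hd2, hd1] at h1
    exact stepL (v := 81031614759283416) (w := 1100898518728328913) h1 g2S_2 (p2S_1) (by norm_num)

theorem p2S_3 : Ps gS 4711447171 (599 + 1) = 968906941404797977 := by
    have h1 := grp_ok DS (x := 4711447171) (by norm_num) L3 gd3 (by rw [hd3]; norm_num) 26
    rw [dr3, hd3, hd2] at h1
    exact stepL (v := 50959962564247520) (w := 1019866903969045497) h1 g2S_3 (p2S_2) (by norm_num)

theorem p2S_4 : Ps gS 4711447171 (761 + 1) = 932923614371110375 := by
    have h1 := grp_ok DS (x := 4711447171) (by norm_num) L4 gd4 (by rw [hd4]; norm_num) 26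
    rw [dr4, hd4, hd3] at h1
    exact stepL (v := 35983327033687602) (w := 968906941404797977) h1 g2S_4 (p2S_3) (by norm_num)

theorem p2S_5 : Ps gS 4711447171 (947 + 1) = 906043353750538136 := by
    have h1 := grp_ok DS (x := 4711447171) (by norm_num) L5 gd5 (by rw [hd5]; norm_num) 26
    rw [dr5, hd5, hd4] at h1
    exact stepL (v := 26880260620572239) (w := 932923614371110375) h1 g2S_5 (p2S_4) (by norm_num)

theorem p2S_6 : Ps gS 4711447171 (1117 + 1) = 884886396558042133 := by
    have h1 := grp_ok DS (x := 4711447171) (by norm_num) L6 gd6 (by rw [hd6]; norm_num) 26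
    rw [dr6, hd6, hd5] at h1
    exact stepL (v := 21156957192496003) (w := 906043353750538136) h1 g2S_6 (p2S_5) (by norm_num)

theorem p2S_7 : Ps gS 4711447171 (1303 + 1) = 867670097138176750 := by
    have h1 := grp_ok DS (x := 4711447171) (by norm_num) L7 gd7 (by rw [hd7]; norm_num) 26
    rw [dr7, hd7, hd6] at h1
    exact stepL (v := 17216299419865383) (w := 884886396558042133) h1 g2S_7 (p2S_6) (by norm_num)

theorem p2S_8 : Ps gS 4711447171 (1499 + 1) = 853276941092172032 := by
    have h1 := grp_ok DS (x := 4711447171) (by norm_num) L8 gd8 (by rw [hd8]; norm_num) 26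
    rw [dr8, hd8, hd7] at h1
    exact stepL (v := 14393156046004718) (w := 867670097138176750) h1 g2S_8 (p2S_7) (by norm_num)

theorem p2S_9 : Ps gS 4711447171 (1669 + 1) = 841608875253782044 := by
    have h1 := grp_ok DS (x := 4711447171) (by norm_num) L9 gd9 (by rw [hd9]; norm_num) 24
    rw [dr9, hd9, hd8] at h1
    exact stepL (v := 11668065838389988) (w := 853276941092172032) h1 g2S_9 (p2S_8) (by norm_num)

theorem p2S_10 : Ps gS 4711447171 (4861 + 1) = 736424452627067355 := by
    have h1 := grp_ok DS (x := 4711447171) (by norm_num) L10 gd10 (by rw [hd10]; norm_num) 388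
    rw [dr10, hd10, hd9] at h1
    exact stepL (v := 105184422626714689) (w := 841608875253782044) h1 g2S_10 (p2S_9) (by norm_num)

theorem p2S_11 : Ps gS 4711447171 (8287 + 1) = 684667026940046746 := by
    have h1 := grp_ok DS (x := 4711447171) (by norm_num) L11 gd11 (by rw [hd11]; norm_num) 388
    rw [dr11, hd11, hd10] at h1
    exact stepL (v := 51757425687020609) (w := 736424452627067355) h1 g2S_11 (p2S_10) (by norm_num)

theorem p2S_12 : Ps gS 4711447171 (11909 + 1) = 650255618163122226 := by
    have h1 := grp_ok DS (x := 4711447171) (by norm_num) L12 gd12 (by rw [hd12]; norm_num) 388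
    rw [dr12, hd12, hd11] at h1
    exact stepL (v := 34411408776924520) (w := 684667026940046746) h1 g2S_12 (p2S_11) (by norm_num)

theorem p2S_13 : Ps gS 4711447171 (15559 + 1) = 624532566078001277 := by
    have h1 := grp_ok DS (x := 4711447171) (by norm_num) L13 gd13 (by rw [hd13]; norm_num) 388
    rw [dr13, hd13, hd12] at h1
    exact stepL (v := 25723052085120949) (w := 650255618163122226) h1 g2S_13 (p2S_12) (by norm_num)

theorem p2S_14 : Ps gS 4711447171 (19433 + 1) = 604034638479453742 := by
    have h1 := grp_ok DS (x := 4711447171) (by norm_num) L14 gd14 (by rw [hd14]; norm_num) 388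
    rw [dr14, hd14, hd13] at h1
    exact stepL (v := 20497927598547535) (w := 624532566078001277) h1 g2S_14 (p2S_13) (by norm_num)

theorem p2S_15 : Ps gS 4711447171 (23209 + 1) = 587086037495906045 := by
    have h1 := grp_ok DS (x := 4711447171) (by norm_num) L15 gd15 (by rw [hd15]; norm_num) 388
    rw [dr15, hd15, hd14] at h1
    exact stepL (v := 16948600983547697) (w := 604034638479453742) h1 g2S_15 (p2S_14) (by norm_num)

theorem p2S_16 : Ps gS 4711447171 (27197 + 1) = 572712100482413138 := by
    have h1 := grp_ok DS (x := 4711447171) (by norm_num) L16 gd16 (by rw [hd16]; norm_num) 388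
    rw [dr16, hd16, hd15] at h1
    exact stepL (v := 14373937013492907) (w := 587086037495906045) h1 g2S_16 (p2S_15) (by norm_num)

theorem p2S_17 : Ps gS 4711447171 (31247 + 1) = 560364725865133915 := by
    have h1 := grp_ok DS (x := 4711447171) (by norm_num) L17 gd17 (by rw [hd17]; norm_num) 388
    rw [dr17, hd17, hd16] at h1
    exact stepL (v := 12347374617279223) (w := 572712100482413138) h1 g2S_17 (p2S_16) (by norm_num)

theorem p2S_18 : Ps gS 4711447171 (35251 + 1) = 549666221243911656 := by
    have h1 := grp_ok DS (x := 4711447171) (by norm_num) L18 gd18 (by rw [hd18]; norm_num) 388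
    rw [dr18, hd18, hd17] at h1
    exact stepL (v := 10698504621222259) (w := 560364725865133915) h1 g2S_18 (p2S_17) (by norm_num)

theorem p2S_19 : Ps gS 4711447171 (39359 + 1) = 540401702504908411 := by
    have h1 := grp_ok DS (x := 4711447171) (by norm_num) L19 gd19 (by rw [hd19]; norm_num) 388
    rw [dr19, hd19, hd18] at h1
    exact stepL (v := 9264518739003245) (w := 549666221243911656) h1 g2S_19 (p2S_18) (by norm_num)

theorem p2S_20 : Ps gS 4711447171 (43457 + 1) = 532435946099277928 := by
    have h1 := grp_ok DS (x := 4711447171) (by norm_num) L20 gd20 (by rw [hd20]; norm_num) 388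
    rw [dr20, hd20, hd19] at h1
    exact stepL (v := 7965756405630483) (w := 540401702504908411) h1 g2S_20 (p2S_19) (by norm_num)

theorem p2S_21 : Ps gS 4711447171 (47681 + 1) = 525739946658205008 := by
    have h1 := grp_ok DS (x := 4711447171) (by norm_num) L21 gd21 (by rw [hd21]; norm_num) 384
    rw [dr21, hd21, hd20] at h1
    exact stepL (v := 6695999441072920) (w := 532435946099277928) h1 g2S_21 (p2S_20) (by norm_num)

theorem p2S_22 : Ps gS 4711447171 (51769 + 1) = 520228283864681370 := by
    have h1 := grp_ok DS (x := 4711447171) (by norm_num) L22 gd22 (by rw [hd22]; norm_num) 382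
    rw [dr22, hd22, hd21] at h1
    exact stepL (v := 5511662793523638) (w := 525739946658205008) h1 g2S_22 (p2S_21) (by norm_num)

theorem p2S_23 : Ps gS 4711447171 (55933 + 1) = 515871219882899431 := by
    have h1 := grp_ok DS (x := 4711447171) (by norm_num) L23 gd23 (by rw [hd23]; norm_num) 382
    rw [dr23, hd23, hd22] at h1
    exact stepL (v := 4357063981781939) (w := 520228283864681370) h1 g2S_23 (p2S_22) (by norm_num)

theorem p2S_24 : Ps gS 4711447171 (60037 + 1) = 512665738746514159 := by
    have h1 := grp_ok DS (x := 4711447171) (by norm_num) L24 gd24 (by rw [hd24]; norm_num) 382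
    rw [dr24, hd24, hd23] at h1
    exact stepL (v := 3205481136385272) (w := 515871219882899431) h1 g2S_24 (p2S_23) (by norm_num)

theorem p2S_25 : Ps gS 4711447171 (64373 + 1) = 510692032853800806 := by
    have h1 := grp_ok DS (x := 4711447171) (by norm_num) L25 gd25 (by rw [hd25]; norm_num) 382
    rw [dr25, hd25, hd24] at h1
    exact stepL (v := 1973705892713353) (w := 512665738746514159) h1 g2S_25 (p2S_24) (by norm_num)

theorem p2S_26 : Ps gS 4711447171 (68639 + 1) = 510024998419180234 := by
    have h1 := grp_ok DS (x := 4711447171) (by norm_num) L26 gd26 (by rw [hd26]; norm_num) 380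
    rw [dr26, hd26, hd25] at h1
    exact stepL (v := 667034434620572) (w := 510692032853800806) h1 g2S_26 (p2S_25) (by norm_num)

end Pool.Agent.Q254.PS
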