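import Mathlib

set_option autoImplicit false

namespace Pool.Agent.Q254.PS

open Finset

/-- the sum of `g p` over the odd primes `p ≤ z` -/
noncomputable def O (g : ℕ → ℕ) (z : ℕ) : ℕ :=
  ∑ p ∈ range (z + 1), if p.Prime ∧ p ≠ 2 then g p else 0

/-- the prime factors of `n ≠ 0` are at least `k` -/
def R (k n : ℕ) : Prop := n ≠ 0 ∧ ∀ p, p.Prime → p ∣ n → k ≤ p

open Classical in
/-- the sum of `g n` over the `n ≤ z` without prime factors `< k` -/
noncomputable def Ps (g : ℕ → ℕ) (z k : ℕ) : ℕ :=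
  ∑ n ∈ range (z + 1), if R k n then g n else 0

theorem O_succ (g : ℕ → ℕ) (z : ℕ) :
    O g (z + 1) = O g z + if (z + 1).Prime ∧ z + 1 ≠ 2 then g (z + 1) else 0 := by
  unfold O; rw [sum_range_succ]

theorem R_mul {q m : ℕ} (hq : q.Prime) : R q (q * m) ↔ R q m := by
  unfold R
  constructor
  · rintro ⟨h0, h⟩
    refine ⟨fun h' => h0 (by simp [h']), fun p hp hd => h p hp (Dvd.dvd.mul_left hd q)⟩
  · rintro ⟨h0, h⟩
    refine ⟨Nat.mul_ne_zero hq.ne_zero h0, fun p hp hd => ?_⟩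
    rcases (hp.dvd_mul).1 hd with h1 | h1
    · exact ((Nat.prime_dvd_prime_iff_eq hp hq).1 h1).ge
    · exact h p hp h1

theorem R_succ {q n : ℕ} (hq : q.Prime) : R (q + 1) n ↔ R q n ∧ ¬ q ∣ n := by
  unfold R
  constructor
  · rintro ⟨h0, h⟩
    exact ⟨⟨h0, fun p hp hd => by have := h p hp hd; omega⟩, fun hd => by
      have := h q hq hd; omega⟩
  · rintro ⟨⟨h0, h⟩, hd⟩
    refine ⟨h0, fun p hp hpd => ?_⟩
    have h1 := h p hp hpd
    rcases Nat.lt_or_ge q p with h2 | h2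
    · exact h2
    · exact absurd (show q ∣ n by rwa [show q = p by omega]) hd

theorem Ps_rec (g : ℕ → ℕ) {q : ℕ} (hq : q.Prime) (hg : ∀ m, g (q * m) = g q * g m) (z : ℕ) :
    Ps g z q = Ps g z (q + 1) + g q * Ps g (z / q) q := by
  classical
  unfold Ps
  have e1 : ∑ n ∈ range (z + 1), (if R q n then g n else 0) =
      ∑ n ∈ range (z + 1), (if R (q + 1) n then g n else 0) +
      ∑ n ∈ range (z + 1), (if q ∣ n ∧ R q n then g n else 0) := by
    rw [← sum_add_distrib]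
    refine sum_congr rfl fun n _ => ?_
    by_cases h1 : R q n <;> by_cases h2 : q ∣ n <;> simp [R_succ hq, h1, h2]
  rw [e1]
  congr 1
  rw [mul_sum, ← sum_filter]
  have e2 : ∀ m ∈ range (z / q + 1), g q * (if R q m then g m else 0) =
      if R q m then g (q * m) else 0 := by
    intro m _
    split_ifs
    · rw [hg]
    · simp
  rw [sum_congr rfl e2, ← sum_filter]
  symm
  refine sum_bij (fun m _ => q * m) ?_ ?_ ?_ ?_
  · intro m hm
    rw [mem_filter, mem_range] at hm ⊢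
    refine ⟨?_, Dvd.intro _ rfl, (R_mul hq).2 hm.2⟩
    have := (Nat.le_div_iff_mul_le hq.pos).1 (Nat.lt_succ_iff.1 hm.1)
    rw [mul_comm] at this
    omega
  · intro a _ b _ h
    exact Nat.eq_of_mul_eq_mul_left hq.pos h
  · intro n hn
    rw [mem_filter, mem_range] at hn
    obtain ⟨h1, ⟨m, rfl⟩, h3⟩ := hn
    refine ⟨m, ?_, rfl⟩
    rw [mem_filter, mem_range]
    refine ⟨?_, (R_mul hq).1 h3⟩
    rw [Nat.lt_succ_iff, Nat.le_div_iff_mul_le hq.pos, mul_comm]
    omega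
  · intro m _; rfl

theorem Ps_congr (g : ℕ → ℕ) (z : ℕ) {a b : ℕ} (hab : a ≤ b)
    (h : ∀ p : ℕ, p.Prime → a ≤ p → b ≤ p) : Ps g z a = Ps g z b := by
  classical
  unfold Ps
  refine sum_congr rfl fun n _ => ?_
  have : R a n ↔ R b n := by
    unfold R
    constructor
    · rintro ⟨h0, h1⟩
      exact ⟨h0, fun p hp hd => h p hp (h1 p hp hd)⟩
    · rintro ⟨h0, h1⟩
      exact ⟨h0, fun p hp hd => hab.trans (h1 p hp hd)⟩
  simp [this]

theorem R_small {k n : ℕ} (hn : n < k * k) (hk : 2 ≤ k) : R k n ↔ n = 1 ∨ (n.Prime ∧ k ≤ n) := by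
  unfold R
  constructor
  · rintro ⟨h0, h⟩
    by_cases h1 : n = 1
    · exact Or.inl h1
    · right
      have hp := Nat.minFac_prime h1
      have h2 := h _ hp (Nat.minFac_dvd n)
      by_cases h3 : n.Prime
      · exact ⟨h3, h n h3 dvd_rfl⟩
      · have h4 := Nat.minFac_sq_le_self (Nat.pos_of_ne_zero h0) h3
        nlinarith
  · rintro (rfl | ⟨h1, h2⟩)
    · refine ⟨one_ne_zero, fun p hp hd => ?_⟩
      exact absurd (Nat.dvd_one.1 hd) hp.ne_one
    · refine ⟨h1.ne_zero, fun p hp hd => ?_⟩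
      rwa [(Nat.prime_dvd_prime_iff_eq hp h1).1 hd]

theorem Ps_easy (g : ℕ → ℕ) {v k : ℕ} (hv : v < k * k) (hk : 3 ≤ k) (hkv : k ≤ v + 1) :
    Ps g v k + O g (k - 1) = g 1 + O g v := by
  classical
  have e1 : O g (k - 1) = ∑ n ∈ range (v + 1),
      if n < k ∧ n.Prime ∧ n ≠ 2 then g n else 0 := by
    unfold O
    rw [show k - 1 + 1 = k by omega, ← sum_subset (range_subset_range.2 hkv)]
    · refine sum_congr rfl fun n hn => ?_
      rw [mem_range] at hn
      simp [hn]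
    · intro n _ hn
      rw [mem_range] at hn
      simp [hn]
  have e2 : g 1 = ∑ n ∈ range (v + 1), if n = 1 then g 1 else 0 := by
    rw [sum_ite_eq' (range (v + 1)) 1 (fun _ => g 1), if_pos (mem_range.2 (by omega))]
  rw [e1, e2]
  unfold Ps O
  rw [← sum_add_distrib, ← sum_add_distrib]
  refine sum_congr rfl fun n hn => ?_
  rw [mem_range] at hn
  have h1 := @R_small k n (by omega) (by omega)
  by_cases hn1 : n = 1
  · subst hn1
    simp [h1, Nat.not_prime_one]
  · by_cases hp : n.Prime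
    · by_cases h2 : k ≤ n
      · simp [h1, hn1, hp, h2, show n ≠ 2 by omega, show ¬ n < k by omega]
      · simp [h1, hn1, hp, h2, show n < k by omega]
    · simp [h1, hn1, hp]

theorem O_mono (g : ℕ → ℕ) {a b : ℕ} (h : a ≤ b) : O g a ≤ O g b := by
  unfold O
  exact sum_le_sum_of_subset (range_subset_range.2 (by omega))

/-- no new primes where the count does not change -/
theorem no_prime {a b : ℕ} (ha : 2 ≤ a) (h : O (fun _ => 1) b ≤ O (fun _ => 1) a) {p : ℕ}
    (hp : p.Prime) (h1 : a < p) : b < p := by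
  by_contra h2
  rw [not_lt] at h2
  obtain ⟨m, rfl⟩ : ∃ m, p = m + 1 := ⟨p - 1, by omega⟩
  have h3 := O_succ (fun _ => 1) m
  rw [if_pos ⟨hp, by omega⟩] at h3
  have h4 := O_mono (fun _ => 1) (show a ≤ m by omega)
  have h5 := O_mono (fun _ => 1) h2
  omega

theorem prime_of_O {q : ℕ} (hq : 1 ≤ q) (h : O (fun _ => 1) q = O (fun _ => 1) (q - 1) + 1) :
    q.Prime ∧ q ≠ 2 := by
  obtain ⟨m, rfl⟩ : ∃ m, q = m + 1 := ⟨q - 1, by omega⟩
  rw [O_succ, Nat.add_sub_cancel] at h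
  by_contra h1
  rw [if_neg h1] at h
  omega

end Pool.Agent.Q254.PS
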