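import Mathlib
import Pool.Agent.Q254.PS.Core

set_option autoImplicit false

namespace Pool.Agent.Q254.PS

open Finset

/-- the number with the digits `f 0, ..., f (n - 1)` in base 65536 -/
def num (n : ℕ) (f : ℕ → ℕ) : ℕ := ∑ i ∈ range n, f i * 65536 ^ i

theorem num_succ (n : ℕ) (f : ℕ → ℕ) : num (n + 1) f = num n f + f n * 65536 ^ n :=
  sum_range_succ _ _

theorem num_congr {n : ℕ} {f g : ℕ → ℕ} (h : ∀ i < n, f i = g i) : num n f = num n g :=
  sum_congr rfl fun i hi => by rw [h i (mem_range.1 hi)]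

theorem num_lt {n : ℕ} {f : ℕ → ℕ} (hf : ∀ i < n, f i < 65536) : num n f < 65536 ^ n := by
  induction n with
  | zero => simp [num]
  | succ n ih =>
    rw [num_succ]
    have h1 := ih fun i hi => hf i (by omega)
    have h2 := hf n (by omega)
    have h3 : (f n + 1) * 65536 ^ n ≤ 65536 * 65536 ^ n := Nat.mul_le_mul_right _ (by omega)
    rw [pow_succ]
    nlinarith

theorem num_add (a b : ℕ) (f : ℕ → ℕ) :
    num (a + b) f = num a f + 65536 ^ a * num b (fun i => f (a + i)) := by
  unfold num
  rw [sum_range_add, mul_sum]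
  congr 1
  refine sum_congr rfl fun i _ => ?_
  rw [pow_add]; ring

theorem num_mod {a b : ℕ} {f : ℕ → ℕ} (hf : ∀ i, f i < 65536) :
    num (a + b) f % 65536 ^ a = num a f := by
  rw [num_add, Nat.add_mul_mod_self_left, Nat.mod_eq_of_lt (num_lt fun i _ => hf i)]

theorem num_div {a b : ℕ} {f : ℕ → ℕ} (hf : ∀ i, f i < 65536) :
    num (a + b) f / 65536 ^ a = num b (fun i => f (a + i)) := by
  rw [num_add, Nat.add_mul_div_left _ _ (by positivity),
    Nat.div_eq_of_lt (num_lt fun i _ => hf i), zero_add]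

theorem num_modEq (n : ℕ) (f : ℕ → ℕ) : num n f ≡ ∑ i ∈ range n, f i [MOD 65535] := by
  induction n with
  | zero => simp [num]; rfl
  | succ n ih =>
    rw [num_succ, sum_range_succ]
    refine ih.add ?_
    have h1 : 65536 ^ n ≡ 1 ^ n [MOD 65535] := Nat.ModEq.pow n (by decide)
    simpa using (Nat.ModEq.refl (f n)).mul h1

theorem num_sum {n : ℕ} {f : ℕ → ℕ} (h : ∑ i ∈ range n, f i < 65535) :
    num n f % 65535 = ∑ i ∈ range n, f i := by
  have h1 := num_modEq n f
  unfold Nat.ModEq at h1
  rw [h1, Nat.mod_eq_of_lt h]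

theorem pow_eq (n : ℕ) : (65536 : ℕ) ^ n = 2 ^ (16 * n) := by
  rw [pow_mul]; norm_num

theorem land_split {k a b c d : ℕ} (hb : b < 2 ^ k) (hd : d < 2 ^ k) :
    (2 ^ k * a + b) &&& (2 ^ k * c + d) = 2 ^ k * (a &&& c) + (b &&& d) := by
  apply Nat.eq_of_testBit_eq
  intro i
  rw [Nat.testBit_and, Nat.testBit_two_pow_mul_add _ hb, Nat.testBit_two_pow_mul_add _ hd,
    Nat.testBit_two_pow_mul_add _ (lt_of_le_of_lt Nat.and_le_left hb)]
  split_ifs <;> simp

theorem num_land {n : ℕ} {f g : ℕ → ℕ} (hf : ∀ i, f i < 65536) (hg : ∀ i, g i < 65536) :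
    num n f &&& num n g = num n (fun i => f i &&& g i) := by
  induction n with
  | zero => simp [num]
  | succ n ih =>
    have h1 := num_lt (n := n) fun i _ => hf i
    have h2 := num_lt (n := n) fun i _ => hg i
    rw [pow_eq] at h1 h2
    rw [num_succ, num_succ, num_succ, pow_eq, add_comm (num n f), add_comm (num n g),
      mul_comm (f n), mul_comm (g n), land_split h1 h2, ih, mul_comm, add_comm]

theorem num_one (n : ℕ) : num n (fun _ => 1) * 65535 + 1 = 65536 ^ n := by
  induction n with
  | zero => simp [num]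
  | succ n ih => rw [num_succ, pow_succ]; linarith

theorem num_one' (n : ℕ) : 65536 ^ n / 65535 = num n (fun _ => 1) := by
  rw [← num_one n]; omega

theorem num_compl {n : ℕ} {f : ℕ → ℕ} (hf : ∀ i, f i ≤ 1) :
    num n (fun _ => 1) - num n f = num n (fun i => 1 - f i) := by
  have : num n (fun _ => 1) = num n f + num n (fun i => 1 - f i) := by
    unfold num
    rw [← sum_add_distrib]
    refine sum_congr rfl fun i _ => ?_
    rw [← add_mul]
    have := hf i
    congr 1
    simp only
    omega
  omega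

theorem testBit_le_one {a : ℕ} (ha : a ≤ 1) (j : ℕ) : a.testBit j = decide (j = 0 ∧ a = 1) := by
  interval_cases a
  · simp
  · cases j with
    | zero => rfl
    | succ j => simp [Nat.testBit_succ]

theorem num_testBit {n : ℕ} {f : ℕ → ℕ} (hf : ∀ i, f i ≤ 1) (k : ℕ) :
    (num n f).testBit k = decide (k % 16 = 0 ∧ k / 16 < n ∧ f (k / 16) = 1) := by
  induction n with
  | zero => simp [num]
  | succ n ih =>
    have h1 := num_lt (n := n) fun i _ => (hf i).trans_lt (by norm_num : (1 : ℕ) < 65536)
    rw [pow_eq] at h1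
    rw [num_succ, add_comm, mul_comm, pow_eq, Nat.testBit_two_pow_mul_add _ h1, ih,
      testBit_le_one (hf n)]
    split_ifs with h2
    · rw [decide_eq_decide]
      constructor
      · rintro ⟨a, b, c⟩; exact ⟨a, by omega, c⟩
      · rintro ⟨a, b, c⟩; exact ⟨a, by omega, c⟩
    · rw [decide_eq_decide]
      constructor
      · rintro ⟨a, b⟩
        have e : k / 16 = n := by omega
        exact ⟨by omega, by omega, by rwa [e]⟩
      · rintro ⟨a, b, c⟩
        have e : k / 16 = n := by omega
        rw [e] at c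
        exact ⟨by omega, c⟩

theorem land_one (W n : ℕ) :
    W &&& num n (fun _ => 1) = num n (fun i => (W.testBit (16 * i)).toNat) := by
  apply Nat.eq_of_testBit_eq
  intro k
  rw [Nat.testBit_and, num_testBit (fun _ => le_rfl), num_testBit (fun i => Bool.toNat_le _)]
  by_cases h1 : k % 16 = 0
  · have h2 : 16 * (k / 16) = k := by omega
    rw [h2]
    by_cases h3 : k / 16 < n <;> cases W.testBit k <;> simp [h1, h3]
  · simp [h1]

/-- recursion for `IX` -/
def numI (n : ℕ) : ℕ := Nat.rec (motive := fun _ => ℕ) 0 (fun k ih => ih + k * 65536 ^ k) n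

theorem numI_eq (n : ℕ) : numI n = num n (fun i => i) := by
  induction n with
  | zero => rfl
  | succ n ih => rw [num_succ, ← ih]; rfl

theorem IX_eq : IX = num 344 (fun i => i) := by
  rw [← numI_eq]; decide +kernel

theorem seq_eq (w : ℕ) (k : ℕ → ℕ) : seq w k = k w := by
  cases w <;> rfl

theorem seqB_eq (w : ℕ) (k : ℕ → Bool) : seqB w k = k w := by
  cases w <;> rfl

theorem an_eq (b c : Bool) : an b c = true ↔ b = true ∧ c = true := by
  cases b <;> cases c <;> decide

theorem ite'_eq (b : Bool) (x y : ℕ) : ite' b x y = if b = true then x else y := by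
  cases b <;> rfl

theorem ite'_ble (a b x y : ℕ) : ite' (Nat.ble a b) x y = if a ≤ b then x else y := by
  rw [ite'_eq]
  by_cases h : a ≤ b
  · rw [if_pos h, if_pos (Nat.ble_eq_true_of_le h)]
  · rw [if_neg h, if_neg (fun h' => h (Nat.le_of_ble_eq_true h'))]

theorem ite'_beq (a b x y : ℕ) : ite' (Nat.beq a b) x y = if a = b then x else y := by
  rw [ite'_eq]
  by_cases h : a = b
  · rw [if_pos h, if_pos (by rw [h]; exact Nat.beq_refl b)]
  · rw [if_neg h, if_neg (fun h' => h (Nat.eq_of_beq_eq_true h'))]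

/-- the count in a leaf -/
theorem lfC_eq {lo bc z m : ℕ} {f : ℕ → ℕ} (hf : ∀ i, f i ≤ 1) (hm : (z + 1 - lo) / 2 = m)
    (hm' : m ≤ 344) : lfC lo bc (num 344 f) z = bc + ∑ i ∈ range m, f i := by
  have e : lfC lo bc (num 344 f) z =
      bc + (num 344 f % 65536 ^ ((z + 1 - lo) / 2)) % 65535 := rfl
  rw [e, hm]
  obtain ⟨b, hb⟩ : ∃ b, 344 = m + b := ⟨344 - m, by omega⟩
  rw [hb, num_mod fun i => (hf i).trans_lt (by norm_num : (1 : ℕ) < 65536), num_sum]
  calc ∑ i ∈ range m, f i ≤ ∑ i ∈ range m, 1 := sum_le_sum fun i _ => hf i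
    _ = m := by simp
    _ < 65535 := by omega

theorem land_full {i : ℕ} (hi : i < 65536) : 65535 &&& i = i := by
  have : (65535 : ℕ) = 2 ^ 16 - 1 := by norm_num
  rw [this, Nat.land_comm, Nat.and_two_pow_sub_one_eq_mod, Nat.mod_eq_of_lt (by omega)]

theorem num_cut {m : ℕ} (hm : m ≤ 344) (g : ℕ → ℕ) :
    num m g = num 344 (fun i => if i < m then g i else 0) := by
  unfold num
  rw [← sum_subset (range_subset_range.2 hm)]
  · refine sum_congr rfl fun i hi => ?_
    rw [mem_range] at hi
    simp [hi]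
  · intro i _ hi
    rw [mem_range] at hi
    simp [hi]

/-- the sum in a leaf -/
theorem lfS_eq {lo bs z m : ℕ} {f : ℕ → ℕ} (hf : ∀ i, f i ≤ 1) (hm : (z + 1 - lo) / 2 = m)
    (hm' : m ≤ 344) :
    lfS lo bs (num 344 f) z = bs + ∑ i ∈ range m, f i * (lo + 2 * i + 1) := by
  have e : lfS lo bs (num 344 f) z =
      seq (num 344 f % 65536 ^ ((z + 1 - lo) / 2)) fun y => bs + ((lo + 1) * (y % 65535) +
        2 * (((y * 65535) &&& IX) % 65535)) := rfl
  rw [e, seq_eq, hm]
  have hf' : ∀ i, f i < 65536 := fun i => (hf i).trans_lt (by norm_num : (1 : ℕ) < 65536)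
  obtain ⟨b, hb⟩ : ∃ b, 344 = m + b := ⟨344 - m, by omega⟩
  have e1 : num 344 f % 65536 ^ m = num m f := by
    conv_lhs => rw [hb]
    exact num_mod hf'
  rw [e1]
  have e2 : num m f % 65535 = ∑ i ∈ range m, f i := by
    apply num_sum
    calc ∑ i ∈ range m, f i ≤ ∑ i ∈ range m, 1 := sum_le_sum fun i _ => hf i
      _ = m := by simp
      _ < 65535 := by omega
  have e3 : num m f * 65535 = num 344 (fun i => if i < m then f i * 65535 else 0) := by
    rw [← num_cut hm']
    unfold num
    rw [sum_mul]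
    exact sum_congr rfl fun i _ => by ring
  have e4 : (num m f * 65535) &&& IX = num 344 (fun i => if i < m then f i * i else 0) := by
    have h0 : IX = num 344 (fun i => if i < 344 then i else 0) := by
      rw [IX_eq]
      exact num_congr fun i hi => by simp [hi]
    rw [e3, h0, num_land]
    · refine num_congr fun i hi => ?_
      rw [if_pos hi]
      by_cases h : i < m
      · rw [if_pos h, if_pos h]
        have h1 := hf i
        interval_cases h2 : f i
        · simp
        · rw [one_mul, one_mul, land_full (by omega)]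
      · rw [if_neg h, if_neg h, Nat.zero_and]
    · intro i
      have := hf i
      split_ifs <;> omega
    · intro i
      split_ifs <;> omega
  have e5 : ∑ i ∈ range 344, (if i < m then f i * i else 0) = ∑ i ∈ range m, f i * i := by
    rw [← sum_subset (range_subset_range.2 hm')]
    · refine sum_congr rfl fun i hi => ?_
      rw [mem_range] at hi
      simp [hi]
    · intro i _ hi
      rw [mem_range] at hi
      simp [hi]
  have e6 : num 344 (fun i => if i < m then f i * i else 0) % 65535 =
      ∑ i ∈ range m, f i * i := by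
    rw [num_sum, e5]
    rw [e5]
    calc ∑ i ∈ range m, f i * i ≤ ∑ i ∈ range m, i :=
          sum_le_sum fun i _ => by have := hf i; nlinarith
      _ ≤ ∑ i ∈ range 344, i := sum_le_sum_of_subset (range_subset_range.2 hm')
      _ < 65535 := by rw [Finset.sum_range_id]; norm_num
  have e7 : (lo + 1) * ∑ i ∈ range m, f i + 2 * ∑ i ∈ range m, f i * i =
      ∑ i ∈ range m, f i * (lo + 2 * i + 1) := by
    rw [mul_sum, mul_sum, ← sum_add_distrib]
    exact sum_congr rfl fun i _ => by ring
  rw [e4, e6, e2, e7]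

end Pool.Agent.Q254.PS
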