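import Pool.Agent.Q254.PS.Core
set_option autoImplicit false
set_option maxRecDepth 100000
namespace Pool.Agent.Q254.PS

theorem seg0 : chkSeg t0 (nat_lit 0) (nat_lit 0) (nat_lit 0) (nat_lit 8547) (nat_lit 356226139) = true := by
  decide +kernel
theorem seg1 : chkSeg t1 (nat_lit 44032) (nat_lit 8547) (nat_lit 356226139) (nat_lit 16002) (nat_lit 1337221776) = true := by
  decide +kernel
theorem seg2 : chkSeg t2 (nat_lit 88064) (nat_lit 16002) (nat_lit 1337221776) (nat_lit 23167) (nat_lit 2912032289) = true := by
  decide +kernel
theorem seg3 : chkSeg t3 (nat_lit 132096) (nat_lit 23167) (nat_lit 2912032289) (nat_lit 30151) (nat_lit 5063965391) = true := by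
  decide +kernel
theorem seg4 : chkSeg t4 (nat_lit 176128) (nat_lit 30151) (nat_lit 5063965391) (nat_lit 36963) (nat_lit 7763497091) = true := by
  decide +kernel
theorem seg5 : chkSeg t5 (nat_lit 220160) (nat_lit 36963) (nat_lit 7763497091) (nat_lit 43702) (nat_lit 11027623388) = true := by
  decide +kernel
theorem seg6 : chkSeg t6 (nat_lit 264192) (nat_lit 43702) (nat_lit 11027623388) (nat_lit 50344) (nat_lit 14830295456) = true := by
  decide +kernel
theorem seg7 : chkSeg t7 (nat_lit 308224) (nat_lit 50344) (nat_lit 14830295456) (nat_lit 56883) (nat_lit 19149761303) = true := by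
  decide +kernel
theorem seg8 : chkSeg t8 (nat_lit 352256) (nat_lit 56883) (nat_lit 19149761303) (nat_lit 63401) (nat_lit 24028525905) = true := by
  decide +kernel
theorem seg9 : chkSeg t9 (nat_lit 396288) (nat_lit 63401) (nat_lit 24028525905) (nat_lit 69871) (nat_lit 29441210061) = true := by
  decide +kernel
theorem seg10 : chkSeg t10 (nat_lit 440320) (nat_lit 69871) (nat_lit 29441210061) (nat_lit 76257) (nat_lit 35345490357) = true := by
  decide +kernel
theorem seg11 : chkSeg t11 (nat_lit 484352) (nat_lit 76257) (nat_lit 35345490357) (nat_lit 82603) (nat_lit 41771752225) = true := by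
  decide +kernel
theorem seg12 : chkSeg t12 (nat_lit 528384) (nat_lit 82603) (nat_lit 41771752225) (nat_lit 88937) (nat_lit 48743802933) = true := by
  decide +kernel
theorem seg13 : chkSeg t13 (nat_lit 572416) (nat_lit 88937) (nat_lit 48743802933) (nat_lit 95254) (nat_lit 56252146414) = true := by
  decide +kernel
theorem seg14 : chkSeg t14 (nat_lit 616448) (nat_lit 95254) (nat_lit 56252146414) (nat_lit 101494) (nat_lit 64219513448) = true := by
  decide +kernel
theorem seg15 : chkSeg t15 (nat_lit 660480) (nat_lit 101494) (nat_lit 64219513448) (nat_lit 107737) (nat_lit 72740861161) = true := by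
  decide +kernel
theorem seg16 : chkSeg t16 (nat_lit 704512) (nat_lit 107737) (nat_lit 72740861161) (nat_lit 113966) (nat_lit 81792728328) = true := by
  decide +kernel
theorem seg17 : chkSeg t17 (nat_lit 748544) (nat_lit 113966) (nat_lit 81792728328) (nat_lit 120113) (nat_lit 91265314317) = true := by
  decide +kernel
theorem seg18 : chkSeg t18 (nat_lit 792576) (nat_lit 120113) (nat_lit 91265314317) (nat_lit 126261) (nat_lit 101281809871) = true := by
  decide +kernel
theorem seg19 : chkSeg t19 (nat_lit 836608) (nat_lit 126261) (nat_lit 101281809871) (nat_lit 132368) (nat_lit 111767869076) = true := by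
  decide +kernel
theorem seg20 : chkSeg t20 (nat_lit 880640) (nat_lit 132368) (nat_lit 111767869076) (nat_lit 138499) (nat_lit 122836116155) = true := by
  decide +kernel
theorem seg21 : chkSeg t21 (nat_lit 924672) (nat_lit 138499) (nat_lit 122836116155) (nat_lit 144621) (nat_lit 134426594833) = true := by
  decide +kernel
theorem seg22 : chkSeg t22 (nat_lit 968704) (nat_lit 144621) (nat_lit 134426594833) (nat_lit 150697) (nat_lit 146466141817) = true := by
  decide +kernel
theorem seg23 : chkSeg t23 (nat_lit 1012736) (nat_lit 150697) (nat_lit 146466141817) (nat_lit 156741) (nat_lit 158973711851) = true := by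
  decide +kernel
theorem seg24 : chkSeg t24 (nat_lit 1056768) (nat_lit 156741) (nat_lit 158973711851) (nat_lit 162775) (nat_lit 171991291929) = true := by
  decide +kernel
theorem seg25 : chkSeg t25 (nat_lit 1100800) (nat_lit 162775) (nat_lit 171991291929) (nat_lit 168800) (nat_lit 185521055894) = true := by
  decide +kernel
theorem seg26 : chkSeg t26 (nat_lit 1144832) (nat_lit 168800) (nat_lit 185521055894) (nat_lit 174764) (nat_lit 199438932258) = true := by
  decide +kernel
theorem seg27 : chkSeg t27 (nat_lit 1188864) (nat_lit 174764) (nat_lit 199438932258) (nat_lit 180768) (nat_lit 213979282562) = true := by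
  decide +kernel
theorem seg28 : chkSeg t28 (nat_lit 1232896) (nat_lit 180768) (nat_lit 213979282562) (nat_lit 186719) (nat_lit 228915654795) = true := by
  decide +kernel
theorem seg29 : chkSeg t29 (nat_lit 1276928) (nat_lit 186719) (nat_lit 228915654795) (nat_lit 192703) (nat_lit 244460799289) = true := by
  decide +kernel
theorem seg30 : chkSeg t30 (nat_lit 1320960) (nat_lit 192703) (nat_lit 244460799289) (nat_lit 198663) (nat_lit 260468459323) = true := by
  decide +kernel
theorem seg31 : chkSeg t31 (nat_lit 1364992) (nat_lit 198663) (nat_lit 260468459323) (nat_lit 204612) (nat_lit 276973017234) = true := by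
  decide +kernel

end Pool.Agent.Q254.PS
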