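import Pool.Agent.Q254.PS.WheelOK

set_option autoImplicit false

namespace Pool.Agent.Q254.PS

open Finset

def Good : PL → Prop
  | .nil => True
  | .cons q q2 e s t => q.Prime ∧ q2 = q * q ∧ e = O (fun _ => 1) (q - 1) ∧
      s = O (fun n => n) (q - 1) ∧ hd t < q ∧ (∀ p : ℕ, p.Prime → hd t < p → q ≤ p) ∧ Good t

def drp : ℕ → PL → PL
  | 0, L => L
  | _ + 1, .nil => .nil
  | m + 1, .cons _ _ _ _ t => drp m t

theorem hd_ge {L : PL} (h : Good L) : 12 ≤ hd L := by
  induction L with
  | nil => exact le_rfl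
  | cons q q2 e s t ih =>
    obtain ⟨_, _, _, _, h1, _, h2⟩ := h
    have := ih h2
    show 12 ≤ q
    omega

/-- the table is right below `Y` -/
def TabOK (Y : ℕ) : Prop :=
  ∀ z < Y, getC tbl z = O (fun _ => 1) z ∧ getS tbl z = O (fun n => n) z

theorem chkL_ok {Y : ℕ} (hT : TabOK Y) (L : PL) : ∀ m, chkL L m = true → hd L < Y →
    Good (drp m L) → Good L := by
  induction L with
  | nil => intro _ _ _ _; trivial
  | cons q q2 e s t ih =>
    intro m
    cases m with
    | zero => intro _ _ h; exact h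
    | succ m =>
      intro h hq hg
      have e1 : chkL (PL.cons q q2 e s t) (m + 1) =
       an (Nat.ble (hd t + 1) q) (an (Nat.beq q2 (q * q))
       (seqB (q - 1) fun q' => an (Nat.beq e (getC tbl q'))
       (an (Nat.beq s (getS tbl q')) (an (Nat.beq (e + 1) (getC tbl q))
       (an (Nat.beq e (getC tbl (hd t))) (chkL t m)))))) := rfl
      rw [e1] at h
      simp only [an_eq, seqB_eq, beq_iff, ble_iff] at h
      obtain ⟨h1, h2, h3, h4, h5, h6, h7⟩ := h
      change q < Y at hq
      have hgt : Good t := ih m h7 (by omega) hg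
      have h12 := hd_ge hgt
      rw [(hT (q - 1) (by omega)).1] at h3
      rw [(hT (q - 1) (by omega)).2] at h4
      rw [(hT q hq).1] at h5
      rw [(hT (hd t) (by omega)).1] at h6
      refine ⟨(prime_of_O (by omega) (by omega)).1, h2, h3, h4, h1, ?_, hgt⟩
      intro p hp hpt
      have := no_prime (a := hd t) (b := q - 1) (by omega) (by omega) hp hpt
      omega

/-- the data of Legendre's recursion are right -/
structure Dat (g W G : ℕ → ℕ) (sel : ℕ → ℕ → ℕ) : Prop where
  one : g 1 = 1
  mul : ∀ a b, g (a * b) = g a * g b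
  wh : ∀ z, W z = Ps g z 13
  get : ∀ z < 2818048, G z = O g z
  sel : ∀ q e s, e = O (fun _ => 1) (q - 1) → s = O (fun n => n) (q - 1) → sel e s = O g (q - 1)

theorem Ps_step {g : ℕ → ℕ} (h1 : ∀ a b, g (a * b) = g a * g b) {q k : ℕ} (hq : q.Prime)
    (hk : k < q) (h : ∀ p : ℕ, p.Prime → k < p → q ≤ p) (w : ℕ) :
    Ps g w (k + 1) = Ps g w (q + 1) + g q * Ps g (w / q) q := by
  rw [← Ps_rec g hq (fun m => h1 q m) w]
  exact Ps_congr g w hk fun p hp hp' => h p hp hp'

theorem easy_eq {g W G : ℕ → ℕ} {sel : ℕ → ℕ → ℕ} (D : Dat g W G sel) {q e s v : ℕ}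
    (he : e = O (fun _ => 1) (q - 1)) (hs : s = O (fun n => n) (q - 1)) (hv : v < q * q)
    (hq : 3 ≤ q) (hqv : q ≤ v + 1) (hv2 : v < 2818048) :
    G v + 1 - sel e s = Ps g v q := by
  have h1 := Ps_easy g hv hq hqv
  rw [D.one] at h1
  rw [D.get v hv2, D.sel q e s he hs]
  omega

theorem phi_ok {g W G : ℕ → ℕ} {sel : ℕ → ℕ → ℕ} (D : Dat g W G sel) (L : PL) :
    Good L → hd L ≤ 1678 → ∀ w, hd L * hd L ≤ w → phi g W G sel L w = Ps g w (hd L + 1) := by
  induction L with
  | nil => intro _ _ w _; exact D.wh w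
  | cons q q2 e s t ih =>
    intro hG hq w hw
    obtain ⟨h1, h2, h3, h4, h5, h6, h7⟩ := hG
    change q ≤ 1678 at hq
    change q * q ≤ w at hw
    have h12 := hd_ge h7
    have hqt : hd t * hd t ≤ q * q := Nat.mul_le_mul h5.le h5.le
    have hqv : q ≤ w / q := (Nat.le_div_iff_mul_le h1.pos).2 hw
    have e1 : phi g W G sel (PL.cons q q2 e s t) w = seq (w / q) fun v =>
      phi g W G sel t w - g q * ite' (Nat.ble (v + 1) q2) (G v + 1 - sel e s)
        (phi g W G sel t v) := rfl
    have e2 : Ps g w (hd t + 1) = Ps g w (q + 1) + g q * Ps g (w / q) q :=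
      Ps_step D.mul h1 h5 h6 w
    have e3 : ite' (Nat.ble (w / q + 1) q2) (G (w / q) + 1 - sel e s)
        (phi g W G sel t (w / q)) = Ps g (w / q) q := by
      rw [ite'_ble, h2]
      split_ifs with h
      · exact easy_eq D h3 h4 h (by omega) (by omega) (by nlinarith)
      · rw [ih h7 (by omega) (w / q) (by omega)]
        exact Ps_congr g _ h5 fun p hp hp' => h6 p hp hp'
    rw [e1, seq_eq, e3, ih h7 (by omega) w (by omega), e2]
    show _ = Ps g w (q + 1)
    omega

theorem grp_ok {g W G : ℕ → ℕ} {sel : ℕ → ℕ → ℕ} (D : Dat g W G sel) {x : ℕ}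
    (hx : x < 4731502592) (L : PL) :
    Good L → hd L * hd L ≤ x → ∀ m,
      Ps g x (hd L + 1) + grp g W G sel x L m = Ps g x (hd (drp m L) + 1) := by
  induction L with
  | nil =>
    intro _ _ m
    cases m <;> rfl
  | cons q q2 e s t ih =>
    intro hG hq m
    obtain ⟨h1, h2, h3, h4, h5, h6, h7⟩ := hG
    cases m with
    | zero => rfl
    | succ m =>
      change q * q ≤ x at hq
      have h12 := hd_ge h7
      have hqt : hd t * hd t ≤ q * q := Nat.mul_le_mul h5.le h5.le
      have hqv : q ≤ x / q := (Nat.le_div_iff_mul_le h1.pos).2 hq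
      have e1 : grp g W G sel x (PL.cons q q2 e s t) (m + 1) = (seq (x / q) fun v =>
        g q * ite' (Nat.ble (v + 1) q2) (G v + 1 - sel e s) (phi g W G sel t v)) +
          grp g W G sel x t m := rfl
      have e2 : Ps g x (hd t + 1) = Ps g x (q + 1) + g q * Ps g (x / q) q :=
        Ps_step D.mul h1 h5 h6 x
      have hdiv : x / q * q ≤ x := Nat.div_mul_le_self x q
      have e3 : ite' (Nat.ble (x / q + 1) q2) (G (x / q) + 1 - sel e s)
          (phi g W G sel t (x / q)) = Ps g (x / q) q := by
        rw [ite'_ble, h2]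
        split_ifs with h
        · refine easy_eq D h3 h4 h (by omega) (by omega) ?_
          rcases Nat.lt_or_ge q 1679 with h8 | h8
          · nlinarith
          · by_contra h9
            rw [not_lt] at h9
            have : 2818048 * 1679 ≤ x / q * q := Nat.mul_le_mul h9 h8
            omega
        · have h8 : q < 1679 := by
            by_contra h9
            rw [not_lt] at h9
            have h10 : q * q ≤ x / q := by omega
            have h11 : 1679 * 1679 ≤ q * q := Nat.mul_le_mul h9 h9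
            have : 1679 * 1679 * 1679 ≤ x / q * q := Nat.mul_le_mul (h11.trans h10) h9
            omega
          rw [phi_ok D t h7 (by omega) (x / q) (by omega)]
          exact Ps_congr g _ h5 fun p hp hp' => h6 p hp hp'
      have e4 := ih h7 (by omega) m
      rw [e1, seq_eq, e3]
      show Ps g x (q + 1) + _ = Ps g x (hd (drp m t) + 1)
      rw [← e4, e2]
      ring

end Pool.Agent.Q254.PS
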