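import Pool.Agent.Q254.PS.Num

set_option autoImplicit false

namespace Pool.Agent.Q254.PS

open Finset

theorem dbl_testBit (d s k i : ℕ) :
    (dbl d (65536 ^ s) k).testBit (16 * i) = true ↔ ∃ j < 2 ^ k, i = s + d * j := by
  induction k generalizing i with
  | zero =>
    have e : dbl d (65536 ^ s) 0 = 65536 ^ s := rfl
    rw [e, pow_eq, Nat.testBit_two_pow, decide_eq_true_eq]
    constructor
    · intro h; exact ⟨0, by norm_num, by omega⟩
    · rintro ⟨j, hj, rfl⟩
      have : j = 0 := by simpa using hj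
      subst this; simp
  | succ k ih =>
    have e : dbl d (65536 ^ s) (k + 1) = seq (dbl d (65536 ^ s) k) fun M =>
      M ||| (M <<< (16 * d * 2 ^ k)) := rfl
    rw [e, seq_eq, Nat.testBit_or, Nat.testBit_shiftLeft, Bool.or_eq_true, Bool.and_eq_true,
      decide_eq_true_eq, ih]
    have e1 : 16 * i - 16 * d * 2 ^ k = 16 * (i - d * 2 ^ k) := by
      rw [Nat.mul_sub]; ring_nf
    rw [e1, ih]
    constructor
    · rintro (⟨j, hj, h⟩ | ⟨h1, j, hj, h⟩)
      · exact ⟨j, hj.trans (Nat.pow_lt_pow_right (by norm_num) (by omega)), h⟩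
      · have h2 : d * 2 ^ k ≤ i := by nlinarith
        refine ⟨j + 2 ^ k, by rw [pow_succ]; omega, ?_⟩
        rw [mul_add]; omega
    · rintro ⟨j, hj, h⟩
      rcases Nat.lt_or_ge j (2 ^ k) with h1 | h1
      · exact Or.inl ⟨j, h1, h⟩
      · right
        obtain ⟨l, rfl⟩ := Nat.exists_eq_add_of_le h1
        rw [mul_add] at h
        refine ⟨by rw [mul_assoc]; omega, l, by rw [pow_succ] at hj; omega, by omega⟩

theorem start_spec {d i0 I : ℕ} (hd : d % 2 = 1) (hI : i0 ≤ I) :
    (d ∣ 2 * I + 1 ∧ d * d ≤ 2 * I + 1) ↔ ∃ j, I = i0 + start d i0 + d * j := by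
  have e : start d i0 = seq (d * d / 2) fun a => ite' (Nat.ble i0 a) (a - i0)
    ((d / 2 + (d - 1) * i0) % d) := rfl
  rw [e, seq_eq, ite'_ble]
  obtain ⟨m, rfl⟩ : ∃ m, d = 2 * m + 1 := ⟨d / 2, by omega⟩
  have ea : (2 * m + 1) * (2 * m + 1) / 2 = 2 * m * m + 2 * m := by
    have : (2 * m + 1) * (2 * m + 1) = 2 * (2 * m * m + 2 * m) + 1 := by ring
    omega
  rw [ea]
  split_ifs with h
  · constructor
    · rintro ⟨⟨c, hc⟩, h2⟩
      have hc1 : 2 * m + 1 ≤ c := by
        rw [hc] at h2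
        exact Nat.le_of_mul_le_mul_left h2 (by omega)
      have hc2 : c % 2 = 1 := by
        have h3 : ((2 * m + 1) * c) % 2 = 1 := by omega
        rw [Nat.mul_mod] at h3
        rcases Nat.mod_two_eq_zero_or_one c with h4 | h4
        · rw [h4] at h3; simp at h3
        · exact h4
      obtain ⟨j, hj⟩ : ∃ j, c = 2 * m + 1 + 2 * j := ⟨(c - (2 * m + 1)) / 2, by omega⟩
      refine ⟨j, ?_⟩
      rw [hj] at hc
      have h5 : (2 * m + 1) * (2 * m + 1 + 2 * j) =
        2 * (2 * m * m + 2 * m + (2 * m + 1) * j) + 1 := by ring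
      omega
    · rintro ⟨j, hj⟩
      have h6 : 2 * I + 1 = (2 * m + 1) * (2 * m + 1 + 2 * j) := by
        have h5 : (2 * m + 1) * (2 * m + 1 + 2 * j) =
          2 * (2 * m * m + 2 * m + (2 * m + 1) * j) + 1 := by ring
        omega
      rw [h6]
      exact ⟨Dvd.intro _ rfl, Nat.mul_le_mul_left _ (by omega)⟩
  · rw [not_le] at h
    have e1 : (2 * m + 1) / 2 = m := by omega
    rw [e1]
    have h7 : (2 * m + 1) * (2 * m + 1) ≤ 2 * I + 1 := by
      have : (2 * m + 1) * (2 * m + 1) = 2 * (2 * m * m + 2 * m) + 1 := by ring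
      omega
    obtain ⟨t, rfl⟩ := Nat.exists_eq_add_of_le hI
    have key : 2 * m + 1 ∣ 2 * (i0 + t) + 1 ↔
        t % (2 * m + 1) = (m + (2 * m + 1 - 1) * i0) % (2 * m + 1) := by
      have e2 : m + (2 * m + 1 - 1) * i0 = m + 2 * m * i0 := by
        rw [Nat.add_sub_cancel]
      rw [e2]
      have e3 : (t % (2 * m + 1) = (m + 2 * m * i0) % (2 * m + 1)) ↔
          t ≡ m + 2 * m * i0 [MOD (2 * m + 1)] := Iff.rfl
      rw [e3]
      have hco : Nat.Coprime (2 * m + 1) 2 := by
        rw [Nat.coprime_comm]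
        exact (Nat.coprime_two_left).2 ⟨m, rfl⟩
      rw [← Nat.modEq_zero_iff_dvd]
      constructor
      · intro h8
        -- 2 t + 1 + 2 i0 ≡ 0
        apply Nat.ModEq.cancel_left_of_coprime (c := 2) (by simpa using hco)
        have h9 : 2 * (m + 2 * m * i0) + (2 * (i0 + t) + 1) =
            2 * t + (2 * m + 1) * (2 * i0 + 1) := by ring
        have h10 : 2 * (m + 2 * m * i0) + (2 * (i0 + t) + 1) ≡ 2 * (m + 2 * m * i0) + 0
          [MOD (2 * m + 1)] := Nat.ModEq.add_left _ h8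
        rw [h9] at h10
        have h11 : 2 * t + (2 * m + 1) * (2 * i0 + 1) ≡ 2 * t [MOD (2 * m + 1)] := by
          unfold Nat.ModEq; rw [Nat.add_mul_mod_self_left]
        exact h11.symm.trans (h10.trans (by rw [add_zero]))
      · intro h8
        have h9 : 2 * (i0 + t) + 1 ≡ 2 * (i0 + (m + 2 * m * i0)) + 1 [MOD (2 * m + 1)] :=
          Nat.ModEq.add_right _ (Nat.ModEq.mul_left _ (Nat.ModEq.add_left _ h8))
        have h10 : 2 * (i0 + (m + 2 * m * i0)) + 1 = (2 * m + 1) * (2 * i0 + 1) := by ring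
        rw [h10] at h9
        exact h9.trans (Nat.modEq_zero_iff_dvd.2 (Dvd.intro _ rfl))
    rw [key]
    constructor
    · rintro ⟨h8, _⟩
      refine ⟨t / (2 * m + 1), ?_⟩
      rw [← h8]
      have := Nat.mod_add_div t (2 * m + 1)
      omega
    · rintro ⟨j, hj⟩
      refine ⟨?_, h7⟩
      have h8 : t = (m + (2 * m + 1 - 1) * i0) % (2 * m + 1) + (2 * m + 1) * j := by omega
      rw [h8, Nat.add_mul_mod_self_left, Nat.mod_mod]

theorem mask_testBit {d i0 len i : ℕ} (hd : d % 2 = 1) (hi : i < len) :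
    (mask d i0 len).testBit (16 * i) = true ↔
      (d ∣ 2 * (i0 + i) + 1 ∧ d * d ≤ 2 * (i0 + i) + 1) := by
  have e : mask d i0 len = seq (start d i0) fun s => ite' (Nat.ble len s) 0
    (dbl d (65536 ^ s) (Nat.log2 ((len - s) / d) + 1)) := rfl
  rw [e, seq_eq, ite'_ble, start_spec hd (Nat.le_add_right i0 i)]
  split_ifs with h
  · simp only [Nat.zero_testBit, Bool.false_eq_true, false_iff]
    rintro ⟨j, hj⟩
    omega
  · rw [not_le] at h
    rw [dbl_testBit]
    constructor
    · rintro ⟨j, _, hj⟩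
      exact ⟨j, by omega⟩
    · rintro ⟨j, hj⟩
      refine ⟨j, ?_, by omega⟩
      have h1 : j ≤ (len - start d i0) / d := by
        rw [Nat.le_div_iff_mul_le (by omega), mul_comm]
        omega
      exact lt_of_le_of_lt h1 Nat.lt_log2_self

theorem orr_testBit (i0 len k d b : ℕ) :
    (orr i0 len k d).testBit b = true ↔
      ∃ j < 2 ^ k, (mask (d + 2 * j) i0 len).testBit b = true := by
  induction k generalizing d with
  | zero =>
    have e : orr i0 len 0 d = mask d i0 len := rfl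
    rw [e]
    constructor
    · intro h; exact ⟨0, by norm_num, by simpa using h⟩
    · rintro ⟨j, hj, h⟩
      have : j = 0 := by simpa using hj
      subst this; simpa using h
  | succ k ih =>
    have e : orr i0 len (k + 1) d = orr i0 len k d ||| seq (d + 2 ^ (k + 1)) fun e =>
      orr i0 len k e := rfl
    rw [e, seq_eq, Nat.testBit_or, Bool.or_eq_true, ih, ih]
    constructor
    · rintro (⟨j, hj, h⟩ | ⟨j, hj, h⟩)
      · exact ⟨j, by rw [pow_succ]; omega, h⟩
      · refine ⟨j + 2 ^ k, by rw [pow_succ]; omega, ?_⟩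
        rw [show d + 2 * (j + 2 ^ k) = d + 2 ^ (k + 1) + 2 * j by rw [pow_succ]; ring]
        exact h
    · rintro ⟨j, hj, h⟩
      rcases Nat.lt_or_ge j (2 ^ k) with h1 | h1
      · exact Or.inl ⟨j, h1, h⟩
      · right
        obtain ⟨l, rfl⟩ := Nat.exists_eq_add_of_le h1
        refine ⟨l, by rw [pow_succ] at hj; omega, ?_⟩
        rw [show d + 2 ^ (k + 1) + 2 * l = d + 2 * (2 ^ k + l) by rw [pow_succ]; ring]
        exact h

/-- the indicator of the odd primes at `2 i + 1` -/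
noncomputable def bb (i : ℕ) : ℕ := if (2 * i + 1).Prime ∧ 2 * i + 1 ≠ 2 then 1 else 0

theorem bb_le (i : ℕ) : bb i ≤ 1 := by unfold bb; split_ifs <;> norm_num

theorem prime_iff {n : ℕ} (hn : n % 2 = 1) (hn1 : n ≠ 1) (hn2 : n < 2818048) :
    (∃ j < 1024, (3 + 2 * j) ∣ n ∧ (3 + 2 * j) * (3 + 2 * j) ≤ n) ↔ ¬ n.Prime := by
  constructor
  · rintro ⟨j, _, h1, h2⟩ hp
    rcases (Nat.dvd_prime hp).1 h1 with h | h
    · omega
    · rw [← h] at h2
      nlinarith
  · intro hp
    have h1 := Nat.minFac_sq_le_self (by omega : 0 < n) hp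
    have h2 := Nat.minFac_dvd n
    have h3 : n.minFac % 2 = 1 := by
      rcases Nat.mod_two_eq_zero_or_one n.minFac with h | h
      · have : 2 ∣ n := (Nat.dvd_of_mod_eq_zero h).trans h2
        omega
      · exact h
    have h4 : 2 ≤ n.minFac := (Nat.minFac_prime hn1).two_le
    have h5 : n.minFac < 1679 := by nlinarith
    refine ⟨(n.minFac - 3) / 2, by omega, ?_⟩
    rw [show 3 + 2 * ((n.minFac - 3) / 2) = n.minFac by omega]
    exact ⟨h2, by rw [← sq]; exact h1⟩

/-- the number of the sieve -/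
noncomputable def WW (i0 : ℕ) : ℕ := ite' (Nat.beq i0 0) 1 0 ||| orr i0 44032 10 3

theorem WW_testBit {i0 i : ℕ} (hi : i < 44032) (h : 2 * (i0 + 44032) ≤ 2818048) :
    ((WW i0).testBit (16 * i)).toNat = 1 - bb (i0 + i) := by
  have h1 : (WW i0).testBit (16 * i) = true ↔ ¬ (2 * (i0 + i) + 1).Prime := by
    unfold WW
    rw [Nat.testBit_or, Bool.or_eq_true, orr_testBit]
    have h2 : ∀ j < 2 ^ 10, ((mask (3 + 2 * j) i0 44032).testBit (16 * i) = true ↔
        (3 + 2 * j ∣ 2 * (i0 + i) + 1 ∧ (3 + 2 * j) * (3 + 2 * j) ≤ 2 * (i0 + i) + 1)) :=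
      fun j _ => mask_testBit (by omega) hi
    have h3 : (ite' (Nat.beq i0 0) 1 0).testBit (16 * i) = true ↔ i0 + i = 0 := by
      rw [ite'_beq]
      split_ifs with h0
      · rw [testBit_le_one le_rfl, decide_eq_true_eq]
        omega
      · simp only [Nat.zero_testBit, Bool.false_eq_true, false_iff]
        omega
    rw [h3]
    by_cases h4 : i0 + i = 0
    · simp [h4, Nat.not_prime_one]
    · rw [← prime_iff (n := 2 * (i0 + i) + 1) (by omega) (by omega) (by omega)]
      constructor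
      · rintro (h5 | ⟨j, hj, h5⟩)
        · exact absurd h5 h4
        · exact ⟨j, by simpa using hj, (h2 j hj).1 h5⟩
      · rintro ⟨j, hj, h5⟩
        exact Or.inr ⟨j, by simpa using hj, (h2 j (by simpa using hj)).2 h5⟩
  unfold bb
  by_cases h2 : (2 * (i0 + i) + 1).Prime
  · have h3 : (WW i0).testBit (16 * i) = false := by
      rw [← Bool.not_eq_true]
      exact fun h => (h1.1 h) h2
    rw [h3, if_pos ⟨h2, by omega⟩]
    rfl
  · rw [h1.2 h2, if_neg (fun h => h2 h.1)]
    rfl

theorem FF_eq {i0 : ℕ} (h : 2 * (i0 + 44032) ≤ 2818048) :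
    num 44032 (fun _ => 1) - (WW i0 &&& num 44032 (fun _ => 1)) =
      num 44032 (fun i => bb (i0 + i)) := by
  rw [land_one, num_compl (fun i => Bool.toNat_le _)]
  refine num_congr fun i hi => ?_
  rw [WW_testBit hi h]
  have := bb_le (i0 + i)
  omega

end Pool.Agent.Q254.PS
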