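import Pool.Agent.Q254.PS.Fin

set_option autoImplicit false

namespace Pool.Agent.Q254.PS

open Finset

theorem nth_sum (n : ℕ) : ∑ j ∈ range (Nat.count Nat.Prime n), Nat.nth Nat.Prime j =
    ∑ k ∈ range n, if k.Prime then k else 0 := by
  induction n with
  | zero => simp
  | succ n ih =>
    rw [Nat.count_succ, sum_range_succ]
    by_cases h : n.Prime
    · rw [if_pos h, if_pos h, sum_range_succ, ih, Nat.nth_count h]
    · rw [if_neg h, if_neg h, add_zero, add_zero, ih]

theorem sum_eq_O (g : ℕ → ℕ) {x : ℕ} (hx : 2 ≤ x) :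
    ∑ k ∈ range (x + 1), (if k.Prime then g k else 0) = g 2 + O g x := by
  have e : g 2 = ∑ k ∈ range (x + 1), if k = 2 then g 2 else 0 := by
    rw [sum_ite_eq' (range (x + 1)) 2 (fun _ => g 2), if_pos (mem_range.2 (by omega))]
  rw [e]
  unfold O
  rw [← sum_add_distrib]
  refine sum_congr rfl fun k _ => ?_
  by_cases h2 : k = 2
  · subst h2; simp [Nat.prime_two]
  · simp [h2]

theorem count_eq_O {x : ℕ} (hx : 2 ≤ x) :
    Nat.count Nat.Prime (x + 1) = 1 + O (fun _ => 1) x := by
  rw [Nat.count_eq_card_filter_range, card_filter, sum_eq_O (fun _ => 1) hx]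

theorem gen {n x1 x2 V : ℕ} (hn : 1 ≤ n) (h1 : x1.Prime) (hx2 : 2 ≤ x2)
    (c1 : O (fun _ => 1) x1 + 1 = n) (c2 : O (fun _ => 1) x2 + 1 = 2 * n)
    (hV : V + O (fun m => m) x1 = O (fun m => m) x2 + x1) :
    ∑ k ∈ Icc n (2 * n), Nat.nth Nat.Prime (k - 1) = V := by
  have e1 : ∑ k ∈ Icc n (2 * n), Nat.nth Nat.Prime (k - 1) =
      ∑ j ∈ Ico (n - 1) (2 * n), Nat.nth Nat.Prime j := by
    have h := Finset.sum_Ico_add' (fun k => Nat.nth Nat.Prime (k - 1)) (n - 1) (2 * n) 1
    simp only [Nat.add_sub_cancel] at h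
    rw [h, show n - 1 + 1 = n by omega]
    rfl
  have e2 : ∑ j ∈ range (2 * n), Nat.nth Nat.Prime j = 2 + O (fun m => m) x2 := by
    have h := nth_sum (x2 + 1)
    rw [count_eq_O hx2, show 1 + O (fun _ => 1) x2 = 2 * n by omega,
      sum_eq_O (fun m => m) hx2] at h
    exact h
  have hc : Nat.count Nat.Prime x1 = n - 1 := by
    have h := count_eq_O h1.two_le
    rw [Nat.count_succ, if_pos h1] at h
    omega
  have e3 : ∑ j ∈ range (n - 1), Nat.nth Nat.Prime j + x1 = 2 + O (fun m => m) x1 := by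
    have h := nth_sum x1
    rw [hc] at h
    have h' := sum_eq_O (fun m => m) h1.two_le
    rw [sum_range_succ, if_pos h1] at h'
    rw [h, h']
  have e4 := Finset.sum_range_add_sum_Ico (fun j => Nat.nth Nat.Prime j)
    (show n - 1 ≤ 2 * n by omega)
  rw [e1]
  omega

/-- trial division by the `2 ^ k` odd numbers from `d` on -/
noncomputable def td (n k : Nat) : Nat → Bool :=
  Nat.rec (motive := fun _ => Nat → Bool) (fun d => Nat.ble 1 (Nat.mod n d))
    (fun k' ih d => an (ih d) (seqB (Nat.add d (Nat.pow (nat_lit 2) (Nat.succ k'))) fun e =>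
      ih e)) k

theorem td_spec (n k : ℕ) : ∀ d, td n k d = true → ∀ j < 2 ^ k, ¬ (d + 2 * j) ∣ n := by
  induction k with
  | zero =>
    intro d h j hj hd
    have e : td n 0 d = Nat.ble 1 (n % d) := rfl
    rw [e, ble_iff] at h
    have hj0 : j = 0 := by simpa using hj
    subst hj0
    rw [mul_zero, add_zero] at hd
    rw [Nat.mod_eq_zero_of_dvd hd] at h
    omega
  | succ k ih =>
    intro d h j hj
    have e : td n (k + 1) d = an (td n k d) (seqB (d + 2 ^ (k + 1)) fun e => td n k e) := rfl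
    rw [e, an_eq, seqB_eq] at h
    rcases Nat.lt_or_ge j (2 ^ k) with h1 | h1
    · exact ih d h.1 j h1
    · obtain ⟨l, rfl⟩ := Nat.exists_eq_add_of_le h1
      have h2 := ih _ h.2 l (by rw [pow_succ] at hj; omega)
      rwa [show d + 2 ^ (k + 1) + 2 * l = d + 2 * (2 ^ k + l) by rw [pow_succ]; ring] at h2

theorem prime_of_td {n : ℕ} (hn : 1 < n) (h2 : n % 2 = 1) (hb : n < 65537 * 65537)
    (h : td n 15 3 = true) : n.Prime := by
  by_contra hp
  have h1 := Nat.minFac_sq_le_self (by omega : 0 < n) hp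
  have h3 := Nat.minFac_dvd n
  have h4 : n.minFac % 2 = 1 := by
    rcases Nat.mod_two_eq_zero_or_one n.minFac with h | h
    · have : 2 ∣ n := (Nat.dvd_of_mod_eq_zero h).trans h3
      omega
    · exact h
  have h5 : 2 ≤ n.minFac := (Nat.minFac_prime (by omega)).two_le
  have h6 : n.minFac < 65537 := by nlinarith
  refine td_spec n 15 3 h ((n.minFac - 3) / 2) (by norm_num; omega) ?_
  rwa [show 3 + 2 * ((n.minFac - 3) / 2) = n.minFac by omega]

theorem x1_prime : Nat.Prime 2274652151 :=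
  prime_of_td (by norm_num) (by norm_num) (by norm_num) (by decide +kernel)

end Pool.Agent.Q254.PS
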