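import Pool.Agent.Q254.PS.Sieve
import Pool.Agent.Q254.PS.NT

set_option autoImplicit false

namespace Pool.Agent.Q254.PS

open Finset

attribute [local irreducible] num

/-- the number of the odd primes `≤ 2 i` -/
noncomputable def Cn (i : ℕ) : ℕ := ∑ j ∈ range i, bb j

/-- the sum of the odd primes `≤ 2 i` -/
noncomputable def Sm (i : ℕ) : ℕ := ∑ j ∈ range i, bb j * (2 * j + 1)

theorem Cn_add (a b : ℕ) : Cn (a + b) = Cn a + ∑ i ∈ range b, bb (a + i) := by
  unfold Cn; rw [sum_range_add]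

theorem Sm_add (a b : ℕ) :
    Sm (a + b) = Sm a + ∑ i ∈ range b, bb (a + i) * (2 * a + 2 * i + 1) := by
  unfold Sm; rw [sum_range_add]
  congr 1
  refine sum_congr rfl fun i _ => ?_
  rw [show 2 * (a + i) + 1 = 2 * a + 2 * i + 1 by ring]

def TOK (t : T) (i0 n : ℕ) : Prop :=
  ∀ z, 2 * i0 ≤ z → z < 2 * (i0 + n) → getC t z = Cn ((z + 1) / 2) ∧ getS t z = Sm ((z + 1) / 2)

theorem TOK_nd {m : ℕ} {l r : T} {i0 n n' : ℕ} (hl : TOK l i0 n) (hr : TOK r (i0 + n) n')
    (hm : m = 2 * (i0 + n)) : TOK (T.nd m l r) i0 (n + n') := by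
  intro z h1 h2
  have e1 : getC (T.nd m l r) z = ite' (Nat.ble m z) (getC r z) (getC l z) := rfl
  have e2 : getS (T.nd m l r) z = ite' (Nat.ble m z) (getS r z) (getS l z) := rfl
  rw [e1, e2, ite'_ble, ite'_ble]
  split_ifs with h
  · exact hr z (by omega) (by omega)
  · exact hl z (by omega) (by omega)

theorem beq_iff (a b : ℕ) : Nat.beq a b = true ↔ a = b :=
  ⟨Nat.eq_of_beq_eq_true, fun h => by rw [h]; exact Nat.beq_refl b⟩

theorem ble_iff (a b : ℕ) : Nat.ble a b = true ↔ a ≤ b :=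
  ⟨Nat.le_of_ble_eq_true, Nat.ble_eq_true_of_le⟩

theorem chk_ok (t : T) : ∀ (d i0 F c s cE sE : ℕ), chk t d i0 F c s cE sE = true →
    F = num (344 * 2 ^ d) (fun i => bb (i0 + i)) → c = Cn i0 → s = Sm i0 →
    TOK t i0 (344 * 2 ^ d) ∧ cE = Cn (i0 + 344 * 2 ^ d) ∧ sE = Sm (i0 + 344 * 2 ^ d) := by
  induction t with
  | lf lo bc bs A =>
    intro d i0 F c s cE sE h hF hc hs
    have e : chk (T.lf lo bc bs A) d i0 F c s cE sE =
      an (Nat.beq d 0) (an (Nat.beq lo (2 * i0)) (an (Nat.beq A F) (an (Nat.beq bc c)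
        (an (Nat.beq bs s) (an (Nat.beq cE (lfC lo bc A (lo + 687)))
          (Nat.beq sE (lfS lo bs A (lo + 687)))))))) := rfl
    rw [e] at h
    simp only [an_eq, beq_iff] at h
    obtain ⟨h1, h2, h3, h4, h5, h6, h7⟩ := h
    subst h1
    have hn : 344 * 2 ^ 0 = 344 := by norm_num
    rw [hn] at hF ⊢
    rw [hF] at h3
    subst h3
    refine ⟨?_, ?_, ?_⟩
    · intro z hz1 hz2
      have e1 : getC (T.lf lo bc bs (num 344 fun i => bb (i0 + i))) z =
        lfC lo bc (num 344 fun i => bb (i0 + i)) z := rfl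
      have e2 : getS (T.lf lo bc bs (num 344 fun i => bb (i0 + i))) z =
        lfS lo bs (num 344 fun i => bb (i0 + i)) z := rfl
      have hz : (z + 1) / 2 = i0 + (z + 1 - lo) / 2 := by omega
      rw [e1, e2, lfC_eq (fun i => bb_le _) rfl (by omega),
        lfS_eq (fun i => bb_le _) rfl (by omega), hz, Cn_add, Sm_add, h4, h5, hc, hs, h2]
      exact ⟨rfl, rfl⟩
    · rw [h6, lfC_eq (m := 344) (fun i => bb_le _) (by omega) le_rfl, Cn_add, h4, hc]
    · rw [h7, lfS_eq (m := 344) (fun i => bb_le _) (by omega) le_rfl, Sm_add, h5, hs, h2]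
  | nd m l r ihl ihr =>
    intro d i0 F c s cE sE h hF hc hs
    have e : chk (T.nd m l r) d i0 F c s cE sE =
      an (Nat.ble 1 d) (seqB (d - 1) fun d' => seqB (344 * 2 ^ d') fun n2 =>
        seqB (i0 + n2) fun i1 => an (Nat.beq m (2 * i1))
        (seqB (fstC r) fun c' => seqB (fstS r) fun s' =>
        an (seqB (F % 65536 ^ n2) fun Fl => chk l d' i0 Fl c s c' s')
          (seqB (F / 65536 ^ n2) fun Fr => chk r d' i1 Fr c' s' cE sE))) := rfl
    rw [e] at h
    simp only [an_eq, seqB_eq, beq_iff, ble_iff] at h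
    obtain ⟨h1, h2, h3, h4⟩ := h
    obtain ⟨d', rfl⟩ : ∃ d', d = d' + 1 := ⟨d - 1, by omega⟩
    rw [Nat.add_sub_cancel] at h2 h3 h4
    have hn : 344 * 2 ^ (d' + 1) = 344 * 2 ^ d' + 344 * 2 ^ d' := by rw [pow_succ]; ring
    rw [hn] at hF ⊢
    have hb : ∀ i, bb (i0 + i) < 65536 := fun i => (bb_le _).trans_lt (by norm_num)
    have hFl : F % 65536 ^ (344 * 2 ^ d') = num (344 * 2 ^ d') (fun i => bb (i0 + i)) := by
      rw [hF, num_mod hb]
    have hFr : F / 65536 ^ (344 * 2 ^ d') =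
        num (344 * 2 ^ d') (fun i => bb (i0 + 344 * 2 ^ d' + i)) := by
      rw [hF, num_div hb]
      exact num_congr fun i _ => by rw [add_assoc]
    obtain ⟨a1, a2, a3⟩ := ihl _ _ _ _ _ _ _ h3 hFl hc hs
    obtain ⟨b1, b2, b3⟩ := ihr _ _ _ _ _ _ _ h4 hFr a2 a3
    refine ⟨TOK_nd a1 b1 h2, ?_, ?_⟩
    · rw [b2, add_assoc]
    · rw [b3, add_assoc]

theorem chkSegG_eq (len k d : ℕ) (t : T) (i0 c s cE sE : ℕ) :
    chkSegG len k d t i0 c s cE sE = chk t d i0 (num len (fun _ => 1) -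
      ((ite' (Nat.beq i0 0) 1 0 ||| orr i0 len k 3) &&& num len (fun _ => 1))) c s cE sE := by
  have e : chkSegG len k d t i0 c s cE sE =
    seqB (ite' (Nat.beq i0 0) 1 0 ||| orr i0 len k 3) fun W => seqB (65536 ^ len / 65535) fun O =>
    seqB (O - (W &&& O)) fun F => chk t d i0 F c s cE sE := rfl
  rw [e, seqB_eq, seqB_eq, seqB_eq, num_one']

theorem chkSeg_ok {t : T} {i0 c s cE sE : ℕ} (h : chkSeg t i0 c s cE sE = true)
    (hi : 2 * (i0 + 44032) ≤ 2818048) (hc : c = Cn i0) (hs : s = Sm i0) :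
    TOK t i0 44032 ∧ cE = Cn (i0 + 44032) ∧ sE = Sm (i0 + 44032) := by
  have e : chkSeg t i0 c s cE sE = chkSegG 44032 10 7 t i0 c s cE sE := rfl
  rw [e, chkSegG_eq] at h
  have h1 := FF_eq hi
  unfold WW at h1
  rw [h1] at h
  have h2 := chk_ok t 7 i0 _ c s cE sE h (by norm_num) hc hs
  have h3 : 344 * 2 ^ 7 = 44032 := by norm_num
  rw [h3] at h2
  exact h2

theorem Cn_zero : 0 = Cn 0 := by simp [Cn]
theorem Sm_zero : 0 = Sm 0 := by simp [Sm]

theorem O_eq (z : ℕ) : O (fun _ => 1) z = Cn ((z + 1) / 2) ∧ O (fun n => n) z = Sm ((z + 1) / 2) := by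
  induction z with
  | zero =>
    constructor
    · simp [O, Cn, Nat.not_prime_zero]
    · simp [O, Sm, Nat.not_prime_zero]
  | succ z ih =>
    rw [O_succ, O_succ, ih.1, ih.2]
    rcases Nat.even_or_odd' z with ⟨m, rfl | rfl⟩
    · have e1 : (2 * m + 1) / 2 = m := by omega
      have e2 : (2 * m + 1 + 1) / 2 = m + 1 := by omega
      rw [e1, e2, Cn_add, Sm_add, sum_range_one, sum_range_one]
      unfold bb
      simp only [add_zero, mul_zero]
      constructor
      · trivial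
      · split_ifs <;> simp
    · have e1 : (2 * m + 1 + 1) / 2 = m + 1 := by omega
      have e2 : (2 * m + 1 + 1 + 1) / 2 = m + 1 := by omega
      rw [e1, e2]
      have h : ¬ ((2 * m + 1 + 1).Prime ∧ 2 * m + 1 + 1 ≠ 2) := by
        rintro ⟨h1, h2⟩
        have h3 : 2 ∣ 2 * m + 1 + 1 := ⟨m + 1, by ring⟩
        have := (Nat.prime_dvd_prime_iff_eq Nat.prime_two h1).1 h3
        omega
      rw [if_neg h, if_neg h]
      simp

theorem get_ok {t : T} {n : ℕ} (h : TOK t 0 n) {z : ℕ} (hz : z < 2 * n) :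
    getC t z = O (fun _ => 1) z ∧ getS t z = O (fun n => n) z := by
  rw [(O_eq z).1, (O_eq z).2]
  exact h z (by omega) (by omega)

end Pool.Agent.Q254.PS
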