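import Pool.Agent.Q254.PS.NumS
import Pool.Agent.Q254.PS.PhiOK

set_option autoImplicit false

namespace Pool.Agent.Q254.PS

theorem TOK_nd' {m : ℕ} {l r : T} {i0 i1 n n' N : ℕ} (hl : TOK l i0 n) (hr : TOK r i1 n')
    (hi : i1 = i0 + n) (hN : N = n + n') (hm : m = 2 * i1) : TOK (T.nd m l r) i0 N := by
  subst hi; subst hN; exact TOK_nd hl hr hm

theorem s0 : TOK t0 0 44032 ∧ 8547 = Cn 44032 ∧ 356226139 = Sm 44032 :=
  chkSeg_ok seg0 (by norm_num) Cn_zero Sm_zero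

theorem s1 : TOK t1 44032 44032 ∧ 16002 = Cn 88064 ∧ 1337221776 = Sm 88064 :=
  chkSeg_ok seg1 (by norm_num) s0.2.1 s0.2.2

theorem s2 : TOK t2 88064 44032 ∧ 23167 = Cn 132096 ∧ 2912032289 = Sm 132096 :=
  chkSeg_ok seg2 (by norm_num) s1.2.1 s1.2.2

theorem s3 : TOK t3 132096 44032 ∧ 30151 = Cn 176128 ∧ 5063965391 = Sm 176128 :=
  chkSeg_ok seg3 (by norm_num) s2.2.1 s2.2.2

theorem s4 : TOK t4 176128 44032 ∧ 36963 = Cn 220160 ∧ 7763497091 = Sm 220160 :=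
  chkSeg_ok seg4 (by norm_num) s3.2.1 s3.2.2

theorem s5 : TOK t5 220160 44032 ∧ 43702 = Cn 264192 ∧ 11027623388 = Sm 264192 :=
  chkSeg_ok seg5 (by norm_num) s4.2.1 s4.2.2

theorem s6 : TOK t6 264192 44032 ∧ 50344 = Cn 308224 ∧ 14830295456 = Sm 308224 :=
  chkSeg_ok seg6 (by norm_num) s5.2.1 s5.2.2

theorem s7 : TOK t7 308224 44032 ∧ 56883 = Cn 352256 ∧ 19149761303 = Sm 352256 :=
  chkSeg_ok seg7 (by norm_num) s6.2.1 s6.2.2

theorem s8 : TOK t8 352256 44032 ∧ 63401 = Cn 396288 ∧ 24028525905 = Sm 396288 :=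
  chkSeg_ok seg8 (by norm_num) s7.2.1 s7.2.2

theorem s9 : TOK t9 396288 44032 ∧ 69871 = Cn 440320 ∧ 29441210061 = Sm 440320 :=
  chkSeg_ok seg9 (by norm_num) s8.2.1 s8.2.2

theorem s10 : TOK t10 440320 44032 ∧ 76257 = Cn 484352 ∧ 35345490357 = Sm 484352 :=
  chkSeg_ok seg10 (by norm_num) s9.2.1 s9.2.2

theorem s11 : TOK t11 484352 44032 ∧ 82603 = Cn 528384 ∧ 41771752225 = Sm 528384 :=
  chkSeg_ok seg11 (by norm_num) s10.2.1 s10.2.2

theorem s12 : TOK t12 528384 44032 ∧ 88937 = Cn 572416 ∧ 48743802933 = Sm 572416 :=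
  chkSeg_ok seg12 (by norm_num) s11.2.1 s11.2.2

theorem s13 : TOK t13 572416 44032 ∧ 95254 = Cn 616448 ∧ 56252146414 = Sm 616448 :=
  chkSeg_ok seg13 (by norm_num) s12.2.1 s12.2.2

theorem s14 : TOK t14 616448 44032 ∧ 101494 = Cn 660480 ∧ 64219513448 = Sm 660480 :=
  chkSeg_ok seg14 (by norm_num) s13.2.1 s13.2.2

theorem s15 : TOK t15 660480 44032 ∧ 107737 = Cn 704512 ∧ 72740861161 = Sm 704512 :=
  chkSeg_ok seg15 (by norm_num) s14.2.1 s14.2.2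

theorem s16 : TOK t16 704512 44032 ∧ 113966 = Cn 748544 ∧ 81792728328 = Sm 748544 :=
  chkSeg_ok seg16 (by norm_num) s15.2.1 s15.2.2

theorem s17 : TOK t17 748544 44032 ∧ 120113 = Cn 792576 ∧ 91265314317 = Sm 792576 :=
  chkSeg_ok seg17 (by norm_num) s16.2.1 s16.2.2

theorem s18 : TOK t18 792576 44032 ∧ 126261 = Cn 836608 ∧ 101281809871 = Sm 836608 :=
  chkSeg_ok seg18 (by norm_num) s17.2.1 s17.2.2

theorem s19 : TOK t19 836608 44032 ∧ 132368 = Cn 880640 ∧ 111767869076 = Sm 880640 :=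
  chkSeg_ok seg19 (by norm_num) s18.2.1 s18.2.2

theorem s20 : TOK t20 880640 44032 ∧ 138499 = Cn 924672 ∧ 122836116155 = Sm 924672 :=
  chkSeg_ok seg20 (by norm_num) s19.2.1 s19.2.2

theorem s21 : TOK t21 924672 44032 ∧ 144621 = Cn 968704 ∧ 134426594833 = Sm 968704 :=
  chkSeg_ok seg21 (by norm_num) s20.2.1 s20.2.2

theorem s22 : TOK t22 968704 44032 ∧ 150697 = Cn 1012736 ∧ 146466141817 = Sm 1012736 :=
  chkSeg_ok seg22 (by norm_num) s21.2.1 s21.2.2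

theorem s23 : TOK t23 1012736 44032 ∧ 156741 = Cn 1056768 ∧ 158973711851 = Sm 1056768 :=
  chkSeg_ok seg23 (by norm_num) s22.2.1 s22.2.2

theorem s24 : TOK t24 1056768 44032 ∧ 162775 = Cn 1100800 ∧ 171991291929 = Sm 1100800 :=
  chkSeg_ok seg24 (by norm_num) s23.2.1 s23.2.2

theorem s25 : TOK t25 1100800 44032 ∧ 168800 = Cn 1144832 ∧ 185521055894 = Sm 1144832 :=
  chkSeg_ok seg25 (by norm_num) s24.2.1 s24.2.2

theorem s26 : TOK t26 1144832 44032 ∧ 174764 = Cn 1188864 ∧ 199438932258 = Sm 1188864 :=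
  chkSeg_ok seg26 (by norm_num) s25.2.1 s25.2.2

theorem s27 : TOK t27 1188864 44032 ∧ 180768 = Cn 1232896 ∧ 213979282562 = Sm 1232896 :=
  chkSeg_ok seg27 (by norm_num) s26.2.1 s26.2.2

theorem s28 : TOK t28 1232896 44032 ∧ 186719 = Cn 1276928 ∧ 228915654795 = Sm 1276928 :=
  chkSeg_ok seg28 (by norm_num) s27.2.1 s27.2.2

theorem s29 : TOK t29 1276928 44032 ∧ 192703 = Cn 1320960 ∧ 244460799289 = Sm 1320960 :=
  chkSeg_ok seg29 (by norm_num) s28.2.1 s28.2.2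

theorem s30 : TOK t30 1320960 44032 ∧ 198663 = Cn 1364992 ∧ 260468459323 = Sm 1364992 :=
  chkSeg_ok seg30 (by norm_num) s29.2.1 s29.2.2

theorem s31 : TOK t31 1364992 44032 ∧ 204612 = Cn 1409024 ∧ 276973017234 = Sm 1409024 :=
  chkSeg_ok seg31 (by norm_num) s30.2.1 s30.2.2

theorem n0_2 : TOK (T.nd (nat_lit 88064) (t0) (t1)) 0 88064 :=
  TOK_nd' s0.1 s1.1 rfl rfl rfl

theorem n2_4 : TOK (T.nd (nat_lit 264192) (t2) (t3)) 88064 88064 :=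
  TOK_nd' s2.1 s3.1 rfl rfl rfl

theorem n0_4 : TOK (T.nd (nat_lit 176128) (T.nd (nat_lit 88064) (t0) (t1)) (T.nd (nat_lit 264192) (t2) (t3))) 0 176128 :=
  TOK_nd' n0_2 n2_4 rfl rfl rfl

theorem n4_6 : TOK (T.nd (nat_lit 440320) (t4) (t5)) 176128 88064 :=
  TOK_nd' s4.1 s5.1 rfl rfl rfl

theorem n6_8 : TOK (T.nd (nat_lit 616448) (t6) (t7)) 264192 88064 :=
  TOK_nd' s6.1 s7.1 rfl rfl rfl

theorem n4_8 : TOK (T.nd (nat_lit 528384) (T.nd (nat_lit 440320) (t4) (t5)) (T.nd (nat_lit 616448) (t6) (t7))) 176128 176128 :=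
  TOK_nd' n4_6 n6_8 rfl rfl rfl

theorem n0_8 : TOK (T.nd (nat_lit 352256) (T.nd (nat_lit 176128) (T.nd (nat_lit 88064) (t0) (t1)) (T.nd (nat_lit 264192) (t2) (t3))) (T.nd (nat_lit 528384) (T.nd (nat_lit 440320) (t4) (t5)) (T.nd (nat_lit 616448) (t6) (t7)))) 0 352256 :=
  TOK_nd' n0_4 n4_8 rfl rfl rfl

theorem n8_10 : TOK (T.nd (nat_lit 792576) (t8) (t9)) 352256 88064 :=
  TOK_nd' s8.1 s9.1 rfl rfl rfl

theorem n10_12 : TOK (T.nd (nat_lit 968704) (t10) (t11)) 440320 88064 :=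
  TOK_nd' s10.1 s11.1 rfl rfl rfl

theorem n8_12 : TOK (T.nd (nat_lit 880640) (T.nd (nat_lit 792576) (t8) (t9)) (T.nd (nat_lit 968704) (t10) (t11))) 352256 176128 :=
  TOK_nd' n8_10 n10_12 rfl rfl rfl

theorem n12_14 : TOK (T.nd (nat_lit 1144832) (t12) (t13)) 528384 88064 :=
  TOK_nd' s12.1 s13.1 rfl rfl rfl

theorem n14_16 : TOK (T.nd (nat_lit 1320960) (t14) (t15)) 616448 88064 :=
  TOK_nd' s14.1 s15.1 rfl rfl rfl

theorem n12_16 : TOK (T.nd (nat_lit 1232896) (T.nd (nat_lit 1144832) (t12) (t13)) (T.nd (nat_lit 1320960) (t14) (t15))) 528384 176128 :=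
  TOK_nd' n12_14 n14_16 rfl rfl rfl

theorem n8_16 : TOK (T.nd (nat_lit 1056768) (T.nd (nat_lit 880640) (T.nd (nat_lit 792576) (t8) (t9)) (T.nd (nat_lit 968704) (t10) (t11))) (T.nd (nat_lit 1232896) (T.nd (nat_lit 1144832) (t12) (t13)) (T.nd (nat_lit 1320960) (t14) (t15)))) 352256 352256 :=
  TOK_nd' n8_12 n12_16 rfl rfl rfl

theorem n0_16 : TOK (T.nd (nat_lit 704512) (T.nd (nat_lit 352256) (T.nd (nat_lit 176128) (T.nd (nat_lit 88064) (t0) (t1)) (T.nd (nat_lit 264192) (t2) (t3))) (T.nd (nat_lit 528384) (T.nd (nat_lit 440320) (t4) (t5)) (T.nd (nat_lit 616448) (t6) (t7)))) (T.nd (nat_lit 1056768) (T.nd (nat_lit 880640) (T.nd (nat_lit 792576) (t8) (t9)) (T.nd (nat_lit 968704) (t10) (t11))) (T.nd (nat_lit 1232896) (T.nd (nat_lit 1144832) (t12) (t13)) (T.nd (nat_lit 1320960) (t14) (t15))))) 0 704512 :=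
  TOK_nd' n0_8 n8_16 rfl rfl rfl

theorem n16_18 : TOK (T.nd (nat_lit 1497088) (t16) (t17)) 704512 88064 :=
  TOK_nd' s16.1 s17.1 rfl rfl rfl

theorem n18_20 : TOK (T.nd (nat_lit 1673216) (t18) (t19)) 792576 88064 :=
  TOK_nd' s18.1 s19.1 rfl rfl rfl

theorem n16_20 : TOK (T.nd (nat_lit 1585152) (T.nd (nat_lit 1497088) (t16) (t17)) (T.nd (nat_lit 1673216) (t18) (t19))) 704512 176128 :=
  TOK_nd' n16_18 n18_20 rfl rfl rfl

theorem n20_22 : TOK (T.nd (nat_lit 1849344) (t20) (t21)) 880640 88064 :=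
  TOK_nd' s20.1 s21.1 rfl rfl rfl

theorem n22_24 : TOK (T.nd (nat_lit 2025472) (t22) (t23)) 968704 88064 :=
  TOK_nd' s22.1 s23.1 rfl rfl rfl

theorem n20_24 : TOK (T.nd (nat_lit 1937408) (T.nd (nat_lit 1849344) (t20) (t21)) (T.nd (nat_lit 2025472) (t22) (t23))) 880640 176128 :=
  TOK_nd' n20_22 n22_24 rfl rfl rfl

theorem n16_24 : TOK (T.nd (nat_lit 1761280) (T.nd (nat_lit 1585152) (T.nd (nat_lit 1497088) (t16) (t17)) (T.nd (nat_lit 1673216) (t18) (t19))) (T.nd (nat_lit 1937408) (T.nd (nat_lit 1849344) (t20) (t21)) (T.nd (nat_lit 2025472) (t22) (t23)))) 704512 352256 :=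
  TOK_nd' n16_20 n20_24 rfl rfl rfl

theorem n24_26 : TOK (T.nd (nat_lit 2201600) (t24) (t25)) 1056768 88064 :=
  TOK_nd' s24.1 s25.1 rfl rfl rfl

theorem n26_28 : TOK (T.nd (nat_lit 2377728) (t26) (t27)) 1144832 88064 :=
  TOK_nd' s26.1 s27.1 rfl rfl rfl

theorem n24_28 : TOK (T.nd (nat_lit 2289664) (T.nd (nat_lit 2201600) (t24) (t25)) (T.nd (nat_lit 2377728) (t26) (t27))) 1056768 176128 :=
  TOK_nd' n24_26 n26_28 rfl rfl rfl

theorem n28_30 : TOK (T.nd (nat_lit 2553856) (t28) (t29)) 1232896 88064 :=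
  TOK_nd' s28.1 s29.1 rfl rfl rfl

theorem n30_32 : TOK (T.nd (nat_lit 2729984) (t30) (t31)) 1320960 88064 :=
  TOK_nd' s30.1 s31.1 rfl rfl rfl

theorem n28_32 : TOK (T.nd (nat_lit 2641920) (T.nd (nat_lit 2553856) (t28) (t29)) (T.nd (nat_lit 2729984) (t30) (t31))) 1232896 176128 :=
  TOK_nd' n28_30 n30_32 rfl rfl rfl

theorem n24_32 : TOK (T.nd (nat_lit 2465792) (T.nd (nat_lit 2289664) (T.nd (nat_lit 2201600) (t24) (t25)) (T.nd (nat_lit 2377728) (t26) (t27))) (T.nd (nat_lit 2641920) (T.nd (nat_lit 2553856) (t28) (t29)) (T.nd (nat_lit 2729984) (t30) (t31)))) 1056768 352256 :=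
  TOK_nd' n24_28 n28_32 rfl rfl rfl

theorem n16_32 : TOK (T.nd (nat_lit 2113536) (T.nd (nat_lit 1761280) (T.nd (nat_lit 1585152) (T.nd (nat_lit 1497088) (t16) (t17)) (T.nd (nat_lit 1673216) (t18) (t19))) (T.nd (nat_lit 1937408) (T.nd (nat_lit 1849344) (t20) (t21)) (T.nd (nat_lit 2025472) (t22) (t23)))) (T.nd (nat_lit 2465792) (T.nd (nat_lit 2289664) (T.nd (nat_lit 2201600) (t24) (t25)) (T.nd (nat_lit 2377728) (t26) (t27))) (T.nd (nat_lit 2641920) (T.nd (nat_lit 2553856) (t28) (t29)) (T.nd (nat_lit 2729984) (t30) (t31))))) 704512 704512 :=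
  TOK_nd' n16_24 n24_32 rfl rfl rfl

theorem n0_32 : TOK (T.nd (nat_lit 1409024) (T.nd (nat_lit 704512) (T.nd (nat_lit 352256) (T.nd (nat_lit 176128) (T.nd (nat_lit 88064) (t0) (t1)) (T.nd (nat_lit 264192) (t2) (t3))) (T.nd (nat_lit 528384) (T.nd (nat_lit 440320) (t4) (t5)) (T.nd (nat_lit 616448) (t6) (t7)))) (T.nd (nat_lit 1056768) (T.nd (nat_lit 880640) (T.nd (nat_lit 792576) (t8) (t9)) (T.nd (nat_lit 968704) (t10) (t11))) (T.nd (nat_lit 1232896) (T.nd (nat_lit 1144832) (t12) (t13)) (T.nd (nat_lit 1320960) (t14) (t15))))) (T.nd (nat_lit 2113536) (T.nd (nat_lit 1761280) (T.nd (nat_lit 1585152) (T.nd (nat_lit 1497088) (t16) (t17)) (T.nd (nat_lit 1673216) (t18) (t19))) (T.nd (nat_lit 1937408) (T.nd (nat_lit 1849344) (t20) (t21)) (T.nd (nat_lit 2025472) (t22) (t23)))) (T.nd (nat_lit 2465792) (T.nd (nat_lit 2289664) (T.nd (nat_lit 2201600) (t24) (t25)) (T.nd (nat_lit 2377728)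 (t26) (t27))) (T.nd (nat_lit 2641920) (T.nd (nat_lit 2553856) (t28) (t29)) (T.nd (nat_lit 2729984) (t30) (t31)))))) 0 1409024 :=
  TOK_nd' n0_16 n16_32 rfl rfl rfl

theorem tbl_ok : TabOK 2818048 := by
  intro z hz
  have h : TOK tbl 0 1409024 := n0_32
  exact get_ok h (by omega)

end Pool.Agent.Q254.PS
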