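import Pool.Agent.Q254.PS.Wheel
import Pool.Agent.Q254.PS.Table

set_option autoImplicit false

namespace Pool.Agent.Q254.PS

open Finset

theorem chkW_spec (n : ℕ) (h : chkW n = true) : ∀ r < n,
    wc (r + 1) = wc r + (if Nat.gcd (r + 1) 2310 = 1 then 1 else 0) ∧
    ws (r + 1) = ws r + (if Nat.gcd (r + 1) 2310 = 1 then 1 else 0) * (r + 1) := by
  induction n with
  | zero => intro r hr; omega
  | succ n ih =>
    have e : chkW (n + 1) = an (chkW n) (seqB n fun r =>
      seqB (ite' (Nat.beq (Nat.gcd (r + 1) 2310) 1) 1 0)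
      fun b => an (Nat.beq (wc (r + 1)) (wc r + b))
        (Nat.beq (ws (r + 1)) (ws r + b * (r + 1)))) := rfl
    rw [e] at h
    simp only [an_eq, seqB_eq, beq_iff, ite'_beq] at h
    intro r hr
    rcases Nat.lt_succ_iff_lt_or_eq.1 hr with h1 | rfl
    · exact ih h.1 r h1
    · exact h.2

theorem whC_succ (z : ℕ) :
    whC (z + 1) = whC z + if Nat.gcd (z + 1) 2310 = 1 then 1 else 0 := by
  have e : ∀ z, whC z = z / 2310 * 480 + wc (z % 2310) := fun z => rfl
  rw [e, e]
  obtain ⟨k, r, hr, rfl⟩ : ∃ k r, r < 2310 ∧ z = 2310 * k + r :=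
    ⟨z / 2310, z % 2310, Nat.mod_lt _ (by norm_num), (Nat.div_add_mod z 2310).symm⟩
  have e1 : (2310 * k + r) / 2310 = k := by omega
  have e2 : (2310 * k + r) % 2310 = r := by omega
  rw [e1, e2]
  rcases Nat.lt_or_ge r 2309 with h | h
  · have e3 : (2310 * k + r + 1) / 2310 = k := by omega
    have e4 : (2310 * k + r + 1) % 2310 = r + 1 := by omega
    have e5 : Nat.gcd (2310 * k + r + 1) 2310 = Nat.gcd (r + 1) 2310 := by
      rw [show 2310 * k + r + 1 = r + 1 + 2310 * k by ring, Nat.gcd_add_mul_left_left]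
    simp only [e3, e4, e5, (chkW_spec 2309 chkW_ok r h).1]
    ring
  · have e3 : (2310 * k + r + 1) / 2310 = k + 1 := by omega
    have e4 : (2310 * k + r + 1) % 2310 = 0 := by omega
    have e5 : Nat.gcd (2310 * k + r + 1) 2310 ≠ 1 := by
      rw [show 2310 * k + r + 1 = 2310 * (k + 1) by omega, Nat.gcd_mul_right_left]
      norm_num
    rw [e3, e4, if_neg e5, wc0, show r = 2309 by omega, wc1]
    ring

theorem whS_succ (z : ℕ) :
    whS (z + 1) = whS z + if Nat.gcd (z + 1) 2310 = 1 then z + 1 else 0 := by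
  have e : ∀ z, whS z = 554400 * (z / 2310 * (z / 2310)) + 2310 * (z / 2310) * wc (z % 2310) +
    ws (z % 2310) := fun z => rfl
  rw [e, e]
  obtain ⟨k, r, hr, rfl⟩ : ∃ k r, r < 2310 ∧ z = 2310 * k + r :=
    ⟨z / 2310, z % 2310, Nat.mod_lt _ (by norm_num), (Nat.div_add_mod z 2310).symm⟩
  have e1 : (2310 * k + r) / 2310 = k := by omega
  have e2 : (2310 * k + r) % 2310 = r := by omega
  rw [e1, e2]
  rcases Nat.lt_or_ge r 2309 with h | h
  · have e3 : (2310 * k + r + 1) / 2310 = k := by omega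
    have e4 : (2310 * k + r + 1) % 2310 = r + 1 := by omega
    have e5 : Nat.gcd (2310 * k + r + 1) 2310 = Nat.gcd (r + 1) 2310 := by
      rw [show 2310 * k + r + 1 = r + 1 + 2310 * k by ring, Nat.gcd_add_mul_left_left]
    simp only [e3, e4, e5, (chkW_spec 2309 chkW_ok r h).1, (chkW_spec 2309 chkW_ok r h).2]
    split_ifs <;> ring
  · have e3 : (2310 * k + r + 1) / 2310 = k + 1 := by omega
    have e4 : (2310 * k + r + 1) % 2310 = 0 := by omega
    have e5 : Nat.gcd (2310 * k + r + 1) 2310 ≠ 1 := by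
      rw [show 2310 * k + r + 1 = 2310 * (k + 1) by omega, Nat.gcd_mul_right_left]
      norm_num
    rw [e3, e4, if_neg e5, wc0, ws0, show r = 2309 by omega, wc1, ws1]
    ring

theorem R13 {n : ℕ} (hn : n ≠ 0) : R 13 n ↔ Nat.gcd n 2310 = 1 := by
  constructor
  · rintro ⟨_, h⟩
    by_contra h1
    obtain ⟨p, hp, hd⟩ := Nat.exists_prime_and_dvd h1
    have h2 := h p hp (hd.trans (Nat.gcd_dvd_left _ _))
    have h3 : p ∣ 2 * 3 * 5 * 7 * 11 := hd.trans (Nat.gcd_dvd_right _ _)
    rw [hp.dvd_mul, hp.dvd_mul, hp.dvd_mul, hp.dvd_mul] at h3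
    rcases h3 with (((h3 | h3) | h3) | h3) | h3 <;>
      · have := Nat.le_of_dvd (by norm_num) h3
        omega
  · intro h
    refine ⟨hn, fun p hp hd => ?_⟩
    by_contra h1
    rw [not_le] at h1
    have h2 : p ∣ 2310 := by
      interval_cases p
      · exact absurd hp (by norm_num)
      · exact absurd hp (by norm_num)
      · norm_num
      · norm_num
      · exact absurd hp (by norm_num)
      · norm_num
      · exact absurd hp (by norm_num)
      · norm_num
      · exact absurd hp (by norm_num)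
      · exact absurd hp (by norm_num)
      · exact absurd hp (by norm_num)
      · norm_num
      · exact absurd hp (by norm_num)
    have h3 := Nat.dvd_gcd hd h2
    rw [h] at h3
    exact hp.one_lt.ne' (Nat.dvd_one.1 h3)

theorem Ps_succ (g : ℕ → ℕ) (z : ℕ) :
    Ps g (z + 1) 13 = Ps g z 13 + if Nat.gcd (z + 1) 2310 = 1 then g (z + 1) else 0 := by
  classical
  unfold Ps
  rw [sum_range_succ]
  congr 1
  simp [R13 (Nat.succ_ne_zero z)]

theorem Ps_zero (g : ℕ → ℕ) : Ps g 0 13 = 0 := by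
  classical
  unfold Ps
  simp [R]

theorem whC_eq (z : ℕ) : whC z = Ps (fun _ => 1) z 13 := by
  induction z with
  | zero =>
    rw [Ps_zero]
    have e : whC 0 = 0 / 2310 * 480 + wc (0 % 2310) := rfl
    rw [e, Nat.zero_mod, wc0]
  | succ z ih => rw [whC_succ, Ps_succ, ih]

theorem whS_eq (z : ℕ) : whS z = Ps (fun n => n) z 13 := by
  induction z with
  | zero =>
    rw [Ps_zero]
    have e : whS 0 = 554400 * (0 / 2310 * (0 / 2310)) + 2310 * (0 / 2310) * wc (0 % 2310) +
      ws (0 % 2310) := rfl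
    rw [e, Nat.zero_mod, wc0, ws0]
  | succ z ih => rw [whS_succ, Ps_succ, ih]

end Pool.Agent.Q254.PS
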